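import Mathlib

set_option autoImplicit false

namespace Pool.Agent.P.MP_389f6f_co
open Finset

section defs
variable {F : Type*} [CommRing F]

/-- elementary symmetric function of `f 0, …, f (N-1)` in integer degree. -/
def es : ℕ → (ℕ → F) → ℤ → F
  | 0, _, k => if k = 0 then 1 else 0
  | N + 1, f, k => es N f k + f N * es N f (k - 1)

/-- weight of the colour `s` (on an earlier vertex) against the colour `a` on a later vertex. -/
def om (q : F) (a s : ℕ) : F := if s < a then q else if s = a then 0 else 1

theorem es_neg (N : ℕ) (f : ℕ → F) (k : ℤ) (hk : k < 0) : es N f k = 0 := by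
  induction N generalizing k with
  | zero => simp [es]; omega
  | succ N ih => simp [es, ih k hk, ih (k - 1) (by omega)]

theorem es_zero (N : ℕ) (f : ℕ → F) : es N f 0 = 1 := by
  induction N with
  | zero => simp [es]
  | succ N ih => simp [es, ih, es_neg N f (-1) (by omega)]

theorem es_congr (N : ℕ) {f g : ℕ → F} (h : ∀ s < N, f s = g s) (k : ℤ) :
    es N f k = es N g k := by
  induction N generalizing k with
  | zero => simp [es]
  | succ N ih =>
    simp only [es]
    rw [ih (fun s hs => h s (by omega)), ih (fun s hs => h s (by omega)), h N (by omega)]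

theorem es_remove (N : ℕ) (f : ℕ → F) (a : ℕ) (ha : a < N) (k : ℤ) :
    es N f k = es N (fun s => if s = a then 0 else f s) k +
      f a * es N (fun s => if s = a then 0 else f s) (k - 1) := by
  induction N generalizing k with
  | zero => omega
  | succ N ih =>
    rcases Nat.lt_succ_iff_lt_or_eq.mp ha with h | h
    · simp only [es]
      rw [ih h k, ih h (k - 1), if_neg (by omega)]
      ring
    · subst h
      have e : ∀ k, es a (fun s => if s = a then 0 else f s) k = es a f k := fun k =>
        es_congr a (fun s hs => by rw [if_neg (by omega)]) k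
      simp [es, e]

theorem es_eq_sum (N : ℕ) (f : ℕ → F) (k : ℕ) :
    es N f k = ∑ T ∈ powersetCard k (range N), ∏ s ∈ T, f s := by
  induction N generalizing k with
  | zero =>
    rcases k with _ | k
    · simp [es]
    · rw [powersetCard_eq_empty.mpr (by simp)]
      simp only [es, sum_empty]
      rw [if_neg (by omega)]
  | succ N ih =>
    rcases k with _ | k
    · simp [es_zero]
    · rw [range_add_one, powersetCard_succ_insert notMem_range_self, sum_union, sum_image]
      · simp only [es]
        rw [ih (k + 1), show ((k + 1 : ℕ) : ℤ) - 1 = (k : ℤ) by push_cast; ring, ih k, mul_sum]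
        congr 1
        refine sum_congr rfl fun T hT => ?_
        rw [prod_insert]
        intro h
        have := (mem_powersetCard.mp hT).1 h
        simp at this
      · intro T hT T' hT' h
        have h1 : N ∉ T := fun h => by simpa using (mem_powersetCard.mp hT).1 h
        have h2 : N ∉ T' := fun h => by simpa using (mem_powersetCard.mp hT').1 h
        rw [← erase_insert h1, ← erase_insert h2]
        exact congrArg (fun S => Finset.erase S N) h
      · rw [disjoint_left]
        intro T hT hT'
        obtain ⟨S, _, rfl⟩ := mem_image.mp hT'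
        have := (mem_powersetCard.mp hT).1 (mem_insert_self N S)
        simp at this

theorem es_coeff (N : ℕ) (f : ℕ → F) (k : ℕ) :
    (∏ s ∈ range N, (1 + Polynomial.C (f s) * Polynomial.X)).coeff k = es N f k := by
  induction N generalizing k with
  | zero => simp [es, Polynomial.coeff_one]
  | succ N ih =>
    rw [prod_range_succ, mul_add, mul_one, Polynomial.coeff_add, ih, ← mul_assoc]
    simp only [es]
    congr 1
    rcases k with _ | k
    · simp [es_neg N f (-1) (by omega)]
    · rw [Polynomial.coeff_mul_X, Polynomial.coeff_mul_C, ih, mul_comm]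
      congr 2
      push_cast; ring

theorem es_conv (N : ℕ) {f g f' g' : ℕ → F} (h1 : ∀ s < N, f s + g s = f' s + g' s)
    (h2 : ∀ s < N, f s * g s = f' s * g' s) (d : ℕ) :
    ∑ i ∈ range (d + 1), es N f i * es N g ((d : ℤ) - i) =
      ∑ i ∈ range (d + 1), es N f' i * es N g' ((d : ℤ) - i) := by
  have key : ∀ f g : ℕ → F, ∑ i ∈ range (d + 1), es N f i * es N g ((d : ℤ) - i) =
      (∏ s ∈ range N, (1 + Polynomial.C (f s + g s) * Polynomial.X +
        Polynomial.C (f s * g s) * Polynomial.X ^ 2)).coeff d := by
    intro f g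
    have : (∏ s ∈ range N, (1 + Polynomial.C (f s + g s) * Polynomial.X +
        Polynomial.C (f s * g s) * Polynomial.X ^ 2)) =
        (∏ s ∈ range N, (1 + Polynomial.C (f s) * Polynomial.X)) *
        (∏ s ∈ range N, (1 + Polynomial.C (g s) * Polynomial.X)) := by
      rw [← prod_mul_distrib]
      refine prod_congr rfl fun s _ => ?_
      simp only [map_add, map_mul]; ring
    rw [this, Polynomial.coeff_mul, Finset.Nat.sum_antidiagonal_eq_sum_range_succ_mk]
    refine sum_congr rfl fun i hi => ?_
    have hi' : i ≤ d := by simpa [Nat.lt_succ_iff] using hi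
    rw [es_coeff, es_coeff, Nat.cast_sub hi']
  rw [key, key]
  congr 1
  refine prod_congr rfl fun s hs => ?_
  rw [h1 s (by simpa using hs), h2 s (by simpa using hs)]

end defs

section field
variable {F : Type*} [Field F]

theorem es_smul (N : ℕ) (f : ℕ → F) {c : F} (hc : c ≠ 0) (k : ℤ) :
    es N (fun s => c * f s) k = c ^ k * es N f k := by
  induction N generalizing k with
  | zero => by_cases h : k = 0 <;> simp [es, h]
  | succ N ih =>
    simp only [es, ih]
    rw [zpow_sub_one₀ hc]
    field_simp

/-- the `q`-integer `[n]`. -/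
noncomputable def qi (q : F) (n : ℤ) : F := (q ^ n - 1) / (q - 1)

theorem qi_zero (q : F) : qi q 0 = 0 := by simp [qi]

theorem zpow_mem {L : Subsemiring F} {q : F} (hq : q ∈ L) {n : ℤ} (hn : 0 ≤ n) : q ^ n ∈ L := by
  obtain ⟨m, rfl⟩ := Int.eq_ofNat_of_zero_le hn
  rw [zpow_natCast]; exact L.pow_mem hq m

theorem qi_mem {L : Subsemiring F} {q : F} (hq : q ∈ L) (hq1 : q - 1 ≠ 0) {n : ℤ} (hn : 0 ≤ n) :
    qi q n ∈ L := by
  obtain ⟨m, rfl⟩ := Int.eq_ofNat_of_zero_le hn
  have : qi q m = ∑ i ∈ range m, q ^ i := by
    rw [qi, zpow_natCast, div_eq_iff hq1, geom_sum_mul]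
  rw [this]
  exact L.sum_mem fun i _ => L.pow_mem hq i

theorem qi_neg {q : F} (hq0 : q ≠ 0) (n : ℤ) : qi q (-n) = -(q ^ (-n) * qi q n) := by
  rw [qi, qi, zpow_neg]
  have := zpow_ne_zero n hq0
  field_simp
  ring

end field

section span
variable {F : Type*} [Field F]

/-- span over a subsemiring of a family of functions, up to equality on valid arguments. -/
inductive Sp {ι : Type*} (L : Subsemiring F) (valid : ι → Prop) (gen : (ι → F) → Prop) :
    (ι → F) → Prop
  | gen {f : ι → F} : gen f → Sp L valid gen f
  | zero : Sp L valid gen (fun _ => 0)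
  | add {f g : ι → F} : Sp L valid gen f → Sp L valid gen g → Sp L valid gen (fun i => f i + g i)
  | smul {f : ι → F} (c : F) : c ∈ L → Sp L valid gen f → Sp L valid gen (fun i => c * f i)
  | congr {f g : ι → F} : Sp L valid gen f → (∀ i, valid i → f i = g i) → Sp L valid gen g

variable {ι κ J : Type*} {L : Subsemiring F} {valid : ι → Prop} {gen : (ι → F) → Prop}

theorem Sp.sum (s : Finset J) (f : J → ι → F) (h : ∀ j ∈ s, Sp L valid gen (f j)) :
    Sp L valid gen (fun i => ∑ j ∈ s, f j i) := by
  classical
  induction s using Finset.induction_on with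
  | empty => simpa using Sp.zero
  | insert a s ha ih =>
    refine ((h a (by simp)).add (ih fun j hj => h j (by simp [hj]))).congr fun i _ => ?_
    rw [sum_insert ha]

theorem Sp.map {valid' : κ → Prop} {gen' : (κ → F) → Prop} (s : κ → Finset J) (K : κ → J → F)
    (φ : κ → J → ι) (hv : ∀ k, valid' k → ∀ j ∈ s k, K k j ≠ 0 → valid (φ k j))
    (hg : ∀ f, gen f → Sp L valid' gen' (fun k => ∑ j ∈ s k, K k j * f (φ k j)))
    {f : ι → F} (hf : Sp L valid gen f) :
    Sp L valid' gen' (fun k => ∑ j ∈ s k, K k j * f (φ k j)) := by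
  induction hf with
  | gen h => exact hg _ h
  | zero => simpa using Sp.zero
  | add _ _ h1 h2 =>
    refine (h1.add h2).congr fun k _ => ?_
    simp only [mul_add, sum_add_distrib]
  | smul c hc _ h1 =>
    refine (h1.smul c hc).congr fun k _ => ?_
    rw [mul_sum]
    exact sum_congr rfl fun j _ => by ring
  | congr _ he h1 =>
    refine h1.congr fun k hk => sum_congr rfl fun j hj => ?_
    by_cases h0 : K k j = 0
    · simp [h0]
    · rw [he _ (hv k hk j hj h0)]

theorem Sp.comp {valid' : κ → Prop} {gen' : (κ → F) → Prop}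
    (φ : κ → ι) (hv : ∀ k, valid' k → valid (φ k))
    (hg : ∀ f, gen f → Sp L valid' gen' (fun k => f (φ k)))
    {f : ι → F} (hf : Sp L valid gen f) :
    Sp L valid' gen' (fun k => f (φ k)) := by
  have := Sp.map (valid' := valid') (gen' := gen') (fun _ => ({()} : Finset Unit))
    (fun _ _ => (1 : F)) (fun k _ => φ k) (fun k hk _ _ _ => hv k hk)
    (fun f h => by simpa using hg f h) hf
  simpa using this

theorem Sp.eval {f : ι → F} (hf : Sp L valid gen f) (i : ι) (hi : valid i)
    (hg : ∀ f, gen f → f i ∈ L) : f i ∈ L := by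
  induction hf with
  | gen h => exact hg _ h
  | zero => exact L.zero_mem
  | add _ _ h1 h2 => exact L.add_mem h1 h2
  | smul c hc _ h1 => exact L.mul_mem hc h1
  | congr _ he h1 => rw [← he i hi]; exact h1

end span

end Pool.Agent.P.MP_389f6f_co
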