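import Pool.Agent.P.MP_389f6f_co.Basic

set_option autoImplicit false

namespace Pool.Agent.P.MP_389f6f_co
open Finset

/-- The data: a field with a parameter `q`, variables `x` (the first two vanish) and a
subsemiring `L` containing `q` and the elementary symmetric functions. -/
structure Ctx (F : Type*) [Field F] where
  N : ℕ
  q : F
  x : ℕ → F
  L : Subsemiring F
  q0 : q ≠ 0
  q1 : q - 1 ≠ 0
  q2 : q + 1 ≠ 0
  two : (2 : F) ≠ 0
  hq : q ∈ L
  he : ∀ k, es N x k ∈ L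
  x0 : x 0 = 0
  x1 : x 1 = 0
  N2 : 2 ≤ N

namespace Ctx
variable {F : Type*} [Field F] (X : Ctx F)

def e (k : ℤ) : F := es X.N X.x k
def w1 (a : ℕ) : ℕ → F := fun s => X.x s * om X.q a s
def w2 (c d : ℕ) : ℕ → F := fun s => X.x s * om X.q c s * om X.q d s
def eps (a : ℕ) (k : ℤ) : F := es X.N (X.w1 a) k
def yy (c d : ℕ) (k : ℤ) : F := es X.N (X.w2 c d) k

noncomputable def Sh (j : ℕ) (d : ℤ) (m M : ℕ) : F :=
  ∑ i ∈ range (j + 1), (X.q ^ ((i : ℤ) - j) * (X.eps M (d - i) * X.eps m i) +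
    X.q ^ ((j : ℤ) + 1 - i) * (X.eps M i * X.eps m (d - i)))

def SS (j : ℕ) (d : ℤ) (m M : ℕ) : F :=
  ∑ i ∈ range (j + 1), (X.q ^ i * (X.eps M (d - i) * X.eps m i) +
    X.q ^ (2 * j + 1 - i) * (X.eps M i * X.eps m (d - i)))

def GG (j : ℕ) (d : ℤ) (b c : ℕ) : F :=
  ∑ i ∈ range j, (X.q ^ i * (X.eps (max b c) (d - i) * X.eps (min b c) i) +
    X.q ^ (2 * j - i) * (X.eps (max b c) i * X.eps (min b c) (d - i))) +
    X.q ^ j * (X.eps b (d - j) * X.eps c j)

def az (n : ℕ) (d : ℤ) (m M : ℕ) : F := ∑ i ∈ range n, X.q ^ i * (X.eps M (d - i) * X.eps m i)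

def FF (d : ℤ) (m M : ℕ) : F := X.az (d.toNat + 1) d m M

noncomputable def UU (n : ℕ) (d : ℤ) (m M : ℕ) : F := ∑ j ∈ range n, X.Sh j d m M

theorem e_mem (k : ℤ) : X.e k ∈ X.L := X.he k
theorem e_neg {k : ℤ} (hk : k < 0) : X.e k = 0 := es_neg _ _ _ hk
theorem eps_neg (a : ℕ) {k : ℤ} (hk : k < 0) : X.eps a k = 0 := es_neg _ _ _ hk
theorem yy_neg (c d : ℕ) {k : ℤ} (hk : k < 0) : X.yy c d k = 0 := es_neg _ _ _ hk
theorem eps_zero (a : ℕ) : X.eps a 0 = 1 := es_zero _ _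
theorem yy_zero (c d : ℕ) : X.yy c d 0 = 1 := es_zero _ _
theorem e_zero : X.e 0 = 1 := es_zero _ _
theorem yy_comm (c d : ℕ) (k : ℤ) : X.yy c d k = X.yy d c k := by
  unfold yy; congr 1; funext s; simp only [w2]; ring

theorem zp {n : ℤ} (hn : 0 ≤ n) : X.q ^ n ∈ X.L := zpow_mem X.hq hn
theorem np (n : ℕ) : X.q ^ n ∈ X.L := X.L.pow_mem X.hq n
theorem qp {n : ℤ} (hn : 0 ≤ n) : qi X.q n ∈ X.L := qi_mem X.hq X.q1 hn

theorem SS_eq (j : ℕ) (d : ℤ) (m M : ℕ) : X.SS j d m M = X.q ^ j * X.Sh j d m M := by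
  unfold SS Sh
  rw [mul_sum]
  refine sum_congr rfl fun i hi => ?_
  have hi' : i ≤ j := by simpa [Nat.lt_succ_iff] using hi
  have h1 : X.q ^ i = X.q ^ j * X.q ^ ((i : ℤ) - j) := by
    rw [← zpow_natCast, ← zpow_natCast, ← zpow_add₀ X.q0]; congr 1; ring
  have h2 : X.q ^ (2 * j + 1 - i) = X.q ^ j * X.q ^ ((j : ℤ) + 1 - i) := by
    rw [← zpow_natCast, ← zpow_natCast, ← zpow_add₀ X.q0]; congr 1; omega
  rw [h1, h2]; ring

theorem Sh_eq (j : ℕ) (d : ℤ) (m M : ℕ) : X.Sh j d m M = X.q ^ (-(j : ℤ)) * X.SS j d m M := by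
  rw [SS_eq, zpow_neg, zpow_natCast, ← mul_assoc, inv_mul_cancel₀ (pow_ne_zero _ X.q0), one_mul]

theorem FF_eq (d : ℤ) {m M : ℕ} (h : m < M) :
    X.FF d m M = ∑ i ∈ range (d.toNat + 1), X.q ^ i * X.e i * X.yy m M (d - i) := by
  rcases lt_or_ge d 0 with hd | hd
  · have : d.toNat = 0 := by omega
    simp [FF, az, this, X.eps_neg _ hd, X.yy_neg _ _ hd]
  obtain ⟨D, rfl⟩ := Int.eq_ofNat_of_zero_le hd
  have := es_conv X.N (f := fun s => X.q * X.w1 m s) (g := X.w1 M) (f' := fun s => X.q * X.x s)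
    (g' := X.w2 m M) (fun s _ => by
      simp only [w1, w2, om]; split_ifs <;> first | ring1 | omega) (fun s _ => by
      simp only [w1, w2, om]; split_ifs <;> ring1) D
  simp only [es_smul _ _ X.q0, zpow_natCast] at this
  simp only [FF, az, Int.toNat_natCast, e, yy, eps]
  rw [← this]
  exact sum_congr rfl fun i _ => by ring

theorem bz_eq (n : ℕ) (d : ℤ) (m M : ℕ) :
    ∑ i ∈ range n, X.q ^ (-(i : ℤ)) * (X.eps M i * X.eps m (d - i)) =
      X.q ^ (-d) * (X.FF d m M - X.az (d + 1 - n).toNat d m M) := by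
  rcases lt_or_ge d 0 with hd | hd
  · have h1 : d.toNat = 0 := by omega
    have h2 : (d + 1 - n).toNat = 0 := by omega
    rw [sum_eq_zero fun i _ => by rw [X.eps_neg m (k := d - i) (by omega)]; ring]
    simp [FF, az, h1, h2, X.eps_neg _ hd]
  induction n with
  | zero =>
    have : (d + 1 - (0 : ℕ)).toNat = d.toNat + 1 := by omega
    rw [this]
    simp [FF]
  | succ n ih =>
    rw [sum_range_succ, ih]
    rcases le_or_gt (n : ℤ) d with h | h
    · obtain ⟨r, hr⟩ : ∃ r : ℕ, d - n = r := ⟨(d - n).toNat, by omega⟩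
      have h1 : (d + 1 - n).toNat = r + 1 := by omega
      have h2 : (d + 1 - (n + 1 : ℕ)).toNat = r := by omega
      have h3 : d - r = n := by omega
      have h4 : X.q ^ (-(n : ℤ)) = X.q ^ (-d) * X.q ^ r := by
        rw [← zpow_natCast, ← zpow_add₀ X.q0]; congr 1; omega
      rw [h1, h2, hr, h4]
      simp only [az, sum_range_succ, h3]
      ring
    · have h1 : (d + 1 - n).toNat = 0 := by omega
      have h2 : (d + 1 - (n + 1 : ℕ)).toNat = 0 := by omega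
      rw [h1, h2, X.eps_neg m (k := d - n) (by omega)]
      ring

theorem Sh_eq_az (j : ℕ) (d : ℤ) (m M : ℕ) :
    X.Sh j d m M = X.q ^ (-(j : ℤ)) * X.az (j + 1) d m M +
      X.q ^ ((j : ℤ) + 1 - d) * (X.FF d m M - X.az (d - j).toNat d m M) := by
  have h := X.bz_eq (j + 1) d m M
  rw [show d + 1 - ((j + 1 : ℕ) : ℤ) = d - j by push_cast; ring] at h
  have h2 : X.q ^ ((j : ℤ) + 1 - d) = X.q ^ ((j : ℤ) + 1) * X.q ^ (-d) := by
    rw [← zpow_add₀ X.q0]; congr 1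
  rw [h2, mul_assoc, ← h, Sh, sum_add_distrib, az, mul_sum, mul_sum]
  congr 1
  · refine sum_congr rfl fun i _ => ?_
    rw [← mul_assoc (X.q ^ (-(j : ℤ))), ← zpow_natCast, ← zpow_add₀ X.q0]; congr 2; ring
  · refine sum_congr rfl fun i _ => ?_
    rw [← mul_assoc (X.q ^ ((j : ℤ) + 1)), ← zpow_add₀ X.q0]; congr 2

theorem az_big (n : ℕ) (d : ℤ) (m M : ℕ) (h : d < n) : X.az n d m M = X.FF d m M := by
  induction n with
  | zero =>
    have h1 : d.toNat = 0 := by omega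
    simp [FF, az, h1, X.eps_neg M (k := d) (by omega)]
  | succ n ih =>
    rcases lt_or_ge d n with h' | h'
    · rw [← ih h']
      simp only [az, sum_range_succ]
      rw [X.eps_neg M (k := d - n) (by omega)]; ring
    · have : d.toNat = n := by omega
      rw [FF, this]

theorem Sh_reflect (j j' : ℕ) (d : ℤ) (m M : ℕ) (h : (j : ℤ) + j' + 1 = d) :
    X.Sh j d m M + X.Sh j' d m M = (X.q ^ (-(j : ℤ)) + X.q ^ (-(j' : ℤ))) * X.FF d m M := by
  rw [Sh_eq_az, Sh_eq_az, show (d - j).toNat = j' + 1 by omega, show (d - j').toNat = j + 1 by omega,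
    show (j : ℤ) + 1 - d = -j' by omega, show (j' : ℤ) + 1 - d = -j by omega]
  ring

theorem Sh_big (j : ℕ) (d : ℤ) (m M : ℕ) (h : d ≤ j) :
    X.Sh j d m M = (X.q ^ (-(j : ℤ)) + X.q ^ ((j : ℤ) + 1 - d)) * X.FF d m M := by
  rw [Sh_eq_az, show (d - j).toNat = 0 by omega, X.az_big _ _ _ _ (by push_cast; omega)]
  simp only [az, range_zero, sum_empty]
  ring

theorem UU_full (D : ℕ) (m M : ℕ) :
    X.UU D D m M = qi X.q D * X.q ^ (1 - (D : ℤ)) * X.FF D m M := by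
  have h1 : X.UU D D m M + X.UU D D m M =
      ∑ j ∈ range D, (X.q ^ (-(j : ℤ)) + X.q ^ (-((D - 1 - j : ℕ) : ℤ))) * X.FF D m M := by
    unfold UU
    nth_rewrite 2 [← sum_range_reflect]
    rw [← sum_add_distrib]
    refine sum_congr rfl fun j hj => X.Sh_reflect _ _ _ _ _ ?_
    have := mem_range.mp hj
    omega
  have h2 : ∀ n : ℕ, ∑ j ∈ range n, X.q ^ (-(j : ℤ)) = qi X.q n * X.q ^ (1 - (n : ℤ)) := by
    intro n
    induction n with
    | zero => simp [qi]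
    | succ n ih =>
      rw [sum_range_succ, ih, qi, qi]
      have := X.q0; have := X.q1
      push_cast
      simp only [zpow_sub₀ X.q0, zpow_add₀ X.q0, zpow_neg, zpow_natCast, zpow_one]
      field_simp
      ring
  rw [← sum_mul, sum_add_distrib, sum_range_reflect (fun j => X.q ^ (-(j : ℤ))), h2] at h1
  apply mul_left_cancel₀ X.two
  linear_combination h1

theorem UU_reflect (n : ℕ) (d : ℤ) (m M : ℕ) :
    X.UU n d m M = X.UU (d - n).toNat d m M +
      qi X.q (2 * n - d) * X.q ^ (1 - (n : ℤ)) * X.FF d m M := by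
  rcases lt_or_ge d 0 with hd | hd
  · have h1 : d.toNat = 0 := by omega
    have h2 : (d - n).toNat = 0 := by omega
    have h3 : X.FF d m M = 0 := by simp [FF, az, h1, X.eps_neg _ hd]
    rw [h2, h3, UU, sum_eq_zero fun j _ => by rw [X.Sh_big j d m M (by omega), h3, mul_zero]]
    simp [UU]
  obtain ⟨D, rfl⟩ := Int.eq_ofNat_of_zero_le hd
  have hq0 := X.q0; have hq1 := X.q1
  induction n with
  | zero =>
    simp only [Nat.cast_zero, sub_zero, Int.toNat_natCast, mul_zero, zero_sub]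
    rw [UU_full, qi_neg X.q0]
    simp only [UU, range_zero, sum_empty, zpow_sub₀ X.q0, zpow_neg, zpow_natCast, zpow_one]
    field_simp
    ring
  | succ n ih =>
    have hs : X.UU (n + 1) D m M = X.UU n D m M + X.Sh n D m M := by simp [UU, sum_range_succ]
    rw [hs, ih]
    rcases lt_or_ge n D with h | h
    · obtain ⟨r, rfl⟩ : ∃ r, D = n + r + 1 := ⟨D - n - 1, by omega⟩
      have h1 : (((n + r + 1 : ℕ) : ℤ) - n).toNat = r + 1 := by omega
      have h2 : (((n + r + 1 : ℕ) : ℤ) - (n + 1 : ℕ)).toNat = r := by omega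
      have h3 := X.Sh_reflect n r (n + r + 1 : ℕ) m M (by push_cast; ring)
      have hs' : X.UU (r + 1) (n + r + 1 : ℕ) m M =
        X.UU r (n + r + 1 : ℕ) m M + X.Sh r (n + r + 1 : ℕ) m M := by simp [UU, sum_range_succ]
      rw [h1, h2, hs']
      have h4 : qi X.q (2 * (n + 1 : ℕ) - (n + r + 1 : ℕ)) * X.q ^ (1 - ((n + 1 : ℕ) : ℤ)) =
          qi X.q (2 * n - (n + r + 1 : ℕ)) * X.q ^ (1 - (n : ℤ)) +
            (X.q ^ (-(n : ℤ)) + X.q ^ (-(r : ℤ))) := by
        rw [show (2 * (n + 1 : ℕ) - (n + r + 1 : ℕ) : ℤ) = n + 1 - r by push_cast; ring,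
          show (2 * n - (n + r + 1 : ℕ) : ℤ) = n - r - 1 by push_cast; ring]
        push_cast
        simp only [qi, zpow_sub₀ X.q0, zpow_add₀ X.q0, zpow_neg, zpow_natCast, zpow_one]
        field_simp
        ring
      rw [h4]
      linear_combination h3
    · obtain ⟨r, rfl⟩ : ∃ r, n = D + r := ⟨n - D, by omega⟩
      have h1 : ((D : ℤ) - (D + r : ℕ)).toNat = 0 := by omega
      have h2 : ((D : ℤ) - (D + r + 1 : ℕ)).toNat = 0 := by omega
      rw [h1, h2, X.Sh_big _ _ _ _ (by omega)]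
      have h4 : qi X.q (2 * (D + r + 1 : ℕ) - D) * X.q ^ (1 - ((D + r + 1 : ℕ) : ℤ)) =
          qi X.q (2 * (D + r : ℕ) - D) * X.q ^ (1 - ((D + r : ℕ) : ℤ)) +
            (X.q ^ (-((D + r : ℕ) : ℤ)) + X.q ^ (((D + r : ℕ) : ℤ) + 1 - D)) := by
        rw [show (2 * (D + r + 1 : ℕ) - D : ℤ) = D + r + r + 1 + 1 by push_cast; ring,
          show (2 * (D + r : ℕ) - D : ℤ) = D + r + r by push_cast; ring,
          show (((D + r : ℕ) : ℤ) + 1 - D) = r + 1 by push_cast; ring]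
        push_cast
        simp only [qi, zpow_sub₀ X.q0, zpow_add₀ X.q0, zpow_neg, zpow_natCast, zpow_one]
        field_simp
        ring
      rw [h4]
      ring

/-! ### The cones -/

def v1 (a : ℕ) : Prop := a < X.N
def v2s (p : ℕ × ℕ) : Prop := p.1 < p.2 ∧ p.2 < X.N
def v2 (p : ℕ × ℕ) : Prop := p.1 ≠ p.2 ∧ p.1 < X.N ∧ p.2 < X.N
def g1 (f : ℕ → F) : Prop := ∃ k, f = fun a => X.eps a k
def g2s (f : ℕ × ℕ → F) : Prop :=
  (∃ (j : ℕ) (d : ℤ), 2 * j + 1 < d ∧ f = fun p => X.SS j d p.1 p.2) ∨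
    ∃ d, f = fun p => X.yy p.1 p.2 d
def g2 (f : ℕ × ℕ → F) : Prop :=
  (∃ (j : ℕ) (d : ℤ), 2 * j < d ∧ f = fun p => X.GG j d p.1 p.2) ∨
  (∃ (j : ℕ) (d : ℤ), 2 * j + 1 < d ∧ f = fun p => X.SS j d (min p.1 p.2) (max p.1 p.2)) ∨
    ∃ d, f = fun p => X.yy p.1 p.2 d

abbrev C1 := Sp X.L X.v1 X.g1
abbrev C2s := Sp X.L X.v2s X.g2s
abbrev C2 := Sp X.L X.v2 X.g2

theorem yy_C2s (d : ℤ) : X.C2s (fun p => X.yy p.1 p.2 d) := Sp.gen (Or.inr ⟨d, rfl⟩)

theorem FF_C2s (d : ℤ) : X.C2s (fun p => X.FF d p.1 p.2) := by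
  refine (Sp.sum (range (d.toNat + 1)) (fun i p => X.q ^ i * X.e i * X.yy p.1 p.2 (d - i))
    fun i _ => (X.yy_C2s _).smul _ (X.L.mul_mem (X.np i) (X.e_mem _))).congr fun p hp => ?_
  rw [X.FF_eq d hp.1]

theorem SS_C2s (j : ℕ) (d : ℤ) (h : 2 * j + 1 ≤ d) : X.C2s (fun p => X.SS j d p.1 p.2) := by
  rcases h.lt_or_eq with h | h
  · exact Sp.gen (Or.inl ⟨j, d, h, rfl⟩)
  · refine (X.FF_C2s d).congr fun p _ => ?_
    have := X.Sh_reflect j j d p.1 p.2 (by omega)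
    rw [SS_eq]
    apply mul_left_cancel₀ X.two
    have h2 : X.q ^ j * X.q ^ (-(j : ℤ)) = 1 := by
      rw [zpow_neg, zpow_natCast, mul_inv_cancel₀ (pow_ne_zero _ X.q0)]
    linear_combination (-X.q ^ j) * this - 2 * X.FF d p.1 p.2 * h2

theorem Sh_C2s (c : F) (j : ℕ) (d : ℤ) (h : 2 * j + 1 ≤ d) (hc : c * X.q ^ (-(j : ℤ)) ∈ X.L) :
    X.C2s (fun p => c * X.Sh j d p.1 p.2) := by
  refine ((X.SS_C2s j d h).smul _ hc).congr fun p _ => ?_
  rw [Sh_eq, mul_assoc]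

/-- symmetric cone sits in the ordered cone -/
theorem C2s_C2 {f : ℕ × ℕ → F} (hf : X.C2s f) :
    X.C2 (fun p => f (min p.1 p.2, max p.1 p.2)) := by
  refine Sp.comp (fun p : ℕ × ℕ => (min p.1 p.2, max p.1 p.2)) ?_ ?_ hf
  · rintro ⟨a, b⟩ ⟨h1, h2, h3⟩
    simp only [v2s] at *
    omega
  · rintro f (⟨j, d, h, rfl⟩ | ⟨d, rfl⟩)
    · exact Sp.gen (Or.inr (Or.inl ⟨j, d, h, rfl⟩))
    · refine (Sp.gen (Or.inr (Or.inr ⟨d, rfl⟩))).congr fun p _ => ?_
      rcases le_total p.1 p.2 with h | h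
      · simp [h]
      · simp [h, X.yy_comm p.1]

theorem eps_C2 (k : ℤ) : X.C2 (fun p => X.eps p.1 k) := by
  rcases lt_trichotomy k 0 with h | h | h
  · exact Sp.zero.congr fun p _ => (X.eps_neg _ h).symm
  · refine (Sp.gen (Or.inr (Or.inr ⟨0, rfl⟩))).congr fun p _ => ?_
    rw [h, yy_zero, eps_zero]
  · refine (Sp.gen (Or.inl ⟨0, k, by simpa using h, rfl⟩)).congr fun p _ => ?_
    simp [GG, eps_zero]

theorem eps_ph (k : ℤ) : X.eps 0 k = X.e k := by
  refine es_congr _ (fun s _ => ?_) k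
  rcases Nat.eq_zero_or_pos s with rfl | h
  · simp [w1, X.x0]
  · simp only [w1, om]; rw [if_neg (by omega), if_neg (by omega), mul_one]

theorem eps_ph1 (k : ℤ) : X.eps 1 k = X.e k := by
  refine es_congr _ (fun s _ => ?_) k
  rcases s with _ | _ | s
  · simp [w1, X.x0]
  · simp [w1, X.x1]
  · simp only [w1, om]; rw [if_neg (by omega), if_neg (by omega), mul_one]

theorem w2_ph (d : ℕ) : X.w2 0 d = X.w1 d := by
  funext s
  rcases Nat.eq_zero_or_pos s with rfl | h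
  · simp [w1, w2, X.x0]
  · simp only [w1, w2]; rw [om, if_neg (by omega), if_neg (by omega), mul_one]

theorem w1_ph1 : X.w1 1 = X.x := by
  funext s
  rcases s with _ | _ | s
  · simp [w1, X.x0]
  · simp [w1, X.x1]
  · simp only [w1, om]; rw [if_neg (by omega), if_neg (by omega), mul_one]

/-- evaluation at a phantom colour -/
theorem C2s_C1 {f : ℕ × ℕ → F} (hf : X.C2s f) :
    Sp X.L (fun d => 0 < d ∧ d < X.N) X.g1 (fun d => f (0, d)) := by
  refine Sp.comp (fun d : ℕ => ((0 : ℕ), d)) (fun d hd => hd) ?_ hf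
  rintro f (⟨j, d, _, rfl⟩ | ⟨d, rfl⟩)
  · refine (Sp.sum (range (j + 1)) (fun i M => X.q ^ i * X.e i * X.eps M (d - i) +
      X.q ^ (2 * j + 1 - i) * X.e (d - i) * X.eps M i) fun i _ => Sp.add
        ((Sp.gen ⟨_, rfl⟩).smul _ (X.L.mul_mem (X.np _) (X.e_mem _)))
        ((Sp.gen ⟨_, rfl⟩).smul _ (X.L.mul_mem (X.np _) (X.e_mem _)))).congr fun M _ => ?_
    simp only [SS, eps_ph]
    exact sum_congr rfl fun i _ => by ring
  · refine (Sp.gen ⟨d, rfl⟩).congr fun M _ => ?_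
    simp only [yy, w2_ph, eps]

theorem C2s_L {f : ℕ × ℕ → F} (hf : X.C2s f) : f (0, 1) ∈ X.L := by
  refine (X.C2s_C1 hf).eval 1 ⟨by omega, by have := X.N2; omega⟩ ?_
  rintro f ⟨k, rfl⟩
  simp only [eps_ph1]; exact X.e_mem k

/-- the symmetrisation operator maps the ordered cone to the symmetric cone -/
theorem C2_sym {f : ℕ × ℕ → F} (hf : X.C2 f) :
    X.C2s (fun p => X.q * f (p.1, p.2) + f (p.2, p.1)) := by
  have := Sp.map (valid' := X.v2s) (gen' := X.g2s) (fun _ => (univ : Finset Bool))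
    (fun _ b => if b then X.q else 1) (fun p b => if b then (p.1, p.2) else (p.2, p.1)) ?_ ?_ hf
  · simpa using this
  · rintro ⟨a, b⟩ ⟨h1, h2⟩ t _ _
    cases t <;> simp only [v2] <;> simp at * <;> omega
  · rintro f (⟨j, d, h, rfl⟩ | ⟨j, d, h, rfl⟩ | ⟨d, rfl⟩)
    · rcases j with _ | j
      · refine (X.SS_C2s 0 d (by omega)).congr fun p _ => ?_
        simp [SS, GG, eps_zero]; ring
      · refine ((X.SS_C2s (j + 1) d (by omega)).add
          ((X.SS_C2s j d (by push_cast at h; omega)).smul _ X.hq)).congr fun p hp => ?_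
        have hp1 : p.1 ≤ p.2 := hp.1.le
        simp only [Fintype.univ_bool, mem_singleton, Bool.true_eq_false, not_false_eq_true,
          sum_insert, if_true, sum_singleton, Bool.false_eq_true, if_false, GG, SS,
          max_eq_right hp1, min_eq_left hp1, max_eq_left hp1, min_eq_right hp1, one_mul]
        rw [sum_range_succ _ (j + 1), show 2 * (j + 1) + 1 - (j + 1) = j + 2 by omega]
        have : ∑ i ∈ range (j + 1), (X.q ^ i * (X.eps p.2 (d - i) * X.eps p.1 i) +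
            X.q ^ (2 * (j + 1) + 1 - i) * (X.eps p.2 i * X.eps p.1 (d - i))) +
            X.q * ∑ i ∈ range (j + 1), (X.q ^ i * (X.eps p.2 (d - i) * X.eps p.1 i) +
            X.q ^ (2 * j + 1 - i) * (X.eps p.2 i * X.eps p.1 (d - i))) =
            (X.q + 1) * ∑ i ∈ range (j + 1), (X.q ^ i * (X.eps p.2 (d - i) * X.eps p.1 i) +
            X.q ^ (2 * (j + 1) - i) * (X.eps p.2 i * X.eps p.1 (d - i))) := by
          rw [mul_sum, mul_sum, ← sum_add_distrib]
          refine sum_congr rfl fun i hi => ?_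
          have hi' : i ≤ j := by simpa [Nat.lt_succ_iff] using hi
          rw [show 2 * (j + 1) + 1 - i = (2 * j + 1 - i) + 2 by omega,
            show 2 * (j + 1) - i = (2 * j + 1 - i) + 1 by omega]
          ring
        linear_combination this
    · refine ((X.SS_C2s j d h.le).smul _ (X.L.add_mem X.hq X.L.one_mem)).congr fun p hp => ?_
      have hp1 : p.1 ≤ p.2 := hp.1.le
      simp [hp1]; ring
    · refine ((X.yy_C2s d).smul _ (X.L.add_mem X.hq X.L.one_mem)).congr fun p hp => ?_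
      simp [X.yy_comm p.2]; ring

end Ctx

end Pool.Agent.P.MP_389f6f_co
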