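import Pool.Agent.P.MP_389f6f_co.GF3

set_option autoImplicit false

namespace Pool.Agent.P.MP_389f6f_co
open Finset

variable {K : Type*} [Field K]
variable {q z z1 z2 z3 u v u1 v1 v2 : K} {x : ℕ → K} {c d N : ℕ}

theorem GF_KS (hc : c < d) (hd : d < N) (hz1 : z1 = q * z) (hz2 : z2 = q * z1) (hz3 : z3 = q * z2)
    (hu1 : u1 = q * u) (hv1 : v1 = q * v) (hq0 : q ≠ 0) (hq : q - 1 ≠ 0)
    (h0 : u - z ≠ 0) (h1 : u - z1 ≠ 0) (h2 : u - z2 ≠ 0) (h3 : u - z3 ≠ 0)
    (k0 : v - z ≠ 0) (k1 : v - z1 ≠ 0) (k2 : v - z2 ≠ 0) (k3 : v - z3 ≠ 0)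
    (hA : v - u1 ≠ 0) (hB : v1 - u ≠ 0) :
    ((q - 1) ^ 2 * (q + 1)) * ∑ b ∈ range N, ∑ a ∈ range b,
      (x a * om q c a * om q d a * (x b * om q c b * om q d b)) * SgF
      (PP N (fun s => x s * om q a s) u *
        PP N (fun s => x s * om q c s * om q d s * om q s a * om q s b) z *
        PP N (fun s => x s * om q b s) v)
      (PP N (fun s => x s * om q b s) u *
        PP N (fun s => x s * om q c s * om q d s * om q s a * om q s b) z *
        PP N (fun s => x s * om q a s) v) u v u1 v1 =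
      (-(q * (q - 1) * (q + 1))) * (v * (SgF
        (PP N x u1 * PP N (fun s => x s * om q c s) z1 * PP N (fun s => x s * om q d s) v)
        (PP N x u1 * PP N (fun s => x s * om q d s) z1 * PP N (fun s => x s * om q c s) v)
        z1 v z2 v1 / (v - z1)) / (z1 - u) / (v - u1)) +
      (q ^ 3 * (q - 1) * (q + 1)) * (v * (SgF
        (PP N x u * PP N (fun s => x s * om q c s) z2 * PP N (fun s => x s * om q d s) v)
        (PP N x u * PP N (fun s => x s * om q d s) z2 * PP N (fun s => x s * om q c s) v)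
        z2 v z3 v1 / (v - z2)) / (z2 - u) / (v1 - u)) +
      (q * (q - 1) * (q + 1)) * (u * (SgF
        (PP N (fun s => x s * om q c s) u * PP N (fun s => x s * om q d s) z1 * PP N x v1)
        (PP N (fun s => x s * om q d s) u * PP N (fun s => x s * om q c s) z1 * PP N x v1)
        u z1 u1 z2 / (z1 - u)) / (v - z1) / (v1 - u)) +
      (-(q ^ 3 * (q - 1) * (q + 1))) * (u * (SgF
        (PP N (fun s => x s * om q c s) u * PP N (fun s => x s * om q d s) z2 * PP N x v)
        (PP N (fun s => x s * om q d s) u * PP N (fun s => x s * om q c s) z2 * PP N x v)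
        u z2 u1 z3 / (z2 - u)) / (v - z2) / (v - u1)) +
      (q * (q - 1) ^ 2 * (q + 1)) * (u * (v * SgF
        (PP N (fun s => x s * om q c s) u * PP N x z2 * PP N (fun s => x s * om q d s) v)
        (PP N (fun s => x s * om q d s) u * PP N x z2 * PP N (fun s => x s * om q c s) v)
        u v u1 v1) / (z1 - u) / (z2 - u) / (v - z1) / (v - z2)) -
      PP N x u1 * PP N (fun s => x s * om q c s * om q d s) z * PP N x v1 /
        (z - u) / (v - z) / (v - u1) -
      PP N x u1 * PP N (fun s => x s * om q c s * om q d s) z * PP N x v1 /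
        (z - u) / (v - z) / (v1 - u) -
      q ^ 5 * (PP N x u * PP N (fun s => x s * om q c s * om q d s) z2 * PP N x v /
        (z3 - u) / (v - z3) / (v - u1)) -
      q ^ 5 * (PP N x u * PP N (fun s => x s * om q c s * om q d s) z2 * PP N x v /
        (z3 - u) / (v - z3) / (v1 - u)) +
      (q ^ 2 * (q + 1)) * (PP N x u * PP N (fun s => x s * om q c s * om q d s) z1 * PP N x v1 /
        (z2 - u) / (v - z1) / (v1 - u)) +
      (q ^ 2 * (q + 1)) * (PP N x u1 * PP N (fun s => x s * om q c s * om q d s) z1 * PP N x v /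
        (z1 - u) / (v - z2) / (v - u1)) := by
  have h := GF_V2 (x := x) hc hd hz1 hz2 hz3 hu1 hv1 hq0 hq h0 h1 h2 h3 k0 k1 k2 k3
  have e : ∑ b ∈ range N, ∑ a ∈ range b,
      (x a * om q c a * om q d a * (x b * om q c b * om q d b)) * SgF
      (PP N (fun s => x s * om q a s) u *
        PP N (fun s => x s * om q c s * om q d s * om q s a * om q s b) z *
        PP N (fun s => x s * om q b s) v)
      (PP N (fun s => x s * om q b s) u *
        PP N (fun s => x s * om q c s * om q d s * om q s a * om q s b) z *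
        PP N (fun s => x s * om q a s) v) u v u1 v1 =
      V2 q z x (fun s => x s * om q c s * om q d s) u v N * ((v - u1)⁻¹ * (v1 - u)⁻¹) := by
    rw [V2_eq, sum_mul]
    refine sum_congr rfl fun b _ => ?_
    rw [sum_mul]
    refine sum_congr rfl fun a _ => ?_
    simp only [SgF, ← hu1, ← hv1]
    field_simp
  rw [e]
  have iA : (v - u1) * (v - u1)⁻¹ = 1 := mul_inv_cancel₀ hA
  have iB : (v1 - u) * (v1 - u)⁻¹ = 1 := mul_inv_cancel₀ hB
  have iC : (q + 1) * (v - u) * ((v - u1)⁻¹ * (v1 - u)⁻¹) = (v - u1)⁻¹ + (v1 - u)⁻¹ := by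
    field_simp; subst hu1 hv1; ring
  generalize V2 q z x (fun s => x s * om q c s * om q d s) u v N = W at *
  generalize PP N x = E at *
  generalize PP N (fun s => x s * om q c s) = ec at *
  generalize PP N (fun s => x s * om q d s) = ed at *
  generalize PP N (fun s => x s * om q c s * om q d s) = Y at *
  generalize SgF (E u1 * ec z1 * ed v) (E u1 * ed z1 * ec v) z1 v z2 v1 / (v - z1) = S1 at *
  generalize SgF (E u * ec z2 * ed v) (E u * ed z2 * ec v) z2 v z3 v1 / (v - z2) = S2 at *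
  generalize SgF (ec u * ed z1 * E v1) (ed u * ec z1 * E v1) u z1 u1 z2 / (z1 - u) = S3 at *
  generalize SgF (ec u * ed z2 * E v) (ed u * ec z2 * E v) u z2 u1 z3 / (z2 - u) = S4 at *
  simp only [SgF, div_eq_mul_inv] at h ⊢
  generalize (v - u1)⁻¹ = iA' at *
  generalize (v1 - u)⁻¹ = iB' at *
  linear_combination (q + 1) * iA' * iB' * h +
    (-(q * (q - 1) * (q + 1))) * (v * S1 * (z1 - u)⁻¹) * iA' * iB +
    (q ^ 3 * (q - 1) * (q + 1)) * (v * S2 * (z2 - u)⁻¹) * iB' * iA +
    (q * (q - 1) * (q + 1)) * (u * S3 * (v - z1)⁻¹) * iB' * iA +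
    (-(q ^ 3 * (q - 1) * (q + 1))) * (u * S4 * (v - z2)⁻¹) * iA' * iB +
    (q * (q - 1) ^ 2 * (q + 1)) * u * v * (z1 - u)⁻¹ * (z2 - u)⁻¹ * (v - z1)⁻¹ * (v - z2)⁻¹ *
      (ec u * E z2 * ed v * iB' * iA + ed u * E z2 * ec v * iA' * iB) -
    E u1 * Y z * E v1 * (z - u)⁻¹ * (v - z)⁻¹ * iC -
    q ^ 5 * (E u * Y z2 * E v * (z3 - u)⁻¹ * (v - z3)⁻¹) * iC +
    (q ^ 2 * (q + 1)) * (E u * Y z1 * E v1 * (z2 - u)⁻¹ * (v - z1)⁻¹) * iB' * iA +
    (q ^ 2 * (q + 1)) * (E u1 * Y z1 * E v * (z1 - u)⁻¹ * (v - z2)⁻¹) * iA' * iB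

theorem PP_F {a b : ℕ} (h : a < b) (v : K) :
    PP N (fun s => x s * om q a s) (q * v) * PP N (fun s => x s * om q b s) v =
      PP N x (q * v) * PP N (fun s => x s * om q a s * om q b s) v := by
  simp only [PP, ← prod_mul_distrib]
  refine prod_congr rfl fun s _ => ?_
  simp only [om]; split_ifs <;> first | ring1 | omega

theorem GF_KY (hc : c < d) (hd : d < N) (hz1 : z1 = q * z) (hz2 : z2 = q * z1) (hz3 : z3 = q * z2)
    (hv1 : v1 = q * v) (hv2 : v2 = q * v1) (hq0 : q ≠ 0) (hq : q - 1 ≠ 0) (hq2 : q + 1 ≠ 0)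
    (hv : v ≠ 0) (hE : PP N x v1 ≠ 0) (h0 : v1 - z ≠ 0)
    (k0 : v - z ≠ 0) (k1 : v - z1 ≠ 0) (k2 : v - z2 ≠ 0) (k3 : v - z3 ≠ 0) (m2 : v2 - z1 ≠ 0) :
    ((q - 1) ^ 2 * (q + 1)) * ∑ b ∈ range N, ∑ a ∈ range b,
      (x a * om q c a * om q d a * (x b * om q c b * om q d b)) *
      (PP N (fun s => x s * om q c s * om q d s * om q s a * om q s b) z *
        PP N (fun s => x s * om q a s * om q b s) v) =
      (q ^ 2 * (q - 1) * (q + 1)) * (v * (SgF
        (PP N (fun s => x s * om q c s) z1 * PP N (fun s => x s * om q d s) v1)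
        (PP N (fun s => x s * om q d s) z1 * PP N (fun s => x s * om q c s) v1)
        z1 v1 z2 v2 / (v1 - z1)) / (v - z1)) -
      (q ^ 2 * (q - 1) * (q + 1)) * (v * (SgF
        (PP N (fun s => x s * om q c s) z2 * PP N (fun s => x s * om q d s) v)
        (PP N (fun s => x s * om q d s) z2 * PP N (fun s => x s * om q c s) v)
        z2 v z3 v1 / (v - z2)) / (v - z1)) +
      ((q - 1) ^ 2 * (q + 1)) * (v * (v * (PP N x z2 *
        PP N (fun s => x s * om q c s * om q d s) v)) / (v - z) / (v - z1) / (v - z1) / (v - z2)) +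
      PP N (fun s => x s * om q c s * om q d s) z * PP N x v2 / (v1 - z) / (v - z) +
      q ^ 4 * (PP N (fun s => x s * om q c s * om q d s) z2 * PP N x v / (v - z2) / (v - z3)) -
      (q * (q + 1)) * (PP N (fun s => x s * om q c s * om q d s) z1 * PP N x v1 /
        (v - z1) / (v - z1)) := by
  have m1 : v1 - z1 ≠ 0 := by rw [hv1, hz1, ← mul_sub]; exact mul_ne_zero hq0 k0
  have m3 : v1 - z2 ≠ 0 := by rw [hv1, hz2, ← mul_sub]; exact mul_ne_zero hq0 k1
  have m4 : v1 - z3 ≠ 0 := by rw [hv1, hz3, ← mul_sub]; exact mul_ne_zero hq0 k2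
  have h := GF_V2 (x := x) hc hd hz1 hz2 hz3 hv2 hv1 hq0 hq h0 m1 m3 m4 k0 k1 k2 k3
  have hA : v - v2 ≠ 0 := by
    have : v - v2 = -((q - 1) * (q + 1) * v) := by rw [hv2, hv1]; ring
    rw [this]; exact neg_ne_zero.mpr (mul_ne_zero (mul_ne_zero hq hq2) hv)
  have e : V2 q z x (fun s => x s * om q c s * om q d s) v1 v N = (v - v2) * PP N x v1 *
      ∑ b ∈ range N, ∑ a ∈ range b,
      (x a * om q c a * om q d a * (x b * om q c b * om q d b)) *
      (PP N (fun s => x s * om q c s * om q d s * om q s a * om q s b) z *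
        PP N (fun s => x s * om q a s * om q b s) v) := by
    rw [V2_eq, mul_sum]
    refine sum_congr rfl fun b _ => ?_
    rw [mul_sum]
    refine sum_congr rfl fun a ha => ?_
    have := PP_F (x := x) (q := q) (N := N) (mem_range.mp ha) v
    rw [← hv1] at this
    rw [this, ← hv1, ← hv2]; ring
  have f := PP_F (x := x) (q := q) (N := N) hc v
  rw [← hv1] at f
  rw [e] at h
  generalize (∑ b ∈ range N, ∑ a ∈ range b,
      (x a * om q c a * om q d a * (x b * om q c b * om q d b)) *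
      (PP N (fun s => x s * om q c s * om q d s * om q s a * om q s b) z *
        PP N (fun s => x s * om q a s * om q b s) v)) = W at *
  generalize PP N x = E at *
  generalize PP N (fun s => x s * om q c s) = ec at *
  generalize PP N (fun s => x s * om q d s) = ed at *
  generalize PP N (fun s => x s * om q c s * om q d s) = Y at *
  clear e
  have g0 : z - v1 ≠ 0 := fun h => h0 (by linear_combination -h)
  have g1 : z1 - v1 ≠ 0 := fun h => m1 (by linear_combination -h)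
  have g2 : z2 - v1 ≠ 0 := fun h => m3 (by linear_combination -h)
  have g3 : z3 - v1 ≠ 0 := fun h => m4 (by linear_combination -h)
  have g4 : z1 - v2 ≠ 0 := fun h => m2 (by linear_combination -h)
  apply mul_left_cancel₀ (mul_ne_zero hA hE)
  simp only [SgF] at h ⊢
  have c1 : q ^ 3 / (z2 - v1) = -(q ^ 2 / (v - z1)) := by
    field_simp; subst hz3 hz2 hz1 hv2 hv1; ring
  have c2 : q * v1 / (z2 - v1) / (z1 - v1) = q ^ 2 * v / (v1 - z2) / (v1 - z1) := by
    field_simp; subst hz3 hz2 hz1 hv2 hv1; ring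
  have c3 : q * v1 / (z1 - v2) / (z1 - v1) = q ^ 2 * v / (v2 - z1) / (v1 - z1) := by
    field_simp; subst hz3 hz2 hz1 hv2 hv1; ring
  have c4 : q * v1 / (z1 - v1) / (z2 - v1) = v / (v - z) / (v - z1) := by
    field_simp; subst hz3 hz2 hz1 hv2 hv1; ring
  have c5 : -((q + 1) * (v - v1) / (z - v1)) = (v - v2) / (v1 - z) := by
    field_simp; subst hz3 hz2 hz1 hv2 hv1; ring
  have c6 : -(q * (q + 1) * (v - v1) / (z3 - v1)) = (v - v2) / (v - z2) := by
    field_simp; subst hz3 hz2 hz1 hv2 hv1; ring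
  have c7 : q / (z2 - v1) = -(1 / (v - z1)) := by
    field_simp; subst hz3 hz2 hz1 hv2 hv1; ring
  linear_combination (q + 1) * h +
    (q + 1) * (q - 1) * (v - v2) * v * (E v1 * ec z2 * ed v / (v1 - z2) +
      E v1 * ed z2 * ec v / (v - z3)) / (v - z2) * c1 +
    (q + 1) * (q - 1) * (v - v2) * (ec v1 * ed z1 * E v1) / (v - z1) * c2 +
    (q + 1) * (q - 1) * (v - v2) * (ed v1 * ec z1 * E v1) / (v - z1) * c3 +
    (q + 1) * (q - 1) ^ 2 * v * (v - v2) * (ec v1 * E z2 * ed v) / (v - z1) / (v - z2) * c4 +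
    (q + 1) * (q - 1) ^ 2 * v * v * (v - v2) * E z2 / (v - z) / (v - z1) / (v - z1) / (v - z2) * f +
    E v2 * Y z * E v1 / (v - z) * c5 + q ^ 4 * (E v1 * Y z2 * E v) / (v - z3) * c6 +
    q * (q + 1) * (v - v2) * (E v1 * Y z1 * E v1) / (v - z1) * c7

theorem SgF_swap (Φ1 Φ2 X Y X1 Y1 : K) : SgF Φ1 Φ2 X Y X1 Y1 = -SgF Φ2 Φ1 Y X Y1 X1 := by
  simp only [SgF]
  rw [← neg_sub X Y1, ← neg_sub X1 Y, div_neg, div_neg]; ring

end Pool.Agent.P.MP_389f6f_co
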