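import Pool.Agent.P.MP_389f6f_co.GF

set_option autoImplicit false

namespace Pool.Agent.P.MP_389f6f_co
open Finset HahnSeries

abbrev GG3 := ℤ ×ₗ ℤ ×ₗ ℤ

def pt (a b c : ℤ) : GG3 := toLex (a, toLex (b, c))

theorem pt_add (a b c a' b' c' : ℤ) : pt a b c + pt a' b' c' = pt (a + a') (b + b') (c + c') := rfl
theorem pt_sub (a b c a' b' c' : ℤ) : pt a b c - pt a' b' c' = pt (a - a') (b - b') (c - c') := rfl
theorem pt_nsmul (n : ℕ) (a b c : ℤ) : n • pt a b c = pt (n * a) (n * b) (n * c) := by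
  induction n with
  | zero => simp [pt]; rfl
  | succ n ih => rw [succ_nsmul, ih, pt_add]; congr 1 <;> push_cast <;> ring
theorem pt_inj {a b c a' b' c' : ℤ} : pt a b c = pt a' b' c' ↔ a = a' ∧ b = b' ∧ c = c' := by
  simp [pt]
theorem pt_zero : (0 : GG3) = pt 0 0 0 := rfl
theorem lt21 : pt 0 1 0 < pt 1 0 0 := by simp [pt, Prod.Lex.toLex_lt_toLex]
theorem lt31 : pt 0 0 1 < pt 1 0 0 := by simp [pt, Prod.Lex.toLex_lt_toLex]
theorem lt32 : pt 0 0 1 < pt 0 1 0 := by simp [pt, Prod.Lex.toLex_lt_toLex]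

variable {F : Type*} [Field F]

theorem sub_ne {gX gY : GG3} (h : gY < gX) {s : F} (hs : s ≠ 0) (r : F) :
    (single gY s - single gX r : HahnSeries GG3 F) ≠ 0 := by
  intro h0
  have := congrArg (fun y : HahnSeries GG3 F => y.coeff gY) h0
  simp [coeff_single_of_ne h.ne] at this
  exact hs this

theorem sub_ne' {gX gY : GG3} (h : gY < gX) {s : F} (hs : s ≠ 0) (r : F) :
    (single gX r - single gY s : HahnSeries GG3 F) ≠ 0 := by
  rw [← neg_sub]; exact neg_ne_zero.mpr (sub_ne h hs r)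

theorem geo_aux {gX gY : GG3} (h : gY < gX) {s r : F} (hs : s ≠ 0) {t y : HahnSeries GG3 F}
    (ht : (single gY s - single gX r) * t = single gY s * y) (m : GG3) (K : ℕ)
    (hK : ∀ α : ℕ, K ≤ α → y.coeff (m + α • (gY - gX)) = 0) :
    t.coeff m = ∑ α ∈ range K, (r / s) ^ α * y.coeff (m + α • (gY - gX)) := by
  have step : ∀ m, t.coeff m = y.coeff m + r / s * t.coeff (m + (gY - gX)) := by
    intro m
    have := congrArg (fun y : HahnSeries GG3 F => y.coeff (m + gY)) ht
    simp only [sub_mul, coeff_sub] at this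
    rw [coeff_single_mul_add, coeff_single_mul_add,
      show m + gY = (m + (gY - gX)) + gX by abel, coeff_single_mul_add] at this
    field_simp
    linear_combination this
  have iter : ∀ n : ℕ, t.coeff m = ∑ α ∈ range n, (r / s) ^ α * y.coeff (m + α • (gY - gX)) +
      (r / s) ^ n * t.coeff (m + n • (gY - gX)) := by
    intro n
    induction n with
    | zero => simp
    | succ n ih =>
      rw [ih, sum_range_succ, step (m + n • (gY - gX)), succ_nsmul, add_assoc m]; ring
  obtain ⟨n, hn, h0⟩ : ∃ n : ℕ, K ≤ n ∧ t.coeff (m + n • (gY - gX)) = 0 := by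
    by_contra hc
    push Not at hc
    obtain ⟨i, j, hij, hle⟩ := Set.partiallyWellOrderedOn_iff_exists_lt.mp t.isPWO_support
      (fun i => m + (K + i) • (gY - gX)) (fun i => hc _ (by omega))
    obtain ⟨k, rfl⟩ : ∃ k, j = i + k + 1 := ⟨j - i - 1, by omega⟩
    have hneg : (k + 1) • (gY - gX) < 0 := nsmul_neg (sub_neg.mpr h) (by omega)
    rw [show K + (i + k + 1) = (K + i) + (k + 1) by ring, add_nsmul _ (K + i) (k + 1),
      ← add_assoc] at hle
    exact absurd (le_add_iff_nonneg_right _ |>.mp hle) (not_le.mpr hneg)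
  rw [iter n, h0, mul_zero, add_zero]
  symm
  refine sum_subset (range_subset_range.mpr hn) fun α _ hα => ?_
  rw [hK α (by simpa using hα), mul_zero]

theorem geo_mul {gX gY : GG3} (h : gY < gX) {s : F} (hs : s ≠ 0) (r : F) (y : HahnSeries GG3 F)
    (m : GG3) (K : ℕ) (hK : ∀ α : ℕ, K ≤ α → y.coeff (m + α • (gY - gX)) = 0) :
    (y * single gY s / (single gY s - single gX r)).coeff m =
      ∑ α ∈ range K, (r / s) ^ α * y.coeff (m + α • (gY - gX)) := by
  refine geo_aux h hs ?_ m K hK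
  have := sub_ne h hs r
  field_simp

theorem geo_div {gX gY : GG3} (h : gY < gX) {s : F} (hs : s ≠ 0) (r : F) (y : HahnSeries GG3 F)
    (m : GG3) (K : ℕ) (hK : ∀ α : ℕ, K ≤ α → y.coeff (m + α • (gY - gX) + gY) = 0) :
    (y / (single gY s - single gX r)).coeff m =
      ∑ α ∈ range K, s⁻¹ * (r / s) ^ α * y.coeff (m + α • (gY - gX) + gY) := by
  have h1 : y = (single (-gY) s⁻¹ * y) * single gY s := by
    rw [mul_comm, ← mul_assoc, single_mul_single, add_neg_cancel, mul_inv_cancel₀ hs]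
    exact (one_mul y).symm
  have h2 : ∀ m, (single (-gY) s⁻¹ * y).coeff m = s⁻¹ * y.coeff (m + gY) := by
    intro m
    rw [show m = (m + gY) + -gY by abel, coeff_single_mul_add]; congr 2; abel
  nth_rewrite 1 [h1]
  rw [geo_mul h hs r _ m K fun α hα => by rw [h2, hK α hα, mul_zero]]
  refine sum_congr rfl fun α _ => ?_
  rw [h2]; ring

/-- coefficient -/
def co (y : HahnSeries GG3 F) (a b c : ℤ) : F := y.coeff (pt a b c)

theorem co_add (y y' : HahnSeries GG3 F) (a b c : ℤ) :
    co (y + y') a b c = co y a b c + co y' a b c := coeff_add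
theorem co_sub (y y' : HahnSeries GG3 F) (a b c : ℤ) :
    co (y - y') a b c = co y a b c - co y' a b c := coeff_sub
theorem co_sum {ι : Type*} (s : Finset ι) (y : ι → HahnSeries GG3 F) (a b c : ℤ) :
    co (∑ i ∈ s, y i) a b c = ∑ i ∈ s, co (y i) a b c := coeff_sum _
theorem co_C (r : F) (y : HahnSeries GG3 F) (a b c : ℤ) : co (C r * y) a b c = r * co y a b c := by
  rw [C_mul_eq_smul]; rfl
theorem co_single (r : F) (y : HahnSeries GG3 F) (a b c a' b' c' : ℤ) :
    co (single (pt a' b' c') r * y) a b c = r * co y (a - a') (b - b') (c - c') := by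
  rw [co, coeff_single_mul]; rfl

theorem geo12 {s : F} (hs : s ≠ 0) (r : F) (y : HahnSeries GG3 F) (a b c : ℤ) (K : ℕ)
    (hK : ∀ α : ℕ, K ≤ α → co y (a - α) (b + α + 1) c = 0) :
    co (y / (single (pt 0 1 0) s - single (pt 1 0 0) r)) a b c =
      ∑ α ∈ range K, s⁻¹ * (r / s) ^ α * co y (a - α) (b + α + 1) c := by
  have e : ∀ α : ℕ, pt a b c + α • (pt 0 1 0 - pt 1 0 0) + pt 0 1 0 = pt (a - α) (b + α + 1) c := by
    intro α; rw [pt_sub, pt_nsmul, pt_add, pt_add]; congr 1 <;> ring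
  rw [co, geo_div lt21 hs r y _ K fun α hα => by rw [e]; exact hK α hα]
  simp only [e, co]

theorem geo13 {s : F} (hs : s ≠ 0) (r : F) (y : HahnSeries GG3 F) (a b c : ℤ) (K : ℕ)
    (hK : ∀ α : ℕ, K ≤ α → co y (a - α) b (c + α + 1) = 0) :
    co (y / (single (pt 0 0 1) s - single (pt 1 0 0) r)) a b c =
      ∑ α ∈ range K, s⁻¹ * (r / s) ^ α * co y (a - α) b (c + α + 1) := by
  have e : ∀ α : ℕ, pt a b c + α • (pt 0 0 1 - pt 1 0 0) + pt 0 0 1 = pt (a - α) b (c + α + 1) := by
    intro α; rw [pt_sub, pt_nsmul, pt_add, pt_add]; congr 1 <;> ring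
  rw [co, geo_div lt31 hs r y _ K fun α hα => by rw [e]; exact hK α hα]
  simp only [e, co]

theorem geo23 {s : F} (hs : s ≠ 0) (r : F) (y : HahnSeries GG3 F) (a b c : ℤ) (K : ℕ)
    (hK : ∀ α : ℕ, K ≤ α → co y a (b - α) (c + α + 1) = 0) :
    co (y / (single (pt 0 0 1) s - single (pt 0 1 0) r)) a b c =
      ∑ α ∈ range K, s⁻¹ * (r / s) ^ α * co y a (b - α) (c + α + 1) := by
  have e : ∀ α : ℕ, pt a b c + α • (pt 0 0 1 - pt 0 1 0) + pt 0 0 1 = pt a (b - α) (c + α + 1) := by
    intro α; rw [pt_sub, pt_nsmul, pt_add, pt_add]; congr 1 <;> ring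
  rw [co, geo_div lt32 hs r y _ K fun α hα => by rw [e]; exact hK α hα]
  simp only [e, co]

/-- generating product in one variable -/
noncomputable def PH (N : ℕ) (f : ℕ → F) (g : GG3) (r : F) : HahnSeries GG3 F :=
  PP N (fun s => C (f s)) (single g r)

theorem PH_coeff (N : ℕ) (f : ℕ → F) (g : GG3) (r : F) (y : HahnSeries GG3 F) (π : ℤ → GG3)
    (hπ : ∀ k, π k - g = π (k - 1)) (φ : F) (hy : ∀ k, y.coeff (π k) = if k = 0 then φ else 0)
    (k : ℤ) : (y * PH N f g r).coeff (π k) = es N (fun s => r * f s) k * φ := by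
  induction N generalizing k with
  | zero => simp [PH, PP, es, hy]
  | succ N ih =>
    have : y * PH (N + 1) f g r = y * PH N f g r + C (f N) * (single g r * (y * PH N f g r)) := by
      simp only [PH, PP, prod_range_succ]; ring
    rw [this, coeff_add, C_mul_eq_smul, coeff_smul, coeff_single_mul, hπ, ih, ih, es, smul_eq_mul]
    ring

theorem co_PH3 (N : ℕ) (f g h : ℕ → F) (r1 r2 r3 : F) (a b c : ℤ) :
    co (PH N f (pt 1 0 0) r1 * PH N g (pt 0 1 0) r2 * PH N h (pt 0 0 1) r3) a b c =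
      es N (fun s => r1 * f s) a * es N (fun s => r2 * g s) b * es N (fun s => r3 * h s) c := by
  have h1 : ∀ a b c, co (PH N f (pt 1 0 0) r1) a b c =
      es N (fun s => r1 * f s) a * if b = 0 ∧ c = 0 then 1 else 0 := by
    intro a b c
    have := PH_coeff N f (pt 1 0 0) r1 1 (fun k => pt k b c) (fun k => by rw [pt_sub]; simp)
      (if b = 0 ∧ c = 0 then 1 else 0) (fun k => by
        rw [coeff_one, pt_zero, pt_inj]; by_cases k = 0 <;> simp [*]) a
    rwa [one_mul] at this
  have h2 : ∀ a b c, co (PH N f (pt 1 0 0) r1 * PH N g (pt 0 1 0) r2) a b c =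
      es N (fun s => r2 * g s) b * (es N (fun s => r1 * f s) a * if c = 0 then 1 else 0) := by
    intro a b c
    exact PH_coeff N g (pt 0 1 0) r2 _ (fun k => pt a k c) (fun k => by rw [pt_sub]; simp) _
      (fun k => by
        have := h1 a k c
        rw [co] at this
        rw [this]; by_cases k = 0 <;> simp [*]) b
  have := PH_coeff N h (pt 0 0 1) r3 (PH N f (pt 1 0 0) r1 * PH N g (pt 0 1 0) r2)
    (fun k => pt a b k) (fun k => by rw [pt_sub]; simp)
    (es N (fun s => r2 * g s) b * es N (fun s => r1 * f s) a) (fun k => by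
        have := h2 a b k
        rw [co] at this
        rw [this]; by_cases k = 0 <;> simp [*]) c
  rw [co, this]; ring

theorem PH_zero (N : ℕ) (g : GG3) (r : F) : PH N (fun _ => (0 : F)) g r = 1 := by
  simp [PH, PP]

theorem es_zero_fun (N : ℕ) (r : F) : es N (fun _ => r * (0 : F)) 0 = 1 := es_zero _ _

theorem co_PH2 (N : ℕ) (g h : ℕ → F) (r2 r3 : F) (b c : ℤ) :
    co (PH N g (pt 0 1 0) r2 * PH N h (pt 0 0 1) r3) 0 b c =
      es N (fun s => r2 * g s) b * es N (fun s => r3 * h s) c := by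
  have := co_PH3 N (fun _ => 0) g h 1 r2 r3 0 b c
  rwa [PH_zero, es_zero, one_mul, one_mul] at this

theorem PH_ne (N : ℕ) (h : ℕ → F) (r : F) : PH N h (pt 0 0 1) r ≠ 0 := by
  intro h0
  have := co_PH2 N (fun _ => 0) h 1 r 0 0
  rw [h0, es_zero, es_zero] at this
  simp [co] at this

theorem PH_ne2 (N : ℕ) (h : ℕ → F) (r : F) : PH N h (pt 0 1 0) r ≠ 0 := by
  intro h0
  have := co_PH2 N h (fun _ => 0) r 1 0 0
  rw [h0, es_zero, es_zero] at this
  simp [co] at this

theorem C_single (q r : F) (g : GG3) :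
    (C q * single g r : HahnSeries GG3 F) = single g (q * r) := by
  rw [C_apply, single_mul_single, zero_add]

theorem om_C (q : F) (a s : ℕ) : om (C q : HahnSeries GG3 F) a s = C (om q a s) := by
  simp only [om]; split_ifs <;> simp

end Pool.Agent.P.MP_389f6f_co
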