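import Pool.Agent.P.MP_389f6f_co.Cones
import Pool.Agent.P.MP_389f6f_co.Hahn
import Pool.Agent.P.MP_389f6f_co.GF4

set_option autoImplicit false

namespace Pool.Agent.P.MP_389f6f_co
open Finset HahnSeries

namespace Ctx
variable {F : Type*} [Field F] (X : Ctx F)

section generic
variable {gX gY : GG3} (hlt : gY < gX) {rX rY : F} (hX : rX ≠ 0) (hY : rY ≠ 0)
  (π : ℤ → ℤ → GG3) (hπ : ∀ (p r : ℤ) (α : ℕ), π p r + α • (gY - gX) + gY = π (p - α) (r + α + 1))
  (Φ1 Φ2 : HahnSeries GG3 F) (κ : F) (c d : ℕ)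
  (h1 : ∀ p r, Φ1.coeff (π p r) = κ * (rX ^ p * rY ^ r) * (X.eps c p * X.eps d r))
  (h2 : ∀ p r, Φ2.coeff (π p r) = κ * (rX ^ p * rY ^ r) * (X.eps d p * X.eps c r))
include hlt hX hY hπ h1 h2

theorem coSg_aux (p r : ℤ) (K : ℕ) (hK : p < K) :
    (SgF Φ1 Φ2 (single gX rX) (single gY rY) (single gX (X.q * rX)) (single gY (X.q * rY))).coeff
      (π p r) = κ * (rX ^ p * rY ^ r) * X.q⁻¹ * ∑ α ∈ range K,
        (X.q ^ (-(α : ℤ)) * (X.eps d (r + α + 1) * X.eps c (p - α)) +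
          X.q ^ ((α : ℤ) + 1) * (X.eps d (p - α) * X.eps c (r + α + 1))) := by
  have hq0 := X.q0
  rw [SgF, coeff_add, geo_div hlt (mul_ne_zero hq0 hY) _ _ _ K fun α hα => by
      rw [hπ, h1, X.eps_neg c (by omega)]; ring,
    geo_div hlt hY _ _ _ K fun α hα => by rw [hπ, h2, X.eps_neg d (by omega)]; ring,
    ← sum_add_distrib, mul_sum]
  refine sum_congr rfl fun α _ => ?_
  rw [hπ, h1, h2]
  simp only [zpow_sub₀ hX, zpow_add₀ hY, zpow_add₀ hq0, zpow_neg, zpow_natCast, zpow_one, div_pow,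
    mul_pow]
  field_simp

theorem coSg_neg (p r : ℤ) (hp : p < 0) :
    (SgF Φ1 Φ2 (single gX rX) (single gY rY) (single gX (X.q * rX)) (single gY (X.q * rY))).coeff
      (π p r) = 0 := by
  rw [X.coSg_aux hlt hX hY π hπ Φ1 Φ2 κ c d h1 h2 p r 0 (by simpa using hp)]; simp

theorem coSg (n : ℕ) (r : ℤ) :
    (SgF Φ1 Φ2 (single gX rX) (single gY rY) (single gX (X.q * rX)) (single gY (X.q * rY))).coeff
      (π n r) = κ * (rX ^ (n : ℤ) * rY ^ r) * X.q⁻¹ * X.Sh n (n + r + 1) c d := by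
  rw [X.coSg_aux hlt hX hY π hπ Φ1 Φ2 κ c d h1 h2 n r (n + 1) (by omega), Sh,
    ← sum_range_reflect]
  congr 1
  refine sum_congr rfl fun i hi => ?_
  have hi' := mem_range.mp hi
  have e : ((n + 1 - 1 - i : ℕ) : ℤ) = n - i := by omega
  rw [e]
  ring_nf

theorem coU (p r : ℤ) :
    (SgF Φ1 Φ2 (single gX rX) (single gY rY) (single gX (X.q * rX)) (single gY (X.q * rY)) /
      (single gY rY - single gX rX)).coeff (π p r) =
      κ * (rX ^ p * rY ^ r) * X.q⁻¹ * X.UU (p + 1).toNat (p + r + 2) c d := by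
  rw [geo_div hlt hY _ _ _ (p + 1).toNat fun α hα => by
    rw [hπ]; exact X.coSg_neg hlt hX hY π hπ Φ1 Φ2 κ c d h1 h2 _ _ (by omega), UU, mul_sum,
    ← sum_range_reflect]
  refine sum_congr rfl fun i hi => ?_
  have hi' := mem_range.mp hi
  obtain ⟨α, hα⟩ : ∃ α : ℕ, p = i + α := ⟨(p - i).toNat, by omega⟩
  have e : (p + 1).toNat - 1 - i = α := by omega
  rw [e, hπ, show p - α = i by omega, X.coSg hlt hX hY π hπ Φ1 Φ2 κ c d h1 h2, hα,
    show (i : ℤ) + (r + α + 1) + 1 = i + α + r + 2 by ring]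
  simp only [zpow_add₀ hX, zpow_add₀ hY, zpow_natCast, zpow_one, div_pow]
  field_simp

end generic

theorem pi12 (c : ℤ) (p r : ℤ) (α : ℕ) :
    pt p r c + α • (pt 0 1 0 - pt 1 0 0) + pt 0 1 0 = pt (p - α) (r + α + 1) c := by
  rw [pt_sub, pt_nsmul, pt_add, pt_add]; congr 1 <;> ring
theorem pi13 (b : ℤ) (p r : ℤ) (α : ℕ) :
    pt p b r + α • (pt 0 0 1 - pt 1 0 0) + pt 0 0 1 = pt (p - α) b (r + α + 1) := by
  rw [pt_sub, pt_nsmul, pt_add, pt_add]; congr 1 <;> ring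
theorem pi23 (a : ℤ) (p r : ℤ) (α : ℕ) :
    pt a p r + α • (pt 0 0 1 - pt 0 1 0) + pt 0 0 1 = pt a (p - α) (r + α + 1) := by
  rw [pt_sub, pt_nsmul, pt_add, pt_add]; congr 1 <;> ring

variable (c d : ℕ) {r1 r2 r3 : F} (h1 : r1 ≠ 0) (h2 : r2 ≠ 0) (h3 : r3 ≠ 0)

/-- abbreviations for the generating products -/
noncomputable abbrev A1 (f : ℕ → F) (r : F) := PH X.N f (pt 1 0 0) r
noncomputable abbrev A2 (f : ℕ → F) (r : F) := PH X.N f (pt 0 1 0) r
noncomputable abbrev A3 (f : ℕ → F) (r : F) := PH X.N f (pt 0 0 1) r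

include h1 h2 h3 in
theorem co3 (f g h : ℕ → F) (a b k : ℤ) : co (X.A1 f r1 * X.A2 g r2 * X.A3 h r3) a b k =
    r1 ^ a * r2 ^ b * r3 ^ k * (es X.N f a * es X.N g b * es X.N h k) := by
  rw [co_PH3, es_smul _ _ h1, es_smul _ _ h2, es_smul _ _ h3]; ring

include h2 h3 in
theorem co2 (g h : ℕ → F) (b k : ℤ) : co (X.A2 g r2 * X.A3 h r3) 0 b k =
    r2 ^ b * r3 ^ k * (es X.N g b * es X.N h k) := by
  rw [co_PH2, es_smul _ _ h2, es_smul _ _ h3]; ring

include h1 h2 h3 in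
theorem coU23 (i p r : ℤ) :
    co (SgF (X.A1 X.x r1 * X.A2 (X.w1 c) r2 * X.A3 (X.w1 d) r3)
      (X.A1 X.x r1 * X.A2 (X.w1 d) r2 * X.A3 (X.w1 c) r3) (single (pt 0 1 0) r2)
      (single (pt 0 0 1) r3) (single (pt 0 1 0) (X.q * r2)) (single (pt 0 0 1) (X.q * r3)) /
      (single (pt 0 0 1) r3 - single (pt 0 1 0) r2)) i p r =
      r1 ^ i * X.e i * (r2 ^ p * r3 ^ r) * X.q⁻¹ * X.UU (p + 1).toNat (p + r + 2) c d :=
  X.coU lt32 h2 h3 (fun p r => pt i p r) (pi23 i) _ _ (r1 ^ i * X.e i) c d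
    (fun p r => by have := X.co3 h1 h2 h3 X.x (X.w1 c) (X.w1 d) i p r
                   rw [co] at this; rw [this, e, eps, eps]; ring)
    (fun p r => by have := X.co3 h1 h2 h3 X.x (X.w1 d) (X.w1 c) i p r
                   rw [co] at this; rw [this, e, eps, eps]; ring) p r

include h1 h2 h3 in
theorem coU12 (i p r : ℤ) :
    co (SgF (X.A1 (X.w1 c) r1 * X.A2 (X.w1 d) r2 * X.A3 X.x r3)
      (X.A1 (X.w1 d) r1 * X.A2 (X.w1 c) r2 * X.A3 X.x r3) (single (pt 1 0 0) r1)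
      (single (pt 0 1 0) r2) (single (pt 1 0 0) (X.q * r1)) (single (pt 0 1 0) (X.q * r2)) /
      (single (pt 0 1 0) r2 - single (pt 1 0 0) r1)) p r i =
      r3 ^ i * X.e i * (r1 ^ p * r2 ^ r) * X.q⁻¹ * X.UU (p + 1).toNat (p + r + 2) c d :=
  X.coU lt21 h1 h2 (fun p r => pt p r i) (pi12 i) _ _ (r3 ^ i * X.e i) c d
    (fun p r => by have := X.co3 h1 h2 h3 (X.w1 c) (X.w1 d) X.x p r i
                   rw [co] at this; rw [this, e, eps, eps]; ring)
    (fun p r => by have := X.co3 h1 h2 h3 (X.w1 d) (X.w1 c) X.x p r i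
                   rw [co] at this; rw [this, e, eps, eps]; ring) p r

include h1 h2 h3 in
theorem coS13 (g : ℕ → F) (i : ℤ) (p : ℕ) (r : ℤ) :
    co (SgF (X.A1 (X.w1 c) r1 * X.A2 g r2 * X.A3 (X.w1 d) r3)
      (X.A1 (X.w1 d) r1 * X.A2 g r2 * X.A3 (X.w1 c) r3) (single (pt 1 0 0) r1)
      (single (pt 0 0 1) r3) (single (pt 1 0 0) (X.q * r1)) (single (pt 0 0 1) (X.q * r3))) p i r =
      r2 ^ i * es X.N g i * (r1 ^ (p : ℤ) * r3 ^ r) * X.q⁻¹ * X.Sh p (p + r + 1) c d :=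
  X.coSg lt31 h1 h3 (fun p r => pt p i r) (pi13 i) _ _ (r2 ^ i * es X.N g i) c d
    (fun p r => by have := X.co3 h1 h2 h3 (X.w1 c) g (X.w1 d) p i r
                   rw [co] at this; rw [this, eps, eps]; ring)
    (fun p r => by have := X.co3 h1 h2 h3 (X.w1 d) g (X.w1 c) p i r
                   rw [co] at this; rw [this, eps, eps]; ring) p r

include h1 h2 h3 in
theorem coS13_neg (g : ℕ → F) (i : ℤ) (p : ℤ) (r : ℤ) (hp : p < 0) :
    co (SgF (X.A1 (X.w1 c) r1 * X.A2 g r2 * X.A3 (X.w1 d) r3)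
      (X.A1 (X.w1 d) r1 * X.A2 g r2 * X.A3 (X.w1 c) r3) (single (pt 1 0 0) r1)
      (single (pt 0 0 1) r3) (single (pt 1 0 0) (X.q * r1)) (single (pt 0 0 1) (X.q * r3))) p i r =
      0 :=
  X.coSg_neg lt31 h1 h3 (fun p r => pt p i r) (pi13 i) _ _ (r2 ^ i * es X.N g i) c d
    (fun p r => by have := X.co3 h1 h2 h3 (X.w1 c) g (X.w1 d) p i r
                   rw [co] at this; rw [this, eps, eps]; ring)
    (fun p r => by have := X.co3 h1 h2 h3 (X.w1 d) g (X.w1 c) p i r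
                   rw [co] at this; rw [this, eps, eps]; ring) p r hp

include h2 h3 in
theorem coU23' (p r : ℤ) :
    co (SgF (X.A2 (X.w1 c) r2 * X.A3 (X.w1 d) r3)
      (X.A2 (X.w1 d) r2 * X.A3 (X.w1 c) r3) (single (pt 0 1 0) r2)
      (single (pt 0 0 1) r3) (single (pt 0 1 0) (X.q * r2)) (single (pt 0 0 1) (X.q * r3)) /
      (single (pt 0 0 1) r3 - single (pt 0 1 0) r2)) 0 p r =
      (r2 ^ p * r3 ^ r) * X.q⁻¹ * X.UU (p + 1).toNat (p + r + 2) c d := by
  have := X.coU lt32 h2 h3 (fun p r => pt 0 p r) (pi23 0) _ _ 1 c d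
    (fun p r => by have := X.co2 h2 h3 (X.w1 c) (X.w1 d) p r
                   rw [co] at this; rw [this, eps, eps]; ring)
    (fun p r => by have := X.co2 h2 h3 (X.w1 d) (X.w1 c) p r
                   rw [co] at this; rw [this, eps, eps]; ring) p r
  rwa [one_mul] at this

/-- conversion of the generating products -/
theorem PP_x (g : GG3) (r : F) :
    PP X.N (fun s => (C (X.x s) : HahnSeries GG3 F)) (single g r) = PH X.N X.x g r := rfl
theorem PP_w1 (a : ℕ) (g : GG3) (r : F) :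
    PP X.N (fun s => (C (X.x s) : HahnSeries GG3 F) * om (C X.q) a s) (single g r) =
      PH X.N (X.w1 a) g r := by
  simp only [PH, om_C, ← map_mul, w1]
theorem PP_w2 (a b : ℕ) (g : GG3) (r : F) :
    PP X.N (fun s => (C (X.x s) : HahnSeries GG3 F) * om (C X.q) a s * om (C X.q) b s)
      (single g r) = PH X.N (X.w2 a b) g r := by
  simp only [PH, om_C, ← map_mul, w2]
theorem PP_w3 (c d a : ℕ) (g : GG3) (r : F) :
    PP X.N (fun s => (C (X.x s) : HahnSeries GG3 F) * om (C X.q) c s * om (C X.q) d s *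
      om (C X.q) s a) (single g r) = PH X.N (fun s => X.w2 c d s * om X.q s a) g r := by
  simp only [PH, om_C, ← map_mul, w2]
theorem PP_w4 (c d a b : ℕ) (g : GG3) (r : F) :
    PP X.N (fun s => (C (X.x s) : HahnSeries GG3 F) * om (C X.q) c s * om (C X.q) d s *
      om (C X.q) s a * om (C X.q) s b) (single g r) =
      PH X.N (fun s => X.w2 c d s * om X.q s a * om X.q s b) g r := by
  simp only [PH, om_C, ← map_mul, w2]
theorem C_w2 (c d a : ℕ) : (C (X.x a) : HahnSeries GG3 F) * om (C X.q) c a * om (C X.q) d a =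
    C (X.w2 c d a) := by
  simp only [om_C, ← map_mul, w2]

theorem Cq0 : (C X.q : HahnSeries GG3 F) ≠ 0 := C_ne_zero X.q0
theorem Cq1 : (C X.q : HahnSeries GG3 F) - 1 ≠ 0 := by
  rw [← map_one C, ← map_sub]; exact C_ne_zero X.q1
theorem Cq2 : (C X.q : HahnSeries GG3 F) + 1 ≠ 0 := by
  rw [← map_one C, ← map_add]; exact C_ne_zero X.q2

end Ctx

theorem co_neg {F : Type*} [Field F] (y : HahnSeries GG3 F) (a b c : ℤ) :
    co (-y) a b c = -co y a b c := coeff_neg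

/-- complete homogeneous sum in two variables -/
def hh {F : Type*} [Field F] (a b : F) (n : ℕ) : F := ∑ i ∈ range (n + 1), a ^ i * b ^ (n - i)

theorem geo23_2 {F : Type*} [Field F] {s s' : F} (hs : s ≠ 0) (hs' : s' ≠ 0) (r r' : F)
    (y : HahnSeries GG3 F) (a b c : ℤ) (K : ℕ)
    (hK : ∀ α : ℕ, K ≤ α → co y a (b - α) (c + α + 2) = 0) :
    co (y / (single (pt 0 0 1) s - single (pt 0 1 0) r) /
      (single (pt 0 0 1) s' - single (pt 0 1 0) r')) a b c =
      ∑ α ∈ range K, s⁻¹ * s'⁻¹ * hh (r' / s') (r / s) α * co y a (b - α) (c + α + 2) := by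
  have inner : ∀ α : ℕ, co (y / (single (pt 0 0 1) s - single (pt 0 1 0) r)) a (b - α) (c + α + 1) =
      ∑ β ∈ range (K - α), s⁻¹ * (r / s) ^ β * co y a (b - (α + β : ℕ)) (c + (α + β : ℕ) + 2) := by
    intro α
    rw [geo23 hs r y a _ _ (K - α) fun β hβ => by
      have := hK (α + β) (by omega)
      push_cast at this
      rw [← this]; congr 1 <;> ring]
    refine sum_congr rfl fun β _ => ?_
    congr 2 <;> push_cast <;> ring
  rw [geo23 hs' r' _ a b c K fun α hα => by rw [inner, show K - α = 0 by omega]; simp]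
  simp only [inner, mul_sum]
  rw [← sum_range_diag_flip K (fun α β => s'⁻¹ * (r' / s') ^ α * (s⁻¹ * (r / s) ^ β *
    co y a (b - (α + β : ℕ)) (c + (α + β : ℕ) + 2)))]
  refine sum_congr rfl fun n _ => ?_
  rw [hh, mul_sum, sum_mul]
  refine sum_congr rfl fun i hi => ?_
  have := mem_range.mp hi
  rw [show i + (n - i) = n by omega]; ring

theorem geo12_2 {F : Type*} [Field F] {s s' : F} (hs : s ≠ 0) (hs' : s' ≠ 0) (r r' : F)
    (y : HahnSeries GG3 F) (a b c : ℤ) (K : ℕ)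
    (hK : ∀ α : ℕ, K ≤ α → co y (a - α) (b + α + 2) c = 0) :
    co (y / (single (pt 0 1 0) s - single (pt 1 0 0) r) /
      (single (pt 0 1 0) s' - single (pt 1 0 0) r')) a b c =
      ∑ α ∈ range K, s⁻¹ * s'⁻¹ * hh (r' / s') (r / s) α * co y (a - α) (b + α + 2) c := by
  have inner : ∀ α : ℕ, co (y / (single (pt 0 1 0) s - single (pt 1 0 0) r)) (a - α) (b + α + 1) c =
      ∑ β ∈ range (K - α), s⁻¹ * (r / s) ^ β * co y (a - (α + β : ℕ)) (b + (α + β : ℕ) + 2) c := by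
    intro α
    rw [geo12 hs r y _ _ c (K - α) fun β hβ => by
      have := hK (α + β) (by omega)
      push_cast at this
      rw [← this]; congr 1 <;> ring]
    refine sum_congr rfl fun β _ => ?_
    congr 2 <;> push_cast <;> ring
  rw [geo12 hs' r' _ a b c K fun α hα => by rw [inner, show K - α = 0 by omega]; simp]
  simp only [inner, mul_sum]
  rw [← sum_range_diag_flip K (fun α β => s'⁻¹ * (r' / s') ^ α * (s⁻¹ * (r / s) ^ β *
    co y (a - (α + β : ℕ)) (b + (α + β : ℕ) + 2) c))]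
  refine sum_congr rfl fun n _ => ?_
  rw [hh, mul_sum, sum_mul]
  refine sum_congr rfl fun i hi => ?_
  have := mem_range.mp hi
  rw [show i + (n - i) = n by omega]; ring

end Pool.Agent.P.MP_389f6f_co
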