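import Pool.Agent.P.MP_389f6f_co.Basic

set_option autoImplicit false

namespace Pool.Agent.P.MP_389f6f_co
open Finset

variable {K : Type*} [Field K]

theorem chain_succ (M g : ℕ → K) (m : ℕ) :
    ∑ a ∈ range (m + 1), M a * ∏ s ∈ Ico (a + 1) (m + 1), g s =
      (∑ a ∈ range m, M a * ∏ s ∈ Ico (a + 1) m, g s) * g m + M m := by
  rw [sum_range_succ, sum_mul]
  simp only [Ico_self, prod_empty, mul_one]
  congr 1
  refine sum_congr rfl fun a ha => ?_
  rw [prod_Ico_succ_top (by simpa using ha), mul_assoc]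

theorem prod_split3 (φ : ℕ → K) {a N : ℕ} (h : a < N) :
    ∏ s ∈ range N, φ s = (∏ s ∈ range a, φ s) * φ a * ∏ s ∈ Ico (a + 1) N, φ s := by
  rw [← prod_range_succ, prod_range_mul_prod_Ico _ h]

theorem prod_split5 (φ : ℕ → K) {a b N : ℕ} (h : a < b) (h' : b < N) :
    ∏ s ∈ range N, φ s = (∏ s ∈ range a, φ s) * φ a * (∏ s ∈ Ico (a + 1) b, φ s) * φ b *
      ∏ s ∈ Ico (b + 1) N, φ s := by
  rw [prod_split3 φ h', prod_split3 φ h]

theorem phase (T g : ℕ → K) {m m' : ℕ} (h : m ≤ m')
    (hs : ∀ s, m ≤ s → s < m' → T (s + 1) = T s * g s) : T m' = T m * ∏ s ∈ Ico m m', g s := by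
  induction m', h using Nat.le_induction with
  | base => simp
  | succ n hn ih =>
    rw [prod_Ico_succ_top hn, ← mul_assoc, ← ih fun s h1 h2 => hs s h1 (by omega),
      hs n hn (by omega)]

/-- generating product -/
def PP (N : ℕ) (f : ℕ → K) (α : K) : K := ∏ s ∈ range N, (1 + f s * α)

section chain
variable (q z : K) (x w : ℕ → K)

def f0 (u v : K) (s : ℕ) : K := (1 + x s * (q * u)) * (1 + x s * (q * v)) * (1 + w s * z)
def f1 (u v : K) (s : ℕ) : K := (1 + x s * u) * (1 + x s * (q * v)) * (1 + w s * (q * z))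
def f2 (u v : K) (s : ℕ) : K := (1 + x s * u) * (1 + x s * v) * (1 + w s * (q ^ 2 * z))
def V0 (u v : K) (m : ℕ) : K := ∏ s ∈ range m, f0 q z x w u v s
def V1 (u v : K) (m : ℕ) : K := ∑ a ∈ range m, (V0 q z x w u v a * (w a * (1 + x a * (q * v)))) *
  ∏ s ∈ Ico (a + 1) m, f1 q z x w u v s
def V2 (u v : K) (m : ℕ) : K := ∑ b ∈ range m,
  ((v - q * u) * V1 q z x w u v b * (w b * (1 + x b * u)) +
    (q * v - u) * V1 q z x w v u b * (w b * (1 + x b * v))) *
  ∏ s ∈ Ico (b + 1) m, f2 q z x w u v s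

theorem V0_comm (u v : K) (m : ℕ) : V0 q z x w v u m = V0 q z x w u v m :=
  prod_congr rfl fun s _ => by simp only [f0]; ring

theorem V0_succ (u v : K) (m : ℕ) :
    V0 q z x w u v (m + 1) = V0 q z x w u v m * f0 q z x w u v m := prod_range_succ _ _

theorem V1_succ (u v : K) (m : ℕ) : V1 q z x w u v (m + 1) = V1 q z x w u v m * f1 q z x w u v m +
    V0 q z x w u v m * (w m * (1 + x m * (q * v))) := chain_succ _ _ _

theorem V2_succ (u v : K) (m : ℕ) : V2 q z x w u v (m + 1) = V2 q z x w u v m * f2 q z x w u v m +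
    ((v - q * u) * V1 q z x w u v m * (w m * (1 + x m * u)) +
    (q * v - u) * V1 q z x w v u m * (w m * (1 + x m * v))) := chain_succ _ _ _

theorem V1_eq (u v : K) (N : ℕ) : V1 q z x w u v N = PP N x (q * v) *
    ∑ a ∈ range N, w a * PP N (fun s => x s * om q a s) u * PP N (fun s => w s * om q s a) z := by
  rw [V1, mul_sum]
  refine sum_congr rfl fun a ha => ?_
  have ha' := mem_range.mp ha
  have : PP N x (q * v) * (w a * PP N (fun s => x s * om q a s) u *
      PP N (fun s => w s * om q s a) z) = w a * ∏ s ∈ range N, (1 + x s * (q * v)) *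
        (1 + x s * om q a s * u) * (1 + w s * om q s a * z) := by
    simp only [PP, prod_mul_distrib]; ring
  rw [this, prod_split3 _ ha', V0]
  have h1 : ∏ s ∈ range a, (1 + x s * (q * v)) * (1 + x s * om q a s * u) *
      (1 + w s * om q s a * z) = ∏ s ∈ range a, f0 q z x w u v s := by
    refine prod_congr rfl fun s hs => ?_
    have := mem_range.mp hs
    simp only [om, f0]; split_ifs <;> first | ring1 | omega
  have h2 : ∏ s ∈ Ico (a + 1) N, (1 + x s * (q * v)) * (1 + x s * om q a s * u) *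
      (1 + w s * om q s a * z) = ∏ s ∈ Ico (a + 1) N, f1 q z x w u v s := by
    refine prod_congr rfl fun s hs => ?_
    have := mem_Ico.mp hs
    simp only [om, f1]; split_ifs <;> first | ring1 | omega
  rw [h1, h2]; simp only [om, lt_self_iff_false, if_false, if_true]; ring

theorem V2_term (u v : K) {N a b : ℕ} (hab : a < b) (hb : b < N) :
    V0 q z x w u v a * (w a * (1 + x a * (q * v))) * (∏ s ∈ Ico (a + 1) b, f1 q z x w u v s) *
      (w b * (1 + x b * u)) * ∏ s ∈ Ico (b + 1) N, f2 q z x w u v s =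
    w a * w b * (PP N (fun s => x s * om q a s) u * PP N (fun s => x s * om q b s) v) *
      PP N (fun s => w s * om q s a * om q s b) z := by
  have : w a * w b * (PP N (fun s => x s * om q a s) u * PP N (fun s => x s * om q b s) v) *
      PP N (fun s => w s * om q s a * om q s b) z = w a * w b * ∏ s ∈ range N,
        (1 + x s * om q a s * u) * (1 + x s * om q b s * v) *
          (1 + w s * om q s a * om q s b * z) := by
    simp only [PP, prod_mul_distrib]; ring
  rw [this, prod_split5 _ hab hb, V0]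
  have h1 : ∏ s ∈ range a, (1 + x s * om q a s * u) * (1 + x s * om q b s * v) *
          (1 + w s * om q s a * om q s b * z) = ∏ s ∈ range a, f0 q z x w u v s := by
    refine prod_congr rfl fun s hs => ?_
    have := mem_range.mp hs
    simp only [om, f0]; split_ifs <;> first | ring1 | omega
  have h2 : ∏ s ∈ Ico (a + 1) b, (1 + x s * om q a s * u) * (1 + x s * om q b s * v) *
          (1 + w s * om q s a * om q s b * z) = ∏ s ∈ Ico (a + 1) b, f1 q z x w u v s := by
    refine prod_congr rfl fun s hs => ?_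
    have := mem_Ico.mp hs
    simp only [om, f1]; split_ifs <;> first | ring1 | omega
  have h3 : ∏ s ∈ Ico (b + 1) N, (1 + x s * om q a s * u) * (1 + x s * om q b s * v) *
          (1 + w s * om q s a * om q s b * z) = ∏ s ∈ Ico (b + 1) N, f2 q z x w u v s := by
    refine prod_congr rfl fun s hs => ?_
    have := mem_Ico.mp hs
    simp only [om, f2]; split_ifs <;> first | ring1 | omega
  rw [h1, h2, h3]
  simp only [om, lt_self_iff_false, if_false, if_true, if_pos hab, if_neg hab.ne',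
    if_neg (not_lt.mpr hab.le)]
  ring

theorem V2_eq (u v : K) (N : ℕ) : V2 q z x w u v N = ∑ b ∈ range N, ∑ a ∈ range b,
    w a * w b * ((v - q * u) * (PP N (fun s => x s * om q a s) u *
      PP N (fun s => x s * om q b s) v) + (q * v - u) * (PP N (fun s => x s * om q a s) v *
      PP N (fun s => x s * om q b s) u)) * PP N (fun s => w s * om q s a * om q s b) z := by
  refine sum_congr rfl fun b hb => ?_
  have hb' := mem_range.mp hb
  simp only [V1, mul_sum, sum_mul, ← sum_add_distrib]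
  refine sum_congr rfl fun a ha => ?_
  have ha' := mem_range.mp ha
  have h1 := V2_term q z x w u v ha' hb'
  have h2 := V2_term q z x w v u ha' hb'
  have h3 : ∏ s ∈ Ico (b + 1) N, f2 q z x w v u s = ∏ s ∈ Ico (b + 1) N, f2 q z x w u v s :=
    prod_congr rfl fun s _ => by simp only [f2]; ring
  rw [h3] at h2
  linear_combination (v - q * u) * h1 + (q * v - u) * h2

noncomputable def p1 (κ Z u : K) : K := -κ / ((q - 1) * (u - Z))
noncomputable def p02 (κ Z u v : K) : K :=
  κ ^ 2 * q * (v - u) / ((q - 1) ^ 2 * (v - Z) * (u - Z))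
noncomputable def T1 (κ Z u v : K) (m : ℕ) : K := V1 q z x w u v m + V0 q z x w u v m * p1 q κ Z u
noncomputable def T2 (κ Z u v : K) (m : ℕ) : K := V2 q z x w u v m +
  (v - q * u) * V1 q z x w u v m * p1 q κ Z v + (q * v - u) * V1 q z x w v u m * p1 q κ Z u +
  V0 q z x w u v m * p02 q κ Z u v

variable {q z x w}

theorem T1_reg {κ Z u v : K} {s : ℕ} (hw : w s = κ * x s) (hZ : Z = κ * z) (hq : q - 1 ≠ 0)
    (hu : u - Z ≠ 0) :
    T1 q z x w κ Z u v (s + 1) = T1 q z x w κ Z u v s * f1 q z x w u v s := by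
  simp only [T1, V1_succ, V0_succ, f0, f1, p1, hw]
  field_simp
  subst hZ
  ring

theorem T2_reg {κ Z u v : K} {s : ℕ} (hw : w s = κ * x s) (hZ : Z = q * κ * z) (hq : q - 1 ≠ 0)
    (hu : u - Z ≠ 0) (hv : v - Z ≠ 0) :
    T2 q z x w κ Z u v (s + 1) = T2 q z x w κ Z u v s * f2 q z x w u v s := by
  simp only [T2, V2_succ, V1_succ, V0_succ, V0_comm q z x w u v, f0, f1, f2, p1, p02, hw]
  field_simp
  subst hZ
  ring

theorem T1_spec {κ κ' Z Z' u v : K} {s : ℕ} (hw : w s = 0) (hκ : κ' = q * κ) (hZ : Z' = q * Z)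
    (hq : q - 1 ≠ 0) (hu : u - Z ≠ 0) (hu' : u - Z' ≠ 0) :
    T1 q z x w κ Z u v (s + 1) = T1 q z x w κ' Z' u v s * ((1 + x s * u) * (1 + x s * (q * v))) +
      V0 q z x w u v s * ((1 + x s * (q * v)) * (1 + x s * Z') *
        (κ * u / ((u - Z) * (u - Z')))) := by
  simp only [T1, V1_succ, V0_succ, f0, f1, p1, hw]
  field_simp
  subst hZ hκ
  ring

theorem T2_spec {κ κ' Z Z' u v : K} {s : ℕ} (hw : w s = 0) (hκ : κ' = q * κ) (hZ : Z' = q * Z)
    (hq : q - 1 ≠ 0) (hu : u - Z ≠ 0) (hv : v - Z ≠ 0) (hu' : u - Z' ≠ 0) (hv' : v - Z' ≠ 0) :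
    T2 q z x w κ Z u v (s + 1) = T2 q z x w κ' Z' u v s * ((1 + x s * u) * (1 + x s * v)) +
      (v - q * u) * T1 q z x w κ' Z u v s * ((1 + x s * u) * (1 + x s * Z') *
        (κ * v / ((v - Z) * (v - Z')))) +
      (q * v - u) * T1 q z x w κ' Z v u s * ((1 + x s * v) * (1 + x s * Z') *
        (κ * u / ((u - Z) * (u - Z')))) := by
  simp only [T2, T1, V2_succ, V1_succ, V0_succ, V0_comm q z x w u v, f0, f1, f2, p1, p02, hw]
  field_simp
  subst hZ hκ
  ring

end chain

end Pool.Agent.P.MP_389f6f_co
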