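import Pool.Agent.P.MP_389f6f_co.GF

set_option autoImplicit false

namespace Pool.Agent.P.MP_389f6f_co
open Finset

variable {K : Type*} [Field K]

def QQ (x : ℕ → K) (a b : ℕ) (α : K) : K := ∏ s ∈ Ico a b, (1 + x s * α)

section
variable {q z z1 z2 z3 : K} {x : ℕ → K} {c d N : ℕ}

theorem split_gen (φ : ℕ → K) (hc : c < d) (hd : d < N) :
    ∏ s ∈ range N, φ s = (∏ s ∈ Ico 0 c, φ s) * φ c * (∏ s ∈ Ico (c + 1) d, φ s) * φ d *
      ∏ s ∈ Ico (d + 1) N, φ s := by
  rw [prod_split5 φ hc hd, range_eq_Ico]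

theorem PP_gen (hc : c < d) (hd : d < N) (f : ℕ → K) (α a1 a2 a3 : K)
    (h1 : ∀ s < c, f s * α = x s * a1) (h2 : ∀ s, c < s → s < d → f s * α = x s * a2)
    (h3 : ∀ s, d < s → f s * α = x s * a3) :
    PP N f α = QQ x 0 c a1 * (1 + f c * α) * QQ x (c + 1) d a2 * (1 + f d * α) *
      QQ x (d + 1) N a3 := by
  rw [PP, split_gen _ hc hd]
  simp only [QQ]
  rw [prod_congr rfl fun s hs => by rw [h1 s (mem_Ico.mp hs).2],
    prod_congr (s₁ := Ico (c + 1) d) rfl fun s hs => by
      rw [h2 s (mem_Ico.mp hs).1 (mem_Ico.mp hs).2],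
    prod_congr (s₁ := Ico (d + 1) N) rfl fun s hs => by rw [h3 s (mem_Ico.mp hs).1]]

theorem PP_x (hc : c < d) (hd : d < N) (α : K) : PP N x α =
    QQ x 0 c α * (1 + x c * α) * QQ x (c + 1) d α * (1 + x d * α) * QQ x (d + 1) N α :=
  PP_gen hc hd x α α α α (fun _ _ => rfl) (fun _ _ _ => rfl) (fun _ _ => rfl)

theorem PP_c (hc : c < d) (hd : d < N) (α : K) : PP N (fun s => x s * om q c s) α =
    QQ x 0 c (q * α) * QQ x (c + 1) d α * (1 + x d * α) * QQ x (d + 1) N α := by
  rw [PP_gen (x := x) hc hd _ α (q * α) α α]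
  · simp [om, hc.ne', not_lt.mpr hc.le]
  all_goals intros; simp only [om]; split_ifs <;> first | ring1 | omega

theorem PP_d (hc : c < d) (hd : d < N) (α : K) : PP N (fun s => x s * om q d s) α =
    QQ x 0 c (q * α) * (1 + x c * (q * α)) * QQ x (c + 1) d (q * α) * QQ x (d + 1) N α := by
  rw [PP_gen (x := x) hc hd _ α (q * α) (q * α) α]
  · simp [om, hc, mul_assoc]
  all_goals intros; simp only [om]; split_ifs <;> first | ring1 | omega

theorem PP_w (hc : c < d) (hd : d < N) (α : K) :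
    PP N (fun s => x s * om q c s * om q d s) α =
    QQ x 0 c (q * (q * α)) * QQ x (c + 1) d (q * α) * QQ x (d + 1) N α := by
  rw [PP_gen (x := x) hc hd _ α (q * (q * α)) (q * α) α]
  · simp [om]
  all_goals intros; simp only [om]; split_ifs <;> first | ring1 | omega

theorem f_prod (w : ℕ → K) (a b : ℕ) (α β γ δ : K) (h : ∀ s, a ≤ s → s < b → w s * γ = x s * δ) :
    ∏ s ∈ Ico a b, (1 + x s * α) * (1 + x s * β) * (1 + w s * γ) =
      QQ x a b α * QQ x a b β * QQ x a b δ := by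
  simp only [QQ, ← prod_mul_distrib]
  exact prod_congr rfl fun s hs => by rw [h s (mem_Ico.mp hs).1 (mem_Ico.mp hs).2]

theorem w_left (s : ℕ) (hc : c < d) (hs : s < c) :
    x s * om q c s * om q d s = q * q * x s := by
  simp only [om]; split_ifs <;> first | ring1 | omega
theorem w_mid (s : ℕ) (hc : c < s) (hs : s < d) : x s * om q c s * om q d s = q * x s := by
  simp only [om]; split_ifs <;> first | ring1 | omega
theorem w_right (s : ℕ) (hc : c < d) (hs : d < s) : x s * om q c s * om q d s = 1 * x s := by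
  simp only [om]; split_ifs <;> first | ring1 | omega

variable (hc : c < d) (hd : d < N) (hz1 : z1 = q * z) (hz2 : z2 = q * z1) (hz3 : z3 = q * z2)
  (hq : q - 1 ≠ 0)
include hc hz1 hz2

theorem V0_vals (u v : K) :
    V0 q z x (fun s => x s * om q c s * om q d s) u v c =
      QQ x 0 c (q * u) * QQ x 0 c (q * v) * QQ x 0 c z2 ∧
    V0 q z x (fun s => x s * om q c s * om q d s) u v d =
      QQ x 0 c (q * u) * QQ x 0 c (q * v) * QQ x 0 c z2 *
        ((1 + x c * (q * u)) * (1 + x c * (q * v))) *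
        (QQ x (c + 1) d (q * u) * QQ x (c + 1) d (q * v) * QQ x (c + 1) d z1) ∧
    V0 q z x (fun s => x s * om q c s * om q d s) u v N =
      PP N x (q * u) * PP N x (q * v) * PP N (fun s => x s * om q c s * om q d s) z := by
  have h1 : V0 q z x (fun s => x s * om q c s * om q d s) u v c =
      QQ x 0 c (q * u) * QQ x 0 c (q * v) * QQ x 0 c z2 := by
    rw [V0, range_eq_Ico]
    exact f_prod _ _ _ _ _ _ _ fun s _ hs => by rw [w_left s hc hs, hz2, hz1]; ring
  refine ⟨h1, ?_, by simp only [V0, PP, f0, prod_mul_distrib]⟩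
  rw [V0, prod_split3 _ hc, ← h1, V0]
  congr 2
  · simp [f0, om]
  · exact f_prod _ _ _ _ _ _ _ fun s h1 hs => by rw [w_mid s h1 hs, hz1]; ring

include hd hz3 hq

theorem T1_vals {u : K} (v : K) (h0 : u - z ≠ 0) (h1 : u - z1 ≠ 0) (h2 : u - z2 ≠ 0) :
    T1 q z x (fun s => x s * om q c s * om q d s) (q * q) z2 u v c =
      p1 q (q * q) z2 u * (QQ x 0 c u * QQ x 0 c (q * v) * QQ x 0 c z3) ∧
    T1 q z x (fun s => x s * om q c s * om q d s) q z1 u v d =
      (p1 q (q * q) z2 u * (QQ x 0 c u * QQ x 0 c (q * v) * QQ x 0 c z3) *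
        ((1 + x c * u) * (1 + x c * (q * v))) +
        QQ x 0 c (q * u) * QQ x 0 c (q * v) * QQ x 0 c z2 * ((1 + x c * (q * v)) * (1 + x c * z2) *
          (q * u / ((u - z1) * (u - z2))))) *
        (QQ x (c + 1) d u * QQ x (c + 1) d (q * v) * QQ x (c + 1) d z2) ∧
    V1 q z x (fun s => x s * om q c s * om q d s) u v N = PP N x (q * v) *
      (p1 q (q * q) z2 u * (PP N x u * PP N (fun s => x s * om q c s * om q d s) z1) +
      q * u / ((u - z1) * (u - z2)) *
        (PP N (fun s => x s * om q c s) u * PP N (fun s => x s * om q d s) z1) +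
      1 * u / ((u - z) * (u - z1)) *
        (PP N (fun s => x s * om q d s) u * PP N (fun s => x s * om q c s) z1) -
      p1 q 1 z u * (PP N x (q * u) * PP N (fun s => x s * om q c s * om q d s) z)) := by
  obtain ⟨v1, v2, v3⟩ := V0_vals (x := x) (N := N) hc hz1 hz2 u v
  set w : ℕ → K := fun s => x s * om q c s * om q d s with hw
  have a1 : T1 q z x w (q * q) z2 u v c =
      p1 q (q * q) z2 u * (QQ x 0 c u * QQ x 0 c (q * v) * QQ x 0 c z3) := by
    rw [phase (T1 q z x w (q * q) z2 u v) (f1 q z x w u v) (Nat.zero_le c) fun s _ hs =>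
      T1_reg (w_left s hc hs) (by rw [hz2, hz1]; ring) hq h2]
    congr 1
    · simp [T1, V1, V0]
    · exact f_prod _ _ _ _ _ _ _ fun s _ hs => by
        simp only [hw]; rw [w_left s hc hs, hz3, hz2, hz1]; ring
  have a2 : T1 q z x w q z1 u v d =
      (p1 q (q * q) z2 u * (QQ x 0 c u * QQ x 0 c (q * v) * QQ x 0 c z3) *
        ((1 + x c * u) * (1 + x c * (q * v))) +
        QQ x 0 c (q * u) * QQ x 0 c (q * v) * QQ x 0 c z2 * ((1 + x c * (q * v)) * (1 + x c * z2) *
          (q * u / ((u - z1) * (u - z2))))) *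
        (QQ x (c + 1) d u * QQ x (c + 1) d (q * v) * QQ x (c + 1) d z2) := by
    rw [phase (T1 q z x w q z1 u v) (f1 q z x w u v) (m := c + 1) hc fun s h hs =>
      T1_reg (w_mid s h hs) hz1 hq h1, T1_spec (by simp [hw, om]) rfl hz2 hq h1 h2, a1, v1]
    congr 1
    exact f_prod _ _ _ _ _ _ _ fun s h hs => by
      simp only [hw]; rw [w_mid s h hs, hz2, hz1]; ring
  refine ⟨a1, a2, ?_⟩
  have a3 := phase (T1 q z x w 1 z u v) (f1 q z x w u v) (m := d + 1) hd fun s h hs =>
      T1_reg (w_right s hc h) (by ring) hq h0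
  rw [T1_spec (by simp [hw, om]) (mul_one q).symm hz1 hq h0 h1, a2, v2] at a3
  have a4 : ∏ s ∈ Ico (d + 1) N, f1 q z x w u v s =
      QQ x (d + 1) N u * QQ x (d + 1) N (q * v) * QQ x (d + 1) N z1 :=
    f_prod _ _ _ _ _ _ _ fun s h hs => by
      simp only [hw]; rw [w_right s hc h, hz1]; ring
  rw [a4, T1, v3] at a3
  simp only [hw, PP_x (x := x) hc hd, PP_c (x := x) hc hd, PP_d (x := x) hc hd,
    PP_w (x := x) hc hd, ← hz1, ← hz2, ← hz3] at a3 ⊢
  linear_combination a3

theorem T2_val {u v : K} (h0 : u - z ≠ 0) (h1 : u - z1 ≠ 0) (h2 : u - z2 ≠ 0) (h3 : u - z3 ≠ 0)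
    (k0 : v - z ≠ 0) (k1 : v - z1 ≠ 0) (k2 : v - z2 ≠ 0) (k3 : v - z3 ≠ 0) :
    T2 q z x (fun s => x s * om q c s * om q d s) 1 z1 u v N =
      p02 q (q * q) z3 u v *
        (PP N x u * PP N x v * PP N (fun s => x s * om q c s * om q d s) z2) +
      (v - q * u) * p1 q (q * q) z2 u * PP N x u * (q * v / ((v - z2) * (v - z3)) *
        (PP N (fun s => x s * om q c s) v * PP N (fun s => x s * om q d s) z2) +
        1 * v / ((v - z1) * (v - z2)) *
        (PP N (fun s => x s * om q d s) v * PP N (fun s => x s * om q c s) z2)) +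
      (q * v - u) * p1 q (q * q) z2 v * PP N x v * (q * u / ((u - z2) * (u - z3)) *
        (PP N (fun s => x s * om q c s) u * PP N (fun s => x s * om q d s) z2) +
        1 * u / ((u - z1) * (u - z2)) *
        (PP N (fun s => x s * om q d s) u * PP N (fun s => x s * om q c s) z2)) +
      (v - q * u) * (q * u / ((u - z1) * (u - z2))) * (1 * v / ((v - z1) * (v - z2))) *
        (PP N (fun s => x s * om q c s) u * PP N (fun s => x s * om q d s) v * PP N x z2) +
      (q * v - u) * (q * v / ((v - z1) * (v - z2))) * (1 * u / ((u - z1) * (u - z2))) *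
        (PP N (fun s => x s * om q c s) v * PP N (fun s => x s * om q d s) u * PP N x z2) := by
  obtain ⟨u1, u2, -⟩ := T1_vals (x := x) hc hd hz1 hz2 hz3 hq v h0 h1 h2
  obtain ⟨v1, v2, -⟩ := T1_vals (x := x) hc hd hz1 hz2 hz3 hq u k0 k1 k2
  set w : ℕ → K := fun s => x s * om q c s * om q d s with hw
  have a1 : T2 q z x w (q * q) z3 u v c =
      p02 q (q * q) z3 u v * (QQ x 0 c u * QQ x 0 c v * QQ x 0 c (q * z3)) := by
    rw [phase (T2 q z x w (q * q) z3 u v) (f2 q z x w u v) (Nat.zero_le c) fun s _ hs =>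
      T2_reg (w_left s hc hs) (by rw [hz3, hz2, hz1]; ring) hq h3 k3]
    congr 1
    · simp [T2, V2, V1, V0]
    · exact f_prod _ _ _ _ _ _ _ fun s _ hs => by
        simp only [hw]; rw [w_left s hc hs, hz3, hz2, hz1]; ring
  have a2 := phase (T2 q z x w q z2 u v) (f2 q z x w u v) (m := c + 1) hc fun s h hs =>
      T2_reg (w_mid s h hs) (by rw [hz2, hz1]; ring) hq h2 k2
  rw [T2_spec (by simp [hw, om]) rfl hz3 hq h2 k2 h3 k3, a1, u1, v1] at a2
  have a2' : ∏ s ∈ Ico (c + 1) d, f2 q z x w u v s =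
      QQ x (c + 1) d u * QQ x (c + 1) d v * QQ x (c + 1) d z3 :=
    f_prod _ _ _ _ _ _ _ fun s h hs => by
      simp only [hw]; rw [w_mid s h hs, hz3, hz2, hz1]; ring
  have a3 := phase (T2 q z x w 1 z1 u v) (f2 q z x w u v) (m := d + 1) hd fun s h hs =>
      T2_reg (w_right s hc h) (by rw [hz1]; ring) hq h1 k1
  rw [T2_spec (by simp [hw, om]) (mul_one q).symm hz2 hq h1 k1 h2 k2, a2, a2', u2, v2] at a3
  have a4 : ∏ s ∈ Ico (d + 1) N, f2 q z x w u v s =
      QQ x (d + 1) N u * QQ x (d + 1) N v * QQ x (d + 1) N z2 :=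
    f_prod _ _ _ _ _ _ _ fun s h hs => by
      simp only [hw]; rw [w_right s hc h, hz2, hz1]; ring
  rw [a3, a4]
  simp only [hw, PP_x (x := x) hc hd, PP_c (x := x) hc hd, PP_d (x := x) hc hd,
    PP_w (x := x) hc hd, ← hz1, ← hz2, ← hz3]
  ring

end

end Pool.Agent.P.MP_389f6f_co
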