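import Pool.Agent.P.MP_389f6f_co.GF2

set_option autoImplicit false

namespace Pool.Agent.P.MP_389f6f_co
open Finset

variable {K : Type*} [Field K]

noncomputable def SgF (Φ1 Φ2 X Y X1 Y1 : K) : K := Φ1 / (Y1 - X) + Φ2 / (Y - X1)

section
variable {q z z1 z2 z3 u v u1 v1 : K} {x : ℕ → K} {c d N : ℕ}

theorem GF_K1 (hc : c < d) (hd : d < N) (hz1 : z1 = q * z) (hz2 : z2 = q * z1)
    (hu1 : u1 = q * u) (hq0 : q ≠ 0) (hq : q - 1 ≠ 0)
    (h0 : u - z ≠ 0) (h1 : u - z1 ≠ 0) (h2 : u - z2 ≠ 0) :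
    (q - 1) * ∑ a ∈ range N, (x a * om q c a * om q d a) *
      (PP N (fun s => x s * om q c s * om q d s * om q s a) z * PP N (fun s => x s * om q a s) u) =
    (q * (q - 1)) * (u * (SgF
      (PP N (fun s => x s * om q c s) z1 * PP N (fun s => x s * om q d s) u)
      (PP N (fun s => x s * om q d s) z1 * PP N (fun s => x s * om q c s) u) z1 u z2 u1 /
        (u - z1))) +
    PP N (fun s => x s * om q c s * om q d s) z * PP N x u1 / (u - z) +
    (-q ^ 2) * (PP N (fun s => x s * om q c s * om q d s) z1 * PP N x u / (u - z2)) := by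
  obtain ⟨-, -, h⟩ := T1_vals (x := x) hc hd hz1 hz2 rfl hq 0 h0 h1 h2
  rw [V1_eq] at h
  have e0 : PP N x (q * 0) = 1 := by simp [PP]
  rw [e0, one_mul, one_mul, ← hu1] at h
  have e1 : ∑ a ∈ range N, (x a * om q c a * om q d a) *
      (PP N (fun s => x s * om q c s * om q d s * om q s a) z * PP N (fun s => x s * om q a s) u) =
      ∑ a ∈ range N, (x a * om q c a * om q d a) * PP N (fun s => x s * om q a s) u *
      PP N (fun s => x s * om q c s * om q d s * om q s a) z := sum_congr rfl fun a _ => by ring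
  rw [e1, h]
  have h3 : u1 - z1 ≠ 0 := by rw [hu1, hz1, ← mul_sub]; exact mul_ne_zero hq0 h0
  simp only [SgF, p1]
  field_simp
  subst hz2 hz1 hu1
  ring

theorem GF_V2 (hc : c < d) (hd : d < N) (hz1 : z1 = q * z) (hz2 : z2 = q * z1) (hz3 : z3 = q * z2)
    (hu1 : u1 = q * u) (hv1 : v1 = q * v) (hq0 : q ≠ 0) (hq : q - 1 ≠ 0)
    (h0 : u - z ≠ 0) (h1 : u - z1 ≠ 0) (h2 : u - z2 ≠ 0) (h3 : u - z3 ≠ 0)
    (k0 : v - z ≠ 0) (k1 : v - z1 ≠ 0) (k2 : v - z2 ≠ 0) (k3 : v - z3 ≠ 0) :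
    (q - 1) ^ 2 * V2 q z x (fun s => x s * om q c s * om q d s) u v N =
      (-(q * (q - 1))) * (v1 - u) * (v * (SgF
        (PP N x u1 * PP N (fun s => x s * om q c s) z1 * PP N (fun s => x s * om q d s) v)
        (PP N x u1 * PP N (fun s => x s * om q d s) z1 * PP N (fun s => x s * om q c s) v)
        z1 v z2 v1 / (v - z1)) / (z1 - u)) +
      (q ^ 3 * (q - 1)) * (v - u1) * (v * (SgF
        (PP N x u * PP N (fun s => x s * om q c s) z2 * PP N (fun s => x s * om q d s) v)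
        (PP N x u * PP N (fun s => x s * om q d s) z2 * PP N (fun s => x s * om q c s) v)
        z2 v z3 v1 / (v - z2)) / (z2 - u)) +
      (q * (q - 1)) * (v - u1) * (u * (SgF
        (PP N (fun s => x s * om q c s) u * PP N (fun s => x s * om q d s) z1 * PP N x v1)
        (PP N (fun s => x s * om q d s) u * PP N (fun s => x s * om q c s) z1 * PP N x v1)
        u z1 u1 z2 / (z1 - u)) / (v - z1)) +
      (-(q ^ 3 * (q - 1))) * (v1 - u) * (u * (SgF
        (PP N (fun s => x s * om q c s) u * PP N (fun s => x s * om q d s) z2 * PP N x v)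
        (PP N (fun s => x s * om q d s) u * PP N (fun s => x s * om q c s) z2 * PP N x v)
        u z2 u1 z3 / (z2 - u)) / (v - z2)) +
      (q * (q - 1) ^ 2) * (u * (v * ((v - u1) *
        (PP N (fun s => x s * om q c s) u * PP N x z2 * PP N (fun s => x s * om q d s) v) +
        (v1 - u) * (PP N (fun s => x s * om q d s) u * PP N x z2 *
          PP N (fun s => x s * om q c s) v))) / (z1 - u) / (z2 - u) / (v - z1) / (v - z2)) -
      (v - u) * (PP N x u1 * PP N (fun s => x s * om q c s * om q d s) z * PP N x v1 /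
        (z - u) / (v - z)) -
      q ^ 5 * (v - u) * (PP N x u * PP N (fun s => x s * om q c s * om q d s) z2 * PP N x v /
        (z3 - u) / (v - z3)) +
      q ^ 2 * (v - u1) * (PP N x u * PP N (fun s => x s * om q c s * om q d s) z1 * PP N x v1 /
        (z2 - u) / (v - z1)) +
      q ^ 2 * (v1 - u) * (PP N x u1 * PP N (fun s => x s * om q c s * om q d s) z1 * PP N x v /
        (z1 - u) / (v - z2)) := by
  obtain ⟨-, -, a1⟩ := T1_vals (x := x) hc hd hz1 hz2 hz3 hq v h0 h1 h2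
  obtain ⟨-, -, a2⟩ := T1_vals (x := x) hc hd hz1 hz2 hz3 hq u k0 k1 k2
  obtain ⟨-, -, a3⟩ := V0_vals (x := x) (N := N) hc hz1 hz2 u v
  have a4 := T2_val (x := x) hc hd hz1 hz2 hz3 hq h0 h1 h2 h3 k0 k1 k2 k3
  rw [T2, a1, a2, a3] at a4
  simp only [← hu1, ← hv1] at a4
  generalize V2 q z x (fun s => x s * om q c s * om q d s) u v N = W at *
  generalize PP N x = E at *
  generalize PP N (fun s => x s * om q c s) = ec at *
  generalize PP N (fun s => x s * om q d s) = ed at *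
  generalize PP N (fun s => x s * om q c s * om q d s) = Y at *
  clear a1 a2 a3
  have g0 : z - u ≠ 0 := fun h => h0 (by linear_combination -h)
  have g1 : z1 - u ≠ 0 := fun h => h1 (by linear_combination -h)
  have g2 : z2 - u ≠ 0 := fun h => h2 (by linear_combination -h)
  have g3 : z3 - u ≠ 0 := fun h => h3 (by linear_combination -h)
  have m1 : v1 - z1 ≠ 0 := by rw [hv1, hz1, ← mul_sub]; exact mul_ne_zero hq0 k0
  have m2 : v1 - z2 ≠ 0 := by rw [hv1, hz2, ← mul_sub]; exact mul_ne_zero hq0 k1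
  have m3 : z1 - u1 ≠ 0 := by rw [hu1, hz1, ← mul_sub]; exact mul_ne_zero hq0 g0
  have m4 : z2 - u1 ≠ 0 := by rw [hu1, hz2, ← mul_sub]; exact mul_ne_zero hq0 g1
  simp only [SgF]
  have c1 : -((q - 1) ^ 2 * ((v1 - u) * (1 * v / ((v - z) * (v - z1))) * p1 q 1 z1 u)) =
      -(q * (q - 1)) * (v1 - u) * v / (v1 - z1) / (v - z1) / (z1 - u) := by
    simp only [p1]; field_simp; subst hz3 hz2 hz1 hu1 hv1; ring
  have c2 : -((q - 1) ^ 2 * ((v1 - u) * (v1 / ((v - z1) * (v - z2))) * p1 q 1 z1 u)) =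
      -(q * (q - 1)) * (v1 - u) * v / (v - z2) / (v - z1) / (z1 - u) := by
    simp only [p1]; field_simp; subst hz3 hz2 hz1 hu1 hv1; ring
  have c3 : (q - 1) ^ 2 * ((v - u1) * p1 q (q * q) z2 u * (1 * v / ((v - z1) * (v - z2)))) =
      q ^ 3 * (q - 1) * (v - u1) * v / (v1 - z2) / (v - z2) / (z2 - u) := by
    simp only [p1]; field_simp; subst hz3 hz2 hz1 hu1 hv1; ring
  have c4 : (q - 1) ^ 2 * ((v - u1) * p1 q (q * q) z2 u * (v1 / ((v - z2) * (v - z3)))) =
      q ^ 3 * (q - 1) * (v - u1) * v / (v - z3) / (v - z2) / (z2 - u) := by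
    simp only [p1]; field_simp; subst hz3 hz2 hz1 hu1 hv1; ring
  have c5 : -((q - 1) ^ 2 * ((v - u1) * (u1 / ((u - z1) * (u - z2))) * p1 q 1 z1 v)) =
      q * (q - 1) * (v - u1) * u / (z2 - u) / (z1 - u) / (v - z1) := by
    simp only [p1]; field_simp; subst hz3 hz2 hz1 hu1 hv1; ring
  have c6 : -((q - 1) ^ 2 * ((v - u1) * (1 * u / ((u - z) * (u - z1))) * p1 q 1 z1 v)) =
      q * (q - 1) * (v - u1) * u / (z1 - u1) / (z1 - u) / (v - z1) := by
    simp only [p1]; field_simp; subst hz3 hz2 hz1 hu1 hv1; ring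
  have c7 : (q - 1) ^ 2 * ((v1 - u) * p1 q (q * q) z2 v * (u1 / ((u - z2) * (u - z3)))) =
      -(q ^ 3 * (q - 1)) * (v1 - u) * u / (z3 - u) / (z2 - u) / (v - z2) := by
    simp only [p1]; field_simp; subst hz3 hz2 hz1 hu1 hv1; ring
  have c8 : (q - 1) ^ 2 * ((v1 - u) * p1 q (q * q) z2 v * (1 * u / ((u - z1) * (u - z2)))) =
      -(q ^ 3 * (q - 1)) * (v1 - u) * u / (z2 - u1) / (z2 - u) / (v - z2) := by
    simp only [p1]; field_simp; subst hz3 hz2 hz1 hu1 hv1; ring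
  have c9 : u1 / ((u - z1) * (u - z2)) * (1 * v / ((v - z1) * (v - z2))) =
      q * u * v / (z1 - u) / (z2 - u) / (v - z1) / (v - z2) := by
    field_simp; subst hz3 hz2 hz1 hu1 hv1; ring
  have c10 : v1 / ((v - z1) * (v - z2)) * (1 * u / ((u - z1) * (u - z2))) =
      q * u * v / (z1 - u) / (z2 - u) / (v - z1) / (v - z2) := by
    field_simp; subst hz3 hz2 hz1 hu1 hv1; ring
  have c11 : (q - 1) ^ 2 * ((v - u1) * p1 q 1 z u * p1 q 1 z1 v +
      (v1 - u) * p1 q 1 z v * p1 q 1 z1 u - p02 q 1 z1 u v) = -((v - u) / (z - u) / (v - z)) := by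
    simp only [p1, p02]; field_simp; subst hz3 hz2 hz1 hu1 hv1; ring
  have c12 : (q - 1) ^ 2 * p02 q (q * q) z3 u v = -(q ^ 5 * (v - u) / (z3 - u) / (v - z3)) := by
    simp only [p02]; field_simp; subst hz3 hz2 hz1 hu1 hv1; ring
  have c13 : -((q - 1) ^ 2 * (p1 q (q * q) z2 u * p1 q 1 z1 v)) = q ^ 2 / (z2 - u) / (v - z1) := by
    simp only [p1]; field_simp; subst hz3 hz2 hz1 hu1 hv1; ring
  have c14 : -((q - 1) ^ 2 * (p1 q (q * q) z2 v * p1 q 1 z1 u)) = q ^ 2 / (z1 - u) / (v - z2) := by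
    simp only [p1]; field_simp; subst hz3 hz2 hz1 hu1 hv1; ring
  linear_combination (q - 1) ^ 2 * a4 + E u1 * ec z1 * ed v * c1 + E u1 * ed z1 * ec v * c2 +
    E u * ec z2 * ed v * c3 + E u * ed z2 * ec v * c4 + ec u * ed z1 * E v1 * c5 +
    ed u * ec z1 * E v1 * c6 + ec u * ed z2 * E v * c7 + ed u * ec z2 * E v * c8 +
    (q - 1) ^ 2 * (v - u1) * ec u * E z2 * ed v * c9 +
    (q - 1) ^ 2 * (v1 - u) * ed u * E z2 * ec v * c10 + E u1 * Y z * E v1 * c11 +
    E u * Y z2 * E v * c12 + (v - u1) * E u * Y z1 * E v1 * c13 +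
    (v1 - u) * E u1 * Y z1 * E v * c14

end

end Pool.Agent.P.MP_389f6f_co
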