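import Pool.Agent.P.MP_389f6f_co.Red

set_option autoImplicit false

namespace Pool.Agent.P.MP_389f6f_co
open Finset

theorem IS_expand {F : Type*} [Field F] (X : Ctx F) (w R : ℕ → ℕ) (i : ℕ) (γ : ℕ → Finset ℕ) :
    ∃ A : Finset (ℕ → Finset ℕ), (∀ δ, δ ∈ A ↔
      (∀ j < i, δ j ∈ powersetCard (w j) (range X.N)) ∧ ∀ j, i ≤ j → δ j = γ j) ∧
      X.IS w R i γ = ∑ δ ∈ A, ∏ j ∈ range i, ∏ s ∈ δ j, X.Om (Ico (j + 1) (R (j + 1))) δ s := by
  classical
  induction i generalizing γ with
  | zero =>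
    refine ⟨{γ}, fun δ => ?_, by simp [Ctx.IS]⟩
    simp [funext_iff]
  | succ i ih =>
    choose A hA hs using ih
    have hAi : ∀ S, ∀ δ ∈ A (Function.update γ i S), δ i = S := fun S δ hδ => by
      rw [((hA _ _).mp hδ).2 i le_rfl, Function.update_self]
    have hAj : ∀ S, ∀ δ ∈ A (Function.update γ i S), ∀ j, i + 1 ≤ j → δ j = γ j :=
      fun S δ hδ j hj => by
        rw [((hA _ _).mp hδ).2 j (by omega), Function.update_of_ne (by omega)]
    refine ⟨(powersetCard (w i) (range X.N)).biUnion fun S => A (Function.update γ i S),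
      fun δ => ?_, ?_⟩
    · rw [mem_biUnion]
      constructor
      · rintro ⟨S, hS, hδ⟩
        refine ⟨fun j hj => ?_, hAj S δ hδ⟩
        rcases (Nat.lt_succ_iff.mp hj).eq_or_lt with rfl | h
        · rw [hAi S δ hδ]; exact hS
        · exact ((hA _ _).mp hδ).1 j h
      · rintro ⟨h1, h2⟩
        refine ⟨δ i, h1 i (by omega), (hA _ _).mpr ⟨fun j hj => h1 j (by omega), fun j hj => ?_⟩⟩
        rcases hj.eq_or_lt with rfl | h
        · rw [Function.update_self]
        · rw [Function.update_of_ne (by omega), h2 j h]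
    · rw [sum_biUnion, Ctx.IS]
      · refine sum_congr rfl fun S _ => ?_
        rw [hs, mul_sum]
        refine sum_congr rfl fun δ hδ => ?_
        rw [prod_range_succ, mul_comm, hAi S δ hδ]
        congr 1
        refine prod_congr rfl fun s _ => ?_
        rw [Ctx.Om, Ctx.Om]
        congr 1
        exact prod_congr rfl fun j hj => by rw [hAj S δ hδ j (mem_Ico.mp hj).1]
      · intro S _ T _ hST
        refine disjoint_left.mpr fun δ h1 h2 => hST ?_
        rw [← hAi S δ h1, ← hAi T δ h2]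

theorem enum (V : Finset ℕ) : ∃ idx v : ℕ → ℕ,
    (∀ u ∈ V, idx u < V.card ∧ v (idx u) = u ∧ idx (u + 1) = idx u + 1) ∧
    (∀ j < V.card, v j ∈ V ∧ idx (v j) = j) ∧ Monotone idx ∧ ∀ u, idx u ≤ V.card := by
  have hf : (Set.ofPred (fun x => x ∈ V)).Finite := V.finite_toSet
  have hc : hf.toFinset = V := by ext; simp
  refine ⟨Nat.count (· ∈ V), Nat.nth (· ∈ V), fun u hu => ⟨?_, Nat.nth_count hu,
    Nat.count_succ_eq_succ_count hu⟩, fun j hj => ⟨Nat.nth_mem_of_lt_card hf (by rwa [hc]),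
    Nat.count_nth_of_lt_card_finite hf (by rwa [hc])⟩, Nat.count_monotone _, fun u => ?_⟩
  · have := Nat.count_lt_card hf hu; rwa [hc] at this
  · have := Nat.count_le_card hf u; rwa [hc] at this

section ring
variable (n : ℕ)

abbrev AA := MvPolynomial (Fin n) (Polynomial ℤ)

/-- monomials in `q` and the elementary symmetric polynomials. -/
noncomputable def Mon : Submonoid (AA n) where
  carrier := {p | ∃ (a : ℕ) (M : Multiset ℕ), (∀ i ∈ M, 0 < i) ∧ p = MvPolynomial.C (Polynomial.X ^ a) *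
    (M.map fun k => MvPolynomial.esymm (Fin n) (Polynomial ℤ) k).prod}
  one_mem' := ⟨0, 0, by simp, by simp⟩
  mul_mem' := by
    rintro _ _ ⟨a, M, h, rfl⟩ ⟨b, M', h', rfl⟩
    refine ⟨a + b, M + M', fun i hi => ?_, ?_⟩
    · rcases Multiset.mem_add.mp hi with hi | hi
      exacts [h i hi, h' i hi]
    · rw [pow_add, map_mul, Multiset.map_add, Multiset.prod_add]; ring

theorem prodX_hom (T : Finset (Fin n)) :
    (∏ a ∈ T, (MvPolynomial.X a : AA n)).IsHomogeneous T.card := by
  have := MvPolynomial.IsHomogeneous.prod T (fun a => (MvPolynomial.X a : AA n)) (fun _ => 1)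
    fun a _ => MvPolynomial.isHomogeneous_X _ a
  simpa using this

theorem esymm_hom (k : ℕ) : (MvPolynomial.esymm (Fin n) (Polynomial ℤ) k).IsHomogeneous k := by
  refine MvPolynomial.IsHomogeneous.sum _ _ _ fun T hT => ?_
  have := prodX_hom n T
  rwa [(mem_powersetCard.mp hT).2] at this

theorem eprod_hom (M : Multiset ℕ) :
    (M.map fun k => MvPolynomial.esymm (Fin n) (Polynomial ℤ) k).prod.IsHomogeneous M.sum := by
  induction M using Multiset.induction_on with
  | empty => simpa using MvPolynomial.isHomogeneous_one _ _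
  | cons a M ih =>
    rw [Multiset.map_cons, Multiset.prod_cons, Multiset.sum_cons]
    exact (esymm_hom n a).mul ih

theorem epos_of_mem {d : ℕ} {p : AA n} (hp : p ∈ (Mon n).subsemiringClosure)
    (hh : p.IsHomogeneous d) : ∃ c : Nat.Partition d → Polynomial ℤ, (∀ μ k, 0 ≤ (c μ).coeff k) ∧
      p = ∑ μ : Nat.Partition d, MvPolynomial.C (c μ) *
        (μ.parts.map (fun k => MvPolynomial.esymm (Fin n) (Polynomial ℤ) k)).prod := by
  classical
  rw [← MvPolynomial.homogeneousComponent_eq_self hh]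
  clear hh
  rw [Submonoid.subsemiringClosure_mem] at hp
  induction hp using AddSubmonoid.closure_induction with
  | zero => exact ⟨0, by simp, by simp⟩
  | add p p' _ _ h1 h2 =>
    obtain ⟨c, hc, e⟩ := h1
    obtain ⟨c', hc', e'⟩ := h2
    refine ⟨c + c', fun μ k => ?_, ?_⟩
    · rw [Pi.add_apply, Polynomial.coeff_add]; exact add_nonneg (hc μ k) (hc' μ k)
    · rw [map_add, e, e', ← sum_add_distrib]
      exact sum_congr rfl fun μ _ => by rw [Pi.add_apply, map_add, add_mul]
  | mem p hp =>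
    obtain ⟨a, M, hM, rfl⟩ := hp
    rw [MvPolynomial.homogeneousComponent_of_mem ((eprod_hom n M).C_mul _)]
    split_ifs with h
    · refine ⟨Pi.single ⟨M, fun hi => hM _ hi, h.symm⟩ (Polynomial.X ^ a), fun μ k => ?_, ?_⟩
      · rw [Pi.single_apply]
        split_ifs
        · rw [Polynomial.coeff_X_pow]; split_ifs <;> simp
        · simp
      · rw [sum_eq_single ⟨M, fun hi => hM _ hi, h.symm⟩ (fun μ _ hμ => by
          rw [Pi.single_eq_of_ne hμ]; simp) (by simp), Pi.single_eq_same]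
    · exact ⟨0, by simp, by simp⟩

abbrev KK := FractionRing (AA n)

def sh : Fin n ↪ ℕ := ⟨fun a => a + 2, fun a b h => Fin.ext (by simpa using h)⟩

theorem sh_apply (a : Fin n) : sh n a = a + 2 := rfl

noncomputable def xx (s : ℕ) : KK n :=
  if h : 2 ≤ s ∧ s < n + 2 then algebraMap (AA n) (KK n) (MvPolynomial.X ⟨s - 2, by omega⟩) else 0

theorem xx_sh (a : Fin n) : xx n (sh n a) = algebraMap (AA n) (KK n) (MvPolynomial.X a) := by
  have : 2 ≤ sh n a ∧ sh n a < n + 2 := by simp [sh_apply]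
  rw [xx, dif_pos this]; rfl

theorem sh_pre (S : Finset ℕ) (h : ∀ s ∈ S, xx n s ≠ 0) : ∃ T : Finset (Fin n), T.map (sh n) = S := by
  refine ⟨univ.filter fun a => sh n a ∈ S, ?_⟩
  ext s
  simp only [mem_map, mem_filter, mem_univ, true_and]
  refine ⟨by rintro ⟨a, ha, rfl⟩; exact ha, fun hs => ?_⟩
  have h2 : 2 ≤ s ∧ s < n + 2 := by
    by_contra hc
    exact h s hs (dif_neg hc)
  have : sh n ⟨s - 2, by omega⟩ = s := by simp only [sh_apply]; omega
  exact ⟨_, by rwa [this], this⟩

theorem sh_sub (T : Finset (Fin n)) : T.map (sh n) ⊆ range (n + 2) := by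
  intro s hs
  obtain ⟨a, _, rfl⟩ := mem_map.mp hs
  simp [sh_apply]

theorem es_xx (k : ℕ) : es (n + 2) (xx n) k =
    algebraMap (AA n) (KK n) (MvPolynomial.esymm (Fin n) (Polynomial ℤ) k) := by
  rw [es_eq_sum, MvPolynomial.esymm, map_sum]
  refine (sum_of_injOn (fun T : Finset (Fin n) => T.map (sh n)) (map_injective _).injOn
    (fun T hT => ?_) (fun S hS h => ?_) (fun T _ => ?_)).symm
  · exact mem_powersetCard.mpr ⟨sh_sub n T, by rw [card_map, (mem_powersetCard.mp hT).2]⟩
  · by_contra hc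
    obtain ⟨T, rfl⟩ := sh_pre n S (prod_ne_zero_iff.mp hc)
    refine h ⟨T, ?_, rfl⟩
    have := (mem_powersetCard.mp hS).2
    rw [card_map] at this
    simp [this]
  · rw [prod_map, map_prod]
    exact prod_congr rfl fun a _ => (xx_sh n a).symm

theorem Cq_ne (p : Polynomial ℤ) (hp : p ≠ 0) :
    algebraMap (AA n) (KK n) (MvPolynomial.C p) ≠ 0 := by
  rw [ne_eq, IsFractionRing.to_map_eq_zero_iff, MvPolynomial.C_eq_zero]; exact hp

noncomputable def cx : Ctx (KK n) where
  N := n + 2
  q := algebraMap (AA n) (KK n) (MvPolynomial.C Polynomial.X)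
  x := xx n
  L := ((Mon n).subsemiringClosure).map (algebraMap (AA n) (KK n))
  q0 := Cq_ne n _ Polynomial.X_ne_zero
  q1 := by
    have := Cq_ne n _ (Polynomial.X_sub_C_ne_zero (1 : ℤ))
    simpa using this
  q2 := by
    have := Cq_ne n _ (Polynomial.X_add_C_ne_zero (1 : ℤ))
    simpa using this
  two := by
    have := Cq_ne n 2 two_ne_zero
    rwa [map_ofNat, map_ofNat] at this
  hq := ⟨_, AddSubmonoid.subset_closure ⟨1, 0, by simp, by simp⟩, rfl⟩
  he := by
    intro k
    rcases lt_trichotomy k 0 with h | rfl | h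
    · rw [es_neg _ _ _ h]; exact zero_mem _
    · rw [es_zero]; exact one_mem _
    · obtain ⟨m, rfl⟩ := Int.eq_ofNat_of_zero_le h.le
      rw [es_xx]
      exact ⟨_, AddSubmonoid.subset_closure ⟨0, {m}, by simpa using h, by simp⟩, rfl⟩
  x0 := by simp [xx]
  x1 := by simp [xx]
  N2 := by omega

end ring

end Pool.Agent.P.MP_389f6f_co
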