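import Pool.Agent.P.MP_389f6f_co.Glue

set_option autoImplicit false

namespace Pool.Agent.P.MP_389f6f_co
open Finset

/-- an increasing enumeration of a finite set of naturals. -/
structure En (V : Finset ℕ) where
  idx : ℕ → ℕ
  v : ℕ → ℕ
  h1 : ∀ u ∈ V, idx u < V.card ∧ v (idx u) = u ∧ idx (u + 1) = idx u + 1
  h2 : ∀ j < V.card, v j ∈ V ∧ idx (v j) = j
  mono : Monotone idx
  le : ∀ u, idx u ≤ V.card

theorem En.ex (V : Finset ℕ) : Nonempty (En V) := by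
  obtain ⟨idx, v, h1, h2, h3, h4⟩ := enum V
  exact ⟨⟨idx, v, h1, h2, h3, h4⟩⟩

namespace En
variable {V : Finset ℕ} (E : En V)

theorem lt_iff {u : ℕ} (hu : u ∈ V) (u' : ℕ) : E.idx u < E.idx u' ↔ u < u' := by
  constructor
  · intro h; by_contra hc
    have := E.mono (not_lt.mp hc); omega
  · intro h
    have := E.mono (show u + 1 ≤ u' from h)
    rw [(E.h1 u hu).2.2] at this; omega

theorem v_lt {i j : ℕ} (h : i < j) (hj : j < V.card) : E.v i < E.v j := by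
  rw [← E.lt_iff (E.h2 i (by omega)).1, (E.h2 i (by omega)).2, (E.h2 j hj).2]; exact h

theorem prod_conv {M : Type*} [CommMonoid M] (g : ℕ → M) :
    ∏ j ∈ range V.card, g j = ∏ u : {x // x ∈ V}, g (E.idx u) := by
  rw [prod_coe_sort V fun u => g (E.idx u)]
  exact prod_nbij' E.v E.idx (fun j hj => (E.h2 j (mem_range.mp hj)).1)
    (fun u hu => mem_range.mpr (E.h1 u hu).1) (fun j hj => (E.h2 j (mem_range.mp hj)).2)
    (fun u hu => (E.h1 u hu).2.1) fun j hj => by rw [(E.h2 j (mem_range.mp hj)).2]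

def wt (V : Finset ℕ) (u : ℕ) : ℕ := u - (V.filter fun j => j < u).sup id

def w (j : ℕ) : ℕ := if j < V.card then wt V (E.v j) else 1

def R (h : ℕ → ℕ) : ℕ → ℕ
  | 0 => 0
  | i + 1 => E.idx (h (E.v i) + 1)

theorem w_idx {u : ℕ} (hu : u ∈ V) : E.w (E.idx u) = wt V u := by
  rw [w, if_pos (E.h1 u hu).1, (E.h1 u hu).2.1]

theorem w_zero (h : 0 < V.card) : E.w 0 = E.v 0 := by
  rw [w, if_pos h, wt, filter_eq_empty_iff.mpr fun u hu hc => by
    rw [← E.lt_iff hu, (E.h2 0 h).2] at hc; omega]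
  simp

theorem w_succ {j : ℕ} (h : j + 1 < V.card) : E.w (j + 1) = E.v (j + 1) - E.v j := by
  rw [w, if_pos h, wt]
  congr 1
  refine le_antisymm (Finset.sup_le fun u hu => ?_)
    (le_sup (f := id) (mem_filter.mpr ⟨(E.h2 j (by omega)).1, E.v_lt (by omega) h⟩))
  obtain ⟨hu, hc⟩ := mem_filter.mp hu
  rw [← E.lt_iff hu, (E.h2 _ h).2] at hc
  by_contra hd
  have : E.v j < u := not_le.mp hd
  rw [← E.lt_iff (E.h2 j (by omega)).1, (E.h2 j (by omega)).2] at this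
  omega

theorem w_sum {m : ℕ} (h : m < V.card) : ∑ j ∈ range (m + 1), E.w j = E.v m := by
  induction m with
  | zero => simp [E.w_zero h]
  | succ m ih =>
    rw [sum_range_succ, ih (by omega), E.w_succ h]
    have := E.v_lt (Nat.lt_add_one m) h
    omega

theorem w_pos (h0 : ∀ u ∈ V, 1 ≤ u) (j : ℕ) : 1 ≤ E.w j := by
  by_cases h : j < V.card
  · rcases j with _ | j
    · rw [E.w_zero h]; exact h0 _ (E.h2 0 h).1
    · rw [E.w_succ h]
      have := E.v_lt (Nat.lt_add_one j) h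
      omega
  · rw [w, if_neg h]

include E in
theorem wt_sum {n : ℕ} (hn : n ∈ V) (hle : ∀ u ∈ V, u ≤ n) : ∑ u : {x // x ∈ V}, wt V u = n := by
  have h1 := E.h1 n hn
  have h2 : E.idx n + 1 = V.card := by
    by_contra hc
    have h3 := E.h2 (E.idx n + 1) (by omega)
    have := E.mono (hle _ h3.1)
    omega
  have h3 := E.prod_conv (M := Multiplicative ℕ) fun j => Multiplicative.ofAdd (E.w j)
  have h4 : ∑ j ∈ range V.card, E.w j = ∑ u : {x // x ∈ V}, E.w (E.idx u) := h3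
  rw [← h2, E.w_sum h1.1, h1.2.1] at h4
  rw [h4]
  exact sum_congr rfl fun u _ => (E.w_idx u.2).symm

theorem mem_Ico_R (h : ℕ → ℕ) {u u' : ℕ} (hu : u ∈ V) (hu' : u' ∈ V) :
    E.idx u' ∈ Ico (E.idx u + 1) (E.R h (E.idx u + 1)) ↔ u < u' ∧ u' ≤ h u := by
  rw [mem_Ico, R, (E.h1 u hu).2.1, E.lt_iff hu', Nat.lt_succ_iff, Nat.succ_le_iff, E.lt_iff hu]

theorem om_prod {n : ℕ} {F : Type*} [CommRing F] (q : F) {S T : Finset (Fin n)} (h : Disjoint S T) :
    ∏ a ∈ S, ∏ b ∈ T, om q (sh n b) (sh n a) = q ^ ((S ×ˢ T).filter fun p => p.1 < p.2).card := by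
  rw [← prod_product', ← prod_const, prod_filter]
  refine prod_congr rfl fun p hp => ?_
  obtain ⟨h1, h2⟩ := mem_product.mp hp
  have : p.1 ≠ p.2 := fun e => disjoint_left.mp h h1 (e ▸ h2)
  have : (p.1 : ℕ) ≠ p.2 := fun e => this (Fin.ext e)
  simp only [om, sh_apply, Fin.lt_def, Nat.add_lt_add_iff_right, Nat.add_right_cancel_iff]
  split_ifs <;> rfl

theorem term (n : ℕ) (h : ℕ → ℕ) (δ : ℕ → Finset ℕ) :
    ∏ j ∈ range V.card, ∏ s ∈ δ j, (cx n).Om (Ico (j + 1) (E.R h (j + 1))) δ s =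
      (∏ u : {x // x ∈ V}, ∏ u' : {x // x ∈ V}, if (u : ℕ) < u' ∧ (u' : ℕ) ≤ h u then
        ∏ a ∈ δ (E.idx u), ∏ b ∈ δ (E.idx u'), om (cx n).q b a else 1) *
      ∏ u : {x // x ∈ V}, ∏ a ∈ δ (E.idx u), xx n a := by
  rw [E.prod_conv, ← prod_mul_distrib]
  refine prod_congr rfl fun u _ => ?_
  simp only [Ctx.Om]
  rw [prod_mul_distrib, mul_comm, prod_comm]
  congr 1
  have : Ico (E.idx u + 1) (E.R h (E.idx u + 1)) =
      (range V.card).filter (· ∈ Ico (E.idx u + 1) (E.R h (E.idx u + 1))) := by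
    rw [filter_mem_eq_inter, eq_comm, inter_eq_right]
    intro j hj
    exact mem_range.mpr ((mem_Ico.mp hj).2.trans_le (E.le _))
  rw [this, prod_filter, E.prod_conv]
  refine prod_congr rfl fun u' _ => ?_
  simp only [E.mem_Ico_R h u.2 u'.2, Ctx.omS]

open Classical in
theorem csf_eq (n : ℕ) (h : ℕ → ℕ) :
    algebraMap (AA n) (KK n) (∑ γ ∈ (Finset.univ : Finset ({x // x ∈ V} → Finset (Fin n))).filter
      (fun γ => (∀ v : {x // x ∈ V}, (γ v).card = wt V v) ∧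
        (∀ u v : {x // x ∈ V}, (u : ℕ) < (v : ℕ) → (v : ℕ) ≤ h (u : ℕ) → Disjoint (γ u) (γ v))),
      MvPolynomial.C ((Polynomial.X : Polynomial ℤ) ^
        (∑ u : {x // x ∈ V}, ∑ v : {x // x ∈ V}, if (u : ℕ) < (v : ℕ) ∧ (v : ℕ) ≤ h (u : ℕ) then
          (((γ u) ×ˢ (γ v)).filter (fun p => p.1 < p.2)).card else 0)) *
        ∏ v : {x // x ∈ V}, ∏ a ∈ γ v, (MvPolynomial.X a : AA n)) =
      (cx n).IS E.w (E.R h) V.card fun _ => ∅ := by
  obtain ⟨A, hA, e⟩ := IS_expand (cx n) E.w (E.R h) V.card fun _ => ∅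
  rw [e, map_sum]
  set f : ({x // x ∈ V} → Finset (Fin n)) → ℕ → Finset ℕ := fun γ j =>
    if hj : j < V.card then (γ ⟨E.v j, (E.h2 j hj).1⟩).map (sh n) else ∅ with hf
  have f1 : ∀ γ (u : {x // x ∈ V}), f γ (E.idx u) = (γ u).map (sh n) := by
    intro γ u
    simp only [hf, dif_pos (E.h1 u u.2).1, (E.h1 u u.2).2.1]
  refine sum_of_injOn f (fun γ _ γ' _ he => funext fun u => map_injective (sh n) ?_)
    (fun γ hγ => (hA _).mpr ⟨fun j hj => ?_, fun j hj => dif_neg (by omega)⟩) (fun δ hδ hc => ?_)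
    (fun γ hγ => ?_)
  · show (γ u).map (sh n) = (γ' u).map (sh n)
    rw [← f1, ← f1, he]
  · simp only [hf, dif_pos hj]
    refine mem_powersetCard.mpr ⟨sh_sub n _, ?_⟩
    rw [card_map, (mem_filter.mp hγ).2.1, w, if_pos hj]
  · by_contra h0
    rw [E.term] at h0
    obtain ⟨h1, h2⟩ := mul_ne_zero_iff.mp h0
    rw [prod_ne_zero_iff] at h1 h2
    choose γ hγ using fun u : {x // x ∈ V} =>
      sh_pre n _ (prod_ne_zero_iff.mp (h2 u (mem_univ _)))
    obtain ⟨h3, h4⟩ := (hA δ).mp hδ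
    refine hc ⟨γ, mem_coe.mpr (mem_filter.mpr ⟨mem_univ _, fun u => ?_, fun u u' a b => ?_⟩),
      funext fun j => ?_⟩
    · rw [← card_map (sh n), hγ, (mem_powersetCard.mp (h3 _ (E.h1 u u.2).1)).2, E.w_idx u.2]
    · have := prod_ne_zero_iff.mp (h1 u (mem_univ _)) u' (mem_univ _)
      rw [if_pos ⟨a, b⟩, ← hγ, ← hγ, prod_ne_zero_iff] at this
      refine disjoint_left.mpr fun c h5 h6 => ?_
      have := prod_ne_zero_iff.mp (this _ (mem_map_of_mem _ h5)) _ (mem_map_of_mem _ h6)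
      simp [om] at this
    · by_cases hj : j < V.card
      · simp only [hf, dif_pos hj, hγ, (E.h2 j hj).2]
      · simp only [hf, dif_neg hj, h4 j (by omega)]
  · rw [E.term, map_mul]
    congr 1
    · rw [map_pow, map_pow, ← prod_pow_eq_pow_sum]
      refine prod_congr rfl fun u _ => ?_
      rw [← prod_pow_eq_pow_sum]
      refine prod_congr rfl fun u' _ => ?_
      split_ifs with hc
      · rw [f1, f1, prod_map, prod_congr rfl fun a _ => prod_map .., 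
          om_prod _ ((mem_filter.mp hγ).2.2 u u' hc.1 hc.2)]
        rfl
      · rw [pow_zero]
    · rw [map_prod]
      refine prod_congr rfl fun u _ => ?_
      rw [f1, prod_map, map_prod]
      exact prod_congr rfl fun a _ => (xx_sh n a).symm

open Classical in
theorem reduce (n : ℕ) (h : ℕ → ℕ) (hn : n ∈ V) (hle : ∀ u ∈ V, u ≤ n)
    (hmem : (cx n).IS E.w (E.R h) V.card (fun _ => ∅) ∈ (cx n).L) :
    ∃ c : Nat.Partition n → Polynomial ℤ, (∀ μ k, 0 ≤ (c μ).coeff k) ∧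
    (∑ γ ∈ (Finset.univ : Finset ({x // x ∈ V} → Finset (Fin n))).filter
      (fun γ => (∀ v : {x // x ∈ V}, (γ v).card = wt V v) ∧
        (∀ u v : {x // x ∈ V}, (u : ℕ) < (v : ℕ) → (v : ℕ) ≤ h (u : ℕ) → Disjoint (γ u) (γ v))),
      MvPolynomial.C ((Polynomial.X : Polynomial ℤ) ^
        (∑ u : {x // x ∈ V}, ∑ v : {x // x ∈ V}, if (u : ℕ) < (v : ℕ) ∧ (v : ℕ) ≤ h (u : ℕ) then
          (((γ u) ×ˢ (γ v)).filter (fun p => p.1 < p.2)).card else 0)) *
        ∏ v : {x // x ∈ V}, ∏ a ∈ γ v, (MvPolynomial.X a : AA n)) =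
      ∑ μ : Nat.Partition n, MvPolynomial.C (c μ) *
        (μ.parts.map (fun k => MvPolynomial.esymm (Fin n) (Polynomial ℤ) k)).prod := by
  rw [← E.csf_eq] at hmem
  obtain ⟨p, hp, e⟩ := hmem
  rw [← IsFractionRing.injective (AA n) (KK n) e]
  refine epos_of_mem n hp ?_
  rw [IsFractionRing.injective (AA n) (KK n) e]
  refine MvPolynomial.IsHomogeneous.sum _ _ _ fun γ hγ => MvPolynomial.IsHomogeneous.C_mul ?_ _
  have := MvPolynomial.IsHomogeneous.prod univ _ _ fun v _ => prodX_hom n (γ v)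
  rwa [sum_congr rfl fun v _ => (mem_filter.mp hγ).2.1 v, E.wt_sum hn hle] at this

theorem IS_mem2 (n : ℕ) (h : ℕ → ℕ) (hn : n ∈ V) (h0 : ∀ u ∈ V, 1 ≤ u)
    (h1 : ∀ i ∈ V, h i ∈ V ∧ i ≤ h i) (h2 : ∀ i ∈ V, ∀ j ∈ V, i ≤ j → h i ≤ h j)
    (h3 : ∀ u ∈ V, ∃ u' ∈ V, h u' = h u ∧ h u ≤ u' + 2) :
    (cx n).IS E.w (E.R h) V.card (fun _ => ∅) ∈ (cx n).L := by
  have a1 : ∀ i < V.card, i + 1 ≤ E.R h (i + 1) := by
    intro i hi
    have := (E.lt_iff (E.h2 i hi).1 (h (E.v i) + 1)).mpr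
      (Nat.lt_succ_of_le (h1 _ (E.h2 i hi).1).2)
    rwa [(E.h2 i hi).2] at this
  refine (cx n).IS_mem _ _ _ (E.w_pos h0) rfl a1 (fun i hi => ?_) ?_ (fun i hi hj => ?_) _
  · rcases i with _ | i
    · exact Nat.zero_le _
    · exact E.mono (Nat.succ_le_succ (h2 _ (E.h2 i (by omega)).1 _ (E.h2 _ hi).1
        (E.v_lt (by omega) hi).le))
  · obtain ⟨k, hk⟩ : ∃ k, V.card = k + 1 := ⟨V.card - 1, by have := (E.h1 n hn).1; omega⟩
    have b1 := a1 k (by omega)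
    have b2 : E.R h (k + 1) ≤ V.card := E.le _
    rw [hk] at b2 ⊢; omega
  · rcases i with _ | i
    · simp [R]
    have hu := (E.h2 i (by omega)).1
    obtain ⟨u', hu', e1, e2⟩ := h3 _ hu
    have b1 : u' ≤ E.v i := by
      by_contra hc
      have b2 : E.v i < u' := not_le.mp hc
      rw [← E.lt_iff hu, (E.h2 i (by omega)).2] at b2
      have b3 : E.v (i + 1) ≤ u' := by
        by_contra hd
        have := (E.lt_iff hu' _).mpr (not_le.mp hd)
        rw [(E.h2 _ hi).2] at this; omega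
      have b4 := E.mono (Nat.succ_le_succ (h2 _ (E.h2 _ hi).1 _ hu' b3))
      rw [e1] at b4
      exact absurd hj (not_lt.mpr b4)
    have b2 := E.h1 _ (h1 _ hu).1
    have b3 := sum_range_add_sum_Ico E.w (a1 i (by omega))
    rw [E.w_sum (by omega), R, b2.2.2, E.w_sum b2.1, b2.2.1] at b3
    rw [R, b2.2.2]
    omega

end En

end Pool.Agent.P.MP_389f6f_co
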