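import Pool.Agent.P.MP_389f6f_co.Ext

set_option autoImplicit false

namespace Pool.Agent.P.MP_389f6f_co
open Finset HahnSeries

namespace Ctx
variable {F : Type*} [Field F] (X : Ctx F)

def K1 (k t : ℤ) (w : ℕ → F) : F :=
  ∑ a ∈ range X.N, w a * (X.eps a k * es X.N (fun s => w s * om X.q s a) t)

def K2 (Φ : ℕ × ℕ → F) (t : ℤ) (w : ℕ → F) : F :=
  ∑ b ∈ range X.N, ∑ a ∈ range b, w a * w b *
    (Φ (a, b) * es X.N (fun s => w s * om X.q s a * om X.q s b) t)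

theorem K1_formula (k : ℤ) (t : ℕ) {c d : ℕ} (hc : c < d) (hd : d < X.N) :
    (X.q - 1) * X.K1 k t (X.w2 c d) = (X.q - 1) * (X.q ^ t * X.UU (t + 1) (k + t + 1) c d) +
      ∑ α ∈ range (t + 1), (X.q ^ (k + α + 1) - X.q ^ (t + α + 2)) *
        (X.e (k + α + 1) * X.yy c d (t - α)) := by
  have hq0 := X.q0
  have h := GF_K1 (K := HahnSeries GG3 F) (q := C X.q) (x := fun s => C (X.x s))
    (z := single (pt 0 1 0) 1) (z1 := single (pt 0 1 0) (X.q * 1))
    (z2 := single (pt 0 1 0) (X.q * (X.q * 1))) (u := single (pt 0 0 1) 1)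
    (u1 := single (pt 0 0 1) (X.q * 1)) hc hd (C_single _ _ _).symm (C_single _ _ _).symm
    (C_single _ _ _).symm X.Cq0 X.Cq1 (sub_ne lt32 one_ne_zero _) (sub_ne lt32 one_ne_zero _)
    (sub_ne lt32 one_ne_zero _)
  simp only [PP_x, PP_w1, PP_w2, PP_w3] at h
  simp only [C_w2] at h
  have c1 : (C X.q - 1 : HahnSeries GG3 F) = C (X.q - 1) := by rw [map_sub, map_one]
  have c2 : (C X.q * C (X.q - 1) : HahnSeries GG3 F) = C (X.q * (X.q - 1)) := by rw [map_mul]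
  have c3 : (-C X.q ^ 2 : HahnSeries GG3 F) = C (-X.q ^ 2) := by rw [map_neg, map_pow]
  rw [c1, c2, c3] at h
  have h' := congrArg (fun y => co y 0 t k) h
  have q1 : X.q * 1 ≠ 0 := by simpa using hq0
  simp only [co_add, co_C, co_sum, co_single, sub_zero, X.co2 one_ne_zero one_ne_zero,
    X.coU23' c d q1 one_ne_zero] at h'
  rw [geo23 one_ne_zero _ _ _ _ _ (t + 1) fun α hα => by
      rw [X.co2 one_ne_zero q1, es_neg _ _ (t - α) (by omega)]; ring,
    geo23 one_ne_zero _ _ _ _ _ (t + 1) fun α hα => by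
      rw [X.co2 q1 one_ne_zero, es_neg _ _ (t - α) (by omega)]; ring] at h'
  simp only [X.co2 one_ne_zero q1, X.co2 q1 one_ne_zero] at h'
  simp only [one_zpow, mul_one, one_mul, inv_one, div_one, one_pow] at h'
  have e1 : ((t : ℤ) + 1).toNat = t + 1 := by omega
  have e2 : (t : ℤ) + (k - 1) + 2 = k + t + 1 := by ring
  rw [e1, e2, mul_sum _ _ (-X.q ^ 2), add_assoc, ← sum_add_distrib] at h'
  have e3 : X.K1 k t (X.w2 c d) = ∑ a ∈ range X.N, X.w2 c d a *
      (es X.N (fun s => X.w2 c d s * om X.q s a) t * es X.N (X.w1 a) k) :=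
    sum_congr rfl fun a _ => by rw [eps]; ring
  rw [e3, h']
  congr 1
  · rw [zpow_natCast]; field_simp
  · refine sum_congr rfl fun α _ => ?_
    simp only [e, yy, zpow_sub₀ hq0, zpow_natCast]
    field_simp
    ring

theorem UU_C2s (c : F) (n : ℕ) (d : ℤ) (h : 2 * n ≤ d + 1)
    (hc : ∀ j < n, c * X.q ^ (-(j : ℤ)) ∈ X.L) : X.C2s (fun p => c * X.UU n d p.1 p.2) := by
  have h1 : ∀ j ∈ range n, X.C2s (fun p => c * X.Sh j d p.1 p.2) := fun j hj =>
    X.Sh_C2s c j d (by have := mem_range.mp hj; omega) (hc j (mem_range.mp hj))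
  refine (Sp.sum (range n) (fun j (p : ℕ × ℕ) => c * X.Sh j d p.1 p.2) h1).congr fun p _ => ?_
  rw [UU, mul_sum]

theorem pw_mem (a : ℕ) (b : ℤ) (h : 0 ≤ a + b) : X.q ^ a * X.q ^ b ∈ X.L := by
  rw [← zpow_natCast, ← zpow_add₀ X.q0]; exact X.zp h

theorem K1_pos (k : ℤ) (t : ℕ) : X.C2s (fun p => X.K1 k t (X.w2 p.1 p.2)) := by
  have hq0 := X.q0
  have hq1 := X.q1
  rcases lt_or_ge k 0 with hk | hk
  · refine Sp.zero.congr fun p _ => ?_
    simp [K1, X.eps_neg _ hk]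
  rcases lt_or_ge (t : ℤ) k with ht | ht
  · refine ((X.UU_C2s (X.q ^ t) (t + 1) (k + t + 1) (by push_cast; omega)
      fun j hj => X.pw_mem _ _ (by omega)).add (Sp.sum (range (t + 1))
      (fun α p => X.q ^ (t + α + 2) * qi X.q (k - t - 1) * X.e (k + α + 1) * X.yy p.1 p.2 (t - α))
      fun α _ => (X.yy_C2s _).smul _ (X.L.mul_mem (X.L.mul_mem (X.np _) (X.qp (by omega)))
        (X.e_mem _)))).congr fun p hp => ?_
    apply mul_left_cancel₀ hq1
    rw [X.K1_formula k t hp.1 hp.2, mul_add, mul_sum]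
    congr 1
    refine sum_congr rfl fun α _ => ?_
    simp only [qi, zpow_sub₀ hq0, zpow_add₀ hq0, zpow_natCast, zpow_one]
    field_simp
    ring
  · obtain ⟨k, rfl⟩ := Int.eq_ofNat_of_zero_le hk
    refine ((X.UU_C2s (X.q ^ t) k (k + t + 1) (by omega)
      fun j hj => X.pw_mem _ _ (by omega)).add (Sp.sum (range (k + 1))
      (fun i p => qi X.q (t + 1 - k) * X.q ^ i * X.e i * X.yy p.1 p.2 (k + t + 1 - i))
      fun α _ => (X.yy_C2s _).smul _ (X.L.mul_mem (X.L.mul_mem (X.qp (by omega)) (X.np _))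
        (X.e_mem _)))).congr fun p hp => ?_
    apply mul_left_cancel₀ hq1
    rw [X.K1_formula k t hp.1 hp.2, X.UU_reflect (t + 1), X.FF_eq _ hp.1,
      show ((k : ℤ) + t + 1 - (t + 1 : ℕ)).toNat = k by omega,
      show ((k : ℤ) + t + 1).toNat + 1 = (k + 1) + (t + 1) by omega, sum_range_add _ (k + 1) (t + 1),
      show (2 * (t + 1 : ℕ) - (k + t + 1) : ℤ) = t + 1 - k by push_cast; ring]
    have e1 : ∑ α ∈ range (t + 1), (X.q ^ ((k : ℤ) + α + 1) - X.q ^ (t + α + 2)) *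
        (X.e (k + α + 1) * X.yy p.1 p.2 (t - α)) = -((X.q - 1) * qi X.q (t + 1 - k)) *
        ∑ α ∈ range (t + 1), X.q ^ (k + 1 + α) * X.e (k + 1 + α : ℕ) *
          X.yy p.1 p.2 (k + t + 1 - (k + 1 + α : ℕ)) := by
      rw [mul_sum]
      refine sum_congr rfl fun α _ => ?_
      rw [show ((k : ℤ) + t + 1 - (k + 1 + α : ℕ)) = t - α by push_cast; ring,
        show ((k + 1 + α : ℕ) : ℤ) = k + α + 1 by push_cast; ring]
      simp only [qi, zpow_sub₀ hq0, zpow_add₀ hq0, zpow_natCast, zpow_one]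
      field_simp
      ring
    have e2 : X.q ^ t * X.q ^ (1 - ((t + 1 : ℕ) : ℤ)) = 1 := by
      rw [← zpow_natCast, ← zpow_add₀ hq0, show (t : ℤ) + (1 - ((t + 1 : ℕ) : ℤ)) = 0 by
        push_cast; ring, zpow_zero]
    have e3 : ∑ i ∈ range (k + 1), qi X.q (t + 1 - k) * X.q ^ i * X.e i *
        X.yy p.1 p.2 (k + t + 1 - i) = qi X.q (t + 1 - k) * ∑ i ∈ range (k + 1), X.q ^ i * X.e i *
        X.yy p.1 p.2 (k + t + 1 - i) := by
      rw [mul_sum]; exact sum_congr rfl fun i _ => by ring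
    rw [e1, e3]
    linear_combination (-(X.q - 1) * qi X.q (t + 1 - k) * (∑ i ∈ range (k + 1), X.q ^ i * X.e i *
        X.yy p.1 p.2 (k + t + 1 - i) + ∑ α ∈ range (t + 1), X.q ^ (k + 1 + α) *
          X.e (k + 1 + α : ℕ) * X.yy p.1 p.2 (k + t + 1 - (k + 1 + α : ℕ)))) * e2

end Ctx

end Pool.Agent.P.MP_389f6f_co
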