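import Pool.Agent.P.MP_389f6f_co.KY

set_option autoImplicit false

namespace Pool.Agent.P.MP_389f6f_co
open Finset HahnSeries

namespace Ctx
variable {F : Type*} [Field F] (X : Ctx F)

theorem UU_neg (n : ℕ) (d : ℤ) (hd : d < 0) (m M : ℕ) : X.UU n d m M = 0 := by
  refine sum_eq_zero fun j _ => sum_eq_zero fun i _ => ?_
  rw [X.eps_neg M (k := d - i) (by omega), X.eps_neg m (k := d - i) (by omega)]; ring

theorem termA (c d j l t : ℕ) {r1 r2 s : F} (h1 : r1 ≠ 0) (h2 : r2 ≠ 0) (hs : s ≠ 0) (r : F) :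
    co (single (pt 0 0 1) 1 * (SgF (X.A1 X.x r1 * X.A2 (X.w1 c) r2 * X.A3 (X.w1 d) 1)
      (X.A1 X.x r1 * X.A2 (X.w1 d) r2 * X.A3 (X.w1 c) 1) (single (pt 0 1 0) r2)
      (single (pt 0 0 1) 1) (single (pt 0 1 0) (X.q * r2)) (single (pt 0 0 1) (X.q * 1)) /
      (single (pt 0 0 1) 1 - single (pt 0 1 0) r2)) /
      (single (pt 0 1 0) r2 - single (pt 1 0 0) 1) /
      (single (pt 0 0 1) s - single (pt 1 0 0) r)) j t (l - 1) =
    ∑ n ∈ range (j + 1), ∑ α ∈ range (n + 1), s⁻¹ * (r / s) ^ α * r2 ^ t * r1 ^ (j - n) * X.q⁻¹ *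
      (X.e (j - n) * X.UU (t + 2 + n - α) (l + t + 2 + n) c d) := by
  have inner : ∀ α : ℕ, co (single (pt 0 0 1) 1 *
      (SgF (X.A1 X.x r1 * X.A2 (X.w1 c) r2 * X.A3 (X.w1 d) 1)
      (X.A1 X.x r1 * X.A2 (X.w1 d) r2 * X.A3 (X.w1 c) 1) (single (pt 0 1 0) r2)
      (single (pt 0 0 1) 1) (single (pt 0 1 0) (X.q * r2)) (single (pt 0 0 1) (X.q * 1)) /
      (single (pt 0 0 1) 1 - single (pt 0 1 0) r2)) /
      (single (pt 0 1 0) r2 - single (pt 1 0 0) 1)) (j - α) t (l - 1 + α + 1) =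
      ∑ β ∈ range (j + 1 - α), r2 ^ t * r1 ^ (j - (α + β)) * X.q⁻¹ *
        (X.e (j - (α + β : ℕ)) * X.UU (t + 2 + β) (l + t + 2 + (α + β : ℕ)) c d) := by
    intro α
    rw [geo12 h2 _ _ _ _ _ (j + 1 - α) fun β hβ => by
      simp only [co_single, sub_zero, X.coU23 c d h1 h2 one_ne_zero]
      rw [X.e_neg (by omega)]; ring]
    refine sum_congr rfl fun β hβ => ?_
    have := mem_range.mp hβ
    simp only [co_single, sub_zero, X.coU23 c d h1 h2 one_ne_zero]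
    rw [show ((t : ℤ) + β + 1 + 1).toNat = t + 2 + β by omega,
      show (t : ℤ) + β + 1 + (l - 1 + α + 1 - 1) + 2 = l + t + 2 + (α + β : ℕ) by push_cast; ring,
      show (j : ℤ) - α - β = (j - (α + β) : ℕ) by omega, zpow_natCast,
      show ((j - (α + β) : ℕ) : ℤ) = j - (α + β : ℕ) by omega]
    simp only [zpow_add₀ h2, zpow_natCast, zpow_one, one_zpow, div_pow, one_pow]
    field_simp
  rw [geo13 hs _ _ _ _ _ (j + 1) fun α hα => by rw [inner, show j + 1 - α = 0 by omega]; simp]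
  simp only [inner, mul_sum]
  rw [← sum_range_diag_flip (j + 1) (fun α β => s⁻¹ * (r / s) ^ α * (r2 ^ t * r1 ^ (j - (α + β)) *
    X.q⁻¹ * (X.e (j - (α + β : ℕ)) * X.UU (t + 2 + β) (l + t + 2 + (α + β : ℕ)) c d)))]
  refine sum_congr rfl fun n _ => sum_congr rfl fun α hα => ?_
  have := mem_range.mp hα
  rw [show α + (n - α) = n by omega, show t + 2 + (n - α) = t + 2 + n - α by omega]; ring

theorem termB (c d j l t : ℕ) {r2 r3 s : F} (h2 : r2 ≠ 0) (h3 : r3 ≠ 0) (hs : s ≠ 0) (r : F) :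
    co (single (pt 1 0 0) 1 * (SgF (X.A1 (X.w1 c) 1 * X.A2 (X.w1 d) r2 * X.A3 X.x r3)
      (X.A1 (X.w1 d) 1 * X.A2 (X.w1 c) r2 * X.A3 X.x r3) (single (pt 1 0 0) 1)
      (single (pt 0 1 0) r2) (single (pt 1 0 0) (X.q * 1)) (single (pt 0 1 0) (X.q * r2)) /
      (single (pt 0 1 0) r2 - single (pt 1 0 0) 1)) /
      (single (pt 0 0 1) 1 - single (pt 0 1 0) r2) /
      (single (pt 0 0 1) s - single (pt 1 0 0) r)) j t (l - 1) =
    ∑ n ∈ range (j + t + 2), ∑ α ∈ range (n + 1), s⁻¹ * (r / s) ^ α * r2 ^ t * r3 ^ (l + 1 + n) *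
      X.q⁻¹ * (X.e (l + 1 + n) * X.UU (j - α) (j + t + 1 - n) c d) := by
  have inner : ∀ α : ℕ, co (single (pt 1 0 0) 1 *
      (SgF (X.A1 (X.w1 c) 1 * X.A2 (X.w1 d) r2 * X.A3 X.x r3)
      (X.A1 (X.w1 d) 1 * X.A2 (X.w1 c) r2 * X.A3 X.x r3) (single (pt 1 0 0) 1)
      (single (pt 0 1 0) r2) (single (pt 1 0 0) (X.q * 1)) (single (pt 0 1 0) (X.q * r2)) /
      (single (pt 0 1 0) r2 - single (pt 1 0 0) 1)) /
      (single (pt 0 0 1) 1 - single (pt 0 1 0) r2)) (j - α) t (l - 1 + α + 1) =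
      ∑ β ∈ range (j + t + 2 - α), r2 ^ t * r3 ^ (l + 1 + (α + β)) * X.q⁻¹ *
        (X.e (l + 1 + (α + β : ℕ)) * X.UU (j - α) (j + t + 1 - (α + β : ℕ)) c d) := by
    intro α
    rw [geo23 one_ne_zero _ _ _ _ _ (j + t + 2 - α) fun β hβ => by
      simp only [co_single, sub_zero, X.coU12 c d one_ne_zero h2 h3]
      rw [X.UU_neg _ _ (by omega)]; ring]
    refine sum_congr rfl fun β hβ => ?_
    simp only [co_single, sub_zero, X.coU12 c d one_ne_zero h2 h3]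
    rw [show ((j : ℤ) - α - 1 + 1).toNat = j - α by omega,
      show (j : ℤ) - α - 1 + (t - β) + 2 = j + t + 1 - (α + β : ℕ) by push_cast; ring,
      show (l : ℤ) - 1 + α + 1 + β + 1 = (l + 1 + (α + β) : ℕ) by push_cast; ring, zpow_natCast,
      show ((l + 1 + (α + β) : ℕ) : ℤ) = l + 1 + (α + β : ℕ) by push_cast; ring]
    simp only [zpow_sub₀ h2, zpow_natCast, one_zpow, div_one, inv_one]
    field_simp
  rw [geo13 hs _ _ _ _ _ (j + t + 2) fun α hα => by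
    rw [inner, show j + t + 2 - α = 0 by omega]; simp]
  simp only [inner, mul_sum]
  rw [← sum_range_diag_flip (j + t + 2) (fun α β => s⁻¹ * (r / s) ^ α * (r2 ^ t *
    r3 ^ (l + 1 + (α + β)) * X.q⁻¹ *
    (X.e (l + 1 + (α + β : ℕ)) * X.UU (j - α) (j + t + 1 - (α + β : ℕ)) c d)))]
  refine sum_congr rfl fun n _ => sum_congr rfl fun α hα => ?_
  have := mem_range.mp hα
  rw [show α + (n - α) = n by omega]; ring

noncomputable def g3 (j t : ℕ) (i y : ℕ) : F :=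
  if i + y ≤ t + 1 + j then X.q ^ (i + t + 1 + y) * qi X.q (j - y) * qi X.q (t + 2 + j - y - i)
  else 0

theorem termC (c d j l t : ℕ) :
    X.q ^ (j + 2) * co (single (pt 1 0 0) 1 * (single (pt 0 0 1) 1 *
      SgF (X.A1 (X.w1 c) 1 * X.A2 X.x (X.q * (X.q * 1)) * X.A3 (X.w1 d) 1)
      (X.A1 (X.w1 d) 1 * X.A2 X.x (X.q * (X.q * 1)) * X.A3 (X.w1 c) 1) (single (pt 1 0 0) 1)
      (single (pt 0 0 1) 1) (single (pt 1 0 0) (X.q * 1)) (single (pt 0 0 1) (X.q * 1))) /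
      (single (pt 0 1 0) (X.q * 1) - single (pt 1 0 0) 1) /
      (single (pt 0 1 0) (X.q * (X.q * 1)) - single (pt 1 0 0) 1) /
      (single (pt 0 0 1) 1 - single (pt 0 1 0) (X.q * 1)) /
      (single (pt 0 0 1) 1 - single (pt 0 1 0) (X.q * (X.q * 1)))) j t (l - 1) =
    ∑ y ∈ range j, ∑ i ∈ range (l + 1 + (j + t + 2)), X.g3 j t i y *
      (X.e i * X.Sh y (j + l + t + 2 - i) c d) := by
  have hq0 := X.q0
  have q1 : X.q * 1 ≠ 0 := by simpa using hq0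
  have q2 : X.q * (X.q * 1) ≠ 0 := by simpa using hq0
  have inner : ∀ γ : ℕ, co (single (pt 1 0 0) 1 * (single (pt 0 0 1) 1 *
      SgF (X.A1 (X.w1 c) 1 * X.A2 X.x (X.q * (X.q * 1)) * X.A3 (X.w1 d) 1)
      (X.A1 (X.w1 d) 1 * X.A2 X.x (X.q * (X.q * 1)) * X.A3 (X.w1 c) 1) (single (pt 1 0 0) 1)
      (single (pt 0 0 1) 1) (single (pt 1 0 0) (X.q * 1)) (single (pt 0 0 1) (X.q * 1))) /
      (single (pt 0 1 0) (X.q * 1) - single (pt 1 0 0) 1) /
      (single (pt 0 1 0) (X.q * (X.q * 1)) - single (pt 1 0 0) 1)) j (t - γ) (l - 1 + γ + 2) =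
      ∑ y ∈ range j, X.q ^ (2 * ((t : ℤ) - γ)) * qi X.q (j - y) *
        (X.e (t + 1 + j - y - γ) * X.Sh y (y + l + γ + 1) c d) := by
    intro γ
    rw [geo12_2 q1 q2 _ _ _ _ _ _ j fun β hβ => by
      simp only [co_single, sub_zero]
      rw [X.coS13_neg c d one_ne_zero q2 one_ne_zero _ _ _ _ (by omega)]; ring,
      ← sum_range_reflect]
    refine sum_congr rfl fun y hy => ?_
    obtain ⟨β, rfl⟩ : ∃ β, j = y + β + 1 := ⟨j - y - 1, by have := mem_range.mp hy; omega⟩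
    simp only [co_single, sub_zero]
    rw [show y + β + 1 - 1 - y = β by omega,
      show ((y + β + 1 : ℕ) : ℤ) - β - 1 = y by push_cast; ring,
      X.coS13 c d one_ne_zero q2 one_ne_zero, X.hh_q' (by field_simp),
      show (y : ℤ) + (l - 1 + γ + 2 - 1) + 1 = y + l + γ + 1 by ring,
      show (t : ℤ) + 1 + (y + β + 1 : ℕ) - y - γ = t - γ + β + 2 by push_cast; ring,
      show ((y + β + 1 : ℕ) : ℤ) - y = β + 1 by push_cast; ring, e]
    simp only [mul_zpow, zpow_add₀ hq0, zpow_natCast, one_zpow, div_pow, one_pow, mul_one, two_mul,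
      zpow_ofNat, mul_pow]
    field_simp
  rw [geo23_2 one_ne_zero one_ne_zero _ _ _ _ _ _ (j + t + 2) fun γ hγ => by
    rw [inner]; exact sum_eq_zero fun y _ => by rw [X.e_neg (by omega)]; ring]
  simp only [inner, mul_sum]
  rw [sum_comm]
  refine sum_congr rfl fun y hy => ?_
  obtain ⟨β, rfl⟩ : ∃ β, j = y + β + 1 := ⟨j - y - 1, by have := mem_range.mp hy; omega⟩
  rw [← sum_subset (range_subset_range.mpr (show t + β + 3 ≤ y + β + 1 + t + 2 by omega))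
      fun γ _ hγ => by rw [X.e_neg (by simp at hγ; omega)]; ring,
    ← sum_subset (range_subset_range.mpr (show t + β + 3 ≤ l + 1 + (y + β + 1 + t + 2) by omega))
      fun i _ hi => by rw [g3, if_neg (by simp at hi; omega), zero_mul], ← sum_range_reflect]
  refine sum_congr rfl fun i hi => ?_
  obtain ⟨γ, hγ⟩ : ∃ γ, t + β + 2 = i + γ := ⟨t + β + 2 - i, by have := mem_range.mp hi; omega⟩
  rw [show t + β + 3 - 1 - i = γ by omega, g3, if_pos (by omega), X.hh_q (by ring),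
    show (t : ℤ) + 1 + (y + β + 1 : ℕ) - y - γ = i by omega,
    show (t : ℤ) + 2 + (y + β + 1 : ℕ) - y - i = γ + 1 by omega,
    show ((y + β + 1 : ℕ) : ℤ) + l + t + 2 - i = y + l + γ + 1 by omega]
  have e1 : X.q ^ (i + t + 1 + y) = X.q ^ (y + β + 1 + 2) * X.q ^ γ * X.q ^ (2 * ((t : ℤ) - γ)) := by
    rw [← zpow_natCast, ← zpow_natCast, ← zpow_natCast, ← zpow_add₀ hq0, ← zpow_add₀ hq0]
    congr 1; omega
  rw [e1]
  simp only [mul_one, div_one, inv_one]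
  ring

theorem termD (c d j l t : ℕ) {r1 r2 r3 s1 s : F} (h1 : r1 ≠ 0) (h2 : r2 ≠ 0) (h3 : r3 ≠ 0)
    (hs1 : s1 ≠ 0) (hs : s ≠ 0) (r r' : F) :
    co (X.A1 X.x r1 * X.A2 (X.w2 c d) r2 * X.A3 X.x r3 /
      (single (pt 0 1 0) s1 - single (pt 1 0 0) 1) /
      (single (pt 0 0 1) 1 - single (pt 0 1 0) r') /
      (single (pt 0 0 1) s - single (pt 1 0 0) r)) j t (l - 1) =
    ∑ na ∈ range (j + 1), ∑ nb ∈ range (j + t + 2), ∑ α ∈ range (min na nb + 1),
      s⁻¹ * (r / s) ^ α * r' ^ (nb - α) * (s1⁻¹ ^ (na - α + 1)) * r1 ^ (j - na) *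
        r2 ^ ((t : ℤ) + 1 + na - nb) * r3 ^ (l + 1 + nb) *
        (X.e (j - na) * X.e (l + 1 + nb) * X.yy c d (t + 1 + na - nb)) := by
  set φ : ℕ → ℕ → ℕ → F := fun α β γ => r' ^ γ * (s1⁻¹ ^ (β + 1)) * r1 ^ (j - (α + β)) *
        r2 ^ ((t : ℤ) + 1 + β - γ) * r3 ^ (l + 1 + (α + γ)) *
        (X.e (j - (α + β : ℕ)) * X.e (l + 1 + (α + γ : ℕ)) * X.yy c d (t + 1 + β - γ)) with hφ
  have in1 : ∀ α γ : ℕ, r' ^ γ * co (X.A1 X.x r1 * X.A2 (X.w2 c d) r2 * X.A3 X.x r3 /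
      (single (pt 0 1 0) s1 - single (pt 1 0 0) 1)) (j - α) (t - γ) (l - 1 + α + 1 + γ + 1) =
      ∑ β ∈ range (j + 1 - α), φ α β γ := by
    intro α γ
    rw [geo12 hs1 _ _ _ _ _ (j + 1 - α) fun β hβ => by
      rw [X.co3 h1 h2 h3, es_neg _ _ (j - α - β) (by omega)]; ring, mul_sum]
    refine sum_congr rfl fun β hβ => ?_
    have := mem_range.mp hβ
    rw [X.co3 h1 h2 h3, show (j : ℤ) - α - β = (j - (α + β) : ℕ) by omega, zpow_natCast,
      show ((j - (α + β) : ℕ) : ℤ) = j - (α + β : ℕ) by omega,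
      show (l : ℤ) - 1 + α + 1 + γ + 1 = (l + 1 + (α + γ) : ℕ) by push_cast; ring, zpow_natCast,
      show ((l + 1 + (α + γ) : ℕ) : ℤ) = l + 1 + (α + γ : ℕ) by push_cast; ring,
      show (t : ℤ) - γ + β + 1 = t + 1 + β - γ by ring]
    simp only [hφ, e, yy, one_div]
    ring
  have in2 : ∀ α : ℕ, co (X.A1 X.x r1 * X.A2 (X.w2 c d) r2 * X.A3 X.x r3 /
      (single (pt 0 1 0) s1 - single (pt 1 0 0) 1) /
      (single (pt 0 0 1) 1 - single (pt 0 1 0) r')) (j - α) t (l - 1 + α + 1) =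
      ∑ β ∈ range (j + 1 - α), ∑ γ ∈ range (j + t + 2 - α), φ α β γ := by
    intro α
    rw [geo23 one_ne_zero _ _ _ _ _ (j + t + 2 - α) fun γ hγ => by
      rw [geo12 hs1 _ _ _ _ _ (j + 1 - α) fun β hβ => by
        rw [X.co3 h1 h2 h3, es_neg _ _ (j - α - β) (by omega)]; ring]
      refine sum_eq_zero fun β hβ => ?_
      have := mem_range.mp hβ
      rw [X.co3 h1 h2 h3, es_neg _ _ (t - γ + β + 1) (by omega)]; ring, sum_comm]
    refine sum_congr rfl fun γ _ => ?_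
    rw [← in1, inv_one, one_mul, div_one]
  rw [geo13 hs _ _ _ _ _ (j + 1) fun α hα => by rw [in2, show j + 1 - α = 0 by omega]; simp]
  simp only [in2, mul_sum]
  rw [← sum_range_diag_flip (j + 1) (fun α β => ∑ γ ∈ range (j + t + 2 - α),
    s⁻¹ * (r / s) ^ α * φ α β γ)]
  refine sum_congr rfl fun na hna => ?_
  have hna' := mem_range.mp hna
  have e1 : ∀ α ∈ range (na + 1), ∑ γ ∈ range (j + t + 2 - α),
      s⁻¹ * (r / s) ^ α * φ α (na - α) γ = ∑ nb ∈ range (j + t + 2),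
        if α ≤ nb then s⁻¹ * (r / s) ^ α * φ α (na - α) (nb - α) else 0 := by
    intro α hα
    have := mem_range.mp hα
    rw [← sum_filter, show (range (j + t + 2)).filter (fun nb => α ≤ nb) = Ico α (j + t + 2) by
      ext; simp [and_comm], sum_Ico_eq_sum_range]
    exact sum_congr rfl fun γ _ => by rw [show α + γ - α = γ by omega]
  rw [sum_congr rfl e1, sum_comm]
  refine sum_congr rfl fun nb _ => ?_
  rw [← sum_filter, show (range (na + 1)).filter (fun α => α ≤ nb) = range (min na nb + 1) by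
      ext; simp]
  refine sum_congr rfl fun α hα => ?_
  have := mem_range.mp hα
  simp only [hφ]
  rw [show α + (na - α) = na by omega, show α + (nb - α) = nb by omega,
    show (t : ℤ) + 1 + (na - α : ℕ) - (nb - α : ℕ) = t + 1 + na - nb by omega]
  ring

end Ctx

end Pool.Agent.P.MP_389f6f_co
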