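import Pool.Agent.P.MP_389f6f_co.KS1

set_option autoImplicit false

namespace Pool.Agent.P.MP_389f6f_co
open Finset HahnSeries

namespace Ctx
variable {F : Type*} [Field F] (X : Ctx F)

noncomputable def psi (A B C : ℤ) : F := qi X.q (A - C) * qi X.q (C - B)

theorem Rsum (A B : ℤ) (n : ℕ) :
    ∑ α ∈ range (n + 1), ((X.q + 1) * (X.q ^ A + X.q ^ B) -
      (X.q ^ (α : ℤ) + X.q ^ (-(α : ℤ) - 1)) * (1 + X.q ^ (A + B + 2))) =
    (X.q - 1) ^ 2 * (X.q + 1) * X.q ^ B * ∑ k ∈ range (n + 1), X.psi A B (2 * k - n - 1) := by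
  have hq0 := X.q0
  have hq1 := X.q1
  have s1 : ∀ m : ℕ, (X.q - 1) * ∑ α ∈ range m, (X.q ^ (α : ℤ) + X.q ^ (-(α : ℤ) - 1)) =
      X.q ^ (m : ℤ) - X.q ^ (-(m : ℤ)) := by
    intro m
    induction m with
    | zero => simp
    | succ m ih =>
      rw [sum_range_succ, mul_add, ih]
      push_cast
      simp only [neg_add, zpow_sub₀ hq0, zpow_add₀ hq0, zpow_natCast, zpow_one, zpow_neg]
      field_simp
      ring
  have s2 : ∀ m : ℕ, (X.q - 1) * (X.q + 1) * ∑ k ∈ range m, X.q ^ (2 * (k : ℤ)) =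
      X.q ^ (2 * (m : ℤ)) - 1 := by
    intro m
    induction m with
    | zero => simp
    | succ m ih =>
      rw [sum_range_succ, mul_add, ih]
      push_cast
      simp only [two_mul, zpow_add₀ hq0, zpow_natCast, zpow_one]
      ring
  have s3 : ∑ k ∈ range (n + 1), X.q ^ (-(2 * (k : ℤ))) =
      X.q ^ (-(2 * (n : ℤ))) * ∑ k ∈ range (n + 1), X.q ^ (2 * (k : ℤ)) := by
    rw [mul_sum, ← sum_range_reflect]
    refine sum_congr rfl fun k hk => ?_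
    have := mem_range.mp hk
    rw [← zpow_add₀ hq0]; congr 1; omega
  have s4 : (X.q - 1) ^ 2 * X.q ^ B * ∑ k ∈ range (n + 1), X.psi A B (2 * k - n - 1) =
      (n + 1) * (X.q ^ A + X.q ^ B) -
      X.q ^ (-(n : ℤ) - 1) * ∑ k ∈ range (n + 1), X.q ^ (2 * (k : ℤ)) -
      X.q ^ (A + B + n + 1) * ∑ k ∈ range (n + 1), X.q ^ (-(2 * (k : ℤ))) := by
    have : ((n : F) + 1) * (X.q ^ A + X.q ^ B) = ∑ k ∈ range (n + 1), (X.q ^ A + X.q ^ B) := by
      rw [sum_const, card_range, nsmul_eq_mul]; push_cast; rfl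
    rw [this, mul_sum, mul_sum, mul_sum, ← sum_sub_distrib, ← sum_sub_distrib]
    refine sum_congr rfl fun k _ => ?_
    have := zpow_ne_zero B hq0
    simp only [psi, qi, two_mul, neg_add, zpow_sub₀ hq0, zpow_add₀ hq0, zpow_natCast, zpow_one,
      zpow_neg]
    field_simp
    ring
  rw [sum_sub_distrib, sum_const, ← sum_mul, card_range, nsmul_eq_mul]
  apply mul_left_cancel₀ hq1
  have t1 := s1 (n + 1)
  have t2 := s2 (n + 1)
  rw [s3] at s4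
  push_cast at t1 t2 ⊢
  generalize (∑ k ∈ range (n + 1), X.q ^ (2 * (k : ℤ))) = S at *
  generalize (∑ α ∈ range (n + 1), (X.q ^ (α : ℤ) + X.q ^ (-(α : ℤ) - 1))) = T at *
  generalize (∑ k ∈ range (n + 1), X.psi A B (2 * k - n - 1)) = P at *
  have u1 : X.q ^ (-(n : ℤ) - 1) * (X.q ^ (2 * ((n : ℤ) + 1)) - 1) =
      X.q ^ ((n : ℤ) + 1) - X.q ^ (-((n : ℤ) + 1)) := by
    simp only [two_mul, neg_add, zpow_sub₀ hq0, zpow_add₀ hq0, zpow_natCast, zpow_one, zpow_neg]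
    field_simp
  have u2 : X.q ^ (A + B + n + 1) * X.q ^ (-(2 * (n : ℤ))) =
      X.q ^ (A + B + 2) * X.q ^ (-(n : ℤ) - 1) := by
    rw [← zpow_add₀ hq0, ← zpow_add₀ hq0]; congr 1; ring
  linear_combination (-(1 + X.q ^ (A + B + 2))) * t1 - (X.q - 1) * (X.q + 1) * s4 +
    (X.q - 1) * (X.q + 1) * S * u2 + (1 + X.q ^ (A + B + 2)) * X.q ^ (-(n : ℤ) - 1) * t2 +
    (1 + X.q ^ (A + B + 2)) * u1

noncomputable def c2 (j t n α : ℕ) : F :=
  X.q ^ (2 * (j : ℤ) - n + 1 + t + α) * qi X.q (t + 1 - j + n - 2 * α)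
noncomputable def c1 (j l t n α : ℕ) : F :=
  X.q ^ ((j : ℤ) + 2 * t + 3 + α) * qi X.q (l + n - t - 2 - 2 * α)
noncomputable def RR (j l t na nb : ℕ) : F :=
  X.q ^ (2 * (j : ℤ) + 3 + nb - na + t) *
    ∑ k ∈ range (min na nb + 1), X.psi (t - j) (t + 1 - l) (2 * k - (min na nb : ℕ) - 1)

theorem KS_formula (j l t : ℕ) {c d : ℕ} (hc : c < d) (hd : d < X.N) :
    X.K2 (fun p => X.SS j (j + l) p.1 p.2) t (X.w2 c d) =
      ∑ n ∈ range (j + 1), ∑ α ∈ range (n + 1), X.c2 j t n α *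
        (X.e (j - n) * X.UU (t + 2 + n - α) (l + t + 2 + n) c d) +
      ∑ n ∈ range (j + t + 2), ∑ α ∈ range (n + 1), X.c1 j l t n α *
        (X.e (l + 1 + n) * X.UU (j - α) (j + t + 1 - n) c d) +
      ∑ y ∈ range j, ∑ i ∈ range (l + 1 + (j + t + 2)), X.g3 j t i y *
        (X.e i * X.Sh y (j + l + t + 2 - i) c d) +
      ∑ na ∈ range (j + 1), ∑ nb ∈ range (j + t + 2), X.RR j l t na nb *
        (X.e (j - na) * X.e (l + 1 + nb) * X.yy c d (t + 1 + na - nb)) := by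
  have hq0 := X.q0
  have hq1 := X.q1
  have hq2 := X.q2
  have q1 : X.q * 1 ≠ 0 := by simpa using hq0
  have q2 : X.q * (X.q * 1) ≠ 0 := by simpa using hq0
  have q3 : X.q * (X.q * (X.q * 1)) ≠ 0 := by simpa using hq0
  have h := GF_KS (K := HahnSeries GG3 F) (q := C X.q) (x := fun s => C (X.x s))
    (z := single (pt 0 1 0) 1) (z1 := single (pt 0 1 0) (X.q * 1))
    (z2 := single (pt 0 1 0) (X.q * (X.q * 1))) (z3 := single (pt 0 1 0) (X.q * (X.q * (X.q * 1))))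
    (u := single (pt 1 0 0) 1) (u1 := single (pt 1 0 0) (X.q * 1))
    (v := single (pt 0 0 1) 1) (v1 := single (pt 0 0 1) (X.q * 1))
    hc hd (C_single _ _ _).symm (C_single _ _ _).symm
    (C_single _ _ _).symm (C_single _ _ _).symm (C_single _ _ _).symm X.Cq0 X.Cq1
    (sub_ne' lt21 one_ne_zero _) (sub_ne' lt21 q1 _) (sub_ne' lt21 q2 _) (sub_ne' lt21 q3 _)
    (sub_ne lt32 one_ne_zero _) (sub_ne lt32 one_ne_zero _) (sub_ne lt32 one_ne_zero _)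
    (sub_ne lt32 one_ne_zero _) (sub_ne lt31 one_ne_zero _) (sub_ne lt31 q1 _)
  simp only [PP_x, PP_w1, PP_w2, PP_w4] at h
  simp only [C_w2, ← map_mul C (X.w2 c d _)] at h
  have k1 : ((C X.q - 1) ^ 2 * (C X.q + 1) : HahnSeries GG3 F) = C ((X.q - 1) ^ 2 * (X.q + 1)) := by
    simp only [map_mul, map_pow, map_sub, map_add, map_one]
  have k2 : (C X.q * (C X.q - 1) * (C X.q + 1) : HahnSeries GG3 F) =
      C (X.q * (X.q - 1) * (X.q + 1)) := by
    simp only [map_mul, map_sub, map_add, map_one]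
  have k3 : (C X.q ^ 3 * (C X.q - 1) * (C X.q + 1) : HahnSeries GG3 F) =
      C (X.q ^ 3 * (X.q - 1) * (X.q + 1)) := by
    simp only [map_mul, map_pow, map_sub, map_add, map_one]
  have k4 : (C X.q * (C X.q - 1) ^ 2 * (C X.q + 1) : HahnSeries GG3 F) =
      C (X.q * (X.q - 1) ^ 2 * (X.q + 1)) := by
    simp only [map_mul, map_pow, map_sub, map_add, map_one]
  have k5 : (C X.q ^ 5 : HahnSeries GG3 F) = C (X.q ^ 5) := by rw [map_pow]
  have k6 : (C X.q ^ 2 * (C X.q + 1) : HahnSeries GG3 F) = C (X.q ^ 2 * (X.q + 1)) := by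
    simp only [map_mul, map_pow, map_add, map_one]
  rw [k1, k2, k3, k4, k5, k6, ← map_neg, ← map_neg] at h
  have h' := congrArg (fun y => co y j t (l - 1)) h
  simp only [co_add, co_sub, co_C, co_sum, X.coS13 _ _ one_ne_zero one_ne_zero one_ne_zero,
    X.termA c d j l t q1 q1 one_ne_zero, X.termA c d j l t one_ne_zero q2 q1,
    X.termB c d j l t q1 q1 q1, X.termB c d j l t q2 one_ne_zero one_ne_zero,
    X.termD c d j l t q1 one_ne_zero q1 one_ne_zero one_ne_zero,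
    X.termD c d j l t q1 one_ne_zero q1 one_ne_zero q1,
    X.termD c d j l t one_ne_zero q2 one_ne_zero q3 one_ne_zero,
    X.termD c d j l t one_ne_zero q2 one_ne_zero q3 q1,
    X.termD c d j l t one_ne_zero q1 q1 q2 q1,
    X.termD c d j l t q1 q1 one_ne_zero q1 one_ne_zero] at h'
  have hC := X.termC c d j l t
  clear h
  generalize co (F := F) _ j t (l - 1) = T5 at h' hC
  have hK : X.K2 (fun p => X.SS j (j + l) p.1 p.2) t (X.w2 c d) = X.q ^ (j + 1) *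
      ∑ b ∈ range X.N, ∑ a ∈ range b, X.w2 c d a * X.w2 c d b *
        (1 ^ (t : ℤ) * es X.N (fun s => X.w2 c d s * om X.q s a * om X.q s b) t *
          (1 ^ (j : ℤ) * 1 ^ ((l : ℤ) - 1)) * X.q⁻¹ * X.Sh j (j + (l - 1) + 1) a b) := by
    rw [K2, mul_sum]
    refine sum_congr rfl fun b _ => ?_
    rw [mul_sum]
    refine sum_congr rfl fun a _ => ?_
    rw [SS_eq, show (j : ℤ) + (l - 1) + 1 = j + l by ring]
    simp only [one_zpow]
    field_simp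
    ring
  have hA : X.q ^ (j + 1) * (-(X.q * (X.q - 1) * (X.q + 1)) *
      ∑ n ∈ range (j + 1), ∑ α ∈ range (n + 1), 1⁻¹ * (X.q * 1 / 1) ^ α * (X.q * 1) ^ t *
        (X.q * 1) ^ (j - n) * X.q⁻¹ * (X.e (j - n) * X.UU (t + 2 + n - α) (l + t + 2 + n) c d) +
      X.q ^ 3 * (X.q - 1) * (X.q + 1) *
      ∑ n ∈ range (j + 1), ∑ α ∈ range (n + 1), (X.q * 1)⁻¹ * (1 / (X.q * 1)) ^ α *
        (X.q * (X.q * 1)) ^ t * 1 ^ (j - n) * X.q⁻¹ *
        (X.e (j - n) * X.UU (t + 2 + n - α) (l + t + 2 + n) c d)) =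
      (X.q - 1) ^ 2 * (X.q + 1) * ∑ n ∈ range (j + 1), ∑ α ∈ range (n + 1), X.c2 j t n α *
        (X.e (j - n) * X.UU (t + 2 + n - α) (l + t + 2 + n) c d) := by
    simp only [mul_sum, ← sum_add_distrib]
    refine sum_congr rfl fun n hn => sum_congr rfl fun α _ => ?_
    obtain ⟨i, rfl⟩ : ∃ i, j = n + i := ⟨j - n, by have := mem_range.mp hn; omega⟩
    rw [show n + i - n = i by omega]
    generalize X.e _ * X.UU _ _ c d = W
    push_cast
    simp only [c2, qi, two_mul, zpow_sub₀ hq0, zpow_add₀ hq0, zpow_natCast, zpow_one, div_pow,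
      one_pow, mul_one, mul_pow, Nat.cast_add]
    field_simp
    ring
  have hB : X.q ^ (j + 1) * (X.q * (X.q - 1) * (X.q + 1) *
      ∑ n ∈ range (j + t + 2), ∑ α ∈ range (n + 1), (X.q * 1)⁻¹ * (1 / (X.q * 1)) ^ α *
        (X.q * 1) ^ t * (X.q * 1) ^ (l + 1 + n) * X.q⁻¹ *
        (X.e (l + 1 + n) * X.UU (j - α) (j + t + 1 - n) c d) +
      -(X.q ^ 3 * (X.q - 1) * (X.q + 1)) *
      ∑ n ∈ range (j + t + 2), ∑ α ∈ range (n + 1), 1⁻¹ * (X.q * 1 / 1) ^ α *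
        (X.q * (X.q * 1)) ^ t * 1 ^ (l + 1 + n) * X.q⁻¹ *
        (X.e (l + 1 + n) * X.UU (j - α) (j + t + 1 - n) c d)) =
      (X.q - 1) ^ 2 * (X.q + 1) * ∑ n ∈ range (j + t + 2), ∑ α ∈ range (n + 1), X.c1 j l t n α *
        (X.e (l + 1 + n) * X.UU (j - α) (j + t + 1 - n) c d) := by
    simp only [mul_sum, ← sum_add_distrib]
    refine sum_congr rfl fun n hn => sum_congr rfl fun α _ => ?_
    generalize X.e _ * X.UU _ _ c d = W
    simp only [c1, qi, two_mul, zpow_sub₀ hq0, zpow_add₀ hq0, zpow_natCast, zpow_one, div_pow,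
      one_pow, mul_one, mul_pow, zpow_ofNat]
    field_simp
    ring
  have hD : ∀ na ∈ range (j + 1), ∀ nb : ℕ, ∀ α ∈ range (min na nb + 1), ∀ W : F, X.q ^ (j + 1) *
      (-(1⁻¹ * (X.q * 1 / 1) ^ α * 1 ^ (nb - α) * (1⁻¹ ^ (na - α + 1)) * (X.q * 1) ^ (j - na) *
        1 ^ ((t : ℤ) + 1 + na - nb) * (X.q * 1) ^ (l + 1 + nb) * W) -
      (X.q * 1)⁻¹ * (1 / (X.q * 1)) ^ α * 1 ^ (nb - α) * (1⁻¹ ^ (na - α + 1)) *
        (X.q * 1) ^ (j - na) * 1 ^ ((t : ℤ) + 1 + na - nb) * (X.q * 1) ^ (l + 1 + nb) * W -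
      X.q ^ 5 * (1⁻¹ * (X.q * 1 / 1) ^ α * (X.q * (X.q * (X.q * 1))) ^ (nb - α) *
        ((X.q * (X.q * (X.q * 1)))⁻¹ ^ (na - α + 1)) * 1 ^ (j - na) *
        (X.q * (X.q * 1)) ^ ((t : ℤ) + 1 + na - nb) * 1 ^ (l + 1 + nb) * W) -
      X.q ^ 5 * ((X.q * 1)⁻¹ * (1 / (X.q * 1)) ^ α * (X.q * (X.q * (X.q * 1))) ^ (nb - α) *
        ((X.q * (X.q * (X.q * 1)))⁻¹ ^ (na - α + 1)) * 1 ^ (j - na) *
        (X.q * (X.q * 1)) ^ ((t : ℤ) + 1 + na - nb) * 1 ^ (l + 1 + nb) * W) +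
      X.q ^ 2 * (X.q + 1) * ((X.q * 1)⁻¹ * (1 / (X.q * 1)) ^ α * (X.q * 1) ^ (nb - α) *
        ((X.q * (X.q * 1))⁻¹ ^ (na - α + 1)) * 1 ^ (j - na) *
        (X.q * 1) ^ ((t : ℤ) + 1 + na - nb) * (X.q * 1) ^ (l + 1 + nb) * W) +
      X.q ^ 2 * (X.q + 1) * (1⁻¹ * (X.q * 1 / 1) ^ α * (X.q * (X.q * 1)) ^ (nb - α) *
        ((X.q * 1)⁻¹ ^ (na - α + 1)) * (X.q * 1) ^ (j - na) *
        (X.q * 1) ^ ((t : ℤ) + 1 + na - nb) * 1 ^ (l + 1 + nb) * W)) =
      X.q ^ (2 * (j : ℤ) + 2 + l + nb - na) * W * ((X.q + 1) * (X.q ^ ((t : ℤ) - j) +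
        X.q ^ ((t : ℤ) + 1 - l)) - (X.q ^ (α : ℤ) + X.q ^ (-(α : ℤ) - 1)) *
        (1 + X.q ^ ((t : ℤ) - j + (t + 1 - l) + 2))) := by
    intro na hna nb α hα W
    have := mem_range.mp hα
    have := mem_range.mp hna
    obtain ⟨β, rfl⟩ : ∃ β, na = α + β := ⟨na - α, by omega⟩
    obtain ⟨γ, rfl⟩ : ∃ γ, nb = α + γ := ⟨nb - α, by omega⟩
    obtain ⟨i, rfl⟩ : ∃ i, j = α + β + i := ⟨j - α - β, by omega⟩
    rw [show α + β + i - (α + β) = i by omega, show α + β - α = β by omega,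
      show α + γ - α = γ by omega]
    push_cast
    simp only [two_mul, zpow_sub₀ hq0, zpow_add₀ hq0, zpow_natCast, zpow_one, div_pow,
      one_pow, mul_one, mul_pow, zpow_ofNat, mul_zpow, one_zpow, inv_pow, zpow_neg, inv_one]
    field_simp
    ring
  have hD' : ∀ na ∈ range (j + 1), ∀ nb : ℕ, ∀ W : F,
      ∑ α ∈ range (min na nb + 1), X.q ^ (2 * (j : ℤ) + 2 + l + nb - na) * W *
        ((X.q + 1) * (X.q ^ ((t : ℤ) - j) + X.q ^ ((t : ℤ) + 1 - l)) -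
        (X.q ^ (α : ℤ) + X.q ^ (-(α : ℤ) - 1)) * (1 + X.q ^ ((t : ℤ) - j + (t + 1 - l) + 2))) =
      (X.q - 1) ^ 2 * (X.q + 1) * (X.RR j l t na nb * W) := by
    intro na _ nb W
    rw [← mul_sum, Rsum, RR, show 2 * (j : ℤ) + 3 + nb - na + t =
      (2 * (j : ℤ) + 2 + l + nb - na) + (t + 1 - l) by ring, zpow_add₀ hq0]
    ring
  have hD'' := sum_congr (rfl : range (j + 1) = range (j + 1)) fun na hna =>
    sum_congr (rfl : range (j + t + 2) = range (j + t + 2)) fun nb _ =>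
      (sum_congr (rfl : range (min na nb + 1) = range (min na nb + 1)) fun α hα =>
        hD na hna nb α hα (X.e (j - na) * X.e (l + 1 + nb) * X.yy c d (t + 1 + na - nb))).trans
        (hD' na hna nb _)
  simp only [← mul_sum, sum_add_distrib, sum_sub_distrib, sum_neg_distrib] at hD''
  apply mul_left_cancel₀ (mul_ne_zero (pow_ne_zero 2 hq1) hq2)
  rw [hK]
  linear_combination X.q ^ (j + 1) * h' + hA + hB + hD'' + (X.q - 1) ^ 2 * (X.q + 1) * hC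

end Ctx

end Pool.Agent.P.MP_389f6f_co
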