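import Pool.Agent.P.MP_389f6f_co.KS2

set_option autoImplicit false

namespace Pool.Agent.P.MP_389f6f_co
open Finset

namespace Ctx
variable {F : Type*} [Field F] (X : Ctx F)

theorem zqq {a b c : ℤ} (ha : 0 ≤ a) (hb : 0 ≤ b) (hc : 0 ≤ c) :
    X.q ^ a * qi X.q b * qi X.q c ∈ X.L :=
  X.L.mul_mem (X.L.mul_mem (X.zp ha) (X.qp hb)) (X.qp hc)

theorem ivl (s : ℤ) (n lo len : ℕ) (h : lo + len ≤ n) (P : ℕ → Prop) [DecidablePred P]
    (hP : ∀ α < n, P α ↔ lo ≤ α ∧ α < lo + len) (E : ℤ) :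
    ∑ α ∈ range n, (if P α then X.q ^ (E + α) * qi X.q (s - 2 * α) else 0) =
      X.q ^ (E + lo) * qi X.q len * qi X.q (s - 2 * lo - len + 1) := by
  have hq0 := X.q0
  have hq1 := X.q1
  rw [← sum_filter, show (range n).filter P = Ico lo (lo + len) by
    ext α; simp only [mem_filter, mem_range, mem_Ico]
    exact ⟨fun h => (hP α h.1).mp h.2, fun h' => ⟨by omega, (hP α (by omega)).mpr h'⟩⟩]
  clear hP h
  induction len with
  | zero => simp [qi]
  | succ len ih =>
    rw [← add_assoc, sum_Ico_succ_top (by omega), ih]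
    push_cast
    have := zpow_ne_zero s hq0
    simp only [qi, two_mul, zpow_sub₀ hq0, zpow_add₀ hq0, zpow_natCast, zpow_one]
    field_simp
    ring

noncomputable def nu (lam m : ℤ) : F :=
  if 0 ≤ m then X.q ^ (-m) * qi X.q m * qi X.q (m + lam) else 0

noncomputable def LL (lam c : ℤ) (n : ℕ) : F := ∑ α ∈ range (n + 1), X.nu lam (c + n - 2 * α)

theorem nu_pos {lam m e : ℤ} (hl : 0 ≤ lam) (h : m ≤ e) : X.q ^ e * X.nu lam m ∈ X.L := by
  unfold nu
  split_ifs with h0
  · rw [← mul_assoc, ← mul_assoc, ← zpow_add₀ X.q0]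
    exact X.zqq (by omega) h0 (by omega)
  · rw [mul_zero]; exact X.L.zero_mem

theorem nu_step {lam m e : ℤ} (hl : 0 ≤ lam) (h : m + 1 ≤ e) :
    X.q ^ e * (X.nu lam (m + 1) - X.nu lam m) ∈ X.L := by
  have hq0 := X.q0
  have hq1 := X.q1
  rcases lt_or_ge m 0 with h0 | h0
  · rw [show X.nu lam m = 0 from if_neg (by omega), sub_zero]
    exact X.nu_pos hl h
  · have : X.q ^ e * (X.nu lam (m + 1) - X.nu lam m) =
        X.q ^ (e - m - 1) * qi X.q (lam + 2 * m + 1) := by
      simp only [nu, if_pos h0, if_pos (show 0 ≤ m + 1 by omega)]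
      have := zpow_ne_zero m hq0
      simp only [qi, two_mul, neg_add, zpow_sub₀ hq0, zpow_add₀ hq0, zpow_one, zpow_neg]
      field_simp
      ring
    rw [this]
    exact X.L.mul_mem (X.zp (by omega)) (X.qp (by omega))

theorem LL_pos {lam c e : ℤ} (n : ℕ) (hl : 0 ≤ lam) (h : c + n ≤ e) :
    X.q ^ e * X.LL lam c n ∈ X.L := by
  rw [LL, mul_sum]
  exact X.L.sum_mem fun α _ => X.nu_pos hl (by omega)

theorem LL_mono {lam c e : ℤ} {n n' : ℕ} (hl : 0 ≤ lam) (hn : n ≤ n') (h : c + n' ≤ e) :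
    X.q ^ e * (X.LL lam c n' - X.LL lam c n) ∈ X.L := by
  induction n', hn using Nat.le_induction with
  | base => rw [sub_self, mul_zero]; exact X.L.zero_mem
  | succ m hm ih =>
    have e1 : X.q ^ e * (X.LL lam c (m + 1) - X.LL lam c n) =
        X.q ^ e * (X.LL lam c m - X.LL lam c n) + (∑ α ∈ range (m + 1), X.q ^ e *
          (X.nu lam (c + m - 2 * α + 1) - X.nu lam (c + m - 2 * α)) +
          X.q ^ e * X.nu lam (c + (m + 1 : ℕ) - 2 * (m + 1 : ℕ))) := by
      rw [← mul_sum, sum_sub_distrib]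
      simp only [LL]
      rw [sum_range_succ _ (m + 1), sum_congr rfl fun α _ => by
        rw [show c + (m + 1 : ℕ) - 2 * (α : ℤ) = c + m - 2 * α + 1 by push_cast; ring]]
      ring
    rw [e1]
    push_cast at h
    exact X.L.add_mem (ih (by omega)) (X.L.add_mem
      (X.L.sum_mem fun α _ => X.nu_step hl (by omega)) (X.nu_pos hl (by push_cast; omega)))

theorem psi_pos {A B C e : ℤ} (hl : B ≤ A) (he : 0 ≤ e) :
    X.q ^ e * (X.psi A B C + X.nu (A - B) (B - C) + X.nu (A - B) (C - A)) ∈ X.L := by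
  rcases lt_or_ge C B with h | h
  · have : X.psi A B C + X.nu (A - B) (B - C) + X.nu (A - B) (C - A) = 0 := by
      rw [psi, nu, nu, if_pos (by omega), if_neg (by omega), ← neg_sub B C, qi_neg X.q0,
        show B - C + (A - B) = A - C by ring]
      ring
    rw [this, mul_zero]; exact X.L.zero_mem
  rcases lt_or_ge A C with h' | h'
  · have : X.psi A B C + X.nu (A - B) (B - C) + X.nu (A - B) (C - A) = 0 := by
      rw [psi, nu, nu, if_neg (by omega), if_pos (by omega), ← neg_sub C A, qi_neg X.q0,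
        show C - A + (A - B) = C - B by ring]
      ring
    rw [this, mul_zero]; exact X.L.zero_mem
  have n0 : ∀ m : ℤ, m ≤ 0 → X.nu (A - B) m = 0 := by
    intro m hm
    unfold nu
    split_ifs with h0
    · rw [show m = 0 by omega, qi_zero]; ring
    · rfl
  rw [n0 _ (by omega), n0 _ (by omega), add_zero, add_zero, psi, ← mul_assoc]
  exact X.zqq he (by omega) (by omega)

theorem HH_pos (j l t na nb : ℕ) (hl : j + 1 ≤ l) (hna : na ≤ j) :
    X.RR j l t na nb + X.q ^ (2 * (j : ℤ) + 3 + nb - na + t) *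
      (X.LL ((l : ℤ) - 1 - j) (t + 2 - l) na + X.LL ((l : ℤ) - 1 - j) (j - t - 1) nb) ∈ X.L := by
  set n := min na nb with hn
  have e1 : X.RR j l t na nb + X.q ^ (2 * (j : ℤ) + 3 + nb - na + t) *
      (X.LL ((l : ℤ) - 1 - j) (t + 2 - l) na + X.LL ((l : ℤ) - 1 - j) (j - t - 1) nb) =
      ∑ k ∈ range (n + 1), X.q ^ (2 * (j : ℤ) + 3 + nb - na + t) *
        (X.psi (t - j) (t + 1 - l) (2 * k - n - 1) +
          X.nu ((t - j) - (t + 1 - l)) ((t + 1 - l) - (2 * k - n - 1)) +
          X.nu ((t - j) - (t + 1 - l)) ((2 * k - n - 1) - (t - j))) +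
      X.q ^ (2 * (j : ℤ) + 3 + nb - na + t) *
        (X.LL ((l : ℤ) - 1 - j) (t + 2 - l) na - X.LL ((l : ℤ) - 1 - j) (t + 2 - l) n) +
      X.q ^ (2 * (j : ℤ) + 3 + nb - na + t) *
        (X.LL ((l : ℤ) - 1 - j) (j - t - 1) nb - X.LL ((l : ℤ) - 1 - j) (j - t - 1) n) := by
    have a1 : ∑ k ∈ range (n + 1), X.nu ((t - j) - (t + 1 - l)) ((t + 1 - l) - (2 * k - n - 1)) =
        X.LL ((l : ℤ) - 1 - j) (t + 2 - l) n :=
      sum_congr rfl fun k _ => by congr 1 <;> ring
    have a2 : ∑ k ∈ range (n + 1), X.nu ((t - j) - (t + 1 - l)) ((2 * k - n - 1) - (t - j)) =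
        X.LL ((l : ℤ) - 1 - j) (j - t - 1) n := by
      rw [LL, ← sum_range_reflect]
      refine sum_congr rfl fun k hk => ?_
      have := mem_range.mp hk
      congr 1 <;> omega
    rw [← mul_sum, sum_add_distrib, sum_add_distrib, a1, a2, RR]
    ring
  rw [e1]
  exact X.L.add_mem (X.L.add_mem (X.L.sum_mem fun k _ => X.psi_pos (by omega) (by omega))
    (X.LL_mono (by omega) (by omega) (by omega))) (X.LL_mono (by omega) (by omega) (by omega))

theorem coef2 (j l t n y : ℕ) (hl : j + 1 ≤ l) (hn : n ≤ j) :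
    (∑ α ∈ range (n + 1), (if y < t + 2 + n - α ∧ (y : ℤ) + (t + 2 + n - α : ℕ) < l + t + 2 + n
      then X.c2 j t n α else 0) + if y < j then X.g3 j t (j - n) y else 0) *
      X.q ^ (-(y : ℤ)) ∈ X.L := by
  have hq0 := X.q0
  have hq1 := X.q1
  simp only [c2]
  rcases le_or_gt l y with h1 | h1
  · rw [if_neg (show ¬ y < j by omega), add_zero]
    rcases le_or_gt (min (n + 1) (t + 2 + n - y)) (y + 1 - l) with h2 | h2
    · rw [sum_eq_zero fun α hα => if_neg (by have := mem_range.mp hα; omega), zero_mul]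
      exact X.L.zero_mem
    · rw [X.ivl _ _ (y + 1 - l) (min (n + 1) (t + 2 + n - y) - (y + 1 - l)) (by omega) _
        (fun α hα => by omega), mul_comm, ← mul_assoc, ← mul_assoc, ← zpow_add₀ hq0]
      exact X.zqq (by omega) (by omega) (by omega)
  rcases le_or_gt y (t + 1) with h2 | h2
  · rw [X.ivl _ _ 0 (n + 1) (by omega) _ (fun α hα => by omega)]
    split_ifs with h3
    · obtain ⟨i, rfl⟩ : ∃ i, j = n + i := ⟨j - n, by omega⟩
      rw [show n + i - n = i by omega, g3, if_pos (by omega)]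
      have : (X.q ^ (2 * ((n + i : ℕ) : ℤ) - n + 1 + t + (0 : ℕ)) * qi X.q (n + 1 : ℕ) *
          qi X.q (t + 1 - (n + i : ℕ) + n - 2 * (0 : ℕ) - (n + 1 : ℕ) + 1) +
          X.q ^ (i + t + 1 + y) * qi X.q ((n + i : ℕ) - y) * qi X.q (t + 2 + (n + i : ℕ) - y - i)) *
          X.q ^ (-(y : ℤ)) = X.q ^ ((t : ℤ) + 1 + i) * qi X.q (2 * n + i + 1 - y) *
            qi X.q (t + 1 - y) := by
        push_cast
        simp only [qi, two_mul, zpow_sub₀ hq0, zpow_add₀ hq0, zpow_natCast, zpow_one, zpow_neg,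
          zpow_ofNat]
        field_simp
        ring
      rw [this]
      exact X.zqq (by omega) (by omega) (by omega)
    · rw [add_zero, mul_comm, ← mul_assoc, ← mul_assoc, ← zpow_add₀ hq0]
      exact X.zqq (by omega) (by omega) (by omega)
  rcases le_or_gt (t + 2 + n) y with h3 | h3
  · rw [sum_eq_zero fun α hα => if_neg (by omega), g3, if_neg (show ¬ j - n + y ≤ t + 1 + j by omega)]
    simp
  rw [X.ivl _ _ 0 (t + 2 + n - y) (by omega) _ (fun α hα => by omega)]
  split_ifs with h4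
  · obtain ⟨i, rfl⟩ : ∃ i, j = n + i := ⟨j - n, by omega⟩
    rw [show n + i - n = i by omega, g3, if_pos (by omega),
      show ((t + 2 + n - y : ℕ) : ℤ) = t + 2 + n - y by omega]
    have : (X.q ^ (2 * ((n + i : ℕ) : ℤ) - n + 1 + t + (0 : ℕ)) * qi X.q (t + 2 + n - y) *
          qi X.q (t + 1 - (n + i : ℕ) + n - 2 * (0 : ℕ) - (t + 2 + n - y) + 1) +
          X.q ^ (i + t + 1 + y) * qi X.q ((n + i : ℕ) - y) * qi X.q (t + 2 + (n + i : ℕ) - y - i)) =
          0 := by
      push_cast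
      simp only [qi, two_mul, zpow_sub₀ hq0, zpow_add₀ hq0, zpow_natCast, zpow_one, zpow_neg,
        zpow_ofNat]
      field_simp
      ring
    rw [this, zero_mul]; exact X.L.zero_mem
  · rw [add_zero, mul_comm, ← mul_assoc, ← mul_assoc, ← zpow_add₀ hq0]
    exact X.zqq (by omega) (by omega) (by omega)

theorem coef1 (j l t n y : ℕ) (hl : j + 1 ≤ l) :
    (∑ α ∈ range (n + 1), (if y < j - α ∧ (y : ℤ) + (j - α : ℕ) < j + t + 1 - n
      then X.c1 j l t n α else 0) + if y < j then X.g3 j t (l + 1 + n) y else 0) *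
      X.q ^ (-(y : ℤ)) ∈ X.L := by
  have hq0 := X.q0
  have hq1 := X.q1
  simp only [c1]
  rcases le_or_gt j y with h1 | h1
  · rw [if_neg (show ¬ y < j by omega), sum_eq_zero fun α hα => if_neg (by omega)]
    simp
  rw [if_pos h1, g3]
  rcases lt_or_ge t (y + n) with h2 | h2
  · rw [if_neg (show ¬ l + 1 + n + y ≤ t + 1 + j by omega), add_zero]
    rcases le_or_gt (min (n + 1) (j - y)) (y + n - t) with h3 | h3
    · rw [sum_eq_zero fun α hα => if_neg (by have := mem_range.mp hα; omega), zero_mul]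
      exact X.L.zero_mem
    · rw [X.ivl _ _ (y + n - t) (min (n + 1) (j - y) - (y + n - t)) (by omega) _
        (fun α hα => by omega), mul_comm, ← mul_assoc, ← mul_assoc, ← zpow_add₀ hq0]
      exact X.zqq (by omega) (by omega) (by omega)
  rw [X.ivl _ _ 0 (min (n + 1) (j - y)) (by omega) _ (fun α hα => by omega)]
  split_ifs with h3
  · rcases le_total (n + 1) (j - y) with h4 | h4
    · rw [min_eq_left h4]
      have : (X.q ^ ((j : ℤ) + 2 * t + 3 + (0 : ℕ)) * qi X.q (n + 1 : ℕ) *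
          qi X.q (l + n - t - 2 - 2 * (0 : ℕ) - (n + 1 : ℕ) + 1) +
          X.q ^ (l + 1 + n + t + 1 + y) * qi X.q (j - y) *
            qi X.q (t + 2 + j - y - (l + 1 + n : ℕ))) *
          X.q ^ (-(y : ℤ)) = X.q ^ ((t : ℤ) + 2 + l + n) * qi X.q (t + 2 + j - l - y) *
            qi X.q (j - 1 - n - y) := by
        push_cast
        simp only [qi, two_mul, zpow_sub₀ hq0, zpow_add₀ hq0, zpow_natCast, zpow_one, zpow_neg,
          zpow_ofNat]
        field_simp
        ring
      rw [this]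
      exact X.zqq (by omega) (by omega) (by omega)
    · rw [min_eq_right h4, show ((j - y : ℕ) : ℤ) = j - y by omega]
      have : (X.q ^ ((j : ℤ) + 2 * t + 3 + (0 : ℕ)) * qi X.q (j - y) *
          qi X.q (l + n - t - 2 - 2 * (0 : ℕ) - (j - y) + 1) +
          X.q ^ (l + 1 + n + t + 1 + y) * qi X.q (j - y) *
            qi X.q (t + 2 + j - y - (l + 1 + n : ℕ))) = 0 := by
        push_cast
        simp only [qi, two_mul, zpow_sub₀ hq0, zpow_add₀ hq0, zpow_natCast, zpow_one, zpow_neg,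
          zpow_ofNat]
        field_simp
        ring
      rw [this, zero_mul]; exact X.L.zero_mem
  · rw [add_zero, mul_comm, ← mul_assoc, ← mul_assoc, ← zpow_add₀ hq0]
    exact X.zqq (by omega) (by omega) (by omega)

end Ctx

end Pool.Agent.P.MP_389f6f_co
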