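import Pool.Agent.P.MP_389f6f_co.KS3

set_option autoImplicit false

namespace Pool.Agent.P.MP_389f6f_co
open Finset

namespace Ctx
variable {F : Type*} [Field F] (X : Ctx F)

theorem UU_dec (m M : ℕ) (d : ℤ) (h : m ≤ M) (c c' : ℕ) :
    X.UU m d c c' = ∑ y ∈ range M, (if y < m ∧ (y : ℤ) + m < d then X.Sh y d c c' else 0) +
      (if d ≤ 2 * m then qi X.q (2 * m - d) * X.q ^ (1 - (m : ℤ)) else 0) * X.FF d c c' := by
  rw [← sum_filter]
  split_ifs with h1
  · rw [X.UU_reflect m, UU]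
    congr 2
    ext y; simp only [mem_filter, mem_range]; omega
  · rw [zero_mul, add_zero, UU]
    congr 1
    ext y; simp only [mem_filter, mem_range]; omega

theorem FF_ext (d : ℤ) (M : ℕ) (h : d < M) {c c' : ℕ} (hc : c < c') :
    X.FF d c c' = ∑ i ∈ range M, X.q ^ i * X.e i * X.yy c c' (d - i) := by
  rw [X.FF_eq d hc]
  rcases lt_or_ge d 0 with hd | hd
  · rw [sum_eq_zero fun i _ => by rw [X.yy_neg _ _ (by omega), mul_zero],
      sum_eq_zero fun i _ => by rw [X.yy_neg _ _ (by omega), mul_zero]]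
  · exact sum_subset (range_subset_range.mpr (by omega)) fun i _ hi => by
      rw [X.yy_neg _ _ (by simp at hi; omega), mul_zero]

theorem Sh_C2s' (a c : F) (ha : a ∈ X.L) (y : ℕ) (d : ℤ) (h : d < 2 * y + 1 → c = 0)
    (hc : c * X.q ^ (-(y : ℤ)) ∈ X.L) : X.C2s (fun p => c * (a * X.Sh y d p.1 p.2)) := by
  rcases lt_or_ge d (2 * y + 1) with h1 | h1
  · exact Sp.zero.congr fun p _ => by rw [h h1, zero_mul]
  · exact ((X.Sh_C2s c y d h1 hc).smul a ha).congr fun p _ => by ring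

theorem phi2 (j l t n : ℕ) :
    ∑ α ∈ range (n + 1), X.c2 j t n α * (if (l : ℤ) + t + 2 + n ≤ 2 * (t + 2 + n - α : ℕ) then
      qi X.q (2 * (t + 2 + n - α : ℕ) - (l + t + 2 + n)) * X.q ^ (1 - ((t + 2 + n - α : ℕ) : ℤ))
      else 0) = X.q ^ (2 * (j : ℤ) - n + 2 + t - l) * X.LL ((l : ℤ) - 1 - j) (t + 2 - l) n := by
  rw [LL, mul_sum]
  refine sum_congr rfl fun α hα => ?_
  have := mem_range.mp hα
  rw [show ((t + 2 + n - α : ℕ) : ℤ) = t + 2 + n - α by omega, nu, c2]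
  by_cases h : (l : ℤ) + t + 2 + n ≤ 2 * (t + 2 + n - α)
  · rw [if_pos h, if_pos (by omega),
      show 2 * ((t : ℤ) + 2 + n - α) - (l + t + 2 + n) = t + 2 - l + n - 2 * α by ring,
      show (t : ℤ) + 2 - l + n - 2 * α + (l - 1 - j) = t + 1 - j + n - 2 * α by ring]
    have : X.q ^ (2 * (j : ℤ) - n + 1 + t + α) * X.q ^ (1 - ((t : ℤ) + 2 + n - α)) =
        X.q ^ (2 * (j : ℤ) - n + 2 + t - l) * X.q ^ (-((t : ℤ) + 2 - l + n - 2 * α)) := by
      rw [← zpow_add₀ X.q0, ← zpow_add₀ X.q0]; congr 1; ring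
    linear_combination qi X.q (t + 2 - l + n - 2 * α) * qi X.q (t + 1 - j + n - 2 * α) * this
  · rw [if_neg h, if_neg (by omega)]; ring

theorem phi1 (j l t n : ℕ) (hn : n < j + t + 2) :
    ∑ α ∈ range (n + 1), X.c1 j l t n α * (if (j : ℤ) + t + 1 - n ≤ 2 * (j - α : ℕ) then
      qi X.q (2 * (j - α : ℕ) - (j + t + 1 - n)) * X.q ^ (1 - ((j - α : ℕ) : ℤ))
      else 0) = X.q ^ ((t : ℤ) + 3 + n + j) * X.LL ((l : ℤ) - 1 - j) (j - t - 1) n := by
  rw [LL, mul_sum]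
  refine sum_congr rfl fun α hα => ?_
  have := mem_range.mp hα
  rcases lt_or_ge j α with h0 | h0
  · rw [nu, if_neg (show ¬ 0 ≤ (j : ℤ) - t - 1 + n - 2 * α by omega)]
    split_ifs with h
    · rw [show 2 * ((j - α : ℕ) : ℤ) - (j + t + 1 - n) = 0 by omega, qi_zero]; ring
    · ring
  rw [show ((j - α : ℕ) : ℤ) = j - α by omega, nu, c1]
  by_cases h : (j : ℤ) + t + 1 - n ≤ 2 * (j - α)
  · rw [if_pos h, if_pos (by omega),
      show 2 * ((j : ℤ) - α) - (j + t + 1 - n) = j - t - 1 + n - 2 * α by ring,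
      show (j : ℤ) - t - 1 + n - 2 * α + (l - 1 - j) = l + n - t - 2 - 2 * α by ring]
    have : X.q ^ ((j : ℤ) + 2 * t + 3 + α) * X.q ^ (1 - ((j : ℤ) - α)) =
        X.q ^ ((t : ℤ) + 3 + n + j) * X.q ^ (-((j : ℤ) - t - 1 + n - 2 * α)) := by
      rw [← zpow_add₀ X.q0, ← zpow_add₀ X.q0]; congr 1; ring
    linear_combination qi X.q (j - t - 1 + n - 2 * α) * qi X.q (l + n - t - 2 - 2 * α) * this
  · rw [if_neg h, if_neg (by omega)]; ring

theorem fam (n M : ℕ) (cf : ℕ → F) (m : ℕ → ℕ) (hm : ∀ α, m α ≤ M) (a : F) (d : ℤ) (c c' : ℕ) :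
    ∑ α ∈ range n, cf α * (a * X.UU (m α) d c c') =
      ∑ y ∈ range M, (∑ α ∈ range n, if y < m α ∧ (y : ℤ) + m α < d then cf α else 0) *
        (a * X.Sh y d c c') +
      (∑ α ∈ range n, cf α * (if d ≤ 2 * m α then qi X.q (2 * m α - d) *
        X.q ^ (1 - (m α : ℤ)) else 0)) * (a * X.FF d c c') := by
  simp only [sum_mul]
  rw [sum_comm, ← sum_add_distrib]
  refine sum_congr rfl fun α _ => ?_
  rw [X.UU_dec (m α) M d (hm α), mul_add, mul_add, mul_sum, mul_sum]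
  congr 1
  · exact sum_congr rfl fun y _ => by split_ifs <;> ring
  · ring

theorem KS_pos (j : ℕ) (d : ℤ) (hd : 2 * j + 1 < d) (t : ℕ) :
    X.C2s (fun p => X.K2 (fun p => X.SS j d p.1 p.2) t (X.w2 p.1 p.2)) := by
  obtain ⟨r, rfl⟩ : ∃ r : ℕ, d = j + (j + r + 2 : ℕ) := ⟨(d - 2 * j - 2).toNat, by omega⟩
  obtain ⟨l, hl⟩ : ∃ l, l = j + r + 2 := ⟨_, rfl⟩
  rw [← hl]
  have A2 : ∀ n ∈ range (j + 1), X.C2s (fun p => ∑ y ∈ range (j + t + 2),
      (∑ α ∈ range (n + 1), (if y < t + 2 + n - α ∧ (y : ℤ) + (t + 2 + n - α : ℕ) < l + t + 2 + n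
      then X.c2 j t n α else 0) + if y < j then X.g3 j t (j - n) y else 0) *
      (X.e (j - n) * X.Sh y (l + t + 2 + n) p.1 p.2)) := by
    intro n hn
    have := mem_range.mp hn
    refine Sp.sum _ _ fun y _ => X.Sh_C2s' _ _ (X.e_mem _) y _ (fun h => ?_)
      (X.coef2 j l t n y (by omega) (by omega))
    rw [sum_eq_zero fun α _ => if_neg (by omega), zero_add, g3]
    split_ifs <;> first | rfl | omega
  have A1 : ∀ n ∈ range (j + t + 2), X.C2s (fun p => ∑ y ∈ range (j + t + 2),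
      (∑ α ∈ range (n + 1), (if y < j - α ∧ (y : ℤ) + (j - α : ℕ) < j + t + 1 - n
      then X.c1 j l t n α else 0) + if y < j then X.g3 j t (l + 1 + n) y else 0) *
      (X.e (l + 1 + n) * X.Sh y (j + t + 1 - n) p.1 p.2)) := by
    intro n hn
    refine Sp.sum _ _ fun y _ => X.Sh_C2s' _ _ (X.e_mem _) y _ (fun h => ?_)
      (X.coef1 j l t n y (by omega))
    rw [sum_eq_zero fun α _ => if_neg (by omega), zero_add, g3]
    split_ifs <;> first | rfl | omega
  have A3 : ∀ y ∈ range j, X.C2s (fun p => ∑ i ∈ range (r + 2), X.g3 j t (j + 1 + i) y *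
      (X.e (j + 1 + i : ℕ) * X.Sh y (j + l + t + 2 - (j + 1 + i : ℕ)) p.1 p.2)) := by
    intro y hy
    have := mem_range.mp hy
    refine Sp.sum _ _ fun i hi => X.Sh_C2s' _ _ (X.e_mem _) y _ (fun h => ?_) ?_
    · rw [g3, if_neg (by omega)]
    · rw [g3]
      split_ifs
      · rw [mul_comm, ← mul_assoc, ← mul_assoc, ← zpow_natCast, ← zpow_add₀ X.q0]
        exact X.zqq (by omega) (by omega) (by omega)
      · rw [zero_mul]; exact X.L.zero_mem
  have B2 : ∀ n ∈ range (j + 1), X.C2s (fun p => ∑ b ∈ range (l + 1),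
      X.q ^ (2 * (j : ℤ) - n + 2 + t - l) * X.LL ((l : ℤ) - 1 - j) (t + 2 - l) n * X.e (j - n) *
        (X.q ^ b * X.e b) * X.yy p.1 p.2 (l + t + 2 + n - b)) := by
    intro n hn
    have := mem_range.mp hn
    exact Sp.sum _ _ fun b _ => (X.yy_C2s _).smul _ (X.L.mul_mem (X.L.mul_mem
      (X.LL_pos n (by omega) (by omega)) (X.e_mem _)) (X.L.mul_mem (X.np _) (X.e_mem _)))
  have B1 : ∀ n ∈ range (j + t + 2), X.C2s (fun p => ∑ a ∈ range (t + 1),
      X.q ^ ((t : ℤ) + 3 + n + j) * X.LL ((l : ℤ) - 1 - j) (j - t - 1) n * X.e (l + 1 + n) *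
        (X.q ^ (j + 1 + a) * X.e (j + 1 + a : ℕ)) *
        X.yy p.1 p.2 (j + t + 1 - n - (j + 1 + a : ℕ))) := by
    intro n hn
    exact Sp.sum _ _ fun b _ => (X.yy_C2s _).smul _ (X.L.mul_mem (X.L.mul_mem
      (X.LL_pos n (by omega) (by omega)) (X.e_mem _)) (X.L.mul_mem (X.np _) (X.e_mem _)))
  have B3 : ∀ na ∈ range (j + 1), X.C2s (fun p => ∑ nb ∈ range (j + t + 2),
      (X.RR j l t na nb + X.q ^ (2 * (j : ℤ) + 3 + nb - na + t) *
      (X.LL ((l : ℤ) - 1 - j) (t + 2 - l) na + X.LL ((l : ℤ) - 1 - j) (j - t - 1) nb)) *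
      (X.e (j - na) * X.e (l + 1 + nb)) * X.yy p.1 p.2 (t + 1 + na - nb)) := by
    intro na hna
    have := mem_range.mp hna
    exact Sp.sum _ _ fun nb _ => (X.yy_C2s _).smul _ (X.L.mul_mem
      (X.HH_pos j l t na nb (by omega) (by omega)) (X.L.mul_mem (X.e_mem _) (X.e_mem _)))
  refine ((((((Sp.sum _ _ A2).add (Sp.sum _ _ A1)).add (Sp.sum _ _ A3)).add (Sp.sum _ _ B2)).add
    (Sp.sum _ _ B1)).add (Sp.sum _ _ B3)).congr ?_
  rintro ⟨c, d⟩ ⟨hc, hd⟩
  simp only at hc hd ⊢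
  rw [X.KS_formula j l t hc hd]
  have E2 : ∀ n ∈ range (j + 1), ∑ α ∈ range (n + 1), X.c2 j t n α *
      (X.e (j - n) * X.UU (t + 2 + n - α) (l + t + 2 + n) c d) =
      ∑ y ∈ range (j + t + 2), (∑ α ∈ range (n + 1),
        (if y < t + 2 + n - α ∧ (y : ℤ) + (t + 2 + n - α : ℕ) < l + t + 2 + n
        then X.c2 j t n α else 0)) * (X.e (j - n) * X.Sh y (l + t + 2 + n) c d) +
      ∑ b ∈ range (l + 1),
        X.q ^ (2 * (j : ℤ) - n + 2 + t - l) * X.LL ((l : ℤ) - 1 - j) (t + 2 - l) n * X.e (j - n) *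
        (X.q ^ b * X.e b) * X.yy c d (l + t + 2 + n - b) +
      ∑ nb ∈ range (j + t + 2), X.q ^ (2 * (j : ℤ) + 3 + nb - n + t) *
        X.LL ((l : ℤ) - 1 - j) (t + 2 - l) n *
        (X.e (j - n) * X.e (l + 1 + nb)) * X.yy c d (t + 1 + n - nb) := by
    intro n hn
    have := mem_range.mp hn
    rw [X.fam (n + 1) (j + t + 2) _ (fun α => t + 2 + n - α) (fun α => by omega), phi2,
      X.FF_ext _ (l + 1 + (j + t + 2)) (by omega) hc, sum_range_add _ (l + 1),
      add_assoc (∑ y ∈ range (j + t + 2), _), mul_add,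
      mul_add, mul_sum, mul_sum, mul_sum, mul_sum]
    congr 2
    · exact sum_congr rfl fun b _ => by ring
    · refine sum_congr rfl fun nb _ => ?_
      rw [show 2 * (j : ℤ) + 3 + nb - n + t = (2 * (j : ℤ) - n + 2 + t - l) + (l + 1 + nb : ℕ) by
        push_cast; ring, zpow_add₀ X.q0, zpow_natCast,
        show (l : ℤ) + t + 2 + n - (l + 1 + nb : ℕ) = t + 1 + n - nb by push_cast; ring]
      push_cast
      ring
  have E1 : ∀ n ∈ range (j + t + 2), ∑ α ∈ range (n + 1), X.c1 j l t n α *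
      (X.e (l + 1 + n) * X.UU (j - α) (j + t + 1 - n) c d) =
      ∑ y ∈ range (j + t + 2), (∑ α ∈ range (n + 1),
        (if y < j - α ∧ (y : ℤ) + (j - α : ℕ) < j + t + 1 - n
        then X.c1 j l t n α else 0)) * (X.e (l + 1 + n) * X.Sh y (j + t + 1 - n) c d) +
      ∑ a ∈ range (t + 1),
        X.q ^ ((t : ℤ) + 3 + n + j) * X.LL ((l : ℤ) - 1 - j) (j - t - 1) n * X.e (l + 1 + n) *
        (X.q ^ (j + 1 + a) * X.e (j + 1 + a : ℕ)) * X.yy c d (j + t + 1 - n - (j + 1 + a : ℕ)) +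
      ∑ na ∈ range (j + 1), X.q ^ (2 * (j : ℤ) + 3 + n - na + t) *
        X.LL ((l : ℤ) - 1 - j) (j - t - 1) n *
        (X.e (j - na) * X.e (l + 1 + n)) * X.yy c d (t + 1 + na - n) := by
    intro n hn
    have := mem_range.mp hn
    rw [X.fam (n + 1) (j + t + 2) _ (fun α => j - α) (fun α => by omega), X.phi1 j l t n this,
      X.FF_ext _ (j + 1 + (t + 1)) (by omega) hc, sum_range_add _ (j + 1),
      add_assoc (∑ y ∈ range (j + t + 2), _), mul_add,
      mul_add, mul_sum, mul_sum, mul_sum, mul_sum, add_comm (∑ i ∈ range (j + 1), _)]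
    congr 2
    · exact sum_congr rfl fun b _ => by ring
    · rw [← sum_range_reflect]
      refine sum_congr rfl fun na hna => ?_
      have := mem_range.mp hna
      rw [show 2 * (j : ℤ) + 3 + n - na + t = ((t : ℤ) + 3 + n + j) + (j + 1 - 1 - na : ℕ) by
        omega, zpow_add₀ X.q0 ((t : ℤ) + 3 + n + j), zpow_natCast,
        show (j : ℤ) + t + 1 - n - (j + 1 - 1 - na : ℕ) = t + 1 + na - n by omega,
        show ((j + 1 - 1 - na : ℕ) : ℤ) = j - na by omega]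
      ring
  have E3 : ∑ y ∈ range j, ∑ i ∈ range (l + 1 + (j + t + 2)), X.g3 j t i y *
        (X.e i * X.Sh y (j + l + t + 2 - i) c d) =
      ∑ n ∈ range (j + 1), ∑ y ∈ range (j + t + 2), (if y < j then X.g3 j t (j - n) y else 0) *
        (X.e (j - n) * X.Sh y (l + t + 2 + n) c d) +
      ∑ y ∈ range j, ∑ i ∈ range (r + 2), X.g3 j t (j + 1 + i) y *
        (X.e (j + 1 + i : ℕ) * X.Sh y (j + l + t + 2 - (j + 1 + i : ℕ)) c d) +
      ∑ n ∈ range (j + t + 2), ∑ y ∈ range (j + t + 2),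
        (if y < j then X.g3 j t (l + 1 + n) y else 0) *
        (X.e (l + 1 + n) * X.Sh y (j + t + 1 - n) c d) := by
    have cut : ∀ f : ℕ → F, ∀ g : ℕ → F, ∑ y ∈ range (j + t + 2), (if y < j then f y else 0) * g y =
        ∑ y ∈ range j, f y * g y := by
      intro f g
      rw [← sum_subset (range_subset_range.mpr (show j ≤ j + t + 2 by omega)) fun y _ hy => by
        rw [if_neg (by simpa using hy), zero_mul]]
      exact sum_congr rfl fun y hy => by rw [if_pos (mem_range.mp hy)]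
    simp only [cut]
    rw [sum_comm (s := range (j + 1)), sum_comm (s := range (j + t + 2)), ← sum_add_distrib,
      ← sum_add_distrib]
    refine sum_congr rfl fun y _ => ?_
    rw [sum_range_add _ (l + 1), show l + 1 = j + 1 + (r + 2) by omega, sum_range_add _ (j + 1)]
    congr 2
    · rw [← sum_range_reflect]
      refine sum_congr rfl fun n hn => ?_
      have := mem_range.mp hn
      rw [show (j : ℤ) + l + t + 2 - (j + 1 - 1 - n : ℕ) = l + t + 2 + n by omega,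
        show ((j + 1 - 1 - n : ℕ) : ℤ) = j - n by omega, show j + 1 - 1 - n = j - n by omega]
    · funext n
      rw [show (j : ℤ) + l + t + 2 - (j + 1 + (r + 2) + n : ℕ) = j + t + 1 - n by omega,
        show ((j + 1 + (r + 2) + n : ℕ) : ℤ) = l + 1 + n by omega]
  rw [sum_congr rfl E2, sum_congr rfl E1, E3]
  simp only [sum_add_distrib, add_mul, mul_add]
  rw [sum_comm (s := range (j + t + 2)) (t := range (j + 1))]
  simp only [mul_assoc]
  ring

theorem K2_pos {Φ : ℕ × ℕ → F} (hΦ : X.g2s Φ) (t : ℕ) :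
    X.C2s (fun p => X.K2 Φ t (X.w2 p.1 p.2)) := by
  rcases hΦ with ⟨j, d, h, rfl⟩ | ⟨d, rfl⟩
  · exact X.KS_pos j d h t
  · exact X.KY_pos d t

end Ctx

end Pool.Agent.P.MP_389f6f_co
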