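import Pool.Agent.P.MP_389f6f_co.K1

set_option autoImplicit false

namespace Pool.Agent.P.MP_389f6f_co
open Finset HahnSeries

theorem inv_sub_swap {K : Type*} [Field K] (a b : K) : (a - b)⁻¹ = -(b - a)⁻¹ := by
  rw [← neg_sub b a, inv_neg]

theorem GF_KY' {K : Type*} [Field K] {q z z1 z2 z3 v v1 v2 : K} {x : ℕ → K} {c d N : ℕ}
    (hc : c < d) (hd : d < N) (hz1 : z1 = q * z) (hz2 : z2 = q * z1) (hz3 : z3 = q * z2)
    (hv1 : v1 = q * v) (hv2 : v2 = q * v1) (hq0 : q ≠ 0) (hq : q - 1 ≠ 0) (hq2 : q + 1 ≠ 0)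
    (hv : v ≠ 0) (hE : PP N x v1 ≠ 0) (h0 : v1 - z ≠ 0)
    (k0 : v - z ≠ 0) (k1 : v - z1 ≠ 0) (k2 : v - z2 ≠ 0) (k3 : v - z3 ≠ 0) (m2 : v2 - z1 ≠ 0) :
    ((q - 1) ^ 2 * (q + 1)) * ∑ b ∈ range N, ∑ a ∈ range b,
      (x a * om q c a * om q d a * (x b * om q c b * om q d b)) *
      (PP N (fun s => x s * om q a s * om q b s) v *
        PP N (fun s => x s * om q c s * om q d s * om q s a * om q s b) z) =
      (q ^ 2 * (q - 1) * (q + 1)) * (v * (SgF
        (PP N (fun s => x s * om q c s) v * PP N (fun s => x s * om q d s) z2)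
        (PP N (fun s => x s * om q d s) v * PP N (fun s => x s * om q c s) z2)
        v z2 v1 z3 / (z2 - v)) / (z1 - v)) -
      (q ^ 2 * (q - 1) * (q + 1)) * (v * (SgF
        (PP N (fun s => x s * om q c s) v1 * PP N (fun s => x s * om q d s) z1)
        (PP N (fun s => x s * om q d s) v1 * PP N (fun s => x s * om q c s) z1)
        v1 z1 v2 z2 / (z1 - v1)) / (z1 - v)) +
      ((q - 1) ^ 2 * (q + 1)) * (v * (v * (PP N (fun s => x s * om q c s * om q d s) v *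
        PP N x z2)) / (z - v) / (z1 - v) / (z1 - v) / (z2 - v)) +
      PP N x v2 * PP N (fun s => x s * om q c s * om q d s) z / (z - v1) / (z - v) +
      q ^ 4 * (PP N x v * PP N (fun s => x s * om q c s * om q d s) z2 / (z2 - v) / (z3 - v)) -
      (q * (q + 1)) * (PP N x v1 * PP N (fun s => x s * om q c s * om q d s) z1 /
        (z1 - v) / (z1 - v)) := by
  have h := GF_KY (x := x) hc hd hz1 hz2 hz3 hv1 hv2 hq0 hq hq2 hv hE h0 k0 k1 k2 k3 m2
  simp only [mul_comm (PP N (fun s => x s * om q _ s * om q _ s) v)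
    (PP N (fun s => x s * om q c s * om q d s * om q s _ * om q s _) z)]
  rw [h]
  simp only [SgF, div_eq_mul_inv]
  rw [inv_sub_swap v z, inv_sub_swap v z1, inv_sub_swap v z2, inv_sub_swap v z3,
    inv_sub_swap v1 z, inv_sub_swap v1 z1, inv_sub_swap v1 z2, inv_sub_swap v2 z1]
  ring

theorem hh_comm {F : Type*} [Field F] (a b : F) (n : ℕ) : hh a b n = hh b a n := by
  rw [hh, hh, ← sum_range_reflect]
  refine sum_congr rfl fun i hi => ?_
  have := mem_range.mp hi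
  rw [show n + 1 - 1 - i = n - i by omega, show n - (n - i) = i by omega, mul_comm]

theorem hh_same {F : Type*} [Field F] (a : F) (n : ℕ) : hh a a n = (n + 1) * a ^ n := by
  rw [hh, sum_congr rfl (g := fun _ => a ^ n) fun i hi => by
    rw [← _root_.pow_add]; congr 1; have := mem_range.mp hi; omega]
  simp

namespace Ctx
variable {F : Type*} [Field F] (X : Ctx F)

theorem qi_nat (n : ℕ) : qi X.q n = ∑ i ∈ range n, X.q ^ i := by
  rw [qi, zpow_natCast, div_eq_iff X.q1, geom_sum_mul]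

theorem hh_q {a b : F} (h : a = X.q * b) (n : ℕ) : hh a b n = b ^ n * qi X.q (n + 1) := by
  rw [show (n : ℤ) + 1 = (n + 1 : ℕ) by push_cast; ring, qi_nat, hh, mul_sum, h]
  refine sum_congr rfl fun i hi => ?_
  have := mem_range.mp hi
  rw [mul_pow, mul_assoc, ← _root_.pow_add, show i + (n - i) = n by omega, mul_comm]

theorem hh_q' {a b : F} (h : b = X.q * a) (n : ℕ) : hh a b n = a ^ n * qi X.q (n + 1) := by
  rw [hh_comm, X.hh_q h]

theorem B2 (n : ℕ) : ∃ ξ ∈ X.L, (X.q + 1) * ξ = qi X.q n * qi X.q (n + 1) := by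
  have hq0 := X.q0
  have hq1 := X.q1
  induction n with
  | zero => exact ⟨0, X.L.zero_mem, by simp [qi]⟩
  | succ n ih =>
    obtain ⟨ξ, h1, h2⟩ := ih
    refine ⟨X.q ^ 2 * ξ + qi X.q (n + 1), X.L.add_mem (X.L.mul_mem (X.np _) h1) (X.qp (by omega)),
      ?_⟩
    rw [mul_add, mul_left_comm, h2]
    push_cast
    simp only [qi, zpow_add₀ hq0, zpow_natCast, zpow_one]
    field_simp
    ring

theorem Xi (e γ : ℕ) : ∃ ξ ∈ X.L, (X.q - 1) ^ 2 * (X.q + 1) * ξ =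
    qi X.q (γ + 1) * (1 + X.q ^ (2 * e + 1 + γ)) - (γ + 1) * (X.q + 1) * X.q ^ (e + γ) := by
  have hq0 := X.q0
  have hq1 := X.q1
  induction γ with
  | zero =>
    obtain ⟨ξ, h1, h2⟩ := X.B2 e
    refine ⟨ξ, h1, ?_⟩
    rw [mul_assoc, h2]
    simp only [qi, zpow_add₀ hq0, zpow_natCast, zpow_one]
    field_simp
    ring
  | succ γ ih =>
    obtain ⟨ξ, h1, h2⟩ := ih
    obtain ⟨ξ', h3, h4⟩ := X.B2 (e + γ + 1)
    refine ⟨X.q * ξ + ξ', X.L.add_mem (X.L.mul_mem X.hq h1) h3, ?_⟩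
    rw [mul_add, mul_left_comm, h2, mul_assoc ((X.q - 1) ^ 2), h4]
    push_cast
    simp only [qi, zpow_add₀ hq0, zpow_natCast, zpow_one]
    field_simp
    ring

theorem KY_formula1 (n t : ℕ) {c d : ℕ} (hc : c < d) (hd : d < X.N) :
    (X.q - 1) ^ 2 * (X.q + 1) * X.K2 (fun p => X.yy p.1 p.2 n) t (X.w2 c d) =
      ∑ γ ∈ range (t + 1), ((X.q - 1) * (X.q + 1) * (X.q ^ (t + n + γ + 1) -
        X.q ^ (2 * t + 1 - γ)) * X.UU (t + 1 - γ) (t + n + 2) c d +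
      (X.q - 1) ^ 2 * (X.q + 1) * ∑ δ ∈ range (t + 1 - γ), X.q ^ γ * qi X.q (γ + 1) *
        qi X.q (δ + 1) * X.q ^ (2 * (t - γ - δ)) * X.e (t - γ - δ) * X.yy c d (n + γ + δ + 2) +
      (qi X.q (γ + 1) * (X.q ^ (2 * t + 4) + X.q ^ (2 * n + 3 + γ)) -
        (γ + 1) * (X.q + 1) * X.q ^ (t + n + 3 + γ)) *
        (X.e (n + γ + 2) * X.yy c d (t - γ))) := by
  have hq0 := X.q0
  have q1 : X.q * 1 ≠ 0 := by simpa using hq0
  have q2 : X.q * (X.q * 1) ≠ 0 := by simpa using hq0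
  have h := GF_KY (K := HahnSeries GG3 F) (q := C X.q) (x := fun s => C (X.x s))
    (z := single (pt 0 1 0) 1) (z1 := single (pt 0 1 0) (X.q * 1))
    (z2 := single (pt 0 1 0) (X.q * (X.q * 1))) (z3 := single (pt 0 1 0) (X.q * (X.q * (X.q * 1))))
    (v := single (pt 0 0 1) 1) (v1 := single (pt 0 0 1) (X.q * 1))
    (v2 := single (pt 0 0 1) (X.q * (X.q * 1))) hc hd (C_single _ _ _).symm (C_single _ _ _).symm
    (C_single _ _ _).symm (C_single _ _ _).symm (C_single _ _ _).symm X.Cq0 X.Cq1 X.Cq2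
    (single_ne_zero one_ne_zero) (PH_ne _ _ _) (sub_ne lt32 q1 _) (sub_ne lt32 one_ne_zero _)
    (sub_ne lt32 one_ne_zero _) (sub_ne lt32 one_ne_zero _) (sub_ne lt32 one_ne_zero _)
    (sub_ne lt32 q2 _)
  simp only [PP_x, PP_w1, PP_w2, PP_w4] at h
  simp only [C_w2, ← map_mul C (X.w2 c d _)] at h
  have c1 : ((C X.q - 1) ^ 2 * (C X.q + 1) : HahnSeries GG3 F) = C ((X.q - 1) ^ 2 * (X.q + 1)) := by
    simp only [map_mul, map_pow, map_sub, map_add, map_one]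
  have c2 : (C X.q ^ 2 * (C X.q - 1) * (C X.q + 1) : HahnSeries GG3 F) =
      C (X.q ^ 2 * (X.q - 1) * (X.q + 1)) := by
    simp only [map_mul, map_pow, map_sub, map_add, map_one]
  have c3 : (C X.q ^ 4 : HahnSeries GG3 F) = C (X.q ^ 4) := by rw [map_pow]
  have c4 : (C X.q * (C X.q + 1) : HahnSeries GG3 F) = C (X.q * (X.q + 1)) := by
    simp only [map_mul, map_add, map_one]
  rw [c1, c2, c3, c4] at h
  have h' := congrArg (fun y => co y 0 t n) h
  simp only [co_add, co_sub, co_C, co_sum, X.co2 one_ne_zero one_ne_zero] at h'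
  have inner : ∀ γ : ℕ, co (single (pt 0 0 1) 1 * (single (pt 0 0 1) 1 *
      (X.A2 X.x (X.q * (X.q * 1)) * X.A3 (X.w2 c d) 1)) / (single (pt 0 0 1) 1 - single (pt 0 1 0) 1)
      / (single (pt 0 0 1) 1 - single (pt 0 1 0) (X.q * 1))) 0 (t - γ) (n + γ + 2) =
      ∑ δ ∈ range (t + 1 - γ), qi X.q (δ + 1) * (X.q * X.q) ^ ((t : ℤ) - γ - δ) *
        X.e (t - γ - δ) * X.yy c d (n + γ + δ + 2) := by
    intro γ
    rw [geo23_2 one_ne_zero one_ne_zero _ _ _ _ _ _ (t + 1 - γ) fun α hα => by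
      simp only [co_single, sub_zero, X.co2 q2 one_ne_zero]
      rw [es_neg _ _ (t - γ - α) (by omega)]; ring]
    refine sum_congr rfl fun δ _ => ?_
    simp only [co_single, sub_zero, X.co2 q2 one_ne_zero]
    rw [X.hh_q (by ring), show (n : ℤ) + γ + 2 + δ + 2 - 1 - 1 = n + γ + δ + 2 by ring]
    simp only [e, yy, one_zpow, mul_one, inv_one, div_one, one_pow]
    ring
  rw [geo23 one_ne_zero _ _ _ _ _ (t + 1) fun α hα => by
      simp only [co_single, sub_zero, X.coU23' c d q1 q1]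
      rw [show ((t : ℤ) - α + 1).toNat = 0 by omega]; simp [UU],
    geo23 one_ne_zero _ _ _ _ _ (t + 1) fun α hα => by
      simp only [co_single, sub_zero, X.coU23' c d q2 one_ne_zero]
      rw [show ((t : ℤ) - α + 1).toNat = 0 by omega]; simp [UU],
    geo23_2 one_ne_zero one_ne_zero _ _ _ _ _ _ (t + 1) fun α hα => by
      rw [inner, show t + 1 - α = 0 by omega]; simp,
    geo23_2 q1 one_ne_zero _ _ _ _ _ _ (t + 1) fun α hα => by
      rw [X.co2 one_ne_zero q2, es_neg _ _ (t - α) (by omega)]; ring,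
    geo23_2 one_ne_zero one_ne_zero _ _ _ _ _ _ (t + 1) fun α hα => by
      rw [X.co2 q2 one_ne_zero, es_neg _ _ (t - α) (by omega)]; ring,
    geo23_2 one_ne_zero one_ne_zero _ _ _ _ _ _ (t + 1) fun α hα => by
      rw [X.co2 q1 q1, es_neg _ _ (t - α) (by omega)]; ring] at h'
  simp only [inner, co_single, sub_zero, X.coU23' c d q1 q1, X.coU23' c d q2 one_ne_zero,
    X.co2 one_ne_zero q2, X.co2 q2 one_ne_zero, X.co2 q1 q1] at h'
  have e3 : X.K2 (fun p => X.yy p.1 p.2 n) t (X.w2 c d) = ∑ b ∈ range X.N, ∑ a ∈ range b,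
      X.w2 c d a * X.w2 c d b * (1 ^ (t : ℤ) * 1 ^ (n : ℤ) *
      (es X.N (fun s => X.w2 c d s * om X.q s a * om X.q s b) t * es X.N (X.w2 a b) n)) :=
    sum_congr rfl fun b _ => sum_congr rfl fun a _ => by simp only [yy, one_zpow]; ring
  rw [e3, h']
  simp only [mul_sum (range (t + 1)), ← sum_add_distrib, ← sum_sub_distrib]
  refine sum_congr rfl fun γ hγ => ?_
  obtain ⟨r, rfl⟩ : ∃ r, t = γ + r := ⟨t - γ, by have := mem_range.mp hγ; omega⟩
  have i1 : ∑ δ ∈ range (γ + r + 1 - γ), X.q ^ γ * qi X.q (γ + 1) * qi X.q (δ + 1) *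
      X.q ^ (2 * (γ + r - γ - δ)) * X.e (((γ + r : ℕ) : ℤ) - γ - δ) * X.yy c d (n + γ + δ + 2) =
      X.q ^ γ * qi X.q (γ + 1) * ∑ δ ∈ range (γ + r + 1 - γ), qi X.q (δ + 1) *
        (X.q * X.q) ^ (((γ + r : ℕ) : ℤ) - γ - δ) * X.e (((γ + r : ℕ) : ℤ) - γ - δ) *
        X.yy c d (n + γ + δ + 2) := by
    rw [mul_sum]
    refine sum_congr rfl fun δ hδ => ?_
    have := mem_range.mp hδ
    rw [show (((γ + r : ℕ) : ℤ) - γ - δ) = ((γ + r - γ - δ : ℕ) : ℤ) by omega, zpow_natCast,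
      pow_mul]
    ring
  rw [i1]
  generalize (∑ δ ∈ range (γ + r + 1 - γ), qi X.q (δ + 1) *
        (X.q * X.q) ^ (((γ + r : ℕ) : ℤ) - γ - δ) * X.e (((γ + r : ℕ) : ℤ) - γ - δ) *
        X.yy c d (n + γ + δ + 2)) = S
  rw [X.hh_q (a := X.q * (X.q * 1) / 1) (b := X.q * 1 / 1) (by ring),
    X.hh_q (a := 1 / 1) (b := 1 / (X.q * 1)) (by field_simp),
    X.hh_q (a := X.q * (X.q * (X.q * 1)) / 1) (b := X.q * (X.q * 1) / 1) (by ring), hh_same,
    show (((γ + r : ℕ) : ℤ) - γ + 1).toNat = r + 1 by omega,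
    show γ + r + 1 - γ = r + 1 by omega, show 2 * (γ + r) + 1 - γ = γ + 2 * r + 1 by omega,
    show ((γ + r : ℕ) : ℤ) - γ + (n + γ + 1 - 1) + 2 = (γ + r : ℕ) + n + 2 by ring,
    show ((γ + r : ℕ) : ℤ) - γ = r by omega,
    show (n : ℤ) + γ + 1 - 1 = (n + γ : ℕ) by push_cast; ring,
    show (n : ℤ) + γ + 2 = (n + γ + 2 : ℕ) by push_cast; ring]
  simp only [e, yy, zpow_natCast, div_pow, one_pow, mul_one]
  field_simp
  ring

theorem KY_formula2 (n t : ℕ) {c d : ℕ} (hc : c < d) (hd : d < X.N) :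
    (X.q - 1) ^ 2 * (X.q + 1) * X.K2 (fun p => X.yy p.1 p.2 n) t (X.w2 c d) =
      ∑ β ∈ range (n + 1), ((X.q - 1) * (X.q + 1) * (X.q ^ (2 * t + β + 2) -
        X.q ^ (t + n - β)) * X.UU (n - β) (t + n + 2) c d +
      (X.q - 1) ^ 2 * (X.q + 1) * ∑ δ ∈ range (n + 1 - β), X.q ^ (2 * t + 4 + δ) * qi X.q (β + 1) *
        qi X.q (δ + 1) * X.e (t + β + δ + 4) * X.yy c d (n - β - δ - 2) +
      (qi X.q (β + 1) * (X.q ^ (2 * (n - β)) + X.q ^ (2 * t + 3 - (β : ℤ))) -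
        (β + 1) * (X.q + 1) * X.q ^ (t + n + 1 - β)) *
        (X.e (n - β) * X.yy c d (t + β + 2))) := by
  have hq0 := X.q0
  have q1 : X.q * 1 ≠ 0 := by simpa using hq0
  have q2 : X.q * (X.q * 1) ≠ 0 := by simpa using hq0
  have q3 : X.q * (X.q * (X.q * 1)) ≠ 0 := by simpa using hq0
  have h := GF_KY' (K := HahnSeries GG3 F) (q := C X.q) (x := fun s => C (X.x s))
    (z := single (pt 0 0 1) 1) (z1 := single (pt 0 0 1) (X.q * 1))
    (z2 := single (pt 0 0 1) (X.q * (X.q * 1))) (z3 := single (pt 0 0 1) (X.q * (X.q * (X.q * 1))))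
    (v := single (pt 0 1 0) 1) (v1 := single (pt 0 1 0) (X.q * 1))
    (v2 := single (pt 0 1 0) (X.q * (X.q * 1))) hc hd (C_single _ _ _).symm (C_single _ _ _).symm
    (C_single _ _ _).symm (C_single _ _ _).symm (C_single _ _ _).symm X.Cq0 X.Cq1 X.Cq2
    (single_ne_zero one_ne_zero) (PH_ne2 _ _ _) (sub_ne' lt32 one_ne_zero _)
    (sub_ne' lt32 one_ne_zero _) (sub_ne' lt32 q1 _) (sub_ne' lt32 q2 _) (sub_ne' lt32 q3 _)
    (sub_ne' lt32 q1 _)
  simp only [PP_x, PP_w1, PP_w2, PP_w4] at h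
  simp only [C_w2, ← map_mul C (X.w2 c d _)] at h
  have c1 : ((C X.q - 1) ^ 2 * (C X.q + 1) : HahnSeries GG3 F) = C ((X.q - 1) ^ 2 * (X.q + 1)) := by
    simp only [map_mul, map_pow, map_sub, map_add, map_one]
  have c2 : (C X.q ^ 2 * (C X.q - 1) * (C X.q + 1) : HahnSeries GG3 F) =
      C (X.q ^ 2 * (X.q - 1) * (X.q + 1)) := by
    simp only [map_mul, map_pow, map_sub, map_add, map_one]
  have c3 : (C X.q ^ 4 : HahnSeries GG3 F) = C (X.q ^ 4) := by rw [map_pow]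
  have c4 : (C X.q * (C X.q + 1) : HahnSeries GG3 F) = C (X.q * (X.q + 1)) := by
    simp only [map_mul, map_add, map_one]
  rw [c1, c2, c3, c4] at h
  have h' := congrArg (fun y => co y 0 n t) h
  simp only [co_add, co_sub, co_C, co_sum, X.co2 one_ne_zero one_ne_zero] at h'
  have inner : ∀ β : ℕ, co (single (pt 0 1 0) 1 * (single (pt 0 1 0) 1 *
      (X.A2 (X.w2 c d) 1 * X.A3 X.x (X.q * (X.q * 1)))) / (single (pt 0 0 1) 1 - single (pt 0 1 0) 1)
      / (single (pt 0 0 1) (X.q * 1) - single (pt 0 1 0) 1)) 0 (n - β) (t + β + 2) =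
      ∑ δ ∈ range (n + 1 - β), X.q ^ (2 * t + 2 * β + 7 + δ) * qi X.q (δ + 1) *
        X.e (t + β + δ + 4) * X.yy c d (n - β - δ - 2) := by
    intro β
    rw [geo23_2 one_ne_zero q1 _ _ _ _ _ _ (n + 1 - β) fun α hα => by
      simp only [co_single, sub_zero, X.co2 one_ne_zero q2]
      rw [es_neg _ _ (n - β - α - 1 - 1) (by omega)]; ring]
    refine sum_congr rfl fun δ _ => ?_
    simp only [co_single, sub_zero, X.co2 one_ne_zero q2]
    rw [X.hh_q' (by field_simp), show (n : ℤ) - β - δ - 1 - 1 = n - β - δ - 2 by ring,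
      show (t : ℤ) + β + 2 + δ + 2 = (t + β + δ + 4 : ℕ) by push_cast; ring, zpow_natCast]
    push_cast
    simp only [e, yy, one_zpow, mul_one, inv_one, div_pow, one_pow]
    field_simp
    ring
  rw [geo23 q1 _ _ _ _ _ (n + 1) fun α hα => by
      simp only [co_single, sub_zero, X.coU23' c d one_ne_zero q2]
      rw [show ((n : ℤ) - α - 1 + 1).toNat = 0 by omega]; simp [UU],
    geo23 q1 _ _ _ _ _ (n + 1) fun α hα => by
      simp only [co_single, sub_zero, X.coU23' c d q1 q1]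
      rw [show ((n : ℤ) - α - 1 + 1).toNat = 0 by omega]; simp [UU],
    geo23_2 q1 q2 _ _ _ _ _ _ (n + 1) fun α hα => by
      rw [inner, show n + 1 - α = 0 by omega]; simp,
    geo23_2 one_ne_zero one_ne_zero _ _ _ _ _ _ (n + 1) fun α hα => by
      rw [X.co2 q2 one_ne_zero, es_neg _ _ (n - α) (by omega)]; ring,
    geo23_2 q2 q3 _ _ _ _ _ _ (n + 1) fun α hα => by
      rw [X.co2 one_ne_zero q2, es_neg _ _ (n - α) (by omega)]; ring,
    geo23_2 q1 q1 _ _ _ _ _ _ (n + 1) fun α hα => by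
      rw [X.co2 q1 q1, es_neg _ _ (n - α) (by omega)]; ring] at h'
  simp only [inner, co_single, sub_zero, X.coU23' c d q1 q1, X.coU23' c d one_ne_zero q2,
    X.co2 one_ne_zero q2, X.co2 q2 one_ne_zero, X.co2 q1 q1] at h'
  have e3 : X.K2 (fun p => X.yy p.1 p.2 n) t (X.w2 c d) = ∑ b ∈ range X.N, ∑ a ∈ range b,
      X.w2 c d a * X.w2 c d b * (1 ^ (n : ℤ) * 1 ^ (t : ℤ) *
      (es X.N (X.w2 a b) n * es X.N (fun s => X.w2 c d s * om X.q s a * om X.q s b) t)) :=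
    sum_congr rfl fun b _ => sum_congr rfl fun a _ => by simp only [yy, one_zpow]; ring
  rw [e3, h']
  simp only [mul_sum (range (n + 1)), ← sum_add_distrib, ← sum_sub_distrib]
  refine sum_congr rfl fun β hβ => ?_
  obtain ⟨r, rfl⟩ : ∃ r, n = β + r := ⟨n - β, by have := mem_range.mp hβ; omega⟩
  have i1 : ∑ δ ∈ range (β + r + 1 - β), X.q ^ (2 * t + 2 * β + 7 + δ) * qi X.q (δ + 1) *
        X.e (t + β + δ + 4) * X.yy c d ((β + r : ℕ) - β - δ - 2) =
      X.q ^ (2 * β + 3) * ∑ δ ∈ range (β + r + 1 - β), X.q ^ (2 * t + 4 + δ) *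
        qi X.q (δ + 1) * X.e (t + β + δ + 4) * X.yy c d ((β + r : ℕ) - β - δ - 2) := by
    rw [mul_sum]
    exact sum_congr rfl fun δ _ => by ring
  have i2 : ∑ δ ∈ range (β + r + 1 - β), X.q ^ (2 * t + 4 + δ) * qi X.q (β + 1) *
        qi X.q (δ + 1) * X.e (t + β + δ + 4) * X.yy c d ((β + r : ℕ) - β - δ - 2) =
      qi X.q (β + 1) * ∑ δ ∈ range (β + r + 1 - β), X.q ^ (2 * t + 4 + δ) *
        qi X.q (δ + 1) * X.e (t + β + δ + 4) * X.yy c d ((β + r : ℕ) - β - δ - 2) := by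
    rw [mul_sum]
    exact sum_congr rfl fun δ _ => by ring
  rw [i1, i2]
  generalize (∑ δ ∈ range (β + r + 1 - β), X.q ^ (2 * t + 4 + δ) *
        qi X.q (δ + 1) * X.e (t + β + δ + 4) * X.yy c d ((β + r : ℕ) - β - δ - 2)) = S
  rw [X.hh_q' (a := 1 / (X.q * (X.q * 1))) (b := 1 / (X.q * 1)) (by field_simp),
    X.hh_q' (a := 1 / 1) (b := X.q * 1 / 1) (by ring),
    X.hh_q' (a := 1 / (X.q * (X.q * (X.q * 1)))) (b := 1 / (X.q * (X.q * 1))) (by field_simp),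
    hh_same, show (((β + r : ℕ) : ℤ) - β - 1 + 1).toNat = r by omega,
    show β + r - β = r by omega, show t + (β + r) - β = t + r by omega,
    show t + (β + r) + 1 - β = t + r + 1 by omega,
    show ((β + r : ℕ) : ℤ) - β - 1 + (t + β + 1) + 2 = t + (β + r : ℕ) + 2 by ring,
    show ((β + r : ℕ) : ℤ) - β = r by omega]
  simp only [e, yy, zpow_natCast, div_pow, one_pow, mul_one, zpow_sub₀ hq0, zpow_add₀ hq0,
    mul_zpow, one_zpow, zpow_ofNat, show 2 * (t : ℤ) = t + t by ring]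
  field_simp
  ring

theorem KY_pos (n : ℤ) (t : ℕ) : X.C2s (fun p => X.K2 (fun p => X.yy p.1 p.2 n) t (X.w2 p.1 p.2)) := by
  have hq0 := X.q0
  have hq1 := X.q1
  have hne : (X.q - 1) ^ 2 * (X.q + 1) ≠ 0 := mul_ne_zero (pow_ne_zero _ hq1) X.q2
  rcases lt_or_ge n 0 with hn | hn
  · refine Sp.zero.congr fun p _ => ?_
    simp [K2, X.yy_neg _ _ hn]
  obtain ⟨n, rfl⟩ := Int.eq_ofNat_of_zero_le hn
  rcases lt_or_ge t n with ht | ht
  · obtain ⟨r, rfl⟩ : ∃ r, n = t + r + 1 := ⟨n - t - 1, by omega⟩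
    choose ξ h1 h2 using X.Xi r
    have A : ∀ γ ∈ range (t + 1), X.C2s (fun p =>
        X.q ^ (2 * t + 1 - γ) * qi X.q (r + 1 + 2 * γ) * X.UU (t + 1 - γ) (t + (t + r + 1 : ℕ) + 2)
          p.1 p.2 + ∑ δ ∈ range (t + 1 - γ), X.q ^ γ * qi X.q (γ + 1) *
        qi X.q (δ + 1) * X.q ^ (2 * (t - γ - δ)) * X.e (t - γ - δ) *
          X.yy p.1 p.2 ((t + r + 1 : ℕ) + γ + δ + 2) +
        X.q ^ (2 * t + 4) * ξ γ * X.e ((t + r + 1 : ℕ) + γ + 2) * X.yy p.1 p.2 (t - γ)) := by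
      intro γ hγ
      have := mem_range.mp hγ
      refine Sp.add (Sp.add (X.UU_C2s _ _ _ (by omega) fun j hj => ?_)
        (Sp.sum _ _ fun δ _ => (X.yy_C2s _).smul _ ?_)) ((X.yy_C2s _).smul _ ?_)
      · rw [mul_right_comm]
        exact X.L.mul_mem (X.pw_mem _ _ (by omega)) (X.qp (by omega))
      · exact X.L.mul_mem (X.L.mul_mem (X.L.mul_mem (X.L.mul_mem (X.np _) (X.qp (by omega)))
          (X.qp (by omega))) (X.np _)) (X.e_mem _)
      · exact X.L.mul_mem (X.L.mul_mem (X.np _) (h1 γ)) (X.e_mem _)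
    refine (Sp.sum _ _ A).congr fun p hp => ?_
    apply mul_left_cancel₀ hne
    rw [X.KY_formula1 _ t hp.1 hp.2, mul_sum]
    refine sum_congr rfl fun γ hγ => ?_
    obtain ⟨s, rfl⟩ : ∃ s, t = γ + s := ⟨t - γ, by have := mem_range.mp hγ; omega⟩
    have e1 : (X.q - 1) * qi X.q (r + 1 + 2 * γ) = X.q ^ (r + 1 + 2 * γ) - 1 := by
      rw [qi, show (r : ℤ) + 1 + 2 * γ = (r + 1 + 2 * γ : ℕ) by push_cast; ring, zpow_natCast]
      field_simp
    rw [show 2 * (γ + s) + 1 - γ = γ + 2 * s + 1 by omega]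
    linear_combination (X.q - 1) * (X.q + 1) * X.q ^ (γ + 2 * s + 1) *
      X.UU (γ + s + 1 - γ) ((γ + s : ℕ) + (γ + s + r + 1 : ℕ) + 2) p.1 p.2 * e1 +
      X.q ^ (2 * (γ + s) + 4) * X.e ((γ + s + r + 1 : ℕ) + γ + 2) *
        X.yy p.1 p.2 ((γ + s : ℕ) - γ) * h2 γ
  · obtain ⟨r, rfl⟩ : ∃ r, t = n + r := ⟨t - n, by omega⟩
    choose ξ h1 h2 using X.Xi (r + 1)
    have A : ∀ β ∈ range (n + 1), X.C2s (fun p =>
        X.q ^ (n + r + n - β) * qi X.q (r + 2 + 2 * β) * X.UU (n - β) ((n + r : ℕ) + n + 2)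
          p.1 p.2 + ∑ δ ∈ range (n + 1 - β), X.q ^ (2 * (n + r) + 4 + δ) * qi X.q (β + 1) *
        qi X.q (δ + 1) * X.e ((n + r : ℕ) + β + δ + 4) * X.yy p.1 p.2 (n - β - δ - 2) +
        X.q ^ (2 * (n - β)) * ξ β * X.e (n - β) * X.yy p.1 p.2 ((n + r : ℕ) + β + 2)) := by
      intro β hβ
      have := mem_range.mp hβ
      refine Sp.add (Sp.add (X.UU_C2s _ _ _ (by omega) fun j hj => ?_)
        (Sp.sum _ _ fun δ _ => (X.yy_C2s _).smul _ ?_)) ((X.yy_C2s _).smul _ ?_)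
      · rw [mul_right_comm]
        exact X.L.mul_mem (X.pw_mem _ _ (by omega)) (X.qp (by omega))
      · exact X.L.mul_mem (X.L.mul_mem (X.L.mul_mem (X.np _) (X.qp (by omega)))
          (X.qp (by omega))) (X.e_mem _)
      · exact X.L.mul_mem (X.L.mul_mem (X.np _) (h1 β)) (X.e_mem _)
    refine (Sp.sum _ _ A).congr fun p hp => ?_
    apply mul_left_cancel₀ hne
    rw [X.KY_formula2 _ _ hp.1 hp.2, mul_sum]
    refine sum_congr rfl fun β hβ => ?_
    obtain ⟨s, rfl⟩ : ∃ s, n = β + s := ⟨n - β, by have := mem_range.mp hβ; omega⟩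
    have e1 : (X.q - 1) * qi X.q (r + 2 + 2 * β) = X.q ^ (r + 2 + 2 * β) - 1 := by
      rw [qi, show (r : ℤ) + 2 + 2 * β = (r + 2 + 2 * β : ℕ) by push_cast; ring, zpow_natCast]
      field_simp
    rw [show β + s + r + (β + s) - β = β + 2 * s + r by omega, show β + s - β = s by omega,
      show β + s + r + (β + s) + 1 - β = β + 2 * s + r + 1 by omega,
      show 2 * ((β + s + r : ℕ) : ℤ) + 3 - β = (β + 2 * s + 2 * r + 3 : ℕ) by push_cast; ring,
      zpow_natCast]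
    linear_combination (X.q - 1) * (X.q + 1) * X.q ^ (β + 2 * s + r) *
      X.UU s ((β + s + r : ℕ) + (β + s : ℕ) + 2) p.1 p.2 * e1 +
      X.q ^ (2 * s) * X.e ((β + s : ℕ) - β) * X.yy p.1 p.2 ((β + s + r : ℕ) + β + 2) * h2 β

end Ctx

end Pool.Agent.P.MP_389f6f_co
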