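import Pool.Agent.P.MP_389f6f_co.QDefs

/-! Coefficients of a product of independence polynomials. -/

set_option autoImplicit false

namespace Pool.Agent.P.MP_389f6f_co.Qt
open Finset

namespace ExpA
variable {Λ K : Type} [AddCommGroup Λ] [CommRing K] (Q : QD Λ K) (δ : Λ →+ ℤ)

theorem prodexp {A : Type} (S : Finset A) (ν : A → Λ) (n : ℕ) : ∀ c : Fin n → A → K,
    (List.ofFn fun s => ∑ a ∈ S, c s a • (NS.z (ν a) : NS Q δ)).prod =
      ∑ F ∈ Fintype.piFinset (fun _ : Fin n => S),
        ((∏ s, c s (F s)) *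
          Q.tp (∑ s, ∑ s', if s < s' then Q.ω (ν (F s)) (ν (F s')) else 0)) •
          (NS.z (∑ s, ν (F s)) : NS Q δ) := by
  induction n with
  | zero => intro c; simp [NS.one_eq]
  | succ n ih =>
    intro c
    rw [List.ofFn_succ, List.prod_cons, ih (fun s => c s.succ), sum_mul_sum, ← sum_product']
    refine sum_nbij' (fun p => Fin.cons p.1 p.2) (fun F => (F 0, Fin.tail F)) ?_ ?_ ?_ ?_ ?_
    · intro p hp
      rw [mem_product] at hp
      rw [Fintype.mem_piFinset]
      intro s
      refine Fin.cases ?_ (fun s => ?_) s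
      · simpa using hp.1
      · simpa using Fintype.mem_piFinset.mp hp.2 s
    · intro F hF
      rw [Fintype.mem_piFinset] at hF
      exact mem_product.mpr ⟨hF 0, Fintype.mem_piFinset.mpr fun s => hF s.succ⟩
    · intro p _
      simp
    · intro F _
      simp
    · intro p _
      rw [smul_mul_smul_comm, NS.z_mul_z, smul_smul]
      simp only [Fin.prod_univ_succ, Fin.sum_univ_succ, Fin.cons_zero, Fin.cons_succ,
        if_false, Fin.succ_pos, if_true, Fin.not_lt_zero,
        Fin.succ_lt_succ_iff, zero_add, map_sum, Q.tp_add]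
      congr 1
      ring

variable {W U : Type} [Fintype U] {n : ℕ}

open Classical in
/-- the sets attached to a family of colour sets -/
noncomputable def toF (e : U → W) (γ : U → Finset (Fin n)) (s : Fin n) : Finset W :=
  (univ.filter fun u => s ∈ γ u).image e

open Classical in
/-- the colour sets attached to a family of sets -/
noncomputable def toG (e : U → W) (F : Fin n → Finset W) (u : U) : Finset (Fin n) :=
  univ.filter fun s => e u ∈ F s

theorem mem_toF {e : U → W} {γ : U → Finset (Fin n)} {s : Fin n} {v : W} :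
    v ∈ toF e γ s ↔ ∃ u, s ∈ γ u ∧ e u = v := by
  simp [toF]

omit [Fintype U] in
theorem mem_toG {e : U → W} {F : Fin n → Finset W} {s : Fin n} {u : U} :
    s ∈ toG e F u ↔ e u ∈ F s := by
  simp [toG]

theorem sum_toF {M : Type} [AddCommMonoid M] {e : U → W} (he : Function.Injective e)
    (γ : U → Finset (Fin n)) (s : Fin n) (f : W → M) :
    ∑ v ∈ toF e γ s, f v = ∑ u, if s ∈ γ u then f (e u) else 0 := by
  classical
  rw [toF, sum_image fun a _ b _ h => he h, sum_filter]

theorem tot_toF {e : U → W} (he : Function.Injective e) (γ : U → Finset (Fin n))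
    (vec : W → Λ) : ∑ s, ∑ v ∈ toF e γ s, vec v = ∑ u, (γ u).card • vec (e u) := by
  simp only [sum_toF he]
  rw [sum_comm]
  refine sum_congr rfl fun u _ => ?_
  rw [← sum_filter, sum_const]
  simp

theorem prod_toF {e : U → W} (he : Function.Injective e) (γ : U → Finset (Fin n))
    (x : Fin n → K) : ∏ s, x s ^ (toF e γ s).card = ∏ u, ∏ a ∈ γ u, x a := by
  have h : ∀ s, x s ^ (toF e γ s).card = ∏ u, if s ∈ γ u then x s else 1 := by
    intro s
    rw [card_eq_sum_ones, sum_toF he, ← prod_pow_eq_pow_sum]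
    exact prod_congr rfl fun u _ => by split_ifs <;> simp
  simp only [h]
  rw [prod_comm]
  refine prod_congr rfl fun u _ => ?_
  rw [← prod_filter]
  simp

theorem om_toF {e : U → W} (he : Function.Injective e) (γ : U → Finset (Fin n))
    (vec : W → Λ) :
    (∑ s, ∑ s', if s < s' then Q.ω (∑ v ∈ toF e γ s, vec v) (∑ v ∈ toF e γ s', vec v) else 0) =
      ∑ u, ∑ u', Q.ω (vec (e u)) (vec (e u')) *
        (((γ u ×ˢ γ u').filter fun p => p.1 < p.2).card : ℤ) := by
  have h1 : ∀ s s' : Fin n,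
      (if s < s' then Q.ω (∑ v ∈ toF e γ s, vec v) (∑ v ∈ toF e γ s', vec v) else 0) =
      ∑ u, ∑ u', if s ∈ γ u ∧ s' ∈ γ u' ∧ s < s' then Q.ω (vec (e u)) (vec (e u')) else 0 := by
    intro s s'
    by_cases h : s < s'
    · rw [if_pos h, sum_toF he, sum_toF he, map_sum Q.ω, AddMonoidHom.finsetSum_apply]
      refine sum_congr rfl fun u _ => ?_
      rw [map_sum]
      refine sum_congr rfl fun u' _ => ?_
      by_cases a : s ∈ γ u <;> by_cases b : s' ∈ γ u' <;> simp [a, b, h]
    · simp [h]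
  have h2 : ∀ u u', Q.ω (vec (e u)) (vec (e u')) *
      (((γ u ×ˢ γ u').filter fun p => p.1 < p.2).card : ℤ) =
      ∑ s, ∑ s', if s ∈ γ u ∧ s' ∈ γ u' ∧ s < s' then Q.ω (vec (e u)) (vec (e u')) else 0 := by
    intro u u'
    rw [← sum_product', ← sum_filter, sum_const, nsmul_eq_mul, mul_comm]
    congr 3
    ext p
    simp [and_assoc]
  simp only [h1, h2]
  rw [← sum_product', ← sum_product' (s := (univ : Finset U))]
  simp only [← sum_product' (s := (univ : Finset U)), ← sum_product' (s := (univ : Finset (Fin n)))]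
  exact sum_comm

open Classical in
theorem count {V : Finset W} {vec : W → Λ} {e : U → W} {w : U → ℕ} (heV : ∀ u, e u ∈ V)
    (hd : ∀ v ∈ V, ∃ φ : Λ →+ ℤ, ∀ v' ∈ V, φ (vec v') = if v' = v then 1 else 0)
    {F : Fin n → Finset W} (hF : ∀ s, F s ⊆ V)
    (h : ∑ u, w u • vec (e u) = ∑ s, ∑ v ∈ F s, vec v) {v : W} (hv : v ∈ V) :
    (univ.filter fun s => v ∈ F s).card = ∑ u, if e u = v then w u else 0 := by
  obtain ⟨φ, hφ⟩ := hd v hv
  have h1 := congrArg φ h
  simp only [map_sum, map_nsmul] at h1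
  have h2 : ∀ s, ∑ v' ∈ F s, φ (vec v') = if v ∈ F s then 1 else 0 := by
    intro s
    rw [sum_congr rfl fun v' hv' => hφ v' (hF s hv'), sum_ite_eq']
  simp only [h2, hφ _ (heV _)] at h1
  have h3 : ((univ.filter fun s => v ∈ F s).card : ℤ) =
      ((∑ u, if e u = v then w u else 0 : ℕ) : ℤ) := by
    rw [card_filter]
    push_cast
    rw [← h1]
    exact sum_congr rfl fun u _ => by split_ifs <;> simp
  exact_mod_cast h3

end ExpA
open ExpA

theorem t_exp : T_EXP := by
  classical
  intro Λ K _ _ Q δ W U _ V vec adj e w n x he heV _ hd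
  have h0 : FP Q δ V vec adj (List.ofFn x) = (List.ofFn fun s => IP Q δ V vec adj (x s)).prod := by
    rw [FP, List.map_ofFn]; rfl
  rw [h0]
  simp only [IP]
  generalize hS : @Finset.filter (Finset W) _ (_) V.powerset = S
  have hm : ∀ A, A ∈ S ↔ A ⊆ V ∧ ∀ a ∈ A, ∀ b ∈ A, ¬adj a b := by
    intro A
    rw [← hS]
    simp only [mem_filter, mem_powerset]
  rw [prodexp Q δ _ (fun A : Finset W => ∑ v ∈ A, vec v) n fun s A => x s ^ A.card, NS.sum_co]
  simp only [NS.smul_co, NS.z_co, mul_ite, mul_one, mul_zero]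
  rw [← sum_filter]
  symm
  refine sum_nbij' (toF e) (toG e) ?_ ?_ ?_ ?_ ?_
  · intro γ hγ
    obtain ⟨h1, h2⟩ := (mem_filter.mp hγ).2
    refine mem_filter.mpr ⟨Fintype.mem_piFinset.mpr fun s => (hm _).mpr ⟨?_, ?_⟩, ?_⟩
    · intro v hv
      obtain ⟨u, -, rfl⟩ := mem_toF.mp hv
      exact heV u
    · intro a ha b hb hab
      obtain ⟨u, hu, rfl⟩ := mem_toF.mp ha
      obtain ⟨u', hu', rfl⟩ := mem_toF.mp hb
      exact disjoint_left.mp (h2 u u' hab) hu hu'
    · rw [tot_toF he]
      simp only [h1]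
  · intro F hF
    obtain ⟨h1, h2⟩ := mem_filter.mp hF
    have h3 := fun s => (hm _).mp (Fintype.mem_piFinset.mp h1 s)
    refine mem_filter.mpr ⟨mem_univ _, fun u => ?_, fun u u' h => ?_⟩
    · have := count heV hd (fun s => (h3 s).1) h2 (heV u)
      simp only [he.eq_iff, sum_ite_eq', mem_univ, if_true] at this
      rw [← this, toG]
    · exact disjoint_left.mpr fun s a b => (h3 s).2 _ (mem_toG.mp a) _ (mem_toG.mp b) h
  · intro γ _
    funext u
    ext s
    rw [mem_toG, mem_toF]
    exact ⟨fun ⟨u', a, b⟩ => he b ▸ a, fun a => ⟨u, a, rfl⟩⟩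
  · intro F hF
    obtain ⟨h1, h2⟩ := mem_filter.mp hF
    have h3 := fun s => ((hm _).mp (Fintype.mem_piFinset.mp h1 s)).1
    funext s
    ext v
    rw [mem_toF]
    constructor
    · rintro ⟨u, a, rfl⟩
      exact mem_toG.mp a
    · intro a
      have := count heV hd h3 h2 (h3 s a)
      by_contra hc
      rw [sum_eq_zero fun u _ => if_neg fun b : e u = v => hc ⟨u, mem_toG.mpr (b ▸ a), b⟩,
        card_eq_zero, filter_eq_empty_iff] at this
      exact this (mem_univ s) a
  · intro γ _
    rw [prod_toF he, om_toF Q he, mul_comm]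

end Pool.Agent.P.MP_389f6f_co.Qt
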