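import Pool.Agent.P.MP_389f6f_co.QDefs

/-! From positivity in the quantum torus to positivity in the elementary symmetric basis. -/

set_option autoImplicit false

namespace Pool.Agent.P.MP_389f6f_co.Qt
open Finset

namespace GlueA

section ring
variable (n : ℕ)

abbrev AA := MvPolynomial (Fin n) (Polynomial ℤ)

abbrev RL := LaurentSeries ℚ

abbrev KK := MvPolynomial (Fin n) RL

/-- monomials in `q` and the elementary symmetric polynomials -/
noncomputable def Mon : Submonoid (AA n) where
  carrier := {p | ∃ (a : ℕ) (M : Multiset ℕ), (∀ i ∈ M, 0 < i) ∧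
    p = MvPolynomial.C (Polynomial.X ^ a) *
      (M.map fun k => MvPolynomial.esymm (Fin n) (Polynomial ℤ) k).prod}
  one_mem' := ⟨0, 0, by simp, by simp⟩
  mul_mem' := by
    rintro _ _ ⟨a, M, h, rfl⟩ ⟨b, M', h', rfl⟩
    refine ⟨a + b, M + M', fun i hi => ?_, ?_⟩
    · rcases Multiset.mem_add.mp hi with hi | hi
      exacts [h i hi, h' i hi]
    · rw [pow_add, map_mul, Multiset.map_add, Multiset.prod_add]; ring

theorem prodX_hom (T : Finset (Fin n)) :
    (∏ a ∈ T, (MvPolynomial.X a : AA n)).IsHomogeneous T.card := by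
  have := MvPolynomial.IsHomogeneous.prod T (fun a => (MvPolynomial.X a : AA n)) (fun _ => 1)
    fun a _ => MvPolynomial.isHomogeneous_X _ a
  simpa using this

theorem esymm_hom (k : ℕ) : (MvPolynomial.esymm (Fin n) (Polynomial ℤ) k).IsHomogeneous k := by
  refine MvPolynomial.IsHomogeneous.sum _ _ _ fun T hT => ?_
  have := prodX_hom n T
  rwa [(mem_powersetCard.mp hT).2] at this

theorem eprod_hom (M : Multiset ℕ) :
    (M.map fun k => MvPolynomial.esymm (Fin n) (Polynomial ℤ) k).prod.IsHomogeneous M.sum := by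
  induction M using Multiset.induction_on with
  | empty => simpa using MvPolynomial.isHomogeneous_one _ _
  | cons a M ih =>
    rw [Multiset.map_cons, Multiset.prod_cons, Multiset.sum_cons]
    exact (esymm_hom n a).mul ih

theorem epos_of_mem {d : ℕ} {p : AA n} (hp : p ∈ (Mon n).subsemiringClosure)
    (hh : p.IsHomogeneous d) : ∃ c : Nat.Partition d → Polynomial ℤ, (∀ μ k, 0 ≤ (c μ).coeff k) ∧
      p = ∑ μ : Nat.Partition d, MvPolynomial.C (c μ) *
        (μ.parts.map (fun k => MvPolynomial.esymm (Fin n) (Polynomial ℤ) k)).prod := by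
  classical
  rw [← MvPolynomial.homogeneousComponent_eq_self hh]
  clear hh
  rw [Submonoid.subsemiringClosure_mem] at hp
  induction hp using AddSubmonoid.closure_induction with
  | zero => exact ⟨0, by simp, by simp⟩
  | add p p' _ _ h1 h2 =>
    obtain ⟨c, hc, e⟩ := h1
    obtain ⟨c', hc', e'⟩ := h2
    refine ⟨c + c', fun μ k => ?_, ?_⟩
    · rw [Pi.add_apply, Polynomial.coeff_add]; exact add_nonneg (hc μ k) (hc' μ k)
    · rw [map_add, e, e', ← sum_add_distrib]
      exact sum_congr rfl fun μ _ => by rw [Pi.add_apply, map_add, add_mul]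
  | mem p hp =>
    obtain ⟨a, M, hM, rfl⟩ := hp
    rw [MvPolynomial.homogeneousComponent_of_mem ((eprod_hom n M).C_mul _)]
    split_ifs with h
    · refine ⟨Pi.single ⟨M, fun hi => hM _ hi, h.symm⟩ (Polynomial.X ^ a), fun μ k => ?_, ?_⟩
      · rw [Pi.single_apply]
        split_ifs
        · rw [Polynomial.coeff_X_pow]; split_ifs <;> simp
        · simp
      · rw [sum_eq_single ⟨M, fun hi => hM _ hi, h.symm⟩ (fun μ _ hμ => by
          rw [Pi.single_eq_of_ne hμ]; simp) (by simp), Pi.single_eq_same]
    · exact ⟨0, by simp, by simp⟩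

/-- the deformation parameter -/
noncomputable def tt : (KK n)ˣ :=
  Units.map (MvPolynomial.C : RL →+* KK n).toMonoidHom
    (Units.mk0 (HahnSeries.single (1 : ℤ) (1 : ℚ)) (by simp))

theorem tt_zpow (k : ℤ) :
    ((tt n ^ k : (KK n)ˣ) : KK n) = MvPolynomial.C (HahnSeries.single k (1 : ℚ)) := by
  rw [tt, ← map_zpow, RatFunc.single_zpow k, Units.coe_map, Units.val_zpow_eq_zpow_val]
  rfl

/-- substitution of the square of the parameter -/
noncomputable def io : PowerSeries ℚ →+* KK n :=
  (MvPolynomial.C : RL →+* KK n).comp ((HahnSeries.embDomainRingHom (zsmulAddGroupHom 2 : ℤ →+ ℤ)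
    (fun a b h => by simpa using h) (fun a b => by simp)).comp (HahnSeries.ofPowerSeries ℤ ℚ))

theorem io_X : io n PowerSeries.X = (tt n : KK n) ^ 2 := by
  have h := tt_zpow n 2
  rw [zpow_ofNat, Units.val_pow_eq_pow_val] at h
  rw [h, io, RingHom.comp_apply, RingHom.comp_apply, HahnSeries.ofPowerSeries_X]
  exact congrArg _ HahnSeries.embDomain_single

/-- series with nonnegative coefficients -/
def P0 : Subsemiring RL where
  carrier := {r | ∀ k, 0 ≤ r.coeff k}
  zero_mem' _ := le_rfl
  one_mem' k := by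
    rw [HahnSeries.coeff_one]
    split_ifs <;> simp
  add_mem' h h' k := add_nonneg (h k) (h' k)
  mul_mem' h h' k := by
    rw [HahnSeries.coeff_mul]
    exact sum_nonneg fun _ _ => mul_nonneg (h _) (h' _)

theorem single_mem (k : ℤ) : HahnSeries.single k (1 : ℚ) ∈ P0 := fun j => by
  rw [HahnSeries.coeff_single]
  split_ifs <;> simp

/-- polynomials with nonnegative coefficients -/
def L0 : Subsemiring (KK n) where
  carrier := {f | ∀ m, f.coeff m ∈ P0}
  zero_mem' _ := P0.zero_mem
  one_mem' m := by
    classical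
    rw [MvPolynomial.coeff_one]
    split_ifs
    exacts [P0.one_mem, P0.zero_mem]
  add_mem' h h' m := by
    rw [MvPolynomial.coeff_add]
    exact P0.add_mem (h m) (h' m)
  mul_mem' h h' m := by
    classical
    rw [MvPolynomial.coeff_mul]
    exact P0.sum_mem fun _ _ => P0.mul_mem (h _) (h' _)

theorem monomial_mem (d : Fin n →₀ ℕ) {r : RL} (hr : r ∈ P0) :
    MvPolynomial.monomial d r ∈ L0 n := fun m => by
  classical
  rw [MvPolynomial.coeff_monomial]
  split_ifs
  exacts [hr, P0.zero_mem]

theorem L0_pointed : ∀ a ∈ L0 n, -a ∈ L0 n → a = 0 := fun a h h' => by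
  ext m k
  have h1 := h' m k
  rw [MvPolynomial.coeff_neg, HahnSeries.coeff_neg] at h1
  exact le_antisymm (neg_nonneg.1 h1) (h m k)

/-- monomials in the parameter and the elementary symmetric polynomials -/
noncomputable def Mon' : Submonoid (KK n) where
  carrier := {p | ∃ (a : ℤ) (M : Multiset ℕ), (∀ i ∈ M, 0 < i) ∧
    p = MvPolynomial.C (HahnSeries.single a (1 : ℚ)) *
      (M.map fun k => MvPolynomial.esymm (Fin n) RL k).prod}
  one_mem' := ⟨0, 0, by simp, by simp⟩
  mul_mem' := by
    rintro _ _ ⟨a, M, h, rfl⟩ ⟨b, M', h', rfl⟩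
    refine ⟨a + b, M + M', fun i hi => ?_, ?_⟩
    · rcases Multiset.mem_add.mp hi with hi | hi
      exacts [h i hi, h' i hi]
    · have e : (HahnSeries.single (a + b) (1 : ℚ) : RL) =
          HahnSeries.single a 1 * HahnSeries.single b 1 := by
        rw [HahnSeries.single_mul_single, one_mul]
      rw [e, map_mul, Multiset.map_add, Multiset.prod_add]; ring

theorem esymm_mem (k : ℕ) : MvPolynomial.esymm (Fin n) RL k ∈ (Mon' n).subsemiringClosure := by
  rcases Nat.eq_zero_or_pos k with rfl | h
  · rw [MvPolynomial.esymm_zero]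
    exact one_mem _
  · exact AddSubmonoid.subset_closure ⟨0, {k}, by simpa using h, by simp⟩

theorem single_mem' (k : ℤ) :
    MvPolynomial.C (HahnSeries.single k (1 : ℚ)) ∈ (Mon' n).subsemiringClosure :=
  AddSubmonoid.subset_closure ⟨k, 0, by simp, by simp⟩

/-- `q ↦ t ^ 2` -/
noncomputable def r0 : Polynomial ℤ →+* RL :=
  Polynomial.eval₂RingHom (Int.castRingHom RL) (HahnSeries.single 2 1)

theorem cast_eq (c : ℤ) : (c : RL) = HahnSeries.single 0 (c : ℚ) :=
  (map_intCast (HahnSeries.C : ℚ →+* RL) c).symm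

theorem r0_X_pow (a : ℕ) : r0 (Polynomial.X ^ a) = HahnSeries.single (2 * (a : ℤ)) 1 := by
  simp [r0, HahnSeries.single_pow, mul_comm]

theorem r0_coeff (p : Polynomial ℤ) (k : ℕ) : (r0 p).coeff (2 * (k : ℤ)) = p.coeff k := by
  induction p using Polynomial.induction_on' with
  | add p q h1 h2 => simp [h1, h2]
  | monomial i a =>
    rw [← Polynomial.C_mul_X_pow_eq_monomial, map_mul, r0_X_pow, eq_intCast, map_intCast, cast_eq,
      HahnSeries.single_mul_single, HahnSeries.coeff_single, ← eq_intCast Polynomial.C,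
      Polynomial.coeff_C_mul_X_pow]
    by_cases h : k = i
    · simp [h]
    · rw [if_neg (by omega), if_neg h, Int.cast_zero]

theorem extract {p : AA n} (hp : MvPolynomial.map r0 p ∈ (Mon' n).subsemiringClosure) :
    p ∈ (Mon n).subsemiringClosure := by
  have key : ∀ f ∈ AddSubmonoid.closure (Mon' n : Set (KK n)),
      ∃ f' ∈ (Mon n).subsemiringClosure, ∀ (m : Fin n →₀ ℕ) (k : ℕ),
        (((f'.coeff m).coeff k : ℤ) : ℚ) = (f.coeff m).coeff (2 * (k : ℤ)) := by
    intro f hf
    induction hf using AddSubmonoid.closure_induction with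
    | zero => exact ⟨0, zero_mem _, by simp⟩
    | add f g _ _ h1 h2 =>
      obtain ⟨f', a1, a2⟩ := h1
      obtain ⟨g', b1, b2⟩ := h2
      exact ⟨f' + g', add_mem a1 b1, fun m k => by simp [a2, b2]⟩
    | mem f hf =>
      obtain ⟨a, M, hM, rfl⟩ := hf
      by_cases h : ∃ b : ℕ, a = 2 * b
      · obtain ⟨b, rfl⟩ := h
        refine ⟨_, AddSubmonoid.subset_closure ⟨b, M, hM, rfl⟩, fun m k => ?_⟩
        rw [← r0_coeff, ← MvPolynomial.coeff_map, map_mul, MvPolynomial.map_C, r0_X_pow,
          map_multiset_prod, Multiset.map_map]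
        simp only [Function.comp_def, MvPolynomial.map_esymm]
      · refine ⟨0, zero_mem _, fun m k => ?_⟩
        have e : (M.map fun k => MvPolynomial.esymm (Fin n) RL k).prod =
            MvPolynomial.map (Int.castRingHom RL)
              (M.map fun k => MvPolynomial.esymm (Fin n) ℤ k).prod := by
          rw [map_multiset_prod, Multiset.map_map]
          simp only [Function.comp_def, MvPolynomial.map_esymm]
        rw [e, MvPolynomial.coeff_C_mul, MvPolynomial.coeff_map, eq_intCast, cast_eq,
          HahnSeries.single_mul_single, HahnSeries.coeff_single,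
          if_neg fun h' => h ⟨k, by omega⟩]
        simp
  obtain ⟨f', h1, h2⟩ := key _ hp
  have : f' = p := by
    ext m k
    have h3 := h2 m k
    rw [MvPolynomial.coeff_map, r0_coeff] at h3
    exact_mod_cast h3
  exact this ▸ h1

end ring

theorem wt_sum (V : Finset ℕ) :
    ∑ u ∈ V, (u - (V.filter fun j => j < u).sup id) = V.sup id := by
  induction V using Finset.induction_on_max with
  | empty => rfl
  | insert a s h ih =>
    have ha : a ∉ s := fun h' => lt_irrefl _ (h a h')
    have h1 : (insert a s).filter (fun j => j < a) = s := by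
      rw [filter_insert, if_neg (lt_irrefl a), filter_true_of_mem h]
    have h2 : s.sup id ≤ a := Finset.sup_le fun j hj => (h j hj).le
    rw [sum_insert ha, h1, sup_insert, sum_congr rfl fun u hu => by
      rw [filter_insert, if_neg (h u hu).not_gt], ih]
    rw [id, sup_eq_left.2 h2]
    omega

theorem pair_count {n : ℕ} {A B : Finset (Fin n)} (h : Disjoint A B) :
    ((A ×ˢ B).filter fun p => p.1 < p.2).card + ((B ×ˢ A).filter fun p => p.1 < p.2).card =
      A.card * B.card := by
  rw [card_filter, card_filter, sum_product, sum_product, sum_comm (s := B), ← sum_add_distrib,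
    ← smul_eq_mul, ← sum_const]
  refine sum_congr rfl fun a ha => ?_
  rw [← sum_add_distrib, card_eq_sum_ones]
  refine sum_congr rfl fun b hb => ?_
  have : a ≠ b := fun e => disjoint_left.1 h ha (e ▸ hb)
  rcases lt_or_gt_of_ne this with h' | h'
  · simp [h', h'.not_gt]
  · simp [h', h'.not_gt]

theorem expo {U : Type} [Fintype U] (a : U → U → Prop) [DecidableRel a] (N ω : U → U → ℤ)
    (w : U → ℤ) (hω : ∀ u v, ω u v = (if a u v then 1 else 0) - if a v u then 1 else 0)
    (hN : ∀ u v, a u v → N u v + N v u = w u * w v) :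
    (∑ u, ∑ v, if a u v then w u * w v else 0) + ∑ u, ∑ v, ω u v * N u v =
      2 * ∑ u, ∑ v, if a u v then N u v else 0 := by
  simp only [hω, sub_mul, sum_sub_distrib, ite_mul, one_mul, zero_mul]
  rw [sum_comm (f := fun u v => if a v u then N u v else 0), ← sum_sub_distrib, ← sum_add_distrib,
    mul_sum]
  refine sum_congr rfl fun u _ => ?_
  rw [← sum_sub_distrib, ← sum_add_distrib, mul_sum]
  refine sum_congr rfl fun v _ => ?_
  split_ifs with h
  · rw [← hN u v h]
    ring
  · simp

end GlueA

open GlueA in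
theorem t_glue : T_GLUE := by
  classical
  intro model emb H n I h _ hI _ h2
  obtain ⟨p, x, hp, hx⟩ := emb (insert n I) h h2
  obtain ⟨Λ, _, Q, hQ, ⟨T⟩⟩ := model (KK n) (tt n) (io n) (io_X n) p hp
  obtain ⟨hexp, hT⟩ := H Λ (KK n) Q
  obtain ⟨tb, main⟩ := hT p T
  have htp : ∀ k, Q.tp k = MvPolynomial.C (HahnSeries.single k (1 : ℚ)) := fun k => by
    rw [QD.tp, hQ, tt_zpow]
  let m := (insert n I).sup x
  have dual : ∀ v ∈ range (m * (p + 1) + 1), ∃ φ : Λ →+ ℤ, ∀ v' ∈ range (m * (p + 1) + 1),
      φ (T.u v') = @ite _ (v' = v) (Classical.propDecidable _) 1 0 := fun v _ =>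
    (tb.lift ℤ fun v' => @ite _ (v' = v) (Classical.propDecidable _) 1 0).imp fun φ h v' _ => h v'
  have irr : ∀ a, ¬adjP p a a := fun a h => h.1 rfl
  have hL := main m 0 (List.ofFn fun i : Fin n => (MvPolynomial.X i : KK n)) (L0 n)
    (Mon' n).subsemiringClosure (fun k => htp k ▸ monomial_mem n 0 (single_mem k))
    (fun k => htp k ▸ single_mem' n k)
    (fun y hy => by
      obtain ⟨i, rfl⟩ := List.mem_ofFn.1 hy
      exact monomial_mem n _ P0.one_mem) (L0_pointed n) (fun μ => by
      have e := hexp 0 ℕ (Fin (m + 1)) (range (m * (p + 1) + 1)) T.u (adjP p)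
        (fun j => j * (p + 1)) (fun j => μ j) n MvPolynomial.X
        (fun i j e => Fin.ext (Nat.eq_of_mul_eq_mul_right (Nat.succ_pos p) e))
        (fun j => mem_range.2 (Nat.lt_succ_of_le
          (Nat.mul_le_mul_right _ (Nat.le_of_lt_succ j.2)))) irr dual
      simp only [tb.uq, T.qq, zero_mul, sum_const_zero, QD.tp_zero, one_mul] at e
      rw [Td.F, ← Fin.sum_univ_eq_sum_range (fun j => μ j • T.q j), e]
      have e2 := prod_mem (S := (Mon' n).subsemiringClosure) (t := univ)
        fun (j : Fin (m + 1)) _ => esymm_mem n (μ j)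
      simp only [MvPolynomial.esymm, prod_univ_sum] at e2
      refine (congrArg (· ∈ _) (sum_congr ?_ fun _ _ => rfl)).mp e2
      ext γ
      simp only [Fintype.mem_piFinset, mem_powersetCard, subset_univ, true_and, mem_filter,
        mem_univ]
      refine ⟨fun h => ⟨h, fun u u' h' => ?_⟩, fun h => h.1⟩
      obtain ⟨a1, a2, a3⟩ := h'
      rcases lt_trichotomy (u : ℕ) u' with h' | h' | h'
      · have := Nat.mul_le_mul_right (p + 1) (Nat.succ_le_of_lt h')
        rw [Nat.succ_mul] at this
        omega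
      · exact absurd (by rw [h']) a1
      · have := Nat.mul_le_mul_right (p + 1) (Nat.succ_le_of_lt h')
        rw [Nat.succ_mul] at this
        omega)
  refine epos_of_mem n (extract n ?_) ?_
  · let a : {x // x ∈ insert n I} → {x // x ∈ insert n I} → Prop :=
      fun u v => (u : ℕ) < v ∧ (v : ℕ) ≤ h u
    let w : {x // x ∈ insert n I} → ℕ :=
      fun v => (v : ℕ) - ((insert n I).filter (fun j => j < (v : ℕ))).sup id
    have hω : ∀ u v : {x // x ∈ insert n I}, Q.ω (T.u (x u)) (T.u (x v)) =
        (if a u v then 1 else 0) - if a v u then 1 else 0 := by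
      have key : ∀ u v : {x // x ∈ insert n I}, (u : ℕ) < v →
          Q.ω (T.u (x u)) (T.u (x v)) = if a u v then 1 else 0 := fun u v huv => by
        obtain ⟨b1, b2⟩ := hx u u.2 v v.2 huv
        rw [tb.om _ _ b1]
        exact if_congr ⟨fun h => ⟨huv, b2.2 h⟩, fun h => b2.1 h.2⟩ rfl rfl
      intro u v
      rcases lt_trichotomy (u : ℕ) v with h' | h' | h'
      · rw [key u v h', if_neg (show ¬ a v u from fun h => h'.not_gt h.1), sub_zero]
      · rw [Subtype.ext h', Q.skew, sub_self]
      · rw [Q.anti, key v u h', if_neg (show ¬ a u v from fun h => h'.not_gt h.1), zero_sub]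
    have hadj : ∀ u v : {x // x ∈ insert n I}, adjP p (x u) (x v) ↔ a u v ∨ a v u := by
      intro u v
      simp only [adjP, a]
      rcases lt_trichotomy (u : ℕ) v with h' | h' | h'
      · have := hx u u.2 v v.2 h'
        omega
      · rw [h']
        omega
      · have := hx v v.2 u u.2 h'
        omega
    have e := hexp 0 ℕ {x // x ∈ insert n I} (range (m * (p + 1) + 1)) T.u (adjP p)
      (fun u => x u) w n MvPolynomial.X
      (fun u v e => by
        rcases lt_trichotomy (u : ℕ) v with h' | h' | h'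
        · exact absurd e (hx u u.2 v v.2 h').1.ne
        · exact Subtype.ext h'
        · exact absurd e (hx v v.2 u u.2 h').1.ne')
      (fun u => mem_range.2 (Nat.lt_succ_of_le ((le_sup (f := x) u.2).trans
        (Nat.le_mul_of_pos_right _ (Nat.succ_pos p))))) irr dual
    have e2 := mul_mem (single_mem' n (∑ u, ∑ v, if a u v then (w u : ℤ) * w v else 0))
      (hL (∑ u, w u • T.u (x u)))
    rw [Td.F, e, mul_sum, ← htp] at e2
    rw [map_sum]
    refine (congrArg (· ∈ _) (sum_congr ?_ fun γ hγ => Eq.symm ?_)).mpr e2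
    · ext γ
      simp only [mem_filter, mem_univ, true_and, hadj]
      refine and_congr_right fun _ => ⟨?_, fun h' u v c1 c2 => h' u v (Or.inl ⟨c1, c2⟩)⟩
      rintro h' u v (c | c)
      exacts [h' u v c.1 c.2, (h' v u c.1 c.2).symm]
    · obtain ⟨c1, c2⟩ := (mem_filter.1 hγ).2
      rw [← mul_assoc, ← QD.tp_add, expo a _ _ _ hω fun u v huv => by
        rw [← show _ = w u from c1 u, ← show _ = w v from c1 v]
        exact_mod_cast pair_count (c2 u v ((hadj u v).2 (Or.inl huv))), htp, map_mul, MvPolynomial.map_C,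
        r0_X_pow]
      simp only [map_prod, MvPolynomial.map_X, a, Nat.cast_sum, Nat.cast_ite, Nat.cast_zero]
  · refine MvPolynomial.IsHomogeneous.sum _ _ _ fun γ hγ => MvPolynomial.IsHomogeneous.C_mul ?_ _
    have := MvPolynomial.IsHomogeneous.prod univ _ _ fun v _ => prodX_hom n (γ v)
    rwa [sum_congr rfl fun v _ => (mem_filter.mp hγ).2.1 v, sum_coe_sort (insert n I)
      fun v => v - ((insert n I).filter (fun j => j < v)).sup id, wt_sum, sup_insert, id,
      sup_eq_left.2 (Finset.sup_le (f := id) fun j hj => (hI j hj).2.le)] at this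

end Pool.Agent.P.MP_389f6f_co.Qt
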