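import Pool.Agent.P.MP_389f6f_co.PtMain
import Pool.Agent.P.MP_389f6f_co.QExp
import Pool.Agent.P.MP_389f6f_co.QGlue

/-! Coefficients of the marked product. -/

set_option autoImplicit false

namespace Pool.Agent.P.MP_389f6f_co.Qt
open Finset

namespace Pt
open ExpA IpA

variable {Λ K : Type} [AddCommGroup Λ] [CommRing K] {Q : QD Λ K} {δ : Λ →+ ℤ}

open Classical in
theorem expc {W U : Type} [Fintype U] (V : Finset W) (vec : W → Λ) (adj : W → W → Prop)
    (e : U → W) (w : U → ℕ) {n : ℕ} (c : Fin n → Finset W → K) (he : Function.Injective e)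
    (heV : ∀ u, e u ∈ V)
    (hd : ∀ v ∈ V, ∃ φ : Λ →+ ℤ, ∀ v' ∈ V, φ (vec v') = if v' = v then 1 else 0)
    (S : Finset (Finset W)) (hm : ∀ A, A ∈ S ↔ A ⊆ V ∧ Ind adj A) :
    ((List.ofFn fun s => ∑ A ∈ S, c s A • (NS.z (∑ v ∈ A, vec v) : NS Q δ)).prod).co
        (∑ u, w u • vec (e u)) =
      ∑ γ ∈ (univ : Finset (U → Finset (Fin n))).filter (fun γ => (∀ u, (γ u).card = w u) ∧
          ∀ u u', adj (e u) (e u') → Disjoint (γ u) (γ u')),
        Q.tp (∑ u, ∑ u', Q.ω (vec (e u)) (vec (e u')) *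
          (((γ u ×ˢ γ u').filter fun p => p.1 < p.2).card : ℤ)) * ∏ s, c s (toF e γ s) := by
  rw [prodexp Q δ _ (fun A : Finset W => ∑ v ∈ A, vec v) n c, NS.sum_co]
  simp only [NS.smul_co, NS.z_co, mul_ite, mul_one, mul_zero]
  rw [← sum_filter]
  symm
  refine sum_nbij' (toF e) (toG e) ?_ ?_ ?_ ?_ ?_
  · intro γ hγ
    obtain ⟨h1, h2⟩ := (mem_filter.mp hγ).2
    refine mem_filter.mpr ⟨Fintype.mem_piFinset.mpr fun s => (hm _).mpr ⟨?_, ?_⟩, ?_⟩
    · intro v hv
      obtain ⟨u, -, rfl⟩ := mem_toF.mp hv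
      exact heV u
    · intro a ha b hb hab
      obtain ⟨u, hu, rfl⟩ := mem_toF.mp ha
      obtain ⟨u', hu', rfl⟩ := mem_toF.mp hb
      exact disjoint_left.mp (h2 u u' hab) hu hu'
    · rw [tot_toF he]
      simp only [h1]
  · intro F hF
    obtain ⟨h1, h2⟩ := mem_filter.mp hF
    have h3 := fun s => (hm _).mp (Fintype.mem_piFinset.mp h1 s)
    refine mem_filter.mpr ⟨mem_univ _, fun u => ?_, fun u u' h => ?_⟩
    · have := count heV hd (fun s => (h3 s).1) h2 (heV u)
      simp only [he.eq_iff, sum_ite_eq', mem_univ, if_true] at this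
      rw [← this, toG]
    · exact disjoint_left.mpr fun s a b => (h3 s).2 _ (mem_toG.mp a) _ (mem_toG.mp b) h
  · intro γ _
    funext u
    ext s
    rw [mem_toG, mem_toF]
    exact ⟨fun ⟨u', a, b⟩ => he b ▸ a, fun a => ⟨u, a, rfl⟩⟩
  · intro F hF
    obtain ⟨h1, h2⟩ := mem_filter.mp hF
    have h3 := fun s => ((hm _).mp (Fintype.mem_piFinset.mp h1 s)).1
    funext s
    ext v
    rw [mem_toF]
    constructor
    · rintro ⟨u, a, rfl⟩
      exact mem_toG.mp a
    · intro a
      have := count heV hd h3 h2 (h3 s a)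
      by_contra hc
      rw [sum_eq_zero fun u _ => if_neg fun b : e u = v => hc ⟨u, mem_toG.mpr (b ▸ a), b⟩,
        card_eq_zero, filter_eq_empty_iff] at this
      exact this (mem_univ s) a
  · intro γ _
    rw [om_toF Q he, mul_comm]

open Classical in
theorem pexp {W U : Type} [Fintype U] (V : Finset W) (vec : W → Λ) (adj : W → W → Prop) (b : W)
    (hb : b ∉ V) (hs : ∀ a b, adj a b → adj b a) (hi : ∀ a, ¬adj a a)
    (hω : ∀ v ∈ V, Q.ω (vec b) (vec v) = if adj v b then 1 else 0)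
    (hcl : ∀ v ∈ V, ∀ v' ∈ V, adj v b → adj v' b → v ≠ v' → adj v v')
    (e : U → W) (u0 : U) (w : U → ℕ) {n : ℕ} (x : Fin n → K) (a : Fin n)
    (he : Function.Injective e) (h0 : e u0 = b) (heV : ∀ u, e u ∈ insert b V)
    (hd : ∀ v ∈ insert b V, ∃ φ : Λ →+ ℤ, ∀ v' ∈ insert b V,
      φ (vec v') = if v' = v then 1 else 0) (κ : K) :
    ((κ * (x a * Q.tp 1)) • (FP Q δ V vec adj ((List.ofFn x).take (a + 1)) * NS.z (vec b) *
        FP Q δ V vec adj ((List.ofFn x).drop (a + 1))) +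
      (κ * -(x a * Q.tp (-1))) • (FP Q δ V vec adj ((List.ofFn x).take a) * NS.z (vec b) *
        FP Q δ V vec adj ((List.ofFn x).drop a))).co (∑ u, w u • vec (e u)) =
      κ * (Q.tp 1 - Q.tp (-1)) * ∑ γ ∈ (univ : Finset (U → Finset (Fin n))).filter (fun γ =>
          (∀ u, (γ u).card = w u) ∧ (∀ u u', adj (e u) (e u') → Disjoint (γ u) (γ u')) ∧
            γ u0 = {a}),
        Q.tp (∑ u, ∑ u', Q.ω (vec (e u)) (vec (e u')) *
          (((γ u ×ˢ γ u').filter fun p => p.1 < p.2).card : ℤ)) * ∏ u, ∏ s ∈ γ u, x s := by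
  set f : Fin n → NS Q δ := fun s => ∑ A ∈ (insert b V).powerset.filter (Ind adj),
    (if b ∈ A ↔ s = a then x s ^ A.card else 0) • NS.z (∑ v ∈ A, vec v) with hf
  have nb : ∀ A ∈ V.powerset, b ∉ A := fun A hA h => hb (mem_powerset.1 hA h)
  have f1 : ∀ s, s ≠ a → f s = IP Q δ V vec adj (x s) := fun s h => by
    rw [hf, ip_eq]
    beta_reduce
    rw [sum_filter, sum_powerset_insert hb, sum_eq_zero (s := V.powerset)
      (f := fun A => if Ind adj (insert b A) then _ else 0) fun A _ => by simp [h], add_zero]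
    exact sum_congr rfl fun A hA => by simp [tm, nb A hA, h]
  have f2 : (Q.tp 1 - Q.tp (-1)) • f a = (x a * Q.tp 1) • (IP Q δ V vec adj (x a) * NS.z (vec b)) +
      -(x a * Q.tp (-1)) • (NS.z (vec b) * IP Q δ V vec adj (x a)) := by
    rw [hf, ip_eq]
    beta_reduce
    rw [sum_filter, sum_powerset_insert hb, sum_eq_zero fun A hA => by simp [nb A hA], zero_add,
      sum_mul, mul_sum, smul_sum, smul_sum, smul_sum, ← sum_add_distrib]
    refine sum_congr rfl fun A hA => ?_
    have hV := mem_powerset.1 hA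
    rw [ind_insert hs hi, tm]
    by_cases h : Ind adj A
    · have hk : Q.ω (vec b) (∑ v ∈ A, vec v) = (A.filter fun v => adj v b).card := by
        rw [map_sum, sum_congr rfl fun v hv => hω v (hV hv), card_filter]
        push_cast
        rfl
      rw [if_pos h, smul_mul_assoc, mul_smul_comm, NS.z_mul_z, NS.z_mul_z, Q.anti _ (vec b), hk,
        add_comm _ (vec b)]
      simp only [smul_smul, ← add_smul]
      by_cases h' : ∀ v ∈ A, ¬adj v b
      · rw [if_pos ⟨h, h'⟩, if_pos (by simp), filter_false_of_mem h', sum_insert (nb A hA),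
          card_insert_of_notMem (nb A hA), smul_smul]
        congr 1
        simp only [card_empty, Nat.cast_zero, neg_zero, QD.tp_zero]
        ring
      · have h1 : (A.filter fun v => adj v b).card = 1 := by
          push Not at h'
          obtain ⟨v, hv, hv'⟩ := h'
          refine card_eq_one.2 ⟨v, eq_singleton_iff_unique_mem.2 ⟨mem_filter.2 ⟨hv, hv'⟩,
            fun v' h1 => by_contra fun h2 => ?_⟩⟩
          obtain ⟨h3, h4⟩ := mem_filter.1 h1
          exact h v' h3 v hv (hcl v' (hV h3) v (hV hv) h4 hv' h2)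
        rw [if_neg fun c => h' c.2, h1, smul_zero, Nat.cast_one]
        refine ((congrArg (· • _) ?_).trans (zero_smul K _)).symm
        ring
    · simp [h]
  have ha : (a : ℕ) < (List.ofFn f).length := by simp
  have hF : ∀ l : List K, FP Q δ V vec adj l = (l.map (IP Q δ V vec adj)).prod := fun _ => rfl
  have e1 : ((List.ofFn x).take a).map (IP Q δ V vec adj) = (List.ofFn f).take a := by
    refine List.ext_getElem (by simp) fun i h1 h2 => ?_
    simp only [List.getElem_map, List.getElem_take, List.getElem_ofFn]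
    exact (f1 _ fun h => by simp [← h] at h2).symm
  have e2 : ((List.ofFn x).drop (a + 1)).map (IP Q δ V vec adj) = (List.ofFn f).drop (a + 1) := by
    refine List.ext_getElem (by simp) fun i h1 h2 => ?_
    simp only [List.getElem_map, List.getElem_drop, List.getElem_ofFn]
    exact (f1 _ fun h => by have := congrArg Fin.val h; simp at this; omega).symm
  have e3 : FP Q δ V vec adj ((List.ofFn x).take (a + 1)) =
      ((List.ofFn f).take a).prod * IP Q δ V vec adj (x a) := by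
    rw [hF, List.map_take, List.prod_take_succ _ _ (by simp), ← List.map_take, e1]
    simp
  have e4 : FP Q δ V vec adj ((List.ofFn x).drop a) =
      IP Q δ V vec adj (x a) * ((List.ofFn f).drop (a + 1)).prod := by
    rw [hF, List.drop_eq_getElem_cons (by simp), List.map_cons, List.prod_cons, e2]
    simp
  have e5 : (List.ofFn f).prod =
      ((List.ofFn f).take a).prod * f a * ((List.ofFn f).drop (a + 1)).prod := by
    rw [← List.prod_take_mul_prod_drop (List.ofFn f) (a + 1), List.prod_take_succ _ _ ha]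
    simp
  have e6 := expc (Q := Q) (δ := δ) (insert b V) vec adj e w
    (fun s A => if b ∈ A ↔ s = a then x s ^ A.card else 0) he heV hd
    ((insert b V).powerset.filter (Ind adj)) fun A => by simp only [mem_filter, mem_powerset]
  rw [e3, e4, hF, hF, e1, e2, mul_smul, mul_smul κ, ← smul_add, NS.smul_co, mul_assoc κ]
  congr 1
  have e7 : ∀ (A B I Z F : NS Q δ) (c1 c2 d : K), d • F = c1 • (I * Z) + c2 • (Z * I) →
      c1 • (A * I * Z * B) + c2 • (A * Z * (I * B)) = d • (A * F * B) := by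
    intro A B I Z F c1 c2 d h
    rw [← smul_mul_assoc d, ← mul_smul_comm d, h]
    simp only [mul_add, add_mul, smul_mul_assoc, mul_smul_comm, mul_assoc]
  rw [e7 _ _ _ _ _ _ _ _ f2, ← e5, NS.smul_co, e6]
  congr 1
  simp only [← and_assoc]
  rw [← filter_filter (p := fun γ : U → Finset (Fin n) => _ ∧ _) (q := fun γ => γ u0 = {a}),
    sum_filter (p := fun γ : U → Finset (Fin n) => γ u0 = {a})]
  refine sum_congr rfl fun γ _ => ?_
  have hm : ∀ s, b ∈ toF e γ s ↔ s ∈ γ u0 := fun s => by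
    rw [mem_toF, ← h0]
    exact ⟨fun ⟨u, h1, h2⟩ => he h2 ▸ h1, fun h => ⟨u0, h, rfl⟩⟩
  simp only [hm]
  by_cases h : γ u0 = {a}
  · simp only [h, mem_singleton, if_true, prod_toF he]
  · obtain ⟨s, h1⟩ : ∃ s, ¬(s ∈ γ u0 ↔ s = a) := by
      by_contra hc
      push Not at hc
      exact h (Finset.ext fun s => by rw [hc, mem_singleton])
    rw [if_neg h, prod_eq_zero (mem_univ s) (if_neg h1), mul_zero]

variable {p : ℕ} (T : Td Q p)

theorem F_sh (ip : S_IP Q) (δ : Λ →+ ℤ) (m : ℕ) (xs : List K) :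
    (sh T).F δ m xs = FP Q δ (Icc (p + 1) ((m + 1) * (p + 1))) T.u (adjP p) xs := by
  refine NS.ext fun x => ((ip.map δ δ _ TauA.iso_refl _ _ (range (m * (p + 1) + 1))
    (Icc (p + 1) ((m + 1) * (p + 1))) (sh T).u T.u (adjP p) (adjP p) (· + (p + 1))
    (fun _ _ _ _ h => Nat.add_right_cancel h) (fun v => ?_) (fun a _ b _ => ?_)
    fun v _ => ?_).2 xs x).symm
  · rw [mem_Icc, Nat.succ_mul]
    simp only [mem_range]
    exact ⟨fun h => ⟨v - (p + 1), by omega, by omega⟩, fun ⟨u, h1, h2⟩ => by omega⟩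
  · simp only [adjP]
    omega
  · simp only [Td.u, Nat.add_mod_right, Nat.add_div_right _ p.succ_pos]
    rfl

open Classical in
theorem mp_co (tb : T.S_TB) (ip : S_IP Q) (δ : Λ →+ ℤ) (m : ℕ) {b : ℕ} (h1 : 1 ≤ b) (h2 : b ≤ p)
    {U : Type} [Fintype U] (e : U → ℕ) (u0 : U) (w : U → ℕ) {n : ℕ} (x : Fin n → K) (a : Fin n)
    (he : Function.Injective e) (h0 : e u0 = b)
    (hV : ∀ u, u ≠ u0 → p + 1 ≤ e u ∧ e u ≤ (m + 1) * (p + 1)) (κ : K) :
    ((κ * (x a * Q.tp 1)) • MP T δ m b ((List.ofFn x).take (a + 1), (List.ofFn x).drop (a + 1)) +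
      (κ * -(x a * Q.tp (-1))) • MP T δ m b ((List.ofFn x).take a, (List.ofFn x).drop a)).co
        (∑ u, w u • T.u (e u)) =
      κ * (Q.tp 1 - Q.tp (-1)) * ∑ γ ∈ (univ : Finset (U → Finset (Fin n))).filter (fun γ =>
          (∀ u, (γ u).card = w u) ∧ (∀ u u', adjP p (e u) (e u') → Disjoint (γ u) (γ u')) ∧
            γ u0 = {a}),
        Q.tp (∑ u, ∑ u', Q.ω (T.u (e u)) (T.u (e u')) *
          (((γ u ×ˢ γ u').filter fun p => p.1 < p.2).card : ℤ)) * ∏ u, ∏ s ∈ γ u, x s := by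
  have hy : T.y 0 b = T.u b := by simpa using (tb.uy 0 b h1 h2).symm
  simp only [MP, F_sh T ip, hy]
  convert pexp (Q := Q) (δ := δ) (Icc (p + 1) ((m + 1) * (p + 1))) T.u (adjP p) b
    (fun h => by have := mem_Icc.1 h; omega) (fun a b => by simp only [adjP]; omega)
    (fun a h => h.1 rfl) (fun v hv => ?_) (fun v hv v' hv' => ?_) e u0 w x a he h0 (fun u => ?_)
    (fun v _ => (tb.lift ℤ fun v' => @ite _ (v' = v) (Classical.propDecidable _) 1 0).imp
      fun φ h v' _ => h v') κ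
  · have := mem_Icc.1 hv
    rw [tb.om _ _ (by omega)]
    exact if_congr (by simp only [adjP]; omega) rfl rfl
  · have := mem_Icc.1 hv
    have := mem_Icc.1 hv'
    simp only [adjP]
    omega
  · simp only [mem_insert, mem_Icc]
    exact (_root_.em (u = u0)).imp (fun h : u = u0 => h ▸ h0) (hV u)

open Classical in
theorem torus (C : Core Q) (hA : S_AT Q) (mi : S_MI Q) (bl : ∀ δ, S_BL Q δ) (ip : S_IP Q)
    (f1 : S_F1 Q) (tb : T.S_TB) (tb' : (sh T).S_TB) (m : ℕ) {n : ℕ} (x : Fin n → K) (a : Fin n)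
    (L0 L : Subsemiring K) (η : K) (hL0 : Q.HasT L0) (hL : Q.HasT L)
    (hneg : ∀ a ∈ L0, -a ∈ L0 → a = 0) (hx : ∀ s, x s ∈ L0)
    (hF : ∀ μ : ℕ → ℕ, η * (x a * (Q.tp (-(μ 0 : ℤ)) * ∑ S ∈ powersetCard (μ 0) (univ.erase a),
      Q.tp (2 * ((S.filter fun s => a < s).card : ℤ)) * ∏ s ∈ S, x s) *
      ∏ j : Fin m, ∑ S ∈ powersetCard (μ (j + 1)) univ, ∏ s ∈ S, x s) ∈ L)
    {U : Type} [Fintype U] (e : U → ℕ) (u0 : U) (w : U → ℕ) (he : Function.Injective e)
    (h0 : e u0 = p) (hV : ∀ u, u ≠ u0 → p + 1 ≤ e u ∧ e u ≤ (m + 1) * (p + 1)) :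
    η * ∑ γ ∈ (univ : Finset (U → Finset (Fin n))).filter (fun γ =>
          (∀ u, (γ u).card = w u) ∧ (∀ u u', adjP p (e u) (e u') → Disjoint (γ u) (γ u')) ∧
            γ u0 = {a}),
        Q.tp (∑ u, ∑ u', Q.ω (T.u (e u)) (T.u (e u')) *
          (((γ u ×ˢ γ u').filter fun p => p.1 < p.2).card : ℤ)) * ∏ u, ∏ s ∈ γ u, x s ∈ L := by
  have hp := T.hp
  obtain ⟨δ, h⟩ := main T C hA mi bl ip f1 tb' m
  obtain ⟨c, hc⟩ := exc Q
  have hκ : η * c * Q.tp (-1) * (Q.tp 1 - Q.tp (-1)) = η := by linear_combination η * hc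
  have hl : ∀ y ∈ List.ofFn x, y ∈ L0 := fun y hy => by
    obtain ⟨i, rfl⟩ := List.mem_ofFn.1 hy
    exact hx i
  rw [← hκ, ← mp_co T tb ip δ m hp le_rfl e u0 w x a he h0 hV]
  refine h L0 L _ _ _ _ hL0 hL hneg
    ⟨fun y hy => hl y (List.mem_of_mem_take hy), fun y hy => hl y (List.mem_of_mem_drop hy)⟩
    ⟨fun y hy => hl y (List.mem_of_mem_take hy), fun y hy => hl y (List.mem_of_mem_drop hy)⟩
    (fun μ => ?_) _
  have u1 : T.u 1 = T.y 0 1 := by simpa using tb.uy 0 1 le_rfl hp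
  have mo : ∀ i j : ℕ, i < j → i * (p + 1) + (p + 1) ≤ j * (p + 1) := fun i j h => by
    have := Nat.mul_le_mul_right (p + 1) (Nat.succ_le_of_lt h)
    rwa [Nat.succ_mul] at this
  set E : Fin (m + 2) → ℕ := Fin.cons 1 fun j : Fin (m + 1) => (j + 1) * (p + 1) with hE
  have E0 : E 0 = 1 := rfl
  have E1 : ∀ j : Fin (m + 1), E j.succ = (j + 1) * (p + 1) := fun _ => rfl
  have e1 := mp_co T tb ip δ m le_rfl hp E 0 (Fin.cons 1 fun j : Fin (m + 1) => μ j) x a
    (fun i j => by
      refine Fin.cases ?_ (fun i => ?_) i <;> refine Fin.cases ?_ (fun j => ?_) j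
      · exact fun _ => rfl
      · have := mo 0 (j + 1) (by omega)
        rw [E0, E1]
        omega
      · have := mo 0 (i + 1) (by omega)
        rw [E0, E1]
        omega
      · rw [E1, E1]
        exact fun h => congrArg _ (Fin.ext (by have := Nat.eq_of_mul_eq_mul_right p.succ_pos h; omega)))
    rfl (fun u => by
      refine Fin.cases (fun h => absurd rfl h) (fun j _ => ?_) u
      have := mo 0 (j + 1) (by omega)
      exact ⟨by rw [E1]; omega, Nat.mul_le_mul_right _ j.2⟩) (η * c * Q.tp (-1))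
  rw [Fin.sum_univ_succ] at e1
  simp only [Fin.cons_zero, Fin.cons_succ, E0, E1, tb.uq, u1, one_smul] at e1
  rw [← Fin.sum_univ_eq_sum_range (fun i => μ i • T.q (i + 1)), e1, hκ]
  let t : Fin (m + 2) → Finset (Finset (Fin n)) := Fin.cons {{a}}
    (Fin.cons (powersetCard (μ 0) (univ.erase a)) fun j : Fin m => powersetCard (μ (j + 1)) univ)
  let F : Fin (m + 2) → Finset (Fin n) → K := Fin.cons (fun S => ∏ s ∈ S, x s)
    (Fin.cons (fun S => Q.tp (-(μ 0 : ℤ)) * (Q.tp (2 * ((S.filter fun s => a < s).card : ℤ)) *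
      ∏ s ∈ S, x s)) fun _ S => ∏ s ∈ S, x s)
  have e2 := prod_univ_sum t F
  rw [Fin.prod_univ_succ, Fin.prod_univ_succ] at e2
  simp only [t, F, Fin.cons_zero, Fin.cons_succ, sum_singleton, prod_singleton, ← mul_sum,
    ← mul_assoc (x a)] at e2
  have e3 := hF μ
  rw [← mul_assoc (x a), e2] at e3
  refine (congrArg (η * · ∈ L) (sum_congr ?_ fun γ hγ => ?_)).mpr e3
  · ext γ
    simp only [Fintype.mem_piFinset, mem_filter, mem_univ, true_and, Fin.forall_fin_succ,
      Fin.cons_zero, Fin.cons_succ, mem_singleton, mem_powersetCard, subset_univ, E0, E1,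
      subset_erase, Fin.val_zero, Fin.val_succ]
    constructor
    · rintro ⟨⟨-, c1, c2⟩, ⟨⟨-, c3, -⟩, -⟩, c4⟩
      refine ⟨c4, ⟨?_, c1⟩, c2⟩
      have := c3 (by simp only [adjP]; omega)
      rwa [c4, disjoint_singleton_left] at this
    · rintro ⟨c1, ⟨c2, c3⟩, c4⟩
      have far : ∀ i j : ℕ, ¬adjP p ((i + 1) * (p + 1)) ((j + 1) * (p + 1)) := fun i j h => by
        obtain ⟨a1, a2, a3⟩ := h
        rcases lt_trichotomy i j with h | h | h
        · have := mo (i + 1) (j + 1) (by omega)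
          omega
        · exact a1 (by rw [h])
        · have := mo (j + 1) (i + 1) (by omega)
          omega
      have far' : ∀ j : ℕ, ¬1 + p ≥ (j + 1 + 1) * (p + 1) := fun j => by
        have := mo 1 (j + 1 + 1) (by omega)
        omega
      refine ⟨⟨by rw [c1, card_singleton], c3, c4⟩, ⟨⟨fun h => absurd rfl h.1, fun _ => ?_,
        fun j h => absurd h.2.2 (far' j)⟩, ⟨fun _ => ?_, fun h => absurd h (far _ _),
        fun j h => absurd h (far _ _)⟩, fun i => ⟨fun h => absurd h.2.1 (far' i),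
        fun h => absurd h (far _ _), fun j h => absurd h (far _ _)⟩⟩, c1⟩
      · rwa [c1, disjoint_singleton_left]
      · rwa [c1, disjoint_singleton_right]
  · simp only [Fintype.mem_piFinset, Fin.forall_fin_succ, Fin.cons_zero, Fin.cons_succ,
      mem_singleton, mem_powersetCard, subset_erase] at hγ
    obtain ⟨c1, ⟨⟨-, c2⟩, c3⟩, -⟩ := hγ
    have c4 := GlueA.pair_count (disjoint_singleton_left.2 c2)
    have c5 : ((({a} : Finset (Fin n)) ×ˢ γ (Fin.succ 0)).filter fun p => p.1 < p.2).card =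
        ((γ (Fin.succ 0)).filter fun s => a < s).card := by
      simp only [card_filter, sum_product, sum_singleton]
    rw [card_singleton, one_mul, c3, c5] at c4
    simp only [Fin.sum_univ_succ, Fin.prod_univ_succ, Fin.cons_zero, Fin.cons_succ, E0, E1, tb.uq,
      u1, T.qq, Q.skew, oq, Q.anti (T.y 0 1), Fin.val_zero, Fin.val_succ, c1, c5, if_true,
      Nat.succ_ne_zero, if_false, zero_mul, neg_zero, sum_const_zero, add_zero, zero_add]
    rw [← mul_assoc (Q.tp (-(μ 0 : ℤ))), ← Q.tp_add, ← c4]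
    push_cast
    ring_nf

end Pt

end Pool.Agent.P.MP_389f6f_co.Qt
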