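import Pool.Agent.P.MP_389f6f_co.QDefs

/-! Existence, uniqueness, transport and faces of the scattering diagram. -/

set_option autoImplicit false

namespace Pool.Agent.P.MP_389f6f_co.Qt
open Finset

namespace AtA

variable {Λ K : Type} [AddCommGroup Λ] [CommRing K] {Q : QD Λ K} {δ : Λ →+ ℤ}

theorem Pz_nonneg {x : Λ} (h : x ∈ Pz δ) : 0 ≤ δ x := by
  rcases h with rfl | h
  · simp
  · omega

theorem low_lt (P : AddSubmonoid Λ) (c : ℤ) : Low δ P fun x => δ x < c := by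
  intro x _ y hy h
  have := Pz_nonneg hy.2
  rw [map_add] at h
  omega

theorem bd_lt (P : AddSubmonoid Λ) (c : ℤ) (n : Λ) (h : δ n ≤ c) :
    Bd δ P (fun x => δ x < c) n := by
  rintro x _ y hy rfl h0
  have : 1 ≤ δ y := hy.2.resolve_left h0
  rw [map_add] at h
  omega

theorem mid_mem (C : Core Q) {P : AddSubmonoid Λ} (σ : Cut Λ) {g : (NS Q δ)ˣ}
    (hg : g ∈ GG Q δ P) : mid σ g ∈ GG Q δ P :=
  GG_mono inf_le_left ((C.grp δ).fac P σ g hg).2.1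

theorem lo_mem (C : Core Q) {P : AddSubmonoid Λ} (σ : Cut Λ) {g : (NS Q δ)ˣ}
    (hg : g ∈ GG Q δ P) : lo σ g ∈ GG Q δ P :=
  GG_mono inf_le_left ((C.grp δ).fac P σ g hg).1

theorem key (C : Core Q) {P : AddSubmonoid Λ} {g g' : (NS Q δ)ˣ} (hg : g ∈ GG Q δ P)
    (hg' : g' ∈ GG Q δ P) {c : ℤ} (h : Eqv (fun x => δ x < c) (g : NS Q δ) g') {n : Λ}
    (hn : δ n ≤ c) (φ : Λ →+ ℤ) :
    (dl φ (mid (Cut.of (Q.Av n)) g)).co n - (dl φ (mid (Cut.of (Q.Av n)) g')).co n =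
      (φ n : K) * ((g : NS Q δ).co n - (g' : NS Q δ).co n) := by
  rw [(C.dl δ).top P _ (low_lt P c) φ n (bd_lt P c n hn) _ (mid_mem C _ hg) _ (mid_mem C _ hg')
    ((C.grp δ).mid_congr P _ (low_lt P c) _ _ (fun _ _ _ => ⟨Iff.rfl, Iff.rfl⟩) g hg g' hg' h),
    (C.grp δ).mid_top P _ (low_lt P c) _ n (bd_lt P c n hn) (by simp [Q.skew]) (by simp [Q.skew])
      g hg g' hg' h]

theorem eq_of_le {P : AddSubmonoid Λ} {g g' : (NS Q δ)ˣ} (hg : g ∈ GG Q δ P)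
    (hg' : g' ∈ GG Q δ P) {x : Λ} (hx : δ x ≤ 0) : (g : NS Q δ).co x = (g' : NS Q δ).co x := by
  by_cases h0 : x = 0
  · rw [h0, hg.1, hg'.1]
  have : ∀ u ∈ GG Q δ P, (u : NS Q δ).co x = 0 := fun u hu => by
    by_contra h
    have : 1 ≤ δ x := (hu.2 x h).2.resolve_left h0
    omega
  rw [this g hg, this g' hg']

theorem uniq (C : Core Q) {s : Finset Λ} {g g' : (NS Q δ)ˣ} (h : AT s g) (h' : AT s g') :
    g = g' := by
  have : ∀ c : ℕ, Eqv (fun x => δ x < c) (g : NS Q δ) g' := by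
    intro c
    induction c with
    | zero => exact fun x hx => eq_of_le h.1 h'.1 (by push_cast at hx; omega)
    | succ c ih =>
      intro x hx
      rcases le_or_gt (δ x) 0 with h0 | h0
      · exact eq_of_le h.1 h'.1 h0
      have h1 := key C h.1 h'.1 ih (n := x) (by push_cast at hx; omega) δ
      rw [h.2, h'.2, sub_self] at h1
      exact sub_eq_zero.1 ((C.dl δ).cancel _ _ h0.ne' h1.symm)
  exact Units.ext (NS.ext fun x => this ((δ x).toNat + 1) x (by push_cast; omega))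

theorem FF_mem (C : Core Q) {e : Λ} (he : 1 ≤ δ e) {P : AddSubmonoid Λ} (h : e ∈ P) :
    FF Q δ e ∈ GG Q δ P := (C.ser δ).mem (false, 0, e) he P h

theorem FF_sup (C : Core Q) {e : Λ} (he : 1 ≤ δ e) (φ : Λ →+ ℤ) {n : Λ}
    (h : (dl φ (FF Q δ e)).co n ≠ 0) : ∃ k : ℕ, k ≠ 0 ∧ n = k • e := by
  obtain ⟨⟨⟨k, hk⟩, -⟩, h0⟩ := (C.dl δ).sup (AddSubmonoid.multiples e) φ _
    (FF_mem C he (AddSubmonoid.mem_multiples e)) n h
  refine ⟨k, ?_, hk.symm⟩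
  rintro rfl
  exact h0 (by simpa using hk.symm)

theorem FF_zero (C : Core Q) {e : Λ} (he : 1 ≤ δ e) (φ : Λ →+ ℤ) {n : Λ} (h : Q.ω e n ≠ 0) :
    (dl φ (FF Q δ e)).co n = 0 := by
  by_contra hc
  obtain ⟨k, -, rfl⟩ := FF_sup C he φ hc
  exact h (by simp [Q.skew])

theorem FF_sym (C : Core Q) {e : Λ} (he : 1 ≤ δ e) (φ ψ : Λ →+ ℤ) (n : Λ) :
    (ψ n : K) * (dl φ (FF Q δ e)).co n = (φ n : K) * (dl ψ (FF Q δ e)).co n := by
  by_cases h : Q.ω e n = 0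
  · exact (C.dl δ).sym n φ ψ _ (FF_mem C he (by simp [Cut.mem_Zer, h]))
  · rw [FF_zero C he φ h, FF_zero C he ψ h, mul_zero, mul_zero]

theorem triv (C : Core Q) {s : Finset Λ} (hs : Seed δ s) {g : (NS Q δ)ˣ}
    (hg : g ∈ GG Q δ (PS s)) (φ : Λ →+ ℤ) {n : Λ} (hn : ¬(n ∈ PS s ∧ n ≠ 0)) :
    (dl φ (mid (Cut.of (Q.Av n)) g)).co n = ∑ e ∈ s, (dl φ (FF Q δ e)).co n := by
  have : ∀ u ∈ GG Q δ (PS s), (dl φ u).co n = 0 := fun u hu => by
    by_contra h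
    have := (C.dl δ).sup _ φ u hu n h
    exact hn ⟨this.1.1, this.2⟩
  rw [this _ (mid_mem C _ hg), sum_eq_zero fun e he =>
    this _ (FF_mem C (hs e he) (AddSubmonoid.subset_closure he))]

theorem exi (C : Core Q) {s : Finset Λ} (hs : Seed δ s) : ∃ g : (NS Q δ)ˣ, AT s g := by
  classical
  obtain ⟨l1, l2⟩ := C.geo.level δ (s : Set Λ) s.finite_toSet hs
  set p : Λ → Prop := fun x => x ∈ PS s ∧ x ≠ 0 with hp
  have hp1 : ∀ x, p x → 1 ≤ δ x := fun x hx => (l1 x hx.1).resolve_left hx.2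
  have hG : ∀ w : NS Q δ, ∃ u ∈ GG Q δ (PS s), Sup p w → (u : NS Q δ) = 1 + w := by
    intro w
    by_cases hw : Sup p w
    · have h0 : w.co 0 = 0 := by
        by_contra h
        exact (hw 0 h).2 rfl
      obtain ⟨u, hu, e⟩ := (C.grp δ).unit (PS s) (1 + w) (by simp [NS.one_co, h0])
        ((Sup.one (zero_mem _)).add (hw.mono fun x hx => ⟨hx.1, Or.inr (hp1 x hx)⟩))
      exact ⟨u, hu, fun _ => e⟩
    · exact ⟨1, one_mem _, fun h => absurd h hw⟩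
  choose G hG1 hG2 using hG
  have hiv : ∀ m : ℤ, ∃ a : K, m ≠ 0 → (m : K) * a = 1 := fun m => by
    by_cases hm : m = 0
    · exact ⟨0, fun h => absurd hm h⟩
    · obtain ⟨a, ha⟩ := (C.dl δ).unit m hm
      exact ⟨a, fun _ => ha⟩
  choose iv hiv using hiv
  obtain ⟨w, hw, hfix⟩ := (C.grp δ).fix p (fun w => NS.mk Q (fun n => if p n then
      w.co n + iv (δ n) * (∑ e ∈ s, (dl δ (FF Q δ e)).co n -
        (dl δ (mid (Cut.of (Q.Av n)) (G w))).co n) else 0)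
      fun c => (l2 c).subset fun x hx => ⟨by
        by_contra h
        exact hx.1 (if_neg fun h' => h h'.1), hx.2⟩)
    (fun x hx => by have := hp1 x hx; omega)
    (fun f _ x hx => by
      by_contra h
      exact hx (if_neg h))
    (fun c f f' hf hf' h n hn => by
      rw [NS.mk_co, NS.mk_co]
      split_ifs with hpn
      · have h1 := key C (hG1 f) (hG1 f') (c := c) (fun x hx => by
          rw [hG2 f hf, hG2 f' hf', NS.add_co, NS.add_co, h x hx]) hn δ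
        rw [hG2 f hf, hG2 f' hf', NS.add_co, NS.add_co] at h1
        have h2 := hiv (δ n) (by have := hp1 n hpn; omega)
        linear_combination (-iv (δ n)) * h1 - (f.co n - f'.co n) * h2
      · rfl)
  refine ⟨G w, hG1 w, fun φ n => ?_⟩
  by_cases hn : p n
  swap
  · exact triv C hs (hG1 w) φ hn
  have hne : δ n ≠ 0 := by have := hp1 n hn; omega
  have h1 := congrArg (fun f => NS.co f n) hfix
  simp only [NS.mk_co, if_pos hn] at h1
  have h2 := hiv (δ n) hne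
  have h3 : (dl δ (mid (Cut.of (Q.Av n)) (G w))).co n = ∑ e ∈ s, (dl δ (FF Q δ e)).co n := by
    linear_combination (-(δ n : K)) * h1 + (∑ e ∈ s, (dl δ (FF Q δ e)).co n -
      (dl δ (mid (Cut.of (Q.Av n)) (G w))).co n) * h2
  have h4 := (C.dl δ).sym n φ δ _
    (GG_mono inf_le_right ((C.grp δ).fac _ (Cut.of (Q.Av n)) _ (hG1 w)).2.1)
  refine sub_eq_zero.1 ((C.dl δ).cancel _ _ hne ?_)
  rw [mul_sub, h4, h3, mul_sum, mul_sum, sum_congr rfl fun e he => FF_sym C (hs e he) φ δ n,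
    sub_self]

theorem trans (C : Core Q) {δ' : Λ →+ ℤ} {Φ : Λ ≃+ Λ} (hΦ : Q.Iso Φ) {s s' : Finset Λ}
    (hs : Seed δ s) (hs' : Seed δ' s') (hv : ∀ v, Φ v ∈ s' ↔ v ∈ s) {g : (NS Q δ)ˣ}
    {g' : (NS Q δ')ˣ} (h : AT s g) (h' : AT s' g') {f : NS Q δ} {f' : NS Q δ'} (hf : Tr Φ f f') :
    (∀ r, att g' f' (Φ r) = att g f r) ∧
      ∀ θ : Λ →+ ℝ, Tr Φ (ex g (θ.comp Φ.toAddMonoidHom) f) (ex g' θ f') := by
  obtain ⟨l1, l2⟩ := C.geo.level δ' (s' : Set Λ) s'.finite_toSet hs'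
  have hmap : (PS s).map Φ.toAddMonoidHom = PS s' := by
    rw [PS, AddMonoidHom.map_mclosure, PS]
    congr 1
    ext y
    obtain ⟨x, rfl⟩ := Φ.surjective y
    simp [hv]
  have hm : ∀ x ∈ PS s, Φ x ∈ PS s' := fun x hx => hmap ▸ ⟨x, hx, rfl⟩
  have p1 : ∀ x ∈ PS s, Φ x ∈ Pz δ' := fun x hx => l1 _ (hm x hx)
  have p2 : ∀ c : ℤ, {x | x ∈ PS s ∧ δ' (Φ x) ≤ c}.Finite := fun c =>
    ((l2 c).preimage Φ.injective.injOn).subset fun x hx => ⟨hm x hx.1, hx.2⟩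
  obtain ⟨u, hu, htr⟩ := C.tr.ex δ δ' Φ hΦ _ p1 p2 g h.1
  rw [hmap] at hu
  have hAv : ∀ r, (Q.Av (Φ r)).comp Φ.toAddMonoidHom = Q.Av r := fun r => by
    ext x
    simp [hΦ x r]
  have hat : AT s' u := ⟨hu, fun φ n' => by
    obtain ⟨n, rfl⟩ := Φ.surjective n'
    have h1 := (C.tr.fac δ δ' Φ hΦ _ p1 p2 (Cut.of (Q.Av n)) (Cut.of (Q.Av (Φ n)))
      (fun x => by simp [hΦ x n]) g h.1 u htr).2.1
    rw [(C.tr.cj δ δ' Φ hΦ _ p1 p2 _ (mid_mem C _ h.1) _ h1).2 φ n, h.2]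
    exact sum_equiv Φ.toEquiv (fun i => (hv i).symm) fun e he =>
      ((C.tr.wf δ δ' Φ hΦ false 0 e (hs e he) (hs' _ ((hv e).2 he))).2 φ n).symm⟩
  obtain rfl := uniq C hat h'
  have h2 : ∀ θ : Λ →+ ℝ, Tr Φ (ex g (θ.comp Φ.toAddMonoidHom) f) (ex u θ f') := fun θ =>
    (C.tr.cj δ δ' Φ hΦ _ p1 p2 _ (lo_mem C _ h.1) _
      (C.tr.fac δ δ' Φ hΦ _ p1 p2 (Cut.of (θ.comp Φ.toAddMonoidHom)) (Cut.of θ)
        (fun _ => ⟨Iff.rfl, Iff.rfl⟩) g h.1 u htr).1).1 f f' hf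
  refine ⟨fun r => ?_, h2⟩
  rw [att, att, h2 _ r, hAv]

open Classical in
theorem face (C : Core Q) {s : Finset Λ} (hs : Seed δ s) {g : (NS Q δ)ˣ} (h : AT s g)
    {ψ : Λ →+ ℝ} (hψ : ∀ e ∈ s, 0 ≤ ψ e) :
    lo (Cut.of ψ) g = 1 ∧ AT (s.filter fun e => ψ e = 0) (mid (Cut.of ψ) g) := by
  have c1 : ∀ x ∈ PS s, 0 ≤ ψ x ∧ (ψ x = 0 → x ∈ PS (s.filter fun e => ψ e = 0)) := by
    intro x hx
    induction hx using AddSubmonoid.closure_induction with
    | mem e he =>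
      exact ⟨hψ e he, fun h0 => AddSubmonoid.subset_closure (mem_filter.2 ⟨he, h0⟩)⟩
    | zero => exact ⟨by simp, fun _ => zero_mem _⟩
    | add x y _ _ hx hy =>
      rw [map_add]
      exact ⟨add_nonneg hx.1 hy.1, fun h0 =>
        add_mem (hx.2 (by linarith [hx.1, hy.1])) (hy.2 (by linarith [hx.1, hy.1]))⟩
  have c2 : ∀ x ∈ PS (s.filter fun e => ψ e = 0), ψ x = 0 := by
    intro x hx
    induction hx using AddSubmonoid.closure_induction with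
    | mem e he => exact (mem_filter.1 he).2
    | zero => simp
    | add x y _ _ hx hy => rw [map_add, hx, hy, add_zero]
  obtain ⟨f1, f2, f3, f4⟩ := (C.grp δ).fac _ (Cut.of ψ) g h.1
  have hlo : lo (Cut.of ψ) g = 1 := Units.ext (NS.ext fun x => by
    by_cases h0 : x = 0
    · rw [h0, f1.1, Units.val_one, NS.one_co, if_pos rfl]
    rw [Units.val_one, NS.one_co, if_neg h0]
    by_contra hc
    obtain ⟨⟨a, b⟩, -⟩ := f1.2 x hc
    exact absurd (c1 x a).1 (not_le.2 (b.resolve_left h0)))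
  have hy : mid (Cut.of ψ) g ∈ GG Q δ (PS (s.filter fun e => ψ e = 0)) :=
    GG_mono (P := PS s ⊓ (Cut.of ψ).Zer)
      (fun x hx => (c1 x hx.1).2 (le_antisymm (not_lt.1 hx.2.2) (not_lt.1 hx.2.1))) f2
  refine ⟨hlo, hy, fun φ n => ?_⟩
  by_cases hn : ψ n = 0
  swap
  · exact triv C (fun e he => hs e (mem_filter.1 he).1) hy φ fun h' => hn (c2 n h'.1)
  have hlow : Low δ (PS s) fun x => ψ x = 0 := by
    intro x hx y hy h0
    rw [map_add] at h0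
    linarith [(c1 x hx.1).1, (c1 y hy.1).1]
  have hm := mid_mem C (Cut.of ψ) h.1
  have hhi : hi (Cut.of ψ) g ∈ GG Q δ (PS s) := GG_mono inf_le_left f3
  have e1 : Eqv (fun x => ψ x = 0) (mid (Cut.of ψ) g : NS Q δ) g := by
    have := (C.grp δ).eqv_mul _ _ hlow _ _ 1 _ hm.2 hm.2 (Sup.one (zero_mem _)) hhi.2
      (fun _ _ => rfl) (fun x hx => by
        by_cases h0 : x = 0
        · rw [h0, hhi.1, NS.one_co, if_pos rfl]
        rw [NS.one_co, if_neg h0]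
        by_contra hc
        obtain ⟨⟨-, b⟩, -⟩ := f3.2 x (Ne.symm hc)
        exact absurd hx (b.resolve_left h0).ne')
    rwa [mul_one, ← Units.val_mul, ← one_mul (mid (Cut.of ψ) g * hi (Cut.of ψ) g), ← mul_assoc,
      ← hlo, ← f4] at this
  rw [(C.dl δ).eqv _ _ hlow φ _ (mid_mem C _ hm) _ (mid_mem C _ h.1)
    ((C.grp δ).mid_congr _ _ hlow _ _ (fun _ _ _ => ⟨Iff.rfl, Iff.rfl⟩) _ hm _ h.1 e1) n hn, h.2]
  refine (sum_filter_of_ne fun e he hne => ?_).symm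
  obtain ⟨k, hk, rfl⟩ := FF_sup C (hs e he) φ hne
  rw [map_nsmul, nsmul_eq_mul, mul_eq_zero] at hn
  exact hn.resolve_left (Nat.cast_ne_zero.2 hk)

theorem single (C : Core Q) {e : Λ} (he : 1 ≤ δ e) : AT {e} (FF Q δ e) := by
  refine ⟨FF_mem C he (AddSubmonoid.subset_closure (by simp)), fun φ n => ?_⟩
  rw [sum_singleton]
  rcases lt_trichotomy (Q.ω e n) 0 with h | h | h
  · have := ((C.grp δ).fac_eq (Cut.of (Q.Av n)) _
      (FF_mem C he (Or.inr (by simpa using h))) 1 (one_mem _) 1 (one_mem _)).2.1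
    rw [mul_one, mul_one] at this
    rw [this, (C.dl δ).one, FF_zero C he φ h.ne, NS.zero_co]
  · have := ((C.grp δ).fac_eq (Cut.of (Q.Av n)) 1 (one_mem _) _
      (FF_mem C he (by simp [Cut.mem_Zer, h])) 1 (one_mem _)).2.1
    rw [mul_one, one_mul] at this
    rw [this]
  · have := ((C.grp δ).fac_eq (Cut.of (Q.Av n)) 1 (one_mem _) 1 (one_mem _) _
      (FF_mem C he (Or.inr (by simpa using h)))).2.1
    rw [one_mul, one_mul] at this
    rw [this, (C.dl δ).one, FF_zero C he φ h.ne', NS.zero_co]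

end AtA

theorem t_at : T_AT := fun _ _ _ _ _ C =>
  { ex := fun _ _ hs => AtA.exi C hs
    uniq := fun _ _ _ _ h h' => AtA.uniq C h h'
    tr := fun _ _ _ hΦ _ _ hs hs' hv _ _ h h' _ _ hf => AtA.trans C hΦ hs hs' hv h h' hf
    face := fun _ _ hs _ h _ hψ => AtA.face C hs h hψ
    single := fun _ _ he => AtA.single C he }

end Pool.Agent.P.MP_389f6f_co.Qt
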