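import Pool.Agent.P.MP_389f6f_co.QDefs

/-! Positivity of theta functions. -/

set_option autoImplicit false

namespace Pool.Agent.P.MP_389f6f_co.Qt
open Finset

namespace BlA
variable {Λ K : Type} [AddCommGroup Λ] [CommRing K] {Q : QD Λ K} {δ : Λ →+ ℤ}

/-- positivity below `r` along directions orthogonal to the walls -/
def HH (L : Subsemiring K) (W : Λ → Prop) (r : Λ) (h : NS Q δ) : Prop :=
  ∀ w, 1 ≤ δ w → (∀ n, W n → Q.ω n w = 0) → h.co (r - w) ∈ L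

def Good (L : Subsemiring K) (W : Λ → Prop) (r : Λ) (u : (NS Q δ)ˣ) : Prop :=
  ∀ h : NS Q δ, HH L W r h → HH L W r (cj u h) ∧ (cj u h).co r - h.co r ∈ L

theorem Good.one (L : Subsemiring K) (W : Λ → Prop) (r : Λ) : Good L W r (1 : (NS Q δ)ˣ) :=
  fun h hh => by
    rw [cj_one, sub_self]
    exact ⟨hh, L.zero_mem⟩

theorem Good.mul {L : Subsemiring K} {W : Λ → Prop} {r : Λ} {u v : (NS Q δ)ˣ}
    (hu : Good L W r u) (hv : Good L W r v) : Good L W r (u * v) := fun h hh => by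
  obtain ⟨h1, h2⟩ := hu h hh
  obtain ⟨h3, h4⟩ := hv _ h1
  rw [cj_mul]
  refine ⟨h3, ?_⟩
  have := L.add_mem h4 h2
  rwa [sub_add_sub_cancel] at this

theorem good_of (L : Subsemiring K) (W : Λ → Prop) (r n : Λ) (u : (NS Q δ)ˣ) (hn : 1 ≤ δ n)
    (hW : W n) (hWW : ∀ n', W n' → Q.ω n' n = 0)
    (hu : ∀ (f : NS Q δ) (p : Λ), (∀ j : ℕ, 0 < j → f.co (p - j • n) ∈ L) →
      Q.ω n p = Q.ω n r → (cj u f).co p - f.co p ∈ L) : Good L W r u := by
  intro h hh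
  have key : ∀ w, 0 ≤ δ w → (∀ n, W n → Q.ω n w = 0) →
      (cj u h).co (r - w) - h.co (r - w) ∈ L := by
    intro w h1 h2
    refine hu h _ (fun j hj => ?_) (by rw [map_sub, h2 n hW, sub_zero])
    rw [sub_sub]
    refine hh _ ?_ fun n' hn' => ?_
    · rw [map_add, map_nsmul, nsmul_eq_mul]
      have : (1 : ℤ) ≤ j := by exact_mod_cast hj
      nlinarith
    · rw [map_add, map_nsmul, h2 n' hn', hWW n' hn', smul_zero, add_zero]
  refine ⟨fun w h1 h2 => ?_, ?_⟩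
  · have := L.add_mem (key w (by omega) h2) (hh w h1 h2)
    rwa [sub_add_cancel] at this
  · simpa using key 0 (by simp) (by simp)

theorem good_wp (L : Subsemiring K) (W : Λ → Prop) (r : Λ) (l : List (Bool × ℤ × Λ))
    (h : ∀ x ∈ l, Good L W r (wf Q δ x)) : Good L W r (wp Q δ l) := by
  induction l with
  | nil => exact Good.one L W r
  | cons x l ih =>
    have : wp Q δ (x :: l) = wf Q δ x * wp Q δ l := by simp [wp]
    rw [this]
    exact (h x List.mem_cons_self).mul (ih fun y hy => h y (List.mem_cons_of_mem _ hy))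

theorem good_wp_inv (L : Subsemiring K) (W : Λ → Prop) (r : Λ) (l : List (Bool × ℤ × Λ))
    (h : ∀ x ∈ l, Good L W r (wf Q δ x)⁻¹) : Good L W r (wp Q δ l)⁻¹ := by
  induction l with
  | nil =>
    have : wp Q δ [] = 1 := by simp [wp]
    rw [this, inv_one]
    exact Good.one L W r
  | cons x l ih =>
    have : wp Q δ (x :: l) = wf Q δ x * wp Q δ l := by simp [wp]
    rw [this, mul_inv_rev]
    exact (ih fun y hy => h y (List.mem_cons_of_mem _ hy)).mul (h x List.mem_cons_self)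

theorem pz_nonneg {x : Λ} (h : x ∈ Pz δ) : 0 ≤ δ x := by
  rcases h with rfl | h
  · simp
  · omega

theorem low_le (P : AddSubmonoid Λ) (D : ℤ) : Low δ P fun x => δ x ≤ D := by
  intro x _ y hy h
  have := pz_nonneg hy.2
  rw [map_add] at h
  omega

theorem top_mem {P : AddSubmonoid Λ} {u : (NS Q δ)ˣ} (h : u ∈ GG Q δ P) : u ∈ GG Q δ ⊤ :=
  GG_mono le_top h

theorem cj_low (G : S_GRP Q δ) {u : (NS Q δ)ˣ} (hu : u ∈ GG Q δ ⊤) {f : NS Q δ} {m : ℤ}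
    (hf : Sup (fun x => m ≤ δ x) f) : Sup (fun x => m ≤ δ x) (cj u f) := by
  intro r hr
  obtain ⟨a, h1, h2⟩ := G.cj_sup ⊤ u hu f r hr
  have h3 := hf a h1
  have h4 := pz_nonneg h2.2
  rw [map_sub] at h4
  change m ≤ δ a at h3
  change m ≤ δ r
  omega

theorem cj_eq (G : S_GRP Q δ) {u u' : (NS Q δ)ˣ} (hu : u ∈ GG Q δ ⊤) (hu' : u' ∈ GG Q δ ⊤)
    {D m : ℤ} (h : Eqv (fun x => δ x ≤ D) (u : NS Q δ) u') {f : NS Q δ}
    (hf : Sup (fun x => m ≤ δ x) f) {p : Λ} (hp : δ p ≤ m + D) :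
    (cj u f).co p = (cj u' f).co p :=
  G.cj_congr D u hu u' hu' h f p (hf.mono fun x hx => by omega)

theorem lo_mem (G : S_GRP Q δ) (σ : Cut Λ) {P : AddSubmonoid Λ} {g : (NS Q δ)ˣ}
    (hg : g ∈ GG Q δ P) : lo σ g ∈ GG Q δ ⊤ := top_mem (G.fac P σ g hg).1

theorem cg (G : S_GRP Q δ) {P : AddSubmonoid Λ} {g : (NS Q δ)ˣ} (hg : g ∈ GG Q δ P) {D m : ℤ}
    {f : NS Q δ} (hf : Sup (fun x => m ≤ δ x) f) (σ σ' : Cut Λ)
    (h : ∀ n, n ∈ P ∧ δ n ≤ D → (σ.N n ↔ σ'.N n)) {p : Λ} (hp : δ p ≤ m + D) :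
    (cj (lo σ g) f).co p = (cj (lo σ' g) f).co p :=
  cj_eq G (lo_mem G σ hg) (lo_mem G σ' hg)
    (G.lo_congr P _ (low_le P D) σ σ' (fun x hx hU => h x ⟨hx.1, hU⟩) g hg g hg fun _ _ => rfl)
    hf hp

/-- the grading as a real functional -/
def dR (δ : Λ →+ ℤ) : Λ →+ ℝ := (Int.castAddHom ℝ).comp δ

@[simp] theorem dR_apply (x : Λ) : dR δ x = (δ x : ℝ) := rfl

theorem lo_one (G : S_GRP Q δ) {P : AddSubmonoid Λ} {y : (NS Q δ)ˣ} (hy : y ∈ GG Q δ P) (D : ℤ)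
    (ψ : Λ →+ ℝ) (h : ∀ n ∈ P, 1 ≤ δ n → δ n ≤ D → 0 < ψ n) :
    Eqv (fun x => δ x ≤ D) (lo (Cut.of ψ) y : NS Q δ) (1 : (NS Q δ)ˣ) := by
  have e : lo (Cut.of (dR δ)) y = 1 := by
    have := G.lo_eq (Cut.of (dR δ)) 1 (one_mem _) y ⟨hy.1, hy.2.mono fun x hx => ⟨?_, hx.2⟩⟩
    · rwa [one_mul] at this
    · have := pz_nonneg hx.2
      change ¬((δ x : ℝ) < 0)
      exact not_lt.mpr (by exact_mod_cast this)
  rw [← e]
  refine G.lo_congr P _ (low_le P D) _ _ (fun x hx hU => ?_) y hy y hy fun _ _ => rfl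
  rcases hx.2 with rfl | h1
  · simp
  · have h2 := h x hx.1 h1 hU
    have h3 : (1 : ℝ) ≤ δ x := by exact_mod_cast h1
    simp only [Cut.of_N, dR_apply]
    constructor <;> intro <;> linarith

theorem lo_all (G : S_GRP Q δ) {P : AddSubmonoid Λ} {y : (NS Q δ)ˣ} (hy : y ∈ GG Q δ P) (D : ℤ)
    (ψ : Λ →+ ℝ) (h : ∀ n ∈ P, 1 ≤ δ n → δ n ≤ D → ψ n < 0) :
    Eqv (fun x => δ x ≤ D) (lo (Cut.of ψ) y : NS Q δ) y := by
  have e : lo (Cut.of (-dR δ)) y = y := by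
    have := G.lo_eq (Cut.of (-dR δ)) y ⟨hy.1, hy.2.mono fun x hx => ⟨?_, hx.2⟩⟩ 1 (one_mem _)
    · rwa [mul_one] at this
    · rcases hx.2 with rfl | h1
      · exact zero_mem _
      · refine Or.inr ?_
        have h3 : (1 : ℝ) ≤ δ x := by exact_mod_cast h1
        change -(δ x : ℝ) < 0
        linarith
  have := G.lo_congr P _ (low_le P D) (Cut.of ψ) (Cut.of (-dR δ)) (fun x hx hU => ?_) y hy y hy
    fun _ _ => rfl
  · rwa [e] at this
  · rcases hx.2 with rfl | h1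
    · simp
    · have h2 := h x hx.1 h1 hU
      have h3 : (1 : ℝ) ≤ δ x := by exact_mod_cast h1
      simp only [Cut.of_N, AddMonoidHom.neg_apply, dR_apply]
      constructor <;> intro <;> linarith

theorem zer_of (θ : Λ →+ ℝ) (x : Λ) : x ∈ (Cut.of θ).Zer ↔ θ x = 0 :=
  ⟨fun h => le_antisymm (not_lt.mp h.2) (not_lt.mp h.1),
    fun h => ⟨by simp [h], by simp [h]⟩⟩

/-- crossing one generic wall -/
theorem step (C : Core Q) (hWP : S_WP Q δ) {s : Finset Λ} {g : (NS Q δ)ˣ} (hs : Seed δ s)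
    (hg : AT s g) {L : Subsemiring K} (hL : Q.HasT L) {f : NS Q δ} {m : ℤ}
    (hf : Sup (fun x => m ≤ δ x) f) (D : ℕ) (r : Λ) (hr : δ r ≤ m + D) (θ : Λ →+ ℝ)
    (hA : ∀ n ∈ PS s, 1 ≤ δ n → δ n ≤ D → θ n = 0 → Q.ω n r ≠ 0)
    (hP : ∀ n ∈ PS s, ∀ n' ∈ PS s, δ n ≤ D → δ n' ≤ D → θ n = 0 → θ n' = 0 →
      ∀ φ : Λ →+ ℝ, (Q.ω n' r : ℝ) * φ n = (Q.ω n r : ℝ) * φ n')
    (ih : ∀ p, δ p < δ r → (cj (lo (Cut.lex (Cut.of θ) (Cut.of (Q.Av r))) g) f).co p ∈ L) :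
    (cj (lo (Cut.lex (Cut.of θ) (Cut.of (-Q.Av r))) g) f).co r -
      (cj (lo (Cut.lex (Cut.of θ) (Cut.of (Q.Av r))) g) f).co r ∈ L := by
  have G := C.grp δ
  have hpar : ∀ n ∈ PS s, ∀ n' ∈ PS s, 1 ≤ δ n → δ n ≤ D → δ n' ≤ D →
      θ n = 0 → θ n' = 0 → Par n n' := by
    intro n hn n' hn' h1 h2 h3 h4 h5 φ h6
    have h7 := hP n hn n' hn' h2 h3 h4 h5 φ
    rw [h6, mul_zero] at h7
    have h8 : (Q.ω n r : ℝ) ≠ 0 := by exact_mod_cast hA n hn h1 h2 h4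
    exact (mul_eq_zero.1 h7.symm).resolve_left h8
  obtain ⟨l, hl, hE⟩ := hWP s g hs hg D θ hpar
  have hy : mid (Cut.of θ) g ∈ GG Q δ (PS s ⊓ (Cut.of θ).Zer) := (G.fac _ _ g hg.1).2.1
  have hw : wp Q δ l ∈ GG Q δ ⊤ := (C.ser δ).wp_mem l ⊤ fun x hx => ⟨(hl x hx).1, trivial⟩
  rw [(G.lex _ _ g (top_mem hg.1)).1, cj_mul] at ih ⊢
  rw [(G.lex _ _ g (top_mem hg.1)).1, cj_mul]
  have hh : Sup (fun x => m ≤ δ x) (cj (lo (Cut.of θ) g) f) := cj_low G (lo_mem G _ hg.1) hf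
  generalize cj (lo (Cut.of θ) g) f = h at *
  generalize mid (Cut.of θ) g = y at *
  have hWW : ∀ x ∈ l, ∀ n', (∃ x ∈ l, n' = x.2.2) → Q.ω n' x.2.2 = 0 := by
    rintro x hx _ ⟨x', hx', rfl⟩
    have h1 := hl x hx
    have h2 := hl x' hx'
    have := hpar _ h2.2.2.2 _ h1.2.2.2 h2.1 h2.2.1 h1.2.1 h2.2.2.1 h1.2.2.1
      ((Int.castAddHom ℝ).comp (Q.ω x'.2.2)) (by simp [Q.skew])
    simpa using this
  by_cases hc : ∀ n ∈ PS s ⊓ (Cut.of θ).Zer, 1 ≤ δ n → δ n ≤ D → 0 < Q.Av r n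
  · have e1 : ∀ p, δ p ≤ δ r → (cj (lo (Cut.of (Q.Av r)) y) h).co p = h.co p := fun p hp => by
      rw [cj_eq G (lo_mem G _ hy) (one_mem _) (lo_one G hy D _ hc) hh (hp.trans hr), cj_one]
    have e2 : (cj (lo (Cut.of (-Q.Av r)) y) h).co r = (cj (wp Q δ l) h).co r :=
      cj_eq G (lo_mem G _ hy) hw (fun x hx => (lo_all G hy D (-Q.Av r) (fun n h1 h2 h3 => by
        have := hc n h1 h2 h3
        rw [AddMonoidHom.neg_apply]; linarith) x hx).trans (hE x hx)) hh hr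
    rw [e1 r le_rfl, e2]
    refine (good_wp L (fun n => ∃ x ∈ l, n = x.2.2) r l (fun x hx => ?_) h fun w h1 _ => ?_).2
    · have h1 := hl x hx
      refine good_of L _ r x.2.2 _ h1.1 ⟨x, hx, rfl⟩ (hWW x hx) fun f p h2 h3 => ?_
      refine ((C.ser δ).pos L hL x h1.1 f p h2).1 ?_
      have := hc _ ⟨h1.2.2.2, (zer_of θ _).2 h1.2.2.1⟩ h1.1 h1.2.1
      rw [h3]
      rw [QD.Av_apply] at this
      exact_mod_cast this
    · rw [← e1 _ (by rw [map_sub]; omega)]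
      exact ih _ (by rw [map_sub]; omega)
  · have hc' : ∀ n ∈ PS s ⊓ (Cut.of θ).Zer, 1 ≤ δ n → δ n ≤ D → Q.Av r n < 0 := by
      push Not at hc
      obtain ⟨n0, h1, h2, h3, h4⟩ := hc
      intro n h5 h6 h7
      have z0 := (zer_of θ _).1 h1.2
      have z1 := (zer_of θ _).1 h5.2
      have h8 := hP n0 h1.1 n h5.1 h3 h7 z0 z1 (dR δ)
      have h9 : (Q.ω n0 r : ℝ) ≠ 0 := by exact_mod_cast hA n0 h1.1 h2 h3 z0
      have a1 : (1 : ℝ) ≤ δ n0 := by exact_mod_cast h2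
      have a2 : (1 : ℝ) ≤ δ n := by exact_mod_cast h6
      simp only [QD.Av_apply, dR_apply] at *
      have a3 : (Q.ω n0 r : ℝ) < 0 := lt_of_le_of_ne h4 h9
      by_contra a4
      nlinarith [mul_nonneg (not_lt.mp a4) (zero_le_one.trans a1)]
    have e1 : ∀ p, δ p ≤ δ r → (cj (lo (Cut.of (Q.Av r)) y) h).co p = (cj (wp Q δ l) h).co p :=
      fun p hp => cj_eq G (lo_mem G _ hy) hw
        (fun x hx => (lo_all G hy D _ hc' x hx).trans (hE x hx)) hh (hp.trans hr)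
    have e2 : (cj (lo (Cut.of (-Q.Av r)) y) h).co r =
        (cj (wp Q δ l)⁻¹ (cj (wp Q δ l) h)).co r := by
      rw [cj_eq G (lo_mem G _ hy) (one_mem _) (lo_one G hy D (-Q.Av r) (fun n h1 h2 h3 => by
        have := hc' n h1 h2 h3
        rw [AddMonoidHom.neg_apply]; linarith)) hh hr, ← cj_mul, mul_inv_cancel]
    rw [e1 r le_rfl, e2]
    refine (good_wp_inv L (fun n => ∃ x ∈ l, n = x.2.2) r l (fun x hx => ?_) _
      fun w h1 _ => ?_).2
    · have h1 := hl x hx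
      refine good_of L _ r x.2.2 _ h1.1 ⟨x, hx, rfl⟩ (hWW x hx) fun f p h2 h3 => ?_
      refine ((C.ser δ).pos L hL x h1.1 f p h2).2 ?_
      have := hc' _ ⟨h1.2.2.2, (zer_of θ _).2 h1.2.2.1⟩ h1.1 h1.2.1
      rw [h3]
      rw [QD.Av_apply] at this
      exact_mod_cast this
    · rw [← e1 _ (by rw [map_sub]; omega)]
      exact ih _ (by rw [map_sub]; omega)

theorem main (C : Core Q) (hWP : S_WP Q δ) {s : Finset Λ} {g : (NS Q δ)ˣ} (hs : Seed δ s)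
    (hg : AT s g) {L : Subsemiring K} (hL : Q.HasT L) {f : NS Q δ} (ha : ∀ r, att g f r ∈ L)
    {m : ℤ} (hf : Sup (fun x => m ≤ δ x) f) (D : ℕ) :
    ∀ r, δ r < m + D → ∀ θ : Λ →+ ℝ, (ex g θ f).co r - att g f r ∈ L := by
  have G := C.grp δ
  induction D with
  | zero =>
    intro r hr θ
    have e : ∀ ψ : Λ →+ ℝ, (ex g ψ f).co r = 0 := fun ψ => by
      by_contra h
      have := cj_low G (lo_mem G (Cut.of ψ) hg.1) hf r h
      omega
    rw [att, e, e, sub_zero]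
    exact L.zero_mem
  | succ D ih =>
    intro r hr θ
    have hr' : δ r ≤ m + D := by omega
    obtain ⟨hz, hfin⟩ := C.geo.level δ (s : Set Λ) s.finite_toSet hs
    have hS := hfin D
    set S : Set Λ := {x | x ∈ AddSubmonoid.closure (s : Set Λ) ∧ δ x ≤ D} with hSd
    have hT : ((fun p : Λ × Λ => Q.ω p.2 r • p.1 - Q.ω p.1 r • p.2) '' (S ×ˢ S)).Finite :=
      (hS.prod hS).image _
    obtain ⟨ε, _, hε⟩ := C.geo.lexap S hS θ (dR δ)
    obtain ⟨θ', _, h1, h2⟩ := C.geo.gen S _ hS hT 0 (θ + ε • dR δ) (map_zero _)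
    have h3 : ∀ n ∈ S, 1 ≤ δ n → (θ n < 0 ∧ θ' n < 0) ∨ (¬θ n < 0 ∧ 0 < θ' n) := by
      intro n hn h4
      have a1 : (1 : ℝ) ≤ δ n := by exact_mod_cast h4
      by_cases h5 : θ n < 0
      · exact Or.inl ⟨h5, (h1 n hn).1 ((hε n hn).1.2 (Or.inl h5))⟩
      · exact Or.inr ⟨h5, (h1 n hn).2 ((hε n hn).2.2 (Or.inr ⟨h5, by
          change (0 : ℝ) < δ n; linarith⟩))⟩
    have e0 : (ex g θ f).co r = (cj (lo (Cut.lex (Cut.of θ') (Cut.of (-Q.Av r))) g) f).co r := by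
      refine cg G hg.1 hf _ _ (fun n hn => ?_) hr'
      rcases hz n hn.1 with rfl | h4
      · simp
      · rcases h3 n hn h4 with h5 | h5
        · simp [h5.1, h5.2]
        · simp [h5.1, h5.2, h5.2.le]
    rw [e0]
    refine C.geo.flow S hS θ' (Q.Av r) (fun σ => (cj (lo σ g) f).co r - att g f r ∈ L)
      (fun c d hcd hq => ?_) ?_ fun t _ hq => ?_
    · rwa [← cg G hg.1 hf c d (fun n hn => (hcd n hn).1) hr']
    · rw [(G.lex _ _ g (top_mem hg.1)).1, cj_mul, (C.dl δ).trace r]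
      · rw [att, ex, sub_self]
        exact L.zero_mem
      · have a1 := (G.fac _ (Cut.of θ') _ (G.fac _ (Cut.of (Q.Av r)) g hg.1).2.1).1
        refine a1.2.mono fun x hx => ?_
        have := (zer_of _ x).1 hx.1.1.2
        rw [QD.Av_apply] at this
        exact_mod_cast this
    · have := step C hWP hs hg hL hf D r hr' (θ' + t • Q.Av r) (fun n hn a1 a2 a3 a4 => ?_)
        (fun n hn n' hn' a1 a2 a3 a4 φ => ?_) fun p hp => ?_
      · have := L.add_mem this hq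
        rwa [sub_add_sub_cancel] at this
      · have a5 : θ' n = 0 := by simpa [a4] using a3
        rcases h3 n ⟨hn, a2⟩ a1 with h5 | h5
        · exact h5.2.ne a5
        · exact h5.2.ne' a5
      · have a5 := h2 _ ⟨(n, n'), ⟨⟨hn, a1⟩, hn', a2⟩, rfl⟩ (by
          simp only [AddMonoidHom.add_apply, AddMonoidHom.smul_apply, QD.Av_apply,
            smul_eq_mul] at a3 a4
          simp only [map_sub, map_zsmul, zsmul_eq_mul]
          linear_combination (Q.ω n' r : ℝ) * a3 - (Q.ω n r : ℝ) * a4) φ (map_zero _)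
        simp only [map_sub, map_zsmul, zsmul_eq_mul] at a5
        linarith
      · obtain ⟨ε', _, hε'⟩ := C.geo.lexap S hS (θ' + t • Q.Av r) (Q.Av r)
        rw [← cg G hg.1 hf (Cut.of (θ' + t • Q.Av r + ε' • Q.Av r)) _
          (fun n hn => (hε' n hn).1) (hp.le.trans hr')]
        have := L.add_mem (ih p (by omega) (θ' + t • Q.Av r + ε' • Q.Av r)) (ha p)
        rwa [sub_add_cancel] at this

end BlA

theorem t_bl : T_BL := by
  intro Λ K _ _ Q δ C hWP s g hs hg L hL f ha θ r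
  obtain ⟨m, hm⟩ := f.lf.bdd
  exact BlA.main C hWP hs hg hL ha hm (δ r - m + 1).toNat r (by omega) θ

end Pool.Agent.P.MP_389f6f_co.Qt
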