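import Pool.Agent.P.MP_389f6f_co.QDefs

/-! Logarithmic derivatives in the completed quantum torus. -/

set_option autoImplicit false

namespace Pool.Agent.P.MP_389f6f_co.Qt
open Finset

namespace DlA

variable {Λ K : Type} [AddCommGroup Λ] [CommRing K] {Q : QD Λ K} {δ : Λ →+ ℤ}

theorem unit (Q : QD Λ K) (m : ℤ) (hm : m ≠ 0) : ∃ a : K, (m : K) * a = 1 := by
  refine ⟨Q.ι (PowerSeries.C ((m : ℚ)⁻¹)), ?_⟩
  have h1 : (m : K) = Q.ι (PowerSeries.C (m : ℚ)) := by simp only [map_intCast]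
  rw [h1, ← map_mul, ← map_mul, mul_inv_cancel₀ (by exact_mod_cast hm), map_one, map_one]

theorem cancel (Q : QD Λ K) (m : ℤ) (a : K) (hm : m ≠ 0) (h : (m : K) * a = 0) : a = 0 := by
  obtain ⟨b, hb⟩ := unit Q m hm
  calc a = ((m : K) * b) * a := by rw [hb, one_mul]
    _ = b * ((m : K) * a) := by ring
    _ = 0 := by rw [h, mul_zero]

theorem der_co (φ : Λ →+ ℤ) (f : NS Q δ) (x : Λ) : (Der φ f).co x = (φ x : K) * f.co x := rfl

theorem der_mul (φ : Λ →+ ℤ) (f g : NS Q δ) : Der φ (f * g) = Der φ f * g + f * Der φ g := by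
  ext r
  rw [NS.add_co, der_co, NS.mul_co, NS.mul_co, NS.mul_co, mul_finsum' _ _ (NS.hfs f g r),
    ← finsum_add_distrib (NS.hfs _ g r) (NS.hfs f _ r)]
  refine finsum_congr fun a => ?_
  rw [der_co, der_co, map_sub]
  push_cast
  ring

theorem der_one (φ : Λ →+ ℤ) : Der φ (1 : NS Q δ) = 0 := by
  ext x
  rw [der_co, NS.one_co]
  split_ifs with h
  · subst h; simp
  · simp

theorem der_comm (φ ψ : Λ →+ ℤ) (f : NS Q δ) : Der φ (Der ψ f) = Der ψ (Der φ f) := by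
  ext x
  simp only [der_co]
  ring

theorem der_sup {p : Λ → Prop} (φ : Λ →+ ℤ) {f : NS Q δ} (hf : Sup p f) :
    Sup (fun x => p x ∧ x ≠ 0) (Der φ f) := fun x hx => by
  rw [der_co] at hx
  refine ⟨hf x fun h => hx (by rw [h, mul_zero]), fun h => hx ?_⟩
  subst h
  simp

theorem der_inv (φ : Λ →+ ℤ) (y : (NS Q δ)ˣ) :
    Der φ ((y⁻¹ : (NS Q δ)ˣ) : NS Q δ) = -(dl φ y * ((y⁻¹ : (NS Q δ)ˣ) : NS Q δ)) := by
  have h := der_mul φ ((y⁻¹ : (NS Q δ)ˣ) : NS Q δ) (y : NS Q δ)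
  rw [Units.inv_mul, der_one] at h
  have h2 : Der φ ((y⁻¹ : (NS Q δ)ˣ) : NS Q δ) * (y : NS Q δ) = -dl φ y :=
    eq_neg_of_add_eq_zero_left h.symm
  calc Der φ ((y⁻¹ : (NS Q δ)ˣ) : NS Q δ)
      = Der φ ((y⁻¹ : (NS Q δ)ˣ) : NS Q δ) * (y : NS Q δ) * ((y⁻¹ : (NS Q δ)ˣ) : NS Q δ) := by
        rw [Units.mul_inv_cancel_right]
    _ = _ := by rw [h2, neg_mul]

theorem comm (n : Λ) (u f : NS Q δ) (hu : Sup (fun x => Q.ω x n = 0) u) :
    (f * u).co n = (u * f).co n := by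
  rw [NS.mul_co', NS.mul_co]
  refine finsum_congr fun a => ?_
  by_cases h : u.co a = 0
  · simp [h]
  · rw [hu a h, neg_zero]; ring

theorem add_ne {P : AddSubmonoid Λ} {x y : Λ} (hx : x ∈ P ⊓ Pz δ) (hy : y ∈ P ⊓ Pz δ)
    (h0 : y ≠ 0) : x + y ≠ 0 := fun h => by
  have h1 : 1 ≤ δ y := hy.2.resolve_left h0
  have h2 : δ x + δ y = 0 := by rw [← map_add, h, map_zero]
  rcases hx.2 with e | e
  · rw [e, zero_add] at h; exact h0 h
  · omega

theorem sup (P : AddSubmonoid Λ) (φ : Λ →+ ℤ) (y : (NS Q δ)ˣ) (hy : y ∈ GG Q δ P) :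
    Sup (fun x => x ∈ P ⊓ Pz δ ∧ x ≠ 0) (dl φ y) :=
  ((GG Q δ P).inv_mem hy).2.mul (der_sup φ hy.2) fun _ _ h1 h2 =>
    ⟨add_mem h1 h2.1, add_ne h1 h2.1 h2.2⟩

theorem mul (φ : Λ →+ ℤ) (a b : (NS Q δ)ˣ) : dl φ (a * b) = cj b (dl φ a) + dl φ b := by
  simp only [dl, cj, mul_inv_rev, Units.val_mul, der_mul, mul_add, mul_assoc,
    Units.inv_mul_cancel_left]

theorem trace (n : Λ) (u : (NS Q δ)ˣ) (f : NS Q δ)
    (hu : Sup (fun x => Q.ω x n = 0) (u : NS Q δ)) : (cj u f).co n = f.co n := by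
  rw [cj, comm n _ _ hu, Units.mul_inv_cancel_left]

theorem der_dl (φ ψ : Λ →+ ℤ) (y : (NS Q δ)ˣ) : Der ψ (dl φ y) =
    ((y⁻¹ : (NS Q δ)ˣ) : NS Q δ) * Der ψ (Der φ (y : NS Q δ)) - dl ψ y * dl φ y := by
  conv_lhs => rw [dl, der_mul, der_inv]
  rw [neg_mul, mul_assoc, neg_add_eq_sub]
  rfl

theorem sym (n : Λ) (φ ψ : Λ →+ ℤ) (y : (NS Q δ)ˣ) (hy : y ∈ GG Q δ (Cut.of (Q.Av n)).Zer) :
    (ψ n : K) * (dl φ y).co n = (φ n : K) * (dl ψ y).co n := by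
  have h : Sup (fun x => Q.ω x n = 0) (dl ψ y) := (sup _ ψ y hy).mono fun x hx => by
    obtain ⟨h1, h2⟩ := (Cut.mem_Zer _ _).1 hx.1.1
    rw [Cut.of_N, QD.Av_apply] at h1
    rw [Cut.of_P, QD.Av_apply] at h2
    exact_mod_cast le_antisymm (not_lt.mp h2) (not_lt.mp h1)
  rw [← der_co, ← der_co, der_dl, der_dl, der_comm, NS.sub_co, NS.sub_co, comm n _ _ h]

theorem eqv (G : S_GRP Q δ) (P : AddSubmonoid Λ) (U : Λ → Prop) (hU : Low δ P U) (φ : Λ →+ ℤ)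
    (y : (NS Q δ)ˣ) (hy : y ∈ GG Q δ P) (y' : (NS Q δ)ˣ) (hy' : y' ∈ GG Q δ P)
    (h : Eqv U (y : NS Q δ) y') : Eqv U (dl φ y) (dl φ y') :=
  G.eqv_mul P U hU _ _ _ _ ((GG Q δ P).inv_mem hy).2 ((GG Q δ P).inv_mem hy').2
    ((der_sup φ hy.2).mono fun _ hx => hx.1) ((der_sup φ hy'.2).mono fun _ hx => hx.1)
    (G.eqv_inv P U hU y hy y' hy' h) fun x hx => by rw [der_co, der_co, h x hx]

theorem dl_eq (φ : Λ →+ ℤ) (y : (NS Q δ)ˣ) :
    dl φ y = Der φ (y : NS Q δ) - ((y : NS Q δ) - 1) * dl φ y := by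
  rw [sub_mul, one_mul, dl, Units.mul_inv_cancel_left, sub_sub_cancel]

theorem top (G : S_GRP Q δ) (P : AddSubmonoid Λ) (U : Λ → Prop) (hU : Low δ P U) (φ : Λ →+ ℤ)
    (n : Λ) (hB : Bd δ P U n) (y : (NS Q δ)ˣ) (hy : y ∈ GG Q δ P) (y' : (NS Q δ)ˣ)
    (hy' : y' ∈ GG Q δ P) (h : Eqv U (y : NS Q δ) y') :
    (dl φ y).co n - (dl φ y').co n = (φ n : K) * ((y : NS Q δ).co n - (y' : NS Q δ).co n) := by
  have h1 : (((y : NS Q δ) - y') * dl φ y).co n = 0 := by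
    by_contra hc
    obtain ⟨a, h2, h3⟩ := NS.conv_ne hc
    obtain ⟨h4, h5⟩ := sup P φ y hy _ h3
    exact eqv_iff.1 h a h2 (hB a ((hy.2.sub hy'.2) a h2) _ h4 (by simp) h5)
  have h2 : (((y' : NS Q δ) - 1) * (dl φ y - dl φ y')).co n = 0 := by
    by_contra hc
    obtain ⟨a, h2, h3⟩ := NS.conv_ne hc
    obtain ⟨h4, h5⟩ := hy'.2.sub_one hy'.1 a h2
    exact eqv_iff.1 (eqv G P U hU φ y hy y' hy' h) _ h3
      (hB _ (((sup P φ y hy).sub (sup P φ y' hy')) _ h3).1 a h4 (by simp) h5)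
  have h3 : dl φ y - dl φ y' = Der φ (y : NS Q δ) - Der φ (y' : NS Q δ) -
      ((y : NS Q δ) - y') * dl φ y - ((y' : NS Q δ) - 1) * (dl φ y - dl φ y') := by
    conv_lhs => rw [dl_eq φ y, dl_eq φ y']
    noncomm_ring
  rw [← NS.sub_co, h3, NS.sub_co, NS.sub_co, NS.sub_co, h1, h2, der_co, der_co]
  ring

theorem uniq (G : S_GRP Q δ) (P : AddSubmonoid Λ) (U : Λ → Prop) (hU : Low δ P U)
    (y : (NS Q δ)ˣ) (hy : y ∈ GG Q δ P) (y' : (NS Q δ)ˣ) (hy' : y' ∈ GG Q δ P)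
    (h : Eqv U (dl δ y) (dl δ y')) : Eqv U (y : NS Q δ) y' := by
  have out : ∀ x, x ∉ P ⊓ Pz δ → (y : NS Q δ).co x = (y' : NS Q δ).co x := fun x hx => by
    have e1 : (y : NS Q δ).co x = 0 := by_contra fun e => hx (hy.2 x e)
    have e2 : (y' : NS Q δ).co x = 0 := by_contra fun e => hx (hy'.2 x e)
    rw [e1, e2]
  have nn : ∀ x, x ∈ P ⊓ Pz δ → 0 ≤ δ x := fun x hx => by
    rcases hx.2 with e | e
    · rw [e, map_zero]
    · omega
  have key : ∀ k : ℕ, Eqv (fun x => U x ∧ δ x < k) (y : NS Q δ) y' := by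
    intro k
    induction k with
    | zero => exact fun x hx => out x fun hp => by have := nn x hp; have := hx.2; omega
    | succ k ih =>
      intro x hx
      by_cases hp : x ∈ P ⊓ Pz δ
      · by_cases h0 : x = 0
        · rw [h0, hy.1, hy'.1]
        · have h1 : 1 ≤ δ x := hp.2.resolve_left h0
          have hL : Low δ P fun x => U x ∧ δ x < k := fun a ha b hb hab =>
            ⟨hU a ha b hb hab.1, by
              have := hab.2; have := nn b hb; rw [map_add] at *; omega⟩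
          have hB : Bd δ P (fun x => U x ∧ δ x < k) x := fun a ha b hb hab hb0 =>
            ⟨hU a ha b hb (hab ▸ hx.1), by
              have h2 : 1 ≤ δ b := hb.2.resolve_left hb0
              have h3 := hx.2
              rw [← hab, map_add] at h3
              push_cast at h3
              omega⟩
          have h2 := top G P _ hL δ x hB y hy y' hy' ih
          rw [h x hx.1, sub_self] at h2
          exact sub_eq_zero.1 (cancel Q (δ x) _ (by omega) h2.symm)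
      · exact out x hp
  exact fun x hx => key (δ x + 1).toNat x ⟨hx, by omega⟩

end DlA

theorem t_dl : T_DL := fun _ _ _ _ Q _ G =>
  { cancel := DlA.cancel Q
    unit := DlA.unit Q
    sup := DlA.sup
    mul := DlA.mul
    one := fun φ => by rw [dl, Units.val_one, DlA.der_one, mul_zero]
    trace := DlA.trace
    sym := DlA.sym
    eqv := DlA.eqv G
    top := DlA.top G
    uniq := DlA.uniq G }

end Pool.Agent.P.MP_389f6f_co.Qt
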