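import Pool.Agent.P.MP_389f6f_co.QDefs

/-! Positivity of a local scattering, from the numerical output of the species part. -/

set_option autoImplicit false

namespace Pool.Agent.P.MP_389f6f_co.Qt
open Finset

namespace DtA

variable {Λ K : Type} [AddCommGroup Λ] [CommRing K] {Q : QD Λ K} {δ : Λ →+ ℤ}

/-! ### Scalars -/

theorem tp_pow (k : ℤ) (m : ℕ) : Q.tp k ^ m = Q.tp (m * k) := by
  induction m with
  | zero => simp
  | succ m ih => rw [pow_succ, ih, ← Q.tp_add]; congr 1; push_cast; ring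

theorem tp_sum {α : Type} (s : Finset α) (f : α → ℤ) :
    Q.tp (∑ i ∈ s, f i) = ∏ i ∈ s, Q.tp (f i) := by
  classical
  induction s using Finset.induction_on with
  | empty => simp
  | insert a s ha ih => rw [sum_insert ha, prod_insert ha, Q.tp_add, ih]

theorem ι_X_pow (e : ℕ) : Q.ι (PowerSeries.X ^ e) = Q.tp (2 * e) := by
  rw [map_pow, Q.hι, ← pow_mul, ← Q.tp_nat]; congr 1

theorem cf_eq (h : Sp.S_CB) (m : ℕ) :
    ∃ e : ℕ, 2 * e + m = m * m ∧ Sp.cf m = PowerSeries.X ^ e * Sp.cb m := by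
  induction m with
  | zero => exact ⟨0, rfl, by rw [h.1, h.2.1]; simp⟩
  | succ m ih =>
    obtain ⟨e, he, ih⟩ := ih
    refine ⟨e + m, by nlinarith, ?_⟩
    have h0 : (1 - PowerSeries.X ^ (m + 1) : PowerSeries ℚ) ≠ 0 := fun h0 => by
      simpa using congrArg PowerSeries.constantCoeff h0
    refine mul_right_cancel₀ h0 ?_
    rw [h.2.2.2 m, mul_assoc, h.2.2.1 m, ih]
    ring

theorem yc_cf (h : Sp.S_CB) (b : Bool) (k : ℤ) (m : ℕ) :
    PowerSeries.coeff m (Q.Yc b (Q.tp k)) =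
      Q.tp (m * k + m - m * m * (if b then 1 else 0)) * Q.ι (Sp.cf m) := by
  rw [QD.Yc, PowerSeries.coeff_mk, tp_pow]
  cases b with
  | false =>
    simp only [Bool.false_eq_true, if_false, mul_zero, sub_zero]
    rw [Q.tp_add, Q.tp_nat, mul_assoc]
  | true =>
    obtain ⟨e, he, h1⟩ := cf_eq h m
    simp only [if_true, mul_one]
    rw [h1, map_mul, ι_X_pow, ← mul_assoc, ← Q.tp_add]
    congr 2
    have : (2 * e + m : ℤ) = m * m := by exact_mod_cast he
    omega

theorem yc_odd (p : Prop) [Decidable p] (k : ℤ) (m : ℕ) :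
    PowerSeries.coeff m (Q.Yc (decide ¬p) (Q.tp (k - if p then 1 else 0))) =
      Q.tp (m * k) * Q.ι (if p then Sp.cf m else Sp.cb m) := by
  rw [QD.Yc, PowerSeries.coeff_mk, tp_pow]
  by_cases hp : p
  · simp only [hp, not_true, decide_false, Bool.false_eq_true, if_false, if_true]
    rw [← mul_assoc, ← Q.tp_nat, ← Q.tp_add]
    congr 2
    ring
  · simp [hp]

theorem yc_zero (h : Sp.S_CB) (b : Bool) (c : K) : PowerSeries.coeff 0 (Q.Yc b c) = 1 := by
  rw [QD.Yc, PowerSeries.coeff_mk, h.1, h.2.1]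
  simp

/-! ### Push-forward of series along a family of vectors -/

section pu
variable {J : Type} [Fintype J]

/-- the vector with given multiplicities -/
def pv (n : J → Λ) : (J → ℕ) →+ Λ where
  toFun d := ∑ j, d j • n j
  map_zero' := by simp
  map_add' d d' := by simp [add_smul, sum_add_distrib]

theorem pv_apply (n : J → Λ) (d : J → ℕ) : pv n d = ∑ j, d j • n j := rfl

theorem le_δ {n : J → Λ} (hn : ∀ j, 1 ≤ δ (n j)) (d : J → ℕ) (i : J) :
    (d i : ℤ) ≤ δ (pv n d) := by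
  rw [pv_apply, map_sum]
  refine le_trans ?_ (single_le_sum (f := fun j => δ (d j • n j)) (fun j _ => ?_) (mem_univ i))
  · rw [map_nsmul, nsmul_eq_mul]
    exact le_mul_of_one_le_right (by omega) (hn i)
  · rw [map_nsmul, nsmul_eq_mul]
    exact mul_nonneg (by omega) (by have := hn j; omega)

theorem one_le_δ {n : J → Λ} (hn : ∀ j, 1 ≤ δ (n j)) {d : J → ℕ} (hd : d ≠ 0) :
    1 ≤ δ (pv n d) := by
  obtain ⟨i, hi⟩ := Function.ne_iff.1 hd
  have := le_δ hn d i
  simp only [Pi.zero_apply] at hi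
  omega

theorem fin_le {n : J → Λ} (hn : ∀ j, 1 ≤ δ (n j)) (c : ℤ) :
    {d : J → ℕ | δ (pv n d) ≤ c}.Finite :=
  (Set.Finite.pi' fun _ : J => Set.finite_Iic c.toNat).subset fun d hd i => by
    have h1 := le_δ hn d i
    have h2 : δ (pv n d) ≤ c := hd
    simp only [Set.mem_Iic]
    omega

/-- the fibre over `x` -/
noncomputable def fb {n : J → Λ} (hn : ∀ j, 1 ≤ δ (n j)) (x : Λ) : Finset (J → ℕ) :=
  ((fin_le hn (δ x)).subset (t := {d | pv n d = x}) fun d hd => by
    have h : pv n d = x := hd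
    simp [h]).toFinset

theorem mem_fb {n : J → Λ} {hn : ∀ j, 1 ≤ δ (n j)} {x : Λ} {d : J → ℕ} :
    d ∈ fb hn x ↔ pv n d = x := by
  unfold fb
  exact Set.Finite.mem_toFinset _

variable (Q) in
/-- push-forward -/
noncomputable def pu {n : J → Λ} (hn : ∀ j, 1 ≤ δ (n j)) (c : (J → ℕ) → K) : NS Q δ :=
  NS.mk Q (fun x => ∑ d ∈ fb hn x, c d) fun e =>
    ((fin_le hn e).image (pv n)).subset fun x hx => by
      obtain ⟨d, hd, -⟩ := exists_ne_zero_of_sum_ne_zero hx.1
      have h := mem_fb.1 hd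
      exact ⟨d, by have := hx.2; simpa [h] using this, h⟩

variable {n : J → Λ} {hn : ∀ j, 1 ≤ δ (n j)}

theorem pu_co (c : (J → ℕ) → K) (x : Λ) : (pu Q hn c).co x = ∑ d ∈ fb hn x, c d := rfl

theorem pu_ne {c : (J → ℕ) → K} {x : Λ} (h : (pu Q hn c).co x ≠ 0) :
    ∃ d, pv n d = x ∧ c d ≠ 0 := by
  obtain ⟨d, hd, h1⟩ := exists_ne_zero_of_sum_ne_zero h
  exact ⟨d, mem_fb.1 hd, h1⟩

theorem pu_co_zero (c : (J → ℕ) → K) : (pu Q hn c).co 0 = c 0 := by
  rw [pu_co, sum_eq_single_of_mem 0 (mem_fb.2 (map_zero _)) fun d hd h0 => ?_]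
  have h1 := one_le_δ hn h0
  rw [mem_fb.1 hd, map_zero] at h1
  omega

theorem pv_Pz (hn : ∀ j, 1 ≤ δ (n j)) (d : J → ℕ) : pv n d ∈ Pz δ := by
  by_cases hd : d = 0
  · exact Or.inl (by rw [hd, map_zero])
  · exact Or.inr (one_le_δ hn hd)

theorem pu_mul [DecidableEq J] (c c' : (J → ℕ) → K) : pu Q hn c * pu Q hn c' =
    pu Q hn fun d => ∑ p ∈ Sp.AD d, Q.tp (Q.ω (pv n p.1) (pv n p.2)) * c p.1 * c' p.2 := by
  classical
  ext r
  set S : Finset ((J → ℕ) × (J → ℕ)) := (fb hn r).biUnion Sp.AD with hS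
  have hmem : ∀ p, p ∈ S ↔ pv n p.1 + pv n p.2 = r := fun p => by
    simp only [hS, mem_biUnion, mem_fb, Sp.mem_AD, exists_eq_right', map_add]
  rw [pu_co, ← sum_biUnion, ← hS, NS.mul_co_sum _ _ r (S.image fun p => pv n p.1)]
  · refine Eq.trans ?_ (sum_fiberwise_of_maps_to (s := S) (g := fun p => pv n p.1)
      (t := S.image fun p => pv n p.1) (fun p hp => mem_image_of_mem _ hp) _)
    refine sum_congr rfl fun a _ => ?_
    rw [pu_co, pu_co, mul_assoc, sum_mul_sum, ← sum_product', mul_sum]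
    refine sum_congr ?_ fun p hp => ?_
    · ext p
      simp only [mem_product, mem_fb, mem_filter, hmem]
      constructor
      · rintro ⟨h1, h2⟩
        exact ⟨by rw [h1, h2]; abel, h1⟩
      · rintro ⟨h1, h2⟩
        exact ⟨h2, by rw [← h1, h2]; abel⟩
    · obtain ⟨h1, h2⟩ := mem_filter.1 hp
      rw [← (hmem p).1 h1, ← h2, map_add, Q.skew, zero_add, mul_assoc]
  · intro a h1 h2
    obtain ⟨d, hd, -⟩ := pu_ne h1
    obtain ⟨d', hd', -⟩ := pu_ne h2
    exact mem_image.2 ⟨(d, d'), (hmem _).2 (by rw [hd, hd']; abel), hd⟩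
  · intro d _ d' _ h
    exact disjoint_left.2 fun p h1 h2 =>
      h (((Sp.mem_AD _ _).1 h1).symm.trans ((Sp.mem_AD _ _).1 h2))

theorem pu_one [DecidableEq J] :
    (1 : NS Q δ) = pu Q hn fun d => if d = 0 then 1 else 0 := by
  ext x
  rw [NS.one_co, pu_co, sum_ite_eq']
  by_cases hx : x = 0
  · rw [if_pos hx, if_pos (mem_fb.2 (by rw [hx, map_zero]))]
  · rw [if_neg hx, if_neg fun h => hx (by rw [← mem_fb.1 h, map_zero])]

theorem pv_single [DecidableEq J] (j : J) (k : ℕ) : pv n (Pi.single j k) = k • n j := by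
  rw [pv_apply, sum_eq_single_of_mem j (mem_univ j) fun i _ hi => by simp [hi]]
  simp

theorem ser_eq [DecidableEq J] (hS : S_SER Q δ) (j : J) (p : PowerSeries K) :
    ser (n j) p = pu Q hn fun d =>
      if ∀ i, i ≠ j → d i = 0 then PowerSeries.coeff (d j) p else 0 := by
  have key : ∀ d : J → ℕ, (∀ i, i ≠ j → d i = 0) → d = Pi.single j (d j) := fun d hd => by
    ext i
    by_cases hi : i = j
    · subst hi; simp
    · simp [hi, hd i hi]
  ext x
  by_cases hx : ∃ k : ℕ, x = k • n j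
  · obtain ⟨k, rfl⟩ := hx
    rw [hS.co _ _ _ (hn j), pu_co,
      sum_eq_single_of_mem (Pi.single j k) (mem_fb.2 (pv_single j k)) fun d hd h0 => ?_]
    · rw [if_pos fun i hi => by simp [hi]]
      simp
    · refine if_neg fun h1 => h0 ?_
      have h2 := mem_fb.1 hd
      rw [key d h1, pv_single] at h2
      have h3 := congrArg δ h2
      rw [map_nsmul, map_nsmul, nsmul_eq_mul, nsmul_eq_mul] at h3
      have h4 : (d j : ℤ) = k := mul_right_cancel₀ (by have := hn j; omega) h3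
      rw [key d h1]
      congr 1
      exact_mod_cast h4
  · have h1 : (ser (n j) p : NS Q δ).co x = 0 := by
      by_contra h
      exact hx (hS.sup _ _ x h)
    rw [h1, pu_co]
    refine (sum_eq_zero fun d hd => if_neg fun h2 => hx ⟨d j, ?_⟩).symm
    rw [← mem_fb.1 hd, ← pv_single, ← key d h2]

/-- a bilinear form on multiplicity vectors -/
def bl (B : J → J → ℤ) (d d' : J → ℕ) : ℤ := ∑ i, ∑ j, (d i : ℤ) * d' j * B i j

theorem bl_add (B : J → J → ℤ) (u v : J → ℕ) :
    bl B (u + v) (u + v) = bl B u u + bl B u v + bl B v u + bl B v v := by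
  simp only [bl, ← sum_add_distrib, Pi.add_apply]
  refine sum_congr rfl fun i _ => sum_congr rfl fun j _ => ?_
  push_cast
  ring

theorem bl_congr {B B' : J → J → ℤ} {u v : J → ℕ}
    (h : ∀ i j, u i ≠ 0 → v j ≠ 0 → B i j = B' i j) : bl B u v = bl B' u v := by
  refine sum_congr rfl fun i _ => sum_congr rfl fun j _ => ?_
  by_cases hi : u i = 0
  · simp [hi]
  · by_cases hj : v j = 0
    · simp [hj]
    · rw [h i j hi hj]

theorem bl_zero (u v : J → ℕ) : bl (fun _ _ => 0) u v = 0 := by simp [bl]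

theorem bl_swap (B : J → J → ℤ) (u v : J → ℕ) : bl B u v = bl (fun i j => B j i) v u := by
  rw [bl, sum_comm]
  exact sum_congr rfl fun i _ => sum_congr rfl fun j _ => by ring

theorem bl_sub (B B' : J → J → ℤ) (u v : J → ℕ) :
    bl (fun i j => B i j - B' i j) u v = bl B u v - bl B' u v := by
  simp only [bl, ← sum_sub_distrib, mul_sub]

theorem ω_pv (u v : J → ℕ) :
    Q.ω (pv n u) (pv n v) = bl (fun i j => Q.ω (n i) (n j)) u v := by
  simp only [pv_apply, map_sum, AddMonoidHom.finsetSum_apply, map_nsmul,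
    AddMonoidHom.nsmul_apply, nsmul_eq_mul]
  rw [bl, sum_comm]
  simp only [mul_sum]
  exact sum_congr rfl fun i _ => sum_congr rfl fun j _ => by ring

theorem arr_bl (a : J → J → ℕ) (u v : J → ℕ) :
    (Sp.arr a u v : ℤ) = bl (fun i j => (a i j : ℤ)) u v := by
  simp [Sp.arr, bl]

end pu

/-- the ordered product of wall functions -/
theorem wp_pu {J : Type} [Fintype J] [DecidableEq J] (hC : Sp.S_CB) (hS : S_SER Q δ)
    (w : J → Bool × ℤ × Λ) (hn : ∀ j, 1 ≤ δ (w j).2.2) (B : J → J → ℤ) (hB : ∀ i, B i i = 0)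
    (L : List J) (hL : L.Nodup)
    (hP : L.Pairwise fun i j => B i j = Q.ω (w i).2.2 (w j).2.2 ∧ B j i = 0) :
    (wp Q δ (L.map w) : NS Q δ) = pu Q hn fun d => if ∀ j, j ∉ L → d j = 0 then
      Q.tp (bl B d d) * ∏ j, PowerSeries.coeff (d j) (Q.Yc (w j).1 (Q.tp (w j).2.1)) else 0 := by
  induction L with
  | nil =>
    refine (pu_one (hn := hn)).trans (congrArg _ (funext fun d => ?_))
    by_cases hd : d = 0
    · subst hd
      simp [bl, yc_zero hC]
    · rw [if_neg hd, if_neg fun h => hd (funext fun j => h j (by simp))]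
  | cons j L ih =>
    obtain ⟨h1, h2⟩ := List.nodup_cons.1 hL
    obtain ⟨h3, h4⟩ := List.pairwise_cons.1 hP
    have e : wp Q δ ((j :: L).map w) = wf Q δ (w j) * wp Q δ (L.map w) := by simp [wp]
    rw [e, Units.val_mul, ih h2 h4, hS.val _ (hn j), ser_eq (hn := hn) hS j, pu_mul]
    refine congrArg _ (funext fun d => ?_)
    have huv : Pi.single j (d j) + Function.update d j 0 = d := by
      ext i
      by_cases hi : i = j
      · subst hi; simp
      · simp [hi]
    rw [sum_eq_single_of_mem (Pi.single j (d j), Function.update d j 0)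
      ((Sp.mem_AD _ _).2 huv) fun p hp h0 => ?_]
    · dsimp only
      rw [if_pos fun i hi => by simp [hi]]
      by_cases hd : ∀ i, i ∉ j :: L → d i = 0
      · have hv : ∀ i, i ∉ L → Function.update d j 0 i = 0 := fun i hi => by
          by_cases hij : i = j
          · subst hij; simp
          · rw [Function.update_of_ne hij]; exact hd i (by simp [hij, hi])
        have hu : ∀ i, (Pi.single j (d j) : J → ℕ) i ≠ 0 → i = j := fun i hi => by
          by_contra hij
          exact hi (by simp [hij])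
        have hv' : ∀ i, Function.update d j 0 i ≠ 0 → i ∈ L := fun i hi => by
          by_contra hij
          exact hi (hv i hij)
        rw [if_pos hd, if_pos hv]
        have e1 : bl B d d = Q.ω (pv (fun j => (w j).2.2) (Pi.single j (d j)))
            (pv (fun j => (w j).2.2) (Function.update d j 0)) +
            bl B (Function.update d j 0) (Function.update d j 0) := by
          conv_lhs => rw [← huv]
          rw [bl_add, ω_pv, bl_congr (B' := fun _ _ => 0) fun a b ha hb => by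
              rw [hu a ha, hu b hb, hB], bl_zero,
            bl_congr (u := Function.update d j 0) (v := Pi.single j (d j)) (B' := fun _ _ => 0)
              fun a b ha hb => by rw [hu b hb]; exact (h3 a (hv' a ha)).2, bl_zero,
            bl_congr (u := Pi.single j (d j)) (v := Function.update d j 0)
              (B' := fun a b => Q.ω (w a).2.2 (w b).2.2)
              fun a b ha hb => by rw [hu a ha]; exact (h3 b (hv' b hb)).1]
          ring
        rw [e1, Q.tp_add, ← mul_prod_erase univ _ (mem_univ j),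
          ← mul_prod_erase univ (fun i => PowerSeries.coeff (d i) _) (mem_univ j),
          prod_congr rfl (s₁ := univ.erase j)
            (g := fun i => PowerSeries.coeff (d i) (Q.Yc (w i).1 (Q.tp (w i).2.1)))
            fun i hi => by rw [Function.update_of_ne (ne_of_mem_erase hi)]]
        simp only [Function.update_self, Pi.single_eq_same, yc_zero hC]
        ring
      · rw [if_neg hd, if_neg fun h => hd fun i hi => ?_, mul_zero]
        have h5 := not_or.1 (List.mem_cons.not.1 hi)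
        have := h i h5.2
        rwa [Function.update_of_ne h5.1] at this
    · by_cases c1 : ∀ i, i ≠ j → p.1 i = 0
      · rw [if_neg (c := ∀ i, i ∉ L → p.2 i = 0) fun c2 => h0 ?_, mul_zero]
        have h5 := (Sp.mem_AD _ _).1 hp
        have h6 : p.2 j = 0 := c2 j h1
        refine Prod.ext (funext fun i => ?_) (funext fun i => ?_)
        · by_cases hi : i = j
          · subst hi; simp [← h5, h6]
          · simp [hi, c1 i hi]
        · by_cases hi : i = j
          · subst hi; simp [h6]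
          · simp [hi, ← h5, c1 i hi]
      · rw [if_neg c1, mul_zero, zero_mul]

/-! ### Quiver generating series -/

section el
variable {I : Type} [Fintype I] [DecidableEq I] {n : I → Λ}

/-- the normalising exponent -/
def ka (k : I → ℤ) (a : I → I → ℕ) (d : I → ℕ) : ℤ :=
  ∑ i, (d i : ℤ) * (k i + 1) - Sp.arr a d d

variable (Q) in
noncomputable def el (hn : ∀ j, 1 ≤ δ (n j)) (k : I → ℤ) (a : I → I → ℕ)
    (H : (I → ℕ) → PowerSeries ℚ) : NS Q δ :=
  pu Q hn fun d => Q.tp (ka k a d) * Q.ι (H d)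

variable {hn : ∀ j, 1 ≤ δ (n j)} {k : I → ℤ} {a : I → I → ℕ}

theorem el_mul (hω : ∀ d d', (Sp.arr a d d' : ℤ) - Sp.arr a d' d = Q.ω (pv n d) (pv n d'))
    (H H' : (I → ℕ) → PowerSeries ℚ) : el Q hn k a H * el Q hn k a H' =
      el Q hn k a fun d => ∑ p ∈ Sp.AD d, PowerSeries.X ^ Sp.arr a p.1 p.2 * H p.1 * H' p.2 := by
  rw [el, el, pu_mul, el]
  refine congrArg _ (funext fun d => ?_)
  rw [map_sum, mul_sum]
  refine sum_congr rfl fun p hp => ?_
  have e : ka k a d + 2 * Sp.arr a p.1 p.2 =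
      Q.ω (pv n p.1) (pv n p.2) + ka k a p.1 + ka k a p.2 := by
    rw [← (Sp.mem_AD _ _).1 hp, ← hω]
    simp only [ka, arr_bl, bl_add, Pi.add_apply, Nat.cast_add, add_mul, sum_add_distrib]
    ring
  have e' := congrArg Q.tp e
  rw [Q.tp_add, Q.tp_add, Q.tp_add] at e'
  rw [map_mul, map_mul, ι_X_pow]
  linear_combination (-(Q.ι (H p.1) * Q.ι (H' p.2))) * e'

omit [DecidableEq I] in
theorem el_unit (hG : S_GRP Q δ) (P : AddSubmonoid Λ) {H : (I → ℕ) → PowerSeries ℚ}
    (h0 : H 0 = 1) (hP : ∀ d, H d ≠ 0 → pv n d ∈ P) :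
    ∃ u ∈ GG Q δ P, (u : NS Q δ) = el Q hn k a H := by
  refine hG.unit P _ ?_ fun x hx => ?_
  · rw [el, pu_co_zero, h0]
    simp [ka, Sp.arr]
  · obtain ⟨d, rfl, hd⟩ := pu_ne hx
    exact ⟨hP d fun h => hd (by rw [h, map_zero, mul_zero]), pv_Pz hn d⟩

omit [DecidableEq I] in
theorem el_eqv (D : ℤ) {H H' : (I → ℕ) → PowerSeries ℚ}
    (h : ∀ d, (∀ i, d i ≤ D.toNat) → H d = H' d) :
    Eqv (fun x => δ x ≤ D) (el Q hn k a H) (el Q hn k a H') := fun x hx => by
  rw [el, el, pu_co, pu_co]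
  refine sum_congr rfl fun d hd => ?_
  rw [h d fun i => ?_]
  have := le_δ hn d i
  rw [mem_fb.1 hd] at this
  omega

variable {Γ : Type} [Fintype Γ] [DecidableEq Γ] {dΓ : Γ → I → ℕ}

omit [DecidableEq I] in
theorem mem_NN [DecidableEq I] (h : ∀ γ, dΓ γ ≠ 0) {d : I → ℕ} {m : Γ → ℕ} :
    m ∈ Sp.NN dΓ d ↔ ∑ γ, m γ • dΓ γ = d := by
  rw [Sp.NN, mem_filter, and_iff_right_iff_imp]
  rintro rfl
  refine Fintype.mem_piFinset.2 fun γ => mem_range.2 (Nat.lt_succ_of_le ?_)
  obtain ⟨i, hi⟩ := Function.ne_iff.1 (h γ)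
  refine le_trans ?_ (single_le_sum (fun _ _ => Nat.zero_le _) (mem_univ i))
  rw [Finset.sum_apply]
  refine le_trans ?_ (single_le_sum (f := fun γ => (m γ • dΓ γ) i) (fun _ _ => Nat.zero_le _)
    (mem_univ γ))
  exact Nat.le_mul_of_pos_right _ (Nat.pos_of_ne_zero hi)

omit [DecidableEq I] [DecidableEq Γ] in
theorem pv_pv (m : Γ → ℕ) : pv (fun γ => pv n (dΓ γ)) m = pv n (∑ γ, m γ • dΓ γ) := by
  rw [map_sum, pv_apply]
  simp only [map_nsmul]

theorem pu_regroup (h : ∀ γ, dΓ γ ≠ 0) (c : (Γ → ℕ) → K) :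
    pu Q (n := fun γ => pv n (dΓ γ)) (fun γ => one_le_δ hn (h γ)) c =
      pu Q hn fun d => ∑ m ∈ Sp.NN dΓ d, c m := by
  ext x
  rw [pu_co, pu_co]
  refine (sum_fiberwise_of_maps_to (t := fb hn x) (g := fun m => ∑ γ, m γ • dΓ γ)
    (fun m hm => by rw [mem_fb, ← pv_pv]; exact mem_fb.1 hm) c).symm.trans ?_
  refine sum_congr rfl fun d hd => ?_
  refine sum_congr ?_ fun _ _ => rfl
  ext m
  rw [mem_filter, mem_NN h, mem_fb, pv_pv, and_iff_right_iff_imp]
  rintro rfl
  exact mem_fb.1 hd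

omit [DecidableEq I] [DecidableEq Γ] in
theorem thd_sum (θ : I → ℝ) (m : Γ → ℕ) :
    Sp.thd θ (∑ γ, m γ • dΓ γ) = ∑ γ, m γ * Sp.thd θ (dΓ γ) := by
  simp only [Sp.thd, Finset.sum_apply, Pi.smul_apply, smul_eq_mul, Nat.cast_sum, Nat.cast_mul,
    sum_mul, mul_sum, mul_assoc]
  exact sum_comm

/-- the semistable series is a product of commuting wall functions -/
theorem el_GS (hC : Sp.S_CB) (hPar : Sp.S_PAR) (hS : S_SER Q δ) {θ : I → ℝ} (hs : Sp.Sym a θ)
    (hω : ∀ d d', (Sp.arr a d d' : ℤ) - Sp.arr a d' d = Q.ω (pv n d) (pv n d'))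
    (h : ∀ γ, dΓ γ ≠ 0 ∧ Sp.thd θ (dΓ γ) = 0) (dg : Γ → ℕ) :
    (wp Q δ ((univ : Finset Γ).toList.map fun γ => (decide ¬Odd (Sp.par a (dΓ γ)),
      ka k a (dΓ γ) + 2 * dg γ - (if Odd (Sp.par a (dΓ γ)) then 1 else 0), pv n (dΓ γ))) :
        NS Q δ) = el Q hn k a fun d => if Sp.thd θ d = 0 then Sp.GS a dΓ dg d else 0 := by
  rw [wp_pu hC hS _ (fun γ => one_le_δ hn (h γ).1) (fun _ _ => 0) (fun _ => rfl) _
    (nodup_toList _) (List.pairwise_of_forall fun γ γ' => ⟨by
      dsimp only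
      rw [← hω, hs _ _ (h γ).2 (h γ').2, sub_self], rfl⟩)]
  refine (pu_regroup (fun γ => (h γ).1) _).trans (congrArg _ (funext fun d => ?_))
  dsimp only
  by_cases hd : Sp.thd θ d = 0
  · rw [if_pos hd, Sp.GS, map_sum, mul_sum]
    refine sum_congr rfl fun m hm => ?_
    obtain rfl := (mem_NN fun γ => (h γ).1).1 hm
    obtain ⟨x, hx⟩ := hPar I Γ a θ dΓ hs (fun γ => (h γ).2) m
    have e1 : (Sp.arr a (∑ γ, m γ • dΓ γ) (∑ γ, m γ • dΓ γ) -
        ∑ γ, m γ * Sp.arr a (dΓ γ) (dΓ γ)) / 2 = x := by omega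
    have e2 : ∑ γ, (m γ : ℤ) * (ka k a (dΓ γ) + 2 * dg γ) =
        ka k a (∑ γ, m γ • dΓ γ) + 2 * x + ∑ γ, 2 * ((m γ * dg γ : ℕ) : ℤ) := by
      have e3 : ∑ i, (((∑ γ, m γ • dΓ γ) i : ℕ) : ℤ) * (k i + 1) =
          ∑ γ, (m γ : ℤ) * ∑ i, (dΓ γ i : ℤ) * (k i + 1) := by
        simp only [Finset.sum_apply, Pi.smul_apply, smul_eq_mul, Nat.cast_sum, Nat.cast_mul,
          sum_mul, mul_sum, mul_assoc]
        exact sum_comm
      rw [ka, e3, ← hx]
      push_cast
      rw [sub_add_eq_sub_sub_swap, add_assoc, add_comm (2 * (x : ℤ)), ← add_assoc, sub_add_eq_add_sub,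
        sub_add_cancel, ← sum_sub_distrib, ← sum_add_distrib]
      exact sum_congr rfl fun γ _ => by rw [ka]; ring
    rw [if_pos fun γ hγ => absurd (mem_toList.2 (mem_univ γ)) hγ, bl_zero, Q.tp_zero, one_mul, e1,
      map_mul, ι_X_pow, map_prod]
    simp only [yc_odd, map_mul, ι_X_pow, prod_mul_distrib, ← tp_sum]
    rw [e2, Q.tp_add, Q.tp_add]
    ring
  · rw [if_neg hd, map_zero, mul_zero]
    refine sum_eq_zero fun m hm => absurd ?_ hd
    rw [← (mem_NN fun γ => (h γ).1).1 hm, thd_sum]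
    exact sum_eq_zero fun γ _ => by rw [(h γ).2, mul_zero]

omit [DecidableEq I] in
theorem GS_zero (hC : Sp.S_CB) [DecidableEq I] (h : ∀ γ, dΓ γ ≠ 0) (dg : Γ → ℕ) :
    Sp.GS a dΓ dg 0 = 1 := by
  rw [Sp.GS, sum_eq_single_of_mem 0 ((mem_NN h).2 (by simp)) fun m hm h0 => absurd ?_ h0]
  · simp [Sp.arr, hC.1, hC.2.1]
  · funext γ
    simpa using Fintype.mem_piFinset.1 (mem_filter.1 hm).1 γ

end el

end DtA

open DtA in
theorem t_dt : T_DT := by
  intro Λ K _ _ Q δ hC hPar hSp hcore l φ D hl hp hz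
  have hG := hcore.grp δ
  have hS := hcore.ser δ
  let w : Fin l.length → Bool × ℤ × Λ := l.get
  let n : Fin l.length → Λ := fun i => (w i).2.2
  have hn : ∀ i, 1 ≤ δ (n i) := fun i => hl _ (List.get_mem l i)
  have hlt : ∀ i j, i < j → Q.ω (n i) (n j) ≤ 0 := fun i j h => List.pairwise_iff_get.1 hp i j h
  let B : Fin l.length → Fin l.length → ℤ := fun i j => if i < j then Q.ω (n i) (n j) else 0
  let a : Fin l.length → Fin l.length → ℕ := fun i j =>
    if i = j then (if (w i).1 then 1 else 0) else (-B j i).toNat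
  have ha : ∀ i j, (a i j : ℤ) = (if i = j then (if (w i).1 then 1 else 0) else 0) - B j i := by
    intro i j
    by_cases h : i = j
    · subst h
      simp [a, B]
    · have : B j i ≤ 0 := by
        by_cases h' : j < i
        · simpa [B, h'] using hlt j i h'
        · simp [B, h']
      simp only [a, if_neg h]
      omega
  have hω : ∀ d d', (Sp.arr a d d' : ℤ) - Sp.arr a d' d = Q.ω (pv n d) (pv n d') := by
    intro d d'
    rw [arr_bl, arr_bl, bl_swap _ d' d, ← bl_sub, ω_pv]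
    refine bl_congr fun i j _ _ => ?_
    rw [ha, ha]
    rcases lt_trichotomy i j with h | h | h
    · simp [B, h, h.ne, h.ne', h.not_gt]
    · subst h; simp [Q.skew]
    · simp [B, h, h.ne, h.ne', h.not_gt, Q.anti (n i) (n j)]
  have hθ : ∀ d, Sp.thd (fun i => -φ (n i)) d = -φ (pv n d) := fun d => by
    simp [Sp.thd, pv_apply]
  have hcl : ∀ d, pv n d ∈ AddSubmonoid.closure {n | ∃ x ∈ l, n = x.2.2} := fun d => by
    rw [pv_apply]
    exact sum_mem fun i _ => nsmul_mem (AddSubmonoid.subset_closure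
      (show n i ∈ {n | ∃ x ∈ l, n = x.2.2} from ⟨w i, List.get_mem l i, rfl⟩)) _
  have hs : Sp.Sym a fun i => -φ (n i) := fun d d' h1 h2 => by
    rw [hθ, neg_eq_zero] at h1 h2
    have := hω d d'
    rw [hz _ (hcl d) _ (hcl d') h1 h2] at this
    omega
  obtain ⟨HT, HF, Γ, _, _, dΓ, dg, t0, f0, ht, hf, hΓ, hsp⟩ :=
    hSp _ a (fun i => -φ (n i)) D.toNat hs
  let k : Fin l.length → ℤ := fun i => (w i).2.1
  have e1 : (wp Q δ l : NS Q δ) = el Q hn k a fun d => ∏ i, Sp.cf (d i) := by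
    conv_lhs => rw [← List.map_get_finRange l]
    rw [wp_pu hC hS w hn B (fun i => by simp [B]) _ (List.nodup_finRange _)
      ((List.pairwise_lt_finRange _).imp fun h => by simp [B, n, h, h.not_gt])]
    refine congrArg _ (funext fun d => ?_)
    rw [if_pos fun i hi => absurd (List.mem_finRange i) hi]
    simp only [yc_cf hC, prod_mul_distrib, ← tp_sum, map_prod]
    rw [← mul_assoc, ← Q.tp_add]
    congr 2
    have e : (Sp.arr a d d : ℤ) =
        ∑ i, (d i : ℤ) * d i * (if (w i).1 then 1 else 0) - bl B d d := by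
      rw [arr_bl, bl_swap B, funext₂ ha, bl_sub]
      congr 1
      exact sum_congr rfl fun i _ => by simp
    rw [ka, e, sum_sub_distrib]
    simp only [mul_add, mul_one, k]
    ring
  obtain ⟨uT, hT, eT⟩ := el_unit (hn := hn) (k := k) (a := a) hG (Cut.of φ).Neg t0 fun d hd =>
    (ht d hd).imp (fun h => by rw [h, map_zero]) fun h => by
      rw [hθ] at h; simpa using h
  obtain ⟨uF, hF, eF⟩ := el_unit (hn := hn) (k := k) (a := a) hG (Cut.of φ).Pos f0 fun d hd =>
    (hf d hd).imp (fun h => by rw [h, map_zero]) fun h => by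
      rw [hθ] at h; simpa using h
  obtain ⟨uG, hM, eG⟩ := el_unit (hn := hn) (k := k) (a := a) hG (Cut.of φ).Zer
    (H := fun d => if Sp.thd (fun i => -φ (n i)) d = 0 then Sp.GS a dΓ dg d else 0)
    (by rw [if_pos (by simp [Sp.thd]), GS_zero hC fun γ => (hΓ γ).1]) fun d hd => by
      have h : Sp.thd (fun i => -φ (n i)) d = 0 := by
        by_contra h
        exact hd (if_neg h)
      rw [hθ, neg_eq_zero] at h
      simp [Cut.mem_Zer, h]
  refine ⟨(univ : Finset Γ).toList.map fun γ => (decide ¬Odd (Sp.par a (dΓ γ)),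
    ka k a (dΓ γ) + 2 * dg γ - (if Odd (Sp.par a (dΓ γ)) then 1 else 0), pv n (dΓ γ)), ?_, ?_⟩
  · intro x hx
    obtain ⟨γ, -, rfl⟩ := List.mem_map.1 hx
    refine ⟨one_le_δ hn (hΓ γ).1, ?_, hcl _⟩
    have := (hΓ γ).2
    rwa [hθ, neg_eq_zero] at this
  · rw [el_GS (hn := hn) hC hPar hS hs hω hΓ dg, ← eG]
    have hlow : Low δ ⊤ fun x => δ x ≤ D := fun x _ y hy h => by
      have h1 : δ (x + y) ≤ D := h
      rw [map_add] at h1
      rcases hy.2 with h2 | h2
      · rw [h2, map_zero] at h1; omega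
      · omega
    have h1 := hG.mid_congr ⊤ _ hlow (Cut.of φ) (Cut.of φ) (fun _ _ _ => ⟨Iff.rfl, Iff.rfl⟩) _
      (hS.wp_mem l ⊤ fun x hx => ⟨hl x hx, trivial⟩) (uT * uG * uF)
      (mul_mem (mul_mem (GG_mono le_top hT) (GG_mono le_top hM)) (GG_mono le_top hF)) (by
        rw [e1, Units.val_mul, Units.val_mul, eT, eG, eF, mul_assoc, el_mul hω, el_mul hω]
        refine el_eqv D fun d hd => ?_
        rw [hsp d hd]
        refine sum_congr rfl fun p _ => ?_
        rw [mul_sum]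
        refine sum_congr rfl fun q _ => ?_
        split_ifs
        · ring
        · simp)
    rwa [(hG.fac_eq _ _ hT _ hM _ hF).2.1] at h1

end Pool.Agent.P.MP_389f6f_co.Qt
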