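import Pool.Agent.P.MP_389f6f_co.QDefs

/-! Unit interval orders embed in powers of paths. -/

set_option autoImplicit false

namespace Pool.Agent.P.MP_389f6f_co.Qt
open Finset

theorem t_emb : S_EMB := by
  classical
  intro V h
  induction V using Finset.induction_on_max with
  | empty => exact fun _ => ⟨1, id, le_rfl, fun i hi => absurd hi (notMem_empty _)⟩
  | insert m V hm ih =>
    intro hmono
    obtain ⟨p, x, hp, hx⟩ := ih fun i hi j hj =>
      hmono i (mem_insert_of_mem hi) j (mem_insert_of_mem hj)
    have hne : ∀ i ∈ V, i ≠ m := fun i hi => (hm i hi).ne
    by_cases hex : ∃ i, i ∈ V ∧ m ≤ h i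
    · have h0 := Nat.find_spec hex
      have hmin : ∀ i ∈ V, m ≤ h i → Nat.find hex ≤ i := fun i hi hmi => Nat.find_min' hex ⟨hi, hmi⟩
      set i0 := Nat.find hex
      refine ⟨2 * p + 1, fun i => if i = m then 2 * x i0 + 2 * p + 1 else 2 * x i, by omega, ?_⟩
      intro i hi j hj hij
      have hiV : i ∈ V := by
        rcases mem_insert.1 hi with rfl | hi
        · rcases mem_insert.1 hj with rfl | hj
          · omega
          · have := hm j hj
            omega
        · exact hi
      rcases mem_insert.1 hj with rfl | hj
      · simp only [if_neg (hne i hiV), if_true]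
        rcases lt_trichotomy i i0 with hlt | heq | hgt
        · have h1 := (hx i hiV i0 h0.1 hlt).1
          have h2 : ¬j ≤ h i := fun hc => absurd (hmin i hiV hc) (by omega)
          omega
        · subst heq
          have := h0.2
          omega
        · have h1 := hx i0 h0.1 i hiV hgt
          have h2 := hmono i0 (mem_insert_of_mem h0.1) i hi hgt.le
          have h3 := h0.2
          have h4 := hm i hiV
          omega
      · simp only [if_neg (hne i hiV), if_neg (hne j hj)]
        have := hx i hiV j hj hij
        omega
    · refine ⟨p, fun i => if i = m then V.sup x + p + 1 else x i, hp, ?_⟩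
      intro i hi j hj hij
      have hiV : i ∈ V := by
        rcases mem_insert.1 hi with rfl | hi
        · rcases mem_insert.1 hj with rfl | hj
          · omega
          · have := hm j hj
            omega
        · exact hi
      rcases mem_insert.1 hj with rfl | hj
      · simp only [if_neg (hne i hiV), if_true]
        have h1 : x i ≤ V.sup x := le_sup hiV
        have h2 : ¬j ≤ h i := fun hc => hex ⟨i, hiV, hc⟩
        omega
      · simp only [if_neg (hne i hiV), if_neg (hne j hj)]
        exact hx i hiV j hj hij

end Pool.Agent.P.MP_389f6f_co.Qt
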