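import Pool.Agent.P.MP_389f6f_co.QDefs

/-! The independence polynomial of a power of a path is positive in every chamber. -/

set_option autoImplicit false

namespace Pool.Agent.P.MP_389f6f_co.Qt
open Finset

namespace F1A

variable {Λ K : Type} [AddCommGroup Λ] [CommRing K]

/-- the hypotheses on the vertices -/
structure Hy (Q : QD Λ K) (u : ℕ → Λ) (N p : ℕ) (κ : Λ) (H : Λ →+ ℤ) : Prop where
  hp : 1 ≤ p
  om : ∀ i j, i < j → j ≤ N → Q.ω (u i) (u j) = if j ≤ i + p then 1 else 0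
  ka : ∀ j ≤ N, Q.ω (u j) κ = 1
  hH : ∀ j ≤ N, H (u j) = j

open Classical in
/-- the intermediate seeds -/
noncomputable def sd (u : ℕ → Λ) (N i : ℕ) : Finset Λ :=
  ((range N).filter fun w => w + 1 ≠ i).image (fun w => u (w + 1) - u w) ∪
    ((range (N + 1)).filter fun w => w = i).image u ∪
    ((range i).filter fun w => w + 1 = i).image fun w => -u w

theorem mem_sd (u : ℕ → Λ) (N i : ℕ) (v : Λ) : v ∈ sd u N i ↔
    (∃ w < N, w + 1 ≠ i ∧ v = u (w + 1) - u w) ∨ (i ≤ N ∧ v = u i) ∨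
      ∃ w, w + 1 = i ∧ v = -u w := by
  simp only [sd, mem_union, mem_image, mem_filter, mem_range, or_assoc]
  refine or_congr ⟨?_, ?_⟩ (or_congr ⟨?_, ?_⟩ ⟨?_, ?_⟩)
  · rintro ⟨w, ⟨h1, h2⟩, rfl⟩
    exact ⟨w, h1, h2, rfl⟩
  · rintro ⟨w, h1, h2, rfl⟩
    exact ⟨w, ⟨h1, h2⟩, rfl⟩
  · rintro ⟨w, ⟨h1, rfl⟩, rfl⟩
    exact ⟨by omega, rfl⟩
  · rintro ⟨h1, rfl⟩
    exact ⟨i, ⟨by omega, rfl⟩, rfl⟩
  · rintro ⟨w, ⟨_, h2⟩, rfl⟩
    exact ⟨w, h2, rfl⟩
  · rintro ⟨w, h2, rfl⟩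
    exact ⟨w, ⟨by omega, h2⟩, rfl⟩

theorem mem_sdX (u : ℕ → Λ) (N : ℕ) (v : Λ) : v ∈ sdX u N ↔ ∃ w < N, v = u (w + 1) - u w := by
  simp only [sdX, mem_image, mem_range, eq_comm]

/-- the intermediate gradings -/
def gr (Q : QD Λ K) (κ : Λ) (H : Λ →+ ℤ) (i : ℕ) : Λ →+ ℤ :=
  (2 : ℤ) • H - (2 * (i : ℤ) - 1) • Q.ω.flip κ

theorem gr_apply (Q : QD Λ K) (κ : Λ) (H : Λ →+ ℤ) (i : ℕ) (x : Λ) :
    gr Q κ H i x = 2 * H x - (2 * (i : ℤ) - 1) * Q.ω x κ := rfl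

open Classical in
/-- the shifted truncated independence polynomial -/
noncomputable def fz (Q : QD Λ K) (δ : Λ →+ ℤ) (u : ℕ → Λ) (p : ℕ) (κ : Λ) (i : ℕ) : NS Q δ :=
  ∑ A ∈ (range i).powerset.filter (fun A => ∀ a ∈ A, ∀ b ∈ A, ¬adjP p a b),
    NS.z (κ + ∑ v ∈ A, u v)

variable {Q : QD Λ K} {u : ℕ → Λ} {N p : ℕ} {κ : Λ} {H : Λ →+ ℤ}

theorem fz_co (δ δ' : Λ →+ ℤ) (i : ℕ) : (fz Q δ u p κ i).co = (fz Q δ' u p κ i).co := by
  funext x
  simp only [fz, NS.sum_co, NS.z_co]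

theorem mem_fil {α : Type} {q : α → Prop} {I : DecidablePred q} {s : Finset α} {a : α}
    (h : a ∈ @Finset.filter _ q I s) : a ∈ s :=
  (mem_filter.1 h).1

theorem fz_fin (δ : Λ →+ ℤ) (i : ℕ) : {x | (fz Q δ u p κ i).co x ≠ 0}.Finite := by
  classical
  refine (((range i).powerset.image fun A => κ + ∑ v ∈ A, u v).finite_toSet).subset
    fun x hx => ?_
  rw [Set.mem_ofPred_eq, fz, NS.sum_co] at hx
  obtain ⟨A, hA, h⟩ := exists_ne_zero_of_sum_ne_zero hx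
  rw [NS.z_co] at h
  refine mem_coe.2 (mem_image.2 ⟨A, mem_fil hA, ?_⟩)
  by_contra hc
  exact h (if_neg fun e => hc e.symm)

theorem fz_zero (δ : Λ →+ ℤ) : fz Q δ u p κ 0 = NS.z κ := by
  rw [fz, range_zero, powerset_empty, filter_singleton, if_pos (by simp)]
  simp

theorem cj_sum {δ : Λ →+ ℤ} {α : Type} (v : (NS Q δ)ˣ) (s : Finset α) (f : α → NS Q δ) :
    cj v (∑ a ∈ s, f a) = ∑ a ∈ s, cj v (f a) := by
  simp only [cj, mul_sum, sum_mul]

theorem cj_smul {δ : Λ →+ ℤ} (v : (NS Q δ)ˣ) (c : K) (f : NS Q δ) :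
    cj v (c • f) = c • cj v f := by
  simp only [cj, mul_smul_comm, smul_mul_assoc]

theorem Hy.seed (h : Hy Q u N p κ H) {i : ℕ} (hi : i ≤ N + 1) :
    Seed (gr Q κ H i) (sd u N i) := by
  intro e he
  rw [gr_apply]
  rcases (mem_sd u N i e).1 he with ⟨w, h1, _, rfl⟩ | ⟨h1, rfl⟩ | ⟨w, rfl, rfl⟩
  · rw [map_sub, map_sub, AddMonoidHom.sub_apply, h.hH _ h1, h.hH _ h1.le, h.ka _ h1,
      h.ka _ h1.le]
    push_cast
    omega
  · rw [h.hH _ h1, h.ka _ h1]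
    omega
  · have h1 : w ≤ N := by omega
    rw [map_neg, map_neg, AddMonoidHom.neg_apply, h.hH _ h1, h.ka _ h1]
    push_cast
    omega

theorem Hy.deg_diff (h : Hy Q u N p κ H) {w : ℕ} (hw : w < N) :
    Q.ω (u (w + 1) - u w) κ = 0 := by
  rw [map_sub, AddMonoidHom.sub_apply, h.ka _ hw, h.ka _ hw.le, sub_self]

theorem Hy.diff_ne (h : Hy Q u N p κ H) {w i : ℕ} (hw : w < N) (hi : i ≤ N) :
    u (w + 1) - u w ≠ u i := fun e => by
  have h1 := h.deg_diff hw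
  rw [e, h.ka _ hi] at h1
  omega

theorem Hy.neg_ne (h : Hy Q u N p κ H) {w i : ℕ} (hw : w ≤ N) (hi : i ≤ N) : -u w ≠ u i :=
  fun e => by
  have h1 := h.ka _ hi
  rw [← e, map_neg, AddMonoidHom.neg_apply, h.ka _ hw] at h1
  omega

theorem Hy.mu_self (h : Hy Q u N p κ H) {i : ℕ} (hi : i < N) :
    Q.mu (u i) (u (i + 1) - u i) = u (i + 1) := by
  have := h.hp
  rw [QD.mu, map_sub, Q.skew, h.om i (i + 1) (by omega) hi, if_pos (by omega)]
  simp

theorem Hy.mu_neg (h : Hy Q u N p κ H) {w : ℕ} (hw : w < N) :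
    Q.mu (u (w + 1)) (-u w) = u (w + 1) - u w := by
  have := h.hp
  rw [QD.mu, map_neg, ← Q.anti, h.om w (w + 1) (by omega) hw, if_pos (by omega)]
  simp [sub_eq_neg_add]

theorem Hy.mu_fix (h : Hy Q u N p κ H) {w i : ℕ} (hw : w < N) (hi : i ≤ N) (h1 : w + 1 ≠ i)
    (h2 : w ≠ i) : Q.mu (u i) (u (w + 1) - u w) = u (w + 1) - u w := by
  have h3 : Q.ω (u i) (u (w + 1) - u w) ≤ 0 := by
    rw [map_sub]
    rcases lt_or_gt_of_ne h2 with h4 | h4
    · rw [Q.anti (u i), Q.anti (u i), h.om _ _ (show w + 1 < i by omega) hi, h.om _ _ h4 hi]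
      split_ifs <;> omega
    · rw [h.om _ _ (show i < w + 1 by omega) hw, h.om _ _ h4 hw.le]
      split_ifs <;> omega
  rw [QD.mu, max_eq_right h3, zero_smul, add_zero]

theorem Hy.mutate (h : Hy Q u N p κ H) {i : ℕ} (hi : i ≤ N) (v : Λ) :
    v ∈ sd u N (i + 1) ↔ v = -u i ∨ ∃ e ∈ sd u N i, e ≠ u i ∧ v = Q.mu (u i) e := by
  rw [mem_sd]
  constructor
  · rintro (⟨w, h1, h2, rfl⟩ | ⟨h1, rfl⟩ | ⟨w, h1, rfl⟩)
    · by_cases h3 : w + 1 = i
      · subst h3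
        exact Or.inr ⟨-u w, (mem_sd _ _ _ _).2 (Or.inr (Or.inr ⟨w, rfl, rfl⟩)),
          h.neg_ne h1.le hi, (h.mu_neg h1).symm⟩
      · exact Or.inr ⟨_, (mem_sd _ _ _ _).2 (Or.inl ⟨w, h1, h3, rfl⟩), h.diff_ne h1 hi,
          (h.mu_fix h1 hi h3 (by omega)).symm⟩
    · exact Or.inr ⟨_, (mem_sd _ _ _ _).2 (Or.inl ⟨i, h1, by omega, rfl⟩), h.diff_ne h1 hi,
        (h.mu_self h1).symm⟩
    · obtain rfl : w = i := by omega
      exact Or.inl rfl
  · rintro (rfl | ⟨e, he, hne, rfl⟩)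
    · exact Or.inr (Or.inr ⟨i, rfl, rfl⟩)
    · rcases (mem_sd _ _ _ _).1 he with ⟨w, h1, h2, rfl⟩ | ⟨_, rfl⟩ | ⟨w, rfl, rfl⟩
      · by_cases h3 : w = i
        · subst h3
          exact Or.inr (Or.inl ⟨h1, h.mu_self h1⟩)
        · exact Or.inl ⟨w, h1, by omega, h.mu_fix h1 hi h2 h3⟩
      · exact absurd rfl hne
      · exact Or.inl ⟨w, hi, by omega, h.mu_neg hi⟩

theorem mu_onto (k r : Λ) : ∃ r', Q.mu k r' = r :=
  ⟨r - max (Q.ω k r) 0 • k, by
    rw [QD.mu, map_sub, map_zsmul, Q.skew, smul_zero, sub_zero, sub_add_cancel]⟩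

theorem Hy.om_sum (h : Hy Q u N p κ H) {i : ℕ} (hi : i ≤ N) {A : Finset ℕ} (hA : A ⊆ range i) :
    Q.ω (u i) (κ + ∑ v ∈ A, u v) = 1 - ((A.filter fun a => i ≤ a + p).card : ℤ) := by
  rw [map_add, h.ka _ hi, map_sum, card_filter, Nat.cast_sum, sub_eq_add_neg, ← sum_neg_distrib]
  congr 1
  refine sum_congr rfl fun a ha => ?_
  rw [Q.anti, h.om _ _ (mem_range.1 (hA ha)) hi]
  split_ifs <;> simp

theorem Hy.cj_fz (h : Hy Q u N p κ H) {δ : Λ →+ ℤ} (hs : S_SER Q δ) {i : ℕ} (hi : i ≤ N)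
    (hδ : 1 ≤ δ (u i)) : cj (FF Q δ (u i)) (fz Q δ u p κ i) = fz Q δ u p κ (i + 1) := by
  classical
  rw [fz, fz, cj_sum, sum_filter, sum_filter, range_add_one, sum_powerset_insert notMem_range_self,
    ← sum_add_distrib]
  refine sum_congr rfl fun A hA => ?_
  have hA' : A ⊆ range i := mem_powerset.1 hA
  have hiA : i ∉ A := fun e => notMem_range_self (hA' e)
  have h1 := h.om_sum hi hA'
  by_cases hI : ∀ a ∈ A, ∀ b ∈ A, ¬adjP p a b
  · rw [if_pos hI, if_pos hI]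
    by_cases hn : ∃ a ∈ A, i ≤ a + p
    · obtain ⟨a, ha, hai⟩ := hn
      have ha' := mem_range.1 (hA' ha)
      have h2 : (A.filter fun a => i ≤ a + p) = {a} := by
        refine eq_singleton_iff_unique_mem.2 ⟨mem_filter.2 ⟨ha, hai⟩, fun b hb => ?_⟩
        obtain ⟨hb1, hb2⟩ := mem_filter.1 hb
        have hb' := mem_range.1 (hA' hb1)
        by_contra hc
        exact hI b hb1 a ha ⟨hc, by omega, by omega⟩
      rw [h2, card_singleton] at h1
      rw [(hs.mono _ _ hδ).1 (by rw [h1]; rfl), if_neg, add_zero]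
      intro hc
      exact hc i (mem_insert_self _ _) a (mem_insert_of_mem ha) ⟨by omega, by omega, by omega⟩
    · have h2 : (A.filter fun a => i ≤ a + p) = ∅ :=
        filter_eq_empty_iff.2 fun a ha e => hn ⟨a, ha, e⟩
      rw [h2, card_empty] at h1
      rw [(hs.mono _ _ hδ).2.1 (by rw [h1]; rfl), if_pos, sum_insert hiA, add_assoc,
        add_comm (u i)]
      intro a ha b hb hab
      rcases mem_insert.1 ha with rfl | ha' <;> rcases mem_insert.1 hb with rfl | hb'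
      · exact hab.1 rfl
      · exact hn ⟨b, hb', hab.2.1⟩
      · exact hn ⟨a, ha', hab.2.2⟩
      · exact hI a ha' b hb' hab
  · rw [if_neg hI, if_neg hI, if_neg, add_zero]
    exact fun hc => hI fun a ha b hb => hc a (mem_insert_of_mem ha) b (mem_insert_of_mem hb)

theorem z_sup {δ : Λ →+ ℤ} {a x : Λ} (h : (NS.z a : NS Q δ).co x ≠ 0) : x = a := by
  by_contra hc
  exact h (by rw [NS.z_co, if_neg hc])

theorem Hy.base (h : Hy Q u N p κ H) {δ : Λ →+ ℤ} (hg : S_GRP Q δ) {g : (NS Q δ)ˣ}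
    (hA : AT (sd u N 0) g) (L : Subsemiring K) (r : Λ) : att g (NS.z κ) r ∈ L := by
  have h1 := (hg.fac _ (Cut.of (Q.Av r)) g hA.1).1
  by_cases hr : r = κ
  · subst hr
    rw [att, ex, hg.cj_congr 0 _ (GG_mono le_top h1) 1 (one_mem _) ?_ _ _ ?_, cj_one, NS.z_co,
      if_pos rfl]
    · exact one_mem _
    · intro x hx
      by_cases h0 : x = 0
      · rw [h0, h1.1, Units.val_one, NS.one_co, if_pos rfl]
      · rw [Units.val_one, NS.one_co, if_neg h0]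
        by_contra hc
        have := (h1.2 x hc).2.resolve_left h0
        omega
    · intro x hx
      rw [z_sup hx]
      omega
  · have h2 : att g (NS.z κ) r = 0 := by
      by_contra hc
      obtain ⟨a, h3, h4, -⟩ := hg.cj_sup _ _ h1 _ _ hc
      rw [z_sup h3] at h4
      have h5 : ∀ x ∈ PS (sd u N 0), 0 ≤ Q.ω x κ := by
        intro x hx
        induction hx using AddSubmonoid.closure_induction with
        | mem x hx =>
          rcases (mem_sd u N 0 x).1 hx with ⟨w, h1, _, rfl⟩ | ⟨h1, rfl⟩ | ⟨w, h1, _⟩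
          · exact (h.deg_diff h1).ge
          · rw [h.ka _ h1]; omega
          · omega
        | zero => simp
        | add x y _ _ hx hy => rw [map_add, AddMonoidHom.add_apply]; omega
      have h6 : (Q.ω (r - κ) r : ℝ) < 0 := h4.2.resolve_left (sub_ne_zero.2 hr)
      have h7 : Q.ω (r - κ) r = Q.ω (r - κ) κ := by
        have := Q.skew (r - κ)
        rw [map_sub (Q.ω (r - κ))] at this
        omega
      rw [h7] at h6
      exact absurd (h5 _ h4.1) (not_le.2 (by exact_mod_cast h6))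
    rw [h2]
    exact zero_mem _

theorem Hy.att_mem (h : Hy Q u N p κ H) (c : Core Q) (ha : S_AT Q) (hm : S_MI Q)
    (L : Subsemiring K) (i : ℕ) : i ≤ N + 1 → ∀ g : (NS Q (gr Q κ H i))ˣ, AT (sd u N i) g →
    ∀ r, att g (fz Q _ u p κ i) r ∈ L := by
  induction i with
  | zero =>
    intro _ g hg r
    rw [fz_zero]
    exact h.base (c.grp _) hg L r
  | succ i ih =>
    intro hi g' hg' r
    have hi' : i ≤ N := by omega
    have hs := h.seed (i := i) (by omega)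
    obtain ⟨g, hg⟩ := ha.ex _ _ hs
    have hk : u i ∈ sd u N i := (mem_sd _ _ _ _).2 (Or.inr (Or.inl ⟨hi', rfl⟩))
    obtain ⟨r', rfl⟩ := mu_onto (Q := Q) (u i) r
    rw [(hm _ _ _ _ (u i) hs (h.seed hi) hk (h.mutate hi') g g' hg hg' (fz Q _ u p κ i) _
      (fz_fin _ _) (fz_fin _ _) (by rw [h.cj_fz (c.ser _) hi' (hs _ hk)]; exact fz_co _ _ _)).1]
    exact ih (by omega) g hg r'

/-- positivity for real cuts gives positivity for lexicographic cuts -/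
theorem lex_mem (c : Core Q) {δ : Λ →+ ℤ} {s : Finset Λ} (hs : Seed δ s) {g : (NS Q δ)ˣ}
    (hg : g ∈ GG Q δ (PS s)) (L : Subsemiring K) (f : NS Q δ)
    (hf : ∀ θ r, (ex g θ f).co r ∈ L) (ψ θ : Λ →+ ℝ) (r : Λ) :
    (cj (lo (Cut.lex (Cut.of ψ) (Cut.of θ)) g) f).co r ∈ L := by
  obtain ⟨m, hm⟩ := f.lf.bdd
  have h1 := (c.geo.level δ s s.finite_toSet hs).2 (δ r - m)
  obtain ⟨ε, -, h2⟩ := c.geo.lexap _ h1 ψ θ
  have h3 : Low δ (PS s) fun x => δ x ≤ δ r - m := by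
    intro x _ y hy hxy
    rw [map_add] at hxy
    rcases hy.2 with rfl | h
    · simpa using hxy
    · omega
  have h4 := (c.grp δ).lo_congr _ _ h3 (Cut.of (ψ + ε • θ)) (Cut.lex (Cut.of ψ) (Cut.of θ))
    (fun x hx hU => (h2 x ⟨hx.1, hU⟩).1) g hg g hg fun _ _ => rfl
  rw [← (c.grp δ).cj_congr _ _ (GG_mono le_top ((c.grp δ).fac _ _ g hg).1) _
    (GG_mono le_top ((c.grp δ).fac _ _ g hg).1) h4 f r fun x hx => by have := hm x hx; omega]
  exact hf _ r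

theorem cj_z_deg {δ : Λ →+ ℤ} (hg : S_GRP Q δ) {P : AddSubmonoid Λ} (hP : ∀ x ∈ P, Q.ω x κ = 0)
    {v : (NS Q δ)ˣ} (hv : v ∈ GG Q δ P) {a r : Λ} (h : (cj v (NS.z a)).co r ≠ 0) :
    Q.ω r κ = Q.ω a κ := by
  obtain ⟨b, h1, h2⟩ := hg.cj_sup _ _ hv _ _ h
  have h3 := hP _ h2.1
  rw [z_sup h1, map_sub, AddMonoidHom.sub_apply] at h3
  omega

theorem cj_z_shift {δ : Λ →+ ℤ} (hg : S_GRP Q δ) {P : AddSubmonoid Λ}
    (hP : ∀ x ∈ P, Q.ω x κ = 0) {v : (NS Q δ)ˣ} (hv : v ∈ GG Q δ P) (a r : Λ) :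
    (cj v (NS.z (κ + a))).co (κ + r) = (cj v (NS.z a)).co r := by
  by_cases h : Q.ω r κ = Q.ω a κ
  · have h1 : NS.z κ * (v : NS Q δ) = (v : NS Q δ) * NS.z κ := by
      ext x
      rw [NS.z_mul_co, NS.mul_z_co]
      by_cases h0 : (v : NS Q δ).co (x - κ) = 0
      · rw [h0, mul_zero, mul_zero]
      · have h2 := hP _ (hv.2 _ h0).1
        rw [map_sub, AddMonoidHom.sub_apply, Q.skew, sub_zero] at h2
        rw [Q.anti κ x, h2]
        rfl
    have h2 : cj v (NS.z κ) = NS.z κ := by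
      rw [cj, mul_assoc, h1, Units.inv_mul_cancel_left]
    have h3 := congrArg (fun f => NS.co f (κ + r)) (cj_mul' v (NS.z κ) (NS.z a))
    simp only [NS.z_mul_z, cj_smul, h2, NS.smul_co, NS.z_mul_co, map_add, Q.skew, zero_add,
      add_sub_cancel_left] at h3
    rw [Q.anti κ a, Q.anti κ r, h] at h3
    exact (Units.isUnit _).mul_left_cancel h3
  · have h1 : (cj v (NS.z a)).co r = 0 := by
      by_contra hc
      exact h (cj_z_deg hg hP hv hc)
    rw [h1]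
    by_contra hc
    have h2 := cj_z_deg hg hP hv hc
    simp only [map_add, AddMonoidHom.add_apply] at h2
    omega

theorem Hy.ip_co (h : Hy Q u N p κ H) {δ : Λ →+ ℤ} (hg : S_GRP Q δ) {P : AddSubmonoid Λ}
    (hP : ∀ x ∈ P, Q.ω x κ = 0) {v : (NS Q δ)ˣ} (hv : v ∈ GG Q δ P) (x : K) (r : Λ) :
    (cj v (IP Q δ (range (N + 1)) u (adjP p) x)).co r =
      x ^ (Q.ω r κ).toNat * (cj v (fz Q δ u p κ (N + 1))).co (κ + r) := by
  rw [IP, fz, cj_sum, cj_sum, NS.sum_co, NS.sum_co, mul_sum]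
  refine sum_congr (by congr) fun A hA => ?_
  rw [cj_smul, NS.smul_co, cj_z_shift hg hP hv]
  by_cases h0 : (cj v (NS.z (∑ v ∈ A, u v))).co r = 0
  · rw [h0, mul_zero, mul_zero]
  · have h1 : Q.ω (∑ v ∈ A, u v) κ = A.card := by
      rw [map_sum, AddMonoidHom.finsetSum_apply, card_eq_sum_ones, Nat.cast_sum]
      refine sum_congr rfl fun a ha => ?_
      rw [h.ka a (by have := mem_range.1 (mem_powerset.1 (mem_fil hA) ha); omega)]
      rfl
    rw [cj_z_deg hg hP hv h0, h1, Int.toNat_natCast]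

end F1A

open F1A

theorem t_f1 : T_F1 := by
  intro Λ K _ _ Q c ha hm hb u N p κ H hp om ka hH δ g hs hg L hL x hx θ r
  classical
  have h : Hy Q u N p κ H := ⟨hp, om, ka, hH⟩
  have hs' := h.seed (le_refl (N + 1))
  obtain ⟨g', hg'⟩ := ha.ex _ _ hs'
  have h1 := h.att_mem c ha hm L _ le_rfl g' hg'
  have h2 : ∀ θ r, (ex g' θ (fz Q _ u p κ (N + 1))).co r ∈ L := fun θ r => by
    have := add_mem (hb _ _ g' hs' hg' L hL _ h1 θ r) (h1 r)
    rwa [sub_add_cancel] at this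
  have hψ : ∀ y, (-Q.Av κ) y = -(Q.ω y κ : ℝ) := fun _ => rfl
  have hN : (-Q.Av κ) (-u N) = 1 := by
    rw [hψ, map_neg, AddMonoidHom.neg_apply, ka N le_rfl]
    simp
  obtain ⟨h3, h4⟩ := ha.face _ _ hs' g' hg' (-Q.Av κ) fun e he => by
    rcases (mem_sd u N _ e).1 he with ⟨w, h1, _, rfl⟩ | ⟨h1, rfl⟩ | ⟨w, h1, rfl⟩
    · rw [hψ, h.deg_diff h1]
      simp
    · omega
    · obtain rfl : w = N := by omega
      rw [hN]
      exact zero_le_one
  have h5 : ∀ (I : DecidablePred fun e => (-Q.Av κ) e = 0),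
      @Finset.filter _ _ I (sd u N (N + 1)) = sdX u N := by
    intro I
    ext e
    rw [mem_filter, mem_sd, mem_sdX]
    constructor
    · rintro ⟨⟨w, h1, _, rfl⟩ | ⟨h1, rfl⟩ | ⟨w, h1, rfl⟩, h6⟩
      · exact ⟨w, h1, rfl⟩
      · omega
      · obtain rfl : w = N := by omega
        rw [hN] at h6
        exact absurd h6 one_ne_zero
    · rintro ⟨w, h1, rfl⟩
      refine ⟨Or.inl ⟨w, h1, by omega, rfl⟩, ?_⟩
      rw [hψ, h.deg_diff h1]
      simp
  rw [h5] at h4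
  have h6 := lex_mem c hs' hg'.1 L _ h2 (-Q.Av κ) θ (κ + r)
  rw [((c.grp _).lex _ _ g' (GG_mono le_top hg'.1)).1, h3, one_mul] at h6
  have h7 : ∀ y ∈ PS (sdX u N) ⊓ (Cut.of θ).Neg, Q.ω y κ = 0 := by
    rintro y ⟨hy, -⟩
    induction hy using AddSubmonoid.closure_induction with
    | mem y hy =>
      obtain ⟨w, h1, rfl⟩ := (mem_sdX u N y).1 hy
      exact h.deg_diff h1
    | zero => simp
    | add y y' _ _ hy hy' => rw [map_add, AddMonoidHom.add_apply, hy, hy', add_zero]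
  have h8 := h.ip_co (c.grp _) h7 ((c.grp _).fac _ (Cut.of θ) _ h4.1).1 x r
  have hs'' : Seed (gr Q κ H (N + 1)) (sdX u N) := fun e he =>
    hs' e (mem_filter.1 ((h5 inferInstance).symm ▸ he)).1
  have h9 := (ha.tr δ _ (AddEquiv.refl Λ) (fun _ _ => rfl) _ _ hs hs'' (fun _ => Iff.rfl) g _ hg h4
    (IP Q δ (range (N + 1)) u (adjP p) x) (IP Q _ (range (N + 1)) u (adjP p) x) fun y => by
      simp only [IP, NS.sum_co, NS.smul_co, NS.z_co, AddEquiv.refl_apply]).2 θ r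
  have h10 : (ex g θ (IP Q δ (range (N + 1)) u (adjP p) x)).co r = _ := h9.symm.trans h8
  rw [h10]
  exact mul_mem (pow_mem hx _) h6

end Pool.Agent.P.MP_389f6f_co.Qt
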