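import Pool.Agent.P.MP_389f6f_co.QDefs

/-! Elementary real geometry for the scattering part. -/

set_option autoImplicit false

namespace Pool.Agent.P.MP_389f6f_co.Qt
open Finset

namespace GeoA

theorem ag1 (a b s : ℝ) (h : b ≠ 0 → -a / b ≤ s) :
    ((b < 0 ∨ (¬0 < b ∧ a < 0)) ↔ (a + s * b < 0 ∨ (¬0 < a + s * b ∧ b < 0))) ∧
      ((0 < b ∨ (¬b < 0 ∧ 0 < a)) ↔ (0 < a + s * b ∨ (¬a + s * b < 0 ∧ 0 < b))) := by
  rcases lt_trichotomy b 0 with hb | rfl | hb
  · have h1 := (div_le_iff_of_neg hb).mp (h hb.ne)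
    have e1 : ¬0 < a + s * b := by linarith
    have e2 : ¬0 < b := by linarith
    tauto
  · simp
  · have h1 := (div_le_iff₀ hb).mp (h hb.ne')
    have e1 : ¬a + s * b < 0 := by linarith
    have e2 : ¬b < 0 := by linarith
    tauto

theorem ag2 (a b s t : ℝ) (hst : s < t) (h : b ≠ 0 → -a / b ≤ s ∨ t ≤ -a / b) :
    ((a + t * b < 0 ∨ (¬0 < a + t * b ∧ -b < 0)) ↔
        (a + s * b < 0 ∨ (¬0 < a + s * b ∧ b < 0))) ∧
      ((0 < a + t * b ∨ (¬a + t * b < 0 ∧ 0 < -b)) ↔
        (0 < a + s * b ∨ (¬a + s * b < 0 ∧ 0 < b))) := by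
  rcases lt_trichotomy b 0 with hb | rfl | hb
  · have e2 : ¬0 < b := by linarith
    have e3 : ¬-b < 0 := by linarith
    have e4 : 0 < -b := by linarith
    have e5 : t * b < s * b := mul_lt_mul_of_neg_right hst hb
    rcases h hb.ne with h1 | h1
    · have h2 := (div_le_iff_of_neg hb).mp h1
      have e1 : ¬0 < a + s * b := by linarith
      have e6 : a + t * b < 0 := by linarith
      have e7 : ¬0 < a + t * b := by linarith
      tauto
    · have h2 := (le_div_iff_of_neg hb).mp h1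
      have e1 : ¬a + t * b < 0 := by linarith
      have e6 : 0 < a + s * b := by linarith
      have e7 : ¬a + s * b < 0 := by linarith
      tauto
  · simp
  · have e2 : ¬b < 0 := by linarith
    have e3 : -b < 0 := by linarith
    have e4 : ¬0 < -b := by linarith
    have e5 : s * b < t * b := mul_lt_mul_of_pos_right hst hb
    rcases h hb.ne' with h1 | h1
    · have h2 := (div_le_iff₀ hb).mp h1
      have e1 : ¬a + s * b < 0 := by linarith
      have e6 : 0 < a + t * b := by linarith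
      have e7 : ¬a + t * b < 0 := by linarith
      tauto
    · have h2 := (le_div_iff₀ hb).mp h1
      have e1 : ¬0 < a + t * b := by linarith
      have e6 : a + s * b < 0 := by linarith
      have e7 : ¬0 < a + s * b := by linarith
      tauto

variable {Λ : Type} [AddCommGroup Λ]

theorem flow (S : Set Λ) (hS : S.Finite) (θ A : Λ →+ ℝ) (q : Cut Λ → Prop)
    (hq : ∀ c d : Cut Λ, (∀ n ∈ S, (c.N n ↔ d.N n) ∧ (c.P n ↔ d.P n)) → q c → q d)
    (h0 : q (Cut.lex (Cut.of A) (Cut.of θ)))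
    (hs : ∀ s : ℝ, 0 ≤ s → q (Cut.lex (Cut.of (θ + s • A)) (Cut.of A)) →
      q (Cut.lex (Cut.of (θ + s • A)) (Cut.of (-A)))) :
    q (Cut.lex (Cut.of θ) (Cut.of (-A))) := by
  classical
  set T : Finset ℝ := hS.toFinset.image fun n => -θ n / A n with hT
  have mem : ∀ n ∈ S, -θ n / A n ∈ T := fun n hn =>
    mem_image.mpr ⟨n, hS.mem_toFinset.mpr hn, rfl⟩
  have key : ∀ k : ℕ, ∀ s : ℝ, 0 ≤ s → (T.filter fun t => s < t).card = k →
      q (Cut.lex (Cut.of (θ + s • A)) (Cut.of (-A))) := by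
    intro k
    induction k using Nat.strong_induction_on with
    | _ k ih =>
      intro s s0 hk
      refine hs s s0 ?_
      rcases (T.filter fun t => s < t).eq_empty_or_nonempty with he | hne
      · refine hq _ _ (fun n hn => ?_) h0
        have := ag1 (θ n) (A n) s fun _ => by
          by_contra hc
          have : -θ n / A n ∈ T.filter fun t => s < t := mem_filter.mpr ⟨mem n hn, not_le.mp hc⟩
          rw [he] at this
          simp at this
        simpa using this
      · set t := (T.filter fun t => s < t).min' hne with ht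
        have htm := mem_filter.mp ((T.filter fun t => s < t).min'_mem hne)
        rw [← ht] at htm
        have hlt : (T.filter fun u => t < u).card < k := by
          rw [← hk]
          refine card_lt_card ⟨fun u hu => ?_, fun hsub => ?_⟩
          · exact mem_filter.mpr ⟨(mem_filter.mp hu).1, htm.2.trans (mem_filter.mp hu).2⟩
          · exact lt_irrefl t (mem_filter.mp (hsub (mem_filter.mpr htm))).2
        refine hq _ _ (fun n hn => ?_) (ih _ hlt t (s0.trans htm.2.le) rfl)
        have := ag2 (θ n) (A n) s t htm.2 fun _ => by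
          rcases le_or_gt (-θ n / A n) s with h | h
          · exact Or.inl h
          · exact Or.inr (min'_le _ _ (mem_filter.mpr ⟨mem n hn, h⟩))
        simpa using this
  have := key _ 0 le_rfl rfl
  simpa using this

theorem small (S : Set Λ) (hS : S.Finite) (θ ψ : Λ →+ ℝ) : ∃ ε : ℝ, 0 < ε ∧ ∀ n ∈ S,
    (θ n < 0 → θ n + ε * ψ n < 0) ∧ (0 < θ n → 0 < θ n + ε * ψ n) := by
  have h : ∀ n ∈ S, ∀ᶠ ε in nhds (0 : ℝ),
      (θ n < 0 → θ n + ε * ψ n < 0) ∧ (0 < θ n → 0 < θ n + ε * ψ n) := by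
    intro n _
    have hc : Continuous fun ε : ℝ => θ n + ε * ψ n := by fun_prop
    have ht : Filter.Tendsto (fun ε : ℝ => θ n + ε * ψ n) (nhds 0) (nhds (θ n)) := by
      simpa using hc.tendsto 0
    refine Filter.Eventually.and ?_ ?_
    · by_cases h : θ n < 0
      · exact (ht.eventually_lt_const h).mono fun _ h' _ => h'
      · exact Filter.Eventually.of_forall fun _ h' => absurd h' h
    · by_cases h : 0 < θ n
      · exact (ht.eventually_const_lt h).mono fun _ h' _ => h'
      · exact Filter.Eventually.of_forall fun _ h' => absurd h' h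
  have h2 := (Filter.eventually_all_finite hS).mpr h
  have h3 := (h2.filter_mono (nhdsWithin_le_nhds (s := Set.Ioi 0))).and
    (self_mem_nhdsWithin (s := Set.Ioi (0 : ℝ)) (a := 0))
  obtain ⟨ε, h4, h5⟩ := h3.exists
  exact ⟨ε, h5, h4⟩

theorem lexap (S : Set Λ) (hS : S.Finite) (θ ψ : Λ →+ ℝ) : ∃ ε : ℝ, 0 < ε ∧ ∀ n ∈ S,
    ((θ + ε • ψ) n < 0 ↔ (Cut.lex (Cut.of θ) (Cut.of ψ)).N n) ∧
    (0 < (θ + ε • ψ) n ↔ (Cut.lex (Cut.of θ) (Cut.of ψ)).P n) := by
  obtain ⟨ε, h0, h⟩ := small S hS θ ψ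
  refine ⟨ε, h0, fun n hn => ?_⟩
  obtain ⟨h1, h2⟩ := h n hn
  simp only [AddMonoidHom.add_apply, AddMonoidHom.smul_apply, smul_eq_mul, Cut.lex_N, Cut.lex_P,
    Cut.of_N, Cut.of_P]
  rcases lt_trichotomy (θ n) 0 with hn | hn | hn
  · have e1 := h1 hn
    have e2 := e1.not_gt
    have e3 := hn.not_gt
    tauto
  · rw [hn, zero_add]
    have e1 : ε * ψ n < 0 ↔ ψ n < 0 := by
      rw [← neg_pos, ← mul_neg, mul_pos_iff_of_pos_left h0, neg_pos]
    simp [e1, mul_pos_iff_of_pos_left h0]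
  · have e1 := h2 hn
    have e2 := e1.not_gt
    have e3 := hn.not_gt
    tauto

theorem gen (S T : Set Λ) (hS : S.Finite) (hT : T.Finite) (n : Λ) (θ : Λ →+ ℝ) (hn : θ n = 0) :
    ∃ θ' : Λ →+ ℝ, θ' n = 0 ∧ (∀ x ∈ S, (θ x < 0 → θ' x < 0) ∧ (0 < θ x → 0 < θ' x)) ∧
      ∀ v ∈ T, θ' v = 0 → Par n v := by
  induction T, hT using Set.Finite.induction_on with
  | empty => exact ⟨θ, hn, fun x _ => ⟨id, id⟩, fun v hv => absurd hv (Set.notMem_empty v)⟩
  | @insert v T _ hT ih =>
    obtain ⟨θ', h1, h2, h3⟩ := ih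
    by_cases hv : θ' v = 0 → Par n v
    · refine ⟨θ', h1, h2, fun w hw => ?_⟩
      rcases hw with rfl | hw
      · exact hv
      · exact h3 w hw
    · obtain ⟨hv0, hv1⟩ := Classical.not_imp.mp hv
      obtain ⟨φ, hφ⟩ := not_forall.mp hv1
      obtain ⟨hφn, hφv⟩ := Classical.not_imp.mp hφ
      obtain ⟨ε, h0, h⟩ := small (S ∪ T) (hS.union hT) θ' φ
      refine ⟨θ' + ε • φ, by simp [h1, hφn], fun x hx => ?_, fun w hw hw0 => ?_⟩
      · have := h x (Or.inl hx)
        exact ⟨fun hx' => this.1 ((h2 x hx).1 hx'), fun hx' => this.2 ((h2 x hx).2 hx')⟩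
      · have hw1 : θ' w + ε * φ w = 0 := hw0
        rcases hw with rfl | hw
        · rw [hv0, zero_add] at hw1
          exact absurd hw1 (mul_ne_zero h0.ne' hφv)
        · refine h3 w hw ?_
          have := h w (Or.inr hw)
          rcases lt_trichotomy (θ' w) 0 with h4 | h4 | h4
          · exact absurd hw1 (this.1 h4).ne
          · exact h4
          · exact absurd hw1 (this.2 h4).ne'

theorem level (δ : Λ →+ ℤ) (s : Set Λ) (hs : s.Finite) (h : ∀ e ∈ s, 1 ≤ δ e) :
    (∀ x ∈ AddSubmonoid.closure s, x = 0 ∨ 1 ≤ δ x) ∧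
      ∀ c : ℤ, {x | x ∈ AddSubmonoid.closure s ∧ δ x ≤ c}.Finite := by
  have h1 : ∀ x ∈ AddSubmonoid.closure s, x = 0 ∨ 1 ≤ δ x := fun x hx =>
    (AddSubmonoid.closure_le (S := Pz δ)).mpr (fun e he => Or.inr (h e he)) hx
  have h2 : ∀ x ∈ AddSubmonoid.closure s,
      x = 0 ∨ ∃ e ∈ s, ∃ y ∈ AddSubmonoid.closure s, x = e + y := by
    intro x hx
    induction hx using AddSubmonoid.closure_induction_left with
    | zero => exact Or.inl rfl
    | add_left e he y hy _ => exact Or.inr ⟨e, he, y, hy, rfl⟩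
  have h3 : ∀ k : ℕ, {x | x ∈ AddSubmonoid.closure s ∧ δ x ≤ k}.Finite := by
    intro k
    induction k with
    | zero =>
      refine (Set.finite_singleton 0).subset fun x hx => ?_
      rcases h1 x hx.1 with h0 | h0
      · exact h0
      · have := hx.2
        omega
    | succ k ih =>
      refine (((hs.prod ih).image fun p => p.1 + p.2).insert 0).subset fun x hx => ?_
      rcases h2 x hx.1 with h0 | ⟨e, he, y, hy, rfl⟩
      · exact Or.inl h0
      · refine Or.inr ⟨(e, y), ⟨he, hy, ?_⟩, rfl⟩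
        have a1 := hx.2
        have a2 := h e he
        rw [map_add] at a1
        change δ y ≤ k
        push_cast at a1
        omega
  refine ⟨h1, fun c => (h3 c.toNat).subset fun x hx => ⟨hx.1, hx.2.trans (Int.self_le_toNat c)⟩⟩

end GeoA

theorem t_geo : T_GEO := fun _ _ =>
  ⟨GeoA.flow, GeoA.gen, GeoA.lexap, GeoA.level⟩

end Pool.Agent.P.MP_389f6f_co.Qt
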