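import Pool.Agent.P.MP_389f6f_co.QDefs

/-! Groups of series, factorisation along a cut, congruences. -/

set_option autoImplicit false

namespace Pool.Agent.P.MP_389f6f_co.Qt
open Finset

namespace GrpA

variable {Λ K : Type} [AddCommGroup Λ] [CommRing K] {Q : QD Λ K} {δ : Λ →+ ℤ}

theorem pz_nonneg {x : Λ} (h : x ∈ Pz δ) : 0 ≤ δ x := by
  rcases h with rfl | h
  · simp
  · omega

theorem sup_and {p q : Λ → Prop} {f : NS Q δ} (h : Sup p f) (h' : Sup q f) :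
    Sup (fun x => p x ∧ q x) f := fun x hx => ⟨h x hx, h' x hx⟩

theorem mono {P P' : AddSubmonoid Λ} {a : (NS Q δ)ˣ} (ha : a ∈ GG Q δ P)
    (h : ∀ x ∈ P, x ∈ P') : a ∈ GG Q δ P' := GG_mono h ha

theorem eqv_refl (U : Λ → Prop) (f : NS Q δ) : Eqv U f f := fun _ _ => rfl

theorem eqv_symm {U : Λ → Prop} {f g : NS Q δ} (h : Eqv U f g) : Eqv U g f :=
  fun x hx => (h x hx).symm

theorem fix (p : Λ → Prop) (Ψ : NS Q δ → NS Q δ) (hp : ∀ x, p x → 0 ≤ δ x)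
    (h1 : ∀ f, Sup p f → Sup p (Ψ f))
    (h2 : ∀ (c : ℤ) f f', Sup p f → Sup p f' → Eqv (fun x => δ x < c) f f' →
      Eqv (fun x => δ x ≤ c) (Ψ f) (Ψ f')) : ∃ f, Sup p f ∧ Ψ f = f := by
  obtain ⟨F, F0, Fs⟩ : ∃ F : ℕ → NS Q δ, F 0 = 0 ∧ ∀ k, F (k + 1) = Ψ (F k) :=
    ⟨fun k => Ψ^[k] 0, rfl, fun k => Function.iterate_succ_apply' Ψ k 0⟩
  have s : ∀ k, Sup p (F k) := fun k => by
    induction k with
    | zero => exact fun x hx => absurd (by rw [F0]; rfl) hx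
    | succ k ih => rw [Fs]; exact h1 _ ih
  have e1 : ∀ k : ℕ, Eqv (fun x => δ x < k) (F k) (F (k + 1)) := fun k => by
    induction k with
    | zero =>
      intro x hx
      by_contra hc
      have := hp x (s 1 x fun h => hc (by rw [F0, zero_add, h]; rfl))
      simp only [Nat.cast_zero] at hx
      omega
    | succ k ih =>
      intro x hx
      rw [Fs (k + 1)]
      nth_rewrite 1 [Fs k]
      exact h2 k _ _ (s _) (s _) ih x (by push_cast at hx; omega)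
  have e2 : ∀ (k j : ℕ) (x : Λ), δ x < k → (F k).co x = (F (k + j)).co x := fun k j x hx => by
    induction j with
    | zero => rfl
    | succ j ih => rw [ih, ← add_assoc]; exact e1 _ x (by push_cast; omega)
  have e3 : ∀ (k : ℕ) (x : Λ), δ x < k → (F ((δ x).toNat + 1)).co x = (F k).co x :=
    fun k x hx => by
      rw [e2 _ k x (by push_cast; omega), e2 k ((δ x).toNat + 1) x hx, add_comm]
  let L : NS Q δ := NS.mk Q (fun x => (F ((δ x).toNat + 1)).co x) fun c =>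
    ((F (c.toNat + 1)).lf c).subset fun x hx =>
      ⟨by rw [← e3 _ x (by have := hx.2; push_cast; omega)]; exact hx.1, hx.2⟩
  have sL : Sup p L := fun x hx => s _ x hx
  refine ⟨L, sL, NS.ext fun x => ?_⟩
  have := h2 (δ x) L (F (δ x).toNat) sL (s _) (fun y hy => e3 _ y (by omega)) x le_rfl
  rw [this, ← Fs]
  rfl

theorem contr_left {c : ℤ} {e f f' : NS Q δ} (he : Sup (fun x => 1 ≤ δ x) e)
    (h : Eqv (fun x => δ x < c) f f') : Sup (fun x => ¬δ x ≤ c) (e * (f - f')) :=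
  he.mul (eqv_iff.mp h) fun x y h1 h2 => by rw [map_add]; omega

theorem contr_right {c : ℤ} {e f f' : NS Q δ} (he : Sup (fun x => 1 ≤ δ x) e)
    (h : Eqv (fun x => δ x < c) f f') : Sup (fun x => ¬δ x ≤ c) ((f - f') * e) :=
  (eqv_iff.mp h).mul he fun x y h1 h2 => by rw [map_add]; omega

theorem unit (P : AddSubmonoid Λ) (f : NS Q δ) (h0 : f.co 0 = 1)
    (hf : Sup (· ∈ P ⊓ Pz δ) f) : ∃ u ∈ GG Q δ P, (u : NS Q δ) = f := by
  have he := hf.sub_one h0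
  have he1 : Sup (fun x => 1 ≤ δ x) (f - 1) := he.mono fun x h => h.1.2.resolve_left h.2
  have he2 : Sup (· ∈ P ⊓ Pz δ) (f - 1) := he.mono fun x h => h.1
  obtain ⟨h, -, e⟩ := fix (Q := Q) (· ∈ P ⊓ Pz δ) (fun h => 1 - (f - 1) * h)
    (fun x hx => pz_nonneg hx.2)
    (fun h hh => (Sup.one (zero_mem _)).sub (he2.mul hh fun _ _ => add_mem))
    fun c h h' _ _ e => eqv_iff.mpr (by
      rw [show 1 - (f - 1) * h - (1 - (f - 1) * h') = (f - 1) * (h' - h) by noncomm_ring]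
      exact contr_left he1 (eqv_symm e))
  obtain ⟨h', -, e'⟩ := fix (Q := Q) (· ∈ P ⊓ Pz δ) (fun h => 1 - h * (f - 1))
    (fun x hx => pz_nonneg hx.2)
    (fun h hh => (Sup.one (zero_mem _)).sub (hh.mul he2 fun _ _ => add_mem))
    fun c h h' _ _ e => eqv_iff.mpr (by
      rw [show 1 - h * (f - 1) - (1 - h' * (f - 1)) = (h' - h) * (f - 1) by noncomm_ring]
      exact contr_right he1 (eqv_symm e))
  have a1 : f * h = 1 := by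
    rw [show f * h = (f - 1) * h + h by noncomm_ring]
    nth_rewrite 2 [← e]
    abel
  have a2 : h' * f = 1 := by
    rw [show h' * f = h' * (f - 1) + h' by noncomm_ring]
    nth_rewrite 2 [← e']
    abel
  obtain rfl : h' = h := left_inv_eq_right_inv a2 a1
  exact ⟨⟨f, h', a1, a2⟩, ⟨h0, hf⟩, rfl⟩

open Classical in
/-- restriction of a series to a set of exponents -/
noncomputable def res (p : Λ → Prop) (f : NS Q δ) : NS Q δ :=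
  NS.mk Q (fun x => if p x then f.co x else 0) (f.lf.of_sup fun _ hx h => hx (by simp [h]))

theorem res_add (p : Λ → Prop) (f : NS Q δ) : res p f + res (fun x => ¬p x) f = f :=
  NS.ext fun x => by by_cases h : p x <;> simp [res, h]

theorem res_sup (p : Λ → Prop) {q : Λ → Prop} {f : NS Q δ} (h : Sup q f) :
    Sup (fun x => q x ∧ p x) (res p f) := fun x hx => by
  by_cases e : p x
  · exact ⟨h x (by simpa [res, e] using hx), e⟩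
  · simp [res, e] at hx

theorem res_eqv (p : Λ → Prop) {U : Λ → Prop} {f g : NS Q δ} (h : Eqv U f g) :
    Eqv U (res p f) (res p g) := fun x hx => by simp [res, h x hx]

theorem one_add_unit (P : AddSubmonoid Λ) (A : NS Q δ)
    (hA : Sup (fun x => x ∈ P ⊓ Pz δ ∧ x ≠ 0) A) : ∃ u ∈ GG Q δ P, (u : NS Q δ) = 1 + A := by
  refine unit P _ ?_ ((Sup.one (zero_mem _)).add (hA.mono fun _ h => h.1))
  have : A.co 0 = 0 := by
    by_contra h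
    exact (hA 0 h).2 rfl
  simp [NS.one_co, this]

theorem split (P N1 N2 : AddSubmonoid Λ) (hN : ∀ x ∈ P, x ∈ N1 ∨ x ∈ N2) (g : (NS Q δ)ˣ)
    (hg : g ∈ GG Q δ P) : ∃ a ∈ GG Q δ (P ⊓ N1), ∃ b ∈ GG Q δ (P ⊓ N2), g = a * b := by
  have h1 : ∀ x, x ∈ P ⊓ Pz δ ∧ x ≠ 0 → 1 ≤ δ x := fun x h => h.1.2.resolve_left h.2
  obtain ⟨w, hw, e⟩ := fix (Q := Q) (fun x => x ∈ P ⊓ Pz δ ∧ x ≠ 0)
    (fun w => (g : NS Q δ) - 1 - res (· ∈ N1) w * res (fun x => ¬x ∈ N1) w)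
    (fun x hx => pz_nonneg hx.1.2)
    (fun w hw => (hg.2.sub_one hg.1).sub ((res_sup _ hw).mul (res_sup _ hw) fun x y hx hy =>
      ⟨add_mem hx.1.1 hy.1.1, fun h => by
        have := h1 x hx.1
        have := h1 y hy.1
        have := congrArg δ h
        rw [map_add, map_zero] at this
        omega⟩))
    fun c w w' hw hw' e => eqv_iff.mpr (by
      have k : ∀ a A B A' B' : NS Q δ, a - A * B - (a - A' * B') = (A' - A) * B + A' * (B' - B) :=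
        fun _ _ _ _ _ => by noncomm_ring
      rw [k]
      exact (contr_right ((res_sup _ hw).mono fun x h => h1 x h.1) (res_eqv _ (eqv_symm e))).add
        (contr_left ((res_sup _ hw').mono fun x h => h1 x h.1) (res_eqv _ (eqv_symm e))))
  obtain ⟨a, ha, ea⟩ := one_add_unit (P ⊓ N1) _ ((res_sup (· ∈ N1) hw).mono fun x h =>
    ⟨⟨⟨h.1.1.1, h.2⟩, h.1.1.2⟩, h.1.2⟩)
  obtain ⟨b, hb, eb⟩ := one_add_unit (P ⊓ N2) _ ((res_sup (fun x => ¬x ∈ N1) hw).mono fun x h =>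
    ⟨⟨⟨h.1.1.1, (hN x h.1.1.1).resolve_left h.2⟩, h.1.1.2⟩, h.1.2⟩)
  refine ⟨a, ha, b, hb, Units.ext ?_⟩
  have k : ∀ a A B : NS Q δ, a - 1 - A * B = A + B → a = (1 + A) * (1 + B) := fun a A B h => by
    rw [show a = a - 1 - A * B + 1 + A * B by abel, h]; noncomm_ring
  rw [Units.val_mul, ea, eb]
  exact k _ _ _ (e.trans (res_add _ w).symm)

theorem eqv_mul (P : AddSubmonoid Λ) (U : Λ → Prop) (hU : Low δ P U) (f f' g g' : NS Q δ)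
    (hf : Sup (· ∈ P ⊓ Pz δ) f) (hf' : Sup (· ∈ P ⊓ Pz δ) f') (hg : Sup (· ∈ P ⊓ Pz δ) g)
    (hg' : Sup (· ∈ P ⊓ Pz δ) g') (e : Eqv U f f') (e' : Eqv U g g') :
    Eqv U (f * g) (f' * g') := by
  rw [eqv_iff, show f * g - f' * g' = (f - f') * g + f' * (g - g') by noncomm_ring]
  exact ((sup_and (hf.sub hf') (eqv_iff.mp e)).mul hg fun x y hx hy h =>
    hx.2 (hU x hx.1 y hy h)).add (hf'.mul (sup_and (hg.sub hg') (eqv_iff.mp e'))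
      fun x y hx hy h => hy.2 (hU y hy.1 x hx (add_comm x y ▸ h)))

theorem eqv_mulU {P : AddSubmonoid Λ} {U : Λ → Prop} (hU : Low δ P U) {a a' b b' : (NS Q δ)ˣ}
    (ha : a ∈ GG Q δ P) (ha' : a' ∈ GG Q δ P) (hb : b ∈ GG Q δ P) (hb' : b' ∈ GG Q δ P)
    (e : Eqv U (a : NS Q δ) a') (e' : Eqv U (b : NS Q δ) b') :
    Eqv U ((a * b : (NS Q δ)ˣ) : NS Q δ) (a' * b' : (NS Q δ)ˣ) :=
  eqv_mul P U hU _ _ _ _ ha.2 ha'.2 hb.2 hb'.2 e e'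

theorem eqv_inv (P : AddSubmonoid Λ) (U : Λ → Prop) (hU : Low δ P U) (a : (NS Q δ)ˣ)
    (ha : a ∈ GG Q δ P) (a' : (NS Q δ)ˣ) (ha' : a' ∈ GG Q δ P) (e : Eqv U (a : NS Q δ) a') :
    Eqv U ((a⁻¹ : (NS Q δ)ˣ) : NS Q δ) (a'⁻¹ : (NS Q δ)ˣ) := by
  have := eqv_mulU hU (mul_mem (inv_mem ha) ha') (mul_mem (inv_mem ha) ha) (inv_mem ha')
    (inv_mem ha') (eqv_mulU hU (inv_mem ha) (inv_mem ha) ha' ha (eqv_refl _ _) (eqv_symm e))
    (eqv_refl _ _)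
  rwa [mul_inv_cancel_right, inv_mul_cancel, one_mul] at this

theorem uniqU {P : AddSubmonoid Λ} {U : Λ → Prop} (hU : Low δ P U) {N1 N2 : AddSubmonoid Λ}
    (h1 : N1 ≤ P) (h2 : N2 ≤ P) (h12 : ∀ x ∈ N1, x ∈ N2 → U x → x = 0) {a a' b b' : (NS Q δ)ˣ}
    (ha : a ∈ GG Q δ N1) (ha' : a' ∈ GG Q δ N1) (hb : b ∈ GG Q δ N2) (hb' : b' ∈ GG Q δ N2)
    (e : Eqv U ((a * b : (NS Q δ)ˣ) : NS Q δ) (a' * b' : (NS Q δ)ˣ)) :
    Eqv U (a : NS Q δ) a' ∧ Eqv U (b : NS Q δ) b' := by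
  have pa := GG_mono h1 ha
  have pa' := GG_mono h1 ha'
  have pb := GG_mono h2 hb
  have pb' := GG_mono h2 hb'
  have hc := mul_mem (inv_mem ha') ha
  have hd := mul_mem hb' (inv_mem hb)
  have e1 := eqv_mulU hU (mul_mem (inv_mem pa') (mul_mem pa pb))
    (mul_mem (inv_mem pa') (mul_mem pa' pb')) (inv_mem pb) (inv_mem pb)
    (eqv_mulU hU (inv_mem pa') (inv_mem pa') (mul_mem pa pb) (mul_mem pa' pb') (eqv_refl _ _) e)
    (eqv_refl _ _)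
  rw [inv_mul_cancel_left, ← mul_assoc, mul_inv_cancel_right] at e1
  have e2 : Eqv U ((a'⁻¹ * a : (NS Q δ)ˣ) : NS Q δ) (1 : (NS Q δ)ˣ) := fun x hx => by
    rw [Units.val_one, NS.one_co]
    split_ifs with h
    · rw [h]; exact hc.1
    · by_contra h'
      exact h (h12 x (hc.2 x h').1 (hd.2 x (e1 x hx ▸ h')).1 hx)
  have e3 : Eqv U ((1 : (NS Q δ)ˣ) : NS Q δ) (b' * b⁻¹ : (NS Q δ)ˣ) := fun x hx =>
    (e2 x hx).symm.trans (e1 x hx)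
  have e4 := eqv_mulU hU pa' pa' (GG_mono h1 hc) (one_mem _) (eqv_refl _ _) e2
  have e5 := eqv_mulU hU (one_mem _) (GG_mono h2 hd) pb pb e3 (eqv_refl _ _)
  rw [mul_inv_cancel_left, mul_one] at e4
  rw [inv_mul_cancel_right, one_mul] at e5
  exact ⟨e4, e5⟩

theorem uniq2 {N1 N2 : AddSubmonoid Λ} (h12 : ∀ x ∈ N1, x ∈ N2 → x = 0) {a a' b b' : (NS Q δ)ˣ}
    (ha : a ∈ GG Q δ N1) (ha' : a' ∈ GG Q δ N1) (hb : b ∈ GG Q δ N2) (hb' : b' ∈ GG Q δ N2)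
    (e : a * b = a' * b') : a = a' ∧ b = b' := by
  have := uniqU (P := ⊤) (U := fun _ => True) (fun _ _ _ _ h => h) le_top le_top
    (fun x h h' _ => h12 x h h') ha ha' hb hb' (e ▸ eqv_refl _ _)
  exact ⟨Units.ext (NS.ext fun x => this.1 x trivial), Units.ext (NS.ext fun x => this.2 x trivial)⟩

theorem zer_le (σ : Cut Λ) : σ.Zer ≤ σ.NN := fun _ h => h.1

theorem pos_le (σ : Cut Λ) : σ.Pos ≤ σ.NN := by
  rintro x (rfl | h)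
  · exact σ.N0
  · exact fun h' => σ.disj x h' h

theorem neg_nn (σ : Cut Λ) : ∀ x ∈ σ.Neg, x ∈ σ.NN → x = 0 := fun _ h h' => h.resolve_right h'

theorem zer_pos (σ : Cut Λ) : ∀ x ∈ σ.Zer, x ∈ σ.Pos → x = 0 :=
  fun _ h h' => h'.resolve_right h.2

theorem fac_spec {σ : Cut Λ} {g : (NS Q δ)ˣ} {p : (NS Q δ)ˣ × (NS Q δ)ˣ × (NS Q δ)ˣ}
    (h : Fac σ g p) : fac σ g = p := by
  have h' : ∃ p, Fac σ g p := ⟨p, h⟩
  rw [fac, dif_pos h']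
  obtain ⟨a1, a2, a3, a4⟩ := h'.choose_spec
  obtain ⟨b1, b2, b3, b4⟩ := h
  obtain ⟨c1, c2⟩ := uniq2 (neg_nn σ) a1 b1 (mul_mem (GG_mono (zer_le σ) a2) (GG_mono (pos_le σ) a3))
    (mul_mem (GG_mono (zer_le σ) b2) (GG_mono (pos_le σ) b3))
    (by rw [← mul_assoc, ← mul_assoc, ← a4, ← b4])
  obtain ⟨c3, c4⟩ := uniq2 (zer_pos σ) a2 b2 a3 b3 c2
  exact Prod.ext c1 (Prod.ext c3 c4)

theorem fac_eq (σ : Cut Λ) (a : (NS Q δ)ˣ) (ha : a ∈ GG Q δ σ.Neg) (y : (NS Q δ)ˣ)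
    (hy : y ∈ GG Q δ σ.Zer) (b : (NS Q δ)ˣ) (hb : b ∈ GG Q δ σ.Pos) :
    lo σ (a * y * b) = a ∧ mid σ (a * y * b) = y ∧ hi σ (a * y * b) = b := by
  have := fac_spec (σ := σ) (p := (a, y, b)) ⟨ha, hy, hb, rfl⟩
  exact ⟨congrArg (·.1) this, congrArg (·.2.1) this, congrArg (·.2.2) this⟩

theorem split_nn (P : AddSubmonoid Λ) (σ : Cut Λ) (c : (NS Q δ)ˣ) (hc : c ∈ GG Q δ (P ⊓ σ.NN)) :
    ∃ y ∈ GG Q δ (P ⊓ σ.Zer), ∃ b ∈ GG Q δ (P ⊓ σ.Pos), c = y * b := by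
  obtain ⟨y, hy, b, hb, e⟩ := split (P ⊓ σ.NN) σ.Zer σ.Pos (fun x hx => by
    by_cases h : σ.P x
    · exact Or.inr (Or.inr h)
    · exact Or.inl ⟨hx.2, h⟩) c hc
  exact ⟨y, mono hy fun x h => ⟨h.1.1, h.2⟩, b, mono hb fun x h => ⟨h.1.1, h.2⟩, e⟩

theorem fac_mem (P : AddSubmonoid Λ) (σ : Cut Λ) (g : (NS Q δ)ˣ) (hg : g ∈ GG Q δ P) :
    lo σ g ∈ GG Q δ (P ⊓ σ.Neg) ∧ mid σ g ∈ GG Q δ (P ⊓ σ.Zer) ∧ hi σ g ∈ GG Q δ (P ⊓ σ.Pos) ∧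
      g = lo σ g * mid σ g * hi σ g := by
  obtain ⟨a, ha, c, hc, rfl⟩ := split P σ.Neg σ.NN (fun x _ => by
    by_cases h : σ.N x
    · exact Or.inl (Or.inr h)
    · exact Or.inr h) g hg
  obtain ⟨y, hy, b, hb, rfl⟩ := split_nn P σ c hc
  obtain ⟨e1, e2, e3⟩ := fac_eq σ a (GG_mono inf_le_right ha) y (GG_mono inf_le_right hy) b
    (GG_mono inf_le_right hb)
  rw [← mul_assoc, e1, e2, e3]
  exact ⟨ha, hy, hb, rfl⟩

theorem lo_eq (σ : Cut Λ) (a : (NS Q δ)ˣ) (ha : a ∈ GG Q δ σ.Neg) (b : (NS Q δ)ˣ)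
    (hb : b ∈ GG Q δ σ.NN) : lo σ (a * b) = a := by
  obtain ⟨y, hy, c, hc, rfl⟩ := split_nn ⊤ σ b (mono hb fun x h => ⟨trivial, h⟩)
  rw [← mul_assoc]
  exact (fac_eq σ a ha y (GG_mono inf_le_right hy) c (GG_mono inf_le_right hc)).1

theorem lex (σ τ : Cut Λ) (g : (NS Q δ)ˣ) (hg : g ∈ GG Q δ ⊤) :
    lo (Cut.lex σ τ) g = lo σ g * lo τ (mid σ g) ∧ mid (Cut.lex σ τ) g = mid τ (mid σ g) := by
  obtain ⟨a1, a2, a3, a4⟩ := fac_mem ⊤ σ g hg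
  obtain ⟨b1, b2, b3, b4⟩ := fac_mem _ τ _ a2
  have e : g = lo σ g * lo τ (mid σ g) * mid τ (mid σ g) * (hi τ (mid σ g) * hi σ g) := by
    rw [← mul_assoc, mul_assoc (lo σ g), mul_assoc (lo σ g), ← b4, ← a4]
  have := fac_eq (Cut.lex σ τ) _
    (mul_mem (mono a1 fun x h => h.2.imp_right Or.inl)
      (mono b1 fun x h => h.2.imp_right fun h' => Or.inr ⟨h.1.2.2, h'⟩)) _
    (mono b2 fun x h => ⟨fun h' => h'.elim h.1.2.1 fun k => h.2.1 k.2,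
      fun h' => h'.elim h.1.2.2 fun k => h.2.2 k.2⟩) _
    (mul_mem (mono b3 fun x h => h.2.imp_right fun h' => Or.inr ⟨h.1.2.1, h'⟩)
      (mono a3 fun x h => h.2.imp_right Or.inl))
  rw [← e] at this
  exact ⟨this.1, this.2.1⟩

theorem conj (N Z : AddSubmonoid Λ) (h : ∀ x ∈ N, x ≠ 0 → ∀ y ∈ Z, x + y ∈ N) (u : (NS Q δ)ˣ)
    (hu : u ∈ GG Q δ Z) (a : (NS Q δ)ˣ) (ha : a ∈ GG Q δ N) : u * a * u⁻¹ ∈ GG Q δ N := by
  refine ⟨(mul_mem (mul_mem (GG_mono le_top hu) (GG_mono le_top ha))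
    (inv_mem (GG_mono le_top hu))).1, ?_⟩
  have e : ((u * a * u⁻¹ : (NS Q δ)ˣ) : NS Q δ) =
      1 + (u : NS Q δ) * ((a : NS Q δ) - 1) * (u⁻¹ : (NS Q δ)ˣ) := by
    rw [mul_sub, sub_mul, mul_one, Units.mul_inv, Units.val_mul, Units.val_mul]; abel
  have k : ∀ x y : Λ, x ∈ N ∧ 1 ≤ δ x → y ∈ Z ⊓ Pz δ → x + y ∈ N ∧ 1 ≤ δ (x + y) :=
    fun x y hx hy => ⟨h x hx.1 (fun e => by have := hx.2; rw [e, map_zero] at this; omega) y hy.1,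
      by have := pz_nonneg hy.2; have := hx.2; rw [map_add]; omega⟩
  have s1 : Sup (fun x => x ∈ N ∧ 1 ≤ δ x) ((a : NS Q δ) - 1) :=
    (ha.2.sub_one ha.1).mono fun x h => ⟨h.1.1, h.1.2.resolve_left h.2⟩
  rw [e]
  have s2 : Sup (fun x => x ∈ N ∧ 1 ≤ δ x) ((u : NS Q δ) * ((a : NS Q δ) - 1)) :=
    hu.2.mul s1 fun x y hx hy => add_comm y x ▸ k y x hy hx
  exact (Sup.one (zero_mem _)).add ((s2.mul (s := fun x => x ∈ N ∧ 1 ≤ δ x) (inv_mem hu).2 k).mono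
    fun x h => ⟨h.1, Or.inr h.2⟩)

/-- elements of `P` that lie in `M` whenever they lie in `U` -/
def rel {P : AddSubmonoid Λ} {U : Λ → Prop} (hU : Low δ P U) (M : AddSubmonoid Λ) :
    AddSubmonoid Λ where
  carrier := {x | x ∈ P ⊓ Pz δ ∧ (U x → x ∈ M)}
  zero_mem' := ⟨zero_mem _, fun _ => zero_mem _⟩
  add_mem' := fun {x y} hx hy => ⟨add_mem hx.1 hy.1, fun h =>
    add_mem (hx.2 (hU x hx.1 y hy.1 h)) (hy.2 (hU y hy.1 x hx.1 (add_comm x y ▸ h)))⟩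

theorem mem_rel {P : AddSubmonoid Λ} {U : Λ → Prop} (hU : Low δ P U) {M M' : AddSubmonoid Λ}
    (h : ∀ x ∈ P ⊓ Pz δ, U x → x ∈ M' → x ∈ M) {a : (NS Q δ)ˣ} (ha : a ∈ GG Q δ (P ⊓ M')) :
    a ∈ GG Q δ (rel hU M) :=
  ⟨ha.1, ha.2.mono fun x hx => ⟨⟨⟨hx.1.1, hx.2⟩, fun k => h x ⟨hx.1.1, hx.2⟩ k hx.1.2⟩, hx.2⟩⟩

theorem uniqR {P : AddSubmonoid Λ} {U : Λ → Prop} (hU : Low δ P U)
    {N1 N2 N1' N2' : AddSubmonoid Λ} (h12 : ∀ x ∈ N1, x ∈ N2 → x = 0)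
    (h1 : ∀ x ∈ P ⊓ Pz δ, U x → x ∈ N1' → x ∈ N1) (h2 : ∀ x ∈ P ⊓ Pz δ, U x → x ∈ N2' → x ∈ N2)
    {a a' b b' : (NS Q δ)ˣ} (ha : a ∈ GG Q δ (P ⊓ N1)) (ha' : a' ∈ GG Q δ (P ⊓ N1'))
    (hb : b ∈ GG Q δ (P ⊓ N2)) (hb' : b' ∈ GG Q δ (P ⊓ N2'))
    (e : Eqv U ((a * b : (NS Q δ)ˣ) : NS Q δ) (a' * b' : (NS Q δ)ˣ)) :
    Eqv U (a : NS Q δ) a' ∧ Eqv U (b : NS Q δ) b' :=
  uniqU hU (N1 := rel hU N1) (N2 := rel hU N2) (fun _ h => h.1.1) (fun _ h => h.1.1)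
    (fun x h h' k => h12 x (h.2 k) (h'.2 k)) (mem_rel hU (fun _ _ _ h => h) ha) (mem_rel hU h1 ha')
    (mem_rel hU (fun _ _ _ h => h) hb) (mem_rel hU h2 hb') e

theorem lo_congr (P : AddSubmonoid Λ) (U : Λ → Prop) (hU : Low δ P U) (σ σ' : Cut Λ)
    (h : ∀ x ∈ P ⊓ Pz δ, U x → (σ.N x ↔ σ'.N x)) (g : (NS Q δ)ˣ) (hg : g ∈ GG Q δ P)
    (g' : (NS Q δ)ˣ) (hg' : g' ∈ GG Q δ P) (e : Eqv U (g : NS Q δ) g') :
    Eqv U (lo σ g : NS Q δ) (lo σ' g' : (NS Q δ)ˣ) ∧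
      Eqv U ((mid σ g * hi σ g : (NS Q δ)ˣ) : NS Q δ) (mid σ' g' * hi σ' g' : (NS Q δ)ˣ) := by
  obtain ⟨a1, a2, a3, a4⟩ := fac_mem P σ g hg
  obtain ⟨b1, b2, b3, b4⟩ := fac_mem P σ' g' hg'
  refine uniqR hU (N1' := σ'.Neg) (N2' := σ'.NN) (neg_nn σ)
    (fun x hx k h' => h'.imp_right (h x hx k).mpr)
    (fun x hx k h' h'' => h' ((h x hx k).mp h'')) a1 b1
    (mul_mem (GG_mono (inf_le_inf_left _ (zer_le σ)) a2) (GG_mono (inf_le_inf_left _ (pos_le σ)) a3))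
    (mul_mem (GG_mono (inf_le_inf_left _ (zer_le σ')) b2)
      (GG_mono (inf_le_inf_left _ (pos_le σ')) b3)) ?_
  rwa [← mul_assoc, ← mul_assoc, ← a4, ← b4]

theorem mid_congr (P : AddSubmonoid Λ) (U : Λ → Prop) (hU : Low δ P U) (σ σ' : Cut Λ)
    (h : ∀ x ∈ P ⊓ Pz δ, U x → (σ.N x ↔ σ'.N x) ∧ (σ.P x ↔ σ'.P x)) (g : (NS Q δ)ˣ)
    (hg : g ∈ GG Q δ P) (g' : (NS Q δ)ˣ) (hg' : g' ∈ GG Q δ P) (e : Eqv U (g : NS Q δ) g') :
    Eqv U (mid σ g : NS Q δ) (mid σ' g' : (NS Q δ)ˣ) ∧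
      Eqv U (hi σ g : NS Q δ) (hi σ' g' : (NS Q δ)ˣ) :=
  uniqR hU (N1' := σ'.Zer) (N2' := σ'.Pos) (zer_pos σ)
    (fun x hx k h' => ⟨fun t => h'.1 ((h x hx k).1.mp t), fun t => h'.2 ((h x hx k).2.mp t)⟩)
    (fun x hx k h' => h'.imp_right (h x hx k).2.mpr) (fac_mem P σ g hg).2.1
    (fac_mem P σ' g' hg').2.1 (fac_mem P σ g hg).2.2.1 (fac_mem P σ' g' hg').2.2.1
    (lo_congr P U hU σ σ' (fun x hx k => (h x hx k).1) g hg g' hg' e).2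

theorem top2 {P : AddSubmonoid Λ} {U : Λ → Prop} {n : Λ} (hn : Bd δ P U n)
    {a a' b b' : (NS Q δ)ˣ} (ha : a ∈ GG Q δ P) (ha' : a' ∈ GG Q δ P) (hb : b ∈ GG Q δ P)
    (hb' : b' ∈ GG Q δ P) (e : Eqv U (a : NS Q δ) a') (e' : Eqv U (b : NS Q δ) b') :
    ((a * b : (NS Q δ)ˣ) : NS Q δ).co n - ((a' * b' : (NS Q δ)ˣ) : NS Q δ).co n =
      ((a : NS Q δ).co n - (a' : NS Q δ).co n) + ((b : NS Q δ).co n - (b' : NS Q δ).co n) := by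
  have s : Sup (fun x => x ≠ n) (((a : NS Q δ) - (a' : NS Q δ)) * ((b : NS Q δ) - 1) +
      ((a' : NS Q δ) - 1) * ((b : NS Q δ) - (b' : NS Q δ))) :=
    ((sup_and (ha.2.sub ha'.2) (eqv_iff.mp e)).mul (hb.2.sub_one hb.1) fun x y hx hy h =>
      hx.2 (hn x hx.1 y hy.1 h hy.2)).add ((ha'.2.sub_one ha'.1).mul
        (sup_and (hb.2.sub hb'.2) (eqv_iff.mp e')) fun x y hx hy h =>
          hy.2 (hn y hy.1 x hx.1 (add_comm x y ▸ h) hx.2))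
  have k : ∀ a a' b b' : NS Q δ, a * b - a' * b' =
      (a - a') + (b - b') + ((a - a') * (b - 1) + (a' - 1) * (b - b')) :=
    fun _ _ _ _ => by noncomm_ring
  have z := not_not.mp fun h => s n h rfl
  rw [← NS.sub_co, Units.val_mul, Units.val_mul, k, NS.add_co, z, add_zero]
  rfl

theorem co_eq {M : AddSubmonoid Λ} {n : Λ} (h : n ∈ M → n = 0) {P : AddSubmonoid Λ}
    {a a' : (NS Q δ)ˣ} (ha : a ∈ GG Q δ (P ⊓ M)) (ha' : a' ∈ GG Q δ (P ⊓ M)) :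
    (a : NS Q δ).co n - (a' : NS Q δ).co n = 0 := by
  by_cases e : n = 0
  · rw [e, ha.1, ha'.1, sub_self]
  · rw [not_not.mp fun k => e (h (ha.2 n k).1.2), not_not.mp fun k => e (h (ha'.2 n k).1.2),
      sub_self]

theorem mid_top (P : AddSubmonoid Λ) (U : Λ → Prop) (hU : Low δ P U) (σ : Cut Λ) (n : Λ)
    (hn : Bd δ P U n) (n1 : ¬σ.N n) (n2 : ¬σ.P n) (g : (NS Q δ)ˣ) (hg : g ∈ GG Q δ P)
    (g' : (NS Q δ)ˣ) (hg' : g' ∈ GG Q δ P) (e : Eqv U (g : NS Q δ) g') :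
    (mid σ g : NS Q δ).co n - (mid σ g' : NS Q δ).co n =
      (g : NS Q δ).co n - (g' : NS Q δ).co n := by
  obtain ⟨a1, a2, a3, a4⟩ := fac_mem P σ g hg
  obtain ⟨b1, b2, b3, b4⟩ := fac_mem P σ g' hg'
  obtain ⟨c1, c2⟩ := lo_congr P U hU σ σ (fun _ _ _ => Iff.rfl) g hg g' hg' e
  obtain ⟨c3, c4⟩ := mid_congr P U hU σ σ (fun _ _ _ => ⟨Iff.rfl, Iff.rfl⟩) g hg g' hg' e
  have m : ∀ {M : AddSubmonoid Λ} {u : (NS Q δ)ˣ}, u ∈ GG Q δ (P ⊓ M) → u ∈ GG Q δ P :=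
    fun h => GG_mono inf_le_left h
  have t1 := top2 hn (m a1) (m b1) (mul_mem (m a2) (m a3)) (mul_mem (m b2) (m b3)) c1 c2
  rw [top2 hn (m a2) (m b2) (m a3) (m b3) c3 c4, ← mul_assoc, ← mul_assoc, ← a4, ← b4,
    co_eq (M := σ.Neg) (fun h => h.resolve_right n1) a1 b1,
    co_eq (M := σ.Pos) (fun h => h.resolve_right n2) a3 b3, zero_add, add_zero] at t1
  exact t1.symm

theorem cj_congr (D : ℤ) (u : (NS Q δ)ˣ) (hu : u ∈ GG Q δ ⊤) (u' : (NS Q δ)ˣ)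
    (hu' : u' ∈ GG Q δ ⊤) (e : Eqv (fun x => δ x ≤ D) (u : NS Q δ) u') (f : NS Q δ) (r : Λ)
    (hf : Sup (fun x => δ r - D ≤ δ x) f) : (cj u f).co r = (cj u' f).co r := by
  have e' := eqv_inv ⊤ _ (fun x _ y hy h => by
    have := pz_nonneg hy.2
    rw [map_add] at h
    omega) u hu u' hu' e
  have k : ∀ a a' b b' : NS Q δ, a * f * b - a' * f * b' = (a - a') * f * b + a' * f * (b - b') :=
    fun _ _ _ _ => by noncomm_ring
  have s : Sup (fun x => ¬x = r) (cj u f - cj u' f) := by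
    rw [cj, cj, k]
    refine Sup.mono (p := fun x => δ r < δ x) (Sup.add ?_ ?_) fun x h h' => by
      rw [h'] at h; exact lt_irrefl _ h
    · refine ((eqv_iff.mp e').mul (s := fun x => δ r < δ x) hf fun x y h1 h2 => ?_).mul hu.2
        fun x y h1 h2 => ?_
      · rw [map_add]; omega
      · have := pz_nonneg h2.2
        rw [map_add]; omega
    · refine ((inv_mem hu').2.mul (s := fun x => δ r - D ≤ δ x) hf fun x y h1 h2 => ?_).mul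
        (eqv_iff.mp e) fun x y h1 h2 => ?_
      · have := pz_nonneg h1.2
        rw [map_add]; omega
      · rw [map_add]; omega
  exact eqv_iff.mpr s r rfl

theorem cj_sup (P : AddSubmonoid Λ) (u : (NS Q δ)ˣ) (hu : u ∈ GG Q δ P) (f : NS Q δ) :
    Sup (fun r => ∃ a, f.co a ≠ 0 ∧ r - a ∈ P ⊓ Pz δ) (cj u f) :=
  ((inv_mem hu).2.mul (q := fun x => f.co x ≠ 0)
    (s := fun r => ∃ a, f.co a ≠ 0 ∧ r - a ∈ P ⊓ Pz δ) (fun _ h => h)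
    fun x y hx hy => ⟨y, hy, by simpa using hx⟩).mul hu.2 fun x y ⟨a, h1, h2⟩ hy =>
      ⟨a, h1, by rw [add_sub_right_comm]; exact add_mem h2 hy⟩

theorem pos_mul (L : Subsemiring K) (hL : Q.HasT L) (f g : NS Q δ) (hf : ∀ x, f.co x ∈ L)
    (hg : ∀ x, g.co x ∈ L) (x : Λ) : (f * g).co x ∈ L := by
  rw [NS.mul_co_sum f g x (NS.fin_conv f g x).toFinset fun a h1 h2 =>
    (Set.Finite.mem_toFinset _).mpr ⟨h1, h2⟩]
  exact sum_mem fun a _ => mul_mem (mul_mem (hL _) (hf _)) (hg _)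

end GrpA

open GrpA in
theorem t_grp : T_GRP := fun _ _ _ _ _ _ =>
  { fix := GrpA.fix
    unit := GrpA.unit
    fac := fac_mem
    fac_eq := GrpA.fac_eq
    lo_eq := GrpA.lo_eq
    lex := GrpA.lex
    conj := GrpA.conj
    eqv_mul := GrpA.eqv_mul
    eqv_inv := GrpA.eqv_inv
    lo_congr := fun P U hU σ σ' h g hg g' hg' e =>
      (GrpA.lo_congr P U hU σ σ' h g hg g' hg' e).1
    mid_congr := fun P U hU σ σ' h g hg g' hg' e =>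
      (GrpA.mid_congr P U hU σ σ' h g hg g' hg' e).1
    mid_top := GrpA.mid_top
    cj_congr := GrpA.cj_congr
    cj_sup := GrpA.cj_sup
    pos_mul := GrpA.pos_mul }

end Pool.Agent.P.MP_389f6f_co.Qt
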