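import Pool.Agent.P.MP_389f6f_co.QDefs

/-! Positivity of all coefficients from positivity on the fixed lattice of the shift. -/

set_option autoImplicit false

namespace Pool.Agent.P.MP_389f6f_co.Qt
open Finset Filter Topology

namespace MainA
variable {Λ K : Type} [AddCommGroup Λ] [CommRing K] {Q : QD Λ K} {p : ℕ}

/-- iterates of the shift -/
def it (T : Td Q p) : ℕ → Λ →+ Λ
  | 0 => AddMonoidHom.id Λ
  | M + 1 => T.Φ.toAddMonoidHom.comp (it T M)

theorem it_succ (T : Td Q p) (M : ℕ) (x : Λ) : it T (M + 1) x = T.Φ (it T M x) := rfl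

theorem it_q (T : Td Q p) (M j : ℕ) : it T M (T.q j) = T.q j := by
  induction M with
  | zero => rfl
  | succ M ih => rw [it_succ, ih, T.Φq]

theorem it_y (T : Td Q p) (M j b : ℕ) : it T M (T.y j b) = T.y j (b + M) := by
  induction M with
  | zero => rfl
  | succ M ih => rw [it_succ, ih, T.Φy, add_assoc]

theorem it_surj (T : Td Q p) (M : ℕ) (r : Λ) : ∃ x, it T M x = r := by
  induction M generalizing r with
  | zero => exact ⟨r, rfl⟩
  | succ M ih =>
    obtain ⟨x, hx⟩ := ih (T.Φ.symm r)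
    exact ⟨x, by rw [it_succ, hx, AddEquiv.apply_symm_apply]⟩

theorem y_per (T : Td Q p) (j b k : ℕ) :
    T.y j (b + k * p) = T.y j b + k • (T.q (j + 1) - T.q j) := by
  induction k with
  | zero => simp
  | succ k ih => rw [Nat.succ_mul, ← add_assoc, T.per, ih, succ_nsmul]; abel

/-- nonnegative combinations of the fixed vertices -/
def QS (T : Td Q p) (m : ℕ) (r : Λ) : Prop :=
  ∃ μ : ℕ → ℕ, r = ∑ j ∈ range (m + 1), μ j • T.q j

theorem QS.map {T : Td Q p} {m : ℕ} {r : Λ} (h : QS T m r) {A : Type} [AddCommGroup A]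
    (φ ψ : Λ →+ A) (e : ∀ j, φ (T.q j) = ψ (T.q j)) : φ r = ψ r := by
  obtain ⟨μ, rfl⟩ := h
  simp only [map_sum, map_nsmul, e]

theorem QS.single (T : Td Q p) {m j : ℕ} (hj : j ≤ m) (w : ℕ) : QS T m (w • T.q j) := by
  refine ⟨fun i => if i = j then w else 0, ?_⟩
  rw [Finset.sum_eq_single j (fun i _ hi => by simp [hi])
    (fun h => absurd (mem_range.mpr (by omega)) h)]
  simp

theorem QS.add {T : Td Q p} {m : ℕ} (a b : Λ) (ha : QS T m a) (hb : QS T m b) :
    QS T m (a + b) := by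
  obtain ⟨μ, rfl⟩ := ha
  obtain ⟨ν, rfl⟩ := hb
  exact ⟨fun j => μ j + ν j, by simp only [add_smul, Finset.sum_add_distrib]⟩

theorem theta_ex (T : Td Q p) (lam : ℕ → ℝ) (M : ℕ) : ∃ θ : Λ →+ ℝ,
    (∀ j, θ (T.q j) = p * ∑ i ∈ range j, lam i) ∧
      ∀ j b, 1 ≤ b → θ (T.y j b) = θ (T.q j) + (b - M - 1 / 2) * lam j := by
  obtain ⟨θ, h1, h2⟩ := T.lift ℝ (fun j => p * ∑ i ∈ range j, lam i)
    (fun j b => p * ∑ i ∈ range j, lam i + (b - M - 1 / 2) * lam j)
  refine ⟨θ, h1, fun j b => ?_⟩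
  induction b using Nat.strong_induction_on with
  | _ b ih =>
    intro hb
    by_cases h : b ≤ p
    · rw [h2 j b hb h, h1]
    · obtain ⟨c, rfl⟩ : ∃ c, b = c + p := ⟨b - p, by omega⟩
      have hp := T.hp
      rw [T.per, map_sub, map_add, ih c (by omega) (by omega), h1, h1, Finset.sum_range_succ]
      push_cast
      ring

variable {δ : Λ →+ ℤ}

theorem ex_face (hA : S_AT Q) {s : Finset Λ} (hs : Seed δ s) {g : (NS Q δ)ˣ} (hg : AT s g)
    (θ : Λ →+ ℝ) (h : ∀ e ∈ s, 0 ≤ θ e) (f : NS Q δ) : ex g θ f = f := by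
  rw [ex, (hA.face δ s hs g hg θ h).1, cj_one]

theorem chain (T : Td Q p) (hA : S_AT Q) (tau : T.S_TAU) {m : ℕ} (hs : Seed δ (T.sd m))
    {g : (NS Q δ)ˣ} (hg : AT (T.sd m) g) (xs : List K) (M : ℕ) : ∀ θ : Λ →+ ℝ,
    (∀ j < m, ∀ b, 1 ≤ b → b ≤ M → θ (T.y j b - T.q j) < 0) →
    (∀ e ∈ T.sd m, 0 ≤ θ (it T M e)) → ∀ r,
    (ex g θ (T.F δ m xs)).co (it T M r) = (T.F δ m xs).co r := by
  induction M with
  | zero => exact fun θ _ h r => by rw [ex_face hA hs hg θ h]; rfl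
  | succ M ih =>
    intro θ h1 h2 r
    rw [it_succ, (tau m δ g xs hs hg).2 θ (fun j hj => h1 j hj 1 le_rfl (by omega))]
    refine ih _ (fun j hj b hb hM => ?_) h2 r
    have h := h1 j hj (b + 1) (by omega) (by omega)
    rw [← T.Φy, ← T.Φq, ← map_sub] at h
    exact h

theorem chain' (T : Td Q p) (hA : S_AT Q) (tb : T.S_TB) (tau : T.S_TAU) {m : ℕ}
    (hs : Seed δ (T.sd m)) {g : (NS Q δ)ˣ} (hg : AT (T.sd m) g) (xs : List K) (M : ℕ)
    (lam : ℕ → ℝ) (hl : ∀ j < m, 0 < lam j) (θ : Λ →+ ℝ)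
    (h1 : ∀ j, θ (T.q j) = p * ∑ i ∈ range j, lam i)
    (h2 : ∀ j b, 1 ≤ b → θ (T.y j b) = θ (T.q j) + (b - M - 1 / 2) * lam j) (r : Λ) :
    (ex g θ (T.F δ m xs)).co (it T M r) = (T.F δ m xs).co r := by
  refine chain T hA tau hs hg xs M θ (fun j hj b hb hM => ?_) (fun e he => ?_) r
  · rw [map_sub, h2 j b hb, add_sub_cancel_left]
    have : (b : ℝ) ≤ M := by exact_mod_cast hM
    exact mul_neg_of_neg_of_pos (by linarith) (hl j hj)
  · have hp := T.hp
    obtain ⟨j, hj, rfl | rfl | ⟨b, hb, _, rfl⟩⟩ := (tb.mem m e).mp he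
    · rw [map_sub, it_y, it_q, map_sub, h2 _ _ (by omega)]
      have := hl j hj
      push_cast
      linarith
    · rw [map_sub, it_y, it_q, map_sub, h2 _ _ (by omega), h1, h1, Finset.sum_range_succ]
      have := hl j hj
      push_cast
      linarith
    · rw [map_sub, it_y, it_y, map_sub, h2 _ _ (by omega), h2 _ _ (by omega)]
      have := hl j hj
      push_cast
      linarith

theorem ex_pos (T : Td Q p) (c : Core Q) (f1 : S_F1 Q) (tb : T.S_TB) {m : ℕ}
    (hδ : ∀ v, δ (T.u v) = v) (hs : Seed δ (T.sd m)) {g : (NS Q δ)ˣ} (hg : AT (T.sd m) g)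
    {L : Subsemiring K} (hL : Q.HasT L) (θ : Λ →+ ℝ) (xs : List K) (hx : ∀ x ∈ xs, x ∈ L) :
    ∀ r, (ex g θ (T.F δ m xs)).co r ∈ L := by
  induction xs with
  | nil =>
    intro r
    have h : ex g θ (T.F δ m []) = 1 := by simp [ex, cj, Td.F, FP]
    rw [h, NS.one_co]
    split_ifs
    · exact L.one_mem
    · exact L.zero_mem
  | cons x xs ih =>
    have h : ex g θ (T.F δ m (x :: xs)) =
        ex g θ (IP Q δ (range (m * (p + 1) + 1)) T.u (adjP p) x) * ex g θ (T.F δ m xs) := by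
      unfold ex
      rw [← cj_mul']
      rfl
    rw [h]
    refine (c.grp δ).pos_mul L hL _ _ ?_ (ih fun y hy => hx y (List.mem_cons_of_mem _ hy))
    exact f1 T.u (m * (p + 1)) p T.κ δ T.hp (fun i j h _ => tb.om i j h) (fun j _ => tb.ka j)
      (fun j _ => hδ j) δ g hs hg L hL x (hx x List.mem_cons_self) θ

/-- a point all of whose preimages under the shift are sums of vertices is a sum of fixed ones -/
theorem qs_of (T : Td Q p) (tb : T.S_TB) {m : ℕ} (hδ : ∀ v, δ (T.u v) = v) (r : Λ)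
    (h : ∀ M x, it T M x = r → ∃ w : ℕ → ℕ, x = ∑ v ∈ range (m * (p + 1) + 1), w v • T.u v) :
    QS T m r := by
  obtain ⟨k, hk⟩ : ∃ k : ℕ, δ r < k := ⟨(δ r).toNat + 1, by omega⟩
  obtain ⟨x, hx⟩ := it_surj T (k * p) r
  obtain ⟨w, rfl⟩ := h _ x hx
  have hq : ∀ j, δ (T.q (j + 1) - T.q j) = p + 1 := fun j => by
    rw [map_sub, ← tb.uq, ← tb.uq, hδ, hδ]
    push_cast
    ring
  have h1 : ∀ v, δ (it T (k * p) (T.u v)) = 
      v + if v % (p + 1) = 0 then (0 : ℤ) else k * (p + 1) := by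
    intro v
    have h2 := hδ v
    unfold Td.u at h2 ⊢
    split_ifs at h2 ⊢ with hv
    · rw [it_q, h2, add_zero]
    · rw [it_y, y_per, map_add, h2, map_nsmul, hq, nsmul_eq_mul]
  have h2 : ∀ v ∈ range (m * (p + 1) + 1), v % (p + 1) ≠ 0 → w v = 0 := by
    intro v hv h3
    by_contra h4
    have h5 : δ (w v • it T (k * p) (T.u v)) ≤ δ r := by
      rw [← hx, map_sum, map_sum]
      simp only [map_nsmul]
      refine Finset.single_le_sum (f := fun v => w v • δ (it T (k * p) (T.u v)))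
        (fun u _ => nsmul_nonneg ?_ _) hv
      rw [h1]
      split_ifs <;> positivity
    rw [map_nsmul, h1, if_neg h3, nsmul_eq_mul] at h5
    have h6 : (1 : ℤ) ≤ w v := by exact_mod_cast Nat.one_le_iff_ne_zero.mpr h4
    have h7 : (k : ℤ) ≤ v + k * (p + 1) := by
      have : (0 : ℤ) ≤ k * p := by positivity
      have : (0 : ℤ) ≤ v := by positivity
      linarith
    have h8 : (0 : ℤ) ≤ k := by positivity
    nlinarith
  rw [← hx, map_sum]
  refine Finset.sum_induction _ (QS T m) QS.add ⟨fun _ => 0, by simp⟩ fun v hv => ?_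
  by_cases h3 : v % (p + 1) = 0
  · rw [map_nsmul, Td.u, if_pos h3, it_q]
    refine QS.single T ?_ _
    exact Nat.div_le_of_le_mul (by rw [mul_comm]; exact Nat.lt_succ_iff.mp (mem_range.mp hv))
  · rw [h2 v hv h3, zero_smul, map_zero]
    exact ⟨fun _ => 0, by simp⟩

/-- the attractor coefficient is the coefficient in any chamber close to the attractor point -/
theorem att_eq (c : Core Q) {s : Finset Λ} (hs : Seed δ s) {g : (NS Q δ)ˣ} (hg : AT s g)
    (f : NS Q δ) (r : Λ) (θ : ℕ → Λ →+ ℝ)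
    (h : ∀ e ∈ s, Tendsto (fun M => θ M e) atTop (𝓝 (Q.Av r e))) :
    ∃ M, att g f r = (ex g (θ M) f).co r := by
  obtain ⟨m0, hm⟩ := f.lf.bdd
  have G := c.grp δ
  have hfin := (c.geo.level δ s s.finite_toSet hs).2 (δ r - m0)
  have h1 : ∀ n ∈ AddSubmonoid.closure (s : Set Λ),
      Tendsto (fun M => θ M n) atTop (𝓝 (Q.Av r n)) := by
    intro n hn
    induction hn using AddSubmonoid.closure_induction with
    | mem e he => exact h e he
    | zero => simp
    | add a b _ _ ha hb => simpa only [map_add] using ha.add hb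
  have h2 : ∀ᶠ M in atTop, ∀ n ∈ {x | x ∈ AddSubmonoid.closure (s : Set Λ) ∧ δ x ≤ δ r - m0},
      ((Cut.lex (Cut.of (Q.Av r)) (Cut.of (θ M))).N n ↔ (Cut.of (θ M)).N n) := by
    refine (Filter.eventually_all_finite hfin).mpr fun n hn => ?_
    have h3 := h1 n hn.1
    simp only [Cut.lex_N, Cut.of_N, Cut.of_P]
    rcases lt_trichotomy (Q.Av r n) 0 with h4 | h4 | h4
    · filter_upwards [h3.eventually (gt_mem_nhds h4)] with M hM
      exact ⟨fun _ => hM, fun _ => Or.inl h4⟩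
    · exact Eventually.of_forall fun M => by simp [h4]
    · filter_upwards [h3.eventually (lt_mem_nhds h4)] with M hM
      exact ⟨fun h5 => h5.elim (fun h6 => absurd h6 (not_lt.mpr h4.le)) fun h6 => h6.2,
        fun h5 => absurd h5 (not_lt.mpr hM.le)⟩
  obtain ⟨M, hM⟩ := h2.exists
  refine ⟨M, ?_⟩
  have hlow : Low δ (PS s) fun x => δ x ≤ δ r - m0 := by
    intro x _ y hy hxy
    rw [map_add] at hxy
    rcases hy.2 with h3 | h3
    · rw [h3, map_zero] at hxy; omega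
    · omega
  have h3 := G.lo_congr (PS s) _ hlow _ _ (fun x hx hU => hM x ⟨hx.1, hU⟩) g hg.1 g hg.1
    fun _ _ => rfl
  have top : ∀ σ : Cut Λ, lo σ g ∈ GG Q δ ⊤ := fun σ => GG_mono le_top (G.fac _ σ g hg.1).1
  have h4 := G.cj_congr (δ r - m0) _ (top _) _ (top _) h3 f r fun x hx => by
    have := hm x hx
    omega
  rw [ex, ← h4, (G.lex _ _ g (GG_mono le_top hg.1)).1, cj_mul, (c.dl δ).trace]
  · rfl
  · have h5 := (G.fac _ (Cut.of (θ M)) _ (G.fac _ (Cut.of (Q.Av r)) g hg.1).2.1).1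
    refine h5.2.mono fun x hx => ?_
    have h6 := hx.1.1.2
    simp only [SetLike.mem_coe, Cut.mem_Zer, Cut.of_N, Cut.of_P, QD.Av_apply, not_lt] at h6
    exact_mod_cast le_antisymm h6.2 h6.1

theorem att_qs (T : Td Q p) (c : Core Q) (hA : S_AT Q) (tb : T.S_TB) (tau : T.S_TAU) {m : ℕ}
    (hs : Seed δ (T.sd m)) {g : (NS Q δ)ˣ} (hg : AT (T.sd m) g) (xs : List K) (r : Λ)
    (hr : QS T m r) (hd : ∀ j < m, Q.ω (T.y j 1 - T.q j) r ≤ 0) :
    att g (T.F δ m xs) r = (T.F δ m xs).co r := by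
  have hq : ∀ j, Q.ω (T.q j) r = 0 := fun j => hr.map (Q.ω (T.q j)) 0 fun i => T.qq j i
  have hy : ∀ j b, Q.ω (T.y j b) r = Q.ω (T.y j 1) r := fun j b =>
    hr.map _ _ fun i => by rw [T.yq, T.yq]
  set η : ℕ → ℝ := fun j => -(Q.ω (T.y j 1) r : ℝ) with hη
  have hη0 : ∀ j < m, 0 ≤ η j := fun j hj => by
    have h := hd j hj
    rw [map_sub, AddMonoidHom.sub_apply, hq, sub_zero] at h
    simp only [hη, Left.nonneg_neg_iff]
    exact_mod_cast h
  set t : ℕ → ℝ := fun M => 1 / ((M : ℝ) + 1) with ht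
  have ht0 : ∀ M, 0 < t M := fun M => by simp only [ht]; positivity
  have ht1 : ∀ M : ℕ, ((M : ℝ) + 1) * t M = 1 := fun M => by simp only [ht]; field_simp
  have htl : Tendsto t atTop (𝓝 0) := tendsto_one_div_add_atTop_nhds_zero_nat
  choose θ h1 h2 using fun M => theta_ex T (fun j => (η j + t M) * t M) (M + 1)
  have l0 : ∀ j, Tendsto (fun M => (η j + t M) * t M) atTop (𝓝 0) := fun j => by
    simpa using (htl.const_add (η j)).mul htl
  have l1 : ∀ j, Tendsto (fun M => θ M (T.q j)) atTop (𝓝 (Q.Av r (T.q j))) := fun j => by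
    simp only [h1, QD.Av_apply, hq]
    simpa using (tendsto_finsetSum (range j) fun i _ => l0 i).const_mul (p : ℝ)
  have l2 : ∀ j b, 1 ≤ b → Tendsto (fun M => θ M (T.y j b)) atTop (𝓝 (Q.Av r (T.y j b))) := by
    intro j b hb
    have h3 := ((l1 j).add ((l0 j).const_mul ((b : ℝ) - 1 / 2))).sub (htl.const_add (η j))
    have h4 : Q.Av r (T.q j) + ((b : ℝ) - 1 / 2) * 0 - (η j + 0) = Q.Av r (T.y j b) := by
      simp [hq, hy j b, hη]
    rw [h4] at h3
    refine h3.congr fun M => ?_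
    rw [h2 M j b hb]
    push_cast
    linear_combination (η j + t M) * ht1 M
  obtain ⟨M, hM⟩ := att_eq c hs hg (T.F δ m xs) r θ fun e he => by
    have hp := T.hp
    obtain ⟨j, _, rfl | rfl | ⟨b, hb, _, rfl⟩⟩ := (tb.mem m e).mp he
    · simpa only [map_sub] using (l2 j 1 le_rfl).sub (l1 j)
    · simpa only [map_sub] using (l1 (j + 1)).sub (l2 j p hp)
    · simpa only [map_sub] using (l2 j (b + 1) (by omega)).sub (l2 j b hb)
  have h3 : it T (M + 1) r = r := hr.map _ (AddMonoidHom.id Λ) fun j => it_q T _ j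
  rw [hM, ← chain' T hA tb tau hs hg xs (M + 1) _
    (fun j hj => mul_pos (add_pos_of_nonneg_of_pos (hη0 j hj) (ht0 M)) (ht0 M)) (θ M) (h1 M)
    (h2 M) r, h3]

end MainA

open MainA in
theorem t_main : T_MAIN := by
  intro Λ K _ _ Q p T c hA bl ip f1 tb tau m δ' xs L0 L hL0 hL hx hneg hF
  obtain ⟨δ, hδ⟩ := tb.lift ℤ fun v => (v : ℤ)
  have hs : Seed δ (T.sd m) := by
    intro e he
    classical
    obtain ⟨v, _, rfl⟩ := Finset.mem_image.mp he
    rw [map_sub, hδ, hδ]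
    omega
  obtain ⟨g, hg⟩ := hA.ex δ _ hs
  have htr : ∀ r, (T.F δ m xs).co r = (T.F δ' m xs).co r :=
    (ip.map δ' δ (AddEquiv.refl Λ) (fun _ _ => rfl) ℕ ℕ _ _ T.u T.u (adjP p) (adjP p) id
      (Set.injOn_id _) (fun w => by simp) (fun _ _ _ _ => Iff.rfl) fun _ _ => rfl).2 xs
  simp only [← htr] at hF ⊢
  have h0 : ∀ r, att g (T.F δ m xs) r ∈ L0 := fun r => ex_pos T c f1 tb hδ hs hg hL0 _ xs hx r
  have ha : ∀ r, att g (T.F δ m xs) r ≠ 0 → QS T m r := by
    intro r hr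
    refine qs_of T tb hδ r fun M x hM => ?_
    obtain ⟨θ, h1, h2⟩ := theta_ex T (fun _ => 1) M
    have h3 := chain' T hA tb tau hs hg xs M _ (fun _ _ => one_pos) θ h1 h2 x
    have h4 : (T.F δ m xs).co x ≠ 0 := fun h5 => by
      have h6 := bl δ _ g hs hg L0 hL0 _ h0 θ r
      rw [← hM, h3, h5, zero_sub, hM] at h6
      exact hr (hneg _ (h0 r) h6)
    obtain ⟨w, _, hw⟩ := ip.supp δ ℕ _ _ _ xs x h4
    exact ⟨w, hw⟩
  have hb : ∀ r, att g (T.F δ m xs) r ∈ L := by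
    intro r
    by_cases hr : att g (T.F δ m xs) r = 0
    · rw [hr]; exact L.zero_mem
    have h1 := ha r hr
    obtain ⟨k, h2, h3⟩ := (tau m δ g xs hs hg).1 r
    have h4 := ha _ (h2 ▸ hr)
    obtain ⟨Y, hY1, hY2⟩ := T.lift ℤ (fun _ => 0) fun _ _ => 1
    have h5 := h4.map (Y.comp T.Φ.toAddMonoidHom) 0 fun j => by
      simp [T.Φq, hY1]
    have h6 : Y r = 0 := h1.map Y 0 hY1
    have h7 : ∑ j ∈ range m, (k j : ℤ) = 0 := by
      simpa [map_sum, h6, hY1, hY2 _ 1 le_rfl T.hp] using h5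
    rw [att_qs T c hA tb tau hs hg xs r h1 (h3 fun j hj => ?_)]
    · obtain ⟨μ, rfl⟩ := h1
      exact hF μ
    · exact_mod_cast (Finset.sum_eq_zero_iff_of_nonneg fun i _ => by positivity).mp h7 j
        (mem_range.mpr hj)
  intro r
  have h1 := bl δ _ g hs hg L hL _ hb 0 r
  rw [ex_face hA hs hg 0 fun _ _ => le_rfl] at h1
  simpa using L.add_mem h1 (hb r)

end Pool.Agent.P.MP_389f6f_co.Qt
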