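import Pool.Agent.P.MP_389f6f_co.QMiA

/-! Mutation invariance of the scattering diagram. -/

set_option autoImplicit false

namespace Pool.Agent.P.MP_389f6f_co.Qt
open Finset

namespace MiA

variable {Λ K : Type} [AddCommGroup Λ] [CommRing K] {Q : QD Λ K} {δ δ' : Λ →+ ℤ}

theorem low_d {P : AddSubmonoid Λ} {d : Λ →+ ℤ} (hP : P ≤ Pz d) (c : ℤ) :
    Low δ P fun x => d x < c := by
  intro x _ y hy h
  have := AtA.Pz_nonneg (hP hy.1)
  rw [map_add] at h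
  omega

theorem bd_d {P : AddSubmonoid Λ} {d : Λ →+ ℤ} (hP : P ≤ Pz d) (c : ℤ) (n : Λ) (h : d n ≤ c) :
    Bd δ P (fun x => d x < c) n := by
  rintro x _ y hy rfl h0
  have : 1 ≤ d y := (hP hy.1).resolve_left h0
  rw [map_add] at h
  omega

/-- one step of the support induction -/
theorem step (C : Core Q) {Pd P : AddSubmonoid Λ} {d : Λ →+ ℤ} (hP : Pd ≤ Pz d)
    {U : (NS Q δ)ˣ} (hU : U ∈ GG Q δ Pd) {c : ℤ} {n : Λ} (hn : d n ≤ c)
    (ih : ∀ x, d x < c → (U : NS Q δ).co x ≠ 0 → x ∈ P) {t : Finset Λ} (ht : Seed δ t)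
    (htP : ∀ e ∈ t, e ∈ P)
    (h : (dl δ (mid (Cut.of (Q.Av n)) U)).co n = ∑ e ∈ t, (dl δ (FF Q δ e)).co n)
    (h0 : (U : NS Q δ).co n ≠ 0) : n ∈ P := by
  classical
  by_contra hc
  have hn0 : n ≠ 0 := fun e => hc (e ▸ zero_mem _)
  have h1 : 1 ≤ d n := (hP (hU.2 n h0).1).resolve_left hn0
  have h2 : 1 ≤ δ n := (hU.2 n h0).2.resolve_left hn0
  have hnc : ¬d n < c := fun h' => hc (ih n h' h0)
  set V0 : NS Q δ := NS.mk Q (fun x => if d x < c then (U : NS Q δ).co x else 0)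
    ((U : NS Q δ).lf.of_sup fun x hx h' => hx (by simp [h'])) with hV0
  have hVs : ∀ x, V0.co x ≠ 0 → d x < c ∧ (U : NS Q δ).co x ≠ 0 := fun x hx => by
    rw [hV0, NS.mk_co] at hx
    by_cases h' : d x < c
    · exact ⟨h', by simpa [h'] using hx⟩
    · exact absurd (if_neg h') hx
  obtain ⟨V, hV, hVe⟩ := (C.grp δ).unit (Pd ⊓ P) V0
    (by rw [hV0, NS.mk_co, if_pos (by rw [map_zero]; omega), hU.1])
    fun x hx => ⟨⟨(hU.2 x (hVs x hx).2).1, ih x (hVs x hx).1 (hVs x hx).2⟩,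
      (hU.2 x (hVs x hx).2).2⟩
  have hV1 : V ∈ GG Q δ Pd := GG_mono inf_le_left hV
  have hV2 : V ∈ GG Q δ P := GG_mono inf_le_right hV
  have hE : Eqv (fun x => d x < c) (U : NS Q δ) V := fun x hx => by
    rw [hVe, hV0, NS.mk_co, if_pos hx]
  have k1 := (C.dl δ).top Pd _ (low_d hP c) δ n (bd_d hP c n hn) _
    (AtA.mid_mem C (Cut.of (Q.Av n)) hU) _ (AtA.mid_mem C (Cut.of (Q.Av n)) hV1)
    ((C.grp δ).mid_congr Pd _ (low_d hP c) _ _ (fun _ _ _ => ⟨Iff.rfl, Iff.rfl⟩) U hU V hV1 hE)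
  rw [(C.grp δ).mid_top Pd _ (low_d hP c) _ n (bd_d hP c n hn) (by simp [Q.skew])
    (by simp [Q.skew]) U hU V hV1 hE] at k1
  have z : ∀ u ∈ GG Q δ P, (dl δ u).co n = 0 := fun u hu => by
    by_contra h'
    exact hc ((C.dl δ).sup P δ u hu n h').1.1
  have z2 : (V : NS Q δ).co n = 0 := by rw [hVe, hV0, NS.mk_co, if_neg hnc]
  rw [h, z _ (AtA.mid_mem C _ hV2), z2, sub_zero, sub_zero,
    sum_eq_zero fun e he => z _ (AtA.FF_mem C (ht e he) (htP e he))] at k1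
  exact h0 ((C.dl δ).cancel _ _ (by omega) k1.symm)

open Classical in
/-- the two factorisations of the diagram along `k` -/
structure Split (s : Finset Λ) (k : Λ) (g Um Up : (NS Q δ)ˣ) : Prop where
  gm : g = FF Q δ k * Um
  gp : g = Up * FF Q δ k
  sm : Um ∈ GG Q δ (PP s k (Q.ω k))
  sp : Up ∈ GG Q δ (PP s k (-Q.ω k))
  dm : ∀ (φ : Λ →+ ℤ) (n : Λ), Q.ω k n ≤ 0 →
    (dl φ (mid (Cut.of (Q.Av n)) Um)).co n = ∑ e ∈ s.erase k, (dl φ (FF Q δ e)).co n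
  dp : ∀ (φ : Λ →+ ℤ) (n : Λ), 0 ≤ Q.ω k n →
    (dl φ (mid (Cut.of (Q.Av n)) Up)).co n = ∑ e ∈ s.erase k, (dl φ (FF Q δ e)).co n

theorem split (C : Core Q) (A : S_AT Q) {s : Finset Λ} {k : Λ} (hs : Seed δ s) (hk : k ∈ s)
    {d : Λ →+ ℤ} (dk : d k = 0) (de : ∀ e ∈ s, e ≠ k → 1 ≤ d e) {g : (NS Q δ)ˣ} (hg : AT s g) :
    ∃ Um Up, Split s k g Um Up := by
  classical
  have hk1 := hs k hk
  set ψ : Λ →+ ℝ := (Int.castAddHom ℝ).comp d with hψ
  have ψe : ∀ x, ψ x = (d x : ℝ) := fun _ => rfl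
  obtain ⟨f1, f2⟩ := A.face δ s hs g hg ψ fun e he => by
    rw [ψe]
    by_cases h : e = k
    · simp [h, dk]
    · have := de e he h
      exact_mod_cast (by omega : 0 ≤ d e)
  have fe : (s.filter fun e => ψ e = 0) = {k} := by
    ext e
    rw [mem_filter, mem_singleton, ψe]
    constructor
    · rintro ⟨h1, h2⟩
      by_contra h
      have := de e h1 h
      have h3 : d e = 0 := by exact_mod_cast h2
      omega
    · rintro rfl
      exact ⟨hk, by simp [dk]⟩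
  have f3 : mid (Cut.of ψ) g = FF Q δ k :=
    A.uniq δ {k} _ _ (by convert f2 using 1; convert fe.symm) (A.single δ k hk1)
  obtain ⟨-, -, f4, f5⟩ := (C.grp δ).fac _ (Cut.of ψ) g hg.1
  rw [f1, f3, one_mul] at f5
  set Um := hi (Cut.of ψ) g
  have hm : Um ∈ GG Q δ (Pz d) :=
    GG_mono (P := PS s ⊓ (Cut.of ψ).Pos) (fun x hx => hx.2.imp id fun h => by
      rw [Cut.of_P, ψe] at h
      have : 0 < d x := by exact_mod_cast h
      omega) f4
  have hF : FF Q δ k ∈ GG Q δ (AddSubmonoid.multiples k) :=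
    AtA.FF_mem C hk1 (AddSubmonoid.mem_multiples _)
  have hp : FF Q δ k * Um * (FF Q δ k)⁻¹ ∈ GG Q δ (Pz d) :=
    (C.grp δ).conj _ _ (fun x hx h0 y hy => by
      obtain ⟨j, hj⟩ := hy
      have hj' : j • k = y := hj
      have := hx.resolve_left h0
      exact Or.inr (by rw [← hj']; simpa [dk] using this)) _ hF _ hm
  set Up := FF Q δ k * Um * (FF Q δ k)⁻¹ with hUp
  have f6 : g = Up * FF Q δ k := by rw [hUp, inv_mul_cancel_right]; exact f5
  have dm : ∀ (φ : Λ →+ ℤ) (n : Λ), Q.ω k n ≤ 0 →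
      (dl φ (mid (Cut.of (Q.Av n)) Um)).co n = ∑ e ∈ s.erase k, (dl φ (FF Q δ e)).co n := by
    intro φ n h
    have := hg.2 φ n
    rw [f5, dl_left C hk1 h hm, ← add_sum_erase s _ hk] at this
    exact add_left_cancel this
  have dp : ∀ (φ : Λ →+ ℤ) (n : Λ), 0 ≤ Q.ω k n →
      (dl φ (mid (Cut.of (Q.Av n)) Up)).co n = ∑ e ∈ s.erase k, (dl φ (FF Q δ e)).co n := by
    intro φ n h
    have := hg.2 φ n
    rw [f6, dl_right C hk1 h hp, ← add_sum_erase s _ hk] at this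
    exact add_left_cancel this
  have c1 : (Um : NS Q δ) = cj (FF Q δ k) Up := by simp [cj, hUp, mul_assoc]
  have c2 : (Up : NS Q δ) = cj (FF Q δ k)⁻¹ Um := by simp [cj, hUp, mul_assoc]
  have ht : Seed δ (s.erase k) := fun e he => hs e (mem_of_mem_erase he)
  have htP : ∀ w, ∀ e ∈ s.erase k, e ∈ PP s k w := fun w e he =>
    mem_PP w (mem_of_mem_erase he) (ne_of_mem_erase he)
  have key : ∀ c : ℕ, ∀ n, d n < c → ((Um : NS Q δ).co n ≠ 0 → n ∈ PP s k (Q.ω k)) ∧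
      ((Up : NS Q δ).co n ≠ 0 → n ∈ PP s k (-Q.ω k)) := by
    intro c
    induction c with
    | zero =>
      intro n hn
      exact ⟨fun h => absurd (AtA.Pz_nonneg (hm.2 n h).1) (by omega),
        fun h => absurd (AtA.Pz_nonneg (hp.2 n h).1) (by omega)⟩
    | succ c ih =>
      have a1 : ∀ n, d n ≤ c → Q.ω k n ≤ 0 → (Um : NS Q δ).co n ≠ 0 → n ∈ PP s k (Q.ω k) :=
        fun n hn h => step C le_rfl hm hn (fun x hx => (ih x hx).1) ht (htP _) (dm δ n h)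
      have a2 : ∀ n, d n ≤ c → 0 ≤ Q.ω k n → (Up : NS Q δ).co n ≠ 0 → n ∈ PP s k (-Q.ω k) :=
        fun n hn h => step C le_rfl hp hn (fun x hx => (ih x hx).2) ht (htP _) (dp δ n h)
      intro n hn
      have hn' : d n ≤ c := by push_cast at hn; omega
      have e1 : ∀ j : ℕ, d (n - j • k) = d n := fun j => by simp [dk]
      have e2 : ∀ j : ℕ, Q.ω k (n - j • k) = Q.ω k n := fun j => by simp [Q.skew]
      have e3 : ∀ j : ℕ, n - j • k + (j : ℤ) • k = n := fun j => by simp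
      rcases le_total (Q.ω k n) 0 with h | h
      · refine ⟨a1 n hn' h, fun h0 => ?_⟩
        obtain ⟨m, hm'⟩ : ∃ m : ℕ, Q.ω k n = -m := ⟨(-Q.ω k n).toNat, by omega⟩
        rw [c2, ((C.ser δ).cjF k hk1 _ n m).2 hm'] at h0
        obtain ⟨j, hj, h1⟩ := exists_ne_zero_of_sum_ne_zero h0
        have hj' : j ≤ m := by simpa [Nat.lt_succ_iff] using hj
        have h2 := a1 (n - j • k) (by rw [e1]; exact hn') (by rw [e2]; exact h)
          (right_ne_zero_of_mul h1)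
        rw [← e3 j]
        exact interval (w := -Q.ω k) (by simp [Q.skew]) (fun x => by simp) h2 (by omega)
          (by rw [AddMonoidHom.neg_apply, e2]; omega)
      · refine ⟨fun h0 => ?_, a2 n hn' h⟩
        obtain ⟨m, hm'⟩ : ∃ m : ℕ, Q.ω k n = m := ⟨(Q.ω k n).toNat, by omega⟩
        rw [c1, ((C.ser δ).cjF k hk1 _ n m).1 hm'] at h0
        obtain ⟨j, hj, h1⟩ := exists_ne_zero_of_sum_ne_zero h0
        have hj' : j ≤ m := by simpa [Nat.lt_succ_iff] using hj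
        have h2 := a2 (n - j • k) (by rw [e1]; exact hn') (by rw [e2]; exact h)
          (right_ne_zero_of_mul h1)
        rw [← e3 j]
        exact interval (w := Q.ω k) (Q.skew k) (fun x => by simp) h2 (by omega)
          (by rw [e2]; omega)
  have key' := fun n => key ((d n).toNat + 1) n (by push_cast; omega)
  exact ⟨Um, Up, f5, f6, ⟨hm.1, fun x hx => ⟨(key' x).1 hx, (hm.2 x hx).2⟩⟩,
    ⟨hp.1, fun x hx => ⟨(key' x).2 hx, (hp.2 x hx).2⟩⟩, dm, dp⟩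

theorem PPm_le {s s' : Finset Λ} {k : Λ}
    (hv : ∀ v, v ∈ s' ↔ v = -k ∨ ∃ e ∈ s, e ≠ k ∧ v = Q.mu k e) :
    ∀ x ∈ PP s k (Q.ω k), AddEquiv.refl Λ x ∈ PS s' := by
  refine AddSubmonoid.closure_le.2 ?_
  rintro x ⟨e, he, hk, j, j0, j1, rfl⟩
  have e1 : e + j • k = Q.mu k e + (max (Q.ω k e) 0 - j).toNat • -k := by
    rw [← natCast_zsmul, Int.toNat_of_nonneg (by omega), QD.mu]
    module
  rw [e1]
  exact add_mem (AddSubmonoid.subset_closure ((hv _).2 (Or.inr ⟨e, he, hk, rfl⟩)))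
    (nsmul_mem (AddSubmonoid.subset_closure ((hv _).2 (Or.inl rfl))) _)

theorem PPp_le {s s' : Finset Λ} {k : Λ}
    (hv : ∀ v, v ∈ s' ↔ v = -k ∨ ∃ e ∈ s, e ≠ k ∧ v = Q.mu k e) :
    ∀ x ∈ PP s k (-Q.ω k), Sh Q k x ∈ PS s' := by
  intro x hx
  induction hx using AddSubmonoid.closure_induction with
  | mem y hy =>
    obtain ⟨e, he, hk, j, j0, j1, rfl⟩ := hy
    rw [AddMonoidHom.neg_apply] at j1
    have e0 : Q.ω k (e + j • k) = Q.ω k e := by simp [Q.skew]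
    have e1 : Sh Q k (e + j • k) =
        Q.mu k e + (max (Q.ω k e) 0 - Q.ω k e - j).toNat • -k := by
      rw [← natCast_zsmul, Int.toNat_of_nonneg (by omega), QD.mu, Sh_apply, e0]
      module
    rw [e1]
    exact add_mem (AddSubmonoid.subset_closure ((hv _).2 (Or.inr ⟨e, he, hk, rfl⟩)))
      (nsmul_mem (AddSubmonoid.subset_closure ((hv _).2 (Or.inl rfl))) _)
  | zero => rw [map_zero]; exact zero_mem _
  | add y z _ _ hy hz => rw [map_add]; exact add_mem hy hz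

theorem FF_wrong (C : Core Q) {e k n : Λ} (he : 1 ≤ δ e) (φ : Λ →+ ℤ)
    (h : (0 < Q.ω k e ∧ Q.ω k n ≤ 0) ∨ (Q.ω k e < 0 ∧ 0 ≤ Q.ω k n)) :
    (dl φ (FF Q δ e)).co n = 0 := by
  by_contra hc
  obtain ⟨j, hj, rfl⟩ := AtA.FF_sup C he φ hc
  have hj' : (0 : ℤ) < j := by omega
  rw [map_nsmul, nsmul_eq_mul] at h
  rcases h with ⟨h1, h2⟩ | ⟨h1, h2⟩
  · exact absurd h2 (not_le.2 (mul_pos hj' h1))
  · exact absurd h2 (not_le.2 (mul_neg_of_pos_of_neg hj' h1))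

theorem pos_of_neg (σ : Cut Λ) {k : Λ} (h : σ.N k) : σ.P (-k) := by
  by_contra hc
  have := σ.addN k (-k) h hc
  rw [add_neg_cancel] at this
  exact σ.N0 this

theorem main (C : Core Q) (A : S_AT Q) {s s' : Finset Λ} {k : Λ} (hs : Seed δ s)
    (hs' : Seed δ' s') (hk : k ∈ s)
    (hv : ∀ v, v ∈ s' ↔ v = -k ∨ ∃ e ∈ s, e ≠ k ∧ v = Q.mu k e)
    {g : (NS Q δ)ˣ} {g' : (NS Q δ')ˣ} (hg : AT s g) (hg' : AT s' g')
    {f : NS Q δ} {f' : NS Q δ'} (hf : {x | f.co x ≠ 0}.Finite)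
    (hff : (cj (FF Q δ k) f).co = f'.co) :
    (∀ r, att g' f' (Q.mu k r) = att g f r) ∧
      ∀ θ : Λ →+ ℝ, θ k < 0 → (ex g' θ f').co = (ex g θ f).co := by
  classical
  have hk1 := hs k hk
  have hk2 : 1 ≤ δ' (-k) := hs' _ ((hv _).2 (Or.inl rfl))
  have hmu : ∀ e ∈ s, e ≠ k → 1 ≤ δ' (Q.mu k e) := fun e he h =>
    hs' _ ((hv _).2 (Or.inr ⟨e, he, h, rfl⟩))
  set d : Λ →+ ℤ := δ' (-k) • δ + δ k • δ' with hd
  have dd : ∀ x, d x = δ' (-k) * δ x + δ k * δ' x := fun x => by simp [hd]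
  have dk : d k = 0 := by rw [dd, map_neg]; ring
  have dmu : ∀ e, d (Q.mu k e) = d e := fun e => by simp [QD.mu, dk]
  have de : ∀ e ∈ s, e ≠ k → 1 ≤ d e := fun e he h => by
    have h1 := hmu e he h
    have h2 : 1 ≤ δ (Q.mu k e) := by
      have := hs e he
      rw [QD.mu, map_add, map_zsmul, smul_eq_mul]
      have : 0 ≤ max (Q.ω k e) 0 * δ k := mul_nonneg (le_max_right _ _) (by omega)
      omega
    rw [← dmu, dd]
    nlinarith
  obtain ⟨Um, Up, S⟩ := split C A hs hk dk de hg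
  obtain ⟨l1, l2⟩ := C.geo.level δ' (s' : Set Λ) s'.finite_toSet hs'
  have m1 : ∀ x ∈ PP s k (Q.ω k), AddEquiv.refl Λ x ∈ Pz δ' := fun x hx => l1 _ (PPm_le hv x hx)
  have m2 : ∀ c : ℤ, {x | x ∈ PP s k (Q.ω k) ∧ δ' (AddEquiv.refl Λ x) ≤ c}.Finite := fun c =>
    (l2 c).subset fun x hx => ⟨PPm_le hv x hx.1, hx.2⟩
  have p1 : ∀ x ∈ PP s k (-Q.ω k), Sh Q k x ∈ Pz δ' := fun x hx => l1 _ (PPp_le hv x hx)
  have p2 : ∀ c : ℤ, {x | x ∈ PP s k (-Q.ω k) ∧ δ' (Sh Q k x) ≤ c}.Finite := fun c =>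
    ((l2 c).preimage (Sh Q k).injective.injOn).subset fun x hx => ⟨PPp_le hv x hx.1, hx.2⟩
  obtain ⟨U', hU', tU⟩ := C.tr.ex δ δ' _ refl_iso _ m1 m2 Um S.sm
  obtain ⟨h, hh, th⟩ := C.tr.ex δ δ' _ (Sh_iso k) _ p1 p2 Up S.sp
  have hU1 : U' ∈ GG Q δ' (PS s') := GG_mono (by rintro _ ⟨x, hx, rfl⟩; exact PPm_le hv x hx) hU'
  have c1 : cj (FF Q δ k) (Up : NS Q δ) = Um := by
    have : (FF Q δ k)⁻¹ * Up * FF Q δ k = Um := by
      rw [mul_assoc, ← S.gp, S.gm, inv_mul_cancel_left]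
    rw [← this]; simp [cj]
  have r1 : cj (FF Q δ' (-k)) (U' : NS Q δ') = h :=
    rel C hk1 hk2 (by rw [c1]; exact funext fun x => (tU x).symm) th
  have r2 : U' * FF Q δ' (-k) = FF Q δ' (-k) * h := Units.ext (by
    rw [Units.val_mul, Units.val_mul, ← r1]; simp [cj, mul_assoc])
  have hsum : ∀ a : Λ → K, ∑ e ∈ s', a e = a (-k) + ∑ e ∈ s.erase k, a (Q.mu k e) := by
    intro a
    have e1 : s' = insert (-k) ((s.erase k).image (Q.mu k)) := by
      ext v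
      rw [hv, mem_insert, mem_image]
      refine or_congr Iff.rfl ⟨?_, ?_⟩
      · rintro ⟨e, h1, h2, rfl⟩
        exact ⟨e, mem_erase.2 ⟨h2, h1⟩, rfl⟩
      · rintro ⟨e, h1, rfl⟩
        exact ⟨e, mem_of_mem_erase h1, ne_of_mem_erase h1, rfl⟩
    rw [e1, sum_insert, sum_image fun x _ y _ hxy => mu_inj k hxy]
    intro hc
    obtain ⟨e, h1, h2⟩ := mem_image.1 hc
    have := de e (mem_of_mem_erase h1) (ne_of_mem_erase h1)
    rw [← dmu, h2, map_neg, dk] at this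
    omega
  have hat : AT s' (U' * FF Q δ' (-k)) := by
    refine ⟨mul_mem hU1 (AtA.FF_mem C hk2
      (AddSubmonoid.subset_closure ((hv _).2 (Or.inl rfl)))), fun φ n' => ?_⟩
    rw [hsum]
    rcases le_total (Q.ω k n') 0 with w | w
    · rw [dl_right C hk2 (by simpa using w) hU1]
      congr 1
      have t1 := (C.tr.fac δ δ' _ refl_iso _ m1 m2 (Cut.of (Q.Av n')) (Cut.of (Q.Av n'))
        (fun _ => ⟨Iff.rfl, Iff.rfl⟩) Um S.sm U' tU).2.1
      have t2 := (C.tr.cj δ δ' _ refl_iso _ m1 m2 _ (AtA.mid_mem C _ S.sm) _ t1).2 φ n'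
      rw [AddEquiv.refl_apply] at t2
      rw [t2, S.dm _ n' w]
      refine sum_congr rfl fun e he => ?_
      have he1 := hs e (mem_of_mem_erase he)
      have he2 := hmu e (mem_of_mem_erase he) (ne_of_mem_erase he)
      rcases le_or_gt (Q.ω k e) 0 with w' | w'
      · rw [mu_neg w'] at he2 ⊢
        exact ((C.tr.wf δ δ' _ refl_iso false 0 e he1 he2).2 φ n').symm
      · rw [FF_wrong C he1 _ (Or.inl ⟨w', w⟩),
          FF_wrong C he2 _ (Or.inl ⟨by rwa [om_mu], w⟩)]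
    · rw [r2, dl_left C hk2 (by simpa using w) hh]
      congr 1
      obtain ⟨n, rfl⟩ := (Sh Q k).surjective n'
      rw [om_Sh] at w
      have t1 := (C.tr.fac δ δ' _ (Sh_iso k) _ p1 p2 (Cut.of (Q.Av n))
        (Cut.of (Q.Av (Sh Q k n))) (fun x => by simp [Sh_iso k x n]) Up S.sp h th).2.1
      rw [(C.tr.cj δ δ' _ (Sh_iso k) _ p1 p2 _ (AtA.mid_mem C _ S.sp) _ t1).2 φ n, S.dp _ n w]
      refine sum_congr rfl fun e he => ?_
      have he1 := hs e (mem_of_mem_erase he)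
      have he2 := hmu e (mem_of_mem_erase he) (ne_of_mem_erase he)
      rcases le_or_gt 0 (Q.ω k e) with w' | w'
      · rw [mu_pos w'] at he2 ⊢
        exact ((C.tr.wf δ δ' _ (Sh_iso k) false 0 e he1 he2).2 φ n).symm
      · rw [FF_wrong C he1 _ (Or.inr ⟨w', w⟩),
          FF_wrong C he2 _ (Or.inr ⟨by rwa [om_mu], by rwa [om_Sh]⟩)]
  obtain rfl := A.uniq δ' s' _ _ hat hg'
  have two : ∀ σ : Cut Λ, σ.N k →
      (cj (lo σ (U' * FF Q δ' (-k))) f').co = (cj (lo σ g) f).co := by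
    intro σ hσ
    rw [(right_pos C σ (AtA.FF_mem C hk2 (Or.inr (pos_of_neg σ hσ))) hU1).1, S.gm,
      (left_neg C σ (AtA.FF_mem C hk1 (Or.inr hσ)) S.sm).1, cj_mul]
    have t1 := (C.tr.fac δ δ' _ refl_iso _ m1 m2 σ σ
      (fun _ => ⟨Iff.rfl, Iff.rfl⟩) Um S.sm U' tU).1
    exact funext ((C.tr.cj δ δ' _ refl_iso _ m1 m2 _ (AtA.lo_mem C _ S.sm) _ t1).1 _ f'
      fun x => (congrFun hff x).symm)
  refine ⟨fun r => ?_, fun θ hθ => two _ hθ⟩
  rcases lt_trichotomy (Q.ω k r) 0 with w | w | w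
  · rw [mu_neg w.le]
    exact congrFun (two (Cut.of (Q.Av r)) (by simpa using w)) r
  · rw [mu_neg w.le]
    have lx : ∀ (δ : Λ →+ ℤ) (τ : Cut Λ) (P : AddSubmonoid Λ), ∀ g ∈ GG Q δ P, ∀ f : NS Q δ,
        att g f r = (cj (lo (Cut.lex (Cut.of (Q.Av r)) τ) g) f).co r := by
      intro δ τ P g hg f
      rw [((C.grp δ).lex _ τ g (GG_mono le_top hg)).1, cj_mul, (C.dl δ).trace r _ _
        (zer_sup (AtA.lo_mem C τ (parts C _ hg).2.1))]
      rfl
    rw [lx δ' (Cut.of (-(Int.castAddHom ℝ).comp δ)) _ _ hat.1,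
      lx δ (Cut.of (-(Int.castAddHom ℝ).comp δ)) _ _ hg.1]
    refine congrFun (two _ (Or.inr ⟨by simp [w], ?_⟩)) r
    have : (0 : ℝ) < δ k := by exact_mod_cast (by omega : 0 < δ k)
    simpa using this
  · rw [mu_pos w.le]
    set hf' : NS Q δ' := NS.mk Q (fun x => f.co ((Sh Q k).symm x))
      (LF.of_finite ((hf.preimage (Sh Q k).symm.injective.injOn).subset fun x hx => hx))
    have t0 : Tr (Sh Q k) f hf' := fun x => by simp [hf']
    have t1 := (C.tr.fac δ δ' _ (Sh_iso k) _ p1 p2 (Cut.of (Q.Av r))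
      (Cut.of (Q.Av (Sh Q k r))) (fun x => by simp [Sh_iso k x r]) Up S.sp h th).1
    rw [att, att, ex, ex, r2, (left_neg C _ (AtA.FF_mem C hk2
      (Or.inr (by simpa [om_Sh] using w))) hh).1, cj_mul, rel C hk1 hk2 hff t0, S.gp,
      (right_pos C _ (AtA.FF_mem C hk1 (Or.inr (by simpa using w))) S.sp).1]
    exact (C.tr.cj δ δ' _ (Sh_iso k) _ p1 p2 _ (AtA.lo_mem C _ S.sp) _ t1).1 f hf' t0 r

end MiA

theorem t_mi : T_MI := fun _ _ _ _ _ C A _ _ _ _ _ hs hs' hk hv _ _ hg hg' _ _ hf _ hff =>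
  MiA.main C A hs hs' hk hv hg hg' hf hff

end Pool.Agent.P.MP_389f6f_co.Qt
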