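import Pool.Agent.P.MP_389f6f_co.QDefs

/-! The lattice of a power of a path, by generators and relations. -/

set_option autoImplicit false

namespace Pool.Agent.P.MP_389f6f_co.Qt

namespace ModelA

/-- generators -/
inductive W : Type
  | q (i : ℕ) : W
  | y (j : ℕ) (b : ℤ) : W
  | k : W

open FreeAbelianGroup in
/-- relations -/
def rel (p : ℕ) : AddSubgroup (FreeAbelianGroup W) :=
  AddSubgroup.closure (Set.range fun x : ℕ × ℤ =>
    of (W.y x.1 (x.2 + p)) - (of (W.y x.1 x.2) + of (W.q (x.1 + 1)) - of (W.q x.1)))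

/-- the lattice -/
abbrev La (p : ℕ) : Type := FreeAbelianGroup W ⧸ rel p

variable {p : ℕ} {A : Type} [AddCommGroup A]

/-- the class of a generator -/
def gen (p : ℕ) (w : W) : La p := QuotientAddGroup.mk' (rel p) (FreeAbelianGroup.of w)

/-- compatibility with the relations -/
def Ok (p : ℕ) (f : W → A) : Prop :=
  ∀ j b, f (W.y j (b + p)) = f (W.y j b) + f (W.q (j + 1)) - f (W.q j)

theorem ok_gen : Ok p (gen p) := fun j b => by
  simp only [gen]
  rw [← map_add, ← map_sub, ← sub_eq_zero, ← map_sub, QuotientAddGroup.mk'_apply,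
    QuotientAddGroup.eq_zero_iff]
  exact AddSubgroup.subset_closure ⟨(j, b), rfl⟩

/-- the universal property -/
def desc (f : W → A) (h : Ok p f) : La p →+ A :=
  QuotientAddGroup.lift (rel p) (FreeAbelianGroup.lift f) (by
    rw [rel, AddSubgroup.closure_le]
    rintro _ ⟨x, rfl⟩
    simp [h x.1 x.2])

@[simp] theorem desc_gen (f : W → A) (h : Ok p f) (w : W) : desc f h (gen p w) = f w :=
  FreeAbelianGroup.lift_apply_of f w

theorem hom_ext {f g : La p →+ A} (h : ∀ w, f (gen p w) = g (gen p w)) : f = g :=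
  QuotientAddGroup.addMonoidHom_ext (rel p) (FreeAbelianGroup.lift_ext _ _ h)

/-- half of the skew form -/
def H (p : ℕ) : W → W → ℤ
  | .y j b, .y j' b' =>
    ((if j = j' then 1 else 0) - if j' = j + 1 then 1 else 0) * ((b' - b) / p)
  | .y j _, .q i => (if i = j + 1 then 1 else 0) - if i = j then 1 else 0
  | .y _ _, .k => 1
  | .q _, .k => 1
  | _, _ => 0

/-- the skew form on generators -/
def M (p : ℕ) (a b : W) : ℤ := H p a b - H p b a

theorem ok_M (hp : 1 ≤ p) (a : W) : Ok p (M p a) := fun j b => by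
  have h0 : (p : ℤ) ≠ 0 := by omega
  cases a with
  | q i => simp [M, H]
  | k => simp [M, H]
  | y j' b' =>
    have e1 : (b + p - b') / (p : ℤ) = (b - b') / p + 1 := by
      rw [show b + p - b' = b - b' + 1 * p by ring, Int.add_mul_ediv_right _ _ h0]
    have e2 : (b' - (b + p)) / (p : ℤ) = (b' - b) / p - 1 := by
      rw [show b' - (b + p) = b' - b + (-1) * p by ring, Int.add_mul_ediv_right _ _ h0]
      rfl
    simp only [M, H, e1, e2]
    split_ifs <;> omega

/-- the skew form -/
def om (hp : 1 ≤ p) : La p →+ La p →+ ℤ :=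
  desc (fun a => desc (M p a) (ok_M hp a)) fun j b => hom_ext fun w => by
    have := ok_M hp w j b
    simp only [AddMonoidHom.sub_apply, AddMonoidHom.add_apply, desc_gen, M] at this ⊢
    omega

@[simp] theorem om_gen (hp : 1 ≤ p) (a b : W) : om hp (gen p a) (gen p b) = M p a b := by
  simp [om]

theorem om_skew (hp : 1 ≤ p) (x : La p) : om hp x x = 0 := by
  have h : om hp = -(om hp).flip := hom_ext fun a => hom_ext fun b => by simp [M]
  have h1 := DFunLike.congr_fun (DFunLike.congr_fun h x) x
  simp only [AddMonoidHom.neg_apply, AddMonoidHom.flip_apply] at h1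
  omega

/-- the shift on generators -/
def sh (n : ℤ) : W → W
  | .y j b => .y j (b + n)
  | w => w

/-- the shift -/
def shift (p : ℕ) (n : ℤ) : La p →+ La p :=
  desc (fun w => gen p (sh n w)) fun j b => by
    simp only [sh]
    rw [add_right_comm]
    exact ok_gen j (b + n)

@[simp] theorem shift_gen (n : ℤ) (w : W) : shift p n (gen p w) = gen p (sh n w) := by
  simp [shift]

theorem shift_comp (m n : ℤ) (h : n + m = 0) :
    (shift p m).comp (shift p n) = AddMonoidHom.id _ := hom_ext fun w => by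
  cases w <;> simp [sh, add_assoc, h]

/-- the shift automorphism -/
def Ph (p : ℕ) : La p ≃+ La p :=
  AddMonoidHom.toAddEquiv (shift p 1) (shift p (-1)) (shift_comp _ _ rfl) (shift_comp _ _ rfl)

theorem Ph_apply (x : La p) : Ph p x = shift p 1 x := rfl

theorem om_shift (hp : 1 ≤ p) (n : ℤ) (a b : La p) :
    om hp (shift p n a) (shift p n b) = om hp a b := by
  have h : ((om hp).compl₂ (shift p n)).comp (shift p n) = om hp :=
    hom_ext fun a => hom_ext fun b => by
      cases a <;> cases b <;> simp [sh, M, H]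
  exact DFunLike.congr_fun (DFunLike.congr_fun h a) b

theorem ediv_zero {n : ℤ} (h1 : 0 ≤ n) (h2 : n < p) : n / (p : ℤ) = 0 :=
  Int.ediv_eq_zero_of_lt h1 h2

theorem ediv_neg_one {n : ℤ} (h1 : -(p : ℤ) ≤ n) (h2 : n < 0) : n / (p : ℤ) = -1 := by
  have h0 : (p : ℤ) ≠ 0 := by omega
  rw [show n = n + p + (-1) * p by ring, Int.add_mul_ediv_right _ _ h0,
    ediv_zero (by omega) (by omega)]
  rfl

theorem exists_lift (hp : 1 ≤ p) (vq : ℕ → A) (vy : ℕ → ℕ → A) : ∃ φ : La p →+ A,
    (∀ i, φ (gen p (.q i)) = vq i) ∧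
      ∀ j (b : ℕ), 1 ≤ b → b ≤ p → φ (gen p (.y j b)) = vy j b := by
  have h0 : (p : ℤ) ≠ 0 := by omega
  refine ⟨desc (fun w => match w with
    | .q i => vq i
    | .y j b => vy j (((b - 1) % p).toNat + 1) + ((b - 1) / p) • (vq (j + 1) - vq j)
    | .k => 0) fun j b => ?_, fun i => by simp, fun j b h1 h2 => ?_⟩
  · simp only
    rw [show b + p - 1 = b - 1 + 1 * p by ring, Int.add_mul_ediv_right _ _ h0,
      Int.add_mul_emod_self_right, add_smul, one_smul]
    abel
  · rw [desc_gen]
    simp only
    rw [ediv_zero (by omega) (by omega), Int.emod_eq_of_lt (by omega) (by omega), zero_smul,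
      add_zero]
    congr 1
    omega

end ModelA

open ModelA in
theorem t_model : S_MODEL := by
  intro K _ t ι hι p hp
  refine ⟨La p, inferInstance, ⟨om hp, om_skew hp, t, ι, hι⟩, rfl, ⟨{
    q := fun i => gen p (.q i)
    y := fun j b => gen p (.y j b)
    κ := gen p .k
    Φ := Ph p
    hp := hp
    per := fun j b => ?_
    qq := fun i j => ?_
    yq := fun j b i => ?_
    yy0 := fun j b b' h1 h2 => ?_
    yy1 := fun j b b' h1 h2 => ?_
    yy1' := fun j b b' h1 h2 => ?_
    yy2 := fun j j' b b' h => ?_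
    qκ := fun i => ?_
    yκ := fun j b => ?_
    iso := om_shift hp 1
    Φq := fun i => ?_
    Φy := fun j b => ?_
    lift := fun A _ vq vy => exists_lift hp vq vy }⟩⟩
  · rw [Nat.cast_add]
    exact ok_gen j b
  · simp [M, H]
  · simp [M, H]
  · simp only [om_gen, M, H]
    rw [ediv_zero (by omega) (by omega), ediv_neg_one (by omega) (by omega)]
    simp
  · simp only [om_gen, M, H]
    rw [ediv_neg_one (n := b' - b) (by omega) (by omega)]
    split_ifs <;> omega
  · simp only [om_gen, M, H]
    rw [ediv_zero (n := b' - b) (by omega) (by omega)]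
    split_ifs <;> omega
  · simp only [om_gen, M, H]
    split_ifs <;> omega
  · simp [M, H]
  · simp [M, H]
  · simp [Ph_apply, sh]
  · simp [Ph_apply, sh]

end Pool.Agent.P.MP_389f6f_co.Qt
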