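import Pool.Agent.P.MP_389f6f_co.QDefs

/-! Series in one monomial and wall functions. -/

set_option autoImplicit false

namespace Pool.Agent.P.MP_389f6f_co.Qt
open Finset

namespace SerA

variable {Λ K : Type} [AddCommGroup Λ] [CommRing K] {Q : QD Λ K} {δ : Λ →+ ℤ} {n : Λ}

theorem inj (hn : 1 ≤ δ n) : Function.Injective fun k : ℕ => k • n := fun k l h => by
  have h1 := congrArg δ h
  simp only [map_nsmul, nsmul_eq_mul] at h1
  exact_mod_cast mul_right_cancel₀ (by omega : δ n ≠ 0) h1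

theorem ser_co (hn : 1 ≤ δ n) (p : PowerSeries K) (k : ℕ) :
    (ser n p : NS Q δ).co (k • n) = PowerSeries.coeff k p := by
  have h : 1 ≤ δ n ∧ ∃ l : ℕ, k • n = l • n := ⟨hn, k, rfl⟩
  exact (dif_pos h).trans (by rw [← inj hn h.2.choose_spec])

theorem ser_sup (n : Λ) (p : PowerSeries K) :
    Sup (fun x => ∃ k : ℕ, x = k • n) (ser n p : NS Q δ) := fun x hx => by
  by_contra h
  exact hx (dif_neg fun h' => h h'.2)

theorem ser_off (p : PowerSeries K) {x : Λ} (h : x ∉ Set.range fun k : ℕ => k • n) :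
    (ser n p : NS Q δ).co x = 0 := by
  by_contra h0
  obtain ⟨k, hk⟩ := ser_sup n p x h0
  exact h ⟨k, hk.symm⟩

theorem finsum_mult (hn : 1 ≤ δ n) (F : Λ → K)
    (h : ∀ x, x ∉ Set.range (fun k : ℕ => k • n) → F x = 0) :
    ∑ᶠ x, F x = ∑ᶠ k : ℕ, F (k • n) := by
  rw [← finsum_mem_range (inj hn), finsum_mem_def]
  refine finsum_congr fun x => ?_
  by_cases hx : x ∈ Set.range fun k : ℕ => k • n
  · rw [Set.indicator_of_mem hx]
  · rw [Set.indicator_of_notMem hx, h x hx]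

theorem ser_mul_co (hn : 1 ≤ δ n) (p : PowerSeries K) (f : NS Q δ) (r : Λ) :
    (ser n p * f).co r =
      ∑ᶠ k : ℕ, Q.tp (k * Q.ω n r) * PowerSeries.coeff k p * f.co (r - k • n) := by
  rw [NS.mul_co, finsum_mult hn _ fun x hx => by rw [ser_off p hx]; simp]
  refine finsum_congr fun k => ?_
  rw [ser_co hn, map_nsmul, AddMonoidHom.nsmul_apply, nsmul_eq_mul]

theorem mul_ser_co (hn : 1 ≤ δ n) (p : PowerSeries K) (f : NS Q δ) (r : Λ) :
    (f * ser n p).co r =
      ∑ᶠ k : ℕ, Q.tp (-(k * Q.ω n r)) * PowerSeries.coeff k p * f.co (r - k • n) := by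
  rw [NS.mul_co', finsum_mult hn _ fun x hx => by rw [ser_off p hx]; simp]
  refine finsum_congr fun k => ?_
  rw [ser_co hn, map_nsmul, AddMonoidHom.nsmul_apply, nsmul_eq_mul, mul_right_comm]

theorem ser_one (hn : 1 ≤ δ n) : (ser n 1 : NS Q δ) = 1 := by
  ext x
  by_cases hx : x ∈ Set.range fun k : ℕ => k • n
  · obtain ⟨k, rfl⟩ := hx
    rw [ser_co hn, PowerSeries.coeff_one, NS.one_co]
    by_cases hk : k = 0
    · simp [hk]
    · rw [if_neg hk, if_neg fun h => hk (inj hn (by simpa using h))]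
  · rw [ser_off _ hx, NS.one_co, if_neg]
    rintro rfl
    exact hx ⟨0, by simp⟩

theorem ser_mul (hn : 1 ≤ δ n) (p q : PowerSeries K) :
    (ser n (p * q) : NS Q δ) = ser n p * ser n q := by
  ext x
  by_cases hx : x ∈ Set.range fun k : ℕ => k • n
  · obtain ⟨k, rfl⟩ := hx
    rw [ser_co hn, ser_mul_co hn, PowerSeries.coeff_mul,
      Nat.sum_antidiagonal_eq_sum_range_succ fun i j =>
        PowerSeries.coeff i p * PowerSeries.coeff j q,
      finsum_eq_sum_of_support_subset (s := range k.succ)]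
    · refine sum_congr rfl fun j hj => ?_
      have hj' : j ≤ k := Nat.lt_succ_iff.1 (mem_range.1 hj)
      rw [sub_eq_add_neg, ← sub_nsmul n hj', ser_co hn]
      simp [Q.skew]
    · intro j hj
      have h1 : (ser n q : NS Q δ).co (k • n - j • n) ≠ 0 := fun h => hj (by simp [h])
      obtain ⟨i, hi⟩ := ser_sup n q _ h1
      rw [sub_eq_iff_eq_add, ← add_nsmul] at hi
      have := inj hn hi
      simp only [coe_range, Set.mem_Iio]
      omega
  · rw [ser_off _ hx]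
    by_contra h
    obtain ⟨k, hk⟩ := (ser_sup n p).mul (ser_sup n q) (s := fun x => ∃ k : ℕ, x = k • n)
      (by rintro _ _ ⟨i, rfl⟩ ⟨j, rfl⟩; exact ⟨i + j, (add_nsmul n i j).symm⟩) x (Ne.symm h)
    exact hx ⟨k, hk.symm⟩

theorem tp_pow (e : ℤ) (k : ℕ) : Q.tp e ^ k = Q.tp (k * e) := by
  induction k with
  | zero => simp
  | succ k ih => rw [pow_succ, ih, ← Q.tp_add]; congr 1; push_cast; ring

theorem comm_co (hn : 1 ≤ δ n) (p : PowerSeries K) (f : NS Q δ) (r : Λ) :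
    (ser n p * f).co r = (f * ser n (PowerSeries.rescale (Q.tp (2 * Q.ω n r)) p)).co r := by
  rw [ser_mul_co hn, mul_ser_co hn]
  refine finsum_congr fun k => ?_
  rw [PowerSeries.coeff_rescale, tp_pow, ← mul_assoc, ← Q.tp_add]
  congr 3
  ring

theorem rescale_Yc (b : Bool) (e d : ℤ) :
    PowerSeries.rescale (Q.tp e) (Q.Yc b (Q.tp d)) = Q.Yc b (Q.tp (e + d)) := by
  ext k
  simp only [QD.Yc, PowerSeries.coeff_rescale, PowerSeries.coeff_mk, Q.tp_add, mul_pow, mul_assoc]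

theorem Yc_zero (h : Sp.S_CB) (b : Bool) (c : K) : PowerSeries.coeff 0 (Q.Yc b c) = 1 := by
  cases b <;> simp [QD.Yc, h.1, h.2.1]

/-- one factor of the infinite product -/
noncomputable def fc (Q : QD Λ K) (b : Bool) (d : ℤ) : PowerSeries K :=
  if b then PowerSeries.mk fun j => Q.tp d ^ j
  else 1 + PowerSeries.C (Q.tp (d + 1)) * PowerSeries.X

theorem Yc_step (h : Sp.S_CB) (b : Bool) (d : ℤ) :
    Q.Yc b (Q.tp d) = fc Q b d * Q.Yc b (Q.tp (2 + d)) := by
  have e1 : Q.tp (2 + d) = (Q.t : K) ^ 2 * Q.tp d := by rw [Q.tp_add, ← Q.tp_nat]; rfl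
  have e2 : Q.tp (d + 1) = Q.tp d * (Q.t : K) := by
    rw [Q.tp_add, ← pow_one (Q.t : K), ← Q.tp_nat]; rfl
  cases b
  · ext k
    rw [fc, if_neg Bool.false_ne_true, add_mul, one_mul, map_add, mul_assoc,
      PowerSeries.coeff_C_mul]
    cases k with
    | zero => simp [Yc_zero h]
    | succ k =>
      have h1 := congrArg Q.ι (h.2.2.2 k)
      simp only [map_mul, map_sub, map_one, map_pow, Q.hι] at h1
      rw [PowerSeries.coeff_succ_X_mul]
      simp only [QD.Yc, PowerSeries.coeff_mk, Bool.false_eq_true, if_false, e1, e2]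
      linear_combination Q.tp d ^ (k + 1) * (Q.t : K) ^ (k + 1) * h1
  · have h2 : fc Q true d * (1 - PowerSeries.C (Q.tp d) * PowerSeries.X) = 1 := by
      have := congrArg (PowerSeries.rescale (Q.tp d))
        (PowerSeries.mk_one_mul_one_sub_eq_one K)
      rw [map_mul, map_sub, map_one, PowerSeries.rescale_X, PowerSeries.rescale_mk] at this
      simpa [fc] using this
    have h3 : (1 - PowerSeries.C (Q.tp d) * PowerSeries.X) * Q.Yc true (Q.tp d) =
        Q.Yc true (Q.tp (2 + d)) := by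
      ext k
      rw [sub_mul, one_mul, map_sub, mul_assoc, PowerSeries.coeff_C_mul]
      cases k with
      | zero => simp [Yc_zero h]
      | succ k =>
        have h1 := congrArg Q.ι (h.2.2.1 k)
        simp only [map_mul, map_sub, map_one, map_pow, Q.hι] at h1
        rw [PowerSeries.coeff_succ_X_mul]
        simp only [QD.Yc, PowerSeries.coeff_mk, if_true, e1]
        linear_combination Q.tp d ^ (k + 1) * h1
    rw [← h3, ← mul_assoc, h2, one_mul]

/-- the first `m` factors of the infinite product -/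
noncomputable def PP (Q : QD Λ K) (b : Bool) (d : ℤ) (m : ℕ) : PowerSeries K :=
  ∏ i ∈ range m, fc Q b (2 * i + d)

theorem Yc_eq (h : Sp.S_CB) (b : Bool) (d : ℤ) (m : ℕ) :
    Q.Yc b (Q.tp d) = PP Q b d m * Q.Yc b (Q.tp (2 * m + d)) := by
  induction m with
  | zero => simp [PP]
  | succ m ih =>
    rw [PP, prod_range_succ, mul_assoc, ih, Yc_step h b (2 * m + d), PP]
    congr 4
    push_cast
    ring

theorem ser_GG (G : S_GRP Q δ) (hn : 1 ≤ δ n) (p : PowerSeries K)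
    (hp : PowerSeries.coeff 0 p = 1) (P : AddSubmonoid Λ) (hP : n ∈ P) :
    ∃ u ∈ GG Q δ P, (u : NS Q δ) = ser n p := by
  refine G.unit P _ ?_ ((ser_sup n p).mono ?_)
  · rw [← hp, ← ser_co (Q := Q) hn, zero_nsmul]
  · rintro _ ⟨k, rfl⟩
    exact nsmul_mem (AddSubmonoid.mem_inf.2 ⟨hP, Or.inr hn⟩) k

theorem wf_val (h : Sp.S_CB) (G : S_GRP Q δ) (x : Bool × ℤ × Λ) (hx : 1 ≤ δ x.2.2) :
    (wf Q δ x : NS Q δ) = ser x.2.2 (Q.Yc x.1 (Q.tp x.2.1)) := by
  obtain ⟨u, -, hu⟩ := ser_GG G hx _ (Yc_zero (Q := Q) h x.1 (Q.tp x.2.1)) ⊤ trivial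
  have h1 : IsUnit (ser x.2.2 (Q.Yc x.1 (Q.tp x.2.1)) : NS Q δ) := ⟨u, hu⟩
  rw [wf, dif_pos h1, IsUnit.unit_spec]

theorem wf_mem (h : Sp.S_CB) (G : S_GRP Q δ) (x : Bool × ℤ × Λ) (hx : 1 ≤ δ x.2.2)
    (P : AddSubmonoid Λ) (hP : x.2.2 ∈ P) : wf Q δ x ∈ GG Q δ P := by
  obtain ⟨u, hu, hu'⟩ := ser_GG G hx _ (Yc_zero (Q := Q) h x.1 (Q.tp x.2.1)) P hP
  rwa [show wf Q δ x = u from Units.ext ((wf_val h G x hx).trans hu'.symm)]

theorem wf_inv (h : Sp.S_CB) (G : S_GRP Q δ) (x : Bool × ℤ × Λ) (hx : 1 ≤ δ x.2.2) :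
    ∃ Y : PowerSeries K, Q.Yc x.1 (Q.tp x.2.1) * Y = 1 ∧
      (((wf Q δ x)⁻¹ : (NS Q δ)ˣ) : NS Q δ) = ser x.2.2 Y := by
  have h1 := PowerSeries.mul_invOfUnit (Q.Yc x.1 (Q.tp x.2.1)) 1
    (by rw [← PowerSeries.coeff_zero_eq_constantCoeff_apply, Yc_zero h]; rfl)
  refine ⟨_, h1, Units.inv_eq_of_mul_eq_one_right ?_⟩
  rw [wf_val h G x hx, ← ser_mul hx, h1, ser_one hx]

theorem cj_pos (h : Sp.S_CB) (G : S_GRP Q δ) (x : Bool × ℤ × Λ) (hx : 1 ≤ δ x.2.2)
    (f : NS Q δ) (r : Λ) (m : ℕ) (hm : Q.ω x.2.2 r = m) :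
    (cj (wf Q δ x) f).co r = ∑ᶠ k : ℕ, Q.tp (-(k * m)) *
      PowerSeries.coeff k (PP Q x.1 x.2.1 m) * f.co (r - k • x.2.2) := by
  obtain ⟨Y, hY, hY'⟩ := wf_inv h G x hx
  have e : Q.Yc x.1 (Q.tp x.2.1) * PowerSeries.rescale (Q.tp (2 * m)) Y = PP Q x.1 x.2.1 m := by
    rw [Yc_eq h x.1 x.2.1 m, ← rescale_Yc, mul_assoc, ← map_mul, hY, map_one, mul_one]
  rw [cj, hY', wf_val h G x hx, mul_assoc, comm_co hx, mul_assoc, ← ser_mul hx, hm, e,
    mul_ser_co hx, hm]

theorem cj_neg (h : Sp.S_CB) (G : S_GRP Q δ) (x : Bool × ℤ × Λ) (hx : 1 ≤ δ x.2.2)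
    (f : NS Q δ) (r : Λ) (m : ℕ) (hm : Q.ω x.2.2 r = -m) :
    (cj (wf Q δ x)⁻¹ f).co r = ∑ᶠ k : ℕ, Q.tp (k * m) *
      PowerSeries.coeff k (PP Q x.1 (2 * -m + x.2.1) m) * f.co (r - k • x.2.2) := by
  obtain ⟨Y, hY, hY'⟩ := wf_inv h G x hx
  have e : Y * PowerSeries.rescale (Q.tp (2 * -m)) (Q.Yc x.1 (Q.tp x.2.1)) =
      PP Q x.1 (2 * -m + x.2.1) m := by
    rw [rescale_Yc, Yc_eq h x.1 _ m, show 2 * (m : ℤ) + (2 * -m + x.2.1) = x.2.1 by ring,
      mul_comm, mul_assoc, hY, mul_one]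
  rw [cj, inv_inv, hY', wf_val h G x hx, mul_assoc, comm_co hx, mul_assoc, ← ser_mul hx, hm, e,
    mul_ser_co hx, hm]
  simp only [mul_neg, neg_neg]

theorem PP_mem {L : Subsemiring K} (hL : Q.HasT L) (b : Bool) (d : ℤ) (m : ℕ) :
    PowerSeries.coeff 0 (PP Q b d m) = 1 ∧ ∀ k, PowerSeries.coeff k (PP Q b d m) ∈ L := by
  refine prod_induction _
    (fun p : PowerSeries K => PowerSeries.coeff 0 p = 1 ∧ ∀ k, PowerSeries.coeff k p ∈ L)
    (fun p q hp hq => ⟨?_, fun k => ?_⟩) ⟨by simp, fun k => ?_⟩ fun i _ => ⟨?_, fun k => ?_⟩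
  · rw [PowerSeries.coeff_mul, Nat.antidiagonal_zero, sum_singleton, hp.1, hq.1, mul_one]
  · rw [PowerSeries.coeff_mul]
    exact sum_mem fun c _ => mul_mem (hp.2 _) (hq.2 _)
  · rw [PowerSeries.coeff_one]
    split_ifs
    exacts [one_mem _, zero_mem _]
  · cases b <;> simp [fc]
  · cases b
    · rw [fc, if_neg Bool.false_ne_true, map_add, PowerSeries.coeff_C_mul, PowerSeries.coeff_one,
        PowerSeries.coeff_X]
      refine add_mem ?_ (mul_mem (hL _) ?_) <;> split_ifs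
      exacts [one_mem _, zero_mem _, one_mem _, zero_mem _]
    · rw [fc, if_pos rfl, PowerSeries.coeff_mk]
      exact pow_mem (hL _) _

theorem finsum_pos {L : Subsemiring K} (hn : 1 ≤ δ n) (f : NS Q δ) (r : Λ) (a : ℕ → K)
    (h0 : a 0 = 1) (ha : ∀ k, a k ∈ L) (hf : ∀ j : ℕ, 0 < j → f.co (r - j • n) ∈ L) :
    ∑ᶠ k : ℕ, a k * f.co (r - k • n) - f.co r ∈ L := by
  obtain ⟨c, hc⟩ := f.lf.bdd
  rw [finsum_eq_sum_of_support_subset (s := range ((δ r - c).toNat + 1)), sum_range_succ', h0,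
    zero_nsmul, sub_zero, one_mul, add_sub_cancel_right]
  · exact sum_mem fun k _ => mul_mem (ha _) (hf _ k.succ_pos)
  · intro k hk
    have h1 := hc (r - k • n) fun h => hk (by simp [h])
    rw [map_sub, map_nsmul, nsmul_eq_mul] at h1
    have : (k : ℤ) ≤ k * δ n := le_mul_of_one_le_right (by omega) hn
    simp only [coe_range, Set.mem_Iio]
    omega

theorem tp_sum (S : Finset ℕ) (g : ℕ → ℤ) : ∏ i ∈ S, Q.tp (g i) = Q.tp (∑ i ∈ S, g i) := by
  induction S using Finset.induction_on with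
  | empty => simp
  | insert a S ha ih => rw [prod_insert ha, sum_insert ha, ih, Q.tp_add]

theorem PP_cc (d e : ℤ) (m k : ℕ) (hde : d + e = -m) :
    Q.tp (k * e) * PowerSeries.coeff k (PP Q false d m) = Q.cc m k := by
  simp only [PP, fc, Bool.false_eq_true, if_false]
  rw [prod_one_add, map_sum, QD.cc, powersetCard_eq_filter, sum_filter, mul_sum]
  refine sum_congr rfl fun S _ => ?_
  rw [prod_mul_distrib, prod_const, ← map_prod, PowerSeries.coeff_C_mul, PowerSeries.coeff_X_pow]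
  by_cases hk : k = S.card
  · rw [if_pos hk, if_pos hk.symm, mul_one, tp_sum, ← Q.tp_add, hk, ← nsmul_eq_mul, ← sum_const,
      ← sum_add_distrib]
    congr 1
    exact sum_congr rfl fun i _ => by omega
  · rw [if_neg hk, if_neg (Ne.symm hk), mul_zero, mul_zero]

theorem finsum_cc (m : ℕ) (a : ℕ → K) :
    ∑ᶠ k : ℕ, Q.cc m k * a k = ∑ j ∈ range (m + 1), Q.cc m j * a j := by
  refine finsum_eq_sum_of_support_subset _ fun k hk => ?_
  simp only [coe_range, Set.mem_Iio]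
  by_contra hle
  refine hk ?_
  have : powersetCard k (range m) = ∅ := powersetCard_eq_empty.2 (by rw [card_range]; omega)
  simp [QD.cc, this]

theorem cjF (h : Sp.S_CB) (G : S_GRP Q δ) (hn : 1 ≤ δ n) (f : NS Q δ) (p : Λ) (m : ℕ) :
    (Q.ω n p = m → (cj (FF Q δ n) f).co p = ∑ j ∈ range (m + 1), Q.cc m j * f.co (p - j • n)) ∧
    (Q.ω n p = -m →
      (cj (FF Q δ n)⁻¹ f).co p = ∑ j ∈ range (m + 1), Q.cc m j * f.co (p - j • n)) := by
  refine ⟨fun hm => ?_, fun hm => ?_⟩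
  · rw [FF, cj_pos h G (false, 0, n) hn f p m hm, ← finsum_cc]
    refine finsum_congr fun k => ?_
    rw [← mul_neg, PP_cc _ _ _ _ (zero_add _)]
  · rw [FF, cj_neg h G (false, 0, n) hn f p m hm, ← finsum_cc]
    refine finsum_congr fun k => ?_
    rw [PP_cc _ _ _ _ (by ring)]

theorem refl_sum {m : ℕ} {S : Finset ℕ} (hS : S ⊆ range m) (g : ℕ → ℤ) :
    ∑ i ∈ (range m).filter (fun i => m - 1 - i ∉ S), g i =
      ∑ i ∈ range m, g (m - 1 - i) - ∑ i ∈ S, g (m - 1 - i) := by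
  rw [sum_filter, ← sum_range_reflect, ← sum_sdiff hS, ← sum_sdiff hS, add_sub_cancel_right,
    sum_eq_zero (s := S), add_zero]
  · refine sum_congr rfl fun i hi => ?_
    obtain ⟨h1, h2⟩ := mem_sdiff.1 hi
    rw [mem_range] at h1
    rw [if_pos (by rwa [show m - 1 - (m - 1 - i) = i by omega])]
  · intro i hi
    have h1 := mem_range.1 (hS hi)
    rw [if_neg (by rw [show m - 1 - (m - 1 - i) = i by omega]; exact not_not.2 hi)]

theorem cc_symm (m j : ℕ) (hj : j ≤ m) : Q.cc m (m - j) = Q.cc m j := by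
  have hc : ∀ k l, k + l = m → ∀ S ∈ powersetCard k (range m),
      (range m).filter (fun i => m - 1 - i ∉ S) ∈ powersetCard l (range m) := by
    intro k l hkl S hS
    obtain ⟨h1, h2⟩ := mem_powersetCard.1 hS
    refine mem_powersetCard.2 ⟨filter_subset _ _, ?_⟩
    have := refl_sum h1 fun _ => 1
    simp only [sum_const, card_range, nsmul_eq_mul, mul_one, h2] at this
    omega
  have hi : ∀ k, ∀ S ∈ powersetCard k (range m), (range m).filter
      (fun i => m - 1 - i ∉ (range m).filter fun i => m - 1 - i ∉ S) = S := by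
    intro k S hS
    have h1 := (mem_powersetCard.1 hS).1
    ext i
    simp only [mem_filter, mem_range, not_and, not_not]
    constructor
    · rintro ⟨h2, h3⟩
      have := h3 (by omega)
      rwa [show m - 1 - (m - 1 - i) = i by omega] at this
    · intro h2
      have h3 := mem_range.1 (h1 h2)
      exact ⟨h3, fun _ => by rwa [show m - 1 - (m - 1 - i) = i by omega]⟩
  have h0 : ∀ m : ℕ, ∑ i ∈ range m, (2 * (i : ℤ) + 1) = m * m := fun m => by
    induction m with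
    | zero => simp
    | succ m ih => rw [sum_range_succ, ih]; push_cast; ring
  refine sum_nbij' (fun S => (range m).filter fun i => m - 1 - i ∉ S)
    (fun S => (range m).filter fun i => m - 1 - i ∉ S) (hc _ _ (by omega)) (hc _ _ (by omega))
    (hi _) (hi _) fun S hS => ?_
  have h1 := (mem_powersetCard.1 hS).1
  congr 1
  rw [refl_sum h1 fun i => 2 * (i : ℤ) + 1 - m,
    sum_range_reflect (fun i => 2 * (i : ℤ) + 1 - m) m, sum_sub_distrib (s := range m), h0,
    sum_const, card_range, nsmul_eq_mul, sub_self, zero_sub, ← sum_neg_distrib]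
  refine sum_congr rfl fun i hi => ?_
  have := mem_range.1 (h1 hi)
  omega

theorem cj_off (G : S_GRP Q δ) {u : (NS Q δ)ˣ} (hu : u ∈ GG Q δ (AddSubmonoid.multiples n))
    {p x : Λ} (hx : Q.ω n x ≠ Q.ω n p) : (cj u (NS.z p)).co x = 0 := by
  by_contra h0
  obtain ⟨a, h1, ⟨k, hk⟩, -⟩ := G.cj_sup _ u hu _ x h0
  have h2 : a = p := by
    by_contra h
    exact h1 (by rw [NS.z_co, if_neg h])
  have h3 := congrArg (Q.ω n) hk
  simp only [map_nsmul, Q.skew, nsmul_zero, map_sub, h2] at h3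
  omega

theorem z_off {p x : Λ} (hx : Q.ω n x ≠ Q.ω n p) :
    (NS.z p : NS Q δ).co x = 0 ∧ (NS.z (p + n) : NS Q δ).co x = 0 := by
  constructor <;> rw [NS.z_co, if_neg] <;> rintro rfl <;> simp [Q.skew] at hx

theorem two_terms (p x : Λ) :
    ∑ j ∈ range (1 + 1), Q.cc 1 j * (NS.z p : NS Q δ).co (x - j • n) =
      (NS.z p + NS.z (p + n) : NS Q δ).co x := by
  rw [sum_range_succ, sum_range_one, zero_nsmul, one_nsmul, sub_zero]
  have e : (NS.z p : NS Q δ).co (x - n) = (NS.z (p + n) : NS Q δ).co x := by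
    rw [NS.z_co, NS.z_co]
    by_cases h : x = p + n
    · rw [if_pos h, if_pos (sub_eq_iff_eq_add.2 h)]
    · rw [if_neg h, if_neg fun h' => h (sub_eq_iff_eq_add.1 h')]
  rw [e]
  simp [QD.cc, powersetCard_one]

end SerA

open SerA in
theorem t_ser : T_SER := by
  intro Λ K _ _ Q δ h G
  refine ⟨fun n p k hn => ser_co hn p k, ser_sup, wf_val h G, wf_mem h G, ?_, ?_,
    fun n hn f p m => cjF h G hn f p m, cc_symm, ?_⟩
  · intro l P hl
    refine list_prod_mem fun u hu => ?_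
    obtain ⟨x, hx, rfl⟩ := List.mem_map.1 hu
    exact wf_mem h G x (hl x hx).1 P (hl x hx).2
  · intro L hL x hx f p hf
    refine ⟨fun hm => ?_, fun hm => ?_⟩
    · obtain ⟨m, hm'⟩ := Int.eq_ofNat_of_zero_le hm.le
      rw [cj_pos h G x hx f p m hm']
      exact finsum_pos hx f p _ (by simp [(PP_mem hL _ _ _).1])
        (fun k => mul_mem (hL _) ((PP_mem hL _ _ _).2 k)) hf
    · obtain ⟨m, hm'⟩ := Int.exists_eq_neg_ofNat hm.le
      rw [cj_neg h G x hx f p m hm']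
      exact finsum_pos hx f p _ (by simp [(PP_mem hL _ _ _).1])
        (fun k => mul_mem (hL _) ((PP_mem hL _ _ _).2 k)) hf
  · intro n p hn
    have hF : FF Q δ n ∈ GG Q δ (AddSubmonoid.multiples n) :=
      wf_mem h G (false, 0, n) hn _ (AddSubmonoid.mem_multiples n)
    refine ⟨fun hp => ?_, fun hp => ?_, fun hp => ?_⟩
    · ext x
      by_cases hx : Q.ω n x = Q.ω n p
      · rw [(cjF h G hn _ x 0).1 (hx.trans hp)]
        simp [QD.cc]
      · rw [cj_off G hF hx, (z_off hx).1]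
    · ext x
      by_cases hx : Q.ω n x = Q.ω n p
      · rw [(cjF h G hn _ x 1).1 (hx.trans hp), two_terms]
      · rw [cj_off G hF hx, NS.add_co, (z_off hx).1, (z_off hx).2, add_zero]
    · have e : cj (FF Q δ n)⁻¹ (NS.z p) = NS.z p + NS.z (p + n) := by
        ext x
        by_cases hx : Q.ω n x = Q.ω n p
        · rw [(cjF h G hn _ x 1).2 (hx.trans hp), two_terms]
        · rw [cj_off G (inv_mem hF) hx, NS.add_co, (z_off hx).1, (z_off hx).2, add_zero]
      rw [← e, ← cj_mul, inv_mul_cancel, cj_one]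

end Pool.Agent.P.MP_389f6f_co.Qt
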