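import Pool.Agent.P.MP_389f6f_co.QDefs

/-! One round of mutations. -/

set_option autoImplicit false

namespace Pool.Agent.P.MP_389f6f_co.Qt
open Finset

namespace TauA

variable {Λ K : Type} [AddCommGroup Λ] [CommRing K] {Q : QD Λ K} {p : ℕ} (T : Td Q p)

def vec (v : ℕ × ℕ) : Λ := if v.2 = 0 then T.q v.1 else T.y v.1 v.2

def adj (v v' : ℕ × ℕ) : Prop :=
  (v.1 = v'.1 ∧ v.2 ≠ v'.2) ∨ (v'.1 = v.1 + 1 ∧ v'.2 < v.2) ∨ (v.1 = v'.1 + 1 ∧ v.2 < v'.2)

def V (p m i : ℕ) : Finset (ℕ × ℕ) :=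
  (range (m + 1) ×ˢ range (p + 2)).filter fun v => v.2 = 0 ∨
    (v.1 < m ∧ v.1 < i ∧ 2 ≤ v.2) ∨ (v.1 < m ∧ i ≤ v.1 ∧ v.2 ≤ p)

theorem mem_V (p m i j b : ℕ) : (j, b) ∈ V p m i ↔ (b = 0 ∧ j ≤ m) ∨
    (j < m ∧ j < i ∧ 2 ≤ b ∧ b ≤ p + 1) ∨ (j < m ∧ i ≤ j ∧ 1 ≤ b ∧ b ≤ p) := by
  simp only [V, mem_filter, mem_product, mem_range]
  omega

def e (j : ℕ) : Λ := T.y j 1 - T.q j

def w (i j c : ℕ) : Λ :=
  if c = 0 then T.q j else if c = p + 1 then T.q (j + 1) else T.y j (c + if j < i then 1 else 0)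

def d (i j c : ℕ) : Λ := w T i j (c + 1) - w T i j c

open Classical in
noncomputable def sd (m i : ℕ) : Finset Λ :=
  (range m ×ˢ range (p + 1)).image fun v => d T i v.1 v.2

theorem mem_sd (m i : ℕ) (x : Λ) : x ∈ sd T m i ↔ ∃ j < m, ∃ c ≤ p, x = d T i j c := by
  simp only [sd, mem_image, mem_product, mem_range]
  constructor
  · rintro ⟨⟨j, c⟩, ⟨h1, h2⟩, rfl⟩
    exact ⟨j, h1, c, by omega, rfl⟩
  · rintro ⟨j, h1, c, h2, rfl⟩
    exact ⟨(j, c), ⟨h1, by omega⟩, rfl⟩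

theorem w_zero (i j : ℕ) : w T i j 0 = T.q j := by simp [w]

theorem w_top (i j : ℕ) : w T i j (p + 1) = T.q (j + 1) := by simp [w]

theorem w_lt {i j c : ℕ} (h : j < i) (h1 : 1 ≤ c) (h2 : c ≤ p) : w T i j c = T.y j (c + 1) := by
  rw [w, if_neg (by omega), if_neg (by omega), if_pos h]

theorem w_ge {i j c : ℕ} (h : i ≤ j) (h1 : 1 ≤ c) (h2 : c ≤ p) : w T i j c = T.y j c := by
  rw [w, if_neg (by omega), if_neg (by omega), if_neg (by omega), add_zero]

theorem y_top (j : ℕ) : T.y j (p + 1) = T.q (j + 1) + e T j := by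
  rw [add_comm p 1, T.per, e]
  abel

theorem om_q (i j : ℕ) :
    Q.ω (e T i) (T.q j) = (if j = i + 1 then 1 else 0) - if j = i then 1 else 0 := by
  rw [e, map_sub, AddMonoidHom.sub_apply, T.yq, T.qq, sub_zero]

theorem om_y1 (i : ℕ) : Q.ω (e T i) (T.y i 1) = -1 := by
  rw [e, map_sub, AddMonoidHom.sub_apply, Q.skew, Q.anti (T.q i), T.yq]
  simp

theorem om_y {i j b : ℕ} (h : (j < i ∧ 2 ≤ b ∧ b ≤ p + 1) ∨ (j = i ∧ 2 ≤ b ∧ b ≤ p) ∨
    (i < j ∧ 1 ≤ b ∧ b ≤ p)) : Q.ω (e T i) (T.y j b) = 0 := by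
  rw [e, map_sub, AddMonoidHom.sub_apply, Q.anti (T.q i), T.yq]
  rcases h with ⟨h1, h2, h3⟩ | ⟨rfl, h2, h3⟩ | ⟨h1, h2, h3⟩
  · by_cases h4 : i = j + 1
    · subst h4
      rw [Q.anti, T.yy1 j b 1 (by omega) (by omega), if_pos rfl, if_neg (by omega)]
      rfl
    · rw [Q.anti, T.yy2 j i b 1 (by omega), if_neg h4, if_neg (by omega)]
      rfl
  · rw [T.yy0 j 1 b (by omega) (by omega), if_neg (by omega), if_pos rfl]
    rfl
  · by_cases h4 : j = i + 1
    · subst h4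
      rw [T.yy1' i 1 b h2 (by omega), if_neg (by omega), if_neg (by omega)]
      rfl
    · rw [T.yy2 i j 1 b (by omega), if_neg (by omega), if_neg (by omega)]
      rfl

theorem om_w_ne {i j c : ℕ} (h : j ≠ i) (h1 : 1 ≤ c) (h2 : c ≤ p) :
    Q.ω (e T i) (w T i j c) = 0 := by
  rcases lt_or_gt_of_ne h with h | h
  · rw [w_lt T h h1 h2]
    exact om_y T (Or.inl ⟨h, by omega, by omega⟩)
  · rw [w_ge T h.le h1 h2]
    exact om_y T (Or.inr (Or.inr ⟨h, h1, h2⟩))

theorem om_d_ne {i j c : ℕ} (h : j ≠ i) (h2 : c ≤ p) : Q.ω (e T i) (d T i j c) ≤ 0 := by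
  have hp := T.hp
  have a1 : Q.ω (e T i) (w T i j (c + 1)) ≤ 0 := by
    by_cases hc : c = p
    · subst hc
      rw [w_top, om_q, if_neg (by omega)]
      split_ifs <;> omega
    · exact (om_w_ne T h (by omega) (by omega)).le
  have a2 : 0 ≤ Q.ω (e T i) (w T i j c) := by
    by_cases hc : c = 0
    · subst hc
      rw [w_zero, om_q, if_neg h]
      split_ifs <;> omega
    · exact (om_w_ne T h (by omega) h2).ge
  rw [d, map_sub]
  omega

theorem w_ne {i j : ℕ} (h : j ≠ i) (c : ℕ) : w T (i + 1) j c = w T i j c := by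
  unfold w
  by_cases hj : j < i
  · rw [if_pos hj, if_pos (show j < i + 1 by omega)]
  · rw [if_neg hj, if_neg (show ¬j < i + 1 by omega)]

theorem mu_ne {i j c : ℕ} (h : j ≠ i) (h2 : c ≤ p) :
    Q.mu (e T i) (d T i j c) = d T (i + 1) j c := by
  rw [QD.mu, max_eq_right (om_d_ne T h h2), zero_smul, add_zero, d, d, w_ne T h, w_ne T h]

theorem om_w_eq (i : ℕ) {c : ℕ} (h2 : c ≤ p) : Q.ω (e T i) (w T i i (c + 1)) =
    (if c = p then 1 else 0) - if c = 0 then 1 else 0 := by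
  have hp := T.hp
  by_cases hc : c = p
  · subst hc
    rw [w_top, om_q, if_pos rfl, if_neg (by omega), if_pos rfl, if_neg (by omega)]
  · rw [w_ge T le_rfl (by omega) (by omega), if_neg hc]
    by_cases h0 : c = 0
    · subst h0
      rw [if_pos rfl]
      exact om_y1 T i
    · rw [if_neg h0]
      exact om_y T (Or.inr (Or.inl ⟨rfl, by omega, by omega⟩))

theorem w_eq (i : ℕ) {c : ℕ} (h2 : c ≤ p) : w T (i + 1) i c =
    w T i i (c + 1) + Q.ω (e T i) (w T i i (c + 1)) • e T i := by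
  have hp := T.hp
  rw [om_w_eq T i h2]
  by_cases hc : c = p
  · subst hc
    rw [w_top, w_lt T (Nat.lt_succ_self i) hp le_rfl, y_top, if_pos rfl, if_neg (by omega)]
    simp
  · rw [w_ge T (le_refl i) (by omega) (by omega), if_neg hc]
    by_cases h0 : c = 0
    · subst h0
      rw [if_pos rfl, w_zero, e]
      simp
    · rw [if_neg h0, w_lt T (Nat.lt_succ_self i) (by omega) h2]
      simp

theorem mu_eq (i : ℕ) {c : ℕ} (h2 : c < p) :
    Q.mu (e T i) (d T i i (c + 1)) = d T (i + 1) i c := by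
  have h : 0 ≤ Q.ω (e T i) (d T i i (c + 1)) := by
    rw [d, map_sub, om_w_eq T i (show c + 1 ≤ p by omega), om_w_eq T i h2.le,
      if_neg (Nat.succ_ne_zero c), if_neg h2.ne]
    split_ifs <;> omega
  rw [QD.mu, max_eq_left h, d, d, w_eq T i h2.le, w_eq T i (show c + 1 ≤ p by omega), map_sub,
    sub_smul]
  abel

theorem d_zero (i : ℕ) : d T i i 0 = e T i := by
  rw [d, w_zero, w_ge T le_rfl le_rfl T.hp, e]

theorem d_top (i : ℕ) : d T (i + 1) i p = -e T i := by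
  rw [d, w_top, w_lt T (Nat.lt_succ_self i) T.hp le_rfl, y_top]
  abel

theorem d_ne {i j c : ℕ} (h2 : c ≤ p) (h : j ≠ i ∨ c ≠ 0) : d T i j c ≠ e T i := by
  have hp := T.hp
  obtain ⟨φ, hq, hy⟩ := T.lift ℤ (fun _ => 0) fun j b => if j = i ∧ b = 1 then 1 else 0
  have he : ∀ j, φ (e T j) = if j = i then 1 else 0 := fun j => by
    rw [e, map_sub, hq, hy j 1 le_rfl hp]
    simp
  have hw : ∀ c ≤ p + 1, φ (w T i j c) = if j = i ∧ c = 1 then 1 else 0 := by
    intro c hc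
    by_cases h0 : c = 0
    · subst h0
      rw [w_zero, hq, if_neg (by omega)]
    by_cases h1 : c = p + 1
    · subst h1
      rw [w_top, hq, if_neg (by omega)]
    by_cases hj : j < i
    · rw [w_lt T hj (by omega) (by omega), if_neg (by omega)]
      by_cases h3 : c = p
      · subst h3
        rw [y_top, map_add, hq, he, if_neg (by omega)]
        rfl
      · rw [hy j _ (by omega) (by omega), if_neg (by omega)]
    · rw [w_ge T (by omega) (by omega) (by omega), hy j _ (by omega) (by omega)]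
  intro hde
  have h3 := congrArg φ hde
  rw [d, map_sub, hw _ (by omega), hw _ (by omega), he, if_pos rfl] at h3
  split_ifs at h3 <;> omega

theorem sd_step {m i : ℕ} (hi : i < m) (v : Λ) : v ∈ sd T m (i + 1) ↔
    v = -e T i ∨ ∃ x ∈ sd T m i, x ≠ e T i ∧ v = Q.mu (e T i) x := by
  simp only [mem_sd]
  constructor
  · rintro ⟨j, hj, c, hc, rfl⟩
    by_cases h : j = i
    · subst h
      by_cases h1 : c = p
      · subst h1
        exact Or.inl (d_top T j)
      · exact Or.inr ⟨_, ⟨j, hj, c + 1, by omega, rfl⟩, d_ne T (by omega) (Or.inr (by omega)),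
          (mu_eq T j (by omega)).symm⟩
    · exact Or.inr ⟨_, ⟨j, hj, c, hc, rfl⟩, d_ne T hc (Or.inl h), (mu_ne T h hc).symm⟩
  · rintro (rfl | ⟨_, ⟨j, hj, c, hc, rfl⟩, hne, rfl⟩)
    · exact ⟨i, hi, p, le_rfl, (d_top T i).symm⟩
    · by_cases h : j = i
      · subst h
        cases c with
        | zero => exact absurd (d_zero T j) hne
        | succ c => exact ⟨j, hj, c, by omega, mu_eq T j (by omega)⟩
      · exact ⟨j, hj, c, hc, mu_ne T h hc⟩

theorem exists_seed (m i : ℕ) : ∃ δ : Λ →+ ℤ, Seed δ (sd T m i) := by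
  have hp := T.hp
  obtain ⟨φ, hq, hy⟩ := T.lift ℤ (fun j => (p + 1) * j) fun j b =>
    (p + 1) * j + if j < i then (if b = 1 then -1 else (b : ℤ) - 1) else b
  have hw : ∀ j, ∀ c ≤ p + 1, φ (w T i j c) = (p + 1) * j + c := by
    intro j c hc
    by_cases h0 : c = 0
    · subst h0
      rw [w_zero, hq]
      simp
    by_cases h1 : c = p + 1
    · subst h1
      rw [w_top, hq]
      push_cast
      ring
    by_cases hj : j < i
    · rw [w_lt T hj (by omega) (by omega)]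
      by_cases h3 : c = p
      · subst h3
        rw [y_top, map_add, hq, e, map_sub, hq, hy j 1 le_rfl hp, if_pos hj, if_pos rfl]
        push_cast
        ring
      · rw [hy j _ (by omega) (by omega), if_pos hj, if_neg (by omega)]
        push_cast
        ring
    · rw [w_ge T (by omega) (by omega) (by omega), hy j _ (by omega) (by omega), if_neg hj]
  refine ⟨φ, fun x hx => ?_⟩
  obtain ⟨j, -, c, hc, rfl⟩ := (mem_sd T m i x).1 hx
  rw [d, map_sub, hw j _ (by omega), hw j _ (by omega)]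
  push_cast
  omega

theorem sd_zero (tb : T.S_TB) (m : ℕ) : T.sd m = sd T m 0 := by
  have hp := T.hp
  ext x
  rw [tb.mem, mem_sd]
  refine exists_congr fun j => and_congr_right fun _ => ?_
  constructor
  · rintro (rfl | rfl | ⟨b, h1, h2, rfl⟩)
    · exact ⟨0, by omega, by rw [d, w_zero, w_ge T (by omega) le_rfl hp]⟩
    · exact ⟨p, le_rfl, by rw [d, w_top, w_ge T (by omega) hp le_rfl]⟩
    · exact ⟨b, h2.le, by
        rw [d, w_ge T (by omega) (by omega) (by omega), w_ge T (by omega) h1 h2.le]⟩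
  · rintro ⟨c, hc, rfl⟩
    by_cases h0 : c = 0
    · subst h0
      exact Or.inl (by rw [d, w_zero, w_ge T (by omega) le_rfl hp])
    by_cases h1 : c = p
    · subst h1
      exact Or.inr (Or.inl (by rw [d, w_top, w_ge T (by omega) hp le_rfl]))
    · exact Or.inr (Or.inr ⟨c, by omega, by omega, by
        rw [d, w_ge T (by omega) (by omega) (by omega), w_ge T (by omega) (by omega) hc]⟩)

theorem phi_w {m j c : ℕ} (hj : j < m) (hc : c ≤ p + 1) : T.Φ (w T 0 j c) = w T m j c := by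
  by_cases h0 : c = 0
  · subst h0
    rw [w_zero, w_zero, T.Φq]
  by_cases h1 : c = p + 1
  · subst h1
    rw [w_top, w_top, T.Φq]
  rw [w_ge T (by omega) (by omega) (by omega), w_lt T hj (by omega) (by omega), T.Φy]

theorem phi_sd (m : ℕ) (v : Λ) : T.Φ v ∈ sd T m m ↔ v ∈ sd T m 0 := by
  simp only [mem_sd]
  refine exists_congr fun j => and_congr_right fun hj => exists_congr fun c =>
    and_congr_right fun hc => ?_
  rw [d, d, ← phi_w T hj (show c + 1 ≤ p + 1 by omega), ← phi_w T hj (show c ≤ p + 1 by omega),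
    ← map_sub, T.Φ.injective.eq_iff]

/-- the product of independence polynomials after `i` mutations -/
noncomputable def G (δ : Λ →+ ℤ) (m i : ℕ) (xs : List K) : NS Q δ :=
  FP Q δ (V p m i) (vec T) adj xs

theorem iso_refl : Q.Iso (AddEquiv.refl Λ) := fun _ _ => rfl

theorem G_co (ip : S_IP Q) (δ δ' : Λ →+ ℤ) (m i : ℕ) (xs : List K) :
    Tr (AddEquiv.refl Λ) (G T δ m i xs) (G T δ' m i xs) :=
  (ip.map δ δ' (AddEquiv.refl Λ) iso_refl _ _ (V p m i) (V p m i) (vec T) (vec T) adj adj id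
    (fun _ _ _ _ h => h) (fun v => ⟨fun h => ⟨v, h, rfl⟩, fun ⟨_, h, h'⟩ => h' ▸ h⟩)
    (fun _ _ _ _ => Iff.rfl) fun _ _ => rfl).2 xs

theorem adj_iff (p : ℕ) (j b j' b' : ℕ) (hb : b ≤ p) (hb' : b' ≤ p) :
    adj (j, b) (j', b') ↔ adjP p ((p + 1) * j + b) ((p + 1) * j' + b') := by
  have key : ∀ a c : ℕ, a + 2 ≤ c → (p + 1) * a + 2 * (p + 1) ≤ (p + 1) * c := fun a c h => by
    have := Nat.mul_le_mul_left (p + 1) h
    linarith
  simp only [adj, adjP]
  rcases (by omega : j = j' ∨ j' = j + 1 ∨ j = j' + 1 ∨ j + 2 ≤ j' ∨ j' + 2 ≤ j) with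
    rfl | rfl | rfl | h | h
  · omega
  · rw [Nat.mul_succ]
    omega
  · rw [Nat.mul_succ]
    omega
  · have := key _ _ h
    omega
  · have := key _ _ h
    omega

theorem F_eq (ip : S_IP Q) (δ : Λ →+ ℤ) (m : ℕ) (xs : List K) : T.F δ m xs = G T δ m 0 xs := by
  have hlt : ∀ v : ℕ, v % (p + 1) ≤ p := fun v => Nat.le_of_lt_succ (Nat.mod_lt _ p.succ_pos)
  refine NS.ext fun x => ((ip.map δ δ _ iso_refl _ _ (range (m * (p + 1) + 1)) (V p m 0) T.u
    (vec T) (adjP p) adj (fun v => (v / (p + 1), v % (p + 1))) ?_ ?_ ?_ fun _ _ => rfl).2 xs x).symm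
  · intro a _ b _ h
    simp only [Prod.mk.injEq] at h
    rw [← Nat.div_add_mod a (p + 1), ← Nat.div_add_mod b (p + 1), h.1, h.2]
  · rintro ⟨j, b⟩
    rw [mem_V]
    constructor
    · intro h
      have hb : b < p + 1 := by omega
      refine ⟨(p + 1) * j + b, mem_range.2 ?_, ?_⟩
      · rcases h with ⟨rfl, h⟩ | h | ⟨h, -, -, h'⟩
        · have := Nat.mul_le_mul_left (p + 1) h
          linarith
        · omega
        · have := Nat.mul_le_mul_left (p + 1) (Nat.succ_le_of_lt h)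
          rw [Nat.mul_succ] at this
          linarith
      · rw [Nat.mul_add_div p.succ_pos, Nat.mul_add_mod, Nat.div_eq_of_lt hb, Nat.mod_eq_of_lt hb,
          add_zero]
    · rintro ⟨v, hv, h⟩
      simp only [Prod.mk.injEq] at h
      have h1 := Nat.div_add_mod v (p + 1)
      have h2 := hlt v
      rw [h.1, h.2] at h1
      rw [h.2] at h2
      have h3 := mem_range.1 hv
      have h4 : j ≤ m := by
        by_contra hc
        have := Nat.mul_le_mul_left (p + 1) (Nat.succ_le_of_lt (not_le.1 hc))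
        rw [Nat.mul_succ] at this
        linarith
      by_cases h0 : b = 0
      · exact Or.inl ⟨h0, h4⟩
      · refine Or.inr (Or.inr ⟨lt_of_le_of_ne h4 ?_, by omega, by omega, h2⟩)
        rintro rfl
        rw [mul_comm] at h3
        omega
  · intro a _ b _
    rw [adj_iff p _ _ _ _ (hlt a) (hlt b), Nat.div_add_mod, Nat.div_add_mod]

theorem G_phi (ip : S_IP Q) (δ δ' : Λ →+ ℤ) (m : ℕ) (xs : List K) :
    Tr T.Φ (G T δ m 0 xs) (G T δ' m m xs) := by
  refine (ip.map δ δ' _ T.iso _ _ (V p m 0) (V p m m) (vec T) (vec T) adj adj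
    (fun v => (v.1, if v.2 = 0 then 0 else v.2 + 1)) ?_ ?_ ?_ ?_).2 xs
  · rintro ⟨j, b⟩ _ ⟨j', b'⟩ _ h
    simp only [Prod.mk.injEq] at h ⊢
    obtain ⟨h1, h2⟩ := h
    split_ifs at h2 <;> omega
  · rintro ⟨j, b⟩
    rw [mem_V]
    constructor
    · intro h
      refine ⟨(j, b - 1), (mem_V _ _ _ _ _).2 (by omega), ?_⟩
      simp only [Prod.mk.injEq, true_and]
      split_ifs <;> omega
    · rintro ⟨⟨j', b'⟩, hv, h⟩
      rw [mem_V] at hv
      simp only [Prod.mk.injEq] at h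
      obtain ⟨h1, h2⟩ := h
      split_ifs at h2 <;> omega
  · rintro ⟨j, b⟩ _ ⟨j', b'⟩ _
    simp only [adj]
    split_ifs <;> omega
  · rintro ⟨j, b⟩ _
    simp only [vec]
    by_cases h : b = 0
    · simp [h, T.Φq]
    · simp [h, T.Φy]

theorem G_move (ip : S_IP Q) (δ : Λ →+ ℤ) {m i : ℕ} (hi : i < m) (hδ : 1 ≤ δ (e T i))
    (xs : List K) : cj (FF Q δ (e T i)) (G T δ m i xs) = G T δ m (i + 1) xs := by
  have hp := T.hp
  have he : vec T (i, 1) - vec T (i, 0) = e T i := by simp [vec, e]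
  have h := ip.move δ _ ((V p m i).erase (i, 1)) (V p m i) (V p m (i + 1)) (vec T) adj (i, 0)
    (i + 1, 0) (i, 1) (i, p + 1) ?_ ?_ ?_ ?_ ?_ ?_ ?_ ?_ ?_ ?_ ?_ ?_ ?_ ?_ ?_ ?_ ?_ ?_ ?_ xs
  · rwa [he] at h
  · rintro ⟨j, b⟩ ⟨j', b'⟩
    simp only [adj]
    omega
  · rintro ⟨j, b⟩
    simp only [adj]
    omega
  · rintro ⟨j, b⟩
    simp only [mem_erase, mem_V, ne_eq, Prod.mk.injEq]
    omega
  · rintro ⟨j, b⟩
    simp only [mem_erase, mem_V, ne_eq, Prod.mk.injEq]
    omega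
  · simp
  · simp only [mem_erase, mem_V, ne_eq, Prod.mk.injEq]
    omega
  · exact mem_erase.2 ⟨by simp, (mem_V _ _ _ _ _).2 (Or.inl ⟨rfl, by omega⟩)⟩
  · exact mem_erase.2 ⟨by simp, (mem_V _ _ _ _ _).2 (Or.inl ⟨rfl, by omega⟩)⟩
  · simp
  · simp [adj]
  · simp [adj]
  · simp [adj]
  · simp [adj]
  · simp [adj]
  · rintro ⟨j, b⟩ hv h1 h2
    simp only [mem_erase, mem_V, ne_eq, Prod.mk.injEq] at hv h1 h2
    refine ⟨?_, ?_, ?_⟩
    · simp only [adj]
      omega
    · simp only [adj]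
      omega
    · rw [he, vec]
      by_cases h0 : b = 0
      · rw [if_pos h0, om_q, if_neg (by omega), if_neg (by omega)]
        rfl
      · rw [if_neg h0]
        exact om_y T (by omega)
  · rw [he]
    simp [vec, y_top]
  · rw [he]
    simp [vec, om_q]
  · rw [he]
    simp [vec, om_q]
  · rwa [he]

theorem chain (at' : S_AT Q) (mi : S_MI Q) (ip : S_IP Q) (m : ℕ) (δ : Λ →+ ℤ) (g : (NS Q δ)ˣ)
    (xs : List K) (hs : Seed δ (sd T m 0)) (hg : AT (sd T m 0) g) (i : ℕ) (hi : i ≤ m) :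
    ∀ (δ' : Λ →+ ℤ) (g' : (NS Q δ')ˣ), Seed δ' (sd T m i) → AT (sd T m i) g' →
    (∀ r, ∃ k : ℕ → ℕ, att g (G T δ m 0 xs) r =
        att g' (G T δ' m i xs) (r + ∑ j ∈ range i, k j • e T j) ∧
      ((∀ j < i, k j = 0) → ∀ j < i, Q.ω (e T j) r ≤ 0)) ∧
    ∀ θ : Λ →+ ℝ, (∀ j < i, θ (e T j) < 0) →
      (ex g' θ (G T δ' m i xs)).co = (ex g θ (G T δ m 0 xs)).co := by
  induction i with
  | zero =>
    intro δ' g' hs' hg'
    obtain ⟨h1, h2⟩ := at'.tr δ δ' _ iso_refl _ _ hs hs' (fun _ => Iff.rfl) g g' hg hg' _ _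
      (G_co T ip δ δ' m 0 xs)
    refine ⟨fun r => ⟨fun _ => 0, ?_, fun _ j hj => absurd hj (Nat.not_lt_zero j)⟩,
      fun θ _ => funext fun x => h2 θ x⟩
    rw [sum_range_zero, add_zero]
    exact (h1 r).symm
  | succ i ih =>
    intro δ' g' hs' hg'
    have him : i < m := hi
    obtain ⟨δ1, hs1⟩ := exists_seed T m i
    obtain ⟨g1, hg1⟩ := at'.ex δ1 _ hs1
    obtain ⟨a1, a2⟩ := ih him.le δ1 g1 hs1 hg1
    have hk : e T i ∈ sd T m i := (mem_sd T m i _).2 ⟨i, him, 0, Nat.zero_le _, (d_zero T i).symm⟩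
    obtain ⟨b1, b2⟩ := mi δ1 δ' _ _ (e T i) hs1 hs' hk (sd_step T him) g1 g' hg1 hg'
      (G T δ1 m i xs) (G T δ' m (i + 1) xs) (ip.fin _ _ _ _ _ _) (ip.fin _ _ _ _ _ _) (by
        rw [G_move T ip δ1 him (hs1 _ hk)]
        exact funext fun x => (G_co T ip δ1 δ' m (i + 1) xs x).symm)
    refine ⟨fun r => ?_, fun θ hθ => ?_⟩
    · obtain ⟨k, c1, c2⟩ := a1 r
      set r' := r + ∑ j ∈ range i, k j • e T j with hr'
      refine ⟨fun j => if j < i then k j else (Q.ω (e T i) r').toNat, ?_, fun h0 j hj => ?_⟩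
      · beta_reduce
        rw [c1, ← b1 r', sum_range_succ, if_neg (lt_irrefl i),
          sum_congr rfl fun j hj => by rw [if_pos (mem_range.1 hj)], ← add_assoc, ← hr', QD.mu,
          ← Int.ofNat_toNat, natCast_zsmul]
      · beta_reduce at h0
        have h1 : ∀ j < i, k j = 0 := fun j hj => by
          have := h0 j (by omega)
          rwa [if_pos hj] at this
        by_cases hji : j < i
        · exact c2 h1 j hji
        · have h2 := h0 i (by omega)
          rw [if_neg (lt_irrefl i)] at h2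
          have h3 : r' = r := by
            rw [hr', sum_eq_zero fun j hj => by rw [h1 j (mem_range.1 hj), zero_smul], add_zero]
          rw [h3] at h2
          obtain rfl : j = i := by omega
          omega
    · rw [b2 θ (hθ i (by omega)), a2 θ fun j hj => hθ j (by omega)]

end TauA

open TauA in
theorem t_tau : T_TAU := by
  intro Λ K _ _ Q p T _ at' mi ip tb m δ g xs hs hg
  rw [sd_zero T tb] at hs hg
  rw [F_eq T ip]
  obtain ⟨δ', hs'⟩ := exists_seed T m m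
  obtain ⟨g', hg'⟩ := at'.ex δ' _ hs'
  obtain ⟨a1, a2⟩ := chain T at' mi ip m δ g xs hs hg m le_rfl δ' g' hs' hg'
  obtain ⟨b1, b2⟩ := at'.tr δ δ' _ T.iso _ _ hs hs' (phi_sd T m) g g' hg hg' _ _
    (G_phi T ip δ δ' m xs)
  refine ⟨fun r => ?_, fun θ hθ r => ?_⟩
  · obtain ⟨k, c1, c2⟩ := a1 r
    refine ⟨k, ?_, c2⟩
    rw [c1, ← b1, AddEquiv.apply_symm_apply]
    rfl
  · rw [← a2 θ hθ]
    exact b2 θ r

end Pool.Agent.P.MP_389f6f_co.Qt
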