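import Pool.Agent.P.MP_389f6f_co.QDefs

/-! Elementary facts on the vertices of a power of a path. -/

set_option autoImplicit false

namespace Pool.Agent.P.MP_389f6f_co.Qt
open Finset

namespace TbA

variable {Λ K : Type} [AddCommGroup Λ] [CommRing K] {Q : QD Λ K} {p : ℕ} (T : Td Q p)

theorem md (p j b : ℕ) (hb : b ≤ p) : (j * (p + 1) + b) % (p + 1) = b := by
  rw [Nat.mul_add_mod_self_right, Nat.mod_eq_of_lt (by omega)]

theorem dv (p j b : ℕ) (hb : b ≤ p) : (j * (p + 1) + b) / (p + 1) = j := by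
  rw [add_comm, Nat.add_mul_div_right _ _ (Nat.succ_pos p), Nat.div_eq_of_lt (by omega), zero_add]

theorem ex (p i : ℕ) : ∃ j b, b ≤ p ∧ i = j * (p + 1) + b :=
  ⟨i / (p + 1), i % (p + 1), Nat.le_of_lt_succ (Nat.mod_lt _ (Nat.succ_pos p)),
    (Nat.div_add_mod' i (p + 1)).symm⟩

theorem uq (j : ℕ) : T.u (j * (p + 1)) = T.q j := by
  have h1 := md p j 0 (Nat.zero_le _)
  have h2 := dv p j 0 (Nat.zero_le _)
  rw [add_zero] at h1 h2
  rw [Td.u, if_pos h1, h2]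

theorem uy (j b : ℕ) (h1 : 1 ≤ b) (h2 : b ≤ p) : T.u (j * (p + 1) + b) = T.y j b := by
  rw [Td.u, md p j b h2, dv p j b h2, if_neg (by omega)]

theorem tri {j j' : ℕ} (p : ℕ) : j' + 1 ≤ j ∧ j' * (p + 1) + (p + 1) ≤ j * (p + 1) ∨ j' = j ∨
    j' = j + 1 ∨ j + 2 ≤ j' ∧ j * (p + 1) + 2 * (p + 1) ≤ j' * (p + 1) := by
  rcases lt_trichotomy j' j with h | h | h
  · exact Or.inl ⟨h, by nlinarith⟩
  · exact Or.inr (Or.inl h)
  · rcases (Nat.succ_le_of_lt h).eq_or_lt with h' | h'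
    · exact Or.inr (Or.inr (Or.inl h'.symm))
    · exact Or.inr (Or.inr (Or.inr ⟨h', by nlinarith⟩))

theorem om (i i' : ℕ) (h : i < i') : Q.ω (T.u i) (T.u i') = if i' ≤ i + p then 1 else 0 := by
  obtain ⟨j, a, ha, rfl⟩ := ex p i
  obtain ⟨j', a', ha', rfl⟩ := ex p i'
  have e1 : (j + 1) * (p + 1) = j * (p + 1) + (p + 1) := by ring
  rcases Nat.eq_zero_or_pos a with rfl | h1 <;> rcases Nat.eq_zero_or_pos a' with rfl | h2
  · rw [add_zero, add_zero] at *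
    rw [uq, uq, T.qq, if_neg]
    rcases tri (j := j) (j' := j') p with ⟨-, h3⟩ | rfl | rfl | ⟨-, h3⟩ <;> omega
  · rw [add_zero] at *
    rw [uq, uy T _ _ h2 ha', Q.anti, T.yq]
    rcases tri (j := j) (j' := j') p with ⟨h4, h3⟩ | rfl | rfl | ⟨h4, h3⟩
    · omega
    all_goals split_ifs <;> omega
  · rw [add_zero] at *
    rw [uq, uy T _ _ h1 ha, T.yq]
    rcases tri (j := j) (j' := j') p with ⟨h4, h3⟩ | rfl | rfl | ⟨h4, h3⟩
    · omega
    all_goals split_ifs <;> omega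
  · rw [uy T _ _ h1 ha, uy T _ _ h2 ha']
    rcases tri (j := j) (j' := j') p with ⟨h4, h3⟩ | rfl | rfl | ⟨h4, h3⟩
    · omega
    · rw [T.yy0 _ _ _ (by omega) (by omega), if_pos (by omega)]
    · by_cases h5 : a' < a
      · rw [T.yy1 _ _ _ h5 (by omega), if_pos (by omega)]
      · rw [T.yy1' _ _ _ (by omega) (by omega), if_neg (by omega)]
    · rw [T.yy2 _ _ _ _ h4, if_neg (by omega)]

theorem ka (i : ℕ) : Q.ω (T.u i) T.κ = 1 := by
  rw [Td.u]
  split_ifs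
  exacts [T.qκ _, T.yκ _ _]

theorem lift (A : Type) [AddCommGroup A] (a : ℕ → A) : ∃ φ : Λ →+ A, ∀ v, φ (T.u v) = a v := by
  obtain ⟨φ, h1, h2⟩ := T.lift A (fun j => a (j * (p + 1))) fun j b => a (j * (p + 1) + b)
  refine ⟨φ, fun v => ?_⟩
  obtain ⟨j, b, hb, rfl⟩ := ex p v
  rcases Nat.eq_zero_or_pos b with rfl | h
  · rw [add_zero, uq, h1]
  · rw [uy T _ _ h hb, h2 _ _ h hb]

theorem mem (m : ℕ) (e : Λ) : e ∈ T.sd m ↔ ∃ j < m, e = T.y j 1 - T.q j ∨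
    e = T.q (j + 1) - T.y j p ∨ ∃ b, 1 ≤ b ∧ b < p ∧ e = T.y j (b + 1) - T.y j b := by
  classical
  have hp := T.hp
  have e1 : ∀ j, j * (p + 1) + p + 1 = (j + 1) * (p + 1) := fun j => by ring
  simp only [Td.sd, sdX, mem_image, mem_range]
  constructor
  · rintro ⟨v, hv, rfl⟩
    obtain ⟨j, b, hb, rfl⟩ := ex p v
    refine ⟨j, by
      by_contra hc
      have := Nat.mul_le_mul_right (p + 1) (not_lt.1 hc)
      omega, ?_⟩
    rcases Nat.eq_zero_or_pos b with rfl | h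
    · exact Or.inl (by rw [add_zero, uq, uy T _ _ le_rfl hp])
    · rcases hb.eq_or_lt with rfl | h'
      · exact Or.inr (Or.inl (by rw [e1, uq, uy T _ _ h le_rfl]))
      · exact Or.inr (Or.inr ⟨b, h, h', by rw [add_assoc, uy T _ _ (by omega) h', uy T _ _ h hb]⟩)
  · rintro ⟨j, hj, h⟩
    have h0 := Nat.mul_le_mul_right (p + 1) (Nat.succ_le_of_lt hj)
    rw [← e1] at h0
    rcases h with rfl | rfl | ⟨b, h1, h2, rfl⟩
    · exact ⟨j * (p + 1), by omega, by rw [uq, uy T _ _ le_rfl hp]⟩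
    · exact ⟨j * (p + 1) + p, by omega, by rw [e1, uq, uy T _ _ hp le_rfl]⟩
    · exact ⟨j * (p + 1) + b, by omega,
        by rw [add_assoc, uy T _ _ (by omega) h2, uy T _ _ h1 h2.le]⟩

end TbA

theorem t_tb : T_TB := fun _ _ _ _ _ _ T =>
  ⟨TbA.om T, TbA.ka T, TbA.lift T, TbA.uq T, TbA.uy T, TbA.mem T⟩

end Pool.Agent.P.MP_389f6f_co.Qt
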