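import Pool.Agent.P.MP_389f6f_co.QDefs

/-! Transport of series along an isometry, with a change of grading. -/

set_option autoImplicit false

namespace Pool.Agent.P.MP_389f6f_co.Qt

namespace TrA
variable {Λ K : Type} [AddCommGroup Λ] [CommRing K] {Q : QD Λ K} {δ δ' : Λ →+ ℤ} {Φ : Λ ≃+ Λ}

theorem tmul (hΦ : Q.Iso Φ) {f g : NS Q δ} {f' g' : NS Q δ'} (hf : Tr Φ f f') (hg : Tr Φ g g') :
    Tr Φ (f * g) (f' * g') := fun x => by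
  rw [NS.mul_co, NS.mul_co, ← finsum_comp_equiv Φ.toEquiv]
  refine finsum_congr fun a => ?_
  change Q.tp (Q.ω (Φ a) (Φ x)) * f'.co (Φ a) * g'.co (Φ x - Φ a) = _
  rw [hΦ, ← map_sub, hf, hg]

theorem tone : Tr Φ (1 : NS Q δ) (1 : NS Q δ') := fun x => by
  rw [NS.one_co, NS.one_co]
  by_cases h : x = 0
  · rw [if_pos h, if_pos (by rw [h, map_zero])]
  · rw [if_neg h, if_neg fun e => h (Φ.map_eq_zero_iff.1 e)]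

theorem uniq {f : NS Q δ} {f' f'' : NS Q δ'} (h : Tr Φ f f') (h' : Tr Φ f f'') : f' = f'' :=
  NS.ext fun y => by
    obtain ⟨x, rfl⟩ := Φ.surjective y
    rw [h, h']

theorem push {P : AddSubmonoid Λ} (hfin : ∀ c : ℤ, {x | x ∈ P ∧ δ' (Φ x) ≤ c}.Finite)
    (f : NS Q δ) (hf : Sup (· ∈ P ⊓ Pz δ) f) : ∃ f' : NS Q δ', Tr Φ f f' :=
  ⟨NS.mk Q (fun y => f.co (Φ.symm y)) fun c => ((hfin c).image Φ).subset fun y hy =>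
    ⟨Φ.symm y, ⟨(hf _ hy.1).1, by simpa using hy.2⟩, by simp⟩,
    fun x => congrArg f.co (Φ.symm_apply_apply x)⟩

theorem tinv (hΦ : Q.Iso Φ) {P : AddSubmonoid Λ}
    (hfin : ∀ c : ℤ, {x | x ∈ P ∧ δ' (Φ x) ≤ c}.Finite) {u : (NS Q δ)ˣ} (hu : u ∈ GG Q δ P)
    {u' : (NS Q δ')ˣ} (h : Tr Φ (u : NS Q δ) (u' : NS Q δ')) :
    Tr Φ ((u⁻¹ : (NS Q δ)ˣ) : NS Q δ) ((u'⁻¹ : (NS Q δ')ˣ) : NS Q δ') := by
  obtain ⟨v', hv⟩ := push hfin _ (inv_mem hu).2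
  have h1 := tmul hΦ h hv
  rw [u.mul_inv] at h1
  rw [Units.inv_eq_of_mul_eq_one_right (uniq h1 tone)]
  exact hv

theorem tex (hΦ : Q.Iso Φ) {P : AddSubmonoid Λ} (hP : ∀ x ∈ P, Φ x ∈ Pz δ')
    (hfin : ∀ c : ℤ, {x | x ∈ P ∧ δ' (Φ x) ≤ c}.Finite) {u : (NS Q δ)ˣ} (hu : u ∈ GG Q δ P) :
    ∃ u' ∈ GG Q δ' (P.map Φ.toAddMonoidHom), Tr Φ (u : NS Q δ) (u' : NS Q δ') := by
  obtain ⟨a, ha⟩ := push hfin _ hu.2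
  obtain ⟨b, hb⟩ := push hfin _ (inv_mem hu).2
  have h1 := tmul hΦ ha hb
  have h2 := tmul hΦ hb ha
  rw [u.mul_inv] at h1
  rw [u.inv_mul] at h2
  refine ⟨⟨a, b, uniq h1 tone, uniq h2 tone⟩, ⟨?_, fun y hy => ?_⟩, ha⟩
  · have h3 := ha 0
    rw [map_zero] at h3
    exact h3.trans hu.1
  · obtain ⟨x, rfl⟩ := Φ.surjective y
    have h3 : x ∈ P := (hu.2 x (by rwa [← ha x])).1
    exact ⟨⟨x, h3, rfl⟩, hP x h3⟩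

theorem tex' (hΦ : Q.Iso Φ) {P : AddSubmonoid Λ} (hP : ∀ x ∈ P, Φ x ∈ Pz δ')
    (hfin : ∀ c : ℤ, {x | x ∈ P ∧ δ' (Φ x) ≤ c}.Finite) {N N' : AddSubmonoid Λ}
    (hN : ∀ x ∈ N, Φ x ∈ N') {u : (NS Q δ)ˣ} (hu : u ∈ GG Q δ (P ⊓ N)) :
    ∃ u' ∈ GG Q δ' N', Tr Φ (u : NS Q δ) (u' : NS Q δ') := by
  obtain ⟨u', h1, h2⟩ := tex hΦ (P := P ⊓ N) (fun x hx => hP x hx.1)
    (fun c => (hfin c).subset fun x hx => ⟨hx.1.1, hx.2⟩) hu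
  refine ⟨u', GG_mono ?_ h1, h2⟩
  rintro _ ⟨x, hx, rfl⟩
  exact hN x hx.2

theorem tfac (G : S_GRP Q δ) (G' : S_GRP Q δ') (hΦ : Q.Iso Φ) {P : AddSubmonoid Λ}
    (hP : ∀ x ∈ P, Φ x ∈ Pz δ') (hfin : ∀ c : ℤ, {x | x ∈ P ∧ δ' (Φ x) ≤ c}.Finite)
    {σ σ' : Cut Λ} (hσ : ∀ x, (σ'.N (Φ x) ↔ σ.N x) ∧ (σ'.P (Φ x) ↔ σ.P x)) {g : (NS Q δ)ˣ}
    (hg : g ∈ GG Q δ P) {g' : (NS Q δ')ˣ} (h : Tr Φ (g : NS Q δ) (g' : NS Q δ')) :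
    Tr Φ (lo σ g : NS Q δ) (lo σ' g' : NS Q δ') ∧ Tr Φ (mid σ g : NS Q δ) (mid σ' g' : NS Q δ') ∧
      Tr Φ (hi σ g : NS Q δ) (hi σ' g' : NS Q δ') := by
  obtain ⟨h1, h2, h3, h4⟩ := G.fac P σ g hg
  obtain ⟨a, ha, ta⟩ := tex' (N := σ.Neg) (N' := σ'.Neg) hΦ hP hfin (fun x hx => by
    rcases hx with rfl | hx
    · exact Or.inl (map_zero _)
    · exact Or.inr ((hσ x).1.2 hx)) h1
  obtain ⟨y, hy, ty⟩ := tex' (N := σ.Zer) (N' := σ'.Zer) hΦ hP hfin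
    (fun x hx => ⟨fun e => hx.1 ((hσ x).1.1 e), fun e => hx.2 ((hσ x).2.1 e)⟩) h2
  obtain ⟨b, hb, tb⟩ := tex' (N := σ.Pos) (N' := σ'.Pos) hΦ hP hfin (fun x hx => by
    rcases hx with rfl | hx
    · exact Or.inl (map_zero _)
    · exact Or.inr ((hσ x).2.2 hx)) h3
  have h5 := tmul hΦ (tmul hΦ ta ty) tb
  rw [← Units.val_mul, ← Units.val_mul, ← h4, ← Units.val_mul, ← Units.val_mul] at h5
  obtain rfl : g' = a * y * b := Units.ext (uniq h h5)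
  obtain ⟨e1, e2, e3⟩ := G'.fac_eq σ' a ha y hy b hb
  rw [e1, e2, e3]
  exact ⟨ta, ty, tb⟩

theorem tcj (hΦ : Q.Iso Φ) {P : AddSubmonoid Λ}
    (hfin : ∀ c : ℤ, {x | x ∈ P ∧ δ' (Φ x) ≤ c}.Finite) {u : (NS Q δ)ˣ} (hu : u ∈ GG Q δ P)
    {u' : (NS Q δ')ˣ} (h : Tr Φ (u : NS Q δ) (u' : NS Q δ')) :
    (∀ (f : NS Q δ) (f' : NS Q δ'), Tr Φ f f' → Tr Φ (cj u f) (cj u' f')) ∧
    ∀ φ : Λ →+ ℤ, Tr Φ (dl (φ.comp Φ.toAddMonoidHom) u) (dl φ u') :=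
  ⟨fun _ _ hf => tmul hΦ (tmul hΦ (tinv hΦ hfin hu h) hf) h,
    fun φ => tmul hΦ (tinv hΦ hfin hu h) fun x => by
      change (φ (Φ x) : K) * (u' : NS Q δ').co (Φ x) = (φ (Φ x) : K) * (u : NS Q δ).co x
      rw [h]⟩

theorem twf (S : S_SER Q δ) (S' : S_SER Q δ') (hΦ : Q.Iso Φ) (b : Bool) (k : ℤ) (n : Λ)
    (hn : 1 ≤ δ n) (hn' : 1 ≤ δ' (Φ n)) :
    Tr Φ (wf Q δ (b, k, n) : NS Q δ) (wf Q δ' (b, k, Φ n) : NS Q δ') ∧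
    ∀ φ : Λ →+ ℤ, Tr Φ (dl (φ.comp Φ.toAddMonoidHom) (wf Q δ (b, k, n)))
      (dl φ (wf Q δ' (b, k, Φ n))) := by
  have h : Tr Φ (wf Q δ (b, k, n) : NS Q δ) (wf Q δ' (b, k, Φ n) : NS Q δ') := by
    rw [S.val _ hn, S'.val _ hn']
    intro x
    by_cases hx : ∃ j : ℕ, x = j • n
    · obtain ⟨j, rfl⟩ := hx
      rw [map_nsmul, S.co _ _ _ hn, S'.co _ _ _ hn']
    · have e1 : (ser n (Q.Yc b (Q.tp k)) : NS Q δ).co x = 0 := by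
        by_contra hc
        exact hx (S.sup _ _ _ hc)
      have e2 : (ser (Φ n) (Q.Yc b (Q.tp k)) : NS Q δ').co (Φ x) = 0 := by
        by_contra hc
        obtain ⟨j, hj⟩ := S'.sup _ _ _ hc
        exact hx ⟨j, Φ.injective (by rw [hj, map_nsmul])⟩
      exact e2.trans e1.symm
  refine ⟨h, (tcj hΦ (P := AddSubmonoid.multiples n) (fun c => ?_)
    (S.mem (b, k, n) hn _ (AddSubmonoid.mem_multiples n)) h).2⟩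
  refine ((Set.finite_Iic c.toNat).image fun j : ℕ => j • n).subset ?_
  rintro _ ⟨⟨j, rfl⟩, h2⟩
  refine ⟨j, ?_, rfl⟩
  simp only [map_nsmul, nsmul_eq_mul] at h2
  have : (j : ℤ) ≤ j * δ' (Φ n) := le_mul_of_one_le_right (by omega) hn'
  simp only [Set.mem_Iic]
  omega

end TrA

theorem t_tr : T_TR := fun _ _ _ _ _ G S =>
  { mul := fun _ _ _ h _ _ _ _ => TrA.tmul h
    one := fun _ _ _ => TrA.tone
    inv := fun _ _ _ h _ _ hf _ hu _ => TrA.tinv h hf hu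
    ex := fun _ _ _ h _ hP hf _ hu => TrA.tex h hP hf hu
    fac := fun δ δ' _ h _ hP hf _ _ hσ _ hg _ => TrA.tfac (G δ) (G δ') h hP hf hσ hg
    cj := fun _ _ _ h _ _ hf _ hu _ => TrA.tcj h hf hu
    wf := fun δ δ' _ h => TrA.twf (S δ) (S δ') h }

end Pool.Agent.P.MP_389f6f_co.Qt
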