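import Pool.Agent.P.MP_389f6f_co.QDefs

/-! Positivity of generic walls. -/

set_option autoImplicit false

namespace Pool.Agent.P.MP_389f6f_co.Qt
open Finset

namespace WpA

variable {Λ K : Type} [AddCommGroup Λ] [CommRing K] {Q : QD Λ K} {δ : Λ →+ ℤ}

/-- an integer functional as a real one -/
def rl (φ : Λ →+ ℤ) : Λ →+ ℝ := (Int.castAddHom ℝ).comp φ

@[simp] theorem rl_apply (φ : Λ →+ ℤ) (x : Λ) : rl φ x = (φ x : ℝ) := rfl

theorem eqv_symm {U : Λ → Prop} {f g : NS Q δ} (h : Eqv U f g) : Eqv U g f :=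
  fun x hx => (h x hx).symm

theorem eqv_trans {U : Λ → Prop} {f g k : NS Q δ} (h : Eqv U f g) (h' : Eqv U g k) : Eqv U f k :=
  fun x hx => (h x hx).trans (h' x hx)

theorem eqv_mono {U V : Λ → Prop} {f g : NS Q δ} (h : Eqv U f g) (hV : ∀ x, V x → U x) :
    Eqv V f g := fun x hx => h x (hV x hx)

theorem eqv_one {P : AddSubmonoid Λ} {U : Λ → Prop} {u : (NS Q δ)ˣ} (hu : u ∈ GG Q δ P)
    (h : ∀ x ∈ P, 1 ≤ δ x → ¬U x) : Eqv U (u : NS Q δ) ((1 : (NS Q δ)ˣ) : NS Q δ) := by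
  intro x hx
  rw [Units.val_one, NS.one_co]
  split_ifs with e
  · rw [e]; exact hu.1
  · by_contra hne
    obtain ⟨h1, h2⟩ := hu.2 x hne
    exact h x h1 (h2.resolve_left e) hx

theorem low_le (P : AddSubmonoid Λ) (D : ℤ) : Low δ P fun x => δ x ≤ D := by
  intro x _ y hy h
  rw [map_add] at h
  rcases hy.2 with e | e
  · rw [e, map_zero] at h; omega
  · omega

theorem cut_ext {c d : Cut Λ} (h1 : ∀ x, c.N x ↔ d.N x) (h2 : ∀ x, c.P x ↔ d.P x) : c = d := by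
  obtain ⟨N, P, _, _, _, _, _, _⟩ := c
  obtain ⟨N', P', _, _, _, _, _, _⟩ := d
  have e1 : N = N' := funext fun x => propext (h1 x)
  have e2 : P = P' := funext fun x => propext (h2 x)
  subst e1 e2
  rfl

theorem par_id (δ : Λ →+ ℤ) {a b : Λ} (h : Par a b) (φ : Λ →+ ℝ) :
    (δ a : ℝ) * φ b = δ b * φ a := by
  have := h ((δ a : ℝ) • φ - φ a • rl δ) (by simp [mul_comm])
  simp only [AddMonoidHom.sub_apply, AddMonoidHom.smul_apply, smul_eq_mul, rl_apply] at this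
  linarith

/-- the elements proportional to `a` -/
def ParM (a : Λ) : AddSubmonoid Λ where
  carrier := {x | Par a x}
  zero_mem' := fun φ _ => map_zero φ
  add_mem' := fun {x y} hx hy φ h => by rw [map_add, hx φ h, hy φ h, add_zero]

theorem mem_zer (θ : Λ →+ ℝ) (x : Λ) : x ∈ (Cut.of θ).Zer ↔ θ x = 0 := by
  rw [Cut.mem_Zer, Cut.of_N, Cut.of_P]
  constructor
  · rintro ⟨h1, h2⟩; linarith [not_lt.1 h1, not_lt.1 h2]
  · intro h; rw [h]; simp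

theorem lex_zero (θ ψ : Λ →+ ℝ) (x : Λ) :
    (¬(Cut.lex (Cut.of θ) (Cut.of ψ)).N x ∧ ¬(Cut.lex (Cut.of θ) (Cut.of ψ)).P x) ↔
      θ x = 0 ∧ ψ x = 0 := by
  simp only [Cut.lex_N, Cut.lex_P, Cut.of_N, Cut.of_P, not_or, not_and, not_lt]
  constructor
  · rintro ⟨⟨h1, h2⟩, h3, h4⟩
    exact ⟨le_antisymm h3 h1, le_antisymm (h4 h1) (h2 h3)⟩
  · rintro ⟨h1, h2⟩
    simp [h1, h2]

theorem wp_nil : wp Q δ [] = 1 := rfl

theorem wp_cons (x : Bool × ℤ × Λ) (l : List (Bool × ℤ × Λ)) :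
    wp Q δ (x :: l) = wf Q δ x * wp Q δ l := by simp [wp]

theorem wp_append (l l' : List (Bool × ℤ × Λ)) :
    wp Q δ (l ++ l') = wp Q δ l * wp Q δ l' := by simp [wp]

theorem dl_mul_co (c : Core Q) (φ : Λ →+ ℤ) (n : Λ) (a b : (NS Q δ)ˣ) {P : AddSubmonoid Λ}
    (hb : b ∈ GG Q δ P) (hP : ∀ x ∈ P, Q.ω x n = 0) :
    (dl φ (a * b)).co n = (dl φ a).co n + (dl φ b).co n := by
  rw [(c.dl δ).mul, NS.add_co, (c.dl δ).trace n b _ (hb.2.mono fun x hx => hP x hx.1)]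

theorem dl_wp (c : Core Q) (φ : Λ →+ ℤ) (n : Λ) (P : AddSubmonoid Λ) (hP : ∀ x ∈ P, Q.ω x n = 0)
    (l : List (Bool × ℤ × Λ)) (hl : ∀ x ∈ l, 1 ≤ δ x.2.2 ∧ x.2.2 ∈ P) :
    (dl φ (wp Q δ l)).co n = (l.map fun x => (dl φ (wf Q δ x)).co n).sum := by
  induction l with
  | nil => rw [wp_nil, (c.dl δ).one]; simp
  | cons x l ih =>
    have hl' : ∀ y ∈ l, 1 ≤ δ y.2.2 ∧ y.2.2 ∈ P := fun y hy => hl y (List.mem_cons_of_mem _ hy)
    rw [wp_cons, dl_mul_co c φ n _ _ ((c.ser δ).wp_mem l P hl') hP, ih hl', List.map_cons,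
      List.sum_cons]

theorem drop (c : Core Q) (D : ℤ) (l : List (Bool × ℤ × Λ)) (hl : ∀ x ∈ l, 1 ≤ δ x.2.2) :
    Eqv (fun x => δ x ≤ D) (wp Q δ l : NS Q δ)
      (wp Q δ (l.filter fun x => decide (δ x.2.2 ≤ D)) : (NS Q δ)ˣ) := by
  induction l with
  | nil => exact fun _ _ => rfl
  | cons x l ih =>
    have hl' : ∀ y ∈ l, 1 ≤ δ y.2.2 := fun y hy => hl y (List.mem_cons_of_mem _ hy)
    have hx := hl x List.mem_cons_self
    have m1 := (c.ser δ).mem x hx ⊤ trivial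
    have m2 := (c.ser δ).wp_mem l ⊤ fun y hy => ⟨hl' y hy, trivial⟩
    have m3 := (c.ser δ).wp_mem (l.filter fun x => decide (δ x.2.2 ≤ D)) ⊤
      fun y hy => ⟨hl' y (List.mem_of_mem_filter hy), trivial⟩
    by_cases h : δ x.2.2 ≤ D
    · rw [List.filter_cons_of_pos (by simpa using h), wp_cons, wp_cons, Units.val_mul,
        Units.val_mul]
      exact (c.grp δ).eqv_mul ⊤ _ (low_le ⊤ D) _ _ _ _ m1.2 m1.2 m2.2 m3.2 (fun _ _ => rfl) (ih hl')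
    · rw [List.filter_cons_of_neg (by simpa using h), wp_cons, Units.val_mul]
      have e : Eqv (fun x => δ x ≤ D) (wf Q δ x : NS Q δ) ((1 : (NS Q δ)ˣ) : NS Q δ) := by
        refine eqv_one ((c.ser δ).mem x hx (AddSubmonoid.multiples x.2.2)
          (AddSubmonoid.mem_multiples _)) ?_
        rintro _ ⟨k, rfl⟩ h1 h2
        simp only [map_nsmul, nsmul_eq_mul] at h1 h2
        have hk : (1 : ℤ) ≤ k := by
          rcases Nat.eq_zero_or_pos k with e | e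
          · rw [e] at h1; simp at h1
          · exact_mod_cast e
        nlinarith
      have := (c.grp δ).eqv_mul ⊤ _ (low_le ⊤ D) _ _ _ _ m1.2 (GG Q δ ⊤).one_mem.2 m2.2 m3.2 e
        (ih hl')
      rwa [Units.val_one, one_mul] at this

theorem lo_neg (c : Core Q) {y : (NS Q δ)ˣ} (hy : y ∈ GG Q δ ⊤) : lo (Cut.of (-rl δ)) y = y := by
  have h1 : y ∈ GG Q δ (Cut.of (-rl δ)).Neg := ⟨hy.1, hy.2.mono fun x hx => ⟨by
    rcases hx.2 with e | e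
    · exact Or.inl e
    · refine Or.inr ?_
      have : (1 : ℝ) ≤ δ x := by exact_mod_cast e
      simp only [Cut.of_N, AddMonoidHom.neg_apply, rl_apply]
      linarith, hx.2⟩⟩
  have := (c.grp δ).lo_eq (Cut.of (-rl δ)) y h1 1 (GG Q δ _).one_mem
  rwa [mul_one] at this

theorem lo_pos (c : Core Q) {y : (NS Q δ)ˣ} (hy : y ∈ GG Q δ ⊤) : lo (Cut.of (rl δ)) y = 1 := by
  have h1 : y ∈ GG Q δ (Cut.of (rl δ)).NN := ⟨hy.1, hy.2.mono fun x hx => ⟨by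
    change ¬((δ x : ℝ) < 0)
    rw [not_lt]
    rcases hx.2 with e | e
    · simp [e]
    · have : (1 : ℝ) ≤ δ x := by exact_mod_cast e
      linarith, hx.2⟩⟩
  have := (c.grp δ).lo_eq (Cut.of (rl δ)) 1 (GG Q δ _).one_mem y h1
  rwa [one_mul] at this

/-- the list of walls that describes the middle factor up to level `D` -/
def qq (s : Finset Λ) (g : (NS Q δ)ˣ) (D : ℤ) (σ : Cut Λ) : Prop :=
  ∃ l : List (Bool × ℤ × Λ), (∀ x ∈ l, 1 ≤ δ x.2.2 ∧ δ x.2.2 ≤ D ∧ (¬σ.N x.2.2 ∧ ¬σ.P x.2.2) ∧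
      x.2.2 ∈ PS s) ∧
    Eqv (fun x => δ x ≤ D) (mid σ g : NS Q δ) (wp Q δ l : (NS Q δ)ˣ)

theorem qq_congr (c : Core Q) {s : Finset Λ} {g : (NS Q δ)ˣ} (hg : g ∈ GG Q δ (PS s)) (D : ℤ)
    (σ τ : Cut Λ) (h : ∀ n ∈ {x | x ∈ PS s ∧ δ x ≤ D}, (σ.N n ↔ τ.N n) ∧ (σ.P n ↔ τ.P n))
    (hq : qq s g D σ) : qq s g D τ := by
  obtain ⟨l, h1, h2⟩ := hq
  refine ⟨l, fun x hx => ?_, eqv_trans (eqv_symm ?_) h2⟩
  · obtain ⟨a1, a2, a3, a4⟩ := h1 x hx
    have := h x.2.2 ⟨a4, a2⟩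
    exact ⟨a1, a2, by rw [← this.1, ← this.2]; exact a3, a4⟩
  · exact (c.grp δ).mid_congr (PS s) _ (low_le _ D) σ τ (fun x hx hU => h x ⟨hx.1, hU⟩) g hg g hg
      fun _ _ => rfl

/-- the end of the flow: the attractor chamber -/
theorem qq_end (c : Core Q) {s : Finset Λ} {g : (NS Q δ)ˣ} (hs : Seed δ s) (hg : AT s g) (D : ℤ)
    (n0 : Λ) (h0 : 1 ≤ δ n0) (θ : Λ →+ ℝ) (hθ0 : θ n0 = 0)
    (hθ : ∀ x ∈ PS s, δ x ≤ D → θ x = 0 → Par n0 x) :
    qq s g D (Cut.lex (Cut.of (Q.Av n0)) (Cut.of θ)) := by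
  classical
  set F := s.filter fun e => δ e ≤ D ∧ Par n0 e with hF
  set l : List (Bool × ℤ × Λ) := F.toList.map fun e => (false, 0, e) with hl
  have hA0 : Q.Av n0 n0 = 0 := by simp [Q.skew]
  have hmem : ∀ x ∈ l, x.2.2 ∈ s ∧ δ x.2.2 ≤ D ∧ Par n0 x.2.2 := by
    intro x hx
    obtain ⟨e, he, rfl⟩ := List.mem_map.1 hx
    exact mem_filter.1 (mem_toList.1 he)
  have hsub : ∀ e ∈ s, e ∈ PS s := fun e he => AddSubmonoid.subset_closure he
  refine ⟨l, fun x hx => ?_, ?_⟩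
  · obtain ⟨a1, a2, a3⟩ := hmem x hx
    exact ⟨hs _ a1, a2, (lex_zero _ _ _).2 ⟨a3 _ hA0, a3 _ hθ0⟩, hsub _ a1⟩
  rw [((c.grp δ).lex _ _ g (GG_mono le_top hg.1)).2]
  obtain ⟨-, hh, -, -⟩ := (c.grp δ).fac _ (Cut.of (Q.Av n0)) g hg.1
  set h := mid (Cut.of (Q.Av n0)) g with hhdef
  obtain ⟨ha, hy, hb, hf⟩ := (c.grp δ).fac _ (Cut.of θ) h hh
  have hw : wp Q δ l ∈ GG Q δ (PS s ⊓ ParM n0) := (c.ser δ).wp_mem l _ fun x hx =>
    ⟨hs _ (hmem x hx).1, hsub _ (hmem x hx).1, (hmem x hx).2.2⟩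
  refine (c.dl δ).uniq ⊤ _ (low_le ⊤ D) _ (GG_mono le_top hy) _ (GG_mono le_top hw) fun n hn => ?_
  by_cases hc : n ∈ PS s ∧ 1 ≤ δ n ∧ Par n0 n
  swap
  · have e1 : (dl δ (mid (Cut.of θ) h)).co n = 0 := by
      by_contra hne
      obtain ⟨⟨⟨⟨b1, -⟩, b2⟩, b3⟩, b4⟩ := (c.dl δ).sup _ δ _ hy n hne
      exact hc ⟨b1, b3.resolve_left b4, hθ n b1 hn ((mem_zer _ _).1 b2)⟩
    have e2 : (dl δ (wp Q δ l)).co n = 0 := by
      by_contra hne
      obtain ⟨⟨⟨b1, b2⟩, b3⟩, b4⟩ := (c.dl δ).sup _ δ _ hw n hne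
      exact hc ⟨b1, b3.resolve_left b4, b2⟩
    rw [e1, e2]
  obtain ⟨hn1, hn2, hn3⟩ := hc
  have p0 : (0 : ℝ) < δ n0 := by exact_mod_cast (by omega : 0 < δ n0)
  have pn : (0 : ℝ) < δ n := by exact_mod_cast (by omega : 0 < δ n)
  have hid : ∀ x, (δ n0 : ℝ) * Q.ω x n = δ n * Q.ω x n0 := fun x => par_id δ hn3 (rl (Q.ω x))
  have hcut : Cut.of (Q.Av n) = Cut.of (Q.Av n0) := by
    refine cut_ext (fun x => ?_) fun x => ?_
    · simp only [Cut.of_N, QD.Av_apply]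
      have := hid x
      constructor <;> intro h' <;> nlinarith
    · simp only [Cut.of_P, QD.Av_apply]
      have := hid x
      constructor <;> intro h' <;> nlinarith
  have hz : ∀ x, Q.Av n0 x = 0 → Q.ω x n = 0 := by
    intro x hx
    have := hid x
    rw [QD.Av_apply] at hx
    rw [hx, mul_zero] at this
    exact_mod_cast (mul_eq_zero.1 this).resolve_left p0.ne'
  have hθn : θ n = 0 := hn3 _ hθ0
  have e1 : (dl δ h).co n = (dl δ (mid (Cut.of θ) h)).co n := by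
    have ea : (dl δ (lo (Cut.of θ) h)).co n = 0 := by
      by_contra hne
      obtain ⟨⟨⟨-, b2⟩, -⟩, b4⟩ := (c.dl δ).sup _ δ _ ha n hne
      have := b2.resolve_left b4
      rw [Cut.of_N, hθn] at this
      exact lt_irrefl _ this
    have eb : (dl δ (hi (Cut.of θ) h)).co n = 0 := by
      by_contra hne
      obtain ⟨⟨⟨-, b2⟩, -⟩, b4⟩ := (c.dl δ).sup _ δ _ hb n hne
      have := b2.resolve_left b4
      rw [Cut.of_P, hθn] at this
      exact lt_irrefl _ this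
    conv_lhs => rw [hf]
    rw [dl_mul_co c δ n _ _ hb fun x hx => hz x ((mem_zer _ _).1 hx.1.2),
      dl_mul_co c δ n _ _ hy fun x hx => hz x ((mem_zer _ _).1 hx.1.2), ea, eb, zero_add, add_zero]
  rw [← e1, hhdef, ← hcut, hg.2 δ n, dl_wp c δ n (ParM n0) (fun x hx => hz x (hx _ hA0)) l
    fun x hx => ⟨hs _ (hmem x hx).1, (hmem x hx).2.2⟩, hl, List.map_map, sum_map_toList, hF]
  refine (sum_filter_of_ne fun e he hne => ?_).symm
  obtain ⟨⟨⟨k, hk⟩, -⟩, b4⟩ := (c.dl δ).sup (AddSubmonoid.multiples e) δ _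
    ((c.ser δ).mem (false, 0, e) (hs e he) _ (AddSubmonoid.mem_multiples _)) n hne
  simp only at hk
  have hk0 : 0 < k := Nat.pos_of_ne_zero fun e0 => b4 (by rw [← hk, e0, zero_nsmul])
  refine ⟨?_, fun φ hφ => ?_⟩
  · have h1 : δ n = k * δ e := by rw [← hk, map_nsmul, nsmul_eq_mul]
    have h2 := hs e he
    have h3 : (1 : ℤ) ≤ k := by exact_mod_cast hk0
    nlinarith
  · have := hn3 φ hφ
    rw [← hk, map_nsmul, nsmul_eq_mul] at this
    exact (mul_eq_zero.1 this).resolve_left (by exact_mod_cast hk0.ne')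

/-- the form is determined by `n0` on a pair -/
def Idn (Q : QD Λ K) (δ : Λ →+ ℤ) (n0 a b : Λ) : Prop :=
  Q.ω a b * δ n0 = δ a * Q.ω n0 b - δ b * Q.ω n0 a

theorem idn_symm {n0 a b : Λ} (h : Idn Q δ n0 a b) : Idn Q δ n0 b a := by
  unfold Idn at h ⊢
  rw [Q.anti b a]
  linarith

/-- the test vector -/
def tv (Q : QD Λ K) (n0 a b : Λ) : Λ := Q.ω b n0 • a - Q.ω a n0 • b

theorem tv_apply (n0 a b : Λ) (φ : Λ →+ ℝ) :
    φ (tv Q n0 a b) = Q.ω b n0 * φ a - Q.ω a n0 * φ b := by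
  simp [tv]

theorem idn_of_ne {n0 a b : Λ} (h : Par n0 (tv Q n0 a b)) (ha : Q.ω a n0 ≠ 0) :
    Idn Q δ n0 a b := by
  have h1 := h ((δ n0 : ℝ) • rl (Q.ω a) - (δ a : ℝ) • rl (Q.ω n0) + (Q.ω n0 a : ℝ) • rl δ) (by
    simp only [AddMonoidHom.add_apply, AddMonoidHom.sub_apply, AddMonoidHom.smul_apply,
      smul_eq_mul, rl_apply, Q.skew, Q.anti a n0]
    push_cast
    ring)
  rw [tv_apply] at h1
  simp only [AddMonoidHom.add_apply, AddMonoidHom.sub_apply, AddMonoidHom.smul_apply,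
    smul_eq_mul, rl_apply, Q.skew] at h1
  have h2 : (Q.ω a n0 : ℝ) * (δ n0 * Q.ω a b - δ a * Q.ω n0 b + Q.ω n0 a * δ b) = 0 := by
    push_cast at h1
    linear_combination -h1
  have h3 := (mul_eq_zero.1 h2).resolve_left (by exact_mod_cast ha)
  unfold Idn
  have h4 : δ n0 * Q.ω a b - δ a * Q.ω n0 b + Q.ω n0 a * δ b = 0 := by exact_mod_cast h3
  linarith

theorem idn_closure {n0 : Λ} {T : Set Λ} (h : ∀ a ∈ T, ∀ b ∈ T, Idn Q δ n0 a b) :
    ∀ a ∈ AddSubmonoid.closure T, ∀ b ∈ AddSubmonoid.closure T, Idn Q δ n0 a b := by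
  have h1 : ∀ a, (∀ b ∈ T, Idn Q δ n0 a b) → ∀ b ∈ AddSubmonoid.closure T, Idn Q δ n0 a b := by
    intro a ha b hb
    induction hb using AddSubmonoid.closure_induction with
    | mem b hb => exact ha b hb
    | zero => simp [Idn]
    | add b b' _ _ e e' =>
      unfold Idn at e e' ⊢
      simp only [map_add]
      linarith
  intro a ha b hb
  exact h1 a (fun b hb => idn_symm (h1 b (fun a ha => h b hb a ha) a ha)) b hb

/-- the truncation used in the local flow -/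
def UU (Q : QD Λ K) (δ : Λ →+ ℤ) (n0 : Λ) (D : ℤ) (x : Λ) : Prop :=
  δ x < D ∨ (δ x = D ∧ Q.ω n0 x = 0)

theorem low_UU (P : AddSubmonoid Λ) (n0 : Λ) (D : ℤ) : Low δ P (UU Q δ n0 D) := by
  intro x _ y hy h
  rcases hy.2 with e | e
  · rwa [e, add_zero] at h
  · unfold UU at h ⊢
    rw [map_add] at h
    omega

theorem UU_le {n0 : Λ} {D : ℤ} {x : Λ} (h : UU Q δ n0 D x) : δ x ≤ D := by
  unfold UU at h
  omega

/-- ordered product description of the lower factor -/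
def ql (P : AddSubmonoid Λ) (J : (NS Q δ)ˣ) (n0 : Λ) (D : ℤ) (σ : Cut Λ) : Prop :=
  ∃ l : List (Bool × ℤ × Λ), (∀ x ∈ l, 1 ≤ δ x.2.2 ∧ δ x.2.2 ≤ D ∧ σ.N x.2.2 ∧ x.2.2 ∈ P) ∧
    l.Pairwise (fun x y => Q.ω x.2.2 y.2.2 ≤ 0) ∧
    Eqv (UU Q δ n0 D) (lo σ J : NS Q δ) (wp Q δ l : (NS Q δ)ˣ)

/-- the local flow: `J` is an ordered product of walls -/
theorem local_flow (c : Core Q) (P : AddSubmonoid Λ) (J : (NS Q δ)ˣ) (hJ : J ∈ GG Q δ P) (n0 : Λ)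
    (h0 : 1 ≤ δ n0) (D : ℤ) (hfin : {x | x ∈ P ∧ δ x ≤ D}.Finite)
    (hid : ∀ a ∈ P, δ a ≤ D → ∀ b ∈ P, δ b ≤ D → Idn Q δ n0 a b)
    (hmid : ∀ μ : ℝ, ∃ l : List (Bool × ℤ × Λ), (∀ x ∈ l, 1 ≤ δ x.2.2 ∧ δ x.2.2 ≤ D ∧
      (Q.Av n0 + μ • rl δ) x.2.2 = 0 ∧ x.2.2 ∈ P) ∧
      Eqv (UU Q δ n0 D) (mid (Cut.of (Q.Av n0 + μ • rl δ)) J : NS Q δ) (wp Q δ l : (NS Q δ)ˣ)) :
    ∃ l : List (Bool × ℤ × Λ), (∀ x ∈ l, 1 ≤ δ x.2.2 ∧ δ x.2.2 ≤ D ∧ x.2.2 ∈ P) ∧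
      l.Pairwise (fun x y => Q.ω x.2.2 y.2.2 ≤ 0) ∧
      Eqv (UU Q δ n0 D) (J : NS Q δ) (wp Q δ l : (NS Q δ)ˣ) := by
  obtain ⟨C, hC⟩ := (hfin.image (Q.Av n0)).bddAbove
  set C' : ℝ := max C 0 + 1 with hC'
  have hJ' : J ∈ GG Q δ ⊤ := GG_mono le_top hJ
  have p0 : (0 : ℝ) < δ n0 := by exact_mod_cast (by omega : 0 < δ n0)
  have key := c.geo.flow _ hfin (Q.Av n0 - C' • rl δ) (rl δ) (ql P J n0 D) ?_ ?_ ?_
  · obtain ⟨l, h1, h2, h3⟩ := key
    refine ⟨l, fun x hx => ⟨(h1 x hx).1, (h1 x hx).2.1, (h1 x hx).2.2.2⟩, h2,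
      eqv_trans (eqv_symm ?_) h3⟩
    have := (c.grp δ).lo_congr P _ (low_UU (Q := Q) P n0 D)
      (Cut.lex (Cut.of (Q.Av n0 - C' • rl δ)) (Cut.of (-rl δ))) (Cut.of (-rl δ)) ?_ J hJ J hJ
      fun _ _ => rfl
    · rwa [lo_neg c hJ'] at this
    · intro x hx hU
      rcases hx.2 with e | e
      · rw [e]
        exact iff_of_false (Cut.N0 _) (Cut.N0 _)
      · have a1 : (1 : ℝ) ≤ δ x := by exact_mod_cast e
        have a2 : Q.Av n0 x ≤ C := hC ⟨x, ⟨hx.1, UU_le hU⟩, rfl⟩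
        have a3 : C ≤ max C 0 := le_max_left _ _
        have a4 : 0 ≤ max C 0 := le_max_right _ _
        refine iff_of_true (Or.inl ?_) ?_
        · simp only [Cut.of_N, AddMonoidHom.sub_apply, AddMonoidHom.smul_apply, smul_eq_mul,
            rl_apply]
          nlinarith
        · simp only [Cut.of_N, AddMonoidHom.neg_apply, rl_apply]
          linarith
  · rintro σ τ h ⟨l, h1, h2, h3⟩
    refine ⟨l, fun x hx => ?_, h2, eqv_trans (eqv_symm ?_) h3⟩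
    · obtain ⟨a1, a2, a3, a4⟩ := h1 x hx
      exact ⟨a1, a2, (h _ ⟨a4, a2⟩).1.1 a3, a4⟩
    · exact (c.grp δ).lo_congr P _ (low_UU P n0 D) σ τ
        (fun x hx hU => (h x ⟨hx.1, UU_le hU⟩).1) J hJ J hJ fun _ _ => rfl
  · refine ⟨[], by simp, List.Pairwise.nil, ?_⟩
    refine eqv_one ((c.grp δ).fac P _ J hJ).1 fun x hx h1 _ => ?_
    have a1 : (1 : ℝ) ≤ δ x := by exact_mod_cast h1
    rcases hx.2 with e | e
    · rw [e, map_zero] at h1; omega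
    · simp only [Cut.lex_N, Cut.of_N, Cut.of_P, rl_apply] at e
      rcases e with e | e
      · linarith
      · exact e.1 (by linarith)
  · rintro t - ⟨l, h1, h2, h3⟩
    have eφ : Q.Av n0 - C' • rl δ + t • rl δ = Q.Av n0 + (t - C') • rl δ := by
      rw [sub_smul]; abel
    rw [eφ] at h1 h3 ⊢
    obtain ⟨l', k1, k2⟩ := hmid (t - C')
    generalize t - C' = μ at h1 h3 k1 k2 ⊢
    obtain ⟨ha, hy, -, -⟩ := (c.grp δ).fac P (Cut.of (Q.Av n0 + μ • rl δ)) J hJ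
    rw [((c.grp δ).lex _ _ J hJ').1, lo_pos c (GG_mono le_top hy), mul_one] at h3
    have hneg : ∀ x ∈ l, (Q.Av n0 + μ • rl δ) x.2.2 < 0 := by
      intro x hx
      obtain ⟨a1, -, a3, -⟩ := h1 x hx
      have a1' : (1 : ℝ) ≤ δ x.2.2 := by exact_mod_cast a1
      rcases a3 with e | e
      · exact e
      · have := e.2
        simp only [Cut.of_N, rl_apply] at this
        linarith
    have hom : ∀ a ∈ P, δ a ≤ D → ∀ b ∈ P, δ b ≤ D → 1 ≤ δ b → (Q.Av n0 + μ • rl δ) a ≤ 0 →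
        (Q.Av n0 + μ • rl δ) b = 0 → Q.ω a b ≤ 0 := by
      intro a a1 a2 b b1 b2 b3 e1 e2
      have e3 := hid a a1 a2 b b1 b2
      unfold Idn at e3
      rw [Q.anti n0 a, Q.anti n0 b] at e3
      have e4 : (Q.ω a b : ℝ) * δ n0 = δ a * -Q.ω b n0 - δ b * -Q.ω a n0 := by exact_mod_cast e3
      simp only [AddMonoidHom.add_apply, AddMonoidHom.smul_apply, smul_eq_mul, rl_apply,
        QD.Av_apply] at e1 e2
      have b4 : (1 : ℝ) ≤ δ b := by exact_mod_cast b3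
      have e5 : (Q.ω a b : ℝ) * δ n0 = δ b * (Q.ω a n0 + μ * δ a) := by
        linear_combination e4 - (δ a : ℝ) * e2
      have e6 : (Q.ω a b : ℝ) * δ n0 ≤ 0 := by
        rw [e5]; exact mul_nonpos_of_nonneg_of_nonpos (by linarith) e1
      have e7 : (Q.ω a b : ℝ) ≤ 0 := by
        by_contra hh
        have := mul_pos (not_le.1 hh) p0
        linarith
      exact_mod_cast e7
    refine ⟨l ++ l', fun x hx => ?_, ?_, ?_⟩
    · rcases List.mem_append.1 hx with hx | hx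
      · exact ⟨(h1 x hx).1, (h1 x hx).2.1, Or.inl (hneg x hx), (h1 x hx).2.2.2⟩
      · obtain ⟨a1, a2, a3, a4⟩ := k1 x hx
        have a1' : (1 : ℝ) ≤ δ x.2.2 := by exact_mod_cast a1
        refine ⟨a1, a2, Or.inr ⟨?_, ?_⟩, a4⟩
        · rw [Cut.of_P, a3]; exact lt_irrefl _
        · simp only [Cut.of_N, AddMonoidHom.neg_apply, rl_apply]
          linarith
    · refine List.pairwise_append.2 ⟨h2, List.pairwise_of_forall_mem_list fun x hx y hy => ?_,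
        fun x hx y hy => ?_⟩
      · exact hom _ (k1 x hx).2.2.2 (k1 x hx).2.1 _ (k1 y hy).2.2.2 (k1 y hy).2.1 (k1 y hy).1
          (k1 x hx).2.2.1.le (k1 y hy).2.2.1
      · exact hom _ (h1 x hx).2.2.2 (h1 x hx).2.1 _ (k1 y hy).2.2.2 (k1 y hy).2.1 (k1 y hy).1
          (hneg x hx).le (k1 y hy).2.2.1
    · rw [((c.grp δ).lex _ _ J hJ').1, lo_neg c (GG_mono le_top hy), wp_append, Units.val_mul,
        Units.val_mul]
      exact (c.grp δ).eqv_mul P _ (low_UU P n0 D) _ _ _ _ (GG_mono inf_le_left ha).2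
        ((c.ser δ).wp_mem l P fun x hx => ⟨(h1 x hx).1, (h1 x hx).2.2.2⟩).2
        (GG_mono inf_le_left hy).2
        ((c.ser δ).wp_mem l' P fun x hx => ⟨(k1 x hx).1, (k1 x hx).2.2.2⟩).2 h3 k2

/-- the statement at level `D` -/
def WD (s : Finset Λ) (g : (NS Q δ)ˣ) (D : ℤ) : Prop :=
  ∀ θ : Λ →+ ℝ, (∀ n ∈ PS s, ∀ n' ∈ PS s, 1 ≤ δ n → δ n ≤ D → δ n' ≤ D →
    θ n = 0 → θ n' = 0 → Par n n') → qq s g D (Cut.of θ)

/-- crossing a joint -/
theorem qq_step (c : Core Q) (dt : S_DT Q δ) {s : Finset Λ} {g : (NS Q δ)ˣ} (hs : Seed δ s)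
    (hg : g ∈ GG Q δ (PS s)) (D : ℤ) (hD : 1 ≤ D) (ih : WD s g (D - 1)) (n0 : Λ) (h0 : 1 ≤ δ n0)
    (θ : Λ →+ ℝ) (h1 : ∀ x ∈ PS s, δ x ≤ D → θ x = 0 → Q.ω x n0 = 0 → Par n0 x)
    (h2 : ∀ a ∈ PS s, δ a ≤ D → ∀ b ∈ PS s, δ b ≤ D → θ a = 0 → θ b = 0 → Par n0 (tv Q n0 a b))
    (hq : qq s g D (Cut.lex (Cut.of θ) (Cut.of (Q.Av n0)))) :
    qq s g D (Cut.lex (Cut.of θ) (Cut.of (-Q.Av n0))) := by
  have hfin := (c.geo.level δ s s.finite_toSet hs).2 D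
  have hg' : g ∈ GG Q δ ⊤ := GG_mono le_top hg
  obtain ⟨-, hJ, -, -⟩ := (c.grp δ).fac _ (Cut.of θ) g hg
  set J := mid (Cut.of θ) g with hJdef
  set P := PS s ⊓ (Cut.of θ).Zer with hP
  have p0 : (0 : ℝ) < δ n0 := by exact_mod_cast (by omega : 0 < δ n0)
  have hid : ∀ a ∈ P, δ a ≤ D → ∀ b ∈ P, δ b ≤ D → Idn Q δ n0 a b := by
    intro a ha a2 b hb b2
    have a3 := (mem_zer _ _).1 ha.2
    have b3 := (mem_zer _ _).1 hb.2
    by_cases e1 : Q.ω a n0 = 0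
    · by_cases e2 : Q.ω b n0 = 0
      · have e3 := h1 b hb.1 b2 b3 e2 (rl (Q.ω a)) (by simp [e1])
        have e4 : Q.ω a b = 0 := by
          rw [rl_apply] at e3
          exact_mod_cast e3
        unfold Idn
        rw [Q.anti n0 a, Q.anti n0 b, e1, e2, e4]
        simp
      · exact idn_symm (idn_of_ne (h2 b hb.1 b2 a ha.1 a2 b3 a3) e2)
    · exact idn_of_ne (h2 a ha.1 a2 b hb.1 b2 a3 b3) e1
  obtain ⟨l, k1, k2, k3⟩ := local_flow c P J hJ n0 h0 D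
    (hfin.subset fun x hx => ⟨hx.1.1, hx.2⟩) hid (by
    intro μ
    by_cases hμ : μ = 0
    · obtain ⟨l, a1, a2⟩ := hq
      rw [((c.grp δ).lex _ _ g hg').2] at a2
      rw [hμ, zero_smul, add_zero]
      refine ⟨l, fun x hx => ?_, eqv_mono a2 fun x => UU_le⟩
      obtain ⟨b1, b2, b3, b4⟩ := a1 x hx
      rw [lex_zero] at b3
      exact ⟨b1, b2, b3.2, b4, (mem_zer _ _).2 b3.1⟩
    · set φ := Q.Av n0 + μ • rl δ with hφ
      obtain ⟨ε, -, hε⟩ := c.geo.lexap _ hfin θ φ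
      have hz : ∀ x ∈ PS s, δ x ≤ D → (θ + ε • φ) x = 0 → θ x = 0 ∧ φ x = 0 := by
        intro x x1 x2 x3
        have := hε x ⟨x1, x2⟩
        rw [← lex_zero, ← this.1, ← this.2, x3]
        simp
      have hφx : ∀ x, φ x = Q.ω x n0 + μ * δ x := fun x => by simp [hφ]
      obtain ⟨l, a1, a2⟩ := ih (θ + ε • φ) (by
        intro a a1 b b1 a2 a3 b3 a4 b4 ψ hψ
        obtain ⟨a5, a6⟩ := hz a a1 (by omega) a4
        obtain ⟨b5, b6⟩ := hz b b1 (by omega) b4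
        have e1 := par_id δ (h2 a a1 (by omega) b b1 (by omega) a5 b5) ψ
        have e2 := tv_apply (Q := Q) n0 a b (rl δ)
        rw [rl_apply, rl_apply, rl_apply] at e2
        rw [hφx] at a6 b6
        have e3 : (δ (tv Q n0 a b) : ℝ) = 0 := by
          rw [e2]
          linear_combination (δ a : ℝ) * b6 - (δ b : ℝ) * a6
        rw [e3, zero_mul, tv_apply, hψ, mul_zero, zero_sub] at e1
        have e4 := (mul_eq_zero.1 e1).resolve_left p0.ne'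
        have e5 : (Q.ω a n0 : ℝ) ≠ 0 := by
          intro e
          rw [e, zero_add] at a6
          have : (1 : ℝ) ≤ δ a := by exact_mod_cast a2
          rcases mul_eq_zero.1 a6 with e' | e'
          · exact hμ e'
          · linarith
        exact (mul_eq_zero.1 (neg_eq_zero.1 e4)).resolve_left e5)
      have hl : ∀ x ∈ l, θ x.2.2 = 0 ∧ φ x.2.2 = 0 := fun x hx =>
        hz _ (a1 x hx).2.2.2 (by have := (a1 x hx).2.1; omega) ((mem_zer _ _).1 (a1 x hx).2.2.1)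
      refine ⟨l, fun x hx => ⟨(a1 x hx).1, by have := (a1 x hx).2.1; omega, (hl x hx).2,
        (a1 x hx).2.2.2, (mem_zer _ _).2 (hl x hx).1⟩, fun x hx => ?_⟩
      rcases hx with hx | hx
      · have e1 := (c.grp δ).mid_congr (PS s) _ (low_le _ D) (Cut.of (θ + ε • φ))
          (Cut.lex (Cut.of θ) (Cut.of φ)) (fun x hx hU => hε x ⟨hx.1, hU⟩) g hg g hg
          (fun _ _ => rfl) x hx.le
        rw [((c.grp δ).lex _ _ g hg').2] at e1
        rw [← a2 x (by omega), e1]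
      · have hne : φ x ≠ 0 := by
          rw [hφx, Q.anti x n0, hx.2, hx.1]
          have : (1 : ℝ) ≤ D := by exact_mod_cast hD
          simp only [neg_zero, Int.cast_zero, zero_add]
          exact mul_ne_zero hμ (by linarith)
        have e1 : (mid (Cut.of φ) J : NS Q δ).co x = 0 := by
          by_contra hh
          exact hne ((mem_zer _ _).1 (((c.grp δ).fac P (Cut.of φ) J hJ).2.1.2 x hh).1.2)
        have e2 : (wp Q δ l : NS Q δ).co x = 0 := by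
          by_contra hh
          exact hne ((mem_zer _ _).1 (((c.ser δ).wp_mem l (Cut.of φ).Zer fun y hy =>
            ⟨(a1 y hy).1, (mem_zer _ _).2 (hl y hy).2⟩).2 x hh).1)
        rw [e1, e2])
  have hcl : AddSubmonoid.closure {n | ∃ x ∈ l, n = x.2.2} ≤ P :=
    AddSubmonoid.closure_le.2 (by
      rintro _ ⟨x, hx, rfl⟩
      exact (k1 x hx).2.2)
  have hw := (c.ser δ).wp_mem l P fun x hx => ⟨(k1 x hx).1, (k1 x hx).2.2⟩
  obtain ⟨l', m1, m2⟩ := dt l (-Q.Av n0) D (fun x hx => (k1 x hx).1) k2 (by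
    intro a ha b hb ea eb
    have e := idn_closure (Q := Q) (δ := δ) (n0 := n0) (T := {n | ∃ x ∈ l, n = x.2.2}) (by
      rintro _ ⟨x, hx, rfl⟩ _ ⟨y, hy, rfl⟩
      exact hid _ (k1 x hx).2.2 (k1 x hx).2.1 _ (k1 y hy).2.2 (k1 y hy).2.1) a ha b hb
    unfold Idn at e
    simp only [AddMonoidHom.neg_apply, QD.Av_apply, neg_eq_zero, Int.cast_eq_zero] at ea eb
    rw [Q.anti n0 a, Q.anti n0 b, ea, eb] at e
    simp only [neg_zero, mul_zero, sub_self] at e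
    exact (mul_eq_zero.1 e).resolve_right (by omega))
  refine ⟨l'.filter fun x => decide (δ x.2.2 ≤ D), fun x hx => ?_, ?_⟩
  · obtain ⟨b1, b2⟩ := List.mem_filter.1 hx
    obtain ⟨b3, b4, b5⟩ := m1 x b1
    exact ⟨b3, by simpa using b2, (lex_zero _ _ _).2 ⟨(mem_zer _ _).1 (hcl b5).2, b4⟩, (hcl b5).1⟩
  rw [((c.grp δ).lex _ _ g hg').2]
  refine eqv_trans ?_ (eqv_trans m2 (drop c D l' fun x hx => (m1 x hx).1))
  intro x hx
  by_cases hU : UU Q δ n0 D x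
  · exact (c.grp δ).mid_congr P _ (low_UU P n0 D) _ _ (fun _ _ _ => ⟨Iff.rfl, Iff.rfl⟩) J hJ _ hw
      k3 x hU
  · have hne : (-Q.Av n0) x ≠ 0 := by
      intro e
      simp only [AddMonoidHom.neg_apply, QD.Av_apply, neg_eq_zero, Int.cast_eq_zero] at e
      unfold UU at hU
      rw [Q.anti n0 x, e] at hU
      omega
    have e1 : (mid (Cut.of (-Q.Av n0)) J : NS Q δ).co x = 0 := by
      by_contra hh
      exact hne ((mem_zer _ _).1 (((c.grp δ).fac P _ J hJ).2.1.2 x hh).1.2)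
    have e2 : (mid (Cut.of (-Q.Av n0)) (wp Q δ l) : NS Q δ).co x = 0 := by
      by_contra hh
      exact hne ((mem_zer _ _).1 (((c.grp δ).fac P _ _ hw).2.1.2 x hh).1.2)
    rw [e1, e2]

theorem qq_nil (c : Core Q) {s : Finset Λ} {g : (NS Q δ)ˣ} (hg : g ∈ GG Q δ (PS s)) (D : ℤ)
    (θ : Λ →+ ℝ) (h : ∀ x ∈ PS s, 1 ≤ δ x → δ x ≤ D → θ x ≠ 0) : qq s g D (Cut.of θ) :=
  ⟨[], by simp, eqv_one ((c.grp δ).fac _ _ g hg).2.1 fun x hx h1 h2 =>
    h x hx.1 h1 h2 ((mem_zer _ _).1 hx.2)⟩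

theorem wd_succ (c : Core Q) (dt : S_DT Q δ) {s : Finset Λ} {g : (NS Q δ)ˣ} (hs : Seed δ s)
    (hg : AT s g) (D : ℤ) (hD : 1 ≤ D) (ih : WD s g (D - 1)) : WD s g D := by
  intro θ hθ
  by_cases hex : ∀ x ∈ PS s, 1 ≤ δ x → δ x ≤ D → θ x ≠ 0
  · exact qq_nil c hg.1 D θ hex
  push Not at hex
  obtain ⟨n0, n1, n2, n3, n4⟩ := hex
  have hfin := (c.geo.level δ s s.finite_toSet hs).2 D
  obtain ⟨θ', t1, t2, t3⟩ := c.geo.gen _ _ hfin
    (hfin.union ((hfin.prod hfin).image fun p => tv Q n0 p.1 p.2)) n0 θ n4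
  have hA0 : Q.Av n0 n0 = 0 := by simp [Q.skew]
  refine qq_congr c hg.1 D _ _ ?_ (c.geo.flow _ hfin θ' (Q.Av n0) (qq s g D)
    (qq_congr c hg.1 D) (qq_end c hs hg D n0 n2 θ' t1 fun x x1 x2 => t3 x (Or.inl ⟨x1, x2⟩))
    fun t _ => qq_step c dt hs hg.1 D hD ih n0 n2 _ ?_ ?_)
  · intro x hx
    simp only [Cut.lex_N, Cut.lex_P, Cut.of_N, Cut.of_P, AddMonoidHom.neg_apply]
    rcases lt_trichotomy (θ x) 0 with e | e | e
    · have := (t2 x hx).1 e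
      exact ⟨iff_of_true (Or.inl this) e, iff_of_false (by
        rintro (e' | e')
        · linarith
        · exact e'.1 this) (not_lt.2 e.le)⟩
    · have hp := hθ n0 n1 x hx.1 n2 n3 hx.2 n4 e
      rw [hp _ t1, hp _ hA0, e]
      simp
    · have := (t2 x hx).2 e
      exact ⟨iff_of_false (by
        rintro (e' | e')
        · linarith
        · exact e'.1 this) (not_lt.2 e.le), iff_of_true (Or.inl this) e⟩
  · intro x x1 x2 x3 x4
    refine t3 x (Or.inl ⟨x1, x2⟩) ?_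
    simpa [x4] using x3
  · intro a a1 a2 b b1 b2 a3 b3
    refine t3 _ (Or.inr ⟨(a, b), ⟨⟨a1, a2⟩, b1, b2⟩, rfl⟩) ?_
    simp only [AddMonoidHom.add_apply, AddMonoidHom.smul_apply, smul_eq_mul,
      QD.Av_apply] at a3 b3
    rw [tv_apply]
    linear_combination (Q.ω b n0 : ℝ) * a3 - (Q.ω a n0 : ℝ) * b3

end WpA

theorem t_wp : T_WP := by
  intro Λ K _ _ Q δ c dt s g hs hg D
  have key : WpA.WD s g (D : ℤ) := by
    induction D with
    | zero => exact fun θ _ => WpA.qq_nil c hg.1 _ θ fun x _ h1 h2 => by omega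
    | succ D ih =>
      refine WpA.wd_succ c dt hs hg _ (by omega) ?_
      rwa [Nat.cast_succ, add_sub_cancel_right]
  intro θ hθ
  obtain ⟨l, h1, h2⟩ := key θ hθ
  exact ⟨l, fun x hx => ⟨(h1 x hx).1, (h1 x hx).2.1, (WpA.mem_zer _ _).1 (h1 x hx).2.2.1,
    (h1 x hx).2.2.2⟩, h2⟩

end Pool.Agent.P.MP_389f6f_co.Qt
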