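import Pool.Agent.P.MP_389f6f_co.SAll
import Pool.Agent.P.MP_389f6f_co.QGeo
import Pool.Agent.P.MP_389f6f_co.QGrp
import Pool.Agent.P.MP_389f6f_co.QDl
import Pool.Agent.P.MP_389f6f_co.QSer
import Pool.Agent.P.MP_389f6f_co.QTr
import Pool.Agent.P.MP_389f6f_co.QAt
import Pool.Agent.P.MP_389f6f_co.QDt
import Pool.Agent.P.MP_389f6f_co.QWp
import Pool.Agent.P.MP_389f6f_co.QBl
import Pool.Agent.P.MP_389f6f_co.QMi
import Pool.Agent.P.MP_389f6f_co.QIp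
import Pool.Agent.P.MP_389f6f_co.QExp
import Pool.Agent.P.MP_389f6f_co.QF1
import Pool.Agent.P.MP_389f6f_co.QTb
import Pool.Agent.P.MP_389f6f_co.QTau
import Pool.Agent.P.MP_389f6f_co.QMain
import Pool.Agent.P.MP_389f6f_co.QModel
import Pool.Agent.P.MP_389f6f_co.QEmb
import Pool.Agent.P.MP_389f6f_co.QGlue

set_option autoImplicit false

namespace Pool.Agent.P.MP_389f6f_co.Qt

theorem bundle (Λ K : Type) [AddCommGroup Λ] [CommRing K] (Q : QD Λ K) :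
    S_EXP Q ∧ ∀ (p : ℕ) (T : Td Q p), T.S_TB ∧ T.S_MAIN := by
  refine ⟨t_exp Λ K Q, fun p T => ⟨t_tb Λ K Q p T, ?_⟩⟩
  have h1 := t_grp Λ K Q
  have h2 := fun δ => t_ser Λ K Q δ Sp.t_gf.1 (h1 δ)
  have c : Core Q := ⟨t_geo Λ, h1, fun δ => t_dl Λ K Q δ (h1 δ), h2, t_tr Λ K Q h1 h2⟩
  have h3 := t_at Λ K Q c
  have h4 := t_mi Λ K Q c h3
  have h5 := fun δ => t_bl Λ K Q δ c
    (t_wp Λ K Q δ c (t_dt Λ K Q δ Sp.t_gf.1 Sp.t_gf.2.2.1 Sp.spec c))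
  have h6 := t_ip Λ K Q c
  exact t_main Λ K Q p T c h3 h5 h6 (t_f1 Λ K Q c h3 h4 h5) (t_tb Λ K Q p T)
    (t_tau Λ K Q p T c h3 h4 h6 (t_tb Λ K Q p T))

theorem goal : S_GOAL := t_glue t_model t_emb bundle

end Pool.Agent.P.MP_389f6f_co.Qt
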