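import Pool.Agent.P.MP_389f6f_co.QGlue

/-! The same conclusion in any number of variables, with coefficients independent of it. -/

set_option autoImplicit false

namespace Pool.Agent.P.MP_389f6f_co.Qt
open Finset

namespace FullA

open Classical in
/-- the chromatic quasisymmetric function in `N` variables -/
noncomputable def csf (N n : ℕ) (I : Finset ℕ) (h : ℕ → ℕ) : MvPolynomial (Fin N) (Polynomial ℤ) :=
  ∑ γ ∈ (Finset.univ : Finset ({x // x ∈ insert n I} → Finset (Fin N))).filter
      (fun γ =>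
        (∀ v : {x // x ∈ insert n I},
          (γ v).card = (v : ℕ) - ((insert n I).filter (fun j => j < (v : ℕ))).sup id) ∧
        (∀ u v : {x // x ∈ insert n I},
          (u : ℕ) < (v : ℕ) → (v : ℕ) ≤ h (u : ℕ) → Disjoint (γ u) (γ v))),
    MvPolynomial.C
        ((Polynomial.X : Polynomial ℤ) ^
          (∑ u : {x // x ∈ insert n I}, ∑ v : {x // x ∈ insert n I},
            if (u : ℕ) < (v : ℕ) ∧ (v : ℕ) ≤ h (u : ℕ) then
              (((γ u) ×ˢ (γ v)).filter (fun p => p.1 < p.2)).card
            else 0)) *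
      ∏ v : {x // x ∈ insert n I}, ∏ a ∈ γ v,
        (MvPolynomial.X a : MvPolynomial (Fin N) (Polynomial ℤ))

noncomputable def es (N n : ℕ) (c : Nat.Partition n → Polynomial ℤ) :
    MvPolynomial (Fin N) (Polynomial ℤ) :=
  ∑ μ : Nat.Partition n, MvPolynomial.C (c μ) *
    (μ.parts.map (fun k => MvPolynomial.esymm (Fin N) (Polynomial ℤ) k)).prod

open GlueA in
theorem glueN (model : S_MODEL) (emb : S_EMB)
    (H : ∀ (Λ K : Type) [AddCommGroup Λ] [CommRing K] (Q : QD Λ K),
      S_EXP Q ∧ ∀ (p : ℕ) (T : Td Q p), T.S_TB ∧ T.S_MAIN) :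
    ∀ (N n : ℕ) (I : Finset ℕ) (h : ℕ → ℕ), (∀ i ∈ I, 1 ≤ i ∧ i < n) →
    (∀ i ∈ insert n I, ∀ j ∈ insert n I, i ≤ j → h i ≤ h j) →
    ∃ c : Nat.Partition n → Polynomial ℤ, (∀ μ k, 0 ≤ (c μ).coeff k) ∧
      csf N n I h = es N n c := by
  unfold csf es
  classical
  intro N n I h hI h2
  obtain ⟨p, x, hp, hx⟩ := emb (insert n I) h h2
  obtain ⟨Λ, _, Q, hQ, ⟨T⟩⟩ := model (KK N) (tt N) (io N) (io_X N) p hp
  obtain ⟨hexp, hT⟩ := H Λ (KK N) Q
  obtain ⟨tb, main⟩ := hT p T
  have htp : ∀ k, Q.tp k = MvPolynomial.C (HahnSeries.single k (1 : ℚ)) := fun k => by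
    rw [QD.tp, hQ, tt_zpow]
  let m := (insert n I).sup x
  have dual : ∀ v ∈ range (m * (p + 1) + 1), ∃ φ : Λ →+ ℤ, ∀ v' ∈ range (m * (p + 1) + 1),
      φ (T.u v') = @ite _ (v' = v) (Classical.propDecidable _) 1 0 := fun v _ =>
    (tb.lift ℤ fun v' => @ite _ (v' = v) (Classical.propDecidable _) 1 0).imp fun φ h v' _ => h v'
  have irr : ∀ a, ¬adjP p a a := fun a h => h.1 rfl
  have hL := main m 0 (List.ofFn fun i : Fin N => (MvPolynomial.X i : KK N)) (L0 N)
    (Mon' N).subsemiringClosure (fun k => htp k ▸ monomial_mem N 0 (single_mem k))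
    (fun k => htp k ▸ single_mem' N k)
    (fun y hy => by
      obtain ⟨i, rfl⟩ := List.mem_ofFn.1 hy
      exact monomial_mem N _ P0.one_mem) (L0_pointed N) (fun μ => by
      have e := hexp 0 ℕ (Fin (m + 1)) (range (m * (p + 1) + 1)) T.u (adjP p)
        (fun j => j * (p + 1)) (fun j => μ j) N MvPolynomial.X
        (fun i j e => Fin.ext (Nat.eq_of_mul_eq_mul_right (Nat.succ_pos p) e))
        (fun j => mem_range.2 (Nat.lt_succ_of_le
          (Nat.mul_le_mul_right _ (Nat.le_of_lt_succ j.2)))) irr dual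
      simp only [tb.uq, T.qq, zero_mul, sum_const_zero, QD.tp_zero, one_mul] at e
      rw [Td.F, ← Fin.sum_univ_eq_sum_range (fun j => μ j • T.q j), e]
      have e2 := prod_mem (S := (Mon' N).subsemiringClosure) (t := univ)
        fun (j : Fin (m + 1)) _ => esymm_mem N (μ j)
      simp only [MvPolynomial.esymm, prod_univ_sum] at e2
      refine (congrArg (· ∈ _) (sum_congr ?_ fun _ _ => rfl)).mp e2
      ext γ
      simp only [Fintype.mem_piFinset, mem_powersetCard, subset_univ, true_and, mem_filter,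
        mem_univ]
      refine ⟨fun h => ⟨h, fun u u' h' => ?_⟩, fun h => h.1⟩
      obtain ⟨a1, a2, a3⟩ := h'
      rcases lt_trichotomy (u : ℕ) u' with h' | h' | h'
      · have := Nat.mul_le_mul_right (p + 1) (Nat.succ_le_of_lt h')
        rw [Nat.succ_mul] at this
        omega
      · exact absurd (by rw [h']) a1
      · have := Nat.mul_le_mul_right (p + 1) (Nat.succ_le_of_lt h')
        rw [Nat.succ_mul] at this
        omega)
  refine epos_of_mem N (extract N ?_) ?_
  · let a : {x // x ∈ insert n I} → {x // x ∈ insert n I} → Prop :=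
      fun u v => (u : ℕ) < v ∧ (v : ℕ) ≤ h u
    let w : {x // x ∈ insert n I} → ℕ :=
      fun v => (v : ℕ) - ((insert n I).filter (fun j => j < (v : ℕ))).sup id
    have hω : ∀ u v : {x // x ∈ insert n I}, Q.ω (T.u (x u)) (T.u (x v)) =
        (if a u v then 1 else 0) - if a v u then 1 else 0 := by
      have key : ∀ u v : {x // x ∈ insert n I}, (u : ℕ) < v →
          Q.ω (T.u (x u)) (T.u (x v)) = if a u v then 1 else 0 := fun u v huv => by
        obtain ⟨b1, b2⟩ := hx u u.2 v v.2 huv
        rw [tb.om _ _ b1]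
        exact if_congr ⟨fun h => ⟨huv, b2.2 h⟩, fun h => b2.1 h.2⟩ rfl rfl
      intro u v
      rcases lt_trichotomy (u : ℕ) v with h' | h' | h'
      · rw [key u v h', if_neg (show ¬ a v u from fun h => h'.not_gt h.1), sub_zero]
      · rw [Subtype.ext h', Q.skew, sub_self]
      · rw [Q.anti, key v u h', if_neg (show ¬ a u v from fun h => h'.not_gt h.1), zero_sub]
    have hadj : ∀ u v : {x // x ∈ insert n I}, adjP p (x u) (x v) ↔ a u v ∨ a v u := by
      intro u v
      simp only [adjP, a]
      rcases lt_trichotomy (u : ℕ) v with h' | h' | h'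
      · have := hx u u.2 v v.2 h'
        omega
      · rw [h']
        omega
      · have := hx v v.2 u u.2 h'
        omega
    have e := hexp 0 ℕ {x // x ∈ insert n I} (range (m * (p + 1) + 1)) T.u (adjP p)
      (fun u => x u) w N MvPolynomial.X
      (fun u v e => by
        rcases lt_trichotomy (u : ℕ) v with h' | h' | h'
        · exact absurd e (hx u u.2 v v.2 h').1.ne
        · exact Subtype.ext h'
        · exact absurd e (hx v v.2 u u.2 h').1.ne')
      (fun u => mem_range.2 (Nat.lt_succ_of_le ((le_sup (f := x) u.2).trans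
        (Nat.le_mul_of_pos_right _ (Nat.succ_pos p))))) irr dual
    have e2 := mul_mem (single_mem' N (∑ u, ∑ v, if a u v then (w u : ℤ) * w v else 0))
      (hL (∑ u, w u • T.u (x u)))
    rw [Td.F, e, mul_sum, ← htp] at e2
    rw [map_sum]
    refine (congrArg (· ∈ _) (sum_congr ?_ fun γ hγ => Eq.symm ?_)).mpr e2
    · ext γ
      simp only [mem_filter, mem_univ, true_and, hadj]
      refine and_congr_right fun _ => ⟨?_, fun h' u v c1 c2 => h' u v (Or.inl ⟨c1, c2⟩)⟩
      rintro h' u v (c | c)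
      exacts [h' u v c.1 c.2, (h' v u c.1 c.2).symm]
    · obtain ⟨c1, c2⟩ := (mem_filter.1 hγ).2
      rw [← mul_assoc, ← QD.tp_add, expo a _ _ _ hω fun u v huv => by
        rw [← show _ = w u from c1 u, ← show _ = w v from c1 v]
        exact_mod_cast pair_count (c2 u v ((hadj u v).2 (Or.inl huv))), htp, map_mul, MvPolynomial.map_C,
        r0_X_pow]
      simp only [map_prod, MvPolynomial.map_X, a, Nat.cast_sum, Nat.cast_ite, Nat.cast_zero]
  · refine MvPolynomial.IsHomogeneous.sum _ _ _ fun γ hγ => MvPolynomial.IsHomogeneous.C_mul ?_ _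
    have := MvPolynomial.IsHomogeneous.prod univ _ _ fun v _ => prodX_hom N (γ v)
    rwa [sum_congr rfl fun v _ => (mem_filter.mp hγ).2.1 v, sum_coe_sort (insert n I)
      fun v => v - ((insert n I).filter (fun j => j < v)).sup id, wt_sum, sup_insert, id,
      sup_eq_left.2 (Finset.sup_le (f := id) fun j hj => (hI j hj).2.le)] at this


section res
open MvPolynomial
variable {N N' : ℕ} (hN : N ≤ N')

theorem kill_map (T : Finset (Fin N)) :
    killCompl (Fin.castLE_injective hN) (∏ a ∈ T.map (Fin.castLEEmb hN),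
      (X a : MvPolynomial (Fin N') (Polynomial ℤ))) = ∏ a ∈ T, X a := by
  rw [prod_map, map_prod]
  refine prod_congr rfl fun a _ => ?_
  simpa using killCompl_rename_app (R := Polynomial ℤ) (Fin.castLE_injective hN) (X a)

theorem kill_zero (T : Finset (Fin N')) (hT : ∀ S : Finset (Fin N), S.map (Fin.castLEEmb hN) ≠ T) :
    killCompl (Fin.castLE_injective hN) (∏ a ∈ T,
      (X a : MvPolynomial (Fin N') (Polynomial ℤ))) = 0 := by
  classical
  by_contra hc
  refine hT (univ.filter fun a => Fin.castLE hN a ∈ T) ?_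
  ext b
  simp only [mem_map, mem_filter, mem_univ, true_and, Fin.castLEEmb_apply]
  refine ⟨by rintro ⟨a, ha, rfl⟩; exact ha, fun hb => ?_⟩
  by_contra h
  refine hc ?_
  rw [map_prod]
  refine prod_eq_zero hb ?_
  rw [killCompl, aeval_X, dif_neg]
  rintro ⟨a, rfl⟩
  exact h ⟨a, hb, rfl⟩

theorem kill_esymm (k : ℕ) : killCompl (Fin.castLE_injective hN)
    (esymm (Fin N') (Polynomial ℤ) k) = esymm (Fin N) (Polynomial ℤ) k := by
  rw [esymm, esymm, map_sum]
  refine (sum_of_injOn (fun T => T.map (Fin.castLEEmb hN))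
    (fun _ _ _ _ h => map_injective _ h) (fun T hT => ?_) (fun T _ hT => ?_) fun T _ => ?_).symm
  · simpa using hT
  · refine kill_zero hN T fun S hS => hT ⟨S, ?_, hS⟩
    subst hS
    simp_all
  · exact (kill_map hN T).symm

theorem kill_es (n : ℕ) (c : Nat.Partition n → Polynomial ℤ) :
    killCompl (Fin.castLE_injective hN) (es N' n c) = es N n c := by
  rw [es, es, map_sum]
  refine sum_congr rfl fun μ _ => ?_
  rw [map_mul, killCompl_C, map_multiset_prod, Multiset.map_map]
  simp only [Function.comp_def, kill_esymm]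

theorem asc_map (A B : Finset (Fin N)) :
    ((A.map (Fin.castLEEmb hN) ×ˢ B.map (Fin.castLEEmb hN)).filter fun p => p.1 < p.2).card =
      ((A ×ˢ B).filter fun p => p.1 < p.2).card := by
  simp only [card_filter, sum_product, sum_map]
  rfl

theorem kill_csf (n : ℕ) (I : Finset ℕ) (h : ℕ → ℕ) :
    killCompl (Fin.castLE_injective hN) (csf N' n I h) = csf N n I h := by
  classical
  rw [csf, csf, map_sum]
  refine (sum_of_injOn (fun γ v => (γ v).map (Fin.castLEEmb hN))
    (fun _ _ _ _ e => funext fun v => map_injective _ (congrFun e v)) (fun γ hγ => ?_)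
    (fun γ hγ hn => ?_) fun γ _ => ?_).symm
  · simpa [disjoint_map] using hγ
  · rw [map_mul, map_prod]
    by_contra hc
    have : ∀ v, ∃ S : Finset (Fin N), S.map (Fin.castLEEmb hN) = γ v := fun v => by
      by_contra h'
      push Not at h'
      exact hc (by rw [prod_eq_zero (mem_univ v) (kill_zero hN _ h'), mul_zero])
    choose S hS using this
    obtain rfl : γ = fun v => (S v).map (Fin.castLEEmb hN) := funext fun v => (hS v).symm
    exact hn ⟨S, by simpa [disjoint_map] using hγ, rfl⟩
  · rw [map_mul, killCompl_C, map_prod]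
    simp only [kill_map, asc_map]

end res

theorem es_inj (n : ℕ) (c c' : Nat.Partition n → Polynomial ℤ) (h : es n n c = es n n c') :
    c = c' := by
  classical
  let mo : Nat.Partition n → Fin n →₀ ℕ := fun μ =>
    Finsupp.equivFunOnFinite.symm fun i => μ.parts.count (i.1 + 1)
  have hle : ∀ (μ : Nat.Partition n), ∀ k ∈ μ.parts, 0 < k ∧ k ≤ n := fun μ k hk =>
    ⟨μ.parts_pos hk, μ.parts_sum ▸ Multiset.single_le_sum (fun _ _ => Nat.zero_le _) k hk⟩
  have hmo : Function.Injective mo := fun μ ν e => by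
    ext k
    by_cases hk : 0 < k ∧ k ≤ n
    · have := DFunLike.congr_fun e ⟨k - 1, by omega⟩
      simpa [mo, show k - 1 + 1 = k by omega] using this
    · rw [Multiset.count_eq_zero_of_notMem fun h' => hk (hle μ k h'),
        Multiset.count_eq_zero_of_notMem fun h' => hk (hle ν k h')]
  have key : ∀ c : Nat.Partition n → Polynomial ℤ, es n n c =
      (MvPolynomial.esymmAlgHom (Fin n) (Polynomial ℤ) n
        (∑ μ, MvPolynomial.monomial (mo μ) (c μ))).val := fun c => by
    rw [MvPolynomial.esymmAlgHom_apply, map_sum, es]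
    refine sum_congr rfl fun μ _ => ?_
    rw [MvPolynomial.aeval_monomial, Finsupp.prod_fintype _ _ (by simp), MvPolynomial.algebraMap_eq,
      prod_multiset_map_count]
    congr 1
    have e1 : ∏ k ∈ μ.parts.toFinset, MvPolynomial.esymm (Fin n) (Polynomial ℤ) k ^ μ.parts.count k =
        ∏ k ∈ range (n + 1), MvPolynomial.esymm (Fin n) (Polynomial ℤ) k ^ μ.parts.count k := by
      refine prod_subset (fun k hk => mem_range.2 ?_) fun k _ hk => ?_
      · have := hle μ k (Multiset.mem_toFinset.1 hk); omega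
      · rw [Multiset.count_eq_zero_of_notMem fun h' => hk (Multiset.mem_toFinset.2 h'), pow_zero]
    rw [e1, prod_range_succ', MvPolynomial.esymm_zero, one_pow, mul_one,
      ← Fin.prod_univ_eq_prod_range
        (fun k => MvPolynomial.esymm (Fin n) (Polynomial ℤ) (k + 1) ^ μ.parts.count (k + 1))]
    rfl
  rw [key, key] at h
  have h2 := MvPolynomial.esymmAlgHom_injective (Polynomial ℤ) (σ := Fin n) (n := n) (by simp)
    (Subtype.ext h)
  funext μ
  have h3 := congrArg (MvPolynomial.coeff (mo μ)) h2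
  simpa [MvPolynomial.coeff_sum, MvPolynomial.coeff_monomial, hmo.eq_iff] using h3

theorem unif (n : ℕ) (I : Finset ℕ) (h : ℕ → ℕ)
    (H : ∀ N, ∃ c : Nat.Partition n → Polynomial ℤ, (∀ μ k, 0 ≤ (c μ).coeff k) ∧
      csf N n I h = es N n c) :
    ∃ c : Nat.Partition n → Polynomial ℤ, (∀ μ k, 0 ≤ (c μ).coeff k) ∧
      ∀ N, csf N n I h = es N n c := by
  obtain ⟨c, h1, h2⟩ := H n
  refine ⟨c, h1, fun N => ?_⟩
  rcases le_total N n with hN | hN
  · rw [← kill_csf hN, h2, kill_es]
  · obtain ⟨c', -, h4⟩ := H N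
    rw [h4, es_inj n c c' (by rw [← h2, ← kill_csf hN, h4, kill_es])]

end FullA

end Pool.Agent.P.MP_389f6f_co.Qt
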