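import Pool.Agent.P.MP_389f6f_co.PtExp
import Pool.Agent.P.MP_389f6f_co.QAll
import Pool.Agent.P.MP_389f6f_co.QFull

/-! The pointed chromatic function in the pointed elementary basis. -/

set_option autoImplicit false

namespace Pool.Agent.P.MP_389f6f_co.Qt
open Finset

namespace Pt
open GlueA MvPolynomial

/-- pointed elementary symmetric polynomial -/
noncomputable def eps {R : Type} [CommRing R] (q : R) {N : ℕ} (a : Fin N) (k : ℕ) :
    MvPolynomial (Fin N) R :=
  ∑ S ∈ powersetCard k (univ.erase a), C (q ^ (S.filter fun s => a < s).card) * ∏ s ∈ S, X s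

open Classical in
/-- the pointed chromatic function -/
noncomputable def pf (N n : ℕ) (I : Finset ℕ) (h : ℕ → ℕ) (h1 : 1 ∈ insert n I) (a : Fin N) :
    MvPolynomial (Fin N) (Polynomial ℤ) :=
  ∑ γ ∈ (Finset.univ : Finset ({x // x ∈ insert n I} → Finset (Fin N))).filter
      (fun γ =>
        (∀ v : {x // x ∈ insert n I},
          (γ v).card = (v : ℕ) - ((insert n I).filter (fun j => j < (v : ℕ))).sup id) ∧
        (∀ u v : {x // x ∈ insert n I},
          (u : ℕ) < (v : ℕ) → (v : ℕ) ≤ h (u : ℕ) → Disjoint (γ u) (γ v)) ∧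
        γ ⟨1, h1⟩ = {a}),
    MvPolynomial.C
        ((Polynomial.X : Polynomial ℤ) ^
          (∑ u : {x // x ∈ insert n I}, ∑ v : {x // x ∈ insert n I},
            if (u : ℕ) < (v : ℕ) ∧ (v : ℕ) ≤ h (u : ℕ) then
              (((γ u) ×ˢ (γ v)).filter (fun p => p.1 < p.2)).card
            else 0)) *
      ∏ v : {x // x ∈ insert n I}, ∏ a ∈ γ v,
        (MvPolynomial.X a : MvPolynomial (Fin N) (Polynomial ℤ))

/-- the expansion with coefficients `c` -/
noncomputable def pr (N n : ℕ) (a : Fin N) (c : (k : ℕ) → Nat.Partition (n - 1 - k) → Polynomial ℤ) :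
    MvPolynomial (Fin N) (Polynomial ℤ) :=
  X a * ∑ k ∈ range n, ∑ μ : Nat.Partition (n - 1 - k),
    C (c k μ) * eps Polynomial.X a k * (μ.parts.map fun j => esymm (Fin N) (Polynomial ℤ) j).prod

variable {N : ℕ} (a : Fin N)

theorem map_eps {R S : Type} [CommRing R] [CommRing S] (f : R →+* S) (q : R) (k : ℕ) :
    map f (eps q a k) = eps (f q) a k := by
  simp only [eps, map_sum, map_mul, map_C, map_pow, map_prod, map_X]

theorem eps_hom (k : ℕ) : (eps (Polynomial.X : Polynomial ℤ) a k).IsHomogeneous k := by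
  refine IsHomogeneous.sum _ _ _ fun T hT => IsHomogeneous.C_mul ?_ _
  have := prodX_hom N T
  rwa [(mem_powersetCard.mp hT).2] at this

theorem pr_hom (n : ℕ) (c : (k : ℕ) → Nat.Partition (n - 1 - k) → Polynomial ℤ) :
    (pr N n a c).IsHomogeneous n := by
  rw [pr, mul_sum]
  refine IsHomogeneous.sum _ _ _ fun k hk => ?_
  rw [mul_sum]
  refine IsHomogeneous.sum _ _ _ fun μ _ => ?_
  have := (isHomogeneous_X (Polynomial ℤ) a).mul
    (((eps_hom a k).C_mul (c k μ)).mul (eprod_hom N μ.parts))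
  rwa [μ.parts_sum, show 1 + (k + (n - 1 - k)) = n by have := mem_range.1 hk; omega] at this

/-- positive combinations of the pointed products -/
noncomputable def L1 : AddSubmonoid (KK N) := AddSubmonoid.closure
  {f | ∃ k, ∃ g ∈ Mon' N, f = X a * eps (HahnSeries.single 2 1) a k * g}

theorem L1_mul {g f : KK N} (hg : g ∈ (Mon' N).subsemiringClosure) (hf : f ∈ L1 a) :
    g * f ∈ L1 a := by
  rw [Submonoid.subsemiringClosure_mem] at hg
  induction hg using AddSubmonoid.closure_induction with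
  | zero => simp
  | add g g' _ _ h1 h2 => exact add_mul g g' f ▸ add_mem h1 h2
  | mem g hg =>
    induction hf using AddSubmonoid.closure_induction with
    | zero => simp
    | add f f' _ _ h1 h2 => exact mul_add g f f' ▸ add_mem h1 h2
    | mem f hf =>
      obtain ⟨k, g', h, rfl⟩ := hf
      exact AddSubmonoid.subset_closure ⟨k, g * g', mul_mem hg h, by ring⟩

theorem r0_ne (p : Polynomial ℤ) (j : ℤ) (h : ∀ k : ℕ, j ≠ 2 * k) : (r0 p).coeff j = 0 := by
  induction p using Polynomial.induction_on' with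
  | add p q h1 h2 => simp [h1, h2]
  | monomial i a =>
    rw [← Polynomial.C_mul_X_pow_eq_monomial, map_mul, r0_X_pow, eq_intCast, map_intCast,
      GlueA.cast_eq,
      HahnSeries.single_mul_single, HahnSeries.coeff_single, if_neg]
    simpa using h i

theorem gen_ne {k : ℕ} (hk : k ≤ a) {M : Multiset ℕ} (hM : ∀ j ∈ M, j ≤ N) :
    map Polynomial.constantCoeff (X a * eps (Polynomial.X : Polynomial ℤ) a k *
      (M.map fun j => esymm (Fin N) (Polynomial ℤ) j).prod) ≠ 0 := fun h => by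
  have h1 := congrArg (eval fun _ => (1 : ℤ)) h
  simp only [map_mul, map_eps, map_X, eval_X, one_mul, map_zero, map_multiset_prod,
    Multiset.map_map] at h1
  refine absurd h1 (mul_pos ?_ (Multiset.prod_pos fun y hy => ?_)).ne'
  · obtain ⟨S, h2, h3⟩ := exists_subset_card_eq (s := Iio a) (n := k) (by simpa using hk)
    simp only [eps, map_sum, map_mul, eval_C, map_prod, eval_X, prod_const_one, mul_one]
    refine sum_pos' (fun _ _ => by simp [pow_nonneg]) ⟨S, mem_powersetCard.2 ⟨fun s hs => ?_, h3⟩, ?_⟩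
    · simpa using (mem_Iio.1 (h2 hs)).ne
    · rw [filter_false_of_mem fun s hs => (mem_Iio.1 (h2 hs)).not_gt]
      simp
  · obtain ⟨j, hj, rfl⟩ := Multiset.mem_map.1 hy
    simp only [Function.comp, map_esymm]
    simp only [esymm, map_sum, map_prod, eval_X, prod_const_one]
    exact sum_pos (fun _ _ => one_pos) (powersetCard_nonempty.2 (by simpa using hM j hj))

theorem extr {n : ℕ} (hn : n ≤ a + 1) {p : AA N} (hh : p.IsHomogeneous n)
    (hp : map r0 p ∈ L1 a) : ∃ c : (k : ℕ) → Nat.Partition (n - 1 - k) → Polynomial ℤ,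
      (∀ k μ j, 0 ≤ (c k μ).coeff j) ∧ p = pr N n a c := by
  classical
  have p0 : pr N n a (fun _ _ => 0) = 0 := by simp [pr]
  have key : ∀ f ∈ L1 a, f ∈ L0 N ∧ ((∀ m : Fin N →₀ ℕ, m.degree = n → ∀ j < 0,
      (f.coeff m).coeff j = 0) → ∃ c : (k : ℕ) → Nat.Partition (n - 1 - k) → Polynomial ℤ,
      (∀ k μ j, 0 ≤ (c k μ).coeff j) ∧ ∀ m : Fin N →₀ ℕ, m.degree = n → ∀ k : ℕ,
        ((((pr N n a c).coeff m).coeff k : ℤ) : ℚ) = (f.coeff m).coeff (2 * (k : ℤ))) := by
    intro f hf
    induction hf using AddSubmonoid.closure_induction with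
    | zero => exact ⟨zero_mem _, fun _ => ⟨fun _ _ => 0, by simp, by simp [p0]⟩⟩
    | add f g _ _ h1 h2 =>
      refine ⟨add_mem h1.1 h2.1, fun h => ?_⟩
      have h3 : ∀ m : Fin N →₀ ℕ, m.degree = n → ∀ j < 0,
          (f.coeff m).coeff j = 0 ∧ (g.coeff m).coeff j = 0 := fun m hm j hj => by
        have := h m hm j hj
        rw [coeff_add, HahnSeries.coeff_add] at this
        exact (add_eq_zero_iff_of_nonneg (h1.1 m j) (h2.1 m j)).1 this
      obtain ⟨c, a1, a2⟩ := h1.2 fun m hm j hj => (h3 m hm j hj).1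
      obtain ⟨c', b1, b2⟩ := h2.2 fun m hm j hj => (h3 m hm j hj).2
      refine ⟨fun k μ => c k μ + c' k μ, fun k μ j => ?_, fun m hm k => ?_⟩
      · rw [Polynomial.coeff_add]
        exact add_nonneg (a1 k μ j) (b1 k μ j)
      · have e : pr N n a (fun k μ => c k μ + c' k μ) = pr N n a c + pr N n a c' := by
          simp only [pr, map_add, add_mul, sum_add_distrib, mul_add]
        simp [e, a2 m hm, b2 m hm]
    | mem f hf =>
      obtain ⟨k, _, ⟨i, M, hM, rfl⟩, rfl⟩ := hf
      have x0 : ∀ S : Finset (Fin N), ∏ s ∈ S, (X s : KK N) ∈ L0 N := fun S =>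
        prod_mem fun s _ => monomial_mem N _ P0.one_mem
      refine ⟨mul_mem (mul_mem (monomial_mem N _ P0.one_mem) (sum_mem fun S _ => mul_mem
        (monomial_mem N 0 (pow_mem (single_mem 2) _)) (x0 S))) (mul_mem
        (monomial_mem N 0 (single_mem i)) (multiset_prod_mem _ fun y hy => ?_)), fun h => ?_⟩
      · obtain ⟨j, -, rfl⟩ := Multiset.mem_map.1 hy
        exact sum_mem fun S _ => x0 S
      set G := X a * eps (Polynomial.X : Polynomial ℤ) a k *
        (M.map fun j => esymm (Fin N) (Polynomial ℤ) j).prod with hG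
      have g1 : G.IsHomogeneous (1 + k + M.sum) :=
        ((isHomogeneous_X (Polynomial ℤ) a).mul (eps_hom a k)).mul (eprod_hom N M)
      have g2 : ∀ (m : Fin N →₀ ℕ) (j : ℤ), (coeff m (X a * eps (HahnSeries.single 2 1) a k *
          (C (HahnSeries.single i (1 : ℚ)) * (M.map fun k => esymm (Fin N) RL k).prod))).coeff j =
          (r0 (G.coeff m)).coeff (j - i) := fun m j => by
        have e : map r0 G = X a * eps (HahnSeries.single 2 1) a k *
            (M.map fun k => esymm (Fin N) RL k).prod := by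
          rw [hG, map_mul, map_mul, map_X, map_eps, map_multiset_prod, Multiset.map_map]
          simp only [Function.comp_def, map_esymm, r0, Polynomial.coe_eval₂RingHom,
            Polynomial.eval₂_X]
        rw [mul_left_comm, ← e, coeff_C_mul, coeff_map, ← sub_add_cancel j i,
          HahnSeries.coeff_single_mul_add, one_mul, add_sub_cancel_right]
      simp only [g2] at h ⊢
      by_cases hd : 1 + k + M.sum = n
      swap
      · refine ⟨fun _ _ => 0, by simp, fun m hm j => ?_⟩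
        rw [g1.coeff_eq_zero (by omega), p0]
        simp
      by_cases hi : ∃ b : ℕ, i = 2 * b
      · obtain ⟨b, rfl⟩ := hi
        refine ⟨fun k' μ => if k' = k ∧ μ.parts = M then Polynomial.X ^ b else 0,
          fun k' μ j => ?_, fun m _ j => ?_⟩
        · beta_reduce
          split_ifs
          · rw [Polynomial.coeff_X_pow]; split_ifs <;> simp
          · simp
        · have e : pr N n a (fun k' μ => if k' = k ∧ μ.parts = M then Polynomial.X ^ b else 0) =
              C (Polynomial.X ^ b) * G := by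
            rw [pr, sum_eq_single k (fun k' _ hk => by simp [hk])
              (fun hk => absurd (mem_range.2 (by omega)) hk),
              sum_eq_single ⟨M, fun hi => hM _ hi, by omega⟩
                (fun μ _ hμ => by rw [if_neg fun c => hμ (Nat.Partition.ext c.2)]; simp) (by simp),
              if_pos ⟨rfl, rfl⟩, hG]
            ring
          rw [e, coeff_C_mul, ← r0_coeff, map_mul, r0_X_pow, ← sub_add_cancel (2 * (j : ℤ)) (2 * b),
            HahnSeries.coeff_single_mul_add, one_mul, add_sub_cancel_right]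
      · refine ⟨fun _ _ => 0, by simp, fun m _ j => ?_⟩
        rw [p0, r0_ne _ _ fun j' hj => ?_]
        · simp
        have h0 : i < 0 := by
          by_contra hc
          exact hi ⟨j - j', by omega⟩
        refine gen_ne a (k := k) (M := M) (by omega) (fun y hy => ?_) (MvPolynomial.ext _ _ fun m => ?_)
        · have := Multiset.single_le_sum (fun _ _ => Nat.zero_le _) y hy
          omega
        · rw [coeff_map, coeff_zero, ← hG]
          by_cases hm : m.degree = n
          · have h1 := h m hm i h0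
            have h2 := r0_coeff (G.coeff m) 0
            rw [sub_self] at h1
            rw [Nat.cast_zero, mul_zero, h1] at h2
            exact_mod_cast h2.symm
          · rw [g1.coeff_eq_zero (by omega), map_zero]
  obtain ⟨c, h1, h2⟩ := (key _ hp).2 fun m _ j hj => by
    rw [coeff_map]
    exact r0_ne _ _ fun k => by omega
  refine ⟨c, h1, MvPolynomial.ext _ _ fun m => ?_⟩
  by_cases hm : m.degree = n
  · ext k
    have h3 := h2 m hm k
    rw [coeff_map, r0_coeff] at h3
    exact_mod_cast h3.symm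
  · rw [hh.coeff_eq_zero hm, (pr_hom a n c).coeff_eq_zero hm]

theorem dual {R : Type} [CommRing R] (A0 A : Subsemiring R) (B : AddSubmonoid R)
    (hB : ∀ g ∈ A, ∀ f ∈ B, g * f ∈ B) (h0 : ∀ a ∈ A0, -a ∈ A0 → a = 0) :
    ∃ (K : Type) (_ : CommRing K) (φ : R →+* K) (η : K) (D0 D1 : Subsemiring K),
      (∀ r ∈ A0, φ r ∈ D0) ∧ (∀ r ∈ A, φ r ∈ D1) ∧ (∀ a ∈ D0, -a ∈ D0 → a = 0) ∧
      ∀ f, η * φ f ∈ D1 ↔ f ∈ B := by
  let D0 : Subsemiring (TrivSqZeroExt R R) :=
    { carrier := {f | f.fst ∈ A0 ∧ f.snd = 0}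
      zero_mem' := ⟨zero_mem _, rfl⟩
      one_mem' := ⟨one_mem _, rfl⟩
      add_mem' := fun h h' => ⟨add_mem h.1 h'.1, by simp [h.2, h'.2]⟩
      mul_mem' := fun h h' => ⟨mul_mem h.1 h'.1, by simp [h.2, h'.2]⟩ }
  let D1 : Subsemiring (TrivSqZeroExt R R) :=
    { carrier := {f | f.fst ∈ A ∧ f.snd ∈ B}
      zero_mem' := ⟨zero_mem _, zero_mem _⟩
      one_mem' := ⟨one_mem _, zero_mem _⟩
      add_mem' := fun h h' => ⟨add_mem h.1 h'.1, add_mem h.2 h'.2⟩
      mul_mem' := fun h h' => ⟨mul_mem h.1 h'.1, by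
        simpa [mul_comm] using add_mem (hB _ h.1 _ h'.2) (hB _ h'.1 _ h.2)⟩ }
  refine ⟨_, inferInstance, TrivSqZeroExt.inlHom R R, TrivSqZeroExt.inr 1, D0, D1,
    fun r hr => ⟨hr, rfl⟩, fun r hr => ⟨hr, zero_mem _⟩,
    fun f b1 b2 => TrivSqZeroExt.ext (h0 _ b1.1 b2.1) b1.2, fun f => ?_⟩
  change _ ∈ A ∧ _ ∈ B ↔ _
  simp

theorem pf_hom (n : ℕ) (I : Finset ℕ) (h : ℕ → ℕ) (h1 : 1 ∈ insert n I)
    (hI : ∀ i ∈ I, 1 ≤ i ∧ i < n) : (pf N n I h h1 a).IsHomogeneous n := by
  refine IsHomogeneous.sum _ _ _ fun γ hγ => IsHomogeneous.C_mul ?_ _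
  have := IsHomogeneous.prod univ _ _ fun v _ => prodX_hom N (γ v)
  rwa [sum_congr rfl fun v _ => (mem_filter.mp hγ).2.1 v, sum_coe_sort (insert n I)
    fun v => v - ((insert n I).filter (fun j => j < v)).sup id, wt_sum, sup_insert, id,
    sup_eq_left.2 (Finset.sup_le (f := id) fun j hj => (hI j hj).2.le)] at this

theorem pf_mem (n : ℕ) (I : Finset ℕ) (h : ℕ → ℕ) (h1 : 1 ∈ insert n I) (hn : 0 < n)
    (hI : ∀ i ∈ I, 1 ≤ i ∧ i < n) (h2 : ∀ i ∈ insert n I, ∀ j ∈ insert n I, i ≤ j → h i ≤ h j) :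
    map r0 (pf N n I h h1 a) ∈ L1 a := by
  unfold pf
  classical
  obtain ⟨p, x0, hp, hx0⟩ := t_emb (insert n I) h h2
  have one : ∀ i ∈ insert n I, 1 ≤ i := fun i hi =>
    (mem_insert.1 hi).elim (fun e => e ▸ hn) fun e => (hI i e).1
  have le1 : ∀ i ∈ insert n I, x0 1 ≤ x0 i := fun i hi =>
    (one i hi).eq_or_lt.elim (fun e => e ▸ le_rfl) fun e => (hx0 1 h1 i hi e).1.le
  obtain ⟨x, e1, hx, hm⟩ : ∃ x : ℕ → ℕ, x 1 = p ∧ (∀ i ∈ insert n I, ∀ j ∈ insert n I, i < j →
      x i < x j ∧ (j ≤ h i ↔ x j ≤ x i + p)) ∧ ∀ i, x i ≤ (x0 i + 1) * (p + 1) :=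
    ⟨fun i => x0 i - x0 1 + p, by simp, fun i hi j hj hij => by
      have := hx0 i hi j hj hij
      have := le1 i hi
      beta_reduce
      omega, fun i => by
      have : x0 i ≤ x0 i * (p + 1) := Nat.le_mul_of_pos_right (x0 i) p.succ_pos
      rw [Nat.succ_mul]
      beta_reduce
      omega⟩
  obtain ⟨K, _, φ, η, D0, D1, d0, d1, d2, d3⟩ := dual (L0 N) (Mon' N).subsemiringClosure (L1 a)
    (fun _ hg _ hf => L1_mul a hg hf) (L0_pointed N)
  obtain ⟨Λ, _, Q, hQ, ⟨T⟩⟩ := t_model K (Units.map φ.toMonoidHom (tt N)) (φ.comp (io N))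
    (by rw [RingHom.comp_apply, io_X, map_pow]; rfl) p hp
  have htp : ∀ k, Q.tp k = φ (C (HahnSeries.single k (1 : ℚ))) := fun k => by
    rw [QD.tp, hQ, ← map_zpow, ← tt_zpow]
    rfl
  have g1 := t_grp Λ _ Q
  have g2 := fun δ => t_ser Λ _ Q δ Sp.t_gf.1 (g1 δ)
  have c : Core Q := ⟨t_geo Λ, g1, fun δ => t_dl Λ _ Q δ (g1 δ), g2, t_tr Λ _ Q g1 g2⟩
  have g3 := t_at Λ _ Q c
  have g4 := t_mi Λ _ Q c g3
  have g5 := fun δ => t_bl Λ _ Q δ c
    (t_wp Λ _ Q δ c (t_dt Λ _ Q δ Sp.t_gf.1 Sp.t_gf.2.2.1 Sp.spec c))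
  have tb := t_tb Λ _ Q p T
  let A : {x // x ∈ insert n I} → {x // x ∈ insert n I} → Prop :=
    fun u v => (u : ℕ) < v ∧ (v : ℕ) ≤ h u
  let w : {x // x ∈ insert n I} → ℕ :=
    fun v => (v : ℕ) - ((insert n I).filter (fun j => j < (v : ℕ))).sup id
  have e := torus T c g3 g4 g5 (t_ip Λ _ Q c) (t_f1 Λ _ Q c g3 g4 g5) tb (t_tb Λ _ Q p (sh T))
    ((insert n I).sup x0) (fun s => φ (X s)) a D0 D1 η
    (fun k => htp k ▸ d0 _ (monomial_mem N 0 (single_mem k)))
    (fun k => htp k ▸ d1 _ (single_mem' N k)) d2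
    (fun s => d0 _ (monomial_mem N _ P0.one_mem)) (fun μ => by
      simp only [htp, ← map_prod φ, ← map_mul φ, ← map_sum φ]
      rw [d3, mul_comm, mul_left_comm (X a), ← mul_assoc]
      refine L1_mul a (mul_mem (prod_mem fun j _ => esymm_mem N _) (single_mem' N _))
        (AddSubmonoid.subset_closure ⟨μ 0, 1, one_mem _, ?_⟩)
      simp [eps, HahnSeries.single_pow, mul_comm])
    (fun u : {x // x ∈ insert n I} => x u) ⟨1, h1⟩ w
    (fun u v e => by
      rcases lt_trichotomy (u : ℕ) v with h' | h' | h'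
      · exact absurd e (hx u u.2 v v.2 h').1.ne
      · exact Subtype.ext h'
      · exact absurd e (hx v v.2 u u.2 h').1.ne') e1
    (fun u hu => ⟨e1 ▸ (hx 1 h1 u u.2 (lt_of_le_of_ne (one u u.2) fun c =>
      hu (Subtype.ext c.symm))).1,
      (hm u).trans (Nat.mul_le_mul_right _ (Nat.succ_le_succ (le_sup (f := x0) u.2)))⟩)
  have hω : ∀ u v : {x // x ∈ insert n I}, Q.ω (T.u (x u)) (T.u (x v)) =
      (if A u v then 1 else 0) - if A v u then 1 else 0 := by
    have key : ∀ u v : {x // x ∈ insert n I}, (u : ℕ) < v →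
        Q.ω (T.u (x u)) (T.u (x v)) = if A u v then 1 else 0 := fun u v huv => by
      obtain ⟨b1, b2⟩ := hx u u.2 v v.2 huv
      rw [tb.om _ _ b1]
      exact if_congr ⟨fun h => ⟨huv, b2.2 h⟩, fun h => b2.1 h.2⟩ rfl rfl
    intro u v
    rcases lt_trichotomy (u : ℕ) v with h' | h' | h'
    · rw [key u v h', if_neg (show ¬ A v u from fun h => h'.not_gt h.1), sub_zero]
    · rw [Subtype.ext h', Q.skew, sub_self]
    · rw [Q.anti, key v u h', if_neg (show ¬ A u v from fun h => h'.not_gt h.1), zero_sub]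
  have hadj : ∀ u v : {x // x ∈ insert n I}, adjP p (x u) (x v) ↔ A u v ∨ A v u := by
    intro u v
    simp only [adjP, A]
    rcases lt_trichotomy (u : ℕ) v with h' | h' | h'
    · have := hx u u.2 v v.2 h'
      omega
    · rw [h']
      omega
    · have := hx v v.2 u u.2 h'
      omega
  simp only [htp, ← map_prod φ, ← map_mul φ, ← map_sum φ] at e
  rw [d3] at e
  have e2 := L1_mul a (single_mem' N (∑ u, ∑ v, if A u v then (w u : ℤ) * w v else 0)) e
  rw [mul_sum] at e2
  rw [map_sum]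
  refine (congrArg (· ∈ _) (sum_congr ?_ fun γ hγ => Eq.symm ?_)).mpr e2
  · ext γ
    simp only [mem_filter, mem_univ, true_and, hadj]
    refine and_congr_right fun _ => and_congr_left fun _ =>
      ⟨?_, fun h' u v c1 c2 => h' u v (Or.inl ⟨c1, c2⟩)⟩
    rintro h' u v (c | c)
    exacts [h' u v c.1 c.2, (h' v u c.1 c.2).symm]
  · obtain ⟨c1, c2, -⟩ := (mem_filter.1 hγ).2
    rw [← mul_assoc, ← map_mul, HahnSeries.single_mul_single, one_mul, expo A _ _ _ hω
      fun u v huv => by
        rw [← show _ = w u from c1 u, ← show _ = w v from c1 v]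
        exact_mod_cast pair_count (c2 u v ((hadj u v).2 (Or.inl huv))), map_mul, map_C, r0_X_pow]
    simp only [map_prod, map_X, A, Nat.cast_sum, Nat.cast_ite, Nat.cast_zero]

section res
variable {N' : ℕ} (ι : Fin N ↪o Fin N')

theorem kill_map (T : Finset (Fin N)) :
    killCompl ι.injective (∏ s ∈ T.map ι.toEmbedding,
      (X s : MvPolynomial (Fin N') (Polynomial ℤ))) = ∏ s ∈ T, X s := by
  rw [prod_map, map_prod]
  refine prod_congr rfl fun s _ => ?_
  simpa using killCompl_rename_app (R := Polynomial ℤ) ι.injective (X s)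

theorem kill_zero (T : Finset (Fin N')) (hT : ∀ S : Finset (Fin N), S.map ι.toEmbedding ≠ T) :
    killCompl ι.injective (∏ s ∈ T, (X s : MvPolynomial (Fin N') (Polynomial ℤ))) = 0 := by
  classical
  by_contra hc
  refine hT (univ.filter fun s => ι s ∈ T) ?_
  ext b
  simp only [mem_map, mem_filter, mem_univ, true_and]
  refine ⟨by rintro ⟨s, hs, rfl⟩; exact hs, fun hb => ?_⟩
  by_contra h
  refine hc ?_
  rw [map_prod]
  refine prod_eq_zero hb ?_
  rw [killCompl, aeval_X, dif_neg]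
  rintro ⟨s, rfl⟩
  exact h ⟨s, hb, rfl⟩

theorem kill_esymm (k : ℕ) : killCompl ι.injective
    (esymm (Fin N') (Polynomial ℤ) k) = esymm (Fin N) (Polynomial ℤ) k := by
  rw [esymm, esymm, map_sum]
  refine (sum_of_injOn (fun T => T.map ι.toEmbedding)
    (fun _ _ _ _ h => map_injective _ h) (fun T hT => ?_) (fun T _ hT => ?_) fun T _ => ?_).symm
  · simpa using hT
  · refine kill_zero ι T fun S hS => hT ⟨S, ?_, hS⟩
    subst hS
    simp_all
  · exact (kill_map ι T).symm

theorem kill_eps (k : ℕ) : killCompl ι.injective (eps (Polynomial.X : Polynomial ℤ) (ι a) k) =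
    eps Polynomial.X a k := by
  have hm : ∀ S : Finset (Fin N), S.map ι.toEmbedding ∈ powersetCard k (univ.erase (ι a)) ↔
      S ∈ powersetCard k (univ.erase a) := fun S => by
    simp [subset_erase]
  rw [eps, eps, map_sum]
  refine (sum_of_injOn (fun T => T.map ι.toEmbedding)
    (fun _ _ _ _ h => map_injective _ h) (fun T hT => (hm T).2 hT) (fun T h hT => ?_)
    fun T _ => ?_).symm
  · rw [map_mul, kill_zero ι T fun S hS => hT ⟨S, (hm S).1 (hS ▸ h), hS⟩, mul_zero]
  · rw [map_mul, killCompl_C, kill_map]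
    simp [filter_map]

theorem kill_pr (n : ℕ) (c : (k : ℕ) → Nat.Partition (n - 1 - k) → Polynomial ℤ) :
    killCompl ι.injective (pr N' n (ι a) c) = pr N n a c := by
  have h := kill_map ι {a}
  simp only [map_singleton, prod_singleton] at h
  simp only [pr, map_mul, map_sum, killCompl_C, kill_eps, map_multiset_prod, Multiset.map_map,
    Function.comp_def, kill_esymm]
  exact congrArg (· * _) h

theorem asc_map (A B : Finset (Fin N)) :
    ((A.map ι.toEmbedding ×ˢ B.map ι.toEmbedding).filter fun p => p.1 < p.2).card =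
      ((A ×ˢ B).filter fun p => p.1 < p.2).card := by
  simp only [card_filter, sum_product, sum_map, RelEmbedding.coe_toEmbedding, ι.lt_iff_lt]

theorem kill_pf (n : ℕ) (I : Finset ℕ) (h : ℕ → ℕ) (h1 : 1 ∈ insert n I) :
    killCompl ι.injective (pf N' n I h h1 (ι a)) = pf N n I h h1 a := by
  classical
  have hs : ∀ S : Finset (Fin N), S.map ι.toEmbedding = {ι a} ↔ S = {a} := fun S =>
    (map_injective ι.toEmbedding).eq_iff' (map_singleton _ _)
  rw [pf, pf, map_sum]
  refine (sum_of_injOn (fun γ v => (γ v).map ι.toEmbedding)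
    (fun _ _ _ _ e => funext fun v => map_injective _ (congrFun e v)) (fun γ hγ => ?_)
    (fun γ hγ hn => ?_) fun γ _ => ?_).symm
  · simpa [disjoint_map, hs] using hγ
  · rw [map_mul, map_prod]
    by_contra hc
    have : ∀ v, ∃ S : Finset (Fin N), S.map ι.toEmbedding = γ v := fun v => by
      by_contra h'
      push Not at h'
      exact hc (by rw [prod_eq_zero (mem_univ v) (kill_zero ι _ h'), mul_zero])
    choose S hS using this
    obtain rfl : γ = fun v => (S v).map ι.toEmbedding := funext fun v => (hS v).symm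
    exact hn ⟨S, by simpa [disjoint_map, hs] using hγ, rfl⟩
  · rw [map_mul, killCompl_C, map_prod]
    simp only [kill_map, asc_map]

end res

theorem pointed (n : ℕ) (I : Finset ℕ) (h : ℕ → ℕ) (hn : 0 < n) (hI : ∀ i ∈ I, 1 ≤ i ∧ i < n)
    (h2 : ∀ i ∈ insert n I, ∀ j ∈ insert n I, i ≤ j → h i ≤ h j) (h1 : 1 ∈ insert n I) :
    ∃ c : (k : ℕ) → Nat.Partition (n - 1 - k) → Polynomial ℤ, (∀ k μ j, 0 ≤ (c k μ).coeff j) ∧
      ∀ (N : ℕ) (a : Fin N), pf N n I h h1 a = pr N n a c := by
  classical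
  let a0 : Fin (2 * n + 1) := ⟨n, by omega⟩
  obtain ⟨c, c1, c2⟩ := extr a0 (n := n) (Nat.le_succ n) (pf_hom a0 n I h h1 hI)
    (pf_mem a0 n I h h1 hn hI h2)
  have small : ∀ N ≤ n + 1, ∀ a : Fin N, pf N n I h h1 a = pr N n a c := fun N hN a => by
    let ι : Fin N ↪o Fin (2 * n + 1) := OrderEmbedding.ofStrictMono
      (fun s => ⟨s + (n - a), by omega⟩) fun s t hst => by
        simpa using hst
    have e : ι a = a0 := Fin.ext (by simp [ι, a0]; omega)
    rw [← kill_pf a ι, ← kill_pr a ι, e, c2]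
  refine ⟨c, c1, fun N a => MvPolynomial.ext _ _ fun m => ?_⟩
  by_cases hm : m.degree = n
  swap
  · rw [(pf_hom a n I h h1 hI).coeff_eq_zero hm, (pr_hom a n c).coeff_eq_zero hm]
  have hc : (insert a m.support).card ≤ n + 1 := by
    refine (card_insert_le _ _).trans (Nat.succ_le_succ ?_)
    rw [← hm, Finsupp.degree_apply, card_eq_sum_ones]
    exact sum_le_sum fun i hi => Nat.pos_of_ne_zero (Finsupp.mem_support_iff.1 hi)
  obtain ⟨M, hM, ι, hr⟩ : ∃ M ≤ n + 1, ∃ ι : Fin M ↪o Fin N,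
      Set.range ι = (insert a m.support : Finset (Fin N)) :=
    ⟨_, hc, (insert a m.support).orderEmbOfFin rfl, range_orderEmbOfFin _ _⟩
  have hs : (m.support : Set (Fin N)) ⊆ Set.range ι := by rw [hr]; simp
  obtain ⟨b, rfl⟩ : a ∈ Set.range ι := by simp [hr]
  rw [← m.mapDomain_comapDomain ι ι.injective hs, ← coeff_killCompl ι.injective,
    ← coeff_killCompl ι.injective, kill_pf, kill_pr, small _ hM]

end Pt

end Pool.Agent.P.MP_389f6f_co.Qt
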