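import Pool.Agent.P.MP_389f6f_co.PtU
import Pool.Agent.P.MP_389f6f_co.QMain

/-! The theta function expansion of the marked product. -/

set_option autoImplicit false

namespace Pool.Agent.P.MP_389f6f_co.Qt
open Finset Filter Topology

namespace Pt
open TauA MainA

variable {Λ K : Type} [AddCommGroup Λ] [CommRing K] {Q : QD Λ K} {p : ℕ} {δ : Λ →+ ℤ}

theorem att_z (hg : S_GRP Q δ) {s : Finset Λ} {g : (NS Q δ)ˣ} (hA : AT s g) {κ : Λ}
    (h : ∀ x ∈ s, 0 ≤ Q.ω x κ) (L : Subsemiring K) (r : Λ) : att g (NS.z κ) r ∈ L := by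
  have h1 := (hg.fac _ (Cut.of (Q.Av r)) g hA.1).1
  by_cases hr : r = κ
  · subst hr
    rw [att, ex, hg.cj_congr 0 _ (GG_mono le_top h1) 1 (one_mem _) ?_ _ _ ?_, cj_one, NS.z_co,
      if_pos rfl]
    · exact one_mem _
    · intro x hx
      by_cases h0 : x = 0
      · rw [h0, h1.1, Units.val_one, NS.one_co, if_pos rfl]
      · rw [Units.val_one, NS.one_co, if_neg h0]
        by_contra hc
        have := (h1.2 x hc).2.resolve_left h0
        omega
    · intro x hx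
      rw [sup_z _ x hx]
      omega
  · have h2 : att g (NS.z κ) r = 0 := by
      by_contra hc
      obtain ⟨a, h3, h4, -⟩ := hg.cj_sup _ _ h1 _ _ hc
      rw [sup_z _ a h3] at h4
      have h5 : ∀ x ∈ PS s, 0 ≤ Q.ω x κ := by
        intro x hx
        induction hx using AddSubmonoid.closure_induction with
        | mem x hx => exact h x hx
        | zero => simp
        | add x y _ _ hx hy => rw [map_add, AddMonoidHom.add_apply]; omega
      have h6 : (Q.ω (r - κ) r : ℝ) < 0 := h4.2.resolve_left (sub_ne_zero.2 hr)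
      have h7 : Q.ω (r - κ) r = Q.ω (r - κ) κ := by
        have := Q.skew (r - κ)
        rw [map_sub (Q.ω (r - κ))] at this
        omega
      rw [h7] at h6
      exact absurd (h5 _ h4.1) (not_le.2 (by exact_mod_cast h6))
    rw [h2]
    exact zero_mem _

theorem att_eq' (c : Core Q) {s : Finset Λ} {g : (NS Q δ)ˣ} (hg : AT s g) (f : NS Q δ) (r : Λ)
    (θ : Λ →+ ℝ) (D : ℤ) (hf : Sup (fun x => δ r - D ≤ δ x) f)
    (h : ∀ n ∈ PS s, δ n ≤ D → |θ n - Q.Av r n| < 1) : att g f r = (ex g θ f).co r := by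
  have G := c.grp δ
  have hlow : Low δ (PS s) fun x => δ x ≤ D := by
    intro x _ y hy hxy
    rw [map_add] at hxy
    rcases hy.2 with h3 | h3
    · rw [h3, map_zero] at hxy; omega
    · omega
  have h3 := G.lo_congr (PS s) _ hlow (Cut.lex (Cut.of (Q.Av r)) (Cut.of θ)) (Cut.of θ)
    (fun x hx hU => by
      have h1 := abs_lt.1 (h x hx.1 hU)
      simp only [Cut.lex_N, Cut.of_N, Cut.of_P, QD.Av_apply] at h1 ⊢
      rcases lt_trichotomy (Q.ω x r) 0 with h4 | h4 | h4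
      · have h5 : (Q.ω x r : ℝ) ≤ -1 := by exact_mod_cast (by omega : Q.ω x r ≤ -1)
        exact ⟨fun _ => by linarith, fun _ => Or.inl (by linarith)⟩
      · simp [h4]
      · have h5 : (1 : ℝ) ≤ Q.ω x r := by exact_mod_cast h4
        exact ⟨fun h6 => h6.elim (fun _ => by linarith) fun h6 => h6.2, fun _ => by linarith⟩)
    g hg.1 g hg.1 fun _ _ => rfl
  have top : ∀ σ : Cut Λ, lo σ g ∈ GG Q δ ⊤ := fun σ => GG_mono le_top (G.fac _ σ g hg.1).1
  have h4 := G.cj_congr D _ (top _) _ (top _) h3 f r hf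
  rw [ex, ← h4, (G.lex _ _ g (GG_mono le_top hg.1)).1, cj_mul, (c.dl δ).trace]
  · rfl
  · have h5 := (G.fac _ (Cut.of θ) _ (G.fac _ (Cut.of (Q.Av r)) g hg.1).2.1).1
    refine h5.2.mono fun x hx => ?_
    have h6 := hx.1.1.2
    simp only [SetLike.mem_coe, Cut.mem_Zer, Cut.of_N, Cut.of_P, QD.Av_apply, not_lt] at h6
    exact_mod_cast le_antisymm h6.2 h6.1

variable (T : Td Q p)

theorem oy (j : ℕ) {b : ℕ} (h1 : 1 ≤ b) (h2 : b ≤ p) : Q.ω (T.y (j + 1) b) (T.y 0 1) = 0 := by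
  rw [Q.anti, neg_eq_zero]
  rcases Nat.eq_zero_or_pos j with rfl | hj
  · exact T.yy1' 0 1 b h1 (by omega)
  · exact T.yy2 _ _ _ _ (by omega)

theorem oq (j : ℕ) : Q.ω (T.q (j + 1)) (T.y 0 1) = -if j = 0 then 1 else 0 := by
  rw [Q.anti, T.yq]
  simp

theorem it_add (a b : ℕ) (x : Λ) : it T (a + b) x = it T b (it T a x) := by
  induction b with
  | zero => rfl
  | succ b ih => rw [← add_assoc, it_succ, ih, it_succ]

/-- induction over sums of vertices -/
theorem CV_ind {m : ℕ} {P : Λ → Prop} (h0 : P 0) (ha : ∀ x y, P x → P y → P (x + y))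
    (hq : ∀ j ≤ m, P (T.q (j + 1))) (hy : ∀ j < m, ∀ b, 1 ≤ b → b ≤ p → P (T.y (j + 1) b)) :
    ∀ x ∈ CV (sh T) m, P x := by
  intro x hx
  induction hx using AddSubmonoid.closure_induction with
  | zero => exact h0
  | add x y _ _ hx hy => exact ha x y hx hy
  | mem x hx =>
    obtain ⟨⟨j, b⟩, hv, rfl⟩ := hx
    rw [mem_V] at hv
    rw [vec]
    by_cases h : b = 0
    · rw [if_pos h]
      exact hq j (by omega)
    · rw [if_neg h]
      exact hy j (by omega) b (by omega) (by omega)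

theorem ext_sp {A : Type} [AddCommGroup A] (F G : Λ →+ A) (hq : ∀ j, F (T.q j) = G (T.q j))
    (hy : ∀ j b, 1 ≤ b → b ≤ p → F (T.y j b) = G (T.y j b)) {m I b : ℕ} (h1 : 1 ≤ b) (h2 : b ≤ p)
    {x : Λ} (hx : x - T.y 0 b + I • T.q 0 ∈ CV (sh T) m) : F x = G x := by
  have h := CV_ind T (P := fun x => F x = G x) (by simp)
    (fun x y hx hy => by rw [map_add, map_add, hx, hy]) (fun j _ => hq _)
    (fun j _ b h1 h2 => hy _ b h1 h2) _ hx
  simpa only [map_add, map_sub, map_nsmul, hq, hy 0 b h1 h2, add_left_inj, sub_left_inj] using h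

/-- a dominant orbit of the shift lies over the fixed lattice -/
theorem convex {m I : ℕ} {r : Λ} (hr : r - T.y 0 1 + I • T.q 0 ∈ CV (sh T) m)
    (hd : ∀ l, ∀ i < m, Q.ω (e (sh T) i) (it T l r) ≤ 0) :
    QS (sh T) m (r - T.y 0 1 + I • T.q 0) := by
  have hp := T.hp
  choose φ hq hy using fun j => T.lift ℤ (fun _ => 0) fun i _ => if i = j then 1 else 0
  have e0 : ∀ j b, it T p (T.y j b) = T.y j b + T.q (j + 1) - T.q j := fun j b => by
    rw [it_y, T.per]
  have e1 : it T p (it T p r - r) = it T p r - r :=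
    ext_sp T ((it T p).comp (it T p - AddMonoidHom.id Λ)) (it T p - AddMonoidHom.id Λ)
      (fun j => by simp [it_q]) (fun j b _ _ => by simp [e0, it_q]) le_rfl hp hr
  have e2 : ∀ l : ℕ, it T (l * p) r = r + l • (it T p r - r) := fun l => by
    induction l with
    | zero => simp [it]
    | succ l ih => rw [Nat.succ_mul, it_add, ih, map_add, map_nsmul, e1, succ_nsmul]; abel
  have e3 : ∀ i < m, 2 * φ (i + 1) r - φ i r - φ (i + 2) r ≤ 0 := fun i hi => by
    have h1 : Q.ω (e (sh T) i) (it T p r - r) = 2 * φ (i + 1) r - φ i r - φ (i + 2) r :=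
      ext_sp T ((Q.ω (e (sh T) i)).comp (it T p - AddMonoidHom.id Λ))
        ((2 : ℤ) • φ (i + 1) - φ i - φ (i + 2)) (fun j => by simp [it_q, hq])
        (fun j b h1 h2 => by
          have h3 := om_q T (i + 1) (j + 1)
          have h4 := om_q T (i + 1) j
          change Q.ω (e T (i + 1)) (it T p _ - _) = 2 * φ (i + 1) _ - φ i _ - φ (i + 2) _
          rw [e0, hy _ _ _ h1 h2, hy _ _ _ h1 h2, hy _ _ _ h1 h2]
          simp only [AddMonoidHom.id_apply, map_sub, map_add]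
          split_ifs at h3 h4 ⊢ <;> omega) le_rfl hp hr
    by_contra hc
    have h2 := hd (((-Q.ω (e (sh T) i) r).toNat + 1) * p) i hi
    rw [e2, map_add, map_nsmul, h1, nsmul_eq_mul] at h2
    have h3 : (((-Q.ω (e (sh T) i) r).toNat + 1 : ℕ) : ℤ) * 1 ≤ _ :=
      mul_le_mul_of_nonneg_left (show 1 ≤ 2 * φ (i + 1) r - φ i r - φ (i + 2) r by omega)
        (by positivity)
    omega
  have e4 := CV_ind T (m := m) (P := fun x => (∀ j, 0 ≤ φ j x) ∧ φ 0 x = 0 ∧ φ (m + 1) x = 0 ∧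
      ((∀ j < m, φ (j + 1) x = 0) → QS (sh T) m x)) ⟨by simp, by simp, by simp,
      fun _ => ⟨fun _ => 0, by simp⟩⟩
    (fun x y hx hy => ⟨fun j => by rw [map_add]; exact add_nonneg (hx.1 j) (hy.1 j),
      by rw [map_add, hx.2.1, hy.2.1]; rfl, by rw [map_add, hx.2.2.1, hy.2.2.1]; rfl, fun h => by
        have h1 : ∀ j < m, φ (j + 1) x = 0 ∧ φ (j + 1) y = 0 := fun j hj => by
          have := h j hj
          have := hx.1 (j + 1)
          have := hy.1 (j + 1)
          rw [map_add] at *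
          omega
        exact QS.add _ _ (hx.2.2.2 fun j hj => (h1 j hj).1) (hy.2.2.2 fun j hj => (h1 j hj).2)⟩)
    (fun j hj => ⟨fun i => (hq i _).ge, hq _ _, hq _ _,
      fun _ => one_nsmul (T.q (j + 1)) ▸ QS.single (sh T) hj 1⟩)
    (fun j hj b h1 h2 => ⟨fun i => by rw [hy _ _ _ h1 h2]; split_ifs <;> omega,
      by rw [hy _ _ _ h1 h2, if_neg (by omega)], by rw [hy _ _ _ h1 h2, if_neg (by omega)],
      fun h => by
        have := h j hj
        rw [hy _ _ _ h1 h2, if_pos rfl] at this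
        omega⟩) _ hr
  have e5 : ∀ j, φ j (r - T.y 0 1 + I • T.q 0) = φ j r - if 0 = j then 1 else 0 := fun j => by
    rw [map_add, map_sub, map_nsmul, hq, hy _ _ _ le_rfl hp, smul_zero, add_zero]
  simp only [e5] at e4
  obtain ⟨a1, a2, a3, a4⟩ := e4
  have up : ∀ j k, j + k ≤ m → φ j r ≤ φ (j + 1) r →
      φ (j + k) r ≤ φ (j + k + 1) r ∧ φ (j + 1) r ≤ φ (j + k + 1) r := by
    intro j k
    induction k with
    | zero => exact fun _ h => ⟨h, le_rfl⟩
    | succ k ih =>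
      intro hk h
      have h1 := ih (by omega) h
      have h2 := e3 (j + k) (by omega)
      rw [← add_assoc]
      exact ⟨by change _ ≤ φ (j + k + 2) r; omega, by change _ ≤ φ (j + k + 2) r; omega⟩
  have fin : ∀ j ≤ m, φ j r ≤ 1 ∧ φ (j + 1) r ≤ 0 := by
    have st : ∀ j ≤ m, φ j r ≤ 1 → φ (j + 1) r ≤ 0 := fun j hj h => by
      by_contra hc
      have h1 := (up j (m - j) (by omega) (by omega)).2
      rw [show j + (m - j) = m by omega] at h1
      rw [if_neg (by omega)] at a3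
      omega
    intro j
    induction j with
    | zero => exact fun h => ⟨by simp at a2; omega, st 0 h (by simp at a2; omega)⟩
    | succ j ih => exact fun h => ⟨by have := ih (by omega); omega,
        st _ h (by have := ih (by omega); omega)⟩
  refine a4 fun j hj => ?_
  have h1 := a1 (j + 1)
  have h2 := (fin j hj.le).2
  rw [if_neg (by omega)] at h1 ⊢
  omega

theorem theta (lam : ℕ → ℝ) (s : ℝ) : ∃ θ : Λ →+ ℝ,
    (∀ j, θ (T.q (j + 2)) - θ (T.q (j + 1)) = lam j) ∧ ∀ j b (k : ℕ), 1 ≤ b → b ≤ p →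
      θ (T.y (j + 1) (b + k * p)) - θ (T.q (j + 1)) = (k - s) * lam j := by
  obtain ⟨θ, h1, h2⟩ := (sh T).lift ℝ (fun j => ∑ i ∈ range j, lam i)
    fun j _ => ∑ i ∈ range j, lam i - s * lam j
  have h3 : ∀ j, θ (T.q (j + 2)) - θ (T.q (j + 1)) = lam j := fun j => by
    rw [show θ (T.q (j + 2)) = _ from h1 (j + 1), show θ (T.q (j + 1)) = _ from h1 j,
      sum_range_succ, add_sub_cancel_left]
  refine ⟨θ, h3, fun j b k hb hb' => ?_⟩
  rw [y_per, map_add, map_nsmul, map_sub, h3, show θ (T.y (j + 1) b) = _ from h2 j b hb hb',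
    show θ (T.q (j + 1)) = _ from h1 j, nsmul_eq_mul]
  ring

/-- the standing assumptions -/
structure St (c : K) (m : ℕ) (δ : Λ →+ ℤ) (g : (NS Q δ)ˣ) : Prop where
  C : Core Q
  hA : S_AT Q
  mi : S_MI Q
  ip : S_IP Q
  tb : (sh T).S_TB
  hc : c * (Q.tp (-1) * (Q.tp 1 - Q.tp (-1))) = 1
  hs : Seed δ ((sh T).sd m)
  hg : AT ((sh T).sd m) g
  dq : δ (T.q 0) = 0
  dq1 : δ (T.q 1) = 0
  dy : δ (T.y 0 1) = 0
  dv : ∀ x ∈ CV (sh T) m, 0 ≤ δ x

variable {T} {c : K} {m : ℕ} {g : (NS Q δ)ˣ}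

theorem St.rounds (S : St T c m δ g) (j : List K × List K) (M : ℕ) : ∀ θ : Λ →+ ℝ,
    (∀ i < m, ∀ b, 1 ≤ b → b ≤ M → θ (T.y (i + 1) b - T.q (i + 1)) < 0) →
    (∀ e ∈ (sh T).sd m, 0 ≤ θ (it T M e)) → ∀ r,
    (ex g θ (HH T c δ m M j)).co (it T M r) = (HH T c δ m 0 j).co r := by
  induction M with
  | zero => exact fun θ _ h r => by rw [ex_face S.hA S.hs S.hg θ h]; rfl
  | succ M ih =>
    intro θ h1 h2 r
    rw [it_succ, (tau T c S.C S.hA S.mi S.ip S.hc (sd_zero _ S.tb m ▸ S.hs)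
      (sd_zero _ S.tb m ▸ S.hg) M).2.2 θ fun i hi => h1 i hi 1 le_rfl (by omega)]
    refine ih _ (fun i hi b hb hM => ?_) h2 r
    have h := h1 i hi (b + 1) (by omega) (by omega)
    rw [← T.Φy, ← T.Φq, ← map_sub] at h
    exact h

theorem St.eval (S : St T c m δ g) {s : Λ} (hs : s ∈ AddSubgroup.closure (Set.range T.q)) (I0 : ℕ)
    (hd : ∀ I ≥ I0, ∀ i < m, Q.ω (e (sh T) i) (it T (I * p) (T.y 0 1 + s)) ≤ 0) :
    ∃ I ≥ I0, ∀ j, att g (HH T c δ m (I * p) j) (it T (I * p) (T.y 0 1 + s)) =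
      (HH T c δ m 0 j).co (T.y 0 1 + s) := by
  have hp := T.hp
  have ext : ∀ {A : Type} [AddCommGroup A] (F G : Λ →+ A), (∀ j, F (T.q j) = G (T.q j)) →
      F s = G s := fun F G h =>
    AddMonoidHom.eqOn_closure (f := F) (g := G) (by rintro _ ⟨j, rfl⟩; exact h j) hs
  set ρ : ℕ → Λ := fun I => T.y 0 1 + s + I • (T.q 1 - T.q 0) with hρ
  have h0 : ∀ I, it T (I * p) (T.y 0 1 + s) = ρ I := fun I => by
    rw [map_add, it_y, y_per, ext (it T (I * p)) (AddMonoidHom.id Λ) (it_q T _)]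
    simp only [hρ, AddMonoidHom.id_apply]
    abel
  set ε : ℕ → ℝ := fun i => if i = 0 then 1 else 0 with hε
  set a : ℕ → ℝ := fun i => -(Q.ω (T.y (i + 1) 1) s : ℝ) with ha
  have h1 : ∀ I i, Q.Av (ρ I) (T.q (i + 1)) = -ε i := fun I i => by
    simp only [hρ, hε, QD.Av_apply, map_add, map_nsmul, map_sub, T.qq, oq,
      ext (Q.ω (T.q (i + 1))) 0 (T.qq _)]
    split_ifs <;> simp
  have h2 : ∀ I i b, 1 ≤ b → b ≤ p → Q.Av (ρ I) (T.y (i + 1) b) = -a i - I * ε i := by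
    intro I i b hb hb'
    simp only [hρ, hε, ha, QD.Av_apply, map_add, map_nsmul, map_sub, T.yq, oy T i hb hb',
      ext (Q.ω (T.y (i + 1) b)) (Q.ω (T.y (i + 1) 1)) fun j => by rw [T.yq, T.yq]]
    rcases Nat.eq_zero_or_pos i with rfl | hi
    · simp [sub_eq_add_neg]
    · simp [hi.ne', hi.ne]
  set u : ℕ → ℝ := fun I => 1 / ((I : ℝ) + 1 / 2) with hu
  have u0 : ∀ I, 0 < u I := fun I => by simp only [hu]; positivity
  have u1 : ∀ I : ℕ, ((I : ℝ) + 1 / 2) * u I = 1 := fun I => by simp only [hu]; field_simp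
  have ul : Tendsto u atTop (𝓝 0) :=
    (tendsto_atTop_add_const_right _ (1 / 2 : ℝ) tendsto_natCast_atTop_atTop).const_div_atTop 1
  choose θ t1 t2 using fun I : ℕ => theta T (fun i => (a i + I * ε i + u I) * u I) (I + 1 / 2)
  have t3 : ∀ I i b, 1 ≤ b → b ≤ p →
      θ I (T.y (i + 1) b) - θ I (T.q (i + 1)) = -(a i + I * ε i + u I) := fun I i b hb hb' => by
    have h := t2 I i b 0 hb hb'
    rw [zero_mul, add_zero] at h
    rw [h]
    push_cast
    linear_combination -(a i + I * ε i + u I) * u1 I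
  have l1 : ∀ n ∈ AddSubmonoid.closure (((sh T).sd m : Finset Λ) : Set Λ),
      Tendsto (fun I => θ I n - Q.Av (ρ (I + 1)) n) atTop (𝓝 0) := by
    intro n hn
    induction hn using AddSubmonoid.closure_induction with
    | zero => simp
    | add x y _ _ hx hy =>
      simpa only [map_add, add_zero, add_sub_add_comm] using hx.add hy
    | mem x hx =>
      obtain ⟨i, -, rfl | rfl | ⟨b, hb, hb', rfl⟩⟩ := (S.tb.mem m x).1 hx
      · refine (neg_zero (G := ℝ) ▸ ul.neg).congr fun I => ?_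
        change _ = θ I (T.y (i + 1) 1 - T.q (i + 1)) - Q.Av _ (T.y (i + 1) 1 - T.q (i + 1))
        rw [map_sub, map_sub, t3 I i 1 le_rfl hp, h1, h2 _ i 1 le_rfl hp]
        push_cast
        ring
      · have h := ((ul.const_add (a i - ε i / 2)).mul ul).add ul
        rw [mul_zero, add_zero] at h
        refine h.congr fun I => ?_
        change _ = θ I (T.q (i + 2) - T.y (i + 1) p) - Q.Av _ (T.q (i + 1 + 1) - T.y (i + 1) p)
        have h3 : ε (i + 1) = 0 := by simp [hε]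
        rw [map_sub, map_sub, h1, h2 _ i p hp le_rfl, h3]
        push_cast
        linear_combination -t1 I i + t3 I i p hp le_rfl - ε i * u1 I
      · refine tendsto_const_nhds.congr fun I => ?_
        change _ = θ I (T.y (i + 1) (b + 1) - T.y (i + 1) b) -
          Q.Av _ (T.y (i + 1) (b + 1) - T.y (i + 1) b)
        rw [map_sub, map_sub, h2 _ i b hb hb'.le, h2 _ i (b + 1) (by omega) hb']
        linear_combination t3 I i b hb hb'.le - t3 I i (b + 1) (by omega) hb'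
  have l2 : ∀ᶠ I in atTop, ∀ n ∈ {x | x ∈ AddSubmonoid.closure (((sh T).sd m : Finset Λ) : Set Λ) ∧
      δ x ≤ δ (T.y 0 1 + s)}, |θ I n - Q.Av (ρ (I + 1)) n| < 1 :=
    (eventually_all_finite ((S.C.geo.level δ _ ((sh T).sd m).finite_toSet S.hs).2 _)).2
      fun n hn => by
        have h := (l1 n hn.1).abs
        rw [abs_zero] at h
        exact h.eventually (gt_mem_nhds one_pos)
  obtain ⟨I, hI, hI0⟩ := (l2.and (eventually_ge_atTop I0)).exists
  have lam : ∀ i < m, 0 < (a i + I * ε i + u I) * u I := fun i hi => by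
    have h : Q.Av (ρ (I + 1)) (T.y (i + 1) 1 - T.q (i + 1)) ≤ 0 := by
      have := hd (I + 1) (by omega) i hi
      rw [h0] at this
      rw [QD.Av_apply]
      exact_mod_cast this
    rw [map_sub, h1, h2 _ i 1 le_rfl hp] at h
    push_cast at h
    exact mul_pos (by linarith [u0 I]) (u0 I)
  refine ⟨I + 1, by omega, fun j => ?_⟩
  rw [← S.rounds j ((I + 1) * p) (θ I) (fun i hi b hb hM => ?_) (fun x hx => ?_), h0]
  · refine att_eq' S.C S.hg _ _ _ (δ (T.y 0 1 + s)) ((HH_sup T c S.ip δ m _ j).mono fun x hx => ?_)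
      fun n hn hD => hI n ⟨hn, hD⟩
    have h := S.dv _ hx
    rw [Nat.mul_mod_left, zero_add] at h
    simp only [hρ, map_add, map_sub, map_nsmul, S.dq, S.dq1, S.dy, smul_zero, sub_zero] at h ⊢
    omega
  · have e := Nat.div_add_mod (b - 1) p
    have e1 := Nat.mod_lt (b - 1) hp
    have e2 : (b - 1) / p < I + 1 := (Nat.div_lt_iff_lt_mul hp).2 (by omega)
    rw [show b = (b - 1) % p + 1 + (b - 1) / p * p by rw [mul_comm]; omega, map_sub,
      t2 I i _ _ (by omega) (by omega)]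
    have e3 : (((b - 1) / p : ℕ) : ℝ) ≤ I := by exact_mod_cast Nat.le_of_lt_succ e2
    exact mul_neg_of_neg_of_pos (by linarith) (lam i hi)
  · obtain ⟨i, hi, rfl | rfl | ⟨b, hb, hb', rfl⟩⟩ := (S.tb.mem m x).1 hx
    · change 0 ≤ θ I (it T _ (T.y (i + 1) 1 - T.q (i + 1)))
      rw [map_sub, it_y, it_q, map_sub, t2 I i 1 _ le_rfl hp]
      push_cast
      linarith [lam i hi]
    · change 0 ≤ θ I (it T _ (T.q (i + 2) - T.y (i + 1) p))
      have := t2 I i p (I + 1) hp le_rfl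
      rw [map_sub, it_y, it_q, map_sub]
      push_cast at this
      linarith [lam i hi, t1 I i]
    · change 0 ≤ θ I (it T _ (T.y (i + 1) (b + 1) - T.y (i + 1) b))
      rw [map_sub, it_y, it_y, map_sub]
      linarith [t2 I i b (I + 1) hb hb'.le, t2 I i (b + 1) (I + 1) (by omega) hb']

theorem St.key (S : St T c m δ g) (M : ℕ) (r : Λ) (j0 : List K × List K)
    (hne : ∀ n x, att g (HH T c δ m n j0) x ≠ 0 → (HH T c δ m n j0).co x ≠ 0)
    (h0 : att g (HH T c δ m M j0) r ≠ 0) :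
    ∃ x, (∀ j, att g (HH T c δ m M j) r = (HH T c δ m 0 j).co x) ∧
      (x - T.y 0 1 ∈ CV (sh T) m → QS (sh T) m (x - T.y 0 1)) := by
  have hp := T.hp
  choose nx k c0 c1 c2 using fun n => (tau T c S.C S.hA S.mi S.ip S.hc (sd_zero _ S.tb m ▸ S.hs)
    (sd_zero _ S.tb m ▸ S.hg) n).1
  obtain ⟨R, R0, R1⟩ : ∃ R : ℕ → Λ, R 0 = r ∧ ∀ n, R (n + 1) = nx (M + n) (R n) :=
    ⟨fun n => Nat.rec r (fun n x => nx (M + n) x) n, rfl, fun _ => rfl⟩
  have a1 : ∀ n j, att g (HH T c δ m (M + n) j) (R n) = att g (HH T c δ m M j) r := fun n j => by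
    induction n with
    | zero => rw [R0]; rfl
    | succ n ih => rw [R1, ← add_assoc, c1, ih]
  have a2 := fun n => HH_sup T c S.ip δ m (M + n) j0 (R n) (hne _ _ (a1 n j0 ▸ h0))
  obtain ⟨Y, hq, hy⟩ := T.lift ℤ (fun _ => 0) fun i _ => if i = 0 then 0 else 1
  have a3 : ∀ n, Y (R n) = Y (R (n + 1)) + ∑ l ∈ range m, (k (M + n) (R n) l : ℤ) := fun n => by
    have h1 := ext_sp T (Y.comp T.Φ.toAddMonoidHom) Y (fun j => congrArg Y (T.Φq j))
      (fun j b h1 h2 => by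
        change Y (T.Φ _) = _
        rw [T.Φy, hy j b h1 h2]
        rcases h2.eq_or_lt with rfl | h2
        · rw [add_comm b 1, T.per, map_sub, map_add, hq, hq, hy j 1 le_rfl h1]
          simp
        · exact hy j _ (by omega) h2) (by omega) (Nat.mod_lt _ hp) (a2 n)
    rw [← h1, R1]
    change Y (T.Φ _) = _
    rw [c0, map_add, map_sum]
    refine congrArg _ (sum_congr rfl fun l _ => ?_)
    change Y (_ • (T.y (l + 1) 1 - T.q (l + 1))) = _
    simp [hq, hy _ 1 le_rfl hp]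
  have a4 : ∀ n, 0 ≤ Y (R n) := fun n => by
    have h := CV_ind T (P := fun x => 0 ≤ Y x) (by simp)
      (fun x y hx hy => by rw [map_add]; omega) (fun j _ => (hq _).ge)
      (fun j _ b h1 h2 => by rw [hy _ b h1 h2]; simp) _ (a2 n)
    simpa [hq, hy 0 _ (Nat.succ_le_succ (Nat.zero_le _)) (Nat.mod_lt (M + n) hp)] using h
  obtain ⟨n0, hn0⟩ : ∃ n0, ∀ n, (Y (R n0)).toNat ≤ (Y (R n)).toNat :=
    ⟨_, fun n => Function.argmin_le (fun n => (Y (R n)).toNat) n⟩
  have nn : ∀ n, 0 ≤ ∑ l ∈ range m, (k (M + n) (R n) l : ℤ) := fun n => by positivity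
  have a5 : ∀ n, n0 ≤ n → Y (R n) = Y (R n0) := fun n hn => by
    induction n, hn using Nat.le_induction with
    | base => rfl
    | succ n _ ih =>
      have := a3 n; have := nn n; have := hn0 (n + 1); have := a4 (n + 1); have := a4 n0
      omega
  have a6 : ∀ n, n0 ≤ n → R (n + 1) = T.Φ (R n) ∧ ∀ l < m, Q.ω (e (sh T) l) (R (n + 1)) ≤ 0 := by
    intro n hn
    have h1 : ∀ l < m, k (M + n) (R n) l = 0 := fun l hl => by
      have h2 := a3 n
      rw [a5 n hn, a5 (n + 1) (by omega), left_eq_add] at h2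
      exact_mod_cast (sum_eq_zero_iff_of_nonneg fun i _ => by positivity).1 h2 l (mem_range.2 hl)
    rw [R1]
    exact ⟨by rw [c0, sum_eq_zero fun l hl => by rw [h1 l (mem_range.1 hl), zero_smul], add_zero],
      c2 _ _ h1⟩
  obtain ⟨n1, I, h1, h2⟩ : ∃ n1 I, n0 ≤ n1 ∧ M + (n1 + 1) = I * p :=
    ⟨(M + n0 + 1) * p - M - 1, M + n0 + 1, by have := Nat.le_mul_of_pos_right (M + n0 + 1) hp; omega,
      by have := Nat.le_mul_of_pos_right (M + n0 + 1) hp; omega⟩
  have a7 : ∀ l, R (n1 + l + 1) = it T l (R (n1 + 1)) := fun l => by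
    induction l with
    | zero => rfl
    | succ l ih => rw [it_succ, ← ih, ← add_assoc, (a6 _ (by omega)).1]
  have a8 : ∀ l, ∀ i < m, Q.ω (e (sh T) i) (it T l (R (n1 + 1))) ≤ 0 := fun l =>
    a7 l ▸ (a6 _ (by omega)).2
  have a9 := a2 (n1 + 1)
  rw [h2, Nat.mul_mod_left, Nat.mul_div_cancel _ hp, zero_add] at a9
  obtain ⟨ν, hν⟩ := convex T a9 a8
  set s := ∑ j ∈ range (m + 1), ν j • (sh T).q j - I • T.q 1 with hs
  have hq' : ∀ j, T.q j ∈ AddSubgroup.closure (Set.range T.q) := fun j =>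
    AddSubgroup.subset_closure ⟨j, rfl⟩
  have b0 : ∀ l, it T l s = s := fun l => by
    simp only [hs, map_sub, map_sum, map_nsmul, it_q, show ∀ j, (sh T).q j = T.q (j + 1) from
      fun _ => rfl]
  have b1 : ∀ l, it T (I * p + l) (T.y 0 1 + s) = it T l (R (n1 + 1)) := fun l => by
    rw [it_add, map_add (it T (I * p)), b0, it_y, y_per, hs, ← hν, smul_sub]
    congr 1
    abel
  obtain ⟨I', hI, e⟩ := S.eval (s := s)
    (sub_mem (sum_mem fun j _ => nsmul_mem (hq' _) _) (nsmul_mem (hq' _) _)) I fun I' hI => by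
      obtain ⟨l, rfl⟩ := Nat.exists_eq_add_of_le hI
      rw [add_mul, b1]
      exact a8 _
  obtain ⟨l, rfl⟩ := Nat.exists_eq_add_of_le hI
  refine ⟨T.y 0 1 + s, fun j => ?_, fun h => ?_⟩
  · rw [← e, add_mul, b1, ← a7, ← a1 (n1 + l * p + 1), ← h2]
    congr 2
    omega
  · obtain ⟨χ, x1, x2⟩ := (sh T).lift ℤ (fun j => if j = 0 then 1 else 0) fun _ _ => 0
    have h3 := CV_ind T (P := fun x => 0 ≤ χ x) (by simp)
      (fun x y hx hy => by rw [map_add]; omega)
      (fun j _ => by rw [show χ (T.q (j + 1)) = _ from x1 j]; split_ifs <;> omega)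
      (fun j _ b h1 h2 => (x2 j b h1 h2).ge) _ h
    rw [add_sub_cancel_left] at h3 ⊢
    rw [hs, map_sub, map_sum, map_nsmul, show χ (T.q 1) = _ from x1 0, sum_range_succ'] at h3
    simp only [map_nsmul, x1] at h3
    obtain ⟨d, hd⟩ : ∃ d, ν 0 = d + I := ⟨ν 0 - I, by simp at h3; omega⟩
    refine ⟨fun j => if j = 0 then d else ν j, ?_⟩
    rw [hs, sum_range_succ', sum_range_succ', hd, add_smul]
    simp only [Nat.succ_ne_zero, if_false, if_true]
    exact (congrArg (· - _) (add_assoc _ _ _).symm).trans (add_sub_cancel_right _ _)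

theorem exc (Q : QD Λ K) : ∃ c : K, c * (Q.tp (-1) * (Q.tp 1 - Q.tp (-1))) = 1 := by
  obtain ⟨a, ha⟩ := ((PowerSeries.isUnit_iff_constantCoeff (φ := (1 - PowerSeries.X :
    PowerSeries ℚ))).2 (by simp)).exists_left_inv
  have h := congrArg Q.ι ha
  rw [map_mul, map_sub, map_one, Q.hι, ← Q.tp_nat] at h
  refine ⟨-Q.ι a * Q.tp 2, ?_⟩
  have h1 : Q.tp 2 * (Q.tp (-1) * Q.tp 1) = Q.tp 2 := by rw [← Q.tp_add, ← Q.tp_add]; rfl
  have h2 : Q.tp 2 * (Q.tp (-1) * Q.tp (-1)) = 1 := by rw [← Q.tp_add, ← Q.tp_add]; exact Q.tp_zero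
  push_cast at h
  linear_combination h - Q.ι a * h1 + Q.ι a * h2

/-- the marked product with the marker at the place `b` -/
noncomputable def MP (T : Td Q p) (δ : Λ →+ ℤ) (m b : ℕ) (j : List K × List K) : NS Q δ :=
  (sh T).F δ m j.1 * NS.z (T.y 0 b) * (sh T).F δ m j.2

theorem main (T : Td Q p) (C : Core Q) (hA : S_AT Q) (mi : S_MI Q) (bl : ∀ δ, S_BL Q δ)
    (ip : S_IP Q) (f1 : S_F1 Q) (tb : (sh T).S_TB) (m : ℕ) : ∃ δ : Λ →+ ℤ,
    ∀ (L0 L : Subsemiring K) (c1 c2 : K) (j1 j2 : List K × List K), Q.HasT L0 → Q.HasT L →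
    (∀ a ∈ L0, -a ∈ L0 → a = 0) → ((∀ x ∈ j1.1, x ∈ L0) ∧ ∀ x ∈ j1.2, x ∈ L0) →
    ((∀ x ∈ j2.1, x ∈ L0) ∧ ∀ x ∈ j2.2, x ∈ L0) →
    (∀ μ : ℕ → ℕ, (c1 • MP T δ m 1 j1 + c2 • MP T δ m 1 j2).co
      (T.y 0 1 + ∑ i ∈ range (m + 1), μ i • T.q (i + 1)) ∈ L) →
    ∀ r, (c1 • MP T δ m p j1 + c2 • MP T δ m p j2).co r ∈ L := by
  have hp := T.hp
  obtain ⟨δ, d1, d2⟩ := T.lift ℤ (fun j => ((j - 1 : ℕ) : ℤ) * (p + 1))
    fun j b => if j = 0 then 0 else ((j - 1 : ℕ) : ℤ) * (p + 1) + b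
  have hδ : ∀ v, δ ((sh T).u v) = v := fun v => by
    have h2 : v % (p + 1) < p + 1 := Nat.mod_lt v p.succ_pos
    have h3 : ((v / (p + 1) : ℕ) : ℤ) * (p + 1) + (v % (p + 1) : ℕ) = v := by
      exact_mod_cast Nat.div_add_mod' v (p + 1)
    rw [Td.u, ← h3]
    split_ifs with h
    · rw [h]
      exact (d1 _).trans (add_zero _).symm
    · exact (d2 _ _ (Nat.pos_of_ne_zero h) (Nat.le_of_lt_succ h2)).trans
        (if_neg (Nat.succ_ne_zero _))
  have hs : Seed δ ((sh T).sd m) := by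
    intro e he
    classical
    obtain ⟨v, _, rfl⟩ := Finset.mem_image.mp he
    rw [map_sub, hδ, hδ]
    omega
  obtain ⟨g, hg⟩ := hA.ex δ _ hs
  obtain ⟨c, hc⟩ := exc Q
  have S : St T c m δ g := ⟨C, hA, mi, ip, tb, hc, hs, hg, by simp [d1], by simp [d1],
    by simp [d2 0 1 le_rfl hp], CV_ind T (by simp) (fun x y hx hy => by rw [map_add]; omega)
      (fun j _ => by rw [d1]; positivity) fun j _ b h1 h2 => by
        rw [d2 _ b h1 h2, if_neg (by omega)]; positivity⟩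
  have e0 : ∀ M < p, ∀ j, HH T c δ m M j = MP T δ m (M + 1) j := fun M hM j => by
    rw [HH, Nat.div_eq_of_lt hM, Nat.mod_eq_of_lt hM, MP, F_eq _ ip, F_eq _ ip]
    rfl
  refine ⟨δ, fun L0 L c1 c2 j1 j2 hL0 hL hneg x1 x2 hF r => ?_⟩
  have pos : ∀ j : List K × List K, ((∀ x ∈ j.1, x ∈ L0) ∧ ∀ x ∈ j.2, x ∈ L0) →
      ∀ n x, att g (HH T c δ m n j) x ≠ 0 → (HH T c δ m n j).co x ≠ 0 := by
    intro j hj n
    have h0 : ∀ x, att g (HH T c δ m n j) x ∈ L0 := by
      induction n with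
      | zero =>
        intro x
        have hz := att_z (C.grp δ) hg (κ := T.y 0 1) (fun v hv => by
          obtain ⟨i, -, rfl | rfl | ⟨b, hb, hb', rfl⟩⟩ := (tb.mem m v).1 hv
          · change 0 ≤ Q.ω (T.y (i + 1) 1 - T.q (i + 1)) _
            rw [map_sub, AddMonoidHom.sub_apply, oy T i le_rfl hp, oq]
            split_ifs <;> omega
          · change 0 ≤ Q.ω (T.q (i + 1 + 1) - T.y (i + 1) p) _
            rw [map_sub, AddMonoidHom.sub_apply, oy T i hp le_rfl, oq]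
            simp
          · change 0 ≤ Q.ω (T.y (i + 1) (b + 1) - T.y (i + 1) b) _
            rw [map_sub, AddMonoidHom.sub_apply, oy T i hb hb'.le, oy T i (by omega) hb']
            simp) L0
        rw [e0 0 hp, att, MP, ex, cj_mul', cj_mul']
        refine (C.grp δ).pos_mul L0 hL0 _ _ ((C.grp δ).pos_mul L0 hL0 _ _
          (ex_pos _ C f1 tb hδ hs hg hL0 _ _ hj.1) fun y => ?_)
          (ex_pos _ C f1 tb hδ hs hg hL0 _ _ hj.2) x
        simpa only [sub_add_cancel, ex] using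
          L0.add_mem (bl δ _ g hs hg L0 hL0 _ hz (Q.Av x) y) (hz y)
      | succ n ih =>
        intro x
        obtain ⟨y, h⟩ := (tau T c C hA mi ip hc (sd_zero _ tb m ▸ hs) (sd_zero _ tb m ▸ hg) n).2.1 x
        exact h j ▸ ih y
    intro x hx h5
    have h6 := bl δ _ g hs hg L0 hL0 _ h0 0 x
    rw [ex_face hA hs hg 0 fun _ _ => le_rfl, h5, zero_sub] at h6
    exact hx (hneg _ (h0 x) h6)
  have e1 := e0 (p - 1) (by omega)
  rw [show p - 1 + 1 = p by omega] at e1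
  simp only [← e0 0 hp, ← e1] at hF ⊢
  have hb : ∀ x, att g (c1 • HH T c δ m (p - 1) j1 + c2 • HH T c δ m (p - 1) j2) x ∈ L := by
    intro x
    have e : att g (c1 • HH T c δ m (p - 1) j1 + c2 • HH T c δ m (p - 1) j2) x =
        c1 * att g (HH T c δ m (p - 1) j1) x + c2 * att g (HH T c δ m (p - 1) j2) x := by
      rw [att, ex, IpA.cj_add, IpA.cj_smul, IpA.cj_smul]
      rfl
    rw [e]
    by_cases h : att g (HH T c δ m (p - 1) j1) x = 0 ∧ att g (HH T c δ m (p - 1) j2) x = 0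
    · simp [h.1, h.2]
    obtain ⟨y, h1, h2⟩ := (not_and_or.1 h).elim (S.key _ x j1 (pos j1 x1)) (S.key _ x j2 (pos j2 x2))
    rw [h1, h1]
    by_cases h3 : y - T.y 0 1 ∈ CV (sh T) m
    · obtain ⟨μ, h4⟩ := h2 h3
      rw [sub_eq_iff_eq_add'.1 h4]
      exact hF μ
    · have h4 : ∀ j, (HH T c δ m 0 j).co y = 0 := fun j => by_contra fun h5 =>
        h3 (by simpa using HH_sup T c ip δ m 0 j y h5)
      simp [h4]
  have h1 := bl δ _ g hs hg L hL _ hb 0 r
  rw [ex_face hA hs hg 0 fun _ _ => le_rfl] at h1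
  simpa only [sub_add_cancel] using L.add_mem h1 (hb r)

end Pt

end Pool.Agent.P.MP_389f6f_co.Qt
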