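import Pool.Agent.P.MP_389f6f_co.QDefs

/-! Independence polynomials in the quantum torus. -/

set_option autoImplicit false

namespace Pool.Agent.P.MP_389f6f_co.Qt
open Finset

namespace IpA

variable {Λ K : Type} [AddCommGroup Λ] [CommRing K] {Q : QD Λ K} {δ : Λ →+ ℤ}

theorem cj_add (u : (NS Q δ)ˣ) (f g : NS Q δ) : cj u (f + g) = cj u f + cj u g := by
  simp [cj, mul_add, add_mul]

theorem cj_smul (u : (NS Q δ)ˣ) (c : K) (f : NS Q δ) : cj u (c • f) = c • cj u f := by
  simp [cj]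

theorem cj_zero (u : (NS Q δ)ˣ) : cj u (0 : NS Q δ) = 0 := by simp [cj]

theorem cj_one' (u : (NS Q δ)ˣ) : cj u (1 : NS Q δ) = 1 := by simp [cj]

theorem cj_sum {α : Type} (u : (NS Q δ)ˣ) (s : Finset α) (f : α → NS Q δ) :
    cj u (∑ i ∈ s, f i) = ∑ i ∈ s, cj u (f i) := by
  simp only [cj, mul_sum, sum_mul]

/-- independent set -/
def Ind {W : Type} (adj : W → W → Prop) (A : Finset W) : Prop := ∀ a ∈ A, ∀ b ∈ A, ¬adj a b

open Classical in
/-- the term of a vertex set -/
noncomputable def tm (Q : QD Λ K) (δ : Λ →+ ℤ) {W : Type} (vec : W → Λ) (adj : W → W → Prop)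
    (x : K) (A : Finset W) : NS Q δ :=
  if Ind adj A then x ^ A.card • NS.z (∑ v ∈ A, vec v) else 0

theorem ip_eq {W : Type} (V : Finset W) (vec : W → Λ) (adj : W → W → Prop) (x : K) :
    IP Q δ V vec adj x = ∑ A ∈ V.powerset, tm Q δ vec adj x A := by
  rw [IP, sum_filter]
  refine sum_congr rfl fun A _ => ?_
  unfold tm
  by_cases h : Ind adj A
  · rw [if_pos h]
    exact if_pos h
  · rw [if_neg h]
    exact if_neg h

theorem tm_zero {W : Type} {vec : W → Λ} {adj : W → W → Prop} {x : K} {A : Finset W} {a b : W}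
    (ha : a ∈ A) (hb : b ∈ A) (h : adj a b) : tm Q δ vec adj x A = 0 :=
  if_neg fun h' => h' a ha b hb h

theorem ip_sup {W : Type} {V : Finset W} {vec : W → Λ} {adj : W → W → Prop} {x : K} {r : Λ}
    (h : (IP Q δ V vec adj x).co r ≠ 0) : ∃ A ⊆ V, r = ∑ v ∈ A, vec v := by
  rw [ip_eq, NS.sum_co] at h
  obtain ⟨A, hA, h1⟩ := exists_ne_zero_of_sum_ne_zero h
  refine ⟨A, mem_powerset.1 hA, ?_⟩
  by_contra h2
  refine h1 ?_
  unfold tm
  split_ifs
  · rw [NS.smul_co, NS.z_co, if_neg h2, mul_zero]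
  · rfl

theorem supp {W : Type} (V : Finset W) (vec : W → Λ) (adj : W → W → Prop) (xs : List K) :
    ∀ r : Λ, (FP Q δ V vec adj xs).co r ≠ 0 →
      ∃ w : W → ℕ, (∀ v, w v ≤ xs.length) ∧ r = ∑ v ∈ V, w v • vec v := by
  classical
  induction xs with
  | nil =>
    intro r h
    refine ⟨fun _ => 0, fun _ => le_rfl, ?_⟩
    by_contra h2
    refine h ?_
    rw [FP, List.map_nil, List.prod_nil, NS.one_co, if_neg]
    simpa using h2
  | cons x xs ih =>
    intro r h
    rw [FP, List.map_cons, List.prod_cons] at h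
    obtain ⟨a, h1, h2⟩ := NS.conv_ne h
    obtain ⟨A, hA, rfl⟩ := ip_sup h1
    obtain ⟨w, hw, e⟩ := ih _ h2
    refine ⟨fun v => w v + if v ∈ A then 1 else 0, fun v => ?_, ?_⟩
    · have := hw v
      simp only [List.length_cons]
      split_ifs <;> omega
    · simp only [add_smul, sum_add_distrib, ← e, ite_smul, one_smul, zero_smul, sum_ite_mem,
        inter_eq_right.2 hA, sub_add_cancel]

theorem fin {W : Type} (V : Finset W) (vec : W → Λ) (adj : W → W → Prop) (xs : List K) :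
    {x | (FP Q δ V vec adj xs).co x ≠ 0}.Finite := by
  refine (Set.finite_range fun w : V → Fin (xs.length + 1) =>
    ∑ v : V, (w v : ℕ) • vec v).subset fun r hr => ?_
  obtain ⟨w, hw, rfl⟩ := supp V vec adj xs r hr
  exact ⟨fun v => ⟨w v, Nat.lt_succ_of_le (hw v)⟩, sum_coe_sort V fun v => w v • vec v⟩

theorem map_ip {δ' : Λ →+ ℤ} (Φ : Λ ≃+ Λ) {W W' : Type} (V : Finset W)
    (V' : Finset W') (vec : W → Λ) (vec' : W' → Λ) (adj : W → W → Prop) (adj' : W' → W' → Prop)
    (e : W → W') (h1 : Set.InjOn e V) (h2 : ∀ w, w ∈ V' ↔ ∃ v ∈ V, e v = w)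
    (h3 : ∀ a ∈ V, ∀ b ∈ V, adj' (e a) (e b) ↔ adj a b) (h4 : ∀ a ∈ V, vec' (e a) = Φ (vec a))
    (x : K) : Tr Φ (IP Q δ V vec adj x) (IP Q δ' V' vec' adj' x) := by
  classical
  intro r
  rw [ip_eq, ip_eq, NS.sum_co, NS.sum_co]
  symm
  refine sum_bij (fun A _ => A.image e) (fun A hA => ?_) (fun A hA B hB hAB => ?_)
    (fun A' hA' => ?_) fun A hA => ?_
  · refine mem_powerset.2 fun w hw => ?_
    obtain ⟨v, hv, rfl⟩ := mem_image.1 hw
    exact (h2 _).2 ⟨v, mem_powerset.1 hA hv, rfl⟩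
  · have key : ∀ A B : Finset W, A ⊆ V → B ⊆ V → A.image e = B.image e → A ⊆ B :=
      fun A B hA hB h a ha => by
        obtain ⟨b, hb, hab⟩ := mem_image.1 (h ▸ mem_image_of_mem e ha)
        exact h1 (hB hb) (hA ha) hab ▸ hb
    exact (key A B (mem_powerset.1 hA) (mem_powerset.1 hB) hAB).antisymm
      (key B A (mem_powerset.1 hB) (mem_powerset.1 hA) hAB.symm)
  · refine ⟨V.filter fun v => e v ∈ A', mem_powerset.2 (filter_subset _ _), ?_⟩
    ext w
    simp only [mem_image, mem_filter]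
    constructor
    · rintro ⟨v, hv, rfl⟩
      exact hv.2
    · intro hw
      obtain ⟨v, hv, rfl⟩ := (h2 w).1 (mem_powerset.1 hA' hw)
      exact ⟨v, ⟨hv, hw⟩, rfl⟩
  · have hV := mem_powerset.1 hA
    have hi : Set.InjOn e A := h1.mono hV
    have hiff : Ind adj' (A.image e) ↔ Ind adj A := by
      simp only [Ind, forall_mem_image]
      exact ⟨fun h a ha b hb h' => h ha hb ((h3 a (hV ha) b (hV hb)).2 h'),
        fun h a ha b hb h' => h a ha b hb ((h3 a (hV ha) b (hV hb)).1 h')⟩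
    unfold tm
    by_cases h : Ind adj A
    · rw [if_pos h, if_pos (hiff.2 h), NS.smul_co, NS.smul_co, NS.z_co, NS.z_co,
        card_image_of_injOn hi, sum_image hi, sum_congr rfl fun a ha => h4 a (hV ha), ← map_sum]
      simp only [Φ.apply_eq_iff_eq]
    · rw [if_neg h, if_neg (mt hiff.1 h)]
      rfl

theorem ind_insert {W : Type} [DecidableEq W] {adj : W → W → Prop}
    (hs : ∀ a b, adj a b → adj b a) (hi : ∀ a, ¬adj a a) (q : W) (S : Finset W) :
    Ind adj (insert q S) ↔ Ind adj S ∧ ∀ v ∈ S, ¬adj v q := by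
  simp only [Ind, forall_mem_insert]
  exact ⟨fun h => ⟨fun a ha => (h.2 a ha).2, fun v hv => (h.2 v hv).1⟩,
    fun h => ⟨⟨hi q, fun b hb h' => h.2 b hb (hs _ _ h')⟩, fun a ha => ⟨h.2 a ha, h.1 a ha⟩⟩⟩

theorem move (S : S_SER Q δ) {W : Type} (C V V' : Finset W) (vec : W → Λ) (adj : W → W → Prop)
    (q q' y y' : W) (hs : ∀ a b, adj a b → adj b a) (hi : ∀ a, ¬adj a a)
    (hV : ∀ w, w ∈ V ↔ w = y ∨ w ∈ C) (hV' : ∀ w, w ∈ V' ↔ w = y' ∨ w ∈ C) (hy : y ∉ C)
    (hy' : y' ∉ C) (hq : q ∈ C) (hq' : q' ∈ C) (hne : q ≠ q') (a1 : adj q y) (a2 : adj q' y)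
    (a3 : adj q y') (a4 : adj q' y')
    (hC : ∀ v ∈ C, v ≠ q → v ≠ q' → (adj v q ↔ adj v y) ∧ (adj v q' ↔ adj v y') ∧
      Q.ω (vec y - vec q) (vec v) = 0)
    (e1 : vec y' = vec q' + (vec y - vec q)) (w1 : Q.ω (vec y - vec q) (vec q) = -1)
    (w2 : Q.ω (vec y - vec q) (vec q') = 1) (hδ : 1 ≤ δ (vec y - vec q)) (x : K) :
    cj (FF Q δ (vec y - vec q)) (IP Q δ V vec adj x) = IP Q δ V' vec adj x := by
  classical
  set n := vec y - vec q with hn
  set C0 := (C.erase q).erase q' with hC0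
  have hC1 : C = insert q (insert q' C0) := by
    rw [hC0, insert_erase (mem_erase.2 ⟨hne.symm, hq'⟩), insert_erase hq]
  have n1 : q' ∉ C0 := notMem_erase _ _
  have n2 : q ∉ insert q' C0 := by simp [hC0, hne]
  have eV : V = insert y (insert q (insert q' C0)) := by
    ext w
    rw [hV, ← hC1, mem_insert]
  have eV' : V' = insert y' (insert q (insert q' C0)) := by
    ext w
    rw [hV', ← hC1, mem_insert]
  have n3 : y ∉ insert q (insert q' C0) := hC1 ▸ hy
  have n4 : y' ∉ insert q (insert q' C0) := hC1 ▸ hy'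
  rw [ip_eq, ip_eq, eV, eV', sum_powerset_insert n3, sum_powerset_insert n4]
  simp only [sum_powerset_insert n2, sum_powerset_insert n1, ← sum_add_distrib]
  rw [cj_sum]
  refine sum_congr rfl fun A hA => ?_
  have hA0 : ∀ v ∈ A, v ∈ C ∧ v ≠ q ∧ v ≠ q' := fun v hv => by
    have := mem_powerset.1 hA hv
    simp only [hC0, mem_erase] at this
    exact ⟨this.2.2, this.2.1, this.1⟩
  have hA1 := fun v hv => hC v (hA0 v hv).1 (hA0 v hv).2.1 (hA0 v hv).2.2
  have m1 : q ∉ A := fun h => (hA0 q h).2.1 rfl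
  have m2 : q' ∉ A := fun h => (hA0 q' h).2.2 rfl
  have m3 : y ∉ A := fun h => hy (hA0 y h).1
  have m4 : y' ∉ A := fun h => hy' (hA0 y' h).1
  have m5 : q ∉ insert q' A := by simp [hne, m1]
  have hp : Q.ω n (∑ v ∈ A, vec v) = 0 := by
    rw [map_sum]
    exact sum_eq_zero fun v hv => (hA1 v hv).2.2
  have z1 : tm Q δ vec adj x (insert y (insert q' A)) = 0 := tm_zero (by simp) (by simp) a2
  have z2 : tm Q δ vec adj x (insert y (insert q A)) = 0 := tm_zero (by simp) (by simp) a1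
  have z3 : tm Q δ vec adj x (insert y (insert q (insert q' A))) = 0 :=
    tm_zero (by simp) (by simp) a1
  have z4 : tm Q δ vec adj x (insert y' (insert q' A)) = 0 := tm_zero (by simp) (by simp) a4
  have z5 : tm Q δ vec adj x (insert y' (insert q A)) = 0 := tm_zero (by simp) (by simp) a3
  have z6 : tm Q δ vec adj x (insert y' (insert q (insert q' A))) = 0 :=
    tm_zero (by simp) (by simp) a3
  have fix : ∀ B : Finset W, Q.ω n (∑ v ∈ B, vec v) = 0 →
      cj (FF Q δ n) (tm Q δ vec adj x B) = tm Q δ vec adj x B := fun B hB => by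
    unfold tm
    split_ifs
    · rw [cj_smul, (S.mono n _ hδ).1 hB]
    · exact cj_zero _
  have c1 := fix A hp
  have c2 := fix (insert q (insert q' A)) (by
    rw [sum_insert m5, sum_insert m2, map_add, map_add, w1, w2, hp]; rfl)
  have c3 : cj (FF Q δ n) (tm Q δ vec adj x (insert q A) + tm Q δ vec adj x (insert y A)) =
      tm Q δ vec adj x (insert q A) := by
    have hiff : Ind adj (insert y A) ↔ Ind adj (insert q A) := by
      rw [ind_insert hs hi, ind_insert hs hi]
      exact and_congr_right fun _ => forall₂_congr fun v hv => (hA1 v hv).1.not.symm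
    unfold tm
    by_cases h : Ind adj (insert q A)
    · have e : ∑ v ∈ insert y A, vec v = ∑ v ∈ insert q A, vec v + n := by
        rw [sum_insert m1, sum_insert m3, hn]
        abel
      rw [if_pos h, if_pos (hiff.2 h), card_insert_of_notMem m1, card_insert_of_notMem m3,
        ← smul_add, cj_smul, e, (S.mono n _ hδ).2.2]
      rw [sum_insert m1, map_add, w1, hp, add_zero]
    · rw [if_neg h, if_neg (mt hiff.1 h), add_zero, cj_zero]
  have c4 : cj (FF Q δ n) (tm Q δ vec adj x (insert q' A)) =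
      tm Q δ vec adj x (insert q' A) + tm Q δ vec adj x (insert y' A) := by
    have hiff : Ind adj (insert y' A) ↔ Ind adj (insert q' A) := by
      rw [ind_insert hs hi, ind_insert hs hi]
      exact and_congr_right fun _ => forall₂_congr fun v hv => (hA1 v hv).2.1.not.symm
    unfold tm
    by_cases h : Ind adj (insert q' A)
    · have e : ∑ v ∈ insert y' A, vec v = ∑ v ∈ insert q' A, vec v + n := by
        rw [sum_insert m2, sum_insert m4, e1]
        abel
      rw [if_pos h, if_pos (hiff.2 h), card_insert_of_notMem m2, card_insert_of_notMem m4,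
        ← smul_add, cj_smul, e, (S.mono n _ hδ).2.1]
      rw [sum_insert m2, map_add, w2, hp, add_zero]
    · rw [if_neg h, if_neg (mt hiff.1 h), add_zero, cj_zero]
  rw [z1, z2, z3, z4, z5, z6]
  have e : tm Q δ vec adj x A + tm Q δ vec adj x (insert q' A) +
      (tm Q δ vec adj x (insert q A) + tm Q δ vec adj x (insert q (insert q' A))) +
      (tm Q δ vec adj x (insert y A) + 0 + (0 + 0)) =
      tm Q δ vec adj x A + tm Q δ vec adj x (insert q (insert q' A)) +
      (tm Q δ vec adj x (insert q A) + tm Q δ vec adj x (insert y A)) +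
      tm Q δ vec adj x (insert q' A) := by abel
  rw [e, cj_add, cj_add, cj_add, c1, c2, c3, c4]
  abel

end IpA

theorem t_ip : T_IP := by
  intro Λ K _ _ Q c
  refine ⟨fun δ δ' Φ hΦ W W' V V' vec vec' adj adj' e h1 h2 h3 h4 => ?_,
    fun δ W V vec adj xs => IpA.fin V vec adj xs, fun δ W V vec adj xs => IpA.supp V vec adj xs,
    fun δ W C V V' vec adj q q' y y' hs hi hV hV' hy hy' hq hq' hne a1 a2 a3 a4 _ hC e1 w1 w2
      hδ xs => ?_⟩
  · have h := IpA.map_ip (Q := Q) (δ := δ) (δ' := δ') Φ V V' vec vec' adj adj' e h1 h2 h3 h4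
    refine ⟨h, fun xs => ?_⟩
    induction xs with
    | nil => exact c.tr.one δ δ' Φ
    | cons x xs ih =>
      rw [FP, FP, List.map_cons, List.map_cons, List.prod_cons, List.prod_cons]
      exact c.tr.mul δ δ' Φ hΦ _ _ _ _ (h x) ih
  · induction xs with
    | nil => exact IpA.cj_one' _
    | cons x xs ih =>
      rw [FP, FP, List.map_cons, List.map_cons, List.prod_cons, List.prod_cons, cj_mul',
        IpA.move (c.ser δ) C V V' vec adj q q' y y' hs hi hV hV' hy hy' hq hq' hne a1 a2 a3 a4 hC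
          e1 w1 w2 hδ x]
      exact congrArg _ ih

end Pool.Agent.P.MP_389f6f_co.Qt
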