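import Pool.Agent.P.MP_389f6f_co.QTau
import Pool.Agent.P.MP_389f6f_co.QIp

/-! A marked vertex carried through the rounds of mutations. -/

set_option autoImplicit false

namespace Pool.Agent.P.MP_389f6f_co.Qt
open Finset

namespace Pt
open TauA

variable {Λ K : Type} [AddCommGroup Λ] [CommRing K] {Q : QD Λ K} {p : ℕ}

/-- the lattice data without the first block -/
def sh (T : Td Q p) : Td Q p where
  q j := T.q (j + 1)
  y j b := T.y (j + 1) b
  κ := T.κ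
  Φ := T.Φ
  hp := T.hp
  per j b := T.per (j + 1) b
  qq _ _ := T.qq _ _
  yq j b i := by rw [T.yq]; simp
  yy0 j := T.yy0 (j + 1)
  yy1 j := T.yy1 (j + 1)
  yy1' j := T.yy1' (j + 1)
  yy2 _ _ b b' h := T.yy2 _ _ b b' (by omega)
  qκ _ := T.qκ _
  yκ _ _ := T.yκ _ _
  iso := T.iso
  Φq _ := T.Φq _
  Φy _ _ := T.Φy _ _
  lift A _ vq vy := by
    obtain ⟨φ, h1, h2⟩ := T.lift A (fun j => vq (j - 1)) fun j b => vy (j - 1) b
    exact ⟨φ, fun i => h1 (i + 1), fun j b => h2 (j + 1) b⟩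

section tr
variable {δ δ' : Λ →+ ℤ} {Ψ : Λ ≃+ Λ}

theorem tr_z (a : Λ) : Tr Ψ (NS.z a : NS Q δ) (NS.z (Ψ a) : NS Q δ') := fun x => by
  rw [NS.z_co, NS.z_co]
  by_cases h : x = a <;> simp [h]

theorem tr_sum {α : Type} (s : Finset α) {f : α → NS Q δ} {f' : α → NS Q δ'}
    (h : ∀ a ∈ s, Tr Ψ (f a) (f' a)) : Tr Ψ (∑ a ∈ s, f a) (∑ a ∈ s, f' a) := fun x => by
  rw [NS.sum_co, NS.sum_co]
  exact sum_congr rfl fun a ha => h a ha x

/-- finite support -/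
def Fs (f : NS Q δ) : Prop := {x | f.co x ≠ 0}.Finite

theorem Fs.mul {f g : NS Q δ} (hf : Fs f) (hg : Fs g) : Fs (f * g) :=
  ((hf.prod hg).image fun v => v.1 + v.2).subset fun x hx => by
    obtain ⟨a, h1, h2⟩ := NS.conv_ne hx
    exact ⟨(a, x - a), ⟨h1, h2⟩, by simp⟩

theorem Fs.sub {f g : NS Q δ} (hf : Fs f) (hg : Fs g) : Fs (f - g) :=
  (hf.union hg).subset fun x hx => by
    by_contra h
    simp only [Set.mem_union, Set.mem_ofPred_eq, not_or, not_not] at h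
    exact hx (by simp [h.1, h.2])

theorem Fs.smul {f : NS Q δ} (hf : Fs f) (c : K) : Fs (c • f) :=
  hf.subset fun x hx h => hx (by simp [h])

theorem sup_z (a : Λ) : Sup (· = a) (NS.z a : NS Q δ) := fun x hx => by
  by_contra h
  exact hx (by rw [NS.z_co, if_neg h])

theorem Fs.z (a : Λ) : Fs (NS.z a : NS Q δ) := (Set.finite_singleton a).subset (sup_z a)

theorem cj_sub (u : (NS Q δ)ˣ) (f g : NS Q δ) : cj u (f - g) = cj u f - cj u g := by
  simp [cj, mul_sub, sub_mul]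

end tr

section gen
variable (T : Td Q p)

/-- the sum of the vertices -/
noncomputable def E (δ : Λ →+ ℤ) (m i : ℕ) : NS Q δ := ∑ v ∈ V p m i, NS.z (vec T v)

theorem E_sup (δ : Λ →+ ℤ) (m i : ℕ) : Sup (fun x => ∃ v ∈ V p m i, x = vec T v) (E T δ m i) :=
  fun x hx => by
    rw [E, NS.sum_co] at hx
    obtain ⟨v, hv, h⟩ := exists_ne_zero_of_sum_ne_zero hx
    exact ⟨v, hv, sup_z _ x h⟩

theorem E_fs (δ : Λ →+ ℤ) (m i : ℕ) : Fs (E T δ m i) :=
  ((V p m i).finite_toSet.image (vec T)).subset fun x hx => by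
    obtain ⟨v, hv, rfl⟩ := E_sup T δ m i x hx
    exact ⟨v, hv, rfl⟩

theorem E_co (δ δ' : Λ →+ ℤ) (m i : ℕ) : Tr (AddEquiv.refl Λ) (E T δ m i) (E T δ' m i) :=
  tr_sum _ fun _ _ => tr_z (Ψ := AddEquiv.refl Λ) _

theorem E_phi (δ δ' : Λ →+ ℤ) (m : ℕ) : Tr T.Φ (E T δ m 0) (E T δ' m m) := by
  have h : E T δ' m m = ∑ v ∈ V p m 0, NS.z (T.Φ (vec T v)) := by
    refine (sum_nbij' (fun v => (v.1, if v.2 = 0 then 0 else v.2 + 1)) (fun v => (v.1, v.2 - 1))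
      ?_ ?_ ?_ ?_ ?_).symm
    · rintro ⟨j, b⟩
      simp only [mem_V]
      split_ifs <;> omega
    · rintro ⟨j, b⟩
      simp only [mem_V]
      omega
    · rintro ⟨j, b⟩ _
      simp only [Prod.mk.injEq, true_and]
      split_ifs <;> omega
    · rintro ⟨j, b⟩
      simp only [mem_V, Prod.mk.injEq, true_and]
      split_ifs <;> omega
    · rintro ⟨j, b⟩ _
      simp only [vec]
      by_cases h : b = 0
      · simp [h, T.Φq]
      · simp [h, T.Φy]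
  rw [h]
  exact tr_sum _ fun _ _ => tr_z _

theorem E_move {δ : Λ →+ ℤ} (S : S_SER Q δ) {m i : ℕ} (hi : i < m) (hδ : 1 ≤ δ (e T i)) :
    cj (FF Q δ (e T i)) (E T δ m i) = E T δ m (i + 1) := by
  have hp := T.hp
  set C := (V p m i).filter fun v => v ≠ (i, 0) ∧ v ≠ (i + 1, 0) ∧ v ≠ (i, 1) with hC
  have mC : ∀ j b, (j, b) ∈ C ↔ (j, b) ∈ V p m i ∧ ¬(j = i ∧ b = 0) ∧ ¬(j = i + 1 ∧ b = 0) ∧
      ¬(j = i ∧ b = 1) := fun j b => by simp [hC]
  have key : ∀ (b0 : ℕ) (W : Finset (ℕ × ℕ)), b0 ≠ 0 → (i, b0) ∉ C →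
      (∀ j b, (j, b) ∈ W ↔ (j = i ∧ b = b0) ∨ (j = i ∧ b = 0) ∨ (j = i + 1 ∧ b = 0) ∨ (j, b) ∈ C) →
      (∑ v ∈ W, NS.z (vec T v) : NS Q δ) = NS.z (T.y i b0) + (NS.z (T.q i) + (NS.z (T.q (i + 1)) +
        ∑ v ∈ C, NS.z (vec T v))) := by
    intro b0 W h0 h1 h2
    have : W = insert (i, b0) (insert (i, 0) (insert (i + 1, 0) C)) := by
      ext ⟨j, b⟩
      simp only [h2, mem_insert, Prod.mk.injEq]
    rw [this, sum_insert (by simp [h0, h1]), sum_insert (by simp [mC]), sum_insert (by simp [mC])]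
    simp [vec, h0]
  rw [E, E, key 1 (V p m i) one_ne_zero (by simp [mC]) fun j b => by simp only [mC, mem_V]; omega,
    key (p + 1) (V p m (i + 1)) (by omega) (by simp only [mC, mem_V]; omega) fun j b => by
      simp only [mC, mem_V]; omega]
  have c1 := (S.mono _ (T.q i) hδ).2.2 (by simp [om_q])
  have c2 := (S.mono _ (T.q (i + 1)) hδ).2.1 (by simp [om_q])
  have c3 : cj (FF Q δ (e T i)) (∑ v ∈ C, NS.z (vec T v)) = ∑ v ∈ C, NS.z (vec T v) := by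
    rw [IpA.cj_sum]
    refine sum_congr rfl fun ⟨j, b⟩ hv => (S.mono _ _ hδ).1 ?_
    rw [mC, mem_V] at hv
    rw [vec]
    by_cases h0 : b = 0
    · rw [if_pos h0, om_q, if_neg (by omega), if_neg (by omega)]
      rfl
    · rw [if_neg h0]
      exact om_y T (by omega)
  rw [show T.q i + e T i = T.y i 1 by simp [e]] at c1
  rw [← y_top] at c2
  rw [← add_assoc, add_comm (NS.z (T.y i 1)), IpA.cj_add, c1, IpA.cj_add, c2, c3]
  abel

/-- a round of mutations for families of functions -/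
theorem chain (at' : S_AT Q) (mi : S_MI Q) (m : ℕ) {J : Type}
    (f : J → (δ : Λ →+ ℤ) → ℕ → NS Q δ)
    (hco : ∀ j δ δ' i, Tr (AddEquiv.refl Λ) (f j δ i) (f j δ' i)) (hfs : ∀ j δ i, Fs (f j δ i))
    (hmv : ∀ j δ, ∀ i < m, 1 ≤ δ (e T i) → cj (FF Q δ (e T i)) (f j δ i) = f j δ (i + 1))
    (δ : Λ →+ ℤ) (g : (NS Q δ)ˣ) (hs : Seed δ (sd T m 0)) (hg : AT (sd T m 0) g) (i : ℕ)
    (hi : i ≤ m) : ∀ (δ' : Λ →+ ℤ) (g' : (NS Q δ')ˣ), Seed δ' (sd T m i) → AT (sd T m i) g' →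
    (∀ r', ∃ (r : Λ) (k : ℕ → ℕ), r' = r + ∑ l ∈ range i, k l • e T l ∧
      (∀ j, att g (f j δ 0) r = att g' (f j δ' i) r') ∧
      ((∀ l < i, k l = 0) → ∀ l < i, Q.ω (e T l) r ≤ 0)) ∧
    (∀ r, ∃ r', ∀ j, att g (f j δ 0) r = att g' (f j δ' i) r') ∧
    ∀ θ : Λ →+ ℝ, (∀ l < i, θ (e T l) < 0) → ∀ j,
      (ex g' θ (f j δ' i)).co = (ex g θ (f j δ 0)).co := by
  induction i with
  | zero =>
    intro δ' g' hs' hg'
    have h := fun j => at'.tr δ δ' _ iso_refl _ _ hs hs' (fun _ => Iff.rfl) g g' hg hg' _ _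
      (hco j δ δ' 0)
    exact ⟨fun r => ⟨r, fun _ => 0, by simp, fun j => ((h j).1 r).symm,
      fun _ j hj => absurd hj (Nat.not_lt_zero j)⟩, fun r => ⟨r, fun j => ((h j).1 r).symm⟩,
      fun θ _ j => funext fun x => (h j).2 θ x⟩
  | succ i ih =>
    intro δ' g' hs' hg'
    have him : i < m := hi
    obtain ⟨δ1, hs1⟩ := exists_seed T m i
    obtain ⟨g1, hg1⟩ := at'.ex δ1 _ hs1
    obtain ⟨a1, a2, a3⟩ := ih him.le δ1 g1 hs1 hg1
    have hk : e T i ∈ sd T m i := (mem_sd T m i _).2 ⟨i, him, 0, Nat.zero_le _, (d_zero T i).symm⟩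
    have b := fun j => mi δ1 δ' _ _ (e T i) hs1 hs' hk (sd_step T him) g1 g' hg1 hg'
      (f j δ1 i) (f j δ' (i + 1)) (hfs _ _ _) (hfs _ _ _) (by
        rw [hmv j δ1 i him (hs1 _ hk)]
        exact funext fun x => (hco j δ1 δ' (i + 1) x).symm)
    refine ⟨fun r'' => ?_, fun r => ?_, fun θ hθ j => ?_⟩
    · obtain ⟨r', hr', hω⟩ : ∃ r', r'' = r' + (Q.ω (e T i) r'').toNat • e T i ∧
          Q.ω (e T i) r' = Q.ω (e T i) r'' :=
        ⟨r'' - (Q.ω (e T i) r'').toNat • e T i, by simp, by simp [Q.skew]⟩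
      obtain ⟨r, k, c0, c1, c2⟩ := a1 r'
      refine ⟨r, fun j => if j < i then k j else (Q.ω (e T i) r'').toNat, ?_, fun j => ?_,
        fun h0 j hj => ?_⟩
      · beta_reduce
        rw [sum_range_succ, if_neg (lt_irrefl i),
          sum_congr rfl fun j hj => by rw [if_pos (mem_range.1 hj)], ← add_assoc, ← c0]
        exact hr'
      · rw [c1, ← (b j).1 r', QD.mu, hω, ← Int.ofNat_toNat, natCast_zsmul, ← hr']
      · beta_reduce at h0
        have h1 : ∀ j < i, k j = 0 := fun j hj => by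
          have := h0 j (by omega)
          rwa [if_pos hj] at this
        by_cases hji : j < i
        · exact c2 h1 j hji
        · have h2 := h0 i (by omega)
          rw [if_neg (lt_irrefl i)] at h2
          rw [sum_eq_zero fun j hj => by rw [h1 j (mem_range.1 hj), zero_smul], add_zero] at c0
          obtain rfl : j = i := by omega
          rw [← c0]
          omega
    · obtain ⟨r', h⟩ := a2 r
      exact ⟨_, fun j => (h j).trans ((b j).1 r').symm⟩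
    · rw [(b j).2 θ (hθ i (by omega)), a3 θ fun j hj => hθ j (by omega)]

end gen

variable (T : Td Q p) (c : K)

/-- the normalized commutator with the sum of the vertices -/
noncomputable def D (δ : Λ →+ ℤ) (m i : ℕ) (f : NS Q δ) : NS Q δ :=
  c • (NS.z (-T.q 0) * (f * E (sh T) δ m i - E (sh T) δ m i * f))

/-- the marker -/
noncomputable def W (δ : Λ →+ ℤ) (m i I b : ℕ) : NS Q δ := (D T c δ m i)^[I] (NS.z (T.y 0 b))

theorem W_succ (δ : Λ →+ ℤ) (m i I b : ℕ) :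
    W T c δ m i (I + 1) b = D T c δ m i (W T c δ m i I b) := Function.iterate_succ_apply' _ _ _

theorem W_fs (δ : Λ →+ ℤ) (m i I b : ℕ) : Fs (W T c δ m i I b) := by
  induction I with
  | zero => exact Fs.z _
  | succ I ih =>
    rw [W_succ]
    exact ((Fs.z _).mul ((ih.mul (E_fs _ δ m i)).sub ((E_fs _ δ m i).mul ih))).smul c

theorem W_tr (tr : S_TR Q) {δ δ' : Λ →+ ℤ} {Ψ : Λ ≃+ Λ} (hΨ : Q.Iso Ψ) {m i i' b b' : ℕ}
    (h0 : Ψ (T.q 0) = T.q 0) (h1 : Ψ (T.y 0 b) = T.y 0 b')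
    (h2 : Tr Ψ (E (sh T) δ m i) (E (sh T) δ' m i')) (I : ℕ) :
    Tr Ψ (W T c δ m i I b) (W T c δ' m i' I b') := by
  induction I with
  | zero => exact (h1 ▸ tr_z _ : Tr Ψ (NS.z (T.y 0 b) : NS Q δ) (NS.z (T.y 0 b') : NS Q δ'))
  | succ I ih =>
    rw [W_succ, W_succ]
    intro x
    have h3 : Tr Ψ (NS.z (-T.q 0) : NS Q δ) (NS.z (-T.q 0) : NS Q δ') := by
      have := tr_z (Q := Q) (δ := δ) (δ' := δ') (Ψ := Ψ) (-T.q 0)
      rwa [map_neg, h0] at this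
    refine congrArg (c * ·) (tr.mul δ δ' Ψ hΨ _ _ _ _ h3 (fun x => ?_) x)
    rw [NS.sub_co, NS.sub_co, tr.mul δ δ' Ψ hΨ _ _ _ _ ih h2, tr.mul δ δ' Ψ hΨ _ _ _ _ h2 ih]

theorem om_y0 (i : ℕ) {b : ℕ} (h1 : 2 ≤ b) (h2 : b ≤ p + 1) :
    Q.ω (e (sh T) i) (T.y 0 b) = 0 :=
  om_y T (i := i + 1) (Or.inl ⟨by omega, h1, h2⟩)

theorem om_q0 (i : ℕ) : Q.ω (e (sh T) i) (T.q 0) = 0 := by
  have := om_q T (i + 1) 0
  rwa [if_neg (by omega), if_neg (by omega), sub_zero] at this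

theorem W_move {δ : Λ →+ ℤ} (S : S_SER Q δ) {m i : ℕ} (hi : i < m) (hδ : 1 ≤ δ (e (sh T) i))
    {b : ℕ} (h1 : 2 ≤ b) (h2 : b ≤ p + 1) (I : ℕ) :
    cj (FF Q δ (e (sh T) i)) (W T c δ m i I b) = W T c δ m (i + 1) I b := by
  induction I with
  | zero => exact (S.mono _ _ hδ).1 (om_y0 T i h1 h2)
  | succ I ih =>
    rw [W_succ, W_succ, D, D, IpA.cj_smul, cj_mul', cj_sub, cj_mul', cj_mul', ih,
      E_move _ S hi hδ, (S.mono _ _ hδ).1 (by rw [map_neg, om_q0, neg_zero])]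

theorem W_wrap (hc : c * (Q.tp (-1) * (Q.tp 1 - Q.tp (-1))) = 1) (δ : Λ →+ ℤ) (m I : ℕ) :
    W T c δ m 0 (I + 1) 1 = W T c δ m 0 I (p + 1) := by
  have hp := T.hp
  rw [W, W, Function.iterate_succ_apply]
  congr 1
  rw [D, E, mul_sum, sum_mul, ← sum_sub_distrib, sum_eq_single (0, 0)]
  · have h1 : Q.ω (T.y 0 1) (T.q 1) = 1 := by simp [T.yq]
    have h2 : Q.ω (-T.q 0) (T.y 0 1 + T.q 1) = -1 := by
      simp [T.qq, Q.anti (T.q 0), T.yq]
    change c • (NS.z _ * (NS.z _ * NS.z (T.q 1) - NS.z (T.q 1) * NS.z _)) = _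
    rw [NS.z_mul_z, NS.z_mul_z, Q.anti (T.q 1), h1, add_comm (T.q 1), ← sub_smul, mul_smul_comm,
      NS.z_mul_z, h2, smul_smul, smul_smul, mul_assoc, mul_comm _ (Q.tp (-1)), hc, one_smul,
      add_comm p 1, T.per]
    congr 1
    abel
  · rintro ⟨j, b⟩ hv hne
    rw [mem_V] at hv
    simp only [ne_eq, Prod.mk.injEq] at hne
    have h : Q.ω (T.y 0 1) (vec (sh T) (j, b)) = 0 := by
      rw [vec]
      by_cases h0 : b = 0
      · rw [if_pos h0]
        change Q.ω _ (T.q (j + 1)) = 0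
        rw [T.yq, if_neg (by omega), if_neg (by omega), sub_zero]
      · rw [if_neg h0]
        change Q.ω _ (T.y (j + 1) b) = 0
        rcases Nat.eq_zero_or_pos j with rfl | hj
        · exact T.yy1' 0 1 b (by omega) (by omega)
        · exact T.yy2 _ _ _ _ (by omega)
    rw [NS.z_mul_z, NS.z_mul_z, Q.anti (vec _ _), h, neg_zero, add_comm, sub_self]
  · exact fun h => absurd ((mem_V _ _ _ _ _).2 (Or.inl ⟨rfl, Nat.zero_le _⟩)) h

/-- sums of vertices -/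
def CV (T : Td Q p) (m : ℕ) : AddSubmonoid Λ :=
  AddSubmonoid.closure {x | ∃ v ∈ V p m 0, x = vec T v}

theorem W_sup (δ : Λ →+ ℤ) (m I b : ℕ) :
    Sup (fun x => x - T.y 0 b + I • T.q 0 ∈ CV (sh T) m) (W T c δ m 0 I b) := by
  induction I with
  | zero => exact (sup_z _).mono fun x hx => by simp [hx]
  | succ I ih =>
    have hE := (E_sup (sh T) δ m 0).mono fun x hx =>
      (AddSubmonoid.subset_closure hx : x ∈ CV (sh T) m)
    rw [W_succ]
    intro x hx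
    refine ((sup_z (-T.q 0)).mul ((ih.mul hE (s := fun x => x - T.y 0 b + I • T.q 0 ∈ CV (sh T) m)
      fun u v hu hv => ?_).sub (hE.mul ih fun u v hu hv => ?_))
      (s := fun x => x - T.y 0 b + (I + 1) • T.q 0 ∈ CV (sh T) m) fun u v hu hv => ?_) x
      fun h => hx (by rw [D, NS.smul_co, h, mul_zero])
    · convert add_mem hu hv using 1
      abel
    · have e : u + v - T.y 0 b + I • T.q 0 = u + (v - T.y 0 b + I • T.q 0) := by abel
      exact e ▸ add_mem hu hv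
    · have e : u + v - T.y 0 b + (I + 1) • T.q 0 = v - T.y 0 b + I • T.q 0 := by
        rw [hu, succ_nsmul]
        abel
      exact e ▸ hv

theorem G_sup (ip : S_IP Q) (T : Td Q p) (δ : Λ →+ ℤ) (m : ℕ) (xs : List K) :
    Sup (· ∈ CV T m) (G T δ m 0 xs) := fun x hx => by
  obtain ⟨w, -, rfl⟩ := ip.supp δ _ _ _ _ xs x hx
  exact sum_mem fun v hv => nsmul_mem (S := CV T m) (AddSubmonoid.subset_closure ⟨v, hv, rfl⟩) _

/-- the marked product -/
noncomputable def H (m I b : ℕ) (j : List K × List K) (δ : Λ →+ ℤ) (i : ℕ) : NS Q δ :=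
  G (sh T) δ m i j.1 * W T c δ m i I b * G (sh T) δ m i j.2

/-- the marked products along the rounds -/
noncomputable def HH (δ : Λ →+ ℤ) (m M : ℕ) (j : List K × List K) : NS Q δ :=
  H T c m (M / p) (M % p + 1) j δ 0

theorem HH_sup (ip : S_IP Q) (δ : Λ →+ ℤ) (m M : ℕ) (j : List K × List K) :
    Sup (fun x => x - T.y 0 (M % p + 1) + (M / p) • T.q 0 ∈ CV (sh T) m) (HH T c δ m M j) := by
  refine ((G_sup ip _ δ m j.1).mul (W_sup T c δ m _ _)
    (s := fun x => x - T.y 0 (M % p + 1) + (M / p) • T.q 0 ∈ CV (sh T) m) fun u v hu hv => ?_).mul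
    (G_sup ip _ δ m j.2) fun u v hu hv => ?_
  · convert add_mem hu hv using 1
    abel
  · convert add_mem hu hv using 1
    abel

theorem HH_succ (hc : c * (Q.tp (-1) * (Q.tp 1 - Q.tp (-1))) = 1) (δ : Λ →+ ℤ) (m M : ℕ)
    (j : List K × List K) : HH T c δ m (M + 1) j = H T c m (M / p) (M % p + 2) j δ 0 := by
  have hp := T.hp
  have h1 := Nat.mod_lt M hp
  have h2 := Nat.div_add_mod M p
  rw [HH]
  by_cases h : M % p + 1 < p
  · have e : M + 1 = M % p + 1 + p * (M / p) := by omega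
    rw [e, Nat.add_mul_div_left _ _ hp, Nat.add_mul_mod_self_left, Nat.div_eq_of_lt h,
      Nat.mod_eq_of_lt h, zero_add]
  · have e : M + 1 = p * (M / p + 1) := by rw [Nat.mul_succ]; omega
    rw [e, Nat.mul_div_cancel_left _ hp, Nat.mul_mod_right, H, H, zero_add, W_wrap T c hc,
      show M % p + 2 = p + 1 by omega]

/-- one round -/
theorem tau (C : Core Q) (at' : S_AT Q) (mi : S_MI Q) (ip : S_IP Q)
    (hc : c * (Q.tp (-1) * (Q.tp 1 - Q.tp (-1))) = 1) {m : ℕ} {δ : Λ →+ ℤ} {g : (NS Q δ)ˣ}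
    (hs : Seed δ (sd (sh T) m 0)) (hg : AT (sd (sh T) m 0) g) (M : ℕ) :
    (∀ r, ∃ (r' : Λ) (k : ℕ → ℕ), T.Φ r = r' + ∑ l ∈ range m, k l • e (sh T) l ∧
      (∀ j, att g (HH T c δ m (M + 1) j) r' = att g (HH T c δ m M j) r) ∧
      ((∀ l < m, k l = 0) → ∀ l < m, Q.ω (e (sh T) l) r' ≤ 0)) ∧
    (∀ r', ∃ r, ∀ j, att g (HH T c δ m (M + 1) j) r' = att g (HH T c δ m M j) r) ∧
    ∀ θ : Λ →+ ℝ, (∀ l < m, θ (e (sh T) l) < 0) → ∀ j r,
      (ex g θ (HH T c δ m (M + 1) j)).co (T.Φ r) =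
        (ex g (θ.comp T.Φ.toAddMonoidHom) (HH T c δ m M j)).co r := by
  have h1 := Nat.mod_lt M T.hp
  obtain ⟨δ', hs'⟩ := exists_seed (sh T) m m
  obtain ⟨g', hg'⟩ := at'.ex δ' _ hs'
  obtain ⟨a1, a2, a3⟩ := chain (sh T) at' mi m (H T c m (M / p) (M % p + 2))
    (fun j δ δ' i => C.tr.mul _ _ _ iso_refl _ _ _ _ (C.tr.mul _ _ _ iso_refl _ _ _ _
      (G_co _ ip δ δ' m i _) (W_tr T c C.tr iso_refl rfl rfl (E_co _ δ δ' m i) _))
      (G_co _ ip δ δ' m i _))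
    (fun j δ i => (Fs.mul (ip.fin _ _ _ _ _ _) (W_fs T c δ m i _ _)).mul (ip.fin _ _ _ _ _ _))
    (fun j δ i hi hδ => by
      rw [H, H, cj_mul', cj_mul', G_move _ ip δ hi hδ, G_move _ ip δ hi hδ,
        W_move T c (C.ser δ) hi hδ (by omega) (by omega)])
    δ g hs hg m le_rfl δ' g' hs' hg'
  have b := fun j : List K × List K => at'.tr δ δ' _ T.iso _ _ hs hs' (phi_sd (sh T) m) g g' hg hg'
    (HH T c δ m M j) (H T c m (M / p) (M % p + 2) j δ' m)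
    (C.tr.mul _ _ _ T.iso _ _ _ _ (C.tr.mul _ _ _ T.iso _ _ _ _ (G_phi (sh T) ip δ δ' m _)
      (W_tr T c C.tr T.iso (T.Φq 0) (T.Φy 0 _) (E_phi (sh T) δ δ' m) _))
      (G_phi (sh T) ip δ δ' m _))
  simp only [HH_succ T c hc]
  refine ⟨fun r => ?_, fun r' => ?_, fun θ hθ j r => ?_⟩
  · obtain ⟨r', k, c0, c1, c2⟩ := a1 (T.Φ r)
    exact ⟨r', k, c0, fun j => (c1 j).trans ((b j).1 r), c2⟩
  · obtain ⟨r, h⟩ := a2 r'
    exact ⟨T.Φ.symm r, fun j => by rw [h, ← (b j).1, AddEquiv.apply_symm_apply]⟩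
  · rw [← a3 θ hθ]
    exact (b j).2 θ r

end Pt

end Pool.Agent.P.MP_389f6f_co.Qt
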