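import Mathlib

/-! Definitions and interface statements for the species part (algebraic DT positivity). -/

set_option autoImplicit false

namespace Pool.Agent.P.MP_389f6f_co.Sp
open MvPolynomial Finset

abbrev RR (Ω : Type) := MvPolynomial Ω ℚ

/-- sites with types, arrow numbers between types, stability -/
structure Qv (Ω I : Type) where
  ty : Ω → I
  a : I → I → ℕ
  θ : I → ℝ

section num
variable {I : Type} [Fintype I]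

def arr (a : I → I → ℕ) (d d' : I → ℕ) : ℕ := ∑ i, ∑ j, d i * d' j * a i j

noncomputable def thd (θ : I → ℝ) (d : I → ℕ) : ℝ := ∑ i, (d i : ℝ) * θ i

def Sym (a : I → I → ℕ) (θ : I → ℝ) : Prop :=
  ∀ d d', thd θ d = 0 → thd θ d' = 0 → arr a d d' = arr a d' d

/-- parity of a dimension vector -/
def par (a : I → I → ℕ) (d : I → ℕ) : ℕ := (∑ i, d i) + arr a d d

/-- all ways to write `d` as a sum of two vectors -/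
def AD [DecidableEq I] (d : I → ℕ) : Finset ((I → ℕ) × (I → ℕ)) :=
  (Finset.Iic d).image fun e => (e, d - e)

theorem mem_AD [DecidableEq I] (d : I → ℕ) (p : (I → ℕ) × (I → ℕ)) :
    p ∈ AD d ↔ p.1 + p.2 = d := by
  obtain ⟨x, y⟩ := p
  simp only [AD, mem_image, mem_Iic, Prod.mk.injEq]
  constructor
  · rintro ⟨e, he, rfl, rfl⟩
    exact add_tsub_cancel_of_le he
  · rintro rfl
    exact ⟨x, le_self_add, rfl, add_tsub_cancel_left x y⟩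

end num

/-- multisets of `n` naturals counted by their sum -/
noncomputable def cb (n : ℕ) : PowerSeries ℚ :=
  PowerSeries.mk fun k => (Nat.card {μ : Multiset ℕ // μ.card = n ∧ μ.sum = k} : ℚ)

/-- sets of `n` naturals counted by their sum -/
noncomputable def cf (n : ℕ) : PowerSeries ℚ :=
  PowerSeries.mk fun k => (Nat.card {μ : Multiset ℕ // (μ.card = n ∧ μ.Nodup) ∧ μ.sum = k} : ℚ)

def S_CB : Prop := cb 0 = 1 ∧ cf 0 = 1 ∧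
  (∀ n, cb (n + 1) * (1 - PowerSeries.X ^ (n + 1)) = cb n) ∧
  ∀ n, cf (n + 1) * (1 - PowerSeries.X ^ (n + 1)) = PowerSeries.X ^ n * cf n

def S_PROD : Prop := ∀ (Γ : Type) [Fintype Γ] (n : Γ → ℕ) (odd : Γ → Prop) [DecidablePred odd],
  (PowerSeries.mk fun k => (Nat.card {μ : Γ → Multiset ℕ //
      (∀ γ, (μ γ).card = n γ ∧ (odd γ → (μ γ).Nodup)) ∧ ∑ γ, (μ γ).sum = k} : ℚ)) =
    ∏ γ, if odd γ then cf (n γ) else cb (n γ)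

section gf
variable {I Γ : Type} [Fintype I] [DecidableEq I] [Fintype Γ] [DecidableEq Γ]

/-- multiplicity vectors with total dimension `d` -/
def NN (dΓ : Γ → I → ℕ) (d : I → ℕ) : Finset (Γ → ℕ) :=
  (Fintype.piFinset fun _ => range (∑ i, d i + 1)).filter fun n => ∑ γ, n γ • dΓ γ = d

noncomputable def GS (a : I → I → ℕ) (dΓ : Γ → I → ℕ) (dg : Γ → ℕ) (d : I → ℕ) :
    PowerSeries ℚ :=
  ∑ n ∈ NN dΓ d, PowerSeries.X ^ ((arr a d d - ∑ γ, n γ * arr a (dΓ γ) (dΓ γ)) / 2) *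
    ∏ γ, (PowerSeries.X ^ (n γ * dg γ) * if Odd (par a (dΓ γ)) then cf (n γ) else cb (n γ))

/-- multisets of labels of total dimension `d` with no repeated odd label -/
def Good (a : I → I → ℕ) (dΓ : Γ → I → ℕ) (d : I → ℕ) (M : Multiset (Γ × ℕ)) : Prop :=
  (M.map fun x => dΓ x.1).sum = d ∧ ∀ x, Odd (par a (dΓ x.1)) → M.count x ≤ 1

/-- the degree condition -/
def DegM (a : I → I → ℕ) (dΓ : Γ → I → ℕ) (dg : Γ → ℕ) (d : I → ℕ) (M : Multiset (Γ × ℕ))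
    (k : ℕ) : Prop :=
  2 * k + (M.map fun x => arr a (dΓ x.1) (dΓ x.1)).sum =
    arr a d d + 2 * (M.map fun x => dg x.1 + x.2).sum

end gf

def S_PAR : Prop := ∀ (I Γ : Type) [Fintype I] [Fintype Γ] (a : I → I → ℕ) (θ : I → ℝ)
  (dΓ : Γ → I → ℕ), Sym a θ → (∀ γ, thd θ (dΓ γ) = 0) → ∀ n : Γ → ℕ, ∃ x,
    2 * x + ∑ γ, n γ * arr a (dΓ γ) (dΓ γ) = arr a (∑ γ, n γ • dΓ γ) (∑ γ, n γ • dΓ γ)

def S_GF : Prop := ∀ (I Γ : Type) [Fintype I] [DecidableEq I] [Fintype Γ] [DecidableEq Γ]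
  (a : I → I → ℕ) (θ : I → ℝ) (dΓ : Γ → I → ℕ) (dg : Γ → ℕ), Sym a θ →
  (∀ γ, dΓ γ ≠ 0 ∧ thd θ (dΓ γ) = 0) → ∀ d : I → ℕ,
  (PowerSeries.mk fun k =>
    (Nat.card {M : Multiset (Γ × ℕ) // Good a dΓ d M ∧ DegM a dΓ dg d M k} : ℚ)) = GS a dΓ dg d

/-- the numerical output of the species part -/
def S_SPEC : Prop := ∀ (I : Type) [Fintype I] [DecidableEq I] (a : I → I → ℕ) (θ : I → ℝ)
  (D : ℕ), Sym a θ → ∃ (HT HF : (I → ℕ) → PowerSeries ℚ) (Γ : Type) (_ : Fintype Γ)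
    (_ : DecidableEq Γ) (dΓ : Γ → I → ℕ) (dg : Γ → ℕ), HT 0 = 1 ∧ HF 0 = 1 ∧
    (∀ d, HT d ≠ 0 → d = 0 ∨ 0 < thd θ d) ∧ (∀ d, HF d ≠ 0 → d = 0 ∨ thd θ d < 0) ∧
    (∀ γ, dΓ γ ≠ 0 ∧ thd θ (dΓ γ) = 0) ∧
    ∀ d : I → ℕ, (∀ i, d i ≤ D) → ∏ i, cf (d i) = ∑ p ∈ AD d, ∑ q ∈ AD p.2,
      if thd θ q.1 = 0 then PowerSeries.X ^ (arr a p.1 p.2 + arr a q.1 q.2) *
        HT p.1 * GS a dΓ dg q.1 * HF q.2 else 0

def S_DIV : Prop :=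
  (∀ (i j r : ℕ) (σ : MvPolynomial ℕ ℚ), i ≠ j → (∀ m : ℕ →₀ ℕ, m j < r →
    coeff m (aeval (fun c => if c = j then X i + X j else (X c : MvPolynomial ℕ ℚ)) σ) = 0) →
    (X j - X i) ^ r ∣ σ) ∧
  ∀ (s : Finset (ℕ × ℕ)) (r : ℕ × ℕ → ℕ) (σ : MvPolynomial ℕ ℚ), (∀ x ∈ s, x.1 < x.2) →
    (∀ x ∈ s, (X x.2 - X x.1) ^ r x ∣ σ) → ∏ x ∈ s, (X x.2 - X x.1) ^ r x ∣ σ

section ring
variable {Ω : Type}

def HomI (J : Ideal (RR Ω)) : Prop := ∀ f ∈ J, ∀ k, homogeneousComponent k f ∈ J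

def HomV (V : Submodule ℚ (RR Ω)) : Prop := ∀ f ∈ V, ∀ k, homogeneousComponent k f ∈ V

/-- dimension of the degree `k` part of the image of `V` modulo `J` -/
noncomputable def hh (V : Submodule ℚ (RR Ω)) (J : Ideal (RR Ω)) (k : ℕ) : ℕ :=
  Module.finrank ℚ
    ((V ⊓ homogeneousSubmodule Ω ℚ k).map (Ideal.Quotient.mkₐ ℚ J).toLinearMap)

noncomputable def HH (V : Submodule ℚ (RR Ω)) (J : Ideal (RR Ω)) : PowerSeries ℚ :=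
  PowerSeries.mk fun k => (hh V J k : ℚ)

def Ind {Γ : Type} (J : Ideal (RR Ω)) (val : Γ → Prop) (b : Γ → RR Ω) : Prop :=
  ∀ c : Γ →₀ ℚ, (∀ i ∈ c.support, val i) → Finsupp.linearCombination ℚ b c ∈ J → c = 0

/-- homogeneous basis of `V` modulo `J`, indexed by the valid labels -/
structure GB {Γ : Type} (V : Submodule ℚ (RR Ω)) (J : Ideal (RR Ω)) (val : Γ → Prop)
    (b : Γ → RR Ω) (dg : Γ → ℕ) : Prop where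
  mem : ∀ i, val i → b i ∈ V
  hom : ∀ i, val i → (b i).IsHomogeneous (dg i)
  ind : Ind J val b
  spn : ∀ f ∈ V, ∃ g ∈ Submodule.span ℚ (b '' {i | val i}), f - g ∈ J

/-- `J` is generated by polynomials in the variables of `B` -/
def Gen (B : Finset Ω) (J : Ideal (RR Ω)) : Prop :=
  ∃ S : Set (RR Ω), (∀ f ∈ S, f ∈ supported ℚ (B : Set Ω)) ∧ J = Ideal.span S

/-- `L` acts on the variables of `B` only -/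
def Loc (B : Finset Ω) (L : RR Ω →ₗ[ℚ] RR Ω) : Prop :=
  (∀ f ∈ supported ℚ (B : Set Ω), L f ∈ supported ℚ (B : Set Ω)) ∧
    ∀ f, ∀ g ∈ supported ℚ ((B : Set Ω)ᶜ), L (f * g) = L f * g

end ring

def S_GB (Ω : Type) : Prop :=
  (∀ (V : Submodule ℚ (RR Ω)) (J : Ideal (RR Ω)) (Γ : Type) (val : Γ → Prop) (b : Γ → RR Ω)
    (dg : Γ → ℕ), HomI J → GB V J val b dg → ∀ k,
      Finite {i // val i ∧ dg i = k} ∧ Nat.card {i // val i ∧ dg i = k} = hh V J k) ∧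
  ∀ (V : Submodule ℚ (RR Ω)) (J : Ideal (RR Ω)), HomI J → HomV V →
    ∃ (Γ : Type) (b : Γ → RR Ω) (dg : Γ → ℕ), GB V J (fun _ => True) b dg

open Classical in
def S_TENI (Ω : Type) : Prop := ∀ (C Γ : Type) (s : Finset C) (B : C → Finset Ω)
  (J : C → Ideal (RR Ω)) (val : C → Γ → Prop) (b : C → Γ → RR Ω),
  (∀ c ∈ s, ∀ c' ∈ s, c ≠ c' → Disjoint (B c) (B c')) → (∀ c ∈ s, Gen (B c) (J c)) →
  (∀ c ∈ s, ∀ γ, val c γ → b c γ ∈ supported ℚ (B c : Set Ω)) →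
  (∀ c ∈ s, Ind (J c) (val c) (b c)) →
  ∀ γ : C → Γ, (∀ c ∈ s, val c (γ c)) → ∃ Ψ : RR Ω →ₗ[ℚ] ℚ, (∀ f ∈ ⨆ c ∈ s, J c, Ψ f = 0) ∧
    ∀ γ' : C → Γ, (∀ c ∈ s, val c (γ' c)) →
      Ψ (∏ c ∈ s, b c (γ' c)) = if ∀ c ∈ s, γ' c = γ c then 1 else 0

def S_TENS (Ω : Type) : Prop := ∀ (C Γ : Type) (s : Finset C) (B : C → Finset Ω)
  (J : C → Ideal (RR Ω)) (val : C → Γ → Prop) (b : C → Γ → RR Ω)
  (O : C → Set ((RR Ω →ₗ[ℚ] RR Ω) × Ideal (RR Ω))), (s.Nonempty ∨ Nonempty Γ) →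
  (∀ c ∈ s, ∀ c' ∈ s, c ≠ c' → Disjoint (B c) (B c')) → (∀ c ∈ s, Gen (B c) (J c)) →
  (∀ c ∈ s, ∀ γ, val c γ → b c γ ∈ supported ℚ (B c : Set Ω)) →
  (∀ c ∈ s, Ind (J c) (val c) (b c)) →
  (∀ c ∈ s, ∀ p ∈ O c, Loc (B c) p.1 ∧ Gen (B c) p.2) →
  (∀ c ∈ s, ∀ u ∈ supported ℚ (B c : Set Ω), (∀ p ∈ O c, p.1 u ∈ p.2) →
    ∃ g ∈ Submodule.span ℚ (b c '' {γ | val c γ}), u - g ∈ J c) →
  ∀ f ∈ supported ℚ {x | ∃ c ∈ s, x ∈ B c},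
    (∀ c ∈ s, ∀ p ∈ O c, p.1 f ∈ p.2 ⊔ ⨆ c' ∈ s, ⨆ _ : c' ≠ c, J c') →
    ∃ g ∈ Submodule.span ℚ {x | ∃ γ : C → Γ, (∀ c ∈ s, val c (γ c)) ∧ x = ∏ c ∈ s, b c (γ c)},
      f - g ∈ ⨆ c ∈ s, J c

section der
variable {Ω : Type} [Fintype Ω] [DecidableEq Ω]

noncomputable def Dv (v : Ω → ℚ) : Module.End ℚ (RR Ω) :=
  ∑ s, v s • (pderiv s : Derivation ℚ (RR Ω) (RR Ω)).toLinearMap

noncomputable def Dl (l : List (Ω → ℚ)) : Module.End ℚ (RR Ω) := (l.map Dv).prod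

def fib (B : Finset Ω) (κ : Ω → ℕ) (c : ℕ) : Finset Ω := B.filter fun s => κ s = c

def nb (B : Finset Ω) (κ : Ω → ℕ) : ℕ := (B.image κ).card

/-- `v` vanishes off `B` and is constant on the fibres of `κ` in `B` -/
def Cst (B : Finset Ω) (κ : Ω → ℕ) (v : Ω → ℚ) : Prop :=
  (∀ s, s ∉ B → v s = 0) ∧ ∀ s ∈ B, ∀ s' ∈ B, κ s = κ s' → v s = v s'

/-- `κ'` is coarser than `κ` on `B` -/
def Crs (B : Finset Ω) (κ κ' : Ω → ℕ) : Prop := ∀ s ∈ B, ∀ s' ∈ B, κ s = κ s' → κ' s = κ' s'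

/-- twice the degree along `κ` modulo `J` is less than `N` -/
def Lt (J : Ideal (RR Ω)) (B : Finset Ω) (κ : Ω → ℕ) (N : ℕ) : Submodule ℚ (RR Ω) where
  carrier := {f | ∀ l : List (Ω → ℚ), (∀ v ∈ l, Cst B κ v) → N ≤ 2 * l.length → Dl l f ∈ J}
  add_mem' := fun hf hg l h1 h2 => by
    rw [map_add]; exact J.add_mem (hf l h1 h2) (hg l h1 h2)
  zero_mem' := fun l _ _ => by rw [map_zero]; exact J.zero_mem
  smul_mem' := fun c f hf l h1 h2 => by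
    rw [map_smul, Algebra.smul_def]; exact J.mul_mem_left _ (hf l h1 h2)

/-- translation of the blocks of `κ` by independent variables -/
noncomputable def TT (B : Finset Ω) (κ : Ω → ℕ) : RR Ω →ₐ[ℚ] MvPolynomial ℕ (RR Ω) :=
  aeval fun s => C (X s) + if s ∈ B then X (κ s) else 0

noncomputable def act (g : Equiv.Perm Ω) : Module.End ℚ (RR Ω) :=
  (((Equiv.Perm.sign g : ℤˣ) : ℤ) : ℚ) • (rename g : RR Ω →ₐ[ℚ] RR Ω).toLinearMap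

open Classical in
noncomputable def Alt (H : Subgroup (Equiv.Perm Ω)) : Module.End ℚ (RR Ω) :=
  ∑ g ∈ univ.filter (· ∈ H), act g

noncomputable def pp (A : Finset Ω) : RR Ω := ∑ s ∈ A, X s

end der

/-- Taylor expansion, coefficient description of `Lt`, products -/
structure S_TAY (Ω : Type) [Fintype Ω] [DecidableEq Ω] : Prop where
  tay : ∀ (ℓ : Ω → MvPolynomial ℕ (RR Ω)) (v : ℕ → Ω → ℚ),
    (∀ s c, pderiv c (ℓ s) = C (C (v c s))) → (∀ s, constantCoeff (ℓ s) = 0) →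
    ∀ (l : List ℕ) (f : RR Ω), ∃ N : ℕ, 0 < N ∧
      (N : ℚ) • coeff (Multiset.toFinsupp (l : Multiset ℕ))
        (aeval (fun s => C (X s) + ℓ s) f : MvPolynomial ℕ (RR Ω)) = Dl (l.map v) f
  tl : ∀ (J : Ideal (RR Ω)) (B : Finset Ω) (κ : Ω → ℕ) (N : ℕ) (f : RR Ω),
    f ∈ Lt J B κ N ↔ ∀ m : ℕ →₀ ℕ, N ≤ 2 * m.degree → coeff m (TT B κ f) ∈ J
  mul : ∀ (J : Ideal (RR Ω)) (B : Finset Ω) (κ : Ω → ℕ) (N N' : ℕ) (f g : RR Ω),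
    f ∈ Lt J B κ N → g ∈ Lt J B κ N' → f * g ∈ Lt J B κ (N + N' - 1)
  deg : ∀ (J : Ideal (RR Ω)) (B : Finset Ω) (κ : Ω → ℕ) (N : ℕ) (f : RR Ω),
    2 * f.totalDegree < N → f ∈ Lt J B κ N
  leib : ∀ (v : Ω → ℚ) (f g : RR Ω), Dv v (f * g) = Dv v f * g + f * Dv v g
  dX : ∀ (v : Ω → ℚ) (s : Ω), Dv v (X s) = C (v s)
  supp : ∀ (l : List (Ω → ℚ)) (S : Set Ω), ∀ f ∈ supported ℚ S, Dl l f ∈ supported ℚ S
  cong : ∀ (l l' : List (Ω → ℚ)) (S : Set Ω),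
    List.Forall₂ (fun v v' => ∀ s ∈ S, v s = v' s) l l' → ∀ f ∈ supported ℚ S, Dl l f = Dl l' f
  loc : ∀ (l : List (Ω → ℚ)) (B : Finset Ω), (∀ v ∈ l, ∀ s, s ∉ B → v s = 0) → Loc B (Dl l)
  ren : ∀ (l : List (Ω → ℚ)) (g : Equiv.Perm Ω) (f : RR Ω),
    rename g (Dl l f) = Dl (l.map fun v s => v (g⁻¹ s)) (rename g f)
  hc : ∀ (l : List (Ω → ℚ)) (k : ℕ) (f : RR Ω),
    homogeneousComponent k (Dl l f) = Dl l (homogeneousComponent (k + l.length) f)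
  hz : ∀ (l : List (Ω → ℚ)) (k : ℕ) (f : RR Ω), f.IsHomogeneous k → k < l.length → Dl l f = 0

namespace Qv
variable {Ω I : Type} [Fintype Ω] [DecidableEq Ω] [Fintype I] [DecidableEq I] (Z : Qv Ω I)

noncomputable def ee (A C : Finset Ω) : RR Ω :=
  ∏ s ∈ A, ∏ s' ∈ C, (X s' - X s) ^ Z.a (Z.ty s) (Z.ty s')

noncomputable def th (A : Finset Ω) : ℝ := ∑ s ∈ A, Z.θ (Z.ty s)

def dim (A : Finset Ω) : I → ℕ := fun i => (A.filter fun s => Z.ty s = i).card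

noncomputable def JT (B : Finset Ω) : Ideal (RR Ω) :=
  Ideal.span {f | ∃ A ⊆ B, A ≠ B ∧ Z.th (B \ A) ≤ 0 ∧ f = Z.ee A (B \ A)}

noncomputable def JS (B : Finset Ω) : Ideal (RR Ω) :=
  Ideal.span {f | ∃ A ⊆ B, 0 < Z.th A ∧ f = Z.ee A (B \ A)}

noncomputable def JF (B : Finset Ω) : Ideal (RR Ω) :=
  Ideal.span {f | ∃ A ⊆ B, A ≠ ∅ ∧ 0 ≤ Z.th A ∧ f = Z.ee A (B \ A)}

/-- polynomials in the variables of `B`, antisymmetric in sites of equal type -/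
def Asym (B : Finset Ω) : Submodule ℚ (RR Ω) where
  carrier := {f | f ∈ supported ℚ (B : Set Ω) ∧ ∀ s ∈ B, ∀ s' ∈ B, s ≠ s' → Z.ty s = Z.ty s' →
    rename (Equiv.swap s s') f = -f}
  add_mem' := fun hf hg => ⟨Subalgebra.add_mem _ hf.1 hg.1, fun s hs s' hs' h1 h2 => by
    rw [map_add, hf.2 s hs s' hs' h1 h2, hg.2 s hs s' hs' h1 h2, neg_add]⟩
  zero_mem' := ⟨Subalgebra.zero_mem _, fun _ _ _ _ _ _ => by simp⟩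
  smul_mem' := fun c f hf => ⟨Subalgebra.smul_mem _ hf.1 c, fun s hs s' hs' h1 h2 => by
    rw [map_smul, hf.2 s hs s' hs' h1 h2, smul_neg]⟩

/-- type preserving -/
def TP (g : Equiv.Perm Ω) : Prop := ∀ s, Z.ty (g s) = Z.ty s

/-- type preserving permutations supported in `B` that preserve `κ` -/
def HK (B : Finset Ω) (κ : Ω → ℕ) : Subgroup (Equiv.Perm Ω) where
  carrier := {g | Z.TP g ∧ (∀ s, s ∉ B → g s = s) ∧ ∀ s, κ (g s) = κ s}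
  mul_mem' := fun {g h} hg hh => ⟨fun s => (hg.1 (h s)).trans (hh.1 s), fun s hs => by
    rw [Equiv.Perm.mul_apply, hh.2.1 s hs, hg.2.1 s hs], fun s => (hg.2.2 (h s)).trans (hh.2.2 s)⟩
  one_mem' := ⟨fun _ => rfl, fun _ _ => rfl, fun _ => rfl⟩
  inv_mem' := fun {g} hg => ⟨fun s => by simpa using (hg.1 (g⁻¹ s)).symm, fun s hs => by
    rw [Equiv.Perm.inv_eq_iff_eq, hg.2.1 s hs], fun s => by simpa using (hg.2.2 (g⁻¹ s)).symm⟩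

/-- all type preserving permutations supported in `B` -/
def GG (B : Finset Ω) : Subgroup (Equiv.Perm Ω) := Z.HK B fun _ => 0

def Adm (B : Finset Ω) (κ : Ω → ℕ) : Prop := ∀ c, Z.th (fib B κ c) = 0

noncomputable def Jk (B : Finset Ω) (κ : Ω → ℕ) : Ideal (RR Ω) := ⨆ c, Z.JS (fib B κ c)

noncomputable def ek (B : Finset Ω) (κ : Ω → ℕ) : RR Ω :=
  ∏ s ∈ B, ∏ s' ∈ B, if κ s < κ s' then (X s' - X s) ^ Z.a (Z.ty s) (Z.ty s') else 1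

def r1 (B : Finset Ω) (κ : Ω → ℕ) : ℕ :=
  ∑ s ∈ B, ∑ s' ∈ B, if κ s < κ s' then Z.a (Z.ty s) (Z.ty s') else 0

def R2 (B : Finset Ω) (κ : Ω → ℕ) : ℕ :=
  ∑ s ∈ B, ∑ s' ∈ B, if κ s ≠ κ s' then Z.a (Z.ty s) (Z.ty s') else 0

/-- top symbol along `κ` of `ek B κ'` -/
noncomputable def DL (B : Finset Ω) (κ κ' : Ω → ℕ) : MvPolynomial ℕ ℚ :=
  ∏ s ∈ B, ∏ s' ∈ B, if κ' s < κ' s' then (X (κ s') - X (κ s)) ^ Z.a (Z.ty s) (Z.ty s') else 1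

/-- the filtration -/
noncomputable def FF (B : Finset Ω) (δ k : ℕ) : Submodule ℚ (RR Ω) :=
  ⨅ κ : Ω → ℕ, ⨅ _ : Z.Adm B κ,
    Lt (Z.Jk B κ) B κ (Z.R2 B κ + 2 * δ + if nb B κ < k then 1 else 0)

noncomputable def W (B : Finset Ω) : Submodule ℚ (RR Ω) := Z.Asym B ⊓ Z.FF B 0 2

/-- elementary facts -/
structure S_BAS : Prop where
  th_dim : ∀ A, Z.th A = thd Z.θ (Z.dim A)
  dim_union : ∀ A C, Disjoint A C → Z.dim (A ∪ C) = Z.dim A + Z.dim C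
  dim_sum : ∀ A, ∑ i, Z.dim A i = A.card
  dim_map : ∀ g A, Z.TP g → Z.dim (A.map g.toEmbedding) = Z.dim A
  dim_fib : ∀ B κ, ∑ c ∈ B.image κ, Z.dim (fib B κ c) = Z.dim B
  arr_dim : ∀ A C, arr Z.a (Z.dim A) (Z.dim C) = ∑ s ∈ A, ∑ s' ∈ C, Z.a (Z.ty s) (Z.ty s')
  ee_hom : ∀ A C, (Z.ee A C).IsHomogeneous (arr Z.a (Z.dim A) (Z.dim C))
  ee_supp : ∀ A C B : Finset Ω, A ⊆ B → C ⊆ B → Z.ee A C ∈ supported ℚ (B : Set Ω)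
  ee_dvd : ∀ A A' C C', A ⊆ A' → C ⊆ C' → Z.ee A C ∣ Z.ee A' C'
  ee_ren : ∀ g A C, Z.TP g →
    rename g (Z.ee A C) = Z.ee (A.map g.toEmbedding) (C.map g.toEmbedding)
  ee_D : ∀ (v : Ω → ℚ) (A C : Finset Ω), (∀ s ∈ A, ∀ s' ∈ C, v s = v s') → Dv v (Z.ee A C) = 0
  homI : ∀ B, HomI (Z.JT B) ∧ HomI (Z.JS B) ∧ HomI (Z.JF B)
  homI_iSup : ∀ (C : Type) (J : C → Ideal (RR Ω)), (∀ c, HomI (J c)) → HomI (⨆ c, J c)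
  homI_biSup : ∀ (C : Type) (s : Finset C) (J : C → Ideal (RR Ω)), (∀ c ∈ s, HomI (J c)) →
    HomI (⨆ c ∈ s, J c)
  homI_bot : HomI (⊥ : Ideal (RR Ω))
  gen : ∀ B, Gen B (Z.JT B) ∧ Gen B (Z.JS B) ∧ Gen B (Z.JF B)
  gen_Jk : ∀ B κ, Gen B (Z.Jk B κ)
  J_ren : ∀ g B f, Z.TP g → (f ∈ Z.JT B → rename g f ∈ Z.JT (B.map g.toEmbedding)) ∧
    (f ∈ Z.JS B → rename g f ∈ Z.JS (B.map g.toEmbedding)) ∧
    (f ∈ Z.JF B → rename g f ∈ Z.JF (B.map g.toEmbedding))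
  JS_empty : Z.JS ∅ = ⊥
  Jk_eq : ∀ B κ, Z.Jk B κ = ⨆ c ∈ B.image κ, Z.JS (fib B κ c)
  JS_le : ∀ B κ, Z.JS B ≤ Z.Jk B κ
  Jk_mono : ∀ B κ κ', Crs B κ κ' → Z.Jk B κ' ≤ Z.Jk B κ
  Jk_D : ∀ B κ (l : List (Ω → ℚ)), (∀ v ∈ l, Cst B κ v) → ∀ f ∈ Z.Jk B κ, Dl l f ∈ Z.Jk B κ
  Asym_ren : ∀ g B f, Z.TP g → f ∈ Z.Asym B → rename g f ∈ Z.Asym (B.map g.toEmbedding)
  Asym_hom : ∀ B, HomV (Z.Asym B)
  ek_hom : ∀ B κ, (Z.ek B κ).IsHomogeneous (Z.r1 B κ)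
  ek_supp : ∀ (B : Finset Ω) κ, Z.ek B κ ∈ supported ℚ (B : Set Ω)
  ek_ren : ∀ g B κ, Z.TP g →
    rename g (Z.ek B κ) = Z.ek (B.map g.toEmbedding) fun s => κ (g⁻¹ s)
  fib_ren : ∀ (g : Equiv.Perm Ω) B κ c,
    fib (B.map g.toEmbedding) (fun s => κ (g⁻¹ s)) c = (fib B κ c).map g.toEmbedding
  map_GG : ∀ B, ∀ g ∈ Z.GG B, B.map g.toEmbedding = B
  R2_eq : Sym Z.a Z.θ → ∀ B κ, Z.Adm B κ → Z.R2 B κ = 2 * Z.r1 B κ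
  R2_arr : ∀ B κ, Z.R2 B κ + ∑ c ∈ B.image κ, arr Z.a (Z.dim (fib B κ c)) (Z.dim (fib B κ c)) =
    arr Z.a (Z.dim B) (Z.dim B)
  crs_eq : ∀ (B : Finset Ω) κ κ', Crs B κ κ' → nb B κ ≤ nb B κ' → Crs B κ' κ
  crs_nb : ∀ (B : Finset Ω) κ κ', Crs B κ κ' → nb B κ' ≤ nb B κ
  rel : ∀ B κ κ', Crs B κ κ' → Crs B κ' κ → (Z.Adm B κ → Z.Adm B κ') ∧ Z.R2 B κ = Z.R2 B κ' ∧
    ∀ N, Lt (Z.Jk B κ) B κ N = Lt (Z.Jk B κ') B κ' N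

/-- permutations -/
structure S_PERM : Prop where
  act_mul : ∀ g h : Equiv.Perm Ω, act (g * h) = act g * act h
  alt_act : ∀ (H : Subgroup (Equiv.Perm Ω)), ∀ g ∈ H, ∀ f, Alt H (act g f) = Alt H f ∧
    act g (Alt H f) = Alt H f
  bas : ∀ B κ (f : RR Ω), (∀ s ∈ B, ∀ s' ∈ B, s ≠ s' → Z.ty s = Z.ty s' → κ s = κ s' →
    rename (Equiv.swap s s') f = -f) → ∀ g ∈ Z.HK B κ, act g f = f
  alt_mem : ∀ B : Finset Ω, ∀ f ∈ supported ℚ (B : Set Ω), Alt (Z.GG B) f ∈ Z.Asym B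
  alt_eq : ∀ B, ∃ N : ℕ, 0 < N ∧ ∀ f ∈ Z.Asym B, Alt (Z.GG B) f = (N : ℚ) • f
  alt_hom : ∀ (H : Subgroup (Equiv.Perm Ω)) (f : RR Ω) k, f.IsHomogeneous k →
    (Alt H f).IsHomogeneous k
  fibm : ∀ B κ κ', (∀ c, Z.dim (fib B κ c) = Z.dim (fib B κ' c)) →
    ∃ g ∈ Z.GG B, ∀ s ∈ B, κ' (g s) = κ s
  move : ∀ A A', Z.dim A = Z.dim A' → ∃ g, Z.TP g ∧ A.map g.toEmbedding = A'
  split : ∀ (B : Finset Ω) (k : ℕ) (d : ℕ → I → ℕ), ∑ c ∈ range k, d c = Z.dim B →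
    ∃ κ : Ω → ℕ, (∀ s ∈ B, κ s < k) ∧ ∀ c < k, Z.dim (fib B κ c) = d c
  swp : ∀ C C' : Finset Ω, Disjoint C C' → Z.dim C = Z.dim C' → ∃ τ, Z.TP τ ∧ τ * τ = 1 ∧
    (∀ s, s ∉ C → s ∉ C' → τ s = s) ∧ (∀ s ∈ C, τ s ∈ C') ∧ (∀ s ∈ C', τ s ∈ C) ∧
    Equiv.Perm.sign τ = (-1) ^ C.card

/-- invariance properties of the filtration -/
structure S_WINV : Prop where
  lt_ren : ∀ g B κ N f, Z.TP g → f ∈ Lt (Z.Jk B κ) B κ N →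
    rename g f ∈ Lt (Z.Jk (B.map g.toEmbedding) fun s => κ (g⁻¹ s)) (B.map g.toEmbedding)
      (fun s => κ (g⁻¹ s)) N
  ff_ren : ∀ g B δ k f, Z.TP g → f ∈ Z.FF B δ k → rename g f ∈ Z.FF (B.map g.toEmbedding) δ k
  ff_alt : ∀ B δ k f, f ∈ Z.FF B δ k → Alt (Z.GG B) f ∈ Z.FF B δ k
  w_hom : ∀ B, HomV (Z.W B)
  hh_ren : ∀ A A', Z.dim A = Z.dim A' → HH (Z.Asym A) (Z.JT A) = HH (Z.Asym A') (Z.JT A') ∧
    HH (Z.Asym A) (Z.JS A) = HH (Z.Asym A') (Z.JS A') ∧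
    HH (Z.Asym A) (Z.JF A) = HH (Z.Asym A') (Z.JF A')
  ff_top : ∀ B k (f : RR Ω), f ∈ Z.FF B (f.totalDegree + 1) k
  ff_bot : ∀ B, Z.th B = 0 → ∀ f ∈ Z.FF B 0 0, f ∈ Z.JS B
  ff_step : Sym Z.a Z.θ → ∀ B δ, Z.FF B (δ + 1) 0 ≤ Z.FF B δ (B.card + 1)

/-- top derivatives lie in the tensor product of the spaces `W` -/
def S_COEF : Prop := ∀ (Γ : Type) (val : ℕ → Γ → Prop) (b : ℕ → Γ → RR Ω) (dg : ℕ → Γ → ℕ)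
  (B : Finset Ω) (κ : Ω → ℕ), B.Nonempty → Z.Adm B κ →
  (∀ c ∈ B.image κ, GB (Z.W (fib B κ c)) (Z.JS (fib B κ c)) (val c) (b c) (dg c)) →
  ∀ f ∈ Z.Asym B, ∀ l : List (Ω → ℚ), (∀ v ∈ l, Cst B κ v) →
  f ∈ Lt (Z.Jk B κ) B κ (2 * l.length + 1) →
  (∀ κ', Z.Adm B κ' → Crs B κ' κ → nb B κ < nb B κ' → ∀ l' : List (Ω → ℚ),
    (∀ v ∈ l', Cst B κ' v) → Z.R2 B κ' + 2 * l.length ≤ 2 * l'.length + Z.R2 B κ →
    Dl l' f ∈ Z.Jk B κ') →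
  ∃ g ∈ Submodule.span ℚ {x | ∃ γ : ℕ → Γ, (∀ c ∈ B.image κ, val c (γ c)) ∧
    x = ∏ c ∈ B.image κ, b c (γ c)}, Dl l f - g ∈ Z.Jk B κ

def S_FIN : Prop := Sym Z.a Z.θ → ∀ B : Finset Ω, B.Nonempty → Z.th B = 0 →
  ∃ N, ∀ f ∈ Z.W B, ∀ k, N ≤ k → f.IsHomogeneous k → f ∈ Z.JS B

/-- a coherent family of bases of the spaces `W` -/
structure Coh (Γ : Type) where
  dΓ : Γ → I → ℕ
  dg : Γ → ℕ
  w : Finset Ω → Γ → RR Ω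
  gb : ∀ C : Finset Ω, C.Nonempty → Z.th C = 0 →
    GB (Z.W C) (Z.JS C) (fun γ => dΓ γ = Z.dim C) (w C) dg
  co : ∀ g C γ, Z.TP g → dΓ γ = Z.dim C → rename g (w C γ) = w (C.map g.toEmbedding) γ ∨
    rename g (w C γ) = -w (C.map g.toEmbedding) γ
  ne : ∀ γ, dΓ γ ≠ 0 ∧ thd Z.θ (dΓ γ) = 0

def S_COH : Prop := Sym Z.a Z.θ → ∃ (Γ : Type) (_ : Fintype Γ), Nonempty (Z.Coh Γ)

namespace Coh
variable {Z} {Γ : Type} (Y : Z.Coh Γ)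

def Val (B : Finset Ω) (κ : Ω → ℕ) (lab : ℕ → Γ × ℕ) : Prop :=
  ∀ c ∈ B.image κ, Y.dΓ (lab c).1 = Z.dim (fib B κ c)

noncomputable def ww (B : Finset Ω) (κ : Ω → ℕ) (lab : ℕ → Γ × ℕ) : RR Ω :=
  ∏ c ∈ B.image κ, Y.w (fib B κ c) (lab c).1

noncomputable def gg (B : Finset Ω) (κ : Ω → ℕ) (lab : ℕ → Γ × ℕ) : RR Ω :=
  Y.ww B κ lab * ∏ c ∈ B.image κ, pp (fib B κ c) ^ (lab c).2

noncomputable def EE (B : Finset Ω) (κ : Ω → ℕ) (lab : ℕ → Γ × ℕ) : RR Ω :=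
  Z.ek B κ * Y.gg B κ lab

end Coh

def dl {Γ : Type} (B : Finset Ω) (κ : Ω → ℕ) (lab : ℕ → Γ × ℕ) : ℕ := ∑ c ∈ B.image κ, (lab c).2

def ms {Γ : Type} (B : Finset Ω) (κ : Ω → ℕ) (lab : ℕ → Γ × ℕ) : Multiset (Γ × ℕ) :=
  (B.image κ).val.map lab

noncomputable def mono {Γ : Type} (B : Finset Ω) (κ : Ω → ℕ) (lab : ℕ → Γ × ℕ) : ℕ →₀ ℕ :=
  ∑ c ∈ B.image κ, Finsupp.single c (lab c).2

noncomputable def cc {Γ : Type} (B : Finset Ω) (κ : Ω → ℕ) (lab : ℕ → Γ × ℕ) : ℚ :=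
  ∏ c ∈ B.image κ, ((fib B κ c).card : ℚ) ^ (lab c).2

/-- symbols of Euler classes -/
structure S_EK : Prop where
  top : ∀ B κ κ' (m : ℕ →₀ ℕ), Z.r1 B κ' ≤ m.degree →
    coeff m (TT B κ (Z.ek B κ')) = C (coeff m (Z.DL B κ κ'))
  hom : ∀ B κ κ', (Z.DL B κ κ').IsHomogeneous (Z.r1 B κ')
  ne : ∀ B κ κ', Crs B κ κ' → Z.DL B κ κ' ≠ 0
  prd : ∀ B κ, Z.DL B κ κ = ∏ x ∈ ((B.image κ) ×ˢ (B.image κ)).filter (fun x => x.1 < x.2),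
    (X x.2 - X x.1) ^ arr Z.a (Z.dim (fib B κ x.1)) (Z.dim (fib B κ x.2))
  sgn : Sym Z.a Z.θ → ∀ B κ κ', Z.Adm B κ → Crs B κ κ' → Crs B κ' κ →
    Z.DL B κ κ' = Z.DL B κ κ ∨ Z.DL B κ κ' = -Z.DL B κ κ
  swp : Sym Z.a Z.θ → ∀ B κ i j, Z.Adm B κ → i ≠ j → Z.dim (fib B κ i) = Z.dim (fib B κ j) →
    Z.DL B κ (fun s => Equiv.swap i j (κ s)) =
      (-1) ^ arr Z.a (Z.dim (fib B κ i)) (Z.dim (fib B κ i)) * Z.DL B κ κ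
  low : Sym Z.a Z.θ → ∀ B κ κ' (ε : ℚ), Z.Adm B κ → Crs B κ κ' → Crs B κ' κ →
    Z.DL B κ κ' = ε • Z.DL B κ κ → Z.ek B κ' - ε • Z.ek B κ ∈ Lt ⊥ B κ (Z.R2 B κ)

/-- elementary facts about the standard elements -/
structure S_EE {Γ : Type} (Y : Z.Coh Γ) : Prop where
  adm : ∀ B κ lab, Y.Val B κ lab → Z.Adm B κ
  supp : ∀ B κ lab, Y.Val B κ lab → Y.gg B κ lab ∈ supported ℚ (B : Set Ω)
  hom : ∀ B κ lab, Y.Val B κ lab → (Y.EE B κ lab).IsHomogeneous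
    (Z.r1 B κ + ((ms B κ lab).map fun x => Y.dg x.1 + x.2).sum)
  ex : ∀ (B : Finset Ω) κ κ' (lab' : ℕ → Γ × ℕ), Crs B κ κ' →
    ∃ lab : ℕ → Γ × ℕ, ∀ s ∈ B, lab (κ s) = lab' (κ' s)
  rel : ∀ B κ κ' lab lab', Crs B κ κ' → Crs B κ' κ → (∀ s ∈ B, lab (κ s) = lab' (κ' s)) →
    (Y.Val B κ lab ↔ Y.Val B κ' lab') ∧ Y.gg B κ lab = Y.gg B κ' lab' ∧
    dl B κ lab = dl B κ' lab' ∧ ms B κ lab = ms B κ' lab'
  ren : ∀ B κ lab, ∀ g ∈ Z.GG B, Y.Val B κ lab → Y.Val B (fun s => κ (g⁻¹ s)) lab ∧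
    B.image (fun s => κ (g⁻¹ s)) = B.image κ ∧
    (rename g (Y.gg B κ lab) = Y.gg B (fun s => κ (g⁻¹ s)) lab ∨
      rename g (Y.gg B κ lab) = -Y.gg B (fun s => κ (g⁻¹ s)) lab)
  asy : ∀ B κ lab, Y.Val B κ lab → ∀ g ∈ Z.HK B κ, act g (Y.EE B κ lab) = Y.EE B κ lab
  glt : ∀ B κ lab, Y.Val B κ lab → Y.gg B κ lab ∈ Lt (Z.Jk B κ) B κ (2 * dl B κ lab + 1)
  symb : ∀ B κ κ' lab, Y.Val B κ lab → ∀ m : ℕ →₀ ℕ, Z.r1 B κ' + dl B κ lab ≤ m.degree →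
    coeff m (TT B κ (Z.ek B κ' * Y.gg B κ lab)) -
      coeff m (Z.DL B κ κ' * monomial (mono B κ lab) (cc B κ lab)) • Y.ww B κ lab ∈ Z.Jk B κ

def S_BOUND {Γ : Type} (Y : Z.Coh Γ) : Prop := Sym Z.a Z.θ → ∀ B κ lab, Y.Val B κ lab →
  ∀ κ', Z.Adm B κ' →
    Y.EE B κ lab ∈ Lt (Z.Jk B κ') B κ' (Z.R2 B κ' + 2 * dl B κ lab + 1) ∧
    (¬Crs B κ κ' → Y.EE B κ lab ∈ Lt (Z.Jk B κ') B κ' (Z.R2 B κ' + 2 * dl B κ lab))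

def S_SYM {Γ : Type} (Y : Z.Coh Γ) : Prop := Sym Z.a Z.θ → ∀ B κ δ, B.Nonempty → Z.Adm B κ →
  ∀ f ∈ Z.Asym B, f ∈ Z.FF B δ (nb B κ + 1) →
    ∃ g ∈ Submodule.span ℚ {x | ∃ lab, Y.Val B κ lab ∧ dl B κ lab = δ ∧ x = Y.EE B κ lab},
      f - g ∈ Lt (Z.Jk B κ) B κ (Z.R2 B κ + 2 * δ)

structure S_SGN {Γ : Type} [DecidableEq Γ] (Y : Z.Coh Γ) : Prop where
  swp : Sym Z.a Z.θ → ∀ B κ lab i j, Y.Val B κ lab → i ∈ B.image κ → j ∈ B.image κ → i ≠ j →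
    lab i = lab j → ∃ τ ∈ Z.GG B, (∀ s ∈ B, κ (τ s) = Equiv.swap i j (κ s)) ∧ τ * τ = 1 ∧
      act τ (Y.EE B κ lab) - ((-1 : ℚ) ^ par Z.a (Y.dΓ (lab i).1)) • Y.EE B κ lab ∈
        Lt (Z.Jk B κ) B κ (Z.R2 B κ + 2 * dl B κ lab)
  stab : Sym Z.a Z.θ → ∀ B κ lab, Y.Val B κ lab →
    (∀ x, Odd (par Z.a (Y.dΓ x.1)) → (ms B κ lab).count x ≤ 1) → ∀ g ∈ Z.GG B,
    Crs B κ (fun s => κ (g s)) → (∀ s ∈ B, lab (κ (g s)) = lab (κ s)) →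
      act g (Y.EE B κ lab) - Y.EE B κ lab ∈ Lt (Z.Jk B κ) B κ (Z.R2 B κ + 2 * dl B κ lab)

/-- a choice of a labelled partition for each good multiset -/
def Ch {Γ : Type} [DecidableEq Γ] (Y : Z.Coh Γ) (B : Finset Ω)
    (κ : {M // Good Z.a Y.dΓ (Z.dim B) M} → Ω → ℕ)
    (lab : {M // Good Z.a Y.dΓ (Z.dim B) M} → ℕ → Γ × ℕ) : Prop :=
  ∀ M, Y.Val B (κ M) (lab M) ∧ ms B (κ M) (lab M) = M.1

def S_SPAN {Γ : Type} [DecidableEq Γ] (Y : Z.Coh Γ) : Prop := Sym Z.a Z.θ →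
  ∀ B κ lab, B.Nonempty → Z.th B = 0 → Z.Ch Y B κ lab → ∀ f ∈ Z.Asym B,
    ∃ g ∈ Submodule.span ℚ (Set.range fun M => Alt (Z.GG B) (Y.EE B (κ M) (lab M))),
      f - g ∈ Z.JS B

def S_IND {Γ : Type} [DecidableEq Γ] (Y : Z.Coh Γ) : Prop := Sym Z.a Z.θ →
  ∀ B κ lab, Z.Ch Y B κ lab →
    Ind (Z.JS B) (fun _ => True) fun M => Alt (Z.GG B) (Y.EE B (κ M) (lab M))

def S_INT {Γ : Type} [DecidableEq Γ] (Y : Z.Coh Γ) : Prop := Sym Z.a Z.θ →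
  ∀ B : Finset Ω, B.Nonempty → Z.th B = 0 → ∀ k, hh (Z.Asym B) (Z.JS B) k =
    Nat.card {M : Multiset (Γ × ℕ) //
      Good Z.a Y.dΓ (Z.dim B) M ∧ DegM Z.a Y.dΓ Y.dg (Z.dim B) M k}

def S_MON : Prop := ∀ B, HH (Z.Asym B) ⊥ = ∏ i, cf (Z.dim B i)

def S_HN : Prop := ∀ (B : Finset Ω) (blk : (I → ℕ) → Finset Ω),
  (∀ d ≤ Z.dim B, Z.dim (blk d) = d) →
  HH (Z.Asym B) ⊥ = ∑ p ∈ AD (Z.dim B), ∑ q ∈ AD p.2,
    if thd Z.θ q.1 = 0 then PowerSeries.X ^ (arr Z.a p.1 p.2 + arr Z.a q.1 q.2) *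
      HH (Z.Asym (blk p.1)) (Z.JT (blk p.1)) * HH (Z.Asym (blk q.1)) (Z.JS (blk q.1)) *
      HH (Z.Asym (blk q.2)) (Z.JF (blk q.2)) else 0

end Qv

/-! Task statements. -/

def T_GF : Prop := S_CB ∧ S_PROD ∧ S_PAR ∧ S_GF

def T_GB : Prop := ∀ (Ω : Type) [Fintype Ω], S_GB Ω

def T_TEN : Prop := ∀ (Ω : Type) [Fintype Ω] [DecidableEq Ω], S_TENI Ω ∧ S_TENS Ω

def T_TAY : Prop := ∀ (Ω : Type) [Fintype Ω] [DecidableEq Ω], S_TAY Ω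

def T_BAS : Prop := ∀ (Ω I : Type) [Fintype Ω] [DecidableEq Ω] [Fintype I] [DecidableEq I]
  (Z : Qv Ω I), S_TAY Ω → Z.S_BAS

def T_PERM : Prop := ∀ (Ω I : Type) [Fintype Ω] [DecidableEq Ω] [Fintype I] [DecidableEq I]
  (Z : Qv Ω I), Z.S_PERM

def T_WINV : Prop := ∀ (Ω I : Type) [Fintype Ω] [DecidableEq Ω] [Fintype I] [DecidableEq I]
  (Z : Qv Ω I), S_TAY Ω → Z.S_BAS → Z.S_PERM → Z.S_WINV

def T_COEF : Prop := ∀ (Ω I : Type) [Fintype Ω] [DecidableEq Ω] [Fintype I] [DecidableEq I]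
  (Z : Qv Ω I), S_TAY Ω → Z.S_BAS → S_TENS Ω → Z.S_COEF

def T_FIN : Prop := ∀ (Ω I : Type) [Fintype Ω] [DecidableEq Ω] [Fintype I] [DecidableEq I]
  (Z : Qv Ω I), S_TAY Ω → Z.S_BAS → S_GB Ω → Z.S_WINV → Z.S_COEF → Z.S_FIN

def T_COH : Prop := ∀ (Ω I : Type) [Fintype Ω] [DecidableEq Ω] [Fintype I] [DecidableEq I]
  (Z : Qv Ω I), Z.S_BAS → Z.S_PERM → S_GB Ω → Z.S_WINV → Z.S_FIN → Z.S_COH

def T_EK : Prop := ∀ (Ω I : Type) [Fintype Ω] [DecidableEq Ω] [Fintype I] [DecidableEq I]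
  (Z : Qv Ω I), S_TAY Ω → Z.S_BAS → Z.S_EK

def T_EE : Prop := ∀ (Ω I : Type) [Fintype Ω] [DecidableEq Ω] [Fintype I] [DecidableEq I]
  (Z : Qv Ω I) (Γ : Type) [DecidableEq Γ] (Y : Z.Coh Γ),
  S_TAY Ω → Z.S_BAS → Z.S_PERM → Z.S_EK → Z.S_EE Y

def T_BOUND : Prop := ∀ (Ω I : Type) [Fintype Ω] [DecidableEq Ω] [Fintype I] [DecidableEq I]
  (Z : Qv Ω I) (Γ : Type) [DecidableEq Γ] (Y : Z.Coh Γ),
  S_TAY Ω → Z.S_BAS → Z.S_EE Y → Z.S_BOUND Y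

def T_SYM : Prop := ∀ (Ω I : Type) [Fintype Ω] [DecidableEq Ω] [Fintype I] [DecidableEq I]
  (Z : Qv Ω I) (Γ : Type) [DecidableEq Γ] (Y : Z.Coh Γ),
  S_TAY Ω → Z.S_BAS → S_TENI Ω → S_DIV → Z.S_COEF → Z.S_EK → Z.S_EE Y → Z.S_SYM Y

def T_SGN : Prop := ∀ (Ω I : Type) [Fintype Ω] [DecidableEq Ω] [Fintype I] [DecidableEq I]
  (Z : Qv Ω I) (Γ : Type) [DecidableEq Γ] (Y : Z.Coh Γ),
  S_TAY Ω → Z.S_BAS → Z.S_PERM → Z.S_WINV → Z.S_EK → Z.S_EE Y → Z.S_SGN Y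

def T_SPAN : Prop := ∀ (Ω I : Type) [Fintype Ω] [DecidableEq Ω] [Fintype I] [DecidableEq I]
  (Z : Qv Ω I) (Γ : Type) [DecidableEq Γ] (Y : Z.Coh Γ),
  S_TAY Ω → Z.S_BAS → Z.S_PERM → Z.S_WINV → Z.S_EK → Z.S_EE Y → Z.S_BOUND Y →
  Z.S_SYM Y → Z.S_SGN Y → Z.S_SPAN Y

def T_IND : Prop := ∀ (Ω I : Type) [Fintype Ω] [DecidableEq Ω] [Fintype I] [DecidableEq I]
  (Z : Qv Ω I) (Γ : Type) [DecidableEq Γ] (Y : Z.Coh Γ),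
  S_TAY Ω → Z.S_BAS → S_TENI Ω → Z.S_EK → Z.S_EE Y → Z.S_BOUND Y → Z.S_SGN Y →
  Z.S_IND Y

def T_INT : Prop := ∀ (Ω I : Type) [Fintype Ω] [DecidableEq Ω] [Fintype I] [DecidableEq I]
  (Z : Qv Ω I) (Γ : Type) [DecidableEq Γ] (Y : Z.Coh Γ),
  Z.S_BAS → Z.S_PERM → S_GB Ω → Z.S_EE Y → Z.S_SPAN Y → Z.S_IND Y → Z.S_INT Y

def T_MON : Prop := ∀ (Ω I : Type) [Fintype Ω] [DecidableEq Ω] [Fintype I] [DecidableEq I]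
  (Z : Qv Ω I), S_PROD → Z.S_BAS → Z.S_PERM → S_GB Ω → Z.S_MON

def T_HN : Prop := ∀ (Ω I : Type) [Fintype Ω] [DecidableEq Ω] [Fintype I] [DecidableEq I]
  (Z : Qv Ω I), Z.S_BAS → Z.S_PERM → S_GB Ω → S_TENI Ω → S_TENS Ω → Z.S_WINV → Z.S_HN

def T_SPEC : Prop := S_CB → S_GF →
  (∀ (Ω I : Type) [Fintype Ω] [DecidableEq Ω] [Fintype I] [DecidableEq I] (Z : Qv Ω I),
    Z.S_BAS ∧ Z.S_MON ∧ Z.S_HN ∧ Z.S_COH ∧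
      ∀ (Γ : Type) [DecidableEq Γ] (Y : Z.Coh Γ), Z.S_INT Y) → S_SPEC

theorem spec_of (gf : T_GF) (dv : S_DIV) (gb : T_GB) (ten : T_TEN) (tay : T_TAY) (bas : T_BAS)
    (perm : T_PERM) (winv : T_WINV) (coef : T_COEF) (fin : T_FIN) (coh : T_COH) (ek : T_EK)
    (ee : T_EE) (bound : T_BOUND) (sym : T_SYM) (sgn : T_SGN) (span : T_SPAN) (ind : T_IND)
    (int : T_INT) (mon : T_MON) (hn : T_HN) (spec : T_SPEC) : S_SPEC := by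
  refine spec gf.1 gf.2.2.2 fun Ω I _ _ _ _ Z => ?_
  have h1 := tay Ω
  have h2 := bas Ω I Z h1
  have h3 := perm Ω I Z
  have h4 := winv Ω I Z h1 h2 h3
  have h5 := coef Ω I Z h1 h2 (ten Ω).2
  have h6 := fin Ω I Z h1 h2 (gb Ω) h4 h5
  have h7 := ek Ω I Z h1 h2
  refine ⟨h2, mon Ω I Z gf.2.1 h2 h3 (gb Ω), hn Ω I Z h2 h3 (gb Ω) (ten Ω).1 (ten Ω).2 h4,
    coh Ω I Z h2 h3 (gb Ω) h4 h6, fun Γ _ Y => ?_⟩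
  have h8 := ee Ω I Z Γ Y h1 h2 h3 h7
  have h9 := bound Ω I Z Γ Y h1 h2 h8
  have h10 := sgn Ω I Z Γ Y h1 h2 h3 h4 h7 h8
  exact int Ω I Z Γ Y h2 h3 (gb Ω) h8
    (span Ω I Z Γ Y h1 h2 h3 h4 h7 h8 h9 (sym Ω I Z Γ Y h1 h2 (ten Ω).1 dv h5 h7 h8) h10)
    (ind Ω I Z Γ Y h1 h2 (ten Ω).1 h7 h8 h9 h10)

end Pool.Agent.P.MP_389f6f_co.Sp
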