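import Pool.Agent.P.MP_389f6f_co.QRing
import Pool.Agent.P.MP_389f6f_co.SDefs

/-! Definitions and interface statements for the scattering part. -/

set_option autoImplicit false

namespace Pool.Agent.P.MP_389f6f_co.Qt
open Finset

variable {Λ K : Type} [AddCommGroup Λ] [CommRing K]

/-- a sign pattern compatible with addition -/
structure Cut (Λ : Type) [AddCommGroup Λ] where
  N : Λ → Prop
  P : Λ → Prop
  disj : ∀ x, N x → ¬P x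
  N0 : ¬N 0
  P0 : ¬P 0
  addN : ∀ x y, N x → ¬P y → N (x + y)
  addP : ∀ x y, P x → ¬N y → P (x + y)
  addZ : ∀ x y, ¬N x → ¬P x → ¬N y → ¬P y → ¬N (x + y) ∧ ¬P (x + y)

namespace Cut

def of (θ : Λ →+ ℝ) : Cut Λ where
  N x := θ x < 0
  P x := 0 < θ x
  disj _ h := not_lt.mpr h.le
  N0 := by simp
  P0 := by simp
  addN x y h1 h2 := by rw [map_add]; linarith [not_lt.mp h2]
  addP x y h1 h2 := by rw [map_add]; linarith [not_lt.mp h2]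
  addZ x y h1 h2 h3 h4 := by
    rw [map_add]
    constructor <;> linarith [not_lt.mp h1, not_lt.mp h2, not_lt.mp h3, not_lt.mp h4]

@[simp] theorem of_N (θ : Λ →+ ℝ) (x : Λ) : (of θ).N x ↔ θ x < 0 := Iff.rfl
@[simp] theorem of_P (θ : Λ →+ ℝ) (x : Λ) : (of θ).P x ↔ 0 < θ x := Iff.rfl

theorem addN' (c : Cut Λ) (x y : Λ) (h1 : ¬c.P x) (h2 : c.N y) : c.N (x + y) := by
  rw [add_comm]; exact c.addN y x h2 h1

theorem addP' (c : Cut Λ) (x y : Λ) (h1 : ¬c.N x) (h2 : c.P y) : c.P (x + y) := by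
  rw [add_comm]; exact c.addP y x h2 h1

theorem addnN (c : Cut Λ) (x y : Λ) (h1 : ¬c.N x) (h2 : ¬c.N y) : ¬c.N (x + y) := by
  by_cases hx : c.P x
  · exact fun h => c.disj _ h (c.addP x y hx h2)
  · by_cases hy : c.P y
    · exact fun h => c.disj _ h (c.addP' x y h1 hy)
    · exact (c.addZ x y h1 hx h2 hy).1

theorem addnP (c : Cut Λ) (x y : Λ) (h1 : ¬c.P x) (h2 : ¬c.P y) : ¬c.P (x + y) := by
  by_cases hx : c.N x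
  · exact c.disj _ (c.addN x y hx h2)
  · by_cases hy : c.N y
    · exact c.disj _ (c.addN' x y h1 hy)
    · exact (c.addZ x y hx h1 hy h2).2

/-- first `c`, ties broken by `d` -/
def lex (c d : Cut Λ) : Cut Λ where
  N x := c.N x ∨ (¬c.P x ∧ d.N x)
  P x := c.P x ∨ (¬c.N x ∧ d.P x)
  disj x h h' := by
    have := c.disj x; have := d.disj x; tauto
  N0 := by have := c.N0; have := d.N0; tauto
  P0 := by have := c.P0; have := d.P0; tauto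
  addN x y h1 h2 := by
    have := c.addN x y; have := c.addN' x y; have := d.addN x y; have := c.addnP x y; tauto
  addP x y h1 h2 := by
    have := c.addP x y; have := c.addP' x y; have := d.addP x y; have := c.addnN x y; tauto
  addZ x y h1 h2 h3 h4 := by
    have := c.addZ x y; have := d.addZ x y; tauto

@[simp] theorem lex_N (c d : Cut Λ) (x : Λ) : (lex c d).N x ↔ c.N x ∨ (¬c.P x ∧ d.N x) := Iff.rfl
@[simp] theorem lex_P (c d : Cut Λ) (x : Λ) : (lex c d).P x ↔ c.P x ∨ (¬c.N x ∧ d.P x) := Iff.rfl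

def Neg (c : Cut Λ) : AddSubmonoid Λ where
  carrier := {x | x = 0 ∨ c.N x}
  zero_mem' := Or.inl rfl
  add_mem' := by
    rintro x y (rfl | hx) (rfl | hy)
    · simp
    · exact Or.inr (by simpa using hy)
    · exact Or.inr (by simpa using hx)
    · exact Or.inr (c.addN x y hx (c.disj _ hy))

def Pos (c : Cut Λ) : AddSubmonoid Λ where
  carrier := {x | x = 0 ∨ c.P x}
  zero_mem' := Or.inl rfl
  add_mem' := by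
    rintro x y (rfl | hx) (rfl | hy)
    · simp
    · exact Or.inr (by simpa using hy)
    · exact Or.inr (by simpa using hx)
    · exact Or.inr (c.addP x y hx fun h => c.disj _ h hy)

def Zer (c : Cut Λ) : AddSubmonoid Λ where
  carrier := {x | ¬c.N x ∧ ¬c.P x}
  zero_mem' := ⟨c.N0, c.P0⟩
  add_mem' := fun hx hy => c.addZ _ _ hx.1 hx.2 hy.1 hy.2

def NN (c : Cut Λ) : AddSubmonoid Λ where
  carrier := {x | ¬c.N x}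
  zero_mem' := c.N0
  add_mem' := fun hx hy => c.addnN _ _ hx hy

theorem mem_Neg (c : Cut Λ) (x : Λ) : x ∈ c.Neg ↔ x = 0 ∨ c.N x := Iff.rfl
theorem mem_Pos (c : Cut Λ) (x : Λ) : x ∈ c.Pos ↔ x = 0 ∨ c.P x := Iff.rfl
theorem mem_Zer (c : Cut Λ) (x : Λ) : x ∈ c.Zer ↔ ¬c.N x ∧ ¬c.P x := Iff.rfl
theorem mem_NN (c : Cut Λ) (x : Λ) : x ∈ c.NN ↔ ¬c.N x := Iff.rfl

end Cut

/-- `b` is proportional to `a` as far as real functionals can see -/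
def Par (a b : Λ) : Prop := ∀ φ : Λ →+ ℝ, φ a = 0 → φ b = 0

/-- elementary real geometry -/
structure S_GEO (Λ : Type) [AddCommGroup Λ] : Prop where
  flow : ∀ (S : Set Λ), S.Finite → ∀ (θ A : Λ →+ ℝ) (q : Cut Λ → Prop),
    (∀ c d : Cut Λ, (∀ n ∈ S, (c.N n ↔ d.N n) ∧ (c.P n ↔ d.P n)) → q c → q d) →
    q (Cut.lex (Cut.of A) (Cut.of θ)) →
    (∀ s : ℝ, 0 ≤ s → q (Cut.lex (Cut.of (θ + s • A)) (Cut.of A)) →
      q (Cut.lex (Cut.of (θ + s • A)) (Cut.of (-A)))) →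
    q (Cut.lex (Cut.of θ) (Cut.of (-A)))
  gen : ∀ (S T : Set Λ), S.Finite → T.Finite → ∀ (n : Λ) (θ : Λ →+ ℝ), θ n = 0 →
    ∃ θ' : Λ →+ ℝ, θ' n = 0 ∧ (∀ x ∈ S, (θ x < 0 → θ' x < 0) ∧ (0 < θ x → 0 < θ' x)) ∧
      ∀ v ∈ T, θ' v = 0 → Par n v
  lexap : ∀ (S : Set Λ), S.Finite → ∀ θ ψ : Λ →+ ℝ, ∃ ε : ℝ, 0 < ε ∧ ∀ n ∈ S,
    ((θ + ε • ψ) n < 0 ↔ (Cut.lex (Cut.of θ) (Cut.of ψ)).N n) ∧
    (0 < (θ + ε • ψ) n ↔ (Cut.lex (Cut.of θ) (Cut.of ψ)).P n)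
  level : ∀ (δ : Λ →+ ℤ) (s : Set Λ), s.Finite → (∀ e ∈ s, 1 ≤ δ e) →
    (∀ x ∈ AddSubmonoid.closure s, x = 0 ∨ 1 ≤ δ x) ∧
      ∀ c : ℤ, {x | x ∈ AddSubmonoid.closure s ∧ δ x ≤ c}.Finite

def Pz (δ : Λ →+ ℤ) : AddSubmonoid Λ where
  carrier := {x | x = 0 ∨ 1 ≤ δ x}
  zero_mem' := Or.inl rfl
  add_mem' := by
    rintro x y (rfl | hx) (rfl | hy)
    · simp
    · exact Or.inr (by simpa using hy)
    · exact Or.inr (by simpa using hx)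
    · exact Or.inr (by rw [map_add]; omega)

theorem mem_Pz (δ : Λ →+ ℤ) (x : Λ) : x ∈ Pz δ ↔ x = 0 ∨ 1 ≤ δ x := Iff.rfl

/-- `U` is closed under taking summands inside `P` -/
def Low (δ : Λ →+ ℤ) (P : AddSubmonoid Λ) (U : Λ → Prop) : Prop :=
  ∀ x ∈ P ⊓ Pz δ, ∀ y ∈ P ⊓ Pz δ, U (x + y) → U x

/-- every proper summand of `n` inside `P` is in `U` -/
def Bd (δ : Λ →+ ℤ) (P : AddSubmonoid Λ) (U : Λ → Prop) (n : Λ) : Prop :=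
  ∀ x ∈ P ⊓ Pz δ, ∀ y ∈ P ⊓ Pz δ, x + y = n → y ≠ 0 → U x

section
variable {Q : QD Λ K} {δ : Λ →+ ℤ}

def Sup (p : Λ → Prop) (f : NS Q δ) : Prop := ∀ x, f.co x ≠ 0 → p x

def Eqv (U : Λ → Prop) (f g : NS Q δ) : Prop := ∀ x, U x → f.co x = g.co x

theorem Sup.mul {p q s : Λ → Prop} {f g : NS Q δ} (hf : Sup p f) (hg : Sup q g)
    (h : ∀ x y, p x → q y → s (x + y)) : Sup s (f * g) := fun r hr => by
  obtain ⟨a, h1, h2⟩ := NS.conv_ne hr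
  simpa using h _ _ (hf _ h1) (hg _ h2)

theorem Sup.mono {p q : Λ → Prop} {f : NS Q δ} (hf : Sup p f) (h : ∀ x, p x → q x) : Sup q f :=
  fun x hx => h x (hf x hx)

theorem Sup.add {p : Λ → Prop} {f g : NS Q δ} (hf : Sup p f) (hg : Sup p g) : Sup p (f + g) :=
  fun x hx => by
    by_cases h : f.co x = 0
    · exact hg x (by simpa [h] using hx)
    · exact hf x h

theorem Sup.sub {p : Λ → Prop} {f g : NS Q δ} (hf : Sup p f) (hg : Sup p g) : Sup p (f - g) :=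
  fun x hx => by
    by_cases h : f.co x = 0
    · exact hg x (by simpa [h] using hx)
    · exact hf x h

theorem Sup.one {p : Λ → Prop} (h : p 0) : Sup p (1 : NS Q δ) := fun x hx => by
  by_cases e : x = 0
  · exact e ▸ h
  · exact absurd (by rw [NS.one_co, if_neg e]) hx

theorem Sup.sub_one {p : Λ → Prop} {f : NS Q δ} (hf : Sup p f) (h0 : f.co 0 = 1) :
    Sup (fun x => p x ∧ x ≠ 0) (f - 1) := fun x hx => by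
  by_cases e : x = 0
  · subst e; simp [NS.one_co, h0] at hx
  · exact ⟨hf x (by simpa [NS.one_co, e] using hx), e⟩

theorem eqv_iff {U : Λ → Prop} {f g : NS Q δ} : Eqv U f g ↔ Sup (fun x => ¬U x) (f - g) :=
  ⟨fun h x hx hU => hx (by simp [h x hU]), fun h x hU => by
    by_contra hc
    exact h x (by simpa [sub_eq_zero] using hc) hU⟩

theorem mul_co_zero {f g : NS Q δ} (hf : Sup (· ∈ Pz δ) f) (hg : Sup (· ∈ Pz δ) g) :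
    (f * g).co 0 = f.co 0 * g.co 0 := by
  rw [NS.mul_co_sum f g 0 {0} fun a h1 h2 => ?_]
  · simp
  · rcases hf _ h1 with h | h
    · simp [h]
    · rcases hg _ h2 with h' | h'
      · simpa using h'
      · simp only [zero_sub, map_neg] at h'; omega

theorem sup_inv {P : AddSubmonoid Λ} {u v : NS Q δ} (h0 : u.co 0 = 1)
    (hu : Sup (· ∈ P ⊓ Pz δ) u) (huv : u * v = 1) : Sup (· ∈ P ⊓ Pz δ) v := by
  obtain ⟨m, hm⟩ := v.lf.bdd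
  have key : ∀ k : ℕ, ∀ x, δ x < m + k → v.co x ≠ 0 → x ∈ P ⊓ Pz δ := by
    intro k
    induction k with
    | zero => exact fun x h1 h2 => absurd (hm x h2) (by omega)
    | succ k ih =>
      intro x h1 h2
      have e : v = 1 - (u - 1) * v := by rw [sub_mul, huv]; simp
      by_cases hx : x = 0
      · exact hx ▸ zero_mem _
      · rw [e, NS.sub_co, NS.one_co, if_neg hx, zero_sub, neg_ne_zero] at h2
        obtain ⟨a, h3, h4⟩ := NS.conv_ne h2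
        obtain ⟨h5, h6⟩ := hu.sub_one h0 a h3
        have h7 : 1 ≤ δ a := h5.2.resolve_left h6
        have := add_mem h5 (ih (x - a) (by rw [map_sub]; push_cast at h1; omega) h4)
        simpa using this
  exact fun x hx => key (δ x - m + 1).toNat x (by omega) hx

variable (Q δ) in
/-- the group of series with constant term one supported in `P` -/
def GG (P : AddSubmonoid Λ) : Subgroup (NS Q δ)ˣ where
  carrier := {u | (u : NS Q δ).co 0 = 1 ∧ Sup (· ∈ P ⊓ Pz δ) (u : NS Q δ)}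
  one_mem' := ⟨by simp [NS.one_co], Sup.one (zero_mem _)⟩
  mul_mem' := fun {a b} ha hb => ⟨by
    rw [Units.val_mul, mul_co_zero (ha.2.mono fun _ h => h.2) (hb.2.mono fun _ h => h.2),
      ha.1, hb.1, one_mul], ha.2.mul hb.2 fun _ _ => add_mem⟩
  inv_mem' := fun {a} ha => by
    have h := sup_inv ha.1 ha.2 a.mul_inv
    refine ⟨?_, h⟩
    have := mul_co_zero (ha.2.mono fun _ h => h.2) (h.mono fun _ h => h.2)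
    rw [a.mul_inv, ha.1, one_mul, NS.one_co, if_pos rfl] at this
    exact this.symm

theorem mem_GG {P : AddSubmonoid Λ} {u : (NS Q δ)ˣ} : u ∈ GG Q δ P ↔
    (u : NS Q δ).co 0 = 1 ∧ Sup (· ∈ P ⊓ Pz δ) (u : NS Q δ) := Iff.rfl

theorem GG_mono {P P' : AddSubmonoid Λ} (h : P ≤ P') : GG Q δ P ≤ GG Q δ P' :=
  fun _ hu => ⟨hu.1, hu.2.mono fun _ hx => ⟨h hx.1, hx.2⟩⟩

def Fac (σ : Cut Λ) (g : (NS Q δ)ˣ) (p : (NS Q δ)ˣ × (NS Q δ)ˣ × (NS Q δ)ˣ) : Prop :=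
  p.1 ∈ GG Q δ σ.Neg ∧ p.2.1 ∈ GG Q δ σ.Zer ∧ p.2.2 ∈ GG Q δ σ.Pos ∧ g = p.1 * p.2.1 * p.2.2

open Classical in
noncomputable def fac (σ : Cut Λ) (g : (NS Q δ)ˣ) : (NS Q δ)ˣ × (NS Q δ)ˣ × (NS Q δ)ˣ :=
  if h : ∃ p, Fac σ g p then h.choose else 1

noncomputable def lo (σ : Cut Λ) (g : (NS Q δ)ˣ) : (NS Q δ)ˣ := (fac σ g).1
noncomputable def mid (σ : Cut Λ) (g : (NS Q δ)ˣ) : (NS Q δ)ˣ := (fac σ g).2.1
noncomputable def hi (σ : Cut Λ) (g : (NS Q δ)ˣ) : (NS Q δ)ˣ := (fac σ g).2.2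

def Der (φ : Λ →+ ℤ) (f : NS Q δ) : NS Q δ :=
  NS.mk Q (fun x => (φ x : K) * f.co x) (f.lf.of_sup fun _ hx h => hx (by simp [h]))

/-- logarithmic derivative -/
noncomputable def dl (φ : Λ →+ ℤ) (y : (NS Q δ)ˣ) : NS Q δ :=
  ((y⁻¹ : (NS Q δ)ˣ) : NS Q δ) * Der φ (y : NS Q δ)

/-- conjugation -/
noncomputable def cj (u : (NS Q δ)ˣ) (f : NS Q δ) : NS Q δ :=
  ((u⁻¹ : (NS Q δ)ˣ) : NS Q δ) * f * (u : NS Q δ)

theorem cj_mul (u v : (NS Q δ)ˣ) (f : NS Q δ) : cj (u * v) f = cj v (cj u f) := by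
  simp [cj, mul_assoc]

@[simp] theorem cj_one (f : NS Q δ) : cj 1 f = f := by simp [cj]

theorem cj_mul' (u : (NS Q δ)ˣ) (f g : NS Q δ) : cj u (f * g) = cj u f * cj u g := by
  simp [cj, mul_assoc]

open Classical in
/-- a power series in the monomial `z n` -/
noncomputable def ser (n : Λ) (p : PowerSeries K) : NS Q δ :=
  NS.mk Q (fun x => if h : 1 ≤ δ n ∧ ∃ k : ℕ, x = k • n then PowerSeries.coeff h.2.choose p else 0)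
    fun c => ((Set.finite_Iic c.toNat).image fun k : ℕ => k • n).subset fun x hx => by
      obtain ⟨h1, h2⟩ := hx
      have h : 1 ≤ δ n ∧ ∃ k : ℕ, x = k • n := by
        by_contra h
        exact h1 (dif_neg h)
      obtain ⟨h3, k, rfl⟩ := h
      refine ⟨k, ?_, rfl⟩
      rw [map_nsmul, nsmul_eq_mul] at h2
      have : (k : ℤ) ≤ k * δ n := le_mul_of_one_le_right (by omega) h3
      simp only [Set.mem_Iic]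
      omega

end

/-- `true`: the product of `1 / (1 - t ^ (2 j) c X)`; `false`: the product of
`1 + t ^ (2 j + 1) c X` -/
noncomputable def QD.Yc (Q : QD Λ K) (b : Bool) (c : K) : PowerSeries K :=
  PowerSeries.mk fun n => c ^ n * if b then Q.ι (Sp.cb n) else (Q.t : K) ^ n * Q.ι (Sp.cf n)

/-- symmetric Gaussian binomial -/
noncomputable def QD.cc (Q : QD Λ K) (m j : ℕ) : K :=
  ∑ S ∈ powersetCard j (range m), Q.tp (∑ i ∈ S, (2 * (i : ℤ) + 1 - m))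

/-- attractor functional -/
def QD.Av (Q : QD Λ K) (r : Λ) : Λ →+ ℝ := (Int.castAddHom ℝ).comp (Q.ω.flip r)

@[simp] theorem QD.Av_apply (Q : QD Λ K) (r x : Λ) : Q.Av r x = (Q.ω x r : ℝ) := rfl

def QD.Iso (Q : QD Λ K) (Φ : Λ ≃+ Λ) : Prop := ∀ a b, Q.ω (Φ a) (Φ b) = Q.ω a b

/-- tropical mutation -/
def QD.mu (Q : QD Λ K) (k r : Λ) : Λ := r + max (Q.ω k r) 0 • k

def QD.HasT (Q : QD Λ K) (L : Subsemiring K) : Prop := ∀ k, Q.tp k ∈ L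

def Seed (δ : Λ →+ ℤ) (s : Finset Λ) : Prop := ∀ e ∈ s, 1 ≤ δ e

def PS (s : Finset Λ) : AddSubmonoid Λ := AddSubmonoid.closure (s : Set Λ)

section
variable (Q : QD Λ K) (δ : Λ →+ ℤ)

open Classical in
/-- wall function -/
noncomputable def wf (x : Bool × ℤ × Λ) : (NS Q δ)ˣ :=
  if h : IsUnit (ser x.2.2 (Q.Yc x.1 (Q.tp x.2.1)) : NS Q δ) then h.unit else 1

/-- quantum dilogarithm -/
noncomputable def FF (n : Λ) : (NS Q δ)ˣ := wf Q δ (false, 0, n)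

noncomputable def wp (l : List (Bool × ℤ × Λ)) : (NS Q δ)ˣ := (l.map (wf Q δ)).prod

open Classical in
/-- independence polynomial -/
noncomputable def IP {W : Type} (V : Finset W) (vec : W → Λ) (adj : W → W → Prop) (x : K) :
    NS Q δ :=
  ∑ A ∈ V.powerset.filter (fun A => ∀ a ∈ A, ∀ b ∈ A, ¬adj a b),
    x ^ A.card • NS.z (∑ v ∈ A, vec v)

noncomputable def FP {W : Type} (V : Finset W) (vec : W → Λ) (adj : W → W → Prop)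
    (xs : List K) : NS Q δ := (xs.map (IP Q δ V vec adj)).prod

variable {Q δ}

/-- the consistent scattering diagram of the seed `s` -/
def AT (s : Finset Λ) (g : (NS Q δ)ˣ) : Prop :=
  g ∈ GG Q δ (PS s) ∧ ∀ (φ : Λ →+ ℤ) (n : Λ),
    (dl φ (mid (Cut.of (Q.Av n)) g)).co n = ∑ e ∈ s, (dl φ (FF Q δ e)).co n

/-- expansion in the chamber of `θ` -/
noncomputable def ex (g : (NS Q δ)ˣ) (θ : Λ →+ ℝ) (f : NS Q δ) : NS Q δ :=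
  cj (lo (Cut.of θ) g) f

/-- coefficient of the theta function of `r` -/
noncomputable def att (g : (NS Q δ)ˣ) (f : NS Q δ) (r : Λ) : K := (ex g (Q.Av r) f).co r

def Tr {δ' : Λ →+ ℤ} (Φ : Λ ≃+ Λ) (f : NS Q δ) (f' : NS Q δ') : Prop :=
  ∀ x, f'.co (Φ x) = f.co x

variable (Q δ)

/-- groups, factorisation, congruences -/
structure S_GRP : Prop where
  fix : ∀ (p : Λ → Prop) (Ψ : NS Q δ → NS Q δ), (∀ x, p x → 0 ≤ δ x) →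
    (∀ f, Sup p f → Sup p (Ψ f)) →
    (∀ (c : ℤ) f f', Sup p f → Sup p f' → Eqv (fun x => δ x < c) f f' →
      Eqv (fun x => δ x ≤ c) (Ψ f) (Ψ f')) → ∃ f, Sup p f ∧ Ψ f = f
  unit : ∀ (P : AddSubmonoid Λ) (f : NS Q δ), f.co 0 = 1 → Sup (· ∈ P ⊓ Pz δ) f →
    ∃ u ∈ GG Q δ P, (u : NS Q δ) = f
  fac : ∀ (P : AddSubmonoid Λ) (σ : Cut Λ), ∀ g ∈ GG Q δ P, lo σ g ∈ GG Q δ (P ⊓ σ.Neg) ∧
    mid σ g ∈ GG Q δ (P ⊓ σ.Zer) ∧ hi σ g ∈ GG Q δ (P ⊓ σ.Pos) ∧ g = lo σ g * mid σ g * hi σ g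
  fac_eq : ∀ (σ : Cut Λ), ∀ a ∈ GG Q δ σ.Neg, ∀ y ∈ GG Q δ σ.Zer, ∀ b ∈ GG Q δ σ.Pos,
    lo σ (a * y * b) = a ∧ mid σ (a * y * b) = y ∧ hi σ (a * y * b) = b
  lo_eq : ∀ (σ : Cut Λ), ∀ a ∈ GG Q δ σ.Neg, ∀ b ∈ GG Q δ σ.NN, lo σ (a * b) = a
  lex : ∀ (σ τ : Cut Λ), ∀ g ∈ GG Q δ ⊤, lo (Cut.lex σ τ) g = lo σ g * lo τ (mid σ g) ∧
    mid (Cut.lex σ τ) g = mid τ (mid σ g)
  conj : ∀ (N Z : AddSubmonoid Λ), (∀ x ∈ N, x ≠ 0 → ∀ y ∈ Z, x + y ∈ N) →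
    ∀ u ∈ GG Q δ Z, ∀ a ∈ GG Q δ N, u * a * u⁻¹ ∈ GG Q δ N
  eqv_mul : ∀ (P : AddSubmonoid Λ) (U : Λ → Prop), Low δ P U → ∀ f f' g g' : NS Q δ,
    Sup (· ∈ P ⊓ Pz δ) f → Sup (· ∈ P ⊓ Pz δ) f' → Sup (· ∈ P ⊓ Pz δ) g →
    Sup (· ∈ P ⊓ Pz δ) g' → Eqv U f f' → Eqv U g g' → Eqv U (f * g) (f' * g')
  eqv_inv : ∀ (P : AddSubmonoid Λ) (U : Λ → Prop), Low δ P U → ∀ a ∈ GG Q δ P, ∀ a' ∈ GG Q δ P,
    Eqv U (a : NS Q δ) a' → Eqv U ((a⁻¹ : (NS Q δ)ˣ) : NS Q δ) (a'⁻¹ : (NS Q δ)ˣ)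
  lo_congr : ∀ (P : AddSubmonoid Λ) (U : Λ → Prop), Low δ P U → ∀ (σ σ' : Cut Λ),
    (∀ x ∈ P ⊓ Pz δ, U x → (σ.N x ↔ σ'.N x)) → ∀ g ∈ GG Q δ P, ∀ g' ∈ GG Q δ P,
    Eqv U (g : NS Q δ) g' → Eqv U (lo σ g : NS Q δ) (lo σ' g' : (NS Q δ)ˣ)
  mid_congr : ∀ (P : AddSubmonoid Λ) (U : Λ → Prop), Low δ P U → ∀ (σ σ' : Cut Λ),
    (∀ x ∈ P ⊓ Pz δ, U x → (σ.N x ↔ σ'.N x) ∧ (σ.P x ↔ σ'.P x)) →
    ∀ g ∈ GG Q δ P, ∀ g' ∈ GG Q δ P,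
    Eqv U (g : NS Q δ) g' → Eqv U (mid σ g : NS Q δ) (mid σ' g' : (NS Q δ)ˣ)
  mid_top : ∀ (P : AddSubmonoid Λ) (U : Λ → Prop), Low δ P U → ∀ (σ : Cut Λ) (n : Λ),
    Bd δ P U n → ¬σ.N n → ¬σ.P n → ∀ g ∈ GG Q δ P, ∀ g' ∈ GG Q δ P, Eqv U (g : NS Q δ) g' →
    (mid σ g : NS Q δ).co n - (mid σ g' : NS Q δ).co n =
      (g : NS Q δ).co n - (g' : NS Q δ).co n
  cj_congr : ∀ (D : ℤ), ∀ u ∈ GG Q δ ⊤, ∀ u' ∈ GG Q δ ⊤,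
    Eqv (fun x => δ x ≤ D) (u : NS Q δ) u' → ∀ (f : NS Q δ) (r : Λ),
    Sup (fun x => δ r - D ≤ δ x) f → (cj u f).co r = (cj u' f).co r
  cj_sup : ∀ (P : AddSubmonoid Λ), ∀ u ∈ GG Q δ P, ∀ (f : NS Q δ) (r : Λ), (cj u f).co r ≠ 0 →
    ∃ a, f.co a ≠ 0 ∧ r - a ∈ P ⊓ Pz δ
  pos_mul : ∀ L : Subsemiring K, Q.HasT L → ∀ f g : NS Q δ, (∀ x, f.co x ∈ L) →
    (∀ x, g.co x ∈ L) → ∀ x, (f * g).co x ∈ L

/-- logarithmic derivatives -/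
structure S_DL : Prop where
  cancel : ∀ (m : ℤ) (a : K), m ≠ 0 → (m : K) * a = 0 → a = 0
  unit : ∀ m : ℤ, m ≠ 0 → ∃ a : K, (m : K) * a = 1
  sup : ∀ (P : AddSubmonoid Λ) (φ : Λ →+ ℤ), ∀ y ∈ GG Q δ P,
    Sup (fun x => x ∈ P ⊓ Pz δ ∧ x ≠ 0) (dl φ y)
  mul : ∀ (φ : Λ →+ ℤ) (a b : (NS Q δ)ˣ), dl φ (a * b) = cj b (dl φ a) + dl φ b
  one : ∀ φ : Λ →+ ℤ, dl φ (1 : (NS Q δ)ˣ) = 0
  trace : ∀ (n : Λ) (u : (NS Q δ)ˣ) (f : NS Q δ), Sup (fun x => Q.ω x n = 0) (u : NS Q δ) →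
    (cj u f).co n = f.co n
  sym : ∀ (n : Λ) (φ ψ : Λ →+ ℤ), ∀ y ∈ GG Q δ (Cut.of (Q.Av n)).Zer,
    (ψ n : K) * (dl φ y).co n = (φ n : K) * (dl ψ y).co n
  eqv : ∀ (P : AddSubmonoid Λ) (U : Λ → Prop), Low δ P U → ∀ (φ : Λ →+ ℤ),
    ∀ y ∈ GG Q δ P, ∀ y' ∈ GG Q δ P, Eqv U (y : NS Q δ) y' → Eqv U (dl φ y) (dl φ y')
  top : ∀ (P : AddSubmonoid Λ) (U : Λ → Prop), Low δ P U → ∀ (φ : Λ →+ ℤ) (n : Λ), Bd δ P U n →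
    ∀ y ∈ GG Q δ P, ∀ y' ∈ GG Q δ P, Eqv U (y : NS Q δ) y' →
    (dl φ y).co n - (dl φ y').co n = (φ n : K) * ((y : NS Q δ).co n - (y' : NS Q δ).co n)
  uniq : ∀ (P : AddSubmonoid Λ) (U : Λ → Prop), Low δ P U → ∀ y ∈ GG Q δ P, ∀ y' ∈ GG Q δ P,
    Eqv U (dl δ y) (dl δ y') → Eqv U (y : NS Q δ) y'

/-- series in one monomial and wall functions -/
structure S_SER : Prop where
  co : ∀ (n : Λ) (p : PowerSeries K) (k : ℕ), 1 ≤ δ n →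
    (ser n p : NS Q δ).co (k • n) = PowerSeries.coeff k p
  sup : ∀ (n : Λ) (p : PowerSeries K), Sup (fun x => ∃ k : ℕ, x = k • n) (ser n p : NS Q δ)
  val : ∀ x : Bool × ℤ × Λ, 1 ≤ δ x.2.2 →
    (wf Q δ x : NS Q δ) = ser x.2.2 (Q.Yc x.1 (Q.tp x.2.1))
  mem : ∀ x : Bool × ℤ × Λ, 1 ≤ δ x.2.2 → ∀ P : AddSubmonoid Λ, x.2.2 ∈ P → wf Q δ x ∈ GG Q δ P
  wp_mem : ∀ (l : List (Bool × ℤ × Λ)) (P : AddSubmonoid Λ),
    (∀ x ∈ l, 1 ≤ δ x.2.2 ∧ x.2.2 ∈ P) → wp Q δ l ∈ GG Q δ P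
  pos : ∀ L : Subsemiring K, Q.HasT L → ∀ x : Bool × ℤ × Λ, 1 ≤ δ x.2.2 →
    ∀ (f : NS Q δ) (p : Λ), (∀ j : ℕ, 0 < j → f.co (p - j • x.2.2) ∈ L) →
    (0 < Q.ω x.2.2 p → (cj (wf Q δ x) f).co p - f.co p ∈ L) ∧
    (Q.ω x.2.2 p < 0 → (cj (wf Q δ x)⁻¹ f).co p - f.co p ∈ L)
  cjF : ∀ n : Λ, 1 ≤ δ n → ∀ (f : NS Q δ) (p : Λ) (m : ℕ),
    (Q.ω n p = m → (cj (FF Q δ n) f).co p = ∑ j ∈ range (m + 1), Q.cc m j * f.co (p - j • n)) ∧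
    (Q.ω n p = -m →
      (cj (FF Q δ n)⁻¹ f).co p = ∑ j ∈ range (m + 1), Q.cc m j * f.co (p - j • n))
  cc_symm : ∀ m j : ℕ, j ≤ m → Q.cc m (m - j) = Q.cc m j
  mono : ∀ n p : Λ, 1 ≤ δ n → (Q.ω n p = 0 → cj (FF Q δ n) (NS.z p) = NS.z p) ∧
    (Q.ω n p = 1 → cj (FF Q δ n) (NS.z p) = NS.z p + NS.z (p + n)) ∧
    (Q.ω n p = -1 → cj (FF Q δ n) (NS.z p + NS.z (p + n)) = NS.z p)

variable {δ} in
/-- transport along an isometry, with a change of grading -/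
structure S_TR : Prop where
  mul : ∀ (δ δ' : Λ →+ ℤ) (Φ : Λ ≃+ Λ), Q.Iso Φ → ∀ (f g : NS Q δ) (f' g' : NS Q δ'),
    Tr Φ f f' → Tr Φ g g' → Tr Φ (f * g) (f' * g')
  one : ∀ (δ δ' : Λ →+ ℤ) (Φ : Λ ≃+ Λ), Tr Φ (1 : NS Q δ) (1 : NS Q δ')
  inv : ∀ (δ δ' : Λ →+ ℤ) (Φ : Λ ≃+ Λ), Q.Iso Φ → ∀ (P : AddSubmonoid Λ),
    (∀ x ∈ P, Φ x ∈ Pz δ') → (∀ c : ℤ, {x | x ∈ P ∧ δ' (Φ x) ≤ c}.Finite) →
    ∀ u ∈ GG Q δ P, ∀ u' : (NS Q δ')ˣ, Tr Φ (u : NS Q δ) (u' : NS Q δ') →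
    Tr Φ ((u⁻¹ : (NS Q δ)ˣ) : NS Q δ) ((u'⁻¹ : (NS Q δ')ˣ) : NS Q δ')
  ex : ∀ (δ δ' : Λ →+ ℤ) (Φ : Λ ≃+ Λ), Q.Iso Φ → ∀ (P : AddSubmonoid Λ),
    (∀ x ∈ P, Φ x ∈ Pz δ') → (∀ c : ℤ, {x | x ∈ P ∧ δ' (Φ x) ≤ c}.Finite) →
    ∀ u ∈ GG Q δ P, ∃ u' ∈ GG Q δ' (P.map Φ.toAddMonoidHom), Tr Φ (u : NS Q δ) (u' : NS Q δ')
  fac : ∀ (δ δ' : Λ →+ ℤ) (Φ : Λ ≃+ Λ), Q.Iso Φ → ∀ (P : AddSubmonoid Λ),
    (∀ x ∈ P, Φ x ∈ Pz δ') → (∀ c : ℤ, {x | x ∈ P ∧ δ' (Φ x) ≤ c}.Finite) →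
    ∀ (σ σ' : Cut Λ), (∀ x, (σ'.N (Φ x) ↔ σ.N x) ∧ (σ'.P (Φ x) ↔ σ.P x)) →
    ∀ g ∈ GG Q δ P, ∀ g' : (NS Q δ')ˣ, Tr Φ (g : NS Q δ) (g' : NS Q δ') →
    Tr Φ (lo σ g : NS Q δ) (lo σ' g' : NS Q δ') ∧ Tr Φ (mid σ g : NS Q δ) (mid σ' g' : NS Q δ') ∧
      Tr Φ (hi σ g : NS Q δ) (hi σ' g' : NS Q δ')
  cj : ∀ (δ δ' : Λ →+ ℤ) (Φ : Λ ≃+ Λ), Q.Iso Φ → ∀ (P : AddSubmonoid Λ),
    (∀ x ∈ P, Φ x ∈ Pz δ') → (∀ c : ℤ, {x | x ∈ P ∧ δ' (Φ x) ≤ c}.Finite) →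
    ∀ u ∈ GG Q δ P, ∀ u' : (NS Q δ')ˣ, Tr Φ (u : NS Q δ) (u' : NS Q δ') →
    (∀ (f : NS Q δ) (f' : NS Q δ'), Tr Φ f f' → Tr Φ (cj u f) (cj u' f')) ∧
    ∀ φ : Λ →+ ℤ, Tr Φ (dl (φ.comp Φ.toAddMonoidHom) u) (dl φ u')
  wf : ∀ (δ δ' : Λ →+ ℤ) (Φ : Λ ≃+ Λ), Q.Iso Φ → ∀ (b : Bool) (k : ℤ) (n : Λ), 1 ≤ δ n →
    1 ≤ δ' (Φ n) →
    Tr Φ (wf Q δ (b, k, n) : NS Q δ) (wf Q δ' (b, k, Φ n) : NS Q δ') ∧
    ∀ φ : Λ →+ ℤ, Tr Φ (dl (φ.comp Φ.toAddMonoidHom) (wf Q δ (b, k, n)))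
      (dl φ (wf Q δ' (b, k, Φ n)))

variable {δ} in
open Classical in
/-- existence, uniqueness, transport and faces of the scattering diagram -/
structure S_AT : Prop where
  ex : ∀ (δ : Λ →+ ℤ) (s : Finset Λ), Seed δ s → ∃ g : (NS Q δ)ˣ, AT s g
  uniq : ∀ (δ : Λ →+ ℤ) (s : Finset Λ) (g g' : (NS Q δ)ˣ), AT s g → AT s g' → g = g'
  tr : ∀ (δ δ' : Λ →+ ℤ) (Φ : Λ ≃+ Λ), Q.Iso Φ → ∀ (s s' : Finset Λ), Seed δ s → Seed δ' s' →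
    (∀ v, Φ v ∈ s' ↔ v ∈ s) → ∀ (g : (NS Q δ)ˣ) (g' : (NS Q δ')ˣ), AT s g → AT s' g' →
    ∀ (f : NS Q δ) (f' : NS Q δ'), Tr Φ f f' → (∀ r, att g' f' (Φ r) = att g f r) ∧
      ∀ θ : Λ →+ ℝ, Tr Φ (Qt.ex g (θ.comp Φ.toAddMonoidHom) f) (Qt.ex g' θ f')
  face : ∀ (δ : Λ →+ ℤ) (s : Finset Λ), Seed δ s → ∀ g : (NS Q δ)ˣ, AT s g → ∀ ψ : Λ →+ ℝ,
    (∀ e ∈ s, 0 ≤ ψ e) → lo (Cut.of ψ) g = 1 ∧
      AT (s.filter fun e => ψ e = 0) (mid (Cut.of ψ) g)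
  single : ∀ (δ : Λ →+ ℤ) (e : Λ), 1 ≤ δ e → AT {e} (FF Q δ e)

/-- positivity of a local scattering -/
def S_DT : Prop := ∀ (l : List (Bool × ℤ × Λ)) (φ : Λ →+ ℝ) (D : ℤ), (∀ x ∈ l, 1 ≤ δ x.2.2) →
  l.Pairwise (fun x y => Q.ω x.2.2 y.2.2 ≤ 0) →
  (∀ a ∈ AddSubmonoid.closure {n | ∃ x ∈ l, n = x.2.2},
    ∀ b ∈ AddSubmonoid.closure {n | ∃ x ∈ l, n = x.2.2}, φ a = 0 → φ b = 0 → Q.ω a b = 0) →
  ∃ l' : List (Bool × ℤ × Λ), (∀ x ∈ l', 1 ≤ δ x.2.2 ∧ φ x.2.2 = 0 ∧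
      x.2.2 ∈ AddSubmonoid.closure {n | ∃ x ∈ l, n = x.2.2}) ∧
    Eqv (fun x => δ x ≤ D) (mid (Cut.of φ) (wp Q δ l) : NS Q δ) (wp Q δ l' : (NS Q δ)ˣ)

/-- positivity of generic walls -/
def S_WP : Prop := ∀ (s : Finset Λ) (g : (NS Q δ)ˣ), Seed δ s → AT s g →
  ∀ (D : ℕ) (θ : Λ →+ ℝ), (∀ n ∈ PS s, ∀ n' ∈ PS s, 1 ≤ δ n → δ n ≤ D → δ n' ≤ D →
    θ n = 0 → θ n' = 0 → Par n n') →
  ∃ l : List (Bool × ℤ × Λ), (∀ x ∈ l, 1 ≤ δ x.2.2 ∧ δ x.2.2 ≤ D ∧ θ x.2.2 = 0 ∧ x.2.2 ∈ PS s) ∧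
    Eqv (fun x => δ x ≤ D) (mid (Cut.of θ) g : NS Q δ) (wp Q δ l : (NS Q δ)ˣ)

/-- positivity of theta functions -/
def S_BL : Prop := ∀ (s : Finset Λ) (g : (NS Q δ)ˣ), Seed δ s → AT s g →
  ∀ L : Subsemiring K, Q.HasT L → ∀ f : NS Q δ, (∀ r, att g f r ∈ L) →
  ∀ (θ : Λ →+ ℝ) (r : Λ), (ex g θ f).co r - att g f r ∈ L

variable {δ} in
/-- mutation invariance -/
def S_MI : Prop := ∀ (δ δ' : Λ →+ ℤ) (s s' : Finset Λ) (k : Λ), Seed δ s → Seed δ' s' → k ∈ s →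
  (∀ v, v ∈ s' ↔ v = -k ∨ ∃ e ∈ s, e ≠ k ∧ v = Q.mu k e) →
  ∀ (g : (NS Q δ)ˣ) (g' : (NS Q δ')ˣ), AT s g → AT s' g' →
  ∀ (f : NS Q δ) (f' : NS Q δ'), {x | f.co x ≠ 0}.Finite → {x | f'.co x ≠ 0}.Finite →
  (cj (FF Q δ k) f).co = f'.co →
  (∀ r, att g' f' (Q.mu k r) = att g f r) ∧
    ∀ θ : Λ →+ ℝ, θ k < 0 → (ex g' θ f').co = (ex g θ f).co

variable {δ} in
open Classical in
/-- independence polynomials -/
structure S_IP : Prop where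
  map : ∀ (δ δ' : Λ →+ ℤ) (Φ : Λ ≃+ Λ), Q.Iso Φ → ∀ (W W' : Type) (V : Finset W)
    (V' : Finset W') (vec : W → Λ) (vec' : W' → Λ) (adj : W → W → Prop) (adj' : W' → W' → Prop)
    (e : W → W'), Set.InjOn e V → (∀ w, w ∈ V' ↔ ∃ v ∈ V, e v = w) →
    (∀ a ∈ V, ∀ b ∈ V, adj' (e a) (e b) ↔ adj a b) → (∀ a ∈ V, vec' (e a) = Φ (vec a)) →
    (∀ x, Tr Φ (IP Q δ V vec adj x) (IP Q δ' V' vec' adj' x)) ∧
      ∀ xs, Tr Φ (FP Q δ V vec adj xs) (FP Q δ' V' vec' adj' xs)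
  fin : ∀ (δ : Λ →+ ℤ) (W : Type) (V : Finset W) (vec : W → Λ) (adj : W → W → Prop)
    (xs : List K), {x | (FP Q δ V vec adj xs).co x ≠ 0}.Finite
  supp : ∀ (δ : Λ →+ ℤ) (W : Type) (V : Finset W) (vec : W → Λ) (adj : W → W → Prop)
    (xs : List K) (r : Λ), (FP Q δ V vec adj xs).co r ≠ 0 →
    ∃ w : W → ℕ, (∀ v, w v ≤ xs.length) ∧ r = ∑ v ∈ V, w v • vec v
  move : ∀ (δ : Λ →+ ℤ) (W : Type) (C V V' : Finset W) (vec : W → Λ) (adj : W → W → Prop)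
    (q q' y y' : W), (∀ a b, adj a b → adj b a) → (∀ a, ¬adj a a) →
    (∀ w, w ∈ V ↔ w = y ∨ w ∈ C) → (∀ w, w ∈ V' ↔ w = y' ∨ w ∈ C) → y ∉ C → y' ∉ C →
    q ∈ C → q' ∈ C → q ≠ q' → adj q y → adj q' y → adj q y' → adj q' y' → ¬adj q q' →
    (∀ v ∈ C, v ≠ q → v ≠ q' → (adj v q ↔ adj v y) ∧ (adj v q' ↔ adj v y') ∧
      Q.ω (vec y - vec q) (vec v) = 0) →
    vec y' = vec q' + (vec y - vec q) → Q.ω (vec y - vec q) (vec q) = -1 →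
    Q.ω (vec y - vec q) (vec q') = 1 → 1 ≤ δ (vec y - vec q) →
    ∀ xs, cj (FF Q δ (vec y - vec q)) (FP Q δ V vec adj xs) = FP Q δ V' vec adj xs

variable {δ} in
open Classical in
/-- coefficients of a product of independence polynomials -/
def S_EXP : Prop := ∀ (δ : Λ →+ ℤ) (W U : Type) [Fintype U] (V : Finset W) (vec : W → Λ)
    (adj : W → W → Prop) (e : U → W) (w : U → ℕ) (n : ℕ) (x : Fin n → K),
    Function.Injective e → (∀ u, e u ∈ V) → (∀ a, ¬adj a a) →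
    (∀ v ∈ V, ∃ φ : Λ →+ ℤ, ∀ v' ∈ V, φ (vec v') = if v' = v then 1 else 0) →
    (FP Q δ V vec adj (List.ofFn x)).co (∑ u, w u • vec (e u)) =
      ∑ γ ∈ (univ : Finset (U → Finset (Fin n))).filter (fun γ => (∀ u, (γ u).card = w u) ∧
          ∀ u u', adj (e u) (e u') → Disjoint (γ u) (γ u')),
        Q.tp (∑ u, ∑ u', Q.ω (vec (e u)) (vec (e u')) *
          (((γ u ×ˢ γ u').filter fun p => p.1 < p.2).card : ℤ)) * ∏ u, ∏ a ∈ γ u, x a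

end

/-- adjacency in the `p`-th power of a path -/
def adjP (p : ℕ) (i j : ℕ) : Prop := i ≠ j ∧ i ≤ j + p ∧ j ≤ i + p

open Classical in
/-- the seed of consecutive differences -/
noncomputable def sdX (u : ℕ → Λ) (N : ℕ) : Finset Λ := (range N).image fun v => u (v + 1) - u v

/-- the independence polynomial is positive in every chamber -/
def S_F1 (Q : QD Λ K) : Prop := ∀ (u : ℕ → Λ) (N p : ℕ) (κ : Λ) (H : Λ →+ ℤ), 1 ≤ p →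
  (∀ i j, i < j → j ≤ N → Q.ω (u i) (u j) = if j ≤ i + p then 1 else 0) →
  (∀ j ≤ N, Q.ω (u j) κ = 1) → (∀ j ≤ N, H (u j) = j) →
  ∀ (δ : Λ →+ ℤ) (g : (NS Q δ)ˣ), Seed δ (sdX u N) → AT (sdX u N) g →
  ∀ L : Subsemiring K, Q.HasT L → ∀ x ∈ L, ∀ (θ : Λ →+ ℝ) (r : Λ),
    (ex g θ (IP Q δ (range (N + 1)) u (adjP p) x)).co r ∈ L

/-- the lattice of a power of a path with its shift automorphism -/
structure Td (Q : QD Λ K) (p : ℕ) where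
  q : ℕ → Λ
  y : ℕ → ℕ → Λ
  κ : Λ
  Φ : Λ ≃+ Λ
  hp : 1 ≤ p
  per : ∀ j b, y j (b + p) = y j b + q (j + 1) - q j
  qq : ∀ i j, Q.ω (q i) (q j) = 0
  yq : ∀ j b i, Q.ω (y j b) (q i) = (if i = j + 1 then 1 else 0) - if i = j then 1 else 0
  yy0 : ∀ j b b', b < b' → b' < b + p → Q.ω (y j b) (y j b') = 1
  yy1 : ∀ j b b', b' < b → b ≤ b' + p → Q.ω (y j b) (y (j + 1) b') = 1
  yy1' : ∀ j b b', b ≤ b' → b' < b + p → Q.ω (y j b) (y (j + 1) b') = 0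
  yy2 : ∀ j j' b b', j + 2 ≤ j' → Q.ω (y j b) (y j' b') = 0
  qκ : ∀ i, Q.ω (q i) κ = 1
  yκ : ∀ j b, Q.ω (y j b) κ = 1
  iso : Q.Iso Φ
  Φq : ∀ i, Φ (q i) = q i
  Φy : ∀ j b, Φ (y j b) = y j (b + 1)
  lift : ∀ (A : Type) [AddCommGroup A] (vq : ℕ → A) (vy : ℕ → ℕ → A), ∃ φ : Λ →+ A,
    (∀ i, φ (q i) = vq i) ∧ ∀ j b, 1 ≤ b → b ≤ p → φ (y j b) = vy j b

namespace Td
variable {Q : QD Λ K} {p : ℕ} (T : Td Q p)

/-- the vertices in their linear order -/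
def u (v : ℕ) : Λ :=
  if v % (p + 1) = 0 then T.q (v / (p + 1)) else T.y (v / (p + 1)) (v % (p + 1))

noncomputable def sd (m : ℕ) : Finset Λ := sdX T.u (m * (p + 1))

noncomputable def F (δ : Λ →+ ℤ) (m : ℕ) (xs : List K) : NS Q δ :=
  FP Q δ (range (m * (p + 1) + 1)) T.u (adjP p) xs

/-- elementary facts -/
structure S_TB : Prop where
  om : ∀ i j, i < j → Q.ω (T.u i) (T.u j) = if j ≤ i + p then 1 else 0
  ka : ∀ j, Q.ω (T.u j) T.κ = 1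
  lift : ∀ (A : Type) [AddCommGroup A] (a : ℕ → A), ∃ φ : Λ →+ A, ∀ v, φ (T.u v) = a v
  uq : ∀ j, T.u (j * (p + 1)) = T.q j
  uy : ∀ j b, 1 ≤ b → b ≤ p → T.u (j * (p + 1) + b) = T.y j b
  mem : ∀ m e, e ∈ T.sd m ↔ ∃ j < m, e = T.y j 1 - T.q j ∨ e = T.q (j + 1) - T.y j p ∨
    ∃ b, 1 ≤ b ∧ b < p ∧ e = T.y j (b + 1) - T.y j b

/-- one round of mutations -/
def S_TAU : Prop := ∀ (m : ℕ) (δ : Λ →+ ℤ) (g : (NS Q δ)ˣ) (xs : List K), Seed δ (T.sd m) →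
  AT (T.sd m) g →
  (∀ r, ∃ k : ℕ → ℕ, att g (T.F δ m xs) r =
      att g (T.F δ m xs) (T.Φ.symm (r + ∑ j ∈ range m, k j • (T.y j 1 - T.q j))) ∧
    ((∀ j < m, k j = 0) → ∀ j < m, Q.ω (T.y j 1 - T.q j) r ≤ 0)) ∧
  ∀ θ : Λ →+ ℝ, (∀ j < m, θ (T.y j 1 - T.q j) < 0) → ∀ r, (ex g θ (T.F δ m xs)).co (T.Φ r) =
    (ex g (θ.comp T.Φ.toAddMonoidHom) (T.F δ m xs)).co r

def S_MAIN : Prop := ∀ (m : ℕ) (δ : Λ →+ ℤ) (xs : List K) (L0 L : Subsemiring K), Q.HasT L0 →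
  Q.HasT L → (∀ x ∈ xs, x ∈ L0) → (∀ a ∈ L0, -a ∈ L0 → a = 0) →
  (∀ μ : ℕ → ℕ, (T.F δ m xs).co (∑ j ∈ range (m + 1), μ j • T.q j) ∈ L) →
  ∀ r, (T.F δ m xs).co r ∈ L

end Td

def S_MODEL : Prop := ∀ (K : Type) [CommRing K] (t : Kˣ) (ι : PowerSeries ℚ →+* K),
  ι PowerSeries.X = (t : K) ^ 2 → ∀ p, 1 ≤ p →
  ∃ (Λ : Type) (_ : AddCommGroup Λ) (Q : QD Λ K), Q.t = t ∧ Nonempty (Td Q p)

/-- unit interval orders embed in powers of paths -/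
def S_EMB : Prop := ∀ (V : Finset ℕ) (h : ℕ → ℕ), (∀ i ∈ V, ∀ j ∈ V, i ≤ j → h i ≤ h j) →
  ∃ (p : ℕ) (x : ℕ → ℕ), 1 ≤ p ∧ ∀ i ∈ V, ∀ j ∈ V, i < j → x i < x j ∧ (j ≤ h i ↔ x j ≤ x i + p)

open Classical in
def S_GOAL : Prop :=
  ∀ (n : ℕ) (I : Finset ℕ) (h : ℕ → ℕ),
    0 < n →
    (∀ i ∈ I, 1 ≤ i ∧ i < n) →
    (∀ i ∈ insert n I, h i ∈ insert n I ∧ i ≤ h i) →
    (∀ i ∈ insert n I, ∀ j ∈ insert n I, i ≤ j → h i ≤ h j) →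
    ∃ c : Nat.Partition n → Polynomial ℤ,
      (∀ μ k, 0 ≤ (c μ).coeff k) ∧
      (∑ γ ∈ (Finset.univ : Finset ({x // x ∈ insert n I} → Finset (Fin n))).filter
          (fun γ =>
            (∀ v : {x // x ∈ insert n I},
              (γ v).card = (v : ℕ) - ((insert n I).filter (fun j => j < (v : ℕ))).sup id) ∧
            (∀ u v : {x // x ∈ insert n I},
              (u : ℕ) < (v : ℕ) → (v : ℕ) ≤ h (u : ℕ) → Disjoint (γ u) (γ v))),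
        MvPolynomial.C
            ((Polynomial.X : Polynomial ℤ) ^
              (∑ u : {x // x ∈ insert n I}, ∑ v : {x // x ∈ insert n I},
                if (u : ℕ) < (v : ℕ) ∧ (v : ℕ) ≤ h (u : ℕ) then
                  (((γ u) ×ˢ (γ v)).filter (fun p => p.1 < p.2)).card
                else 0)) *
          ∏ v : {x // x ∈ insert n I}, ∏ a ∈ γ v,
            (MvPolynomial.X a : MvPolynomial (Fin n) (Polynomial ℤ)))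
      = ∑ μ : Nat.Partition n,
          MvPolynomial.C (c μ) *
            (μ.parts.map (fun k => MvPolynomial.esymm (Fin n) (Polynomial ℤ) k)).prod

/-! Task statements. -/

structure Core (Q : QD Λ K) : Prop where
  geo : S_GEO Λ
  grp : ∀ δ, S_GRP Q δ
  dl : ∀ δ, S_DL Q δ
  ser : ∀ δ, S_SER Q δ
  tr : S_TR Q

def T_GEO : Prop := ∀ (Λ : Type) [AddCommGroup Λ], S_GEO Λ

def T_GRP : Prop := ∀ (Λ K : Type) [AddCommGroup Λ] [CommRing K] (Q : QD Λ K) (δ : Λ →+ ℤ),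
  S_GRP Q δ

def T_DL : Prop := ∀ (Λ K : Type) [AddCommGroup Λ] [CommRing K] (Q : QD Λ K) (δ : Λ →+ ℤ),
  S_GRP Q δ → S_DL Q δ

def T_SER : Prop := ∀ (Λ K : Type) [AddCommGroup Λ] [CommRing K] (Q : QD Λ K) (δ : Λ →+ ℤ),
  Sp.S_CB → S_GRP Q δ → S_SER Q δ

def T_TR : Prop := ∀ (Λ K : Type) [AddCommGroup Λ] [CommRing K] (Q : QD Λ K),
  (∀ δ, S_GRP Q δ) → (∀ δ, S_SER Q δ) → S_TR Q

def T_AT : Prop := ∀ (Λ K : Type) [AddCommGroup Λ] [CommRing K] (Q : QD Λ K),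
  Core Q → S_AT Q

def T_DT : Prop := ∀ (Λ K : Type) [AddCommGroup Λ] [CommRing K] (Q : QD Λ K) (δ : Λ →+ ℤ),
  Sp.S_CB → Sp.S_PAR → Sp.S_SPEC → Core Q → S_DT Q δ

def T_WP : Prop := ∀ (Λ K : Type) [AddCommGroup Λ] [CommRing K] (Q : QD Λ K) (δ : Λ →+ ℤ),
  Core Q → S_DT Q δ → S_WP Q δ

def T_BL : Prop := ∀ (Λ K : Type) [AddCommGroup Λ] [CommRing K] (Q : QD Λ K) (δ : Λ →+ ℤ),
  Core Q → S_WP Q δ → S_BL Q δ

def T_MI : Prop := ∀ (Λ K : Type) [AddCommGroup Λ] [CommRing K] (Q : QD Λ K),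
  Core Q → S_AT Q → S_MI Q

def T_IP : Prop := ∀ (Λ K : Type) [AddCommGroup Λ] [CommRing K] (Q : QD Λ K),
  Core Q → S_IP Q

def T_EXP : Prop := ∀ (Λ K : Type) [AddCommGroup Λ] [CommRing K] (Q : QD Λ K),
  S_EXP Q

def T_F1 : Prop := ∀ (Λ K : Type) [AddCommGroup Λ] [CommRing K] (Q : QD Λ K),
  Core Q → S_AT Q → S_MI Q → (∀ δ, S_BL Q δ) → S_F1 Q

def T_TB : Prop := ∀ (Λ K : Type) [AddCommGroup Λ] [CommRing K] (Q : QD Λ K) (p : ℕ)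
  (T : Td Q p),
  T.S_TB

def T_TAU : Prop := ∀ (Λ K : Type) [AddCommGroup Λ] [CommRing K] (Q : QD Λ K) (p : ℕ)
  (T : Td Q p),
  Core Q → S_AT Q → S_MI Q → S_IP Q → T.S_TB → T.S_TAU

def T_MAIN : Prop := ∀ (Λ K : Type) [AddCommGroup Λ] [CommRing K] (Q : QD Λ K) (p : ℕ)
  (T : Td Q p),
  Core Q → S_AT Q → (∀ δ, S_BL Q δ) → S_IP Q → S_F1 Q → T.S_TB → T.S_TAU → T.S_MAIN

def T_GLUE : Prop := S_MODEL → S_EMB →
  (∀ (Λ K : Type) [AddCommGroup Λ] [CommRing K] (Q : QD Λ K),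
    S_EXP Q ∧ ∀ (p : ℕ) (T : Td Q p), T.S_TB ∧ T.S_MAIN) → S_GOAL

theorem goal_of (cb : Sp.S_CB) (par : Sp.S_PAR) (spec : Sp.S_SPEC) (geo : T_GEO) (grp : T_GRP)
    (dl : T_DL) (ser : T_SER) (tr : T_TR) (at' : T_AT) (dt : T_DT) (wp : T_WP) (bl : T_BL)
    (mi : T_MI) (ip : T_IP) (exp : T_EXP) (f1 : T_F1) (tb : T_TB) (tau : T_TAU) (main : T_MAIN)
    (model : S_MODEL) (emb : S_EMB) (glue : T_GLUE) : S_GOAL := by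
  refine glue model emb fun Λ K _ _ Q => ⟨exp Λ K Q, fun p T => ⟨tb Λ K Q p T, ?_⟩⟩
  have h1 := grp Λ K Q
  have h2 := fun δ => ser Λ K Q δ cb (h1 δ)
  have c : Core Q := ⟨geo Λ, h1, fun δ => dl Λ K Q δ (h1 δ), h2, tr Λ K Q h1 h2⟩
  have h3 := at' Λ K Q c
  have h4 := mi Λ K Q c h3
  have h5 := fun δ => bl Λ K Q δ c (wp Λ K Q δ c (dt Λ K Q δ cb par spec c))
  have h6 := ip Λ K Q c
  exact main Λ K Q p T c h3 h5 h6 (f1 Λ K Q c h3 h4 h5) (tb Λ K Q p T)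
    (tau Λ K Q p T c h3 h4 h6 (tb Λ K Q p T))

end Pool.Agent.P.MP_389f6f_co.Qt
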