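import Pool.Agent.P.MP_389f6f_co.QAt

/-! Mutation invariance: factorisation lemmas, the shear, the two cones. -/

set_option autoImplicit false

namespace Pool.Agent.P.MP_389f6f_co.Qt
open Finset

namespace MiA

variable {Λ K : Type} [AddCommGroup Λ] [CommRing K] {Q : QD Λ K} {δ : Λ →+ ℤ}

theorem Zer_le_NN (σ : Cut Λ) : σ.Zer ≤ σ.NN := fun _ h => h.1

theorem Pos_le_NN (σ : Cut Λ) : σ.Pos ≤ σ.NN := by
  rintro x (rfl | h)
  · exact σ.N0
  · exact fun h' => σ.disj _ h' h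

theorem parts (C : Core Q) (σ : Cut Λ) {P : AddSubmonoid Λ} {U : (NS Q δ)ˣ}
    (hU : U ∈ GG Q δ P) : lo σ U ∈ GG Q δ σ.Neg ∧ mid σ U ∈ GG Q δ σ.Zer ∧
      hi σ U ∈ GG Q δ σ.Pos ∧ U = lo σ U * mid σ U * hi σ U := by
  obtain ⟨h1, h2, h3, h4⟩ := (C.grp δ).fac P σ U hU
  exact ⟨GG_mono inf_le_right h1, GG_mono inf_le_right h2, GG_mono inf_le_right h3, h4⟩

theorem left_neg (C : Core Q) (σ : Cut Λ) {P : AddSubmonoid Λ} {F U : (NS Q δ)ˣ}
    (hF : F ∈ GG Q δ σ.Neg) (hU : U ∈ GG Q δ P) :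
    lo σ (F * U) = F * lo σ U ∧ mid σ (F * U) = mid σ U := by
  obtain ⟨h1, h2, h3, h4⟩ := parts C σ hU
  have e : F * U = F * lo σ U * mid σ U * hi σ U := by
    conv_lhs => rw [h4]
    simp only [mul_assoc]
  have := (C.grp δ).fac_eq σ _ (mul_mem hF h1) _ h2 _ h3
  rw [← e] at this
  exact ⟨this.1, this.2.1⟩

theorem right_pos (C : Core Q) (σ : Cut Λ) {P : AddSubmonoid Λ} {F U : (NS Q δ)ˣ}
    (hF : F ∈ GG Q δ σ.Pos) (hU : U ∈ GG Q δ P) :
    lo σ (U * F) = lo σ U ∧ mid σ (U * F) = mid σ U := by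
  obtain ⟨h1, h2, h3, h4⟩ := parts C σ hU
  have e : U * F = lo σ U * mid σ U * (hi σ U * F) := by
    conv_lhs => rw [h4]
    simp only [mul_assoc]
  have := (C.grp δ).fac_eq σ _ h1 _ h2 _ (mul_mem h3 hF)
  rw [← e] at this
  exact ⟨this.1, this.2.1⟩

theorem left_zer (C : Core Q) (σ : Cut Λ) {P : AddSubmonoid Λ} {F U : (NS Q δ)ˣ}
    (hF : F ∈ GG Q δ σ.Zer) (hU : U ∈ GG Q δ P) : mid σ (F * U) = F * mid σ U := by
  obtain ⟨h1, h2, h3, h4⟩ := parts C σ hU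
  have e : F * U = F * lo σ U * F⁻¹ * (F * mid σ U) * hi σ U := by
    conv_lhs => rw [h4]
    simp only [mul_assoc, inv_mul_cancel_left]
  have h5 := (C.grp δ).conj σ.Neg σ.Zer
    (fun x hx h0 y hy => Or.inr (σ.addN x y (hx.resolve_left h0) hy.2)) F hF _ h1
  have := (C.grp δ).fac_eq σ _ h5 _ (mul_mem hF h2) _ h3
  rw [← e] at this
  exact this.2.1

theorem right_zer (C : Core Q) (σ : Cut Λ) {P : AddSubmonoid Λ} {F U : (NS Q δ)ˣ}
    (hF : F ∈ GG Q δ σ.Zer) (hU : U ∈ GG Q δ P) : mid σ (U * F) = mid σ U * F := by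
  obtain ⟨h1, h2, h3, h4⟩ := parts C σ hU
  have e : U * F = lo σ U * (mid σ U * F) * (F⁻¹ * hi σ U * F⁻¹⁻¹) := by
    conv_lhs => rw [h4]
    simp only [mul_assoc, inv_inv, mul_inv_cancel_left]
  have h5 := (C.grp δ).conj σ.Pos σ.Zer
    (fun x hx h0 y hy => Or.inr (σ.addP x y (hx.resolve_left h0) hy.1)) F⁻¹ (inv_mem hF) _ h3
  have := (C.grp δ).fac_eq σ _ h1 _ (mul_mem h2 hF) _ h5
  rw [← e] at this
  exact this.2.1

theorem zer_sup {n : Λ} {u : (NS Q δ)ˣ} (hu : u ∈ GG Q δ (Cut.of (Q.Av n)).Zer) :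
    Sup (fun x => Q.ω x n = 0) (u : NS Q δ) := fun x hx => by
  obtain ⟨⟨h1, h2⟩, -⟩ := hu.2 x hx
  simp only [Cut.of_N, Cut.of_P, QD.Av_apply, not_lt] at h1 h2
  exact_mod_cast le_antisymm h2 h1

theorem dl_left (C : Core Q) {e n : Λ} (he : 1 ≤ δ e) (h : Q.ω e n ≤ 0) {P : AddSubmonoid Λ}
    {U : (NS Q δ)ˣ} (hU : U ∈ GG Q δ P) (φ : Λ →+ ℤ) :
    (dl φ (mid (Cut.of (Q.Av n)) (FF Q δ e * U))).co n =
      (dl φ (FF Q δ e)).co n + (dl φ (mid (Cut.of (Q.Av n)) U)).co n := by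
  rcases h.lt_or_eq with h | h
  · rw [(left_neg C _ (AtA.FF_mem C he (Or.inr (by simpa using h))) hU).2,
      AtA.FF_zero C he φ h.ne, zero_add]
  · rw [left_zer C _ (AtA.FF_mem C he (by simp [Cut.mem_Zer, h])) hU, (C.dl δ).mul, NS.add_co,
      (C.dl δ).trace n _ _ (zer_sup (parts C _ hU).2.1)]

theorem dl_right (C : Core Q) {e n : Λ} (he : 1 ≤ δ e) (h : 0 ≤ Q.ω e n) {P : AddSubmonoid Λ}
    {U : (NS Q δ)ˣ} (hU : U ∈ GG Q δ P) (φ : Λ →+ ℤ) :
    (dl φ (mid (Cut.of (Q.Av n)) (U * FF Q δ e))).co n =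
      (dl φ (FF Q δ e)).co n + (dl φ (mid (Cut.of (Q.Av n)) U)).co n := by
  rcases h.lt_or_eq with h | h
  · rw [(right_pos C _ (AtA.FF_mem C he (Or.inr (by simpa using h))) hU).2,
      AtA.FF_zero C he φ h.ne', zero_add]
  · have hF : FF Q δ e ∈ GG Q δ (Cut.of (Q.Av n)).Zer :=
      AtA.FF_mem C he (by simp [Cut.mem_Zer, ← h])
    rw [right_zer C _ hF hU, (C.dl δ).mul, NS.add_co, (C.dl δ).trace n _ _ (zer_sup hF), add_comm]

/-- the shear along `k` -/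
def Sh (Q : QD Λ K) (k : Λ) : Λ ≃+ Λ where
  toFun x := x + Q.ω k x • k
  invFun x := x - Q.ω k x • k
  left_inv x := by simp [Q.skew]
  right_inv x := by simp [Q.skew]
  map_add' x y := by rw [map_add, add_smul]; abel

theorem Sh_apply (k x : Λ) : Sh Q k x = x + Q.ω k x • k := rfl

theorem Sh_iso (k : Λ) : Q.Iso (Sh Q k) := fun a b => by
  simp only [Sh_apply, map_add, map_zsmul, AddMonoidHom.add_apply, AddMonoidHom.smul_apply,
    Q.skew, smul_eq_mul, Q.anti a k]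
  ring

theorem om_Sh (k x : Λ) : Q.ω k (Sh Q k x) = Q.ω k x := by simp [Sh_apply, Q.skew]

theorem om_mu (k x : Λ) : Q.ω k (Q.mu k x) = Q.ω k x := by simp [QD.mu, Q.skew]

theorem mu_neg {k x : Λ} (h : Q.ω k x ≤ 0) : Q.mu k x = x := by simp [QD.mu, max_eq_right h]

theorem mu_pos {k x : Λ} (h : 0 ≤ Q.ω k x) : Q.mu k x = Sh Q k x := by
  simp [QD.mu, max_eq_left h, Sh_apply]

theorem mu_inj (k : Λ) : Function.Injective (Q.mu k) := fun x y h => by
  have h1 : Q.ω k x = Q.ω k y := by rw [← om_mu k x, h, om_mu]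
  rw [QD.mu, QD.mu, h1] at h
  exact add_right_cancel h

theorem refl_iso : Q.Iso (AddEquiv.refl Λ) := fun _ _ => rfl

/-- the cone spanned by the `e + j k`, `0 ≤ j ≤ w e` -/
def PP (s : Finset Λ) (k : Λ) (w : Λ →+ ℤ) : AddSubmonoid Λ :=
  AddSubmonoid.closure {x | ∃ e ∈ s, e ≠ k ∧ ∃ j : ℤ, 0 ≤ j ∧ j ≤ max (w e) 0 ∧ x = e + j • k}

theorem mem_PP {s : Finset Λ} {k e : Λ} (w : Λ →+ ℤ) (he : e ∈ s) (hk : e ≠ k) :
    e ∈ PP s k w :=
  AddSubmonoid.subset_closure ⟨e, he, hk, 0, le_rfl, le_max_right _ _, by simp⟩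

theorem interval {s : Finset Λ} {k : Λ} {w w' : Λ →+ ℤ} (hw : w k = 0) (hw' : ∀ x, w' x = -w x)
    {x : Λ} (hx : x ∈ PP s k w') {j : ℤ} (h0 : 0 ≤ j) (h1 : j ≤ w x) : x + j • k ∈ PP s k w := by
  have key : ∃ al be : ℤ, al ≤ 0 ∧ w x ≤ be ∧ al ≤ be ∧
      ∀ i, al ≤ i → i ≤ be → x + i • k ∈ PP s k w := by
    clear h1
    induction hx using AddSubmonoid.closure_induction with
    | mem y hy =>
      obtain ⟨e, he, hk, i, i0, i1, rfl⟩ := hy
      have e1 : w (e + i • k) = w e := by simp [hw]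
      rw [hw'] at i1
      refine ⟨-i, max (w e) 0 - i, by omega, by omega, by omega, fun l l0 l1 => ?_⟩
      exact AddSubmonoid.subset_closure ⟨e, he, hk, i + l, by omega, by omega, by
        rw [add_smul, add_assoc]⟩
    | zero =>
      refine ⟨0, 0, le_rfl, by simp, le_rfl, fun l l0 l1 => ?_⟩
      obtain rfl : l = 0 := le_antisymm l1 l0
      simp
    | add y z _ _ hy hz =>
      obtain ⟨a, b, h1, h2, h3, h4⟩ := hy
      obtain ⟨a', b', h1', h2', h3', h4'⟩ := hz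
      refine ⟨a + a', b + b', by omega, by rw [map_add]; omega, by omega, fun l l0 l1 => ?_⟩
      have := add_mem (h4 (min b (l - a')) (by omega) (by omega))
        (h4' (l - min b (l - a')) (by omega) (by omega))
      have e : y + z + l • k = y + min b (l - a') • k + (z + (l - min b (l - a')) • k) := by
        rw [sub_smul]; abel
      rw [e]; exact this
  obtain ⟨a, b, h2, h3, -, h4⟩ := key
  exact h4 j (by omega) (by omega)

theorem cj_sub (u : (NS Q δ)ˣ) (f g : NS Q δ) : cj u (f - g) = cj u f - cj u g := by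
  simp [cj, mul_sub, sub_mul]

theorem cj_inv_cj (u : (NS Q δ)ˣ) (f : NS Q δ) : cj u⁻¹ (cj u f) = f := by
  rw [← cj_mul, mul_inv_cancel, cj_one]

theorem cj_cj_inv (u : (NS Q δ)ˣ) (f : NS Q δ) : cj u (cj u⁻¹ f) = f := by
  rw [← cj_mul, inv_mul_cancel, cj_one]

theorem reflect (C : Core Q) (δ : Λ →+ ℤ) (m : ℕ) (a : ℕ → K) :
    ∑ j ∈ range (m + 1), Q.cc m j * a j = ∑ j ∈ range (m + 1), Q.cc m j * a (m - j) := by
  rw [← sum_range_reflect]
  refine sum_congr rfl fun j hj => ?_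
  have hj' : j ≤ m := by simpa [Nat.lt_succ_iff] using hj
  rw [Nat.add_sub_cancel, (C.ser δ).cc_symm m j hj']

theorem rel (C : Core Q) {δ' : Λ →+ ℤ} {k : Λ} (hk : 1 ≤ δ k) (hk' : 1 ≤ δ' (-k))
    {f : NS Q δ} {f1 h : NS Q δ'} (h1 : (cj (FF Q δ k) f).co = f1.co) (h2 : Tr (Sh Q k) f h) :
    cj (FF Q δ' (-k)) f1 = h := by
  have hh : ∀ x, h.co x = f.co (x - Q.ω k x • k) := fun x => by
    rw [← h2]
    congr 1
    exact ((Sh Q k).apply_symm_apply x).symm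
  refine NS.ext fun x => ?_
  rcases le_total (Q.ω k x) 0 with hx | hx
  · obtain ⟨m, hm⟩ : ∃ m : ℕ, Q.ω k x = -m := ⟨(-Q.ω k x).toNat, by omega⟩
    rw [((C.ser δ').cjF (-k) hk' f1 x m).1 (by simp [hm]), hh, ← cj_inv_cj (FF Q δ k) f,
      ((C.ser δ).cjF k hk _ _ m).2 (by simp [hm, Q.skew]), h1, reflect C δ m]
    refine sum_congr rfl fun j hj => ?_
    have hj' : j ≤ m := by simpa [Nat.lt_succ_iff] using hj
    congr 2
    rw [hm, ← natCast_zsmul, ← natCast_zsmul, Nat.cast_sub hj']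
    module
  · have lev : ∀ y, Q.ω k y = Q.ω k x → (f1 - cj (FF Q δ' (-k))⁻¹ h).co y = 0 := by
      intro y hy
      obtain ⟨m, hm⟩ : ∃ m : ℕ, Q.ω k y = m := ⟨(Q.ω k y).toNat, by omega⟩
      rw [NS.sub_co, ((C.ser δ').cjF (-k) hk' h y m).2 (by simp [hm]), ← h1,
        ((C.ser δ).cjF k hk f y m).1 hm, reflect C δ m, sub_eq_zero]
      refine sum_congr rfl fun j hj => ?_
      have hj' : j ≤ m := by simpa [Nat.lt_succ_iff] using hj
      rw [hh]
      congr 2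
      have e : Q.ω k (y - j • -k) = m := by simp [hm, Q.skew]
      rw [e, ← natCast_zsmul, ← natCast_zsmul, Nat.cast_sub hj']
      module
    have h3 : (cj (FF Q δ' (-k)) (f1 - cj (FF Q δ' (-k))⁻¹ h)).co x = 0 := by
      by_contra hc
      obtain ⟨a, ha, ⟨j, hj⟩, -⟩ := (C.grp δ').cj_sup (AddSubmonoid.multiples (-k)) _
        (AtA.FF_mem C hk' (AddSubmonoid.mem_multiples _)) _ x hc
      refine ha (lev a ?_)
      have e : a = x - j • -k := by
        have hj' : j • -k = x - a := hj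
        rw [hj']; abel
      rw [e]; simp [Q.skew]
    rw [cj_sub, cj_cj_inv, NS.sub_co, sub_eq_zero] at h3
    exact h3

end MiA

end Pool.Agent.P.MP_389f6f_co.Qt
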