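import Mathlib

/-! The completed quantum torus. -/

set_option autoImplicit false

namespace Pool.Agent.P.MP_389f6f_co.Qt
open Finset

/-- skew form and deformation parameter -/
structure QD (Λ K : Type) [AddCommGroup Λ] [CommRing K] where
  ω : Λ →+ Λ →+ ℤ
  skew : ∀ a, ω a a = 0
  t : Kˣ
  ι : PowerSeries ℚ →+* K
  hι : ι PowerSeries.X = (t : K) ^ 2

variable {Λ K : Type} [AddCommGroup Λ] [CommRing K]

namespace QD
variable (Q : QD Λ K)

def tp (k : ℤ) : K := ((Q.t ^ k : Kˣ) : K)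

theorem tp_add (k l : ℤ) : Q.tp (k + l) = Q.tp k * Q.tp l := by simp [tp, zpow_add]

@[simp] theorem tp_zero : Q.tp 0 = 1 := by simp [tp]

theorem tp_nat (n : ℕ) : Q.tp n = (Q.t : K) ^ n := by simp [tp]

theorem anti (a b : Λ) : Q.ω a b = -Q.ω b a := by
  have h := Q.skew (a + b)
  simp only [map_add, AddMonoidHom.add_apply, Q.skew] at h
  omega

end QD

/-- locally finite support -/
def LF (δ : Λ →+ ℤ) (f : Λ → K) : Prop := ∀ c : ℤ, {x | f x ≠ 0 ∧ δ x ≤ c}.Finite

theorem LF.bdd {δ : Λ →+ ℤ} {f : Λ → K} (h : LF δ f) : ∃ m : ℤ, ∀ x, f x ≠ 0 → m ≤ δ x := by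
  obtain ⟨m, hm⟩ := ((h 0).image δ).bddBelow
  refine ⟨min m 0, fun x hx => ?_⟩
  rcases le_total (δ x) 0 with h0 | h0
  · exact (min_le_left _ _).trans (hm ⟨x, ⟨hx, h0⟩, rfl⟩)
  · exact (min_le_right _ _).trans h0

theorem LF.of_sup {δ : Λ →+ ℤ} {f g : Λ → K} (h : LF δ f) (hg : ∀ x, g x ≠ 0 → f x ≠ 0) :
    LF δ g := fun c => (h c).subset fun x hx => ⟨hg x hx.1, hx.2⟩

theorem LF.of_finite {δ : Λ →+ ℤ} {f : Λ → K} (h : {x | f x ≠ 0}.Finite) : LF δ f :=
  fun _ => h.subset fun _ hx => hx.1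

def LFs (K : Type) [CommRing K] (δ : Λ →+ ℤ) : Submodule K (Λ → K) where
  carrier := {f | LF δ f}
  add_mem' := fun {f g} hf hg c => ((hf c).union (hg c)).subset fun x hx => by
    by_cases h : f x = 0
    · exact Or.inr ⟨fun h' => hx.1 (by simp [h, h']), hx.2⟩
    · exact Or.inl ⟨h, hx.2⟩
  zero_mem' := fun c => by simp
  smul_mem' := fun c f hf => LF.of_sup hf fun x hx h => hx (by simp [h])

/-- the Novikov completion along `δ` -/
def NS (_Q : QD Λ K) (δ : Λ →+ ℤ) : Type := LFs K δ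

namespace NS
variable {Q : QD Λ K} {δ : Λ →+ ℤ}

instance : AddCommGroup (NS Q δ) := inferInstanceAs (AddCommGroup (LFs K δ))
instance : Module K (NS Q δ) := inferInstanceAs (Module K (LFs K δ))

def co (f : NS Q δ) : Λ → K := Subtype.val (p := fun g => g ∈ LFs K δ) f

theorem lf (f : NS Q δ) : LF δ f.co := Subtype.property (p := fun g => g ∈ LFs K δ) f

def mk (Q : QD Λ K) (f : Λ → K) (h : LF δ f) : NS Q δ := (⟨f, h⟩ : LFs K δ)

@[simp] theorem mk_co (f : Λ → K) (h : LF δ f) : (mk Q f h).co = f := rfl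

@[ext] theorem ext {f g : NS Q δ} (h : ∀ x, f.co x = g.co x) : f = g :=
  Subtype.ext (p := fun g => g ∈ LFs K δ) (funext h)

@[simp] theorem add_co (f g : NS Q δ) (x : Λ) : (f + g).co x = f.co x + g.co x := rfl
@[simp] theorem sub_co (f g : NS Q δ) (x : Λ) : (f - g).co x = f.co x - g.co x := rfl
@[simp] theorem neg_co (f : NS Q δ) (x : Λ) : (-f).co x = -f.co x := rfl
@[simp] theorem zero_co (x : Λ) : (0 : NS Q δ).co x = 0 := rfl
@[simp] theorem smul_co (c : K) (f : NS Q δ) (x : Λ) : (c • f).co x = c * f.co x := rfl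

theorem sum_co {α : Type*} (s : Finset α) (f : α → NS Q δ) (x : Λ) :
    (∑ i ∈ s, f i).co x = ∑ i ∈ s, (f i).co x := by
  classical
  induction s using Finset.induction_on with
  | empty => simp
  | insert a s ha ih => rw [sum_insert ha, sum_insert ha, add_co, ih]

theorem fin_conv (f g : NS Q δ) (r : Λ) : {a | f.co a ≠ 0 ∧ g.co (r - a) ≠ 0}.Finite := by
  obtain ⟨m, hm⟩ := g.lf.bdd
  refine (f.lf (δ r - m)).subset fun a ha => ⟨ha.1, ?_⟩
  have := hm _ ha.2
  rw [map_sub] at this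
  omega

noncomputable def conv (f g : NS Q δ) (r : Λ) : K :=
  ∑ᶠ a, Q.tp (Q.ω a r) * f.co a * g.co (r - a)

theorem conv_ne {f g : NS Q δ} {r : Λ} (h : conv f g r ≠ 0) :
    ∃ a, f.co a ≠ 0 ∧ g.co (r - a) ≠ 0 := by
  by_contra hc
  push Not at hc
  refine h (finsum_eq_zero_of_forall_eq_zero fun a => ?_)
  by_cases ha : f.co a = 0
  · simp [ha]
  · simp [hc a ha]

theorem lf_conv (f g : NS Q δ) : LF δ (conv f g) := fun c => by
  obtain ⟨m, hm⟩ := f.lf.bdd
  obtain ⟨m', hm'⟩ := g.lf.bdd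
  refine (((f.lf (c - m')).prod (g.lf (c - m))).image fun p => p.1 + p.2).subset fun r hr => ?_
  obtain ⟨a, h1, h2⟩ := conv_ne hr.1
  have h3 := hm _ h1
  have h4 := hm' _ h2
  have h5 := hr.2
  rw [map_sub] at h4
  refine ⟨(a, r - a), ⟨⟨h1, by change δ a ≤ _; omega⟩, h2, ?_⟩, by simp⟩
  change δ (r - a) ≤ _
  rw [map_sub]; omega

open Classical in
/-- monomial -/
noncomputable def z (a : Λ) : NS Q δ := mk Q (fun x => if x = a then 1 else 0)
  (LF.of_finite ((Set.finite_singleton a).subset fun x hx => by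
    by_contra h
    exact hx (if_neg h)))

open Classical in
theorem z_co (a x : Λ) : (z a : NS Q δ).co x = if x = a then 1 else 0 := rfl

theorem hfs (f g : NS Q δ) (r : Λ) :
    Function.HasFiniteSupport fun a => Q.tp (Q.ω a r) * f.co a * g.co (r - a) :=
  (fin_conv f g r).subset fun a ha =>
    ⟨fun h => ha (by simp [h]), fun h => ha (by simp [h])⟩

theorem conv_assoc (f g h : NS Q δ) (r : Λ) :
    conv (mk Q _ (lf_conv f g)) h r = conv f (mk Q _ (lf_conv g h)) r := by
  set Φ : Λ × Λ → K := fun p =>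
    Q.tp (Q.ω p.1 r + Q.ω p.2 (r - p.1)) * f.co p.1 * g.co p.2 * h.co (r - p.1 - p.2) with hΦ
  have hf : Function.HasFiniteSupport Φ := by
    obtain ⟨m1, h1⟩ := f.lf.bdd
    obtain ⟨m2, h2⟩ := g.lf.bdd
    obtain ⟨m3, h3⟩ := h.lf.bdd
    refine ((f.lf (δ r - m2 - m3)).prod (g.lf (δ r - m1 - m3))).subset fun p hp => ?_
    have a1 : f.co p.1 ≠ 0 := fun e => hp (by simp [hΦ, e])
    have a2 : g.co p.2 ≠ 0 := fun e => hp (by simp [hΦ, e])
    have a3 : h.co (r - p.1 - p.2) ≠ 0 := fun e => hp (by simp [hΦ, e])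
    have b1 := h1 _ a1
    have b2 := h2 _ a2
    have b3 := h3 _ a3
    rw [map_sub, map_sub] at b3
    exact ⟨⟨a1, by omega⟩, a2, by omega⟩
  let e : Λ × Λ ≃ Λ × Λ := ⟨fun p => (p.2, p.1 - p.2), fun p => (p.1 + p.2, p.1),
    fun p => by simp, fun p => by simp⟩
  have hf' : Function.HasFiniteSupport (fun p => Φ (e p)) := hf.preimage e.injective.injOn
  have e1 : conv f (mk Q _ (lf_conv g h)) r = ∑ᶠ p, Φ p := by
    rw [finsum_curry Φ hf, conv]
    refine finsum_congr fun a => ?_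
    rw [mk_co, conv, mul_finsum' _ _ (hfs g h _)]
    refine finsum_congr fun c => ?_
    simp only [hΦ, Q.tp_add]; ring
  rw [e1, ← finsum_comp_equiv e, finsum_curry _ hf', conv]
  refine finsum_congr fun b => ?_
  rw [mk_co, conv, mul_finsum' _ _ (hfs f g _), finsum_mul']
  · refine finsum_congr fun a => ?_
    have : Q.ω a r + Q.ω (b - a) (r - a) = Q.ω b r + Q.ω a b := by
      simp only [map_sub, AddMonoidHom.sub_apply, Q.skew, Q.anti b a]; ring
    simp only [hΦ, e, Equiv.coe_fn_mk, sub_sub_sub_cancel_right]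
    rw [this, Q.tp_add]; ring
  · exact (hfs f g b).subset fun a ha h0 => ha (by simp only [h0, mul_zero])

noncomputable instance : Ring (NS Q δ) :=
  { (inferInstance : AddCommGroup (NS Q δ)) with
    mul := fun f g => mk Q _ (lf_conv f g)
    one := z 0
    mul_assoc := fun f g h => ext (conv_assoc f g h)
    one_mul := fun f => ext fun r => by
      change conv (z 0) f r = _
      rw [conv, finsum_eq_single _ 0 fun a ha => by simp [z_co, ha]]
      simp [z_co]
    mul_one := fun f => ext fun r => by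
      change conv f (z 0) r = _
      rw [conv, finsum_eq_single _ r fun a ha => by simp [z_co, sub_eq_zero, ha.symm]]
      simp [z_co, Q.skew]
    left_distrib := fun f g h => ext fun r => by
      change conv f (g + h) r = conv f g r + conv f h r
      rw [conv, conv, conv, ← finsum_add_distrib (hfs f g r) (hfs f h r)]
      exact finsum_congr fun a => by rw [add_co, mul_add]
    right_distrib := fun f g h => ext fun r => by
      change conv (f + g) h r = conv f h r + conv g h r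
      rw [conv, conv, conv, ← finsum_add_distrib (hfs f h r) (hfs g h r)]
      exact finsum_congr fun a => by rw [add_co, mul_add, add_mul]
    zero_mul := fun f => ext fun r => by
      change conv 0 f r = 0
      simp [conv]
    mul_zero := fun f => ext fun r => by
      change conv f 0 r = 0
      simp [conv] }

theorem mul_co (f g : NS Q δ) (r : Λ) :
    (f * g).co r = ∑ᶠ a, Q.tp (Q.ω a r) * f.co a * g.co (r - a) := rfl

theorem one_eq : (1 : NS Q δ) = z 0 := rfl

open Classical in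
theorem one_co (x : Λ) : (1 : NS Q δ).co x = if x = 0 then 1 else 0 := rfl

noncomputable instance : Algebra K (NS Q δ) := Algebra.ofModule
  (fun c f g => ext fun r => by
    rw [smul_co, mul_co, mul_co, mul_finsum' _ _ (hfs f g r)]
    exact finsum_congr fun a => by rw [smul_co]; ring)
  (fun c f g => ext fun r => by
    rw [smul_co, mul_co, mul_co, mul_finsum' _ _ (hfs f g r)]
    exact finsum_congr fun a => by rw [smul_co]; ring)

theorem mul_co_sum (f g : NS Q δ) (r : Λ) (S : Finset Λ)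
    (h : ∀ a, f.co a ≠ 0 → g.co (r - a) ≠ 0 → a ∈ S) :
    (f * g).co r = ∑ a ∈ S, Q.tp (Q.ω a r) * f.co a * g.co (r - a) :=
  finsum_eq_sum_of_support_subset _ fun a ha =>
    h a (fun e => ha (by simp [e])) (fun e => ha (by simp [e]))

theorem mul_co' (f g : NS Q δ) (r : Λ) :
    (f * g).co r = ∑ᶠ b, Q.tp (-Q.ω b r) * f.co (r - b) * g.co b := by
  rw [mul_co, ← finsum_comp_equiv (Equiv.subLeft r)]
  refine finsum_congr fun b => ?_
  simp [Q.skew]

theorem z_mul_co (a : Λ) (f : NS Q δ) (r : Λ) :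
    (z a * f).co r = Q.tp (Q.ω a r) * f.co (r - a) := by
  rw [mul_co, finsum_eq_single _ a fun b hb => by simp [z_co, hb]]
  simp [z_co]

theorem mul_z_co (a : Λ) (f : NS Q δ) (r : Λ) :
    (f * z a).co r = Q.tp (-Q.ω a r) * f.co (r - a) := by
  rw [mul_co', finsum_eq_single _ a fun b hb => by simp [z_co, hb]]
  simp [z_co]

theorem z_mul_z (a b : Λ) : (z a * z b : NS Q δ) = Q.tp (Q.ω a b) • z (a + b) := by
  ext r
  rw [z_mul_co, smul_co, z_co, z_co]
  by_cases h : r = a + b
  · subst h; simp [Q.skew]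
  · rw [if_neg h, if_neg (fun e => h (by rw [← e]; abel)), mul_zero, mul_zero]

end NS

end Pool.Agent.P.MP_389f6f_co.Qt
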