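import Pool.Agent.P.MP_389f6f_co.Cones

set_option autoImplicit false

namespace Pool.Agent.P.MP_389f6f_co
open Finset

section tel
variable {F : Type*} [Field F]

def tau (N : ℕ) (q : F) (f : ℕ → F) (m : ℕ) (k : ℤ) : F :=
  es N (fun s => f s * if s < m then q else 1) k

theorem tau_self (N : ℕ) (q : F) (f : ℕ → F) {a : ℕ} (ha : a < N) (k : ℤ) :
    tau N q f a (k + 1) = es N (fun s => f s * om q a s) (k + 1) +
      f a * es N (fun s => f s * om q a s) k := by
  have h : (fun s => if s = a then 0 else f s * if s < a then q else 1) =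
      fun s => f s * om q a s := by
    funext s; simp only [om]; split_ifs <;> first | ring1 | omega
  rw [tau, es_remove N _ a ha, h]; simp

theorem tau_succ (N : ℕ) (q : F) (f : ℕ → F) {a : ℕ} (ha : a < N) (k : ℤ) :
    tau N q f (a + 1) (k + 1) = es N (fun s => f s * om q a s) (k + 1) +
      q * f a * es N (fun s => f s * om q a s) k := by
  have h : (fun s => if s = a then 0 else f s * if s < a + 1 then q else 1) =
      fun s => f s * om q a s := by
    funext s; simp only [om]; split_ifs <;> first | ring1 | omega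
  rw [tau, es_remove N _ a ha, h]; simp [mul_comm]

theorem tau_zero (N : ℕ) (q : F) (f : ℕ → F) (k : ℤ) : tau N q f 0 k = es N f k := by
  simp [tau]

theorem tau_top (N : ℕ) {q : F} (hq : q ≠ 0) (f : ℕ → F) (k : ℤ) :
    tau N q f N k = q ^ k * es N f k := by
  rw [tau, ← es_smul N f hq]
  exact es_congr N (fun s hs => by rw [if_pos hs, mul_comm]) k

theorem tau_tel (N : ℕ) (q : F) (f : ℕ → F) (k : ℤ) {m : ℕ} (hm : m ≤ N) :
    ∑ a ∈ range N, (if a < m then (q - 1) * (f a * es N (fun s => f s * om q a s) k) else 0) =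
      tau N q f m (k + 1) - es N f (k + 1) := by
  rw [← sum_filter, show (range N).filter (fun a => a < m) = range m by ext; simp; omega,
    ← tau_zero N q f, ← sum_range_sub (fun a => tau N q f a (k + 1))]
  refine sum_congr rfl fun a ha => ?_
  have : a < N := by have := mem_range.mp ha; omega
  rw [tau_succ N q f this, tau_self N q f this]; ring

theorem tel1 (N : ℕ) {q : F} (hq : q ≠ 0) (f : ℕ → F) (k : ℤ) {c : ℕ} (hc : c < N) :
    (q - 1) * ∑ a ∈ range N, f a * om q c a * es N (fun s => f s * om q a s) k =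
      (q - 1) * es N (fun s => f s * om q c s) (k + 1) + (q ^ (k + 1) - q) * es N f (k + 1) := by
  have h1 := tau_tel N q f k hc.le
  have h2 := tau_tel N q f k (m := c + 1) hc
  have h3 := tau_tel N q f k le_rfl
  rw [tau_self N q f hc] at h1
  rw [tau_succ N q f hc] at h2
  rw [tau_top N hq] at h3
  have : (q - 1) * ∑ a ∈ range N, f a * om q c a * es N (fun s => f s * om q a s) k =
      q * ∑ a ∈ range N, (if a < c then (q - 1) * (f a * es N (fun s => f s * om q a s) k) else 0)
      + ∑ a ∈ range N, (if a < N then (q - 1) * (f a * es N (fun s => f s * om q a s) k) else 0)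
      - ∑ a ∈ range N,
        (if a < c + 1 then (q - 1) * (f a * es N (fun s => f s * om q a s) k) else 0) := by
    rw [mul_sum, mul_sum, ← sum_add_distrib, ← sum_sub_distrib]
    refine sum_congr rfl fun a ha => ?_
    have := mem_range.mp ha
    rw [om]
    split_ifs <;> first | ring1 | omega
  rw [this, h1, h2, h3]; ring

/-- two-sided weight -/
def wt (A B : F) (b a : ℕ) : F := if a < b then A else if a = b then 0 else B

theorem tel2 (N : ℕ) {q : F} (hq : q ≠ 0) (f : ℕ → F) (k : ℤ) {b c : ℕ} (hb : b < N) (hc : c < N)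
    (hbc : b ≠ c) (A B : F) :
    (q - 1) * ∑ a ∈ range N, f a * om q c a * wt A B b a * es N (fun s => f s * om q a s) k =
      (q - 1) * wt A B b c * es N (fun s => f s * om q c s) (k + 1) +
      om q c b * ((A - B) * es N (fun s => f s * om q b s) (k + 1) +
        (A - q * B) * f b * es N (fun s => f s * om q b s) k) +
      (B * q ^ (k + 1) - q * A) * es N f (k + 1) := by
  have h1 := tau_tel N q f k hc.le
  have h2 := tau_tel N q f k (m := c + 1) hc
  have h3 := tau_tel N q f k le_rfl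
  have h4 := tau_tel N q f k hb.le
  have h5 := tau_tel N q f k (m := b + 1) hb
  rw [tau_self N q f hc] at h1
  rw [tau_succ N q f hc] at h2
  rw [tau_top N hq] at h3
  rw [tau_self N q f hb] at h4
  rw [tau_succ N q f hb] at h5
  set P : ℕ → F := fun m => ∑ a ∈ range N,
    (if a < m then (q - 1) * (f a * es N (fun s => f s * om q a s) k) else 0) with hP
  change P c = _ at h1
  change P (c + 1) = _ at h2
  change P N = _ at h3
  change P b = _ at h4
  change P (b + 1) = _ at h5
  rcases lt_or_gt_of_ne hbc with h | h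
  · have : (q - 1) * ∑ a ∈ range N, f a * om q c a * wt A B b a *
        es N (fun s => f s * om q a s) k =
        q * A * P b + q * B * P c - q * B * P (b + 1) + B * P N - B * P (c + 1) := by
      simp only [hP, mul_sum, ← sum_add_distrib, ← sum_sub_distrib]
      refine sum_congr rfl fun a ha => ?_
      have := mem_range.mp ha
      rw [om, wt]
      split_ifs <;> first | ring1 | omega
    rw [this, h1, h2, h3, h4, h5, wt, om, if_neg (by omega), if_neg (by omega), if_pos h]; ring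
  · have : (q - 1) * ∑ a ∈ range N, f a * om q c a * wt A B b a *
        es N (fun s => f s * om q a s) k =
        q * A * P c + A * P b - A * P (c + 1) + B * P N - B * P (b + 1) := by
      simp only [hP, mul_sum, ← sum_add_distrib, ← sum_sub_distrib]
      refine sum_congr rfl fun a ha => ?_
      have := mem_range.mp ha
      rw [om, wt]
      split_ifs <;> first | ring1 | omega
    rw [this, h1, h2, h3, h4, h5, wt, om, if_pos h, if_neg (by omega), if_neg (by omega)]; ring

end tel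

namespace Ctx
variable {F : Type*} [Field F] (X : Ctx F)

theorem tel2' (k : ℤ) {b c : ℕ} (hb : b < X.N) (hc : c < X.N) (hbc : b ≠ c) (A B : F) :
    (X.q - 1) * ∑ a ∈ range X.N, X.w1 c a * wt A B b a * X.eps a k =
      (X.q - 1) * wt A B b c * X.eps c (k + 1) +
      om X.q c b * ((A - B) * X.eps b (k + 1) + (A - X.q * B) * X.x b * X.eps b k) +
      (B * X.q ^ (k + 1) - X.q * A) * X.e (k + 1) :=
  tel2 X.N X.q0 X.x k hb hc hbc A B

theorem slide_yy (d : ℤ) {b c : ℕ} (hc : c < X.N) :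
    ∑ a ∈ range X.N, X.w1 c a * om X.q b a * X.yy a b d =
      X.yy b c (d + 1) + X.q * qi X.q d * X.eps b (d + 1) := by
  have h := tel1 X.N X.q0 (X.w1 b) d hc
  apply mul_left_cancel₀ X.q1
  have h1 : ∑ a ∈ range X.N, X.w1 c a * om X.q b a * X.yy a b d =
      ∑ a ∈ range X.N, X.w1 b a * om X.q c a * es X.N (fun s => X.w1 b s * om X.q a s) d := by
    refine sum_congr rfl fun a _ => ?_
    rw [yy_comm]
    simp only [w1, yy]
    have : X.w2 b a = fun s => X.x s * om X.q b s * om X.q a s := rfl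
    rw [this]; ring
  rw [h1, h]
  have : es X.N (fun s => X.w1 b s * om X.q c s) (d + 1) = X.yy b c (d + 1) := rfl
  rw [this, qi, zpow_add_one₀ X.q0]
  have := X.q1
  simp only [eps]
  field_simp

/-- generic computation behind the slide of the generators -/
theorem slide_gen (n1 n2 : ℕ) (d : ℤ) {b c : ℕ} (hb : b < X.N) (hc : c < X.N) (hbc : b ≠ c)
    (hn : n1 = n2 ∨ n1 = n2 + 1) (hn1 : 0 < n1) :
    ∑ a ∈ range X.N, X.w1 c a *
      (∑ i ∈ range n1, wt (X.q ^ (n1 + n2 - i)) (X.q ^ i) b a * (X.eps a (d - i) * X.eps b i) +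
       ∑ i ∈ range n2, wt (X.q ^ (i + 1)) (X.q ^ (n1 + n2 - (i + 1))) b a *
        (X.eps a i * X.eps b (d - i))) =
      (∑ i ∈ range n1, wt (X.q ^ (n1 + n2 - i)) (X.q ^ i) b c *
        (X.eps c (d + 1 - i) * X.eps b i) +
       ∑ i ∈ range n2, wt (X.q ^ (i + 1)) (X.q ^ (n1 + n2 - (i + 1))) b c *
        (X.eps c (i + 1 : ℕ) * X.eps b (d + 1 - (i + 1 : ℕ))) +
        wt 1 (X.q ^ (n1 + n2)) b c * X.eps b (d + 1)) +
      X.q * qi X.q ((n1 + n2 : ℕ) - 1) * X.eps b (d + 1) +
      ∑ i ∈ range n1, X.q ^ (n1 + n2 + 1 - i) * qi X.q (d - (n1 + n2 : ℕ) + i) * X.e (d + 1 - i) *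
        X.eps b i +
      ∑ i ∈ range n2, X.q ^ (i + 2) * qi X.q ((n1 + n2 : ℕ) - 2 - i) * X.e (i + 1) *
        X.eps b (d - i) := by
  have hq0 := X.q0
  have hq1 := X.q1
  apply mul_left_cancel₀ X.q1
  have hL : (X.q - 1) * ∑ a ∈ range X.N, X.w1 c a *
      (∑ i ∈ range n1, wt (X.q ^ (n1 + n2 - i)) (X.q ^ i) b a * (X.eps a (d - i) * X.eps b i) +
       ∑ i ∈ range n2, wt (X.q ^ (i + 1)) (X.q ^ (n1 + n2 - (i + 1))) b a *
        (X.eps a i * X.eps b (d - i))) =
      ∑ i ∈ range n1, ((X.q - 1) * ∑ a ∈ range X.N, X.w1 c a *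
        wt (X.q ^ (n1 + n2 - i)) (X.q ^ i) b a * X.eps a (d - i)) * X.eps b i +
      ∑ i ∈ range n2, ((X.q - 1) * ∑ a ∈ range X.N, X.w1 c a *
        wt (X.q ^ (i + 1)) (X.q ^ (n1 + n2 - (i + 1))) b a * X.eps a i) * X.eps b (d - i) := by
    simp only [mul_add, sum_add_distrib, mul_sum, sum_mul]
    congr 1 <;> rw [sum_comm] <;>
      exact sum_congr rfl fun i _ => sum_congr rfl fun a _ => by ring
  rw [hL]
  simp only [X.tel2' _ hb hc hbc]
  set g : ℕ → F := fun i => (X.q ^ (n1 + n2 - i) - X.q ^ i) * (X.eps b (d + 1 - i) * X.eps b i)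
    with hg
  set r : ℕ → F := fun i => (X.q ^ (n1 + n2 - i) - X.q ^ (i + 1)) *
    (X.x b * (X.eps b (d - i) * X.eps b i)) with hr
  have e1 : ∀ i ∈ range n1, ((X.q - 1) * wt (X.q ^ (n1 + n2 - i)) (X.q ^ i) b c *
      X.eps c (d - i + 1) + om X.q c b * ((X.q ^ (n1 + n2 - i) - X.q ^ i) * X.eps b (d - i + 1) +
      (X.q ^ (n1 + n2 - i) - X.q * X.q ^ i) * X.x b * X.eps b (d - i)) +
      (X.q ^ i * X.q ^ (d - i + 1) - X.q * X.q ^ (n1 + n2 - i)) * X.e (d - i + 1)) * X.eps b i =
      (X.q - 1) * (wt (X.q ^ (n1 + n2 - i)) (X.q ^ i) b c * (X.eps c (d + 1 - i) * X.eps b i)) +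
      (X.q - 1) * (X.q ^ (n1 + n2 + 1 - i) * qi X.q (d - (n1 + n2 : ℕ) + i) * X.e (d + 1 - i) *
        X.eps b i) + om X.q c b * g i + om X.q c b * r i := by
    intro i hi
    have hi' := mem_range.mp hi
    obtain ⟨t, ht⟩ : ∃ t, n1 + n2 = i + t := ⟨n1 + n2 - i, by omega⟩
    simp only [hg, hr, ht, show d - i + 1 = d + 1 - i by ring, show i + t - i = t by omega,
      show i + t + 1 - i = t + 1 by omega, qi]
    rw [show d - ((i + t : ℕ) : ℤ) + i = d - t by push_cast; ring]
    simp only [zpow_sub₀ hq0, zpow_add₀ hq0, zpow_natCast, zpow_one]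
    field_simp
    ring
  have e2 : ∀ i ∈ range n2, ((X.q - 1) * wt (X.q ^ (i + 1)) (X.q ^ (n1 + n2 - (i + 1))) b c *
      X.eps c (i + 1) + om X.q c b * ((X.q ^ (i + 1) - X.q ^ (n1 + n2 - (i + 1))) *
      X.eps b (i + 1) + (X.q ^ (i + 1) - X.q * X.q ^ (n1 + n2 - (i + 1))) * X.x b * X.eps b i) +
      (X.q ^ (n1 + n2 - (i + 1)) * X.q ^ ((i : ℤ) + 1) - X.q * X.q ^ (i + 1)) * X.e (i + 1)) *
      X.eps b (d - i) =
      (X.q - 1) * (wt (X.q ^ (i + 1)) (X.q ^ (n1 + n2 - (i + 1))) b c *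
        (X.eps c (i + 1 : ℕ) * X.eps b (d + 1 - (i + 1 : ℕ)))) +
      (X.q - 1) * (X.q ^ (i + 2) * qi X.q ((n1 + n2 : ℕ) - 2 - i) * X.e (i + 1) *
        X.eps b (d - i)) - om X.q c b * g (i + 1) - om X.q c b * r i := by
    intro i hi
    have hi' := mem_range.mp hi
    obtain ⟨t, ht⟩ : ∃ t, n1 + n2 = i + t + 2 := ⟨n1 + n2 - i - 2, by omega⟩
    simp only [hg, hr, ht, show i + t + 2 - (i + 1) = t + 1 by omega,
      show i + t + 2 - i = t + 2 by omega, qi]
    rw [show ((i + t + 2 : ℕ) : ℤ) - 2 - i = t by push_cast; ring,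
      show d + 1 - ((i + 1 : ℕ) : ℤ) = d - i by push_cast; ring]
    push_cast
    simp only [zpow_add₀ hq0, zpow_natCast, zpow_one]
    field_simp
    ring
  rw [sum_congr rfl e1, sum_congr rfl e2]
  simp only [sum_add_distrib, sum_sub_distrib, ← mul_sum]
  have hgr : ∑ i ∈ range n1, g i - ∑ i ∈ range n2, g (i + 1) = g 0 ∧
      ∑ i ∈ range n1, r i = ∑ i ∈ range n2, r i := by
    rcases hn with rfl | rfl
    · refine ⟨?_, rfl⟩
      have := sum_range_sub g n1
      have h0 : g n1 = 0 := by simp [hg]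
      rw [sum_sub_distrib] at this
      linear_combination -this - h0
    · refine ⟨by rw [sum_range_succ']; ring, ?_⟩
      rw [sum_range_succ]
      simp [hr, show n2 + 1 + n2 - n2 = n2 + 1 by omega]
  have hg0 : g 0 = (X.q ^ (n1 + n2) - 1) * X.eps b (d + 1) := by simp [hg, eps_zero]
  have hlast : om X.q c b * (X.q ^ (n1 + n2) - 1) = (X.q - 1) * (wt 1 (X.q ^ (n1 + n2)) b c +
      X.q * qi X.q ((n1 + n2 : ℕ) - 1)) := by
    simp only [qi, zpow_sub₀ hq0, zpow_natCast, zpow_one, om, wt]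
    split_ifs <;> first | omega | (field_simp; ring)
  linear_combination om X.q c b * hgr.1 + om X.q c b * hgr.2 + om X.q c b * hg0 +
    X.eps b (d + 1) * hlast

theorem slide_C2 {f : ℕ × ℕ → F} (hf : X.C2 f) :
    X.C2 (fun p => ∑ a ∈ range X.N, (X.w1 p.2 a * om X.q p.1 a) * f (a, p.1)) := by
  refine Sp.map (fun _ => range X.N) (fun (p : ℕ × ℕ) a => X.w1 p.2 a * om X.q p.1 a)
    (fun p a => (a, p.1)) ?_ ?_ hf
  · rintro ⟨b, c⟩ ⟨h1, h2, h3⟩ a ha h0
    refine ⟨?_, mem_range.mp ha, h2⟩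
    rintro (rfl : a = b)
    simp [om] at h0
  have tail : ∀ (n1 n2 : ℕ) (d : ℤ), (n1 + n2 : ℕ) ≤ d → n2 ≤ n1 → 0 < n1 →
      X.C2 (fun p => X.q * qi X.q ((n1 + n2 : ℕ) - 1) * X.eps p.1 (d + 1) +
      ∑ i ∈ range n1, X.q ^ (n1 + n2 + 1 - i) * qi X.q (d - (n1 + n2 : ℕ) + i) * X.e (d + 1 - i) *
        X.eps p.1 i +
      ∑ i ∈ range n2, X.q ^ (i + 2) * qi X.q ((n1 + n2 : ℕ) - 2 - i) * X.e (i + 1) *
        X.eps p.1 (d - i)) := by
    intro n1 n2 d h1 h2 h3
    refine Sp.add (Sp.add ((X.eps_C2 _).smul _ (X.L.mul_mem X.hq (X.qp (by omega))))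
      (Sp.sum _ _ fun i _ => (X.eps_C2 _).smul _ (X.L.mul_mem (X.L.mul_mem (X.np _)
        (X.qp (by omega))) (X.e_mem _))))
      (Sp.sum _ _ fun i hi => (X.eps_C2 _).smul _ (X.L.mul_mem (X.L.mul_mem (X.np _)
        (X.qp ?_)) (X.e_mem _)))
    have := mem_range.mp hi
    omega
  rintro f (⟨j, d, h, rfl⟩ | ⟨j, d, h, rfl⟩ | ⟨d, rfl⟩)
  · refine ((Sp.gen (Or.inr (Or.inl ⟨j, d + 1, by omega, rfl⟩))).add
      (tail (j + 1) j d (by omega) (by omega) (by omega))).congr ?_
    rintro ⟨b, c⟩ ⟨h1, h2, h3⟩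
    have key := X.slide_gen (j + 1) j d h2 h3 h1 (Or.inr rfl) (by omega)
    have hL : ∑ a ∈ range X.N, X.w1 c a * om X.q b a * X.GG j d a b =
      ∑ a ∈ range X.N, X.w1 c a *
      (∑ i ∈ range (j + 1), wt (X.q ^ (j + 1 + j - i)) (X.q ^ i) b a *
        (X.eps a (d - i) * X.eps b i) +
       ∑ i ∈ range j, wt (X.q ^ (i + 1)) (X.q ^ (j + 1 + j - (i + 1))) b a *
        (X.eps a i * X.eps b (d - i))) := by
      refine sum_congr rfl fun a _ => ?_
      rw [mul_assoc, sum_range_succ, add_right_comm, ← sum_add_distrib, GG, mul_add, mul_sum,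
        show j + 1 + j - j = j + 1 by omega]
      congr 2
      · refine sum_congr rfl fun i hi => ?_
        have hi' := mem_range.mp hi
        rw [show j + 1 + j - i = 2 * j - i + 1 by omega, show j + 1 + j - (i + 1) = 2 * j - i by omega]
        simp only [om, wt]
        split_ifs with k1 k2
        · rw [max_eq_right k1.le, min_eq_left k1.le]; ring
        · ring
        · rw [max_eq_left (by omega), min_eq_right (by omega)]; ring
      · simp only [om, wt]
        split_ifs <;> ring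
    have hR : X.SS j (d + 1) (min b c) (max b c) =
      ∑ i ∈ range (j + 1), wt (X.q ^ (j + 1 + j - i)) (X.q ^ i) b c *
        (X.eps c (d + 1 - i) * X.eps b i) +
       ∑ i ∈ range j, wt (X.q ^ (i + 1)) (X.q ^ (j + 1 + j - (i + 1))) b c *
        (X.eps c (i + 1 : ℕ) * X.eps b (d + 1 - (i + 1 : ℕ))) +
        wt 1 (X.q ^ (j + 1 + j)) b c * X.eps b (d + 1) := by
      rw [SS, sum_add_distrib, show j + 1 + j = 2 * j + 1 by ring]
      simp only [wt]
      split_ifs with k1 k2
      · rw [max_eq_left k1.le, min_eq_right k1.le, sum_range_succ']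
        simp only [eps_zero, Nat.cast_zero, sub_zero, pow_zero, mul_comm (X.eps c _)]
        ring
      · exact absurd k2.symm h1
      · rw [max_eq_right (by omega), min_eq_left (by omega), sum_range_succ' _ j]
        rw [sum_range_succ' (fun i => X.q ^ (2 * j + 1 - i) * (X.eps c i * X.eps b (d + 1 - i)))]
        simp only [eps_zero, Nat.cast_zero, sub_zero, Nat.sub_zero]
        ring
    simp only
    rw [hL, key, hR]; ring
  · refine ((Sp.gen (Or.inl ⟨j + 1, d + 1, by push_cast; omega, rfl⟩)).add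
      (tail (j + 1) (j + 1) d (by omega) (by omega) (by omega))).congr ?_
    rintro ⟨b, c⟩ ⟨h1, h2, h3⟩
    have key := X.slide_gen (j + 1) (j + 1) d h2 h3 h1 (Or.inl rfl) (by omega)
    have hL : ∑ a ∈ range X.N, X.w1 c a * om X.q b a * X.SS j d (min a b) (max a b) =
      ∑ a ∈ range X.N, X.w1 c a *
      (∑ i ∈ range (j + 1), wt (X.q ^ (j + 1 + (j + 1) - i)) (X.q ^ i) b a *
        (X.eps a (d - i) * X.eps b i) +
       ∑ i ∈ range (j + 1), wt (X.q ^ (i + 1)) (X.q ^ (j + 1 + (j + 1) - (i + 1))) b a *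
        (X.eps a i * X.eps b (d - i))) := by
      refine sum_congr rfl fun a _ => ?_
      rw [mul_assoc, ← sum_add_distrib, SS, mul_sum]
      congr 1
      refine sum_congr rfl fun i hi => ?_
      have hi' := mem_range.mp hi
      rw [show j + 1 + (j + 1) - i = 2 * j + 1 - i + 1 by omega,
        show j + 1 + (j + 1) - (i + 1) = 2 * j + 1 - i by omega]
      simp only [om, wt]
      split_ifs with k1 k2
      · rw [max_eq_right k1.le, min_eq_left k1.le]; ring
      · ring
      · rw [max_eq_left (by omega), min_eq_right (by omega)]; ring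
    have hR : X.GG (j + 1) (d + 1) b c =
      ∑ i ∈ range (j + 1), wt (X.q ^ (j + 1 + (j + 1) - i)) (X.q ^ i) b c *
        (X.eps c (d + 1 - i) * X.eps b i) +
       ∑ i ∈ range (j + 1), wt (X.q ^ (i + 1)) (X.q ^ (j + 1 + (j + 1) - (i + 1))) b c *
        (X.eps c (i + 1 : ℕ) * X.eps b (d + 1 - (i + 1 : ℕ))) +
        wt 1 (X.q ^ (j + 1 + (j + 1))) b c * X.eps b (d + 1) := by
      rw [GG, sum_add_distrib, show j + 1 + (j + 1) = 2 * (j + 1) by ring]
      simp only [wt]
      split_ifs with k1 k2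
      · rw [max_eq_left k1.le, min_eq_right k1.le]
        have t1 := sum_range_sub (fun i => X.q ^ i * (X.eps b (d + 1 - i) * X.eps c i)) (j + 1)
        rw [sum_sub_distrib] at t1
        simp only [eps_zero, Nat.cast_zero, sub_zero, pow_zero, mul_comm (X.eps c _)] at t1 ⊢
        linear_combination -t1
      · exact absurd k2.symm h1
      · rw [max_eq_right (by omega), min_eq_left (by omega)]
        have t1 := sum_range_sub (fun i => X.q ^ (2 * (j + 1) - i) *
          (X.eps c i * X.eps b (d + 1 - i))) (j + 1)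
        rw [sum_sub_distrib, show 2 * (j + 1) - (j + 1) = j + 1 by omega] at t1
        simp only [eps_zero, Nat.cast_zero, sub_zero, Nat.sub_zero] at t1 ⊢
        linear_combination -t1
    simp only
    rw [hL, key, hR]; ring
  · rcases lt_or_ge d 0 with hd | hd
    · refine Sp.zero.congr fun p _ => ?_
      simp [X.yy_neg _ _ hd]
    refine ((Sp.gen (Or.inr (Or.inr ⟨d + 1, rfl⟩))).add ((X.eps_C2 (d + 1)).smul _
      (X.L.mul_mem X.hq (X.qp hd)))).congr ?_
    rintro ⟨b, c⟩ ⟨h1, h2, h3⟩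
    exact (X.slide_yy d h3).symm

end Ctx

end Pool.Agent.P.MP_389f6f_co
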