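import Pool.Agent.P.MP_389f6f_co.KS4
import Pool.Agent.P.MP_389f6f_co.Slide

set_option autoImplicit false

namespace Pool.Agent.P.MP_389f6f_co
open Finset

theorem sum_pc_succ {M : Type*} [AddCommMonoid M] (N k : ℕ) (f : Finset ℕ → M) :
    ∑ S ∈ powersetCard (k + 1) (range (N + 1)), f S =
      ∑ S ∈ powersetCard (k + 1) (range N), f S +
        ∑ S ∈ powersetCard k (range N), f (insert N S) := by
  rw [range_add_one, powersetCard_succ_insert notMem_range_self, sum_union, sum_image]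
  · intro T hT T' hT' h
    have h1 : N ∉ T := fun h => by simpa using (mem_powersetCard.mp hT).1 h
    have h2 : N ∉ T' := fun h => by simpa using (mem_powersetCard.mp hT').1 h
    rw [← erase_insert h1, ← erase_insert h2]
    exact congrArg (fun S => Finset.erase S N) h
  · rw [disjoint_left]
    intro T hT hT'
    obtain ⟨S, _, rfl⟩ := mem_image.mp hT'
    have := (mem_powersetCard.mp hT).1 (mem_insert_self N S)
    simp at this

theorem sum_pc_one {M : Type*} [AddCommMonoid M] (N : ℕ) (f : Finset ℕ → M) :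
    ∑ S ∈ powersetCard 1 (range N), f S = ∑ a ∈ range N, f {a} := by
  rw [powersetCard_one, sum_map]; rfl

theorem sum_pc_two {M : Type*} [AddCommMonoid M] (N : ℕ) (f : Finset ℕ → M) :
    ∑ S ∈ powersetCard 2 (range N), f S = ∑ b ∈ range N, ∑ a ∈ range b, f {b, a} := by
  induction N with
  | zero => rw [powersetCard_eq_empty.mpr (by simp)]; simp
  | succ N ih => rw [sum_pc_succ, ih, sum_pc_one, sum_range_succ]

/-- Gaussian binomial coefficients. -/
def bet {F : Type*} [CommRing F] (q : F) : ℕ → ℕ → F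
  | 0, _ => 1
  | _ + 1, 0 => 1
  | t + 1, m + 1 => q ^ (t + 1) * bet q (t + 1) m + bet q t (m + 1)

namespace Ctx
variable {F : Type*} [Field F] (X : Ctx F)

theorem bet_mem (t m : ℕ) : bet X.q t m ∈ X.L := by
  induction t generalizing m with
  | zero => rw [bet]; exact X.L.one_mem
  | succ t ih =>
    induction m with
    | zero => rw [bet]; exact X.L.one_mem
    | succ m ihm => rw [bet]; exact X.L.add_mem (X.L.mul_mem (X.np _) ihm) (ih _)

def omS (S : Finset ℕ) (s : ℕ) : F := ∏ τ ∈ S, om X.q τ s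

theorem merge (N : ℕ) (w : ℕ → F) (t m : ℕ) :
    ∑ S ∈ powersetCard m (range N), (∏ s ∈ S, w s) * es N (fun s => w s * X.omS S s) t =
      bet X.q t m * es N w (t + m : ℕ) := by
  induction N generalizing t m with
  | zero =>
    rcases m with _ | m
    · rcases t with _ | t <;> simp [bet, es, omS]
    · rw [powersetCard_eq_empty.mpr (by simp), sum_empty, es, if_neg (by omega), mul_zero]
  | succ N ih =>
    rcases m with _ | m
    · rcases t with _ | t <;> simp [bet, omS]
    have A : ∀ S ∈ powersetCard (m + 1) (range N),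
        (∏ s ∈ S, w s) * es (N + 1) (fun s => w s * X.omS S s) t =
        (∏ s ∈ S, w s) * es N (fun s => w s * X.omS S s) t +
          w N * ((∏ s ∈ S, w s) * es N (fun s => w s * X.omS S s) (t - 1)) := by
      intro S hS
      have : X.omS S N = 1 := prod_eq_one fun τ hτ => by
        have := mem_range.mp ((mem_powersetCard.mp hS).1 hτ)
        rw [om, if_neg (by omega), if_neg (by omega)]
      rw [es, this]; ring
    have B : ∀ S ∈ powersetCard m (range N),
        (∏ s ∈ insert N S, w s) * es (N + 1) (fun s => w s * X.omS (insert N S) s) t =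
        w N * X.q ^ t * ((∏ s ∈ S, w s) * es N (fun s => w s * X.omS S s) t) := by
      intro S hS
      have h1 : N ∉ S := fun h => by simpa using (mem_powersetCard.mp hS).1 h
      have h2 : X.omS (insert N S) N = 0 := by rw [omS, prod_insert h1, om]; simp
      rw [es, h2, prod_insert h1, es_congr N (g := fun s => X.q * (w s * X.omS S s)) fun s hs => by
        rw [omS, prod_insert h1, om, if_pos hs, omS]; ring, es_smul _ _ X.q0, zpow_natCast]
      ring
    rw [sum_pc_succ, sum_congr rfl A, sum_congr rfl B, sum_add_distrib, ← mul_sum, ← mul_sum, ih, ih,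
      es, show ((t + (m + 1) : ℕ) : ℤ) - 1 = (t + m : ℕ) by push_cast; ring]
    rcases t with _ | t
    · rw [sum_eq_zero fun S _ => by rw [es_neg _ _ _ (by simp), mul_zero]]
      simp [bet]
    · rw [show ((t + 1 : ℕ) : ℤ) - 1 = t by push_cast; ring, ih, bet,
        show t + (m + 1) = t + 1 + m by ring]
      ring

def gP (Ψ : (ℕ → F) → F) : Prop :=
  ∃ t : ℕ, (Ψ = fun w => es X.N w t) ∨ (∃ k, Ψ = X.K1 k t) ∨ ∃ Φ, X.g2s Φ ∧ Ψ = X.K2 Φ t

abbrev PreF := Sp X.L (fun w : ℕ → F => w 0 = 0) X.gP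

theorem PreF_out {Ψ : (ℕ → F) → F} (h : X.PreF Ψ) : X.C2s (fun p => Ψ (X.w2 p.1 p.2)) := by
  refine Sp.comp (fun p : ℕ × ℕ => X.w2 p.1 p.2) (fun p _ => by simp [w2, X.x0]) ?_ h
  rintro f ⟨t, rfl | ⟨k, rfl⟩ | ⟨Φ, hΦ, rfl⟩⟩
  · exact X.yy_C2s t
  · exact X.K1_pos k t
  · exact X.K2_pos hΦ t

theorem PreF_step {Ψ : (ℕ → F) → F} (h : X.PreF Ψ) (m : ℕ) :
    X.PreF (fun w => ∑ S ∈ powersetCard m (range X.N),
      (∏ s ∈ S, w s) * Ψ (fun s => w s * X.omS S s)) := by
  refine Sp.map (fun _ => powersetCard m (range X.N)) (fun (w : ℕ → F) S => ∏ s ∈ S, w s)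
    (fun (w : ℕ → F) S s => w s * X.omS S s) (fun w hw S _ _ => by simp only [hw, zero_mul]) ?_ h
  rintro f ⟨t, rfl | ⟨k, rfl⟩ | ⟨Φ, hΦ, rfl⟩⟩
  · exact ((Sp.gen ⟨t + m, Or.inl rfl⟩).smul _ (X.bet_mem t m)).congr fun w _ =>
      (X.merge _ w t m).symm
  · refine ((Sp.gen ⟨t + m, Or.inr (Or.inl ⟨k, rfl⟩)⟩).smul _ (X.bet_mem t m)).congr fun w _ => ?_
    simp only [K1, mul_sum]
    rw [sum_comm]
    refine sum_congr rfl fun a _ => ?_
    have := X.merge X.N (fun s => w s * om X.q s a) t m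
    rw [show bet X.q t m * (w a * (X.eps a k * es X.N (fun s => w s * om X.q s a) (t + m : ℕ))) =
      w a * X.eps a k * (bet X.q t m * es X.N (fun s => w s * om X.q s a) (t + m : ℕ)) by ring,
      ← this, mul_sum]
    refine sum_congr rfl fun S _ => ?_
    rw [prod_mul_distrib, show (fun s => w s * X.omS S s * om X.q s a) =
      fun s => w s * om X.q s a * X.omS S s by funext s; ring, omS]
    ring
  · refine ((Sp.gen ⟨t + m, Or.inr (Or.inr ⟨Φ, hΦ, rfl⟩)⟩).smul _ (X.bet_mem t m)).congr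
      fun w _ => ?_
    simp only [K2, mul_sum]
    rw [sum_comm]
    refine sum_congr rfl fun b _ => ?_
    rw [sum_comm]
    refine sum_congr rfl fun a _ => ?_
    have := X.merge X.N (fun s => w s * om X.q s a * om X.q s b) t m
    rw [show bet X.q t m * (w a * w b * (Φ (a, b) *
      es X.N (fun s => w s * om X.q s a * om X.q s b) (t + m : ℕ))) =
      w a * w b * Φ (a, b) * (bet X.q t m *
        es X.N (fun s => w s * om X.q s a * om X.q s b) (t + m : ℕ)) by ring,
      ← this, mul_sum]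
    refine sum_congr rfl fun S _ => ?_
    rw [prod_mul_distrib, prod_mul_distrib,
      show (fun s => w s * X.omS S s * om X.q s a * om X.q s b) =
      fun s => w s * om X.q s a * om X.q s b * X.omS S s by funext s; ring, omS, omS]
    ring

theorem PreF_one {f : ℕ × ℕ → F} (h : X.C2s f) :
    X.PreF (fun w => ∑ a ∈ range X.N, w a * f (0, a)) := by
  refine Sp.map (fun _ => range X.N) (fun (w : ℕ → F) a => w a) (fun _ a => a)
    (fun w hw a ha h0 => ?_) ?_ (X.C2s_C1 h)
  · refine ⟨Nat.pos_of_ne_zero ?_, mem_range.mp ha⟩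
    rintro rfl; exact h0 hw
  · rintro f ⟨k, rfl⟩
    refine (Sp.gen ⟨0, Or.inr (Or.inl ⟨k, rfl⟩)⟩).congr fun w _ => ?_
    simp [K1, es_zero]

theorem PreF_two {f : ℕ × ℕ → F} (h : X.C2s f) :
    X.PreF (fun w => ∑ b ∈ range X.N, ∑ a ∈ range b, w a * w b * f (a, b)) := by
  have := Sp.map (valid' := fun w : ℕ → F => w 0 = 0) (gen' := X.gP)
    (fun _ => (range X.N).sigma fun b => range b) (fun w p => w p.2 * w p.1)
    (fun _ p => (p.2, p.1)) (fun w hw p hp _ => ?_) ?_ h
  · exact this.congr fun w _ => by rw [sum_sigma]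
  · simp only [mem_sigma, mem_range] at hp
    exact ⟨hp.2, hp.1⟩
  · intro f hf
    refine (Sp.gen ⟨0, Or.inr (Or.inr ⟨f, hf, rfl⟩)⟩).congr fun w _ => ?_
    simp [K2, es_zero, sum_sigma]

def Om (A : Finset ℕ) (γ : ℕ → Finset ℕ) (s : ℕ) : F := X.x s * ∏ j ∈ A, X.omS (γ j) s

/-- iterated sum over the colour sets of the first vertices. -/
def IS (w R : ℕ → ℕ) : ℕ → (ℕ → Finset ℕ) → F
  | 0, _ => 1
  | i + 1, γ => ∑ S ∈ powersetCard (w i) (range X.N),
      (∏ s ∈ S, X.Om (Ico (i + 1) (R (i + 1))) γ s) * IS w R i (Function.update γ i S)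

theorem Om_update {i r : ℕ} (h : i < r) (γ : ℕ → Finset ℕ) (S : Finset ℕ) :
    X.Om (Ico i r) (Function.update γ i S) = fun s => X.Om (Ico (i + 1) r) γ s * X.omS S s := by
  funext s
  rw [Om, Om, prod_eq_prod_Ico_succ_bot h, Function.update_self,
    prod_congr rfl fun j hj => by
      rw [Function.update_of_ne (by have := (mem_Ico.mp hj).1; omega)]]
  ring

theorem Om_self (i : ℕ) (γ : ℕ → Finset ℕ) : X.Om (Ico i i) γ = X.x := by
  funext s; simp [Om]

def Pre (w R : ℕ → ℕ) (i : ℕ) : Prop :=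
  ∃ Ψ, X.PreF Ψ ∧ ∀ γ, X.IS w R i γ = Ψ (X.Om (Ico i (R i)) γ)

def Half (w R : ℕ → ℕ) (i : ℕ) : Prop :=
  w i = 1 ∧ i + 2 ≤ R i ∧ ∃ Φ, X.C2 Φ ∧ ∀ γ b, γ i = {b} →
    X.IS w R i γ = ∑ a ∈ range X.N, X.Om (Ico i (R i)) γ a * Φ (a, b)

theorem sum_sq (N : ℕ) (f : ℕ → ℕ → F) (h : ∀ a, f a a = 0) :
    ∑ b ∈ range N, ∑ a ∈ range N, f a b = ∑ b ∈ range N, ∑ a ∈ range b, (f a b + f b a) := by
  induction N with
  | zero => simp
  | succ N ih =>
    simp only [sum_range_succ, sum_add_distrib] at ih ⊢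
    rw [ih, h]; ring

theorem step (w R : ℕ → ℕ) (i : ℕ) (hw : ∀ j, 1 ≤ w j) (h0 : i ≤ R i) (h1 : i + 1 ≤ R (i + 1))
    (hm : R i ≤ R (i + 1)) (hj : R i < R (i + 1) → ∑ j ∈ Ico i (R i), w j ≤ 2)
    (h : X.Pre w R i ∨ X.Half w R i) : X.Pre w R (i + 1) ∨ X.Half w R (i + 1) := by
  have two : R i < R (i + 1) → i + 2 ≤ R i → R i = i + 2 ∧ w i = 1 ∧ w (i + 1) = 1 := by
    intro a b
    have := hj a
    rw [sum_eq_sum_Ico_succ_bot (by omega), sum_eq_sum_Ico_succ_bot (by omega)] at this
    have h2 := hw i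
    have h3 := hw (i + 1)
    refine ⟨?_, by omega, by omega⟩
    by_contra hc
    rw [sum_eq_sum_Ico_succ_bot (by omega)] at this
    have := hw (i + 1 + 1)
    omega
  have om2 : ∀ (γ : ℕ → Finset ℕ) (b c : ℕ), γ (i + 1) = {c} →
      X.Om (Ico i (i + 2)) (Function.update γ i {b}) = X.w2 c b := by
    intro γ b c hc
    rw [X.Om_update (by omega)]
    funext s
    simp [Om, omS, hc, w2]
  rcases h with ⟨Ψ, hΨ, h⟩ | ⟨hw1, hR, Φ, hΦ, h⟩
  · rcases hm.eq_or_lt with he | hlt
    · left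
      refine ⟨_, X.PreF_step hΨ (w i), fun γ => ?_⟩
      rw [IS]
      refine sum_congr rfl fun S _ => ?_
      rw [h, he, X.Om_update (by omega)]
    rcases h0.eq_or_lt with he | h2
    · left
      have hc : Ψ X.x ∈ X.L := by
        have := X.C2s_L (X.PreF_out hΨ)
        simpa only [w2_ph, w1_ph1] using this
      refine ⟨_, (Sp.gen ⟨w i, Or.inl rfl⟩).smul _ hc, fun γ => ?_⟩
      rw [IS, es_eq_sum, mul_sum]
      refine sum_congr rfl fun S _ => ?_
      rw [h, ← he, Om_self, mul_comm]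
    rcases (show i + 1 ≤ R i from h2).eq_or_lt with he | h3
    · left
      have := hj hlt
      rw [← he, Nat.Ico_succ_singleton, sum_singleton] at this
      rcases (hw i).eq_or_lt with e1 | e2
      · refine ⟨_, X.PreF_one (X.PreF_out hΨ), fun γ => ?_⟩
        rw [IS, ← e1, sum_pc_one]
        refine sum_congr rfl fun a _ => ?_
        rw [h, ← he, X.Om_update (by omega), Om_self, prod_singleton, w2_ph]
        congr 2
        funext s; simp [omS, w1]
      · refine ⟨_, X.PreF_two (X.PreF_out hΨ), fun γ => ?_⟩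
        rw [IS, show w i = 2 by omega, sum_pc_two]
        refine sum_congr rfl fun b _ => sum_congr rfl fun a ha => ?_
        have hab : b ≠ a := by have := mem_range.mp ha; omega
        rw [h, ← he, X.Om_update (by omega), Om_self, prod_pair hab, mul_comm (X.Om _ _ b)]
        congr 2
        funext s; simp only [omS, w2, prod_pair hab]; ring
    · right
      obtain ⟨e1, e2, e3⟩ := two hlt h3
      refine ⟨e3, by omega, _, X.C2s_C2 (X.PreF_out hΨ), fun γ c hc => ?_⟩
      rw [IS, e2, sum_pc_one]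
      refine sum_congr rfl fun b _ => ?_
      rw [h, e1, om2 γ b c hc, prod_singleton]
      congr 2
      funext s
      rcases le_total b c with h | h <;> simp [h, w2]; ring
  · rcases hm.eq_or_lt with he | hlt
    · left
      refine ⟨_, X.PreF_two (X.C2_sym hΦ), fun γ => ?_⟩
      rw [IS, hw1, sum_pc_one, sum_congr rfl fun b _ => by
        rw [h _ b (Function.update_self ..), he, X.Om_update (by omega), prod_singleton, mul_sum],
        sum_sq _ _ fun a => by simp [omS, om]]
      refine sum_congr rfl fun b _ => sum_congr rfl fun a ha => ?_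
      have := mem_range.mp ha
      simp only [omS, prod_singleton, om]
      rw [if_pos this, if_neg (by omega), if_neg (by omega)]
      ring
    · right
      obtain ⟨e1, e2, e3⟩ := two hlt hR
      refine ⟨e3, by omega, _, X.slide_C2 hΦ, fun γ c hc => ?_⟩
      rw [IS, e2, sum_pc_one]
      refine sum_congr rfl fun b _ => ?_
      rw [h _ b (Function.update_self ..), e1, om2 γ b c hc, prod_singleton]
      rfl

theorem IS_mem (w R : ℕ → ℕ) (k : ℕ) (hw : ∀ j, 1 ≤ w j) (h0 : R 0 = 0)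
    (h1 : ∀ i < k, i + 1 ≤ R (i + 1)) (hm : ∀ i < k, R i ≤ R (i + 1)) (hk : R k = k)
    (hj : ∀ i < k, R i < R (i + 1) → ∑ j ∈ Ico i (R i), w j ≤ 2) (γ : ℕ → Finset ℕ) :
    X.IS w R k γ ∈ X.L := by
  have key : ∀ i ≤ k, X.Pre w R i ∨ X.Half w R i := by
    intro i hi
    induction i with
    | zero =>
      left
      exact ⟨_, Sp.gen ⟨0, Or.inl rfl⟩, fun γ => by simp [IS, es_zero]⟩
    | succ i ih =>
      refine X.step w R i hw ?_ (h1 i hi) (hm i hi) (hj i hi) (ih (by omega))
      rcases i with _ | i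
      · omega
      · exact h1 i (by omega)
  rcases key k le_rfl with ⟨Ψ, hΨ, h⟩ | ⟨_, h, _⟩
  · rw [h, hk, Om_self]
    have := X.C2s_L (X.PreF_out hΨ)
    simpa only [w2_ph, w1_ph1] using this
  · omega

end Ctx

end Pool.Agent.P.MP_389f6f_co
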