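import Pool.Agent.P.MP_389f6f_co.SDefs

/-! Elementary facts for the species part. -/

set_option autoImplicit false

namespace Pool.Agent.P.MP_389f6f_co.Sp
open MvPolynomial Finset

namespace BasA
variable {Ω I : Type} [Fintype Ω] [DecidableEq Ω] [Fintype I] [DecidableEq I] (Z : Qv Ω I)

omit [Fintype Ω] [DecidableEq Ω] in
theorem sum_ty {M : Type} [AddCommMonoid M] (A : Finset Ω) (F : I → M) :
    ∑ s ∈ A, F (Z.ty s) = ∑ i, Z.dim A i • F i := by
  rw [← Finset.sum_fiberwise (s := A) (g := Z.ty)]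
  refine sum_congr rfl fun i _ => ?_
  rw [Qv.dim, sum_congr rfl (g := fun _ => F i), sum_const]
  intro s hs
  rw [(mem_filter.1 hs).2]

omit [Fintype Ω] [DecidableEq Ω] in
theorem th_dim (A : Finset Ω) : Z.th A = thd Z.θ (Z.dim A) := by
  rw [Qv.th, sum_ty Z A Z.θ, thd]
  simp only [nsmul_eq_mul]

omit [Fintype Ω] [Fintype I] in
theorem dim_union (A C : Finset Ω) (h : Disjoint A C) :
    Z.dim (A ∪ C) = Z.dim A + Z.dim C := by
  funext i
  simp only [Qv.dim, Pi.add_apply, filter_union]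
  exact card_union_of_disjoint (disjoint_filter_filter h)

omit [Fintype Ω] [DecidableEq Ω] in
theorem dim_sum (A : Finset Ω) : ∑ i, Z.dim A i = A.card := by
  have := sum_ty Z A (fun _ => (1 : ℕ))
  simpa using this.symm

omit [Fintype Ω] [DecidableEq Ω] [Fintype I] in
theorem dim_map (g : Equiv.Perm Ω) (A : Finset Ω) (hg : Z.TP g) :
    Z.dim (A.map g.toEmbedding) = Z.dim A := by
  funext i
  simp only [Qv.dim, filter_map, card_map]
  congr 1
  refine filter_congr fun s _ => ?_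
  simp only [Function.comp, Equiv.coe_toEmbedding, hg s]

omit [Fintype Ω] [DecidableEq Ω] [Fintype I] in
theorem dim_fib (B : Finset Ω) (κ : Ω → ℕ) :
    ∑ c ∈ B.image κ, Z.dim (fib B κ c) = Z.dim B := by
  funext i
  rw [Finset.sum_apply]
  simp only [Qv.dim, fib]
  rw [card_eq_sum_card_fiberwise (s := B.filter fun s => Z.ty s = i) (t := B.image κ) (f := κ)]
  · refine sum_congr rfl fun c _ => ?_
    rw [filter_comm]
  · intro s hs
    exact mem_coe.2 (mem_image_of_mem κ (mem_filter.1 (mem_coe.1 hs)).1)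

omit [Fintype Ω] [DecidableEq Ω] in
theorem arr_dim (A C : Finset Ω) :
    arr Z.a (Z.dim A) (Z.dim C) = ∑ s ∈ A, ∑ s' ∈ C, Z.a (Z.ty s) (Z.ty s') := by
  rw [sum_ty Z A (fun i => ∑ s' ∈ C, Z.a i (Z.ty s')), arr]
  refine sum_congr rfl fun i _ => ?_
  rw [sum_ty Z C (fun j => Z.a i j), smul_sum]
  refine sum_congr rfl fun j _ => ?_
  simp only [smul_eq_mul, mul_assoc]

omit [Fintype Ω] [DecidableEq Ω] in
theorem hom_fac (s s' : Ω) (n : ℕ) : ((X s' - X s : RR Ω) ^ n).IsHomogeneous n := by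
  have := ((isHomogeneous_X ℚ s').sub (isHomogeneous_X ℚ s)).pow n
  simpa using this

omit [Fintype Ω] [DecidableEq Ω] in
theorem ee_hom (A C : Finset Ω) : (Z.ee A C).IsHomogeneous (arr Z.a (Z.dim A) (Z.dim C)) := by
  rw [arr_dim]
  exact IsHomogeneous.prod _ _ _ fun s _ => IsHomogeneous.prod _ _ _ fun s' _ => hom_fac s s' _

omit [Fintype Ω] [DecidableEq Ω] in
theorem supp_fac (B : Finset Ω) (s s' : Ω) (hs : s ∈ B) (hs' : s' ∈ B) (n : ℕ) :
    (X s' - X s : RR Ω) ^ n ∈ supported ℚ (B : Set Ω) :=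
  Subalgebra.pow_mem _ (Subalgebra.sub_mem _ (X_mem_supported.2 (mem_coe.2 hs'))
    (X_mem_supported.2 (mem_coe.2 hs))) n

omit [Fintype Ω] [DecidableEq Ω] [Fintype I] [DecidableEq I] in
theorem ee_supp (A C B : Finset Ω) (hA : A ⊆ B) (hC : C ⊆ B) :
    Z.ee A C ∈ supported ℚ (B : Set Ω) :=
  Subalgebra.prod_mem _ fun s hs => Subalgebra.prod_mem _ fun s' hs' =>
    supp_fac B s s' (hA hs) (hC hs') _

omit [Fintype Ω] [DecidableEq Ω] [Fintype I] [DecidableEq I] in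
theorem ee_dvd (A A' C C' : Finset Ω) (hA : A ⊆ A') (hC : C ⊆ C') : Z.ee A C ∣ Z.ee A' C' :=
  (Finset.prod_dvd_prod_of_dvd _ _ fun _ _ => Finset.prod_dvd_prod_of_subset _ _ _ hC).trans
    (Finset.prod_dvd_prod_of_subset _ _ _ hA)

omit [Fintype Ω] [DecidableEq Ω] [Fintype I] [DecidableEq I] in
theorem ee_ren (g : Equiv.Perm Ω) (A C : Finset Ω) (hg : Z.TP g) :
    rename g (Z.ee A C) = Z.ee (A.map g.toEmbedding) (C.map g.toEmbedding) := by
  simp only [Qv.ee, map_prod, prod_map, map_pow, map_sub, rename_X, Equiv.coe_toEmbedding, hg _]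

theorem D_one (h : S_TAY Ω) (v : Ω → ℚ) : Dv v (1 : RR Ω) = 0 := by
  have := h.leib v 1 1
  simpa using this

theorem D_pow (h : S_TAY Ω) (v : Ω → ℚ) (f : RR Ω) (hf : Dv v f = 0) (n : ℕ) :
    Dv v (f ^ n) = 0 := by
  induction n with
  | zero => simpa using D_one h v
  | succ n ih => rw [pow_succ, h.leib, ih, hf]; simp

theorem D_prod (h : S_TAY Ω) (v : Ω → ℚ) (A : Finset Ω) (f : Ω → RR Ω)
    (hf : ∀ s ∈ A, Dv v (f s) = 0) : Dv v (∏ s ∈ A, f s) = 0 := by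
  refine Finset.prod_induction f (fun x => Dv v x = 0) (fun x y hx hy => ?_) (D_one h v) hf
  rw [h.leib, hx, hy]; simp

omit [Fintype I] [DecidableEq I] in
theorem ee_D (h : S_TAY Ω) (v : Ω → ℚ) (A C : Finset Ω) (hv : ∀ s ∈ A, ∀ s' ∈ C, v s = v s') :
    Dv v (Z.ee A C) = 0 := by
  refine D_prod h v _ _ fun s hs => D_prod h v _ _ fun s' hs' => D_pow h v _ ?_ _
  rw [map_sub, h.dX, h.dX, hv s hs s' hs', sub_self]

omit [Fintype Ω] [DecidableEq Ω] in
theorem homI_span (S : Set (RR Ω)) (hS : ∀ f ∈ S, ∃ n, f.IsHomogeneous n) :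
    HomI (Ideal.span S) := by
  have key : ∀ f ∈ Ideal.span S, ∀ r k, homogeneousComponent k (r * f) ∈ Ideal.span S := by
    intro f hf
    induction hf using Submodule.span_induction with
    | mem g hg =>
      intro r k
      obtain ⟨n, hn⟩ := hS g hg
      rw [← sum_homogeneousComponent r, sum_mul, map_sum]
      refine Ideal.sum_mem _ fun j _ => ?_
      rw [homogeneousComponent_of_mem ((homogeneousComponent_isHomogeneous j r).mul hn)]
      split_ifs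
      · exact Ideal.mul_mem_left _ _ (Ideal.subset_span hg)
      · exact Ideal.zero_mem _
    | zero => intro r k; simp
    | add x y _ _ hx hy =>
      intro r k
      rw [mul_add, map_add]
      exact Ideal.add_mem _ (hx r k) (hy r k)
    | smul a x _ hx =>
      intro r k
      rw [smul_eq_mul, ← mul_assoc]
      exact hx _ k
  intro f hf k
  simpa using key f hf 1 k

omit [Fintype Ω] in
theorem homI (B : Finset Ω) : HomI (Z.JT B) ∧ HomI (Z.JS B) ∧ HomI (Z.JF B) := by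
  refine ⟨homI_span _ ?_, homI_span _ ?_, homI_span _ ?_⟩
  · rintro f ⟨A, _, _, _, rfl⟩
    exact ⟨_, ee_hom Z _ _⟩
  · rintro f ⟨A, _, _, rfl⟩
    exact ⟨_, ee_hom Z _ _⟩
  · rintro f ⟨A, _, _, _, rfl⟩
    exact ⟨_, ee_hom Z _ _⟩

omit [Fintype Ω] [DecidableEq Ω] in
theorem homI_iSup {C : Sort*} (J : C → Ideal (RR Ω)) (hJ : ∀ c, HomI (J c)) :
    HomI (⨆ c, J c) := by
  intro f hf k
  refine Submodule.iSup_induction J (motive := fun f => homogeneousComponent k f ∈ ⨆ c, J c)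
    hf (fun c x hx => Submodule.mem_iSup_of_mem c (hJ c x hx k)) (by simp) fun x y hx hy => ?_
  rw [map_add]
  exact Ideal.add_mem _ hx hy

omit [Fintype Ω] [Fintype I] [DecidableEq I] in
theorem gen (B : Finset Ω) : Gen B (Z.JT B) ∧ Gen B (Z.JS B) ∧ Gen B (Z.JF B) := by
  refine ⟨⟨_, ?_, rfl⟩, ⟨_, ?_, rfl⟩, ⟨_, ?_, rfl⟩⟩
  · rintro f ⟨A, hA, _, _, rfl⟩
    exact ee_supp Z _ _ _ hA sdiff_subset
  · rintro f ⟨A, hA, _, rfl⟩
    exact ee_supp Z _ _ _ hA sdiff_subset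
  · rintro f ⟨A, hA, _, _, rfl⟩
    exact ee_supp Z _ _ _ hA sdiff_subset

omit [Fintype Ω] [Fintype I] [DecidableEq I] in
theorem Jk_span (B : Finset Ω) (κ : Ω → ℕ) : Z.Jk B κ = Ideal.span
    (⋃ c, {f | ∃ A ⊆ fib B κ c, 0 < Z.th A ∧ f = Z.ee A (fib B κ c \ A)}) := by
  rw [Ideal.span_iUnion]
  rfl

omit [Fintype Ω] [Fintype I] [DecidableEq I] in
theorem gen_Jk (B : Finset Ω) (κ : Ω → ℕ) : Gen B (Z.Jk B κ) := by
  refine ⟨_, ?_, Jk_span Z B κ⟩
  intro f hf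
  obtain ⟨c, A, hA, _, rfl⟩ := Set.mem_iUnion.1 hf
  exact ee_supp Z _ _ _ (hA.trans (filter_subset _ _)) (sdiff_subset.trans (filter_subset _ _))

omit [Fintype Ω] [DecidableEq Ω] [Fintype I] [DecidableEq I] in
theorem th_map (g : Equiv.Perm Ω) (A : Finset Ω) (hg : Z.TP g) :
    Z.th (A.map g.toEmbedding) = Z.th A := by
  simp only [Qv.th, sum_map, Equiv.coe_toEmbedding, hg _]

omit [Fintype Ω] [DecidableEq Ω] in
theorem ren_span (g : Equiv.Perm Ω) (S T : Set (RR Ω)) (h : ∀ f ∈ S, rename g f ∈ T) (f : RR Ω)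
    (hf : f ∈ Ideal.span S) : rename g f ∈ Ideal.span T := by
  have : Ideal.span S ≤ (Ideal.span T).comap (rename g : RR Ω →ₐ[ℚ] RR Ω) :=
    Ideal.span_le.2 fun x hx => Ideal.subset_span (h x hx)
  exact this hf

omit [Fintype Ω] [Fintype I] [DecidableEq I] in
theorem J_ren (g : Equiv.Perm Ω) (B : Finset Ω) (f : RR Ω) (hg : Z.TP g) :
    (f ∈ Z.JT B → rename g f ∈ Z.JT (B.map g.toEmbedding)) ∧
    (f ∈ Z.JS B → rename g f ∈ Z.JS (B.map g.toEmbedding)) ∧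
    (f ∈ Z.JF B → rename g f ∈ Z.JF (B.map g.toEmbedding)) := by
  refine ⟨ren_span g _ _ ?_ f, ren_span g _ _ ?_ f, ren_span g _ _ ?_ f⟩
  · rintro _ ⟨A, hA, h1, h2, rfl⟩
    refine ⟨A.map g.toEmbedding, map_subset_map.2 hA, fun h => h1 (map_injective _ h), ?_, ?_⟩
    · rw [← Finset.map_sdiff, th_map Z g _ hg]; exact h2
    · rw [ee_ren Z g _ _ hg, Finset.map_sdiff]
  · rintro _ ⟨A, hA, h2, rfl⟩
    refine ⟨A.map g.toEmbedding, map_subset_map.2 hA, ?_, ?_⟩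
    · rw [th_map Z g _ hg]; exact h2
    · rw [ee_ren Z g _ _ hg, Finset.map_sdiff]
  · rintro _ ⟨A, hA, h1, h2, rfl⟩
    refine ⟨A.map g.toEmbedding, map_subset_map.2 hA, fun h => h1 (map_eq_empty.1 h), ?_, ?_⟩
    · rw [th_map Z g _ hg]; exact h2
    · rw [ee_ren Z g _ _ hg, Finset.map_sdiff]

omit [Fintype Ω] [Fintype I] [DecidableEq I] in
theorem JS_empty : Z.JS ∅ = ⊥ := by
  rw [Qv.JS, Ideal.span_eq_bot]
  rintro f ⟨A, hA, h, rfl⟩
  rw [subset_empty.1 hA] at h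
  simp [Qv.th] at h

omit [Fintype Ω] [DecidableEq Ω] in
theorem fib_empty (B : Finset Ω) (κ : Ω → ℕ) (c : ℕ) (hc : c ∉ B.image κ) : fib B κ c = ∅ :=
  filter_eq_empty_iff.2 fun _ hs h => hc (mem_image.2 ⟨_, hs, h⟩)

omit [Fintype Ω] [Fintype I] [DecidableEq I] in
theorem Jk_eq (B : Finset Ω) (κ : Ω → ℕ) : Z.Jk B κ = ⨆ c ∈ B.image κ, Z.JS (fib B κ c) := by
  refine le_antisymm (iSup_le fun c => ?_) (iSup₂_le fun c _ => le_iSup (fun c => Z.JS (fib B κ c)) c)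
  by_cases hc : c ∈ B.image κ
  · exact le_iSup₂ (f := fun c (_ : c ∈ B.image κ) => Z.JS (fib B κ c)) c hc
  · rw [fib_empty B κ c hc, JS_empty]
    exact bot_le

omit [Fintype Ω] [Fintype I] [DecidableEq I] in
theorem JS_le (B : Finset Ω) (κ : Ω → ℕ) : Z.JS B ≤ Z.Jk B κ := by
  refine Ideal.span_le.2 ?_
  rintro _ ⟨A, hA, h, rfl⟩
  have h1 : Z.th A = ∑ c ∈ A.image κ, Z.th (fib A κ c) :=
    (sum_fiberwise_of_maps_to (fun s hs => mem_image_of_mem κ hs) _).symm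
  have h2 : ∃ c, 0 < Z.th (fib A κ c) := by
    by_contra hn
    push Not at hn
    have := sum_nonpos (s := A.image κ) fun c _ => hn c
    linarith
  obtain ⟨c, hc⟩ := h2
  have h3 : Z.ee (fib A κ c) (fib B κ c \ fib A κ c) ∈ Z.Jk B κ :=
    le_iSup (fun c => Z.JS (fib B κ c)) c
      (Ideal.subset_span ⟨fib A κ c, filter_subset_filter _ hA, hc, rfl⟩)
  refine Ideal.mem_of_dvd _ (ee_dvd Z _ _ _ _ (filter_subset _ _) fun s hs => ?_) h3
  simp only [fib, mem_sdiff, mem_filter] at hs ⊢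
  exact ⟨hs.1.1, fun h => hs.2 ⟨h, hs.1.2⟩⟩

omit [Fintype Ω] [Fintype I] [DecidableEq I] in
theorem Jk_mono (B : Finset Ω) (κ κ' : Ω → ℕ) (h : Crs B κ κ') : Z.Jk B κ' ≤ Z.Jk B κ := by
  refine iSup_le fun c' => (JS_le Z _ κ).trans ?_
  rw [Jk_eq]
  refine iSup₂_le fun c hc => ?_
  obtain ⟨s, hs, rfl⟩ := mem_image.1 hc
  have : fib (fib B κ' c') κ (κ s) = fib B κ (κ s) := by
    ext t
    simp only [fib, mem_filter] at hs ⊢
    exact ⟨fun ht => ⟨ht.1.1, ht.2⟩, fun ht => ⟨⟨ht.1, (h t ht.1 s hs.1 ht.2).trans hs.2⟩, ht.2⟩⟩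
  rw [this]
  exact le_iSup (fun c => Z.JS (fib B κ c)) (κ s)

theorem span_D (h : S_TAY Ω) (v : Ω → ℚ) (S : Set (RR Ω)) (hS : ∀ g ∈ S, Dv v g = 0) (f : RR Ω)
    (hf : f ∈ Ideal.span S) : Dv v f ∈ Ideal.span S := by
  induction hf using Submodule.span_induction with
  | mem g hg => rw [hS g hg]; exact Ideal.zero_mem _
  | zero => simp
  | add x y _ _ hx hy => rw [map_add]; exact Ideal.add_mem _ hx hy
  | smul a x hx' hx =>
    rw [smul_eq_mul, h.leib]
    exact Ideal.add_mem _ (Ideal.mul_mem_left _ _ hx') (Ideal.mul_mem_left _ _ hx)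

omit [Fintype I] [DecidableEq I] in
theorem Jk_D (h : S_TAY Ω) (B : Finset Ω) (κ : Ω → ℕ) (l : List (Ω → ℚ))
    (hl : ∀ v ∈ l, Cst B κ v) : ∀ f ∈ Z.Jk B κ, Dl l f ∈ Z.Jk B κ := by
  induction l with
  | nil => intro f hf; simpa [Dl] using hf
  | cons v l ih =>
    intro f hf
    have h1 := ih (fun w hw => hl w (List.mem_cons_of_mem _ hw)) f hf
    have h2 : Dl (v :: l) f = Dv v (Dl l f) := by simp [Dl]
    rw [h2]
    rw [Jk_span] at h1 ⊢
    refine span_D h v _ (fun g hg => ?_) _ h1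
    obtain ⟨c, A, hA, _, rfl⟩ := Set.mem_iUnion.1 hg
    refine ee_D Z h v _ _ fun s hs s' hs' => ?_
    have a1 := mem_filter.1 (hA hs)
    have a2 := mem_filter.1 (mem_sdiff.1 hs').1
    exact (hl v List.mem_cons_self).2 s a1.1 s' a2.1 (a1.2.trans a2.2.symm)

omit [Fintype Ω] [Fintype I] [DecidableEq I] in
theorem Asym_ren (g : Equiv.Perm Ω) (B : Finset Ω) (f : RR Ω) (hg : Z.TP g) (hf : f ∈ Z.Asym B) :
    rename g f ∈ Z.Asym (B.map g.toEmbedding) := by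
  refine ⟨?_, fun s hs s' hs' h1 h2 => ?_⟩
  · have h0 := mem_supported.1 hf.1
    refine mem_supported.2 fun x hx => ?_
    obtain ⟨y, hy, rfl⟩ := mem_image.1 (vars_rename g f (mem_coe.1 hx))
    exact mem_coe.2 (mem_map_of_mem g.toEmbedding (mem_coe.1 (h0 (mem_coe.2 hy))))
  · obtain ⟨t, ht, rfl⟩ := mem_map.1 hs
    obtain ⟨t', ht', rfl⟩ := mem_map.1 hs'
    simp only [Equiv.coe_toEmbedding] at h1 h2 ⊢
    rw [rename_rename, g.injective.swap_comp, ← rename_rename,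
      hf.2 t ht t' ht' (fun h => h1 (congrArg g h)) (by rw [← hg t, ← hg t', h2]), map_neg]

omit [Fintype Ω] [Fintype I] [DecidableEq I] in
theorem Asym_hom (B : Finset Ω) : HomV (Z.Asym B) := by
  intro f hf k
  refine ⟨?_, fun s hs s' hs' h1 h2 => ?_⟩
  · have h0 := mem_supported.1 hf.1
    refine mem_supported.2 fun x hx => h0 (mem_coe.2 ?_)
    obtain ⟨d, hd, hx⟩ := (mem_vars_iff_mem_support x).1 (mem_coe.1 hx)
    refine (mem_vars_iff_mem_support x).2 ⟨d, ?_, hx⟩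
    rw [mem_support_iff, coeff_homogeneousComponent] at hd
    rw [mem_support_iff]
    intro h
    simp [h] at hd
  · rw [rename_homogeneousComponent, hf.2 s hs s' hs' h1 h2, map_neg]

omit [Fintype Ω] [DecidableEq Ω] [Fintype I] [DecidableEq I] in
theorem ek_hom (B : Finset Ω) (κ : Ω → ℕ) : (Z.ek B κ).IsHomogeneous (Z.r1 B κ) := by
  refine IsHomogeneous.prod _ _ _ fun s _ => IsHomogeneous.prod _ _ _ fun s' _ => ?_
  split_ifs
  · exact hom_fac s s' _
  · exact isHomogeneous_one _ _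

omit [Fintype Ω] [DecidableEq Ω] [Fintype I] [DecidableEq I] in
theorem ek_supp (B : Finset Ω) (κ : Ω → ℕ) : Z.ek B κ ∈ supported ℚ (B : Set Ω) := by
  refine Subalgebra.prod_mem _ fun s hs => Subalgebra.prod_mem _ fun s' hs' => ?_
  split_ifs
  · exact supp_fac B s s' hs hs' _
  · exact Subalgebra.one_mem _

omit [Fintype Ω] [DecidableEq Ω] [Fintype I] [DecidableEq I] in
theorem ek_ren (g : Equiv.Perm Ω) (B : Finset Ω) (κ : Ω → ℕ) (hg : Z.TP g) :
    rename g (Z.ek B κ) = Z.ek (B.map g.toEmbedding) fun s => κ (g⁻¹ s) := by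
  simp only [Qv.ek, map_prod, prod_map, Equiv.coe_toEmbedding, hg _, Equiv.Perm.coe_inv,
    Equiv.symm_apply_apply]
  refine prod_congr rfl fun s _ => prod_congr rfl fun s' _ => ?_
  split_ifs <;> simp

omit [Fintype Ω] [DecidableEq Ω] in
theorem fib_ren (g : Equiv.Perm Ω) (B : Finset Ω) (κ : Ω → ℕ) (c : ℕ) :
    fib (B.map g.toEmbedding) (fun s => κ (g⁻¹ s)) c = (fib B κ c).map g.toEmbedding := by
  simp only [fib, filter_map]
  congr 1
  refine filter_congr fun s _ => ?_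
  simp

omit [Fintype Ω] [Fintype I] [DecidableEq I] in
theorem map_GG (B : Finset Ω) (g : Equiv.Perm Ω) (hg : g ∈ Z.GG B) : B.map g.toEmbedding = B := by
  refine eq_of_subset_of_card_le (fun x hx => ?_) (by rw [card_map])
  obtain ⟨s, hs, rfl⟩ := mem_map.1 hx
  by_contra hn
  have h1 : g (g s) = g s := hg.2.1 _ hn
  have h2 : g s = s := g.injective h1
  exact hn (by simpa [h2] using hs)

omit [Fintype Ω] [DecidableEq Ω] in
theorem blk (P : ℕ → ℕ → Prop) [DecidableRel P] (B : Finset Ω) (κ : Ω → ℕ) :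
    ∑ s ∈ B, ∑ s' ∈ B, (if P (κ s) (κ s') then Z.a (Z.ty s) (Z.ty s') else 0) =
      ∑ c ∈ B.image κ, ∑ c' ∈ B.image κ,
        if P c c' then arr Z.a (Z.dim (fib B κ c)) (Z.dim (fib B κ c')) else 0 := by
  rw [← sum_fiberwise_of_maps_to (s := B) (t := B.image κ) (g := κ)
    (fun s hs => mem_image_of_mem κ hs)]
  refine sum_congr rfl fun c _ => ?_
  have : ∀ s ∈ B.filter (fun s => κ s = c),
      ∑ s' ∈ B, (if P (κ s) (κ s') then Z.a (Z.ty s) (Z.ty s') else 0) =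
      ∑ c' ∈ B.image κ, if P c c' then ∑ s' ∈ fib B κ c', Z.a (Z.ty s) (Z.ty s') else 0 := by
    intro s hs
    rw [← sum_fiberwise_of_maps_to (s := B) (t := B.image κ) (g := κ)
      (fun s hs => mem_image_of_mem κ hs)]
    refine sum_congr rfl fun c' _ => ?_
    rw [(mem_filter.1 hs).2, sum_congr rfl
      (g := fun s' => if P c c' then Z.a (Z.ty s) (Z.ty s') else 0)
      fun s' hs' => by rw [(mem_filter.1 hs').2]]
    split_ifs
    · rfl
    · simp
  rw [sum_congr rfl this, sum_comm]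
  refine sum_congr rfl fun c' _ => ?_
  split_ifs
  · rw [arr_dim]; rfl
  · simp

omit [Fintype Ω] [DecidableEq Ω] in
theorem R2_eq (hS : Sym Z.a Z.θ) (B : Finset Ω) (κ : Ω → ℕ) (hA : Z.Adm B κ) :
    Z.R2 B κ = 2 * Z.r1 B κ := by
  have h1 : ∑ s ∈ B, ∑ s' ∈ B, (if κ s' < κ s then Z.a (Z.ty s) (Z.ty s') else 0) =
      Z.r1 B κ := by
    rw [Qv.r1, blk Z (fun c c' => c' < c), blk Z (fun c c' => c < c'), sum_comm]
    refine sum_congr rfl fun c _ => sum_congr rfl fun c' _ => ?_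
    rw [hS _ _ (by rw [← th_dim]; exact hA c') (by rw [← th_dim]; exact hA c)]
  rw [two_mul]
  nth_rewrite 1 [← h1]
  rw [Qv.R2, Qv.r1, ← sum_add_distrib]
  refine sum_congr rfl fun s _ => ?_
  rw [← sum_add_distrib]
  refine sum_congr rfl fun s' _ => ?_
  rcases lt_trichotomy (κ s) (κ s') with h | h | h
  · simp [h, h.ne, h.not_gt]
  · simp [h]
  · simp [h, h.ne', h.not_gt]

omit [Fintype Ω] [DecidableEq Ω] in
theorem R2_arr (B : Finset Ω) (κ : Ω → ℕ) :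
    Z.R2 B κ + ∑ c ∈ B.image κ, arr Z.a (Z.dim (fib B κ c)) (Z.dim (fib B κ c)) =
      arr Z.a (Z.dim B) (Z.dim B) := by
  have h1 : ∑ s ∈ B, ∑ s' ∈ B, (if κ s = κ s' then Z.a (Z.ty s) (Z.ty s') else 0) =
      ∑ c ∈ B.image κ, arr Z.a (Z.dim (fib B κ c)) (Z.dim (fib B κ c)) := by
    rw [blk Z (fun c c' => c = c')]
    refine sum_congr rfl fun c hc => ?_
    rw [sum_ite_eq, if_pos hc]
  rw [← h1, arr_dim, Qv.R2, ← sum_add_distrib]
  refine sum_congr rfl fun s _ => ?_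
  rw [← sum_add_distrib]
  refine sum_congr rfl fun s' _ => ?_
  by_cases h : κ s = κ s' <;> simp [h]

omit [Fintype Ω] [DecidableEq Ω] in
theorem crs_fac (B : Finset Ω) (κ κ' : Ω → ℕ) (h : Crs B κ κ') :
    ∃ φ : ℕ → ℕ, (∀ s ∈ B, φ (κ s) = κ' s) ∧ B.image κ' = (B.image κ).image φ := by
  classical
  have h1 : ∀ s ∈ B, (fun c => if H : ∃ t ∈ B, κ t = c then κ' H.choose else 0) (κ s) = κ' s := by
    intro s hs
    have H : ∃ t ∈ B, κ t = κ s := ⟨s, hs, rfl⟩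
    simp only [dif_pos H]
    exact h _ H.choose_spec.1 s hs H.choose_spec.2
  refine ⟨fun c => if H : ∃ t ∈ B, κ t = c then κ' H.choose else 0, h1, ?_⟩
  rw [image_image]
  exact image_congr fun s hs => (h1 s (mem_coe.1 hs)).symm

omit [Fintype Ω] [DecidableEq Ω] in
theorem crs_nb (B : Finset Ω) (κ κ' : Ω → ℕ) (h : Crs B κ κ') : nb B κ' ≤ nb B κ := by
  obtain ⟨φ, _, h2⟩ := crs_fac B κ κ' h
  rw [nb, h2]
  exact card_image_le

omit [Fintype Ω] [DecidableEq Ω] in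
theorem crs_eq (B : Finset Ω) (κ κ' : Ω → ℕ) (h : Crs B κ κ') (hn : nb B κ ≤ nb B κ') :
    Crs B κ' κ := by
  obtain ⟨φ, h1, h2⟩ := crs_fac B κ κ' h
  rw [nb, nb, h2] at hn
  have h3 := card_image_iff.1 (le_antisymm card_image_le hn)
  intro s hs s' hs' e
  exact h3 (mem_coe.2 (mem_image_of_mem κ hs)) (mem_coe.2 (mem_image_of_mem κ hs'))
    (by rw [h1 s hs, h1 s' hs', e])

omit [Fintype I] [DecidableEq I] in
theorem rel (B : Finset Ω) (κ κ' : Ω → ℕ) (h : Crs B κ κ') (h' : Crs B κ' κ) :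
    (Z.Adm B κ → Z.Adm B κ') ∧ Z.R2 B κ = Z.R2 B κ' ∧
    ∀ N, Lt (Z.Jk B κ) B κ N = Lt (Z.Jk B κ') B κ' N := by
  refine ⟨fun hA c => ?_, ?_, fun N => ?_⟩
  · by_cases hc : c ∈ B.image κ'
    · obtain ⟨s, hs, rfl⟩ := mem_image.1 hc
      have : fib B κ' (κ' s) = fib B κ (κ s) :=
        filter_congr fun t ht => ⟨h' t ht s hs, h t ht s hs⟩
      rw [this]
      exact hA _
    · rw [fib_empty B κ' c hc]
      simp [Qv.th]
  · refine sum_congr rfl fun s hs => sum_congr rfl fun s' hs' => ?_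
    exact if_congr (not_congr ⟨h s hs s' hs', h' s hs s' hs'⟩) rfl rfl
  · have hJ : Z.Jk B κ = Z.Jk B κ' := le_antisymm (Jk_mono Z B κ' κ h') (Jk_mono Z B κ κ' h)
    have hC : ∀ v, Cst B κ v ↔ Cst B κ' v := fun v =>
      ⟨fun hv => ⟨hv.1, fun s hs s' hs' e => hv.2 s hs s' hs' (h' s hs s' hs' e)⟩,
        fun hv => ⟨hv.1, fun s hs s' hs' e => hv.2 s hs s' hs' (h s hs s' hs' e)⟩⟩
    rw [hJ]
    ext f
    exact ⟨fun hf l h1 h2 => hf l (fun v hv => (hC v).2 (h1 v hv)) h2,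
      fun hf l h1 h2 => hf l (fun v hv => (hC v).1 (h1 v hv)) h2⟩

end BasA

open BasA in
theorem t_bas : T_BAS := fun Ω _ _ _ _ _ Z h =>
  { th_dim := th_dim Z
    dim_union := dim_union Z
    dim_sum := dim_sum Z
    dim_map := dim_map Z
    dim_fib := dim_fib Z
    arr_dim := arr_dim Z
    ee_hom := ee_hom Z
    ee_supp := ee_supp Z
    ee_dvd := ee_dvd Z
    ee_ren := ee_ren Z
    ee_D := ee_D Z h
    homI := homI Z
    homI_iSup := fun _ J hJ => homI_iSup J hJ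
    homI_biSup := fun _ _ _ hJ => homI_iSup _ fun c => homI_iSup _ fun hc => hJ c hc
    homI_bot := fun f hf k => by
      rw [Ideal.mem_bot.1 hf, map_zero]
      exact Ideal.zero_mem (⊥ : Ideal (RR Ω))
    gen := gen Z
    gen_Jk := gen_Jk Z
    J_ren := J_ren Z
    JS_empty := JS_empty Z
    Jk_eq := Jk_eq Z
    JS_le := JS_le Z
    Jk_mono := Jk_mono Z
    Jk_D := Jk_D Z h
    Asym_ren := Asym_ren Z
    Asym_hom := Asym_hom Z
    ek_hom := ek_hom Z
    ek_supp := ek_supp Z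
    ek_ren := ek_ren Z
    fib_ren := fib_ren
    map_GG := map_GG Z
    R2_eq := R2_eq Z
    R2_arr := R2_arr Z
    crs_eq := crs_eq
    crs_nb := crs_nb
    rel := rel Z }

end Pool.Agent.P.MP_389f6f_co.Sp
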