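import Pool.Agent.P.MP_389f6f_co.SDefs

/-! Degree bounds for the standard elements along an arbitrary admissible partition. -/

set_option autoImplicit false

namespace Pool.Agent.P.MP_389f6f_co.Sp
open MvPolynomial Finset

namespace BoundA
variable {Ω I : Type} [Fintype Ω] [DecidableEq Ω] [Fintype I] [DecidableEq I]

/-- Euler class of a set of pairs -/
noncomputable def EP (Z : Qv Ω I) (S : Finset (Ω × Ω)) : RR Ω :=
  ∏ x ∈ S, (X x.2 - X x.1) ^ Z.a (Z.ty x.1) (Z.ty x.2)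

omit [Fintype Ω] [DecidableEq Ω] [Fintype I] [DecidableEq I] in
theorem ee_eq (Z : Qv Ω I) (A C : Finset Ω) : Z.ee A C = EP Z (A ×ˢ C) := by
  unfold Qv.ee EP
  rw [Finset.prod_product]

omit [Fintype Ω] [DecidableEq Ω] [Fintype I] [DecidableEq I] in
theorem ek_eq (Z : Qv Ω I) (B : Finset Ω) (κ : Ω → ℕ) :
    Z.ek B κ = EP Z ((B ×ˢ B).filter fun x => κ x.1 < κ x.2) := by
  unfold Qv.ek EP
  rw [Finset.prod_filter, Finset.prod_product]

omit [Fintype Ω] [DecidableEq Ω] [Fintype I] [DecidableEq I] in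
theorem EP_dvd (Z : Qv Ω I) {S T : Finset (Ω × Ω)} (h : S ⊆ T) : EP Z S ∣ EP Z T :=
  Finset.prod_dvd_prod_of_subset _ _ _ h

omit [Fintype Ω] [Fintype I] [DecidableEq I] in
theorem EP_dvd_mul (Z : Qv Ω I) {S T U : Finset (Ω × Ω)} (h : S ⊆ T ∪ U) :
    EP Z S ∣ EP Z T * EP Z U := by
  refine (EP_dvd Z h).trans ?_
  unfold EP
  rw [← Finset.prod_union_inter]
  exact Dvd.intro _ rfl

omit [Fintype Ω] [DecidableEq Ω] [Fintype I] [DecidableEq I] in
theorem EP_hom (Z : Qv Ω I) (S : Finset (Ω × Ω)) :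
    (EP Z S).IsHomogeneous (∑ x ∈ S, Z.a (Z.ty x.1) (Z.ty x.2)) := by
  unfold EP
  refine IsHomogeneous.prod _ _ _ fun x _ => ?_
  have h := ((isHomogeneous_X ℚ x.2).sub (isHomogeneous_X ℚ x.1)).pow (Z.a (Z.ty x.1) (Z.ty x.2))
  rwa [one_mul] at h

omit [Fintype I] [DecidableEq I] in
theorem Dv_one (ht : S_TAY Ω) (v : Ω → ℚ) : Dv v (1 : RR Ω) = 0 := by
  have h := ht.leib v 1 1
  rw [mul_one, mul_one, one_mul] at h
  exact left_eq_add.mp h

theorem Dv_EP (Z : Qv Ω I) (ht : S_TAY Ω) (hb : Z.S_BAS) (v : Ω → ℚ) (S : Finset (Ω × Ω))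
    (h : ∀ x ∈ S, v x.1 = v x.2) : Dv v (EP Z S) = 0 := by
  unfold EP
  refine Finset.prod_induction _ (fun f => Dv v f = 0) (fun f g hf hg => ?_) (Dv_one ht v)
    fun x hx => ?_
  · rw [ht.leib, hf, hg, zero_mul, mul_zero, add_zero]
  · have h2 := hb.ee_D v {x.1} {x.2} fun s hs s' hs' => by
      rw [Finset.mem_singleton.mp hs, Finset.mem_singleton.mp hs']
      exact h x hx
    simpa [Qv.ee] using h2

omit [Fintype I] [DecidableEq I] in
theorem Dl_mul (ht : S_TAY Ω) (e : RR Ω) (l : List (Ω → ℚ)) (h : ∀ v ∈ l, Dv v e = 0)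
    (f : RR Ω) : Dl l (e * f) = e * Dl l f := by
  induction l with
  | nil => simp [Dl]
  | cons v l ih =>
    have h1 : ∀ g, Dl (v :: l) g = Dv v (Dl l g) := fun g => by
      simp [Dl]
    rw [h1, h1, ih fun w hw => h w (List.mem_cons_of_mem _ hw), ht.leib,
      h v List.mem_cons_self, zero_mul, zero_add]

omit [DecidableEq Ω] [Fintype I] [DecidableEq I] in
theorem Lt_mono {J : Ideal (RR Ω)} {B : Finset Ω} {κ : Ω → ℕ} {N N' : ℕ} (h : N ≤ N')
    {f : RR Ω} (hf : f ∈ Lt J B κ N) : f ∈ Lt J B κ N' :=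
  fun l h1 h2 => hf l h1 (h.trans h2)

omit [Fintype I] [DecidableEq I] in
theorem Lt_prod (ht : S_TAY Ω) (J : Ideal (RR Ω)) (B : Finset Ω) (κ : Ω → ℕ) (s : Finset ℕ)
    (f : ℕ → RR Ω) (M : ℕ → ℕ) (h : ∀ c ∈ s, f c ∈ Lt J B κ (M c + 1)) :
    ∏ c ∈ s, f c ∈ Lt J B κ (∑ c ∈ s, M c + 1) := by
  induction s using Finset.induction_on with
  | empty => exact ht.deg _ _ _ _ _ (by simp)
  | insert c s hc ih =>
    rw [Finset.prod_insert hc, Finset.sum_insert hc]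
    refine Lt_mono (le_of_eq ?_) (ht.mul J B κ _ _ _ _ (h c (Finset.mem_insert_self _ _))
      (ih fun d hd => h d (Finset.mem_insert_of_mem hd)))
    omega

omit [Fintype I] [DecidableEq I] in
theorem Lt_ext (ht : S_TAY Ω) {J J' : Ideal (RR Ω)} {B C : Finset Ω} {κ : Ω → ℕ} {N : ℕ}
    (hJ : J ≤ J') (hC : C ⊆ B) {f : RR Ω} (hs : f ∈ supported ℚ (C : Set Ω))
    (hf : f ∈ Lt J C κ N) : f ∈ Lt J' B κ N := by
  intro l h1 h2
  have h3 := ht.cong l (l.map fun v s => if s ∈ C then v s else 0) (C : Set Ω)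
    (by
      rw [List.forall₂_map_right_iff]
      refine List.forall₂_same.mpr fun v _ s hs => ?_
      exact (if_pos (Finset.mem_coe.mp hs)).symm) f hs
  rw [h3]
  refine hJ (hf _ (fun v hv => ?_) (by rwa [List.length_map]))
  obtain ⟨u, hu, rfl⟩ := List.mem_map.mp hv
  refine ⟨fun s hs => if_neg hs, fun s hs s' hs' hk => ?_⟩
  show (if s ∈ C then u s else 0) = if s' ∈ C then u s' else 0
  rw [if_pos hs, if_pos hs']
  exact (h1 u hu).2 s (hC hs) s' (hC hs') hk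

theorem sym_sum (Z : Qv Ω I) (hS : Sym Z.a Z.θ) (hb : Z.S_BAS) (B : Finset Ω)
    (μ : Ω → ℕ × ℕ) (hμ : ∀ p, Z.th (B.filter fun s => μ s = p) = 0)
    (r : ℕ × ℕ → ℕ × ℕ → Prop) [DecidableRel r] :
    ∑ s ∈ B, ∑ s' ∈ B, (if r (μ s) (μ s') then Z.a (Z.ty s) (Z.ty s') else 0) =
      ∑ s ∈ B, ∑ s' ∈ B, (if r (μ s) (μ s') then Z.a (Z.ty s') (Z.ty s) else 0) := by
  have key : ∀ g : Ω → Ω → ℕ, ∑ s ∈ B, ∑ s' ∈ B, (if r (μ s) (μ s') then g s s' else 0) =
      ∑ p ∈ B.image μ, ∑ q ∈ B.image μ, if r p q then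
        ∑ s ∈ B.filter (fun s => μ s = p), ∑ s' ∈ B.filter (fun s => μ s = q), g s s' else 0 := by
    intro g
    rw [← Finset.sum_fiberwise_of_maps_to (fun s hs => Finset.mem_image_of_mem μ hs)]
    refine Finset.sum_congr rfl fun p _ => ?_
    have h1 : ∀ s ∈ B.filter (fun s => μ s = p),
        ∑ s' ∈ B, (if r (μ s) (μ s') then g s s' else 0) = ∑ q ∈ B.image μ, if r p q then
          ∑ s' ∈ B.filter (fun s => μ s = q), g s s' else 0 := by
      intro s hs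
      rw [← Finset.sum_fiberwise_of_maps_to (fun s hs => Finset.mem_image_of_mem μ hs)]
      refine Finset.sum_congr rfl fun q _ => ?_
      rw [(Finset.mem_filter.mp hs).2]
      split_ifs with h
      · refine Finset.sum_congr rfl fun s' hs' => ?_
        rw [(Finset.mem_filter.mp hs').2, if_pos h]
      · refine Finset.sum_eq_zero fun s' hs' => ?_
        rw [(Finset.mem_filter.mp hs').2, if_neg h]
    rw [Finset.sum_congr rfl h1, Finset.sum_comm]
    refine Finset.sum_congr rfl fun q _ => ?_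
    split_ifs with h
    · rfl
    · exact Finset.sum_const_zero
  rw [key (fun s s' => Z.a (Z.ty s) (Z.ty s')), key (fun s s' => Z.a (Z.ty s') (Z.ty s))]
  refine Finset.sum_congr rfl fun p _ => Finset.sum_congr rfl fun q _ => ?_
  split_ifs with h
  · rw [← hb.arr_dim, Finset.sum_comm, ← hb.arr_dim]
    refine hS _ _ ?_ ?_
    · rw [← hb.th_dim]; exact hμ p
    · rw [← hb.th_dim]; exact hμ q
  · rfl

/-- the part of a block of the second partition below level `c` of the first -/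
def low (B : Finset Ω) (κ κ' : Ω → ℕ) (c l : ℕ) : Finset Ω :=
  (fib B κ' l).filter fun s => κ s < c

omit [Fintype Ω] [DecidableEq Ω] [Fintype I] [DecidableEq I] in
theorem th_below (Z : Qv Ω I) {B : Finset Ω} {κ : Ω → ℕ} (h : Z.Adm B κ) (c : ℕ) :
    Z.th (B.filter fun s => κ s < c) = 0 := by
  unfold Qv.th
  rw [← Finset.sum_fiberwise_of_maps_to (t := range c) (g := κ)
    (fun s hs => Finset.mem_range.mpr (Finset.mem_filter.mp hs).2)]
  refine Finset.sum_eq_zero fun d hd => ?_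
  have h1 : (B.filter fun s => κ s < c).filter (fun s => κ s = d) = fib B κ d := by
    ext s
    simp only [fib, Finset.mem_filter]
    have := Finset.mem_range.mp hd
    constructor
    · rintro ⟨⟨h1, _⟩, h2⟩; exact ⟨h1, h2⟩
    · rintro ⟨h1, h2⟩; exact ⟨⟨h1, by omega⟩, h2⟩
  rw [h1]
  exact h d

omit [Fintype Ω] [DecidableEq Ω] [Fintype I] [DecidableEq I] in
theorem th_low (Z : Qv Ω I) {B : Finset Ω} {κ κ' : Ω → ℕ} (h : Z.Adm B κ)
    (hn : ∀ c l, Z.th (low B κ κ' c l) ≤ 0) (c l : ℕ) : Z.th (low B κ κ' c l) = 0 := by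
  by_cases hl : l ∈ B.image κ'
  · have h1 : ∑ l ∈ B.image κ', Z.th (low B κ κ' c l) = 0 := by
      rw [← th_below Z h c]
      unfold Qv.th
      rw [← Finset.sum_fiberwise_of_maps_to (t := B.image κ') (g := κ')
        (fun s hs => Finset.mem_image_of_mem κ' (Finset.mem_filter.mp hs).1)]
      refine Finset.sum_congr rfl fun d _ => ?_
      congr 1
      unfold low fib
      exact Finset.filter_comm _ _ _
    exact (Finset.sum_eq_zero_iff_of_nonpos fun d _ => hn c d).mp h1 l hl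
  · have h1 : low B κ κ' c l = ∅ := by
      refine Finset.eq_empty_of_forall_notMem fun s hs => hl ?_
      simp only [low, fib, Finset.mem_filter] at hs
      exact Finset.mem_image.mpr ⟨s, hs.1.1, hs.1.2⟩
    rw [h1]
    exact Finset.sum_empty

omit [Fintype Ω] [Fintype I] [DecidableEq I] in
theorem th_union (Z : Qv Ω I) {A C : Finset Ω} (h : Disjoint A C) :
    Z.th (A ∪ C) = Z.th A + Z.th C := Finset.sum_union h

omit [Fintype Ω] [Fintype I] [DecidableEq I] in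
theorem adm_fib (Z : Qv Ω I) {B : Finset Ω} {κ κ' : Ω → ℕ}
    (hz : ∀ c l, Z.th (low B κ κ' c l) = 0) (c : ℕ) : Z.Adm (fib B κ c) κ' := by
  intro l
  have h1 : low B κ κ' (c + 1) l = fib (fib B κ c) κ' l ∪ low B κ κ' c l := by
    ext s
    simp only [low, fib, Finset.mem_filter, Finset.mem_union]
    constructor
    · rintro ⟨⟨h1, h2⟩, h3⟩
      rcases Nat.lt_succ_iff_lt_or_eq.mp h3 with h | h
      · exact Or.inr ⟨⟨h1, h2⟩, h⟩
      · exact Or.inl ⟨⟨h1, h⟩, h2⟩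
    · rintro (⟨⟨h1, h2⟩, h3⟩ | ⟨⟨h1, h2⟩, h3⟩)
      · exact ⟨⟨h1, h3⟩, by omega⟩
      · exact ⟨⟨h1, h2⟩, by omega⟩
  have h2 : Disjoint (fib (fib B κ c) κ' l) (low B κ κ' c l) := by
    refine Finset.disjoint_left.mpr fun s h1 h2 => ?_
    simp only [low, fib, Finset.mem_filter] at h1 h2
    omega
  have h3 := hz (c + 1) l
  rw [h1, th_union Z h2, hz c l, add_zero] at h3
  exact h3

omit [Fintype Ω] [Fintype I] [DecidableEq I] in
theorem mem_Jk (Z : Qv Ω I) {B A : Finset Ω} {κ : Ω → ℕ} {l : ℕ} (hA : A ⊆ fib B κ l)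
    (hp : 0 < Z.th A) {f : RR Ω} (hd : Z.ee A (fib B κ l \ A) ∣ f) : f ∈ Z.Jk B κ := by
  refine Ideal.mem_of_dvd _ hd ?_
  exact le_iSup (fun c => Z.JS (fib B κ c)) l (Ideal.subset_span ⟨A, hA, hp, rfl⟩)

/-- pairs in the same block of the second partition -/
def Sin (B : Finset Ω) (κ κ' : Ω → ℕ) : Finset (Ω × Ω) :=
  ((B ×ˢ B).filter fun x => κ x.1 < κ x.2).filter fun x => κ' x.1 = κ' x.2

/-- pairs in different blocks of the second partition -/
def Sx (B : Finset Ω) (κ κ' : Ω → ℕ) : Finset (Ω × Ω) :=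
  ((B ×ˢ B).filter fun x => κ x.1 < κ x.2).filter fun x => ¬κ' x.1 = κ' x.2

omit [Fintype Ω] [Fintype I] [DecidableEq I] in
theorem ein_mul (Z : Qv Ω I) {B : Finset Ω} {κ κ' : Ω → ℕ}
    (hz : ∀ c l, Z.th (low B κ κ' c l) = 0) (f : RR Ω)
    (hf : f ∈ ⨆ c, Z.Jk (fib B κ c) κ') : EP Z (Sin B κ κ') * f ∈ Z.Jk B κ' := by
  have h : (⨆ c, Z.Jk (fib B κ c) κ') ≤
      Submodule.comap (LinearMap.mulLeft (RR Ω) (EP Z (Sin B κ κ'))) (Z.Jk B κ') := by
    refine iSup_le fun c => iSup_le fun l => Ideal.span_le.mpr ?_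
    rintro _ ⟨A, hA, hp, rfl⟩
    show EP Z (Sin B κ κ') * _ ∈ Z.Jk B κ'
    have hA' : ∀ s ∈ A, (s ∈ B ∧ κ s = c) ∧ κ' s = l := fun s hs => by
      simpa only [fib, Finset.mem_filter] using hA hs
    have hd : Disjoint A (low B κ κ' c l) := by
      refine Finset.disjoint_left.mpr fun s h1 h2 => ?_
      simp only [low, fib, Finset.mem_filter] at h2
      have := hA' s h1
      omega
    refine mem_Jk Z (A := A ∪ low B κ κ' c l) (l := l) ?_ ?_ ?_
    · refine Finset.union_subset (fun s hs => ?_) (Finset.filter_subset _ _)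
      exact Finset.mem_filter.mpr ⟨(hA' s hs).1.1, (hA' s hs).2⟩
    · rwa [th_union Z hd, hz, add_zero]
    · rw [ee_eq, ee_eq]
      refine EP_dvd_mul Z fun x hx => ?_
      simp only [Sin, low, fib, Finset.mem_product, Finset.mem_union, Finset.mem_filter,
        Finset.mem_sdiff, not_or, not_and, not_lt] at hx ⊢
      obtain ⟨h1, ⟨h2, h3⟩, h4, h5⟩ := hx
      have h6 := h5 ⟨h2, h3⟩
      rcases h1 with h1 | h1
      · have h7 := hA' _ h1
        rcases h6.lt_or_eq with h8 | h8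
        · exact Or.inl ⟨⟨⟨h7.1.1, h2⟩, by omega⟩, by omega⟩
        · exact Or.inr ⟨h1, ⟨⟨h2, h8.symm⟩, h3⟩, h4⟩
      · exact Or.inl ⟨⟨⟨h1.1.1, h2⟩, by omega⟩, by omega⟩
  exact h hf

theorem count (Z : Qv Ω I) (hS : Sym Z.a Z.θ) (hb : Z.S_BAS) {B : Finset Ω} {κ κ' : Ω → ℕ}
    (ha : ∀ c, Z.Adm (fib B κ c) κ') :
    2 * (∑ x ∈ Sx B κ κ', Z.a (Z.ty x.1) (Z.ty x.2)) +
      ∑ c ∈ B.image κ, Z.R2 (fib B κ c) κ' = Z.R2 B κ' := by
  have h1 : ∑ x ∈ Sx B κ κ', Z.a (Z.ty x.1) (Z.ty x.2) = ∑ s ∈ B, ∑ s' ∈ B,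
      if κ s < κ s' ∧ κ' s ≠ κ' s' then Z.a (Z.ty s) (Z.ty s') else 0 := by
    unfold Sx
    rw [Finset.filter_filter, Finset.sum_filter, Finset.sum_product]
  have h2 := sym_sum Z hS hb B (fun s => (κ s, κ' s)) (fun p => by
    have h := ha p.1 p.2
    unfold fib at h
    rw [Finset.filter_filter] at h
    rw [← h]
    congr 1
    ext s
    simp only [Finset.mem_filter, Prod.ext_iff]) (fun p q => p.1 < q.1 ∧ p.2 ≠ q.2)
  have h3 : ∑ c ∈ B.image κ, Z.R2 (fib B κ c) κ' = ∑ s ∈ B, ∑ s' ∈ B,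
      if κ s = κ s' ∧ κ' s ≠ κ' s' then Z.a (Z.ty s) (Z.ty s') else 0 := by
    rw [← Finset.sum_fiberwise_of_maps_to (fun s hs => Finset.mem_image_of_mem κ hs)]
    refine Finset.sum_congr rfl fun c _ => ?_
    unfold Qv.R2 fib
    refine Finset.sum_congr rfl fun s hs => ?_
    rw [Finset.sum_filter]
    refine Finset.sum_congr rfl fun s' _ => ?_
    rw [(Finset.mem_filter.mp hs).2]
    by_cases h : κ s' = c
    · simp [h]
    · simp [h, Ne.symm h]
  rw [two_mul, h3]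
  nth_rewrite 1 [h1]
  rw [h1]
  simp only at h2
  nth_rewrite 2 [h2]
  rw [Finset.sum_comm (f := fun s s' =>
    if κ s < κ s' ∧ κ' s ≠ κ' s' then Z.a (Z.ty s') (Z.ty s) else 0)]
  unfold Qv.R2
  rw [← Finset.sum_add_distrib, ← Finset.sum_add_distrib]
  refine Finset.sum_congr rfl fun s _ => ?_
  rw [← Finset.sum_add_distrib, ← Finset.sum_add_distrib]
  refine Finset.sum_congr rfl fun s' _ => ?_
  by_cases h : κ' s = κ' s'
  · simp [h]
  · rcases lt_trichotomy (κ s) (κ s') with h4 | h4 | h4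
    · simp [h, h4, h4.ne, not_lt.mpr h4.le]
    · simp [h, h4]
    · simp [h, Ne.symm h, h4, h4.ne', not_lt.mpr h4.le]

end BoundA

open BoundA in
theorem t_bound : T_BOUND := by
  intro Ω I _ _ _ _ Z Γ _ Y ht hb he hS B κ lab hV κ' hA'
  have hA := he.adm B κ lab hV
  by_cases hn : ∀ c l, Z.th (low B κ κ' c l) ≤ 0
  swap
  · push Not at hn
    obtain ⟨c, l, hp⟩ := hn
    have h1 : Y.EE B κ lab ∈ Z.Jk B κ' := by
      refine mem_Jk Z (l := l) (Finset.filter_subset _ _) hp (Dvd.dvd.mul_right ?_ _)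
      rw [ee_eq, ek_eq]
      refine EP_dvd Z fun x hx => ?_
      simp only [fib, Finset.mem_product, Finset.mem_filter, Finset.mem_sdiff, not_and,
        not_lt] at hx ⊢
      obtain ⟨h1, h2, h3⟩ := hx
      have := h3 h2
      exact ⟨⟨h1.1.1, h2.1⟩, by omega⟩
    exact ⟨fun l h _ => hb.Jk_D B κ' l h _ h1, fun _ l h _ => hb.Jk_D B κ' l h _ h1⟩
  have hz := th_low Z hA hn
  have ha := adm_fib Z hz
  have hw : ∀ c ∈ B.image κ, Y.w (fib B κ c) (lab c).1 ∈ Lt (⨆ c, Z.Jk (fib B κ c) κ') B κ'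
      (Z.R2 (fib B κ c) κ' + if nb (fib B κ c) κ' < 2 then 1 else 0) := by
    intro c hc
    obtain ⟨s, hs, hsc⟩ := Finset.mem_image.mp hc
    have h1 := (Y.gb (fib B κ c) ⟨s, Finset.mem_filter.mpr ⟨hs, hsc⟩⟩ (hA c)).mem _ (hV c hc)
    have h2 := h1.2
    simp only [Qv.FF, Submodule.mem_iInf, SetLike.mem_coe] at h2
    exact Lt_ext ht (le_iSup (fun c => Z.Jk (fib B κ c) κ') c) (Finset.filter_subset _ _)
      h1.1.1 (h2 κ' (ha c))
  have hw1 : ∀ c ∈ B.image κ, Y.w (fib B κ c) (lab c).1 ∈ Lt (⨆ c, Z.Jk (fib B κ c) κ') B κ'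
      (Z.R2 (fib B κ c) κ' + 1) := fun c hc =>
    Lt_mono (by split_ifs <;> omega) (hw c hc)
  have hx : EP Z (Sx B κ κ') * ∏ c ∈ B.image κ, pp (fib B κ c) ^ (lab c).2 ∈
      Lt (⨆ c, Z.Jk (fib B κ c) κ') B κ'
        (2 * (∑ x ∈ Sx B κ κ', Z.a (Z.ty x.1) (Z.ty x.2) + Qv.dl B κ lab) + 1) := by
    refine ht.deg _ _ _ _ _ (Nat.lt_succ_of_le (Nat.mul_le_mul_left 2 ?_))
    refine IsHomogeneous.totalDegree_le ((EP_hom Z _).mul ?_)
    refine IsHomogeneous.prod _ _ _ fun c _ => ?_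
    have h := (IsHomogeneous.sum (fib B κ c) (fun s => (X s : RR Ω)) 1
      fun s _ => isHomogeneous_X ℚ s).pow (lab c).2
    rwa [one_mul] at h
  have hE : Y.EE B κ lab = EP Z (Sin B κ κ') * (Y.ww B κ lab *
      (EP Z (Sx B κ κ') * ∏ c ∈ B.image κ, pp (fib B κ c) ^ (lab c).2)) := by
    have h1 : Z.ek B κ = EP Z (Sin B κ κ') * EP Z (Sx B κ κ') := by
      rw [ek_eq]
      unfold EP Sin Sx
      rw [Finset.prod_filter_mul_prod_filter_not]
    unfold Qv.Coh.EE Qv.Coh.gg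
    rw [h1]
    ring
  have hc := count Z hS hb ha
  have fin : ∀ e : ℕ, Y.ww B κ lab ∈ Lt (⨆ c, Z.Jk (fib B κ c) κ') B κ'
      (∑ c ∈ B.image κ, Z.R2 (fib B κ c) κ' + e) →
      Y.EE B κ lab ∈ Lt (Z.Jk B κ') B κ' (Z.R2 B κ' + 2 * Qv.dl B κ lab + e) := by
    intro e h l h1 h2
    rw [hE, Dl_mul ht _ l fun v hv => Dv_EP Z ht hb v _ fun x hx => ?_]
    · refine ein_mul Z hz _ (ht.mul _ _ _ _ _ _ _ h hx l h1 ?_)
      omega
    · simp only [Sin, Finset.mem_filter, Finset.mem_product] at hx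
      exact (h1 v hv).2 _ hx.1.1.1 _ hx.1.1.2 hx.2
  refine ⟨fin 1 (Lt_prod ht _ _ _ _ _ _ hw1), fun hC => fin 0 ?_⟩
  unfold Crs at hC
  push Not at hC
  obtain ⟨s, hs, s', hs', h1, h2⟩ := hC
  have hc0 : κ s ∈ B.image κ := Finset.mem_image_of_mem κ hs
  have h3 : ¬nb (fib B κ (κ s)) κ' < 2 := by
    refine not_lt.mpr (Finset.one_lt_card.mpr ⟨κ' s, ?_, κ' s', ?_, h2⟩)
    · exact Finset.mem_image_of_mem κ' (Finset.mem_filter.mpr ⟨hs, rfl⟩)
    · exact Finset.mem_image_of_mem κ' (Finset.mem_filter.mpr ⟨hs', h1.symm⟩)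
  have h4 := hw _ hc0
  rw [if_neg h3] at h4
  unfold Qv.Coh.ww
  rw [← Finset.mul_prod_erase _ _ hc0, ← Finset.add_sum_erase _ _ hc0]
  refine Lt_mono (le_of_eq ?_) (ht.mul _ _ _ _ _ _ _ h4
    (Lt_prod ht _ _ _ _ _ _ fun c hc => hw1 c (Finset.mem_of_mem_erase hc)))
  omega

end Pool.Agent.P.MP_389f6f_co.Sp
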