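import Pool.Agent.P.MP_389f6f_co.SDefs

set_option autoImplicit false
set_option linter.unusedSectionVars false

namespace Pool.Agent.P.MP_389f6f_co.Sp
open MvPolynomial Finset

namespace CoefA
variable {Ω I : Type} [Fintype Ω] [DecidableEq Ω] [Fintype I] [DecidableEq I]

omit [Fintype Ω] [DecidableEq Ω] in
lemma mem_fib {B : Finset Ω} {κ : Ω → ℕ} {c : ℕ} {s : Ω} : s ∈ fib B κ c ↔ s ∈ B ∧ κ s = c := by
  simp [fib]

lemma Dl_append (l l' : List (Ω → ℚ)) (f : RR Ω) : Dl (l' ++ l) f = Dl l' (Dl l f) := by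
  simp [Dl, List.map_append, List.prod_append]

omit [Fintype Ω] in
lemma ren_fix {S : Set Ω} {g : Ω → Ω} (hg : ∀ s ∈ S, g s = s) {f : RR Ω}
    (hf : f ∈ supported ℚ S) : rename g f = f := by
  rw [supported_eq_adjoin_X] at hf
  induction hf using Algebra.adjoin_induction with
  | mem x hx =>
    obtain ⟨s, hs, rfl⟩ := hx
    rw [rename_X, hg s hs]
  | algebraMap r => exact AlgHom.commutes _ r
  | add x y _ _ hx hy => rw [map_add, hx, hy]
  | mul x y _ _ hx hy => rw [map_mul, hx, hy]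

omit [Fintype Ω] in
lemma ren_mem {S : Set Ω} {g : Ω → Ω} (hg : ∀ s ∈ S, g s ∈ S) {f : RR Ω}
    (hf : f ∈ supported ℚ S) : rename g f ∈ supported ℚ S := by
  rw [supported_eq_adjoin_X] at hf
  induction hf using Algebra.adjoin_induction with
  | mem x hx =>
    obtain ⟨s, hs, rfl⟩ := hx
    rw [rename_X]
    exact X_mem_supported.2 (hg s hs)
  | algebraMap r => rw [AlgHom.commutes]; exact Subalgebra.algebraMap_mem _ r
  | add x y _ _ hx hy => rw [map_add]; exact Subalgebra.add_mem _ hx hy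
  | mul x y _ _ hx hy => rw [map_mul]; exact Subalgebra.mul_mem _ hx hy

/-- the antisymmetry operator -/
noncomputable def sw (s s' : Ω) : RR Ω →ₗ[ℚ] RR Ω :=
  (rename (Equiv.swap s s') : RR Ω →ₐ[ℚ] RR Ω).toLinearMap + LinearMap.id

omit [Fintype Ω] in
lemma sw_apply (s s' : Ω) (f : RR Ω) : sw s s' f = rename (Equiv.swap s s') f + f := rfl

omit [Fintype Ω] in
lemma loc_sw {A : Finset Ω} {s s' : Ω} (hs : s ∈ A) (hs' : s' ∈ A) : Loc A (sw s s') := by
  refine ⟨fun f hf => ?_, fun f g hg => ?_⟩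
  · rw [sw_apply]
    refine Subalgebra.add_mem _ (ren_mem (fun x hx => ?_) hf) hf
    rw [Equiv.swap_apply_def]
    split_ifs
    · exact hs'
    · exact hs
    · exact hx
  · rw [sw_apply, sw_apply, map_mul, ren_fix (S := (A : Set Ω)ᶜ) (fun x hx => ?_) hg, add_mul]
    refine Equiv.swap_apply_of_ne_of_ne (fun h => hx ?_) (fun h => hx ?_)
    · rw [h]; exact hs
    · rw [h]; exact hs'

/-- the conditions which cut out the space `W` -/
def OO (Z : Qv Ω I) (A : Finset Ω) : Set ((RR Ω →ₗ[ℚ] RR Ω) × Ideal (RR Ω)) :=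
  {p | (∃ s ∈ A, ∃ s' ∈ A, s ≠ s' ∧ Z.ty s = Z.ty s' ∧ p = (sw s s', ⊥)) ∨
    ∃ (lam : Ω → ℕ) (l' : List (Ω → ℚ)), Z.Adm A lam ∧ (∀ v ∈ l', Cst A lam v) ∧
      Z.R2 A lam + 2 * 0 + (if nb A lam < 2 then 1 else 0) ≤ 2 * l'.length ∧
      p = ((Dl l' : RR Ω →ₗ[ℚ] RR Ω), Z.Jk A lam)}

lemma mem_W (Z : Qv Ω I) {A : Finset Ω} {u : RR Ω} (hu : u ∈ supported ℚ (A : Set Ω))
    (h : ∀ p ∈ OO Z A, p.1 u ∈ p.2) : u ∈ Z.W A := by
  refine Submodule.mem_inf.2 ⟨⟨hu, fun s hs s' hs' h1 h2 => ?_⟩, ?_⟩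
  · have := h (sw s s', ⊥) (Or.inl ⟨s, hs, s', hs', h1, h2, rfl⟩)
    rw [Ideal.mem_bot, sw_apply] at this
    exact eq_neg_of_add_eq_zero_left this
  · unfold Qv.FF
    refine (Submodule.mem_iInf _).2 fun lam => (Submodule.mem_iInf _).2 fun hl l' h1 h2 => ?_
    exact h (Dl l', Z.Jk A lam) (Or.inr ⟨lam, l', hl, h1, h2, rfl⟩)

/-- refinement of the block `c` of `κ` by `lam` -/
def rf (κ lam : Ω → ℕ) (c : ℕ) : Ω → ℕ := fun s => Nat.pair (κ s) (if κ s = c then lam s else 0)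

omit [Fintype Ω] [DecidableEq Ω] in
lemma rf_eq {κ lam : Ω → ℕ} {c : ℕ} {s s' : Ω} :
    rf κ lam c s = rf κ lam c s' ↔ κ s = κ s' ∧ (κ s = c → lam s = lam s') := by
  unfold rf
  rw [Nat.pair_eq_pair]
  constructor
  · rintro ⟨h1, h2⟩
    refine ⟨h1, fun h => ?_⟩
    rwa [if_pos h, if_pos (h1 ▸ h)] at h2
  · rintro ⟨h1, h2⟩
    refine ⟨h1, ?_⟩
    by_cases h : κ s = c
    · rw [if_pos h, if_pos (h1 ▸ h), h2 h]
    · rw [if_neg h, if_neg (h1 ▸ h)]

omit [Fintype Ω] [DecidableEq Ω] in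
lemma fib_rf (B : Finset Ω) (κ lam : Ω → ℕ) (c n : ℕ) :
    (∃ e, fib B (rf κ lam c) n = fib (fib B κ c) lam e) ∨
    (∃ a ∈ B.image κ, a ≠ c ∧ fib B (rf κ lam c) n = fib B κ a) ∨ fib B (rf κ lam c) n = ∅ := by
  rcases (fib B (rf κ lam c) n).eq_empty_or_nonempty with h | ⟨s, hs⟩
  · exact Or.inr (Or.inr h)
  obtain ⟨hsB, rfl⟩ := mem_fib.1 hs
  by_cases h : κ s = c
  · refine Or.inl ⟨lam s, ?_⟩
    ext x
    simp only [mem_fib, rf_eq]
    constructor
    · rintro ⟨h1, h2, h3⟩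
      exact ⟨⟨h1, h2.trans h⟩, h3 (h2.trans h)⟩
    · rintro ⟨⟨h1, h2⟩, h3⟩
      exact ⟨h1, h2.trans h.symm, fun _ => h3⟩
  · refine Or.inr (Or.inl ⟨κ s, mem_image_of_mem _ hsB, h, ?_⟩)
    ext x
    simp only [mem_fib, rf_eq]
    constructor
    · rintro ⟨h1, h2, _⟩
      exact ⟨h1, h2⟩
    · rintro ⟨h1, h2⟩
      exact ⟨h1, h2, fun h3 => absurd (h2.symm.trans h3) h⟩

omit [Fintype Ω] [DecidableEq Ω] [Fintype I] [DecidableEq I] in
lemma R2_rf (Z : Qv Ω I) (B : Finset Ω) (κ lam : Ω → ℕ) (c : ℕ) :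
    Z.R2 B (rf κ lam c) ≤ Z.R2 B κ + Z.R2 (fib B κ c) lam := by
  unfold Qv.R2 fib
  rw [sum_filter, ← sum_add_distrib]
  refine sum_le_sum fun s _ => ?_
  by_cases h : κ s = c
  · rw [if_pos h, sum_filter, ← sum_add_distrib]
    refine sum_le_sum fun s' _ => ?_
    by_cases h1 : κ s = κ s'
    · by_cases h2 : lam s = lam s'
      · rw [if_neg (not_not.2 (rf_eq.2 ⟨h1, fun _ => h2⟩))]
        exact Nat.zero_le _
      · rw [if_pos (h1 ▸ h : κ s' = c), if_pos (show lam s ≠ lam s' from h2)]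
        split_ifs <;> omega
    · rw [if_pos (show κ s ≠ κ s' from h1)]
      split_ifs <;> omega
  · rw [if_neg h, add_zero]
    refine sum_le_sum fun s' _ => ?_
    by_cases h1 : κ s = κ s'
    · rw [if_neg (not_not.2 (rf_eq.2 ⟨h1, fun h2 => absurd h2 h⟩))]
      exact Nat.zero_le _
    · rw [if_pos (show κ s ≠ κ s' from h1)]
      split_ifs <;> omega

omit [Fintype Ω] [DecidableEq Ω] in
lemma cst_lift {B : Finset Ω} {κ κ' lam : Ω → ℕ} {c : ℕ} {v : Ω → ℚ}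
    (hv : Cst (fib B κ c) lam v)
    (h : ∀ s ∈ B, ∀ s' ∈ B, κ' s = κ' s' → κ s = κ s' ∧ (κ s = c → lam s = lam s')) :
    Cst B κ' v := by
  refine ⟨fun s hs => hv.1 s fun h' => hs (mem_fib.1 h').1, fun s hs s' hs' e => ?_⟩
  obtain ⟨h1, h2⟩ := h s hs s' hs' e
  by_cases hc : κ s = c
  · exact hv.2 s (mem_fib.2 ⟨hs, hc⟩) s' (mem_fib.2 ⟨hs', h1 ▸ hc⟩) (h2 hc)
  · rw [hv.1 s fun h' => hc (mem_fib.1 h').2, hv.1 s' fun h' => hc (h1.trans (mem_fib.1 h').2)]

omit [Fintype Ω] [DecidableEq Ω] in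
lemma nb_lt_two {A : Finset Ω} {lam : Ω → ℕ} :
    nb A lam < 2 ↔ ∀ s ∈ A, ∀ s' ∈ A, lam s = lam s' := by
  unfold nb
  rw [Nat.lt_succ_iff, card_le_one]
  constructor
  · intro h s hs s' hs'
    exact h _ (mem_image_of_mem _ hs) _ (mem_image_of_mem _ hs')
  · intro h a ha a' ha'
    obtain ⟨s, hs, rfl⟩ := mem_image.1 ha
    obtain ⟨s', hs', rfl⟩ := mem_image.1 ha'
    exact h s hs s' hs'

end CoefA

open CoefA in
theorem t_coef : T_COEF := by
  intro Ω I _ _ _ _ Z tay bas tens Γ val b dg B κ hB hκ gb f hf l hl hlt hyp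
  rw [bas.Jk_eq]
  refine tens ℕ Γ (B.image κ) (fib B κ) (fun c => Z.JS (fib B κ c)) val b
    (fun c => OO Z (fib B κ c)) (Or.inl (hB.image κ)) ?_ (fun c _ => (bas.gen _).2.1)
    (fun c hc γ hγ => (Submodule.mem_inf.1 ((gb c hc).mem γ hγ)).1.1)
    (fun c hc => (gb c hc).ind) ?_ (fun c hc u hu h => (gb c hc).spn u (mem_W Z hu h))
    (Dl l f) ?_ ?_
  · intro c _ c' _ hne
    refine disjoint_left.2 fun s hs hs' => hne ?_
    rw [← (mem_fib.1 hs).2, (mem_fib.1 hs').2]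
  · rintro c _ p (⟨s, hs, s', hs', -, -, rfl⟩ | ⟨lam, l', -, h1, -, rfl⟩)
    · exact ⟨loc_sw hs hs', ∅, by simp, Ideal.span_empty.symm⟩
    · exact ⟨tay.loc l' _ fun v hv => (h1 v hv).1, bas.gen_Jk _ _⟩
  · refine tay.supp l _ f (supported_mono (fun s hs => ?_) hf.1)
    exact ⟨κ s, mem_image_of_mem _ hs, mem_fib.2 ⟨hs, rfl⟩⟩
  · rintro c hc p (⟨s, hs, s', hs', h1, h2, rfl⟩ | ⟨lam, l', ha, h1, h2, rfl⟩)
    · obtain ⟨hsB, hsc⟩ := mem_fib.1 hs
      obtain ⟨hsB', hsc'⟩ := mem_fib.1 hs'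
      have e : (l.map fun v x => v ((Equiv.swap s s')⁻¹ x)) = l := by
        conv_rhs => rw [← List.map_id l]
        refine List.map_congr_left fun v hv => funext fun x => ?_
        have := (hl v hv).2 s hsB s' hsB' (hsc.trans hsc'.symm)
        rw [Equiv.swap_inv, Equiv.swap_apply_def]
        split_ifs with e1 e2
        · rw [e1]; exact this.symm
        · rw [e2]; exact this
        · rfl
      have e2 : sw s s' (Dl l f) = 0 := by
        rw [sw_apply, tay.ren, e, hf.2 s hsB s' hsB' h1 h2, map_neg, neg_add_cancel]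
      change sw s s' (Dl l f) ∈ _
      rw [e2]
      exact Ideal.zero_mem _
    · change Dl l' (Dl l f) ∈ Z.Jk (fib B κ c) lam ⊔ _
      rw [← Dl_append]
      have hoth : ∀ a ∈ B.image κ, a ≠ c → Z.JS (fib B κ a) ≤ Z.Jk (fib B κ c) lam ⊔
          ⨆ c' ∈ B.image κ, ⨆ _ : c' ≠ c, Z.JS (fib B κ c') := fun a ha hne =>
        le_sup_of_le_right (le_iSup₂_of_le a ha (le_iSup (fun _ : a ≠ c => Z.JS (fib B κ a)) hne))
      by_cases hn : nb (fib B κ c) lam < 2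
      · rw [if_pos hn] at h2
        have h3 : Dl (l' ++ l) f ∈ Z.Jk B κ := by
          refine hlt (l' ++ l) (fun v hv => ?_) (by rw [List.length_append]; omega)
          rcases List.mem_append.1 hv with hv | hv
          · refine cst_lift (h1 v hv) fun s hs s' hs' e => ⟨e, fun hsc => ?_⟩
            exact nb_lt_two.1 hn s (mem_fib.2 ⟨hs, hsc⟩) s' (mem_fib.2 ⟨hs', e ▸ hsc⟩)
          · exact hl v hv
        rw [bas.Jk_eq] at h3
        refine (iSup₂_le fun a ha => ?_ : (⨆ c ∈ B.image κ, Z.JS (fib B κ c)) ≤ _) h3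
        by_cases hne : a = c
        · rw [hne]; exact le_sup_of_le_left (bas.JS_le _ _)
        · exact hoth a ha hne
      · rw [if_neg hn] at h2
        have hcr : Crs B (rf κ lam c) κ := fun s _ s' _ e => (rf_eq.1 e).1
        have h3 : Dl (l' ++ l) f ∈ Z.Jk B (rf κ lam c) := by
          refine hyp (rf κ lam c) (fun n => ?_) hcr ?_ (l' ++ l) (fun v hv => ?_) ?_
          · rcases fib_rf B κ lam c n with ⟨e, h⟩ | ⟨a, -, -, h⟩ | h
            · rw [h]; exact ha e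
            · rw [h]; exact hκ a
            · rw [h]; simp [Qv.th]
          · by_contra hlt'
            have := bas.crs_eq B _ _ hcr (not_lt.1 hlt')
            refine hn (nb_lt_two.2 fun s hs s' hs' => ?_)
            obtain ⟨hsB, hsc⟩ := mem_fib.1 hs
            obtain ⟨hsB', hsc'⟩ := mem_fib.1 hs'
            exact (rf_eq.1 (this s hsB s' hsB' (hsc.trans hsc'.symm))).2 hsc
          · rcases List.mem_append.1 hv with hv | hv
            · exact cst_lift (h1 v hv) fun s _ s' _ e => rf_eq.1 e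
            · exact ⟨(hl v hv).1, fun s hs s' hs' e => (hl v hv).2 s hs s' hs' (hcr s hs s' hs' e)⟩
          · have := R2_rf Z B κ lam c
            rw [List.length_append]
            omega
        refine (iSup_le fun n => ?_ : (⨆ n, Z.JS (fib B (rf κ lam c) n)) ≤ _) h3
        rcases fib_rf B κ lam c n with ⟨e, h⟩ | ⟨a, ha', hne, h⟩ | h
        · rw [h]
          exact le_sup_of_le_left (le_iSup (fun e => Z.JS (fib (fib B κ c) lam e)) e)
        · rw [h]; exact hoth a ha' hne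
        · rw [h, bas.JS_empty]; exact bot_le

end Pool.Agent.P.MP_389f6f_co.Sp
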