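import Pool.Agent.P.MP_389f6f_co.SDefs

/-! A coherent family of homogeneous bases of the spaces `W`. -/

set_option autoImplicit false

namespace Pool.Agent.P.MP_389f6f_co.Sp
open MvPolynomial Finset

namespace CohA

section gen
variable {Ω : Type}

theorem gb_emb {Γ₀ Γ : Type} {V : Submodule ℚ (RR Ω)} {J : Ideal (RR Ω)} {b : Γ₀ → RR Ω}
    {dg : Γ₀ → ℕ} (h : GB V J (fun _ => True) b dg) (e : Γ₀ → Γ) (he : Function.Injective e)
    (val : Γ → Prop) (hv : ∀ γ, val γ ↔ γ ∈ Set.range e) (w : Γ → RR Ω) (dg' : Γ → ℕ)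
    (hw : ∀ i, w (e i) = b i) (hd : ∀ i, dg' (e i) = dg i) : GB V J val w dg' where
  mem γ hγ := by
    obtain ⟨i, rfl⟩ := (hv γ).1 hγ
    rw [hw]; exact h.mem i trivial
  hom γ hγ := by
    obtain ⟨i, rfl⟩ := (hv γ).1 hγ
    rw [hw, hd]; exact h.hom i trivial
  ind c hc hJ := by
    have h1 : Finsupp.mapDomain e (Finsupp.comapDomain e c he.injOn) = c :=
      Finsupp.mapDomain_comapDomain e he c fun γ hγ => (hv γ).1 (hc γ hγ)
    have h2 : w ∘ e = b := funext hw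
    rw [← h1, Finsupp.linearCombination_mapDomain, h2] at hJ
    have h3 := h.ind _ (fun _ _ => trivial) hJ
    rw [← h1, h3, Finsupp.mapDomain_zero]
  spn f hf := by
    obtain ⟨g, hg, hfg⟩ := h.spn f hf
    refine ⟨g, Submodule.span_mono ?_ hg, hfg⟩
    rintro _ ⟨i, -, rfl⟩
    exact ⟨e i, (hv _).2 ⟨i, rfl⟩, hw i⟩

theorem gb_fin {Γ : Type} {V : Submodule ℚ (RR Ω)} {J : Ideal (RR Ω)} {b : Γ → RR Ω}
    {dg : Γ → ℕ} (hG : S_GB Ω) (hJ : HomI J) (h : GB V J (fun _ => True) b dg) (N : ℕ)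
    (hN : ∀ f ∈ V, ∀ k, N ≤ k → f.IsHomogeneous k → f ∈ J) : Finite Γ := by
  have h1 : ∀ i, dg i < N := by
    intro i
    by_contra hi
    have h2 : b i ∈ J := hN _ (h.mem i trivial) _ (not_lt.1 hi) (h.hom i trivial)
    have h3 := h.ind (Finsupp.single i 1) (fun _ _ => trivial) (by
      rw [Finsupp.linearCombination_single, one_smul]; exact h2)
    exact one_ne_zero (Finsupp.single_eq_zero.1 h3)
  have h2 : ∀ k : Fin N, Finite {i // True ∧ dg i = (k : ℕ)} := fun k =>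
    (hG.1 V J Γ _ b dg hJ h k).1
  refine Finite.of_surjective (fun x : Σ k : Fin N, {i // True ∧ dg i = (k : ℕ)} => x.2.1) ?_
  intro i
  exact ⟨⟨⟨dg i, h1 i⟩, ⟨i, trivial, rfl⟩⟩, rfl⟩

theorem ren_congr {S : Set Ω} {f : RR Ω} (hf : f ∈ supported ℚ S) {g h : Ω → Ω}
    (e : ∀ s ∈ S, g s = h s) : rename g f = rename h f := by
  rw [supported_eq_range_rename] at hf
  obtain ⟨f₀, rfl⟩ := hf
  change rename g (rename Subtype.val f₀) = rename h (rename Subtype.val f₀)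
  rw [rename_rename, rename_rename]
  congr 2
  funext s
  exact e s.1 s.2

theorem ren_mul (g h : Equiv.Perm Ω) (f : RR Ω) :
    rename (g * h : Equiv.Perm Ω) f = rename g (rename h f) := by
  rw [rename_rename]; rfl

theorem ren_one (f : RR Ω) : rename (1 : Equiv.Perm Ω) f = f := by
  change rename id f = f
  rw [rename_id]; rfl

theorem fmap_mul (g h : Equiv.Perm Ω) (C : Finset Ω) :
    C.map (g * h : Equiv.Perm Ω).toEmbedding = (C.map h.toEmbedding).map g.toEmbedding := by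
  rw [Finset.map_map]; rfl

theorem fmap_one (C : Finset Ω) : C.map (1 : Equiv.Perm Ω).toEmbedding = C := Finset.map_refl

end gen

variable {Ω I : Type} [Fintype Ω] [DecidableEq Ω] [Fintype I] [DecidableEq I] (Z : Qv Ω I)

omit [Fintype Ω] [DecidableEq Ω] [Fintype I] [DecidableEq I] in
theorem tp_inv {g : Equiv.Perm Ω} (hg : Z.TP g) : Z.TP g⁻¹ := fun s => by
  simpa using (hg (g⁻¹ s)).symm

omit [Fintype Ω] [DecidableEq Ω] [Fintype I] [DecidableEq I] in
theorem tp_mul {g h : Equiv.Perm Ω} (hg : Z.TP g) (hh : Z.TP h) : Z.TP (g * h) := fun s =>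
  (hg (h s)).trans (hh s)

theorem w_ren (hB : Z.S_BAS) (hW : Z.S_WINV) {g : Equiv.Perm Ω} (hg : Z.TP g) {C : Finset Ω}
    {f : RR Ω} (hf : f ∈ Z.W C) : rename g f ∈ Z.W (C.map g.toEmbedding) :=
  ⟨hB.Asym_ren g C f hg hf.1, hW.ff_ren g C 0 2 f hg hf.2⟩

theorem gb_ren (hB : Z.S_BAS) (hW : Z.S_WINV) {g : Equiv.Perm Ω} (hg : Z.TP g) {C : Finset Ω}
    {Γ : Type} {val : Γ → Prop} {b : Γ → RR Ω} {dg : Γ → ℕ}
    (h : GB (Z.W C) (Z.JS C) val b dg) :
    GB (Z.W (C.map g.toEmbedding)) (Z.JS (C.map g.toEmbedding)) val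
      (fun i => rename g (b i)) dg := by
  have hC : (C.map g.toEmbedding).map (g⁻¹ : Equiv.Perm Ω).toEmbedding = C := by
    rw [← fmap_mul, inv_mul_cancel, fmap_one]
  refine ⟨fun i hi => w_ren Z hB hW hg (h.mem i hi),
    fun i hi => (h.hom i hi).rename_isHomogeneous, fun c hc hJ => ?_, fun f hf => ?_⟩
  · refine h.ind c hc ?_
    have h1 := (hB.J_ren g⁻¹ _ _ (tp_inv Z hg)).2.1 hJ
    rw [hC] at h1
    have h2 : Finsupp.linearCombination ℚ (fun i => rename g (b i)) c =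
        rename g (Finsupp.linearCombination ℚ b c) :=
      (Finsupp.apply_linearCombination ℚ
        (rename g : RR Ω →ₐ[ℚ] RR Ω).toLinearMap b c).symm
    rwa [h2, ← ren_mul, inv_mul_cancel, ren_one] at h1
  · have h1 := w_ren Z hB hW (tp_inv Z hg) hf
    rw [hC] at h1
    obtain ⟨u, hu, hfu⟩ := h.spn _ h1
    refine ⟨rename g u, ?_, ?_⟩
    · have h2 := Submodule.mem_map_of_mem
        (f := (rename g : RR Ω →ₐ[ℚ] RR Ω).toLinearMap) hu
      rw [Submodule.map_span, ← Set.image_comp] at h2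
      exact h2
    · have h2 := (hB.J_ren g _ _ hg).2.1 hfu
      rwa [map_sub, ← ren_mul, mul_inv_cancel, ren_one] at h2

omit [Fintype I] in
theorem pm (hP : Z.S_PERM) {h : Equiv.Perm Ω} (hh : Z.TP h) {C : Finset Ω}
    (hC : C.map h.toEmbedding = C) {f : RR Ω} (hf : f ∈ Z.Asym C) :
    rename h f = f ∨ rename h f = -f := by
  have h1 : ∀ x, h x ∈ C ↔ x ∈ C := fun x => by
    conv_lhs => rw [← hC]
    exact Finset.mem_map' h.toEmbedding
  set h' : Equiv.Perm Ω := Equiv.Perm.ofSubtype (h.subtypePerm (p := (· ∈ C)) h1) with hh'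
  have h2 : ∀ s ∈ C, h' s = h s := fun s hs => by
    rw [hh', Equiv.Perm.ofSubtype_apply_of_mem _ hs]; rfl
  have h3 : ∀ s, s ∉ C → h' s = s := fun s hs => by
    rw [hh', Equiv.Perm.ofSubtype_apply_of_not_mem _ hs]
  have h4 : h' ∈ Z.HK C fun _ => 0 := by
    refine ⟨fun s => ?_, h3, fun _ => rfl⟩
    by_cases hs : s ∈ C
    · rw [h2 s hs, hh s]
    · rw [h3 s hs]
  have h5 := hP.bas C (fun _ => 0) f (fun s hs s' hs' e1 e2 _ => hf.2 s hs s' hs' e1 e2) h' h4
  have h6 : rename h f = rename h' f := ren_congr hf.1 fun s hs => (h2 s hs).symm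
  rw [h6]
  have h7 : (((Equiv.Perm.sign h' : ℤˣ) : ℤ) : ℚ) • rename h' f = f := h5
  rcases Int.units_eq_one_or (Equiv.Perm.sign h') with e | e
  · left
    rw [e] at h7
    simpa using h7
  · right
    rw [e] at h7
    rw [← neg_eq_iff_eq_neg]
    simpa using h7

end CohA

open CohA in
theorem t_coh : T_COH := by
  intro Ω I _ _ _ _ Z hB hP hG hW hF hS
  let T := {d : I → ℕ // ∃ C : Finset Ω, C.Nonempty ∧ Z.th C = 0 ∧ Z.dim C = d}
  have : Finite T := by
    refine Finite.of_surjective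
      (fun C : {C : Finset Ω // C.Nonempty ∧ Z.th C = 0} => (⟨Z.dim C.1, C.1, C.2.1, C.2.2, rfl⟩ : T))
      ?_
    rintro ⟨d, C, h1, h2, rfl⟩
    exact ⟨⟨C, h1, h2⟩, rfl⟩
  choose Cd hne hth hdim using fun d : T => d.2
  choose G b dg hgb using fun d : T =>
    hG.2 (Z.W (Cd d)) (Z.JS (Cd d)) (hB.homI _).2.1 (hW.w_hom _)
  have : ∀ d, Finite (G d) := fun d => by
    obtain ⟨N, hN⟩ := hF hS (Cd d) (hne d) (hth d)
    exact gb_fin hG (hB.homI _).2.1 (hgb d) N hN
  have hmv : ∀ (d : T) (C : Finset Ω), ∃ g, Z.TP g ∧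
      (d.1 = Z.dim C → (Cd d).map g.toEmbedding = C) := by
    intro d C
    by_cases h : d.1 = Z.dim C
    · obtain ⟨g, h1, h2⟩ := hP.move (Cd d) C ((hdim d).trans h)
      exact ⟨g, h1, fun _ => h2⟩
    · exact ⟨1, fun _ => rfl, fun h' => absurd h' h⟩
  choose mv htp hmap using hmv
  refine ⟨Σ d : T, G d, Fintype.ofFinite _, ⟨⟨fun γ => γ.1.1, fun γ => dg γ.1 γ.2,
    fun C γ => rename (mv γ.1 C) (b γ.1 γ.2), ?_, ?_, ?_⟩⟩⟩
  · intro C h1 h2
    let d : T := ⟨Z.dim C, C, h1, h2, rfl⟩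
    have h3 := gb_ren Z hB hW (htp d C) (hgb d)
    rw [hmap d C rfl] at h3
    refine gb_emb h3 (Sigma.mk d) sigma_mk_injective _ ?_ _ _ (fun _ => rfl) fun _ => rfl
    rintro ⟨d', i⟩
    constructor
    · intro h
      obtain rfl : d' = d := Subtype.ext h
      exact ⟨i, rfl⟩
    · rintro ⟨j, h⟩
      have h4 : d = d' := congrArg Sigma.fst h
      exact (congrArg Subtype.val h4).symm
  · rintro g C ⟨d, i⟩ hg hd
    have hd' : d.1 = Z.dim (C.map g.toEmbedding) := hd.trans (hB.dim_map g C hg).symm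
    have h1 : Z.TP ((mv d (C.map g.toEmbedding))⁻¹ * (g * mv d C)) :=
      tp_mul Z (tp_inv Z (htp _ _)) (tp_mul Z hg (htp _ _))
    have h2 : (Cd d).map ((mv d (C.map g.toEmbedding))⁻¹ * (g * mv d C) :
        Equiv.Perm Ω).toEmbedding = Cd d := by
      rw [fmap_mul, fmap_mul, hmap d C hd]
      conv_lhs => enter [2]; rw [← hmap d _ hd']
      rw [← fmap_mul, inv_mul_cancel, fmap_one]
    have h3 : rename g (rename (mv d C) (b d i)) = rename (mv d (C.map g.toEmbedding))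
        (rename ((mv d (C.map g.toEmbedding))⁻¹ * (g * mv d C) : Equiv.Perm Ω) (b d i)) := by
      rw [← ren_mul, ← ren_mul, mul_inv_cancel_left]
    change rename g (rename (mv d C) (b d i)) = rename (mv d (C.map g.toEmbedding)) (b d i) ∨
      rename g (rename (mv d C) (b d i)) = -rename (mv d (C.map g.toEmbedding)) (b d i)
    rw [h3]
    rcases pm Z hP h1 h2 ((hgb d).mem i trivial).1 with e | e
    · left; rw [e]
    · right; rw [e, map_neg]
  · rintro ⟨d, i⟩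
    change d.1 ≠ 0 ∧ thd Z.θ d.1 = 0
    refine ⟨fun h => ?_, ?_⟩
    · have h1 := hB.dim_sum (Cd d)
      rw [hdim d, h] at h1
      have h2 := (hne d).card_pos
      simp at h1
      omega
    · rw [← hdim d, ← hB.th_dim, hth d]

end Pool.Agent.P.MP_389f6f_co.Sp
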