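import Pool.Agent.P.MP_389f6f_co.SDefs

set_option autoImplicit false

namespace Pool.Agent.P.MP_389f6f_co.Sp
open MvPolynomial Finset

namespace DivA

/-- the substitution `X j ↦ X j + a • X i` -/
noncomputable def sh (i j : ℕ) (a : ℚ) : MvPolynomial ℕ ℚ →ₐ[ℚ] MvPolynomial ℕ ℚ :=
  aeval fun c => if c = j then X j + C a * X i else X c

theorem sh_X (i j : ℕ) (a : ℚ) (c : ℕ) :
    sh i j a (X c) = if c = j then X j + C a * X i else X c := by
  simp [sh]

theorem sh_sh (i j : ℕ) (hij : i ≠ j) (a : ℚ) (f : MvPolynomial ℕ ℚ) :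
    sh i j (-a) (sh i j a f) = f := by
  have : (sh i j (-a)).comp (sh i j a) = AlgHom.id ℚ _ := by
    refine algHom_ext fun c => ?_
    by_cases hc : c = j
    · subst hc
      simp only [AlgHom.comp_apply, sh_X, if_true, map_add, map_mul, if_neg hij, algHom_C,
        AlgHom.id_apply, algebraMap_eq, map_neg]
      ring
    · simp [sh_X, hc]
  exact DFunLike.congr_fun this f

noncomputable def she (i j : ℕ) (hij : i ≠ j) : MvPolynomial ℕ ℚ ≃* MvPolynomial ℕ ℚ where
  toFun := sh i j (-1)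
  invFun := sh i j 1
  left_inv f := by
    have := sh_sh i j hij (-1) f
    rwa [neg_neg] at this
  right_inv f := sh_sh i j hij 1 f
  map_mul' := map_mul _

theorem sh_neg (i j : ℕ) : sh i j (-1) (X j) = X j - X i := by
  simp only [sh_X, if_true, map_neg, map_one]
  ring

theorem prime_sub (i j : ℕ) (hij : i ≠ j) : Prime (X j - X i : MvPolynomial ℕ ℚ) := by
  rw [← sh_neg]
  exact (MulEquiv.prime_iff (she i j hij)).2 X_prime

theorem X_pow_dvd (j r : ℕ) (f : MvPolynomial ℕ ℚ) (h : ∀ m : ℕ →₀ ℕ, m j < r → coeff m f = 0) :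
    X j ^ r ∣ f := by
  rw [f.as_sum]
  refine Finset.dvd_sum fun m hm => ?_
  have hr : r ≤ m j := by
    by_contra hlt
    exact mem_support_iff.1 hm (h m (not_le.1 hlt))
  rw [X_pow_eq_monomial]
  refine ⟨monomial (m - Finsupp.single j r) (coeff m f), ?_⟩
  rw [monomial_mul, one_mul, add_tsub_cancel_of_le]
  exact Finsupp.single_le_iff.2 hr

theorem part1 (i j r : ℕ) (σ : MvPolynomial ℕ ℚ) (hij : i ≠ j) (h : ∀ m : ℕ →₀ ℕ, m j < r →
    coeff m (aeval (fun c => if c = j then X i + X j else (X c : MvPolynomial ℕ ℚ)) σ) = 0) :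
    (X j - X i) ^ r ∣ σ := by
  have e : (fun c => if c = j then X i + X j else (X c : MvPolynomial ℕ ℚ)) =
      fun c => if c = j then X j + C 1 * X i else X c := by
    funext c
    simp [add_comm]
  rw [e] at h
  have h1 : X j ^ r ∣ sh i j 1 σ := X_pow_dvd j r _ h
  have h2 := map_dvd (sh i j (-1)) h1
  rwa [sh_sh i j hij 1 σ, map_pow, sh_neg] at h2

theorem not_dvd (x y : ℕ × ℕ) (hx : x.1 < x.2) (hy : y.1 < y.2) (hxy : x ≠ y) :
    ¬ (X x.2 - X x.1 : MvPolynomial ℕ ℚ) ∣ X y.2 - X y.1 := by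
  intro h
  have h2 := map_dvd (eval fun c : ℕ => if c = x.2 then (x.1 : ℚ) else (c : ℚ)) h
  simp only [map_sub, eval_X, if_true, if_neg hx.ne, sub_self, zero_dvd_iff, sub_eq_zero] at h2
  obtain ⟨a, b⟩ := x
  obtain ⟨c, d⟩ := y
  simp only [ne_eq, Prod.mk.injEq] at *
  split_ifs at h2 with h3 h4 h4 <;> norm_cast at h2 <;> omega

end DivA

theorem t_div : S_DIV := by
  refine ⟨fun i j r σ hij h => DivA.part1 i j r σ hij h, fun s r σ hs h => ?_⟩
  refine Finset.prod_dvd_of_isRelPrime (fun x hx y hy hxy => ?_) h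
  refine IsRelPrime.pow ?_
  exact (DivA.prime_sub _ _ (hs x hx).ne).irreducible.isRelPrime_iff_not_dvd.2
    (DivA.not_dvd x y (hs x hx) (hs y hy) hxy)

end Pool.Agent.P.MP_389f6f_co.Sp
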