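import Pool.Agent.P.MP_389f6f_co.SDefs

/-! Symbols of Euler classes. -/

set_option autoImplicit false
set_option linter.unusedSectionVars false

namespace Pool.Agent.P.MP_389f6f_co.Sp
open MvPolynomial Finset

namespace EkA

section top
variable {R : Type} [CommRing R]

def Low (n : ℕ) (r : MvPolynomial ℕ R) : Prop := ∀ m : ℕ →₀ ℕ, n ≤ m.degree → coeff m r = 0

theorem Low.add {n : ℕ} {r s : MvPolynomial ℕ R} (h : Low n r) (h' : Low n s) :
    Low n (r + s) := fun m hm => by rw [coeff_add, h m hm, h' m hm, add_zero]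

theorem Low.mono {n k : ℕ} {r : MvPolynomial ℕ R} (h : Low n r) (hk : n ≤ k) : Low k r :=
  fun m hm => h m (hk.trans hm)

theorem Low.mul {n k : ℕ} {r s : MvPolynomial ℕ R} (h : Low n r) (h' : Low (k + 1) s) :
    Low (n + k) (r * s) := by
  classical
  intro m hm
  rw [coeff_mul]
  refine sum_eq_zero fun x hx => ?_
  have hx' : x.1.degree + x.2.degree = m.degree := by
    rw [← map_add, mem_antidiagonal.1 hx]
  by_cases h1 : n ≤ x.1.degree
  · rw [h _ h1, zero_mul]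
  · rw [h' x.2 (by omega), mul_zero]

theorem low_hom {n : ℕ} {q : MvPolynomial ℕ R} (h : q.IsHomogeneous n) : Low (n + 1) q :=
  fun m hm => h.coeff_eq_zero (by omega)

def Top (n : ℕ) (p q : MvPolynomial ℕ R) : Prop := q.IsHomogeneous n ∧ Low n (p - q)

theorem top_one : Top 0 (1 : MvPolynomial ℕ R) 1 :=
  ⟨isHomogeneous_one _ _, fun m _ => by simp⟩

theorem Top.mul {n k : ℕ} {p q p' q' : MvPolynomial ℕ R} (h : Top n p q) (h' : Top k p' q') :
    Top (n + k) (p * p') (q * q') := by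
  refine ⟨h.1.mul h'.1, ?_⟩
  have e : p * p' - q * q' = (p - q) * (q' + (p' - q')) + (p' - q') * q := by ring
  rw [e]
  refine (h.2.mul ((low_hom h'.1).add (h'.2.mono (Nat.le_succ k)))).add ?_
  rw [add_comm n k]
  exact h'.2.mul (low_hom h.1)

theorem Top.pow {p q : MvPolynomial ℕ R} (h : Top 1 p q) (a : ℕ) : Top a (p ^ a) (q ^ a) := by
  induction a with
  | zero => simpa using top_one
  | succ a ih => rw [pow_succ, pow_succ]; exact ih.mul h

theorem top_prod {ι : Type} (s : Finset ι) (n : ι → ℕ) (p q : ι → MvPolynomial ℕ R)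
    (h : ∀ i ∈ s, Top (n i) (p i) (q i)) :
    Top (∑ i ∈ s, n i) (∏ i ∈ s, p i) (∏ i ∈ s, q i) := by
  classical
  induction s using Finset.induction_on with
  | empty => simpa using top_one
  | insert a s ha ih =>
    rw [sum_insert ha, prod_insert ha, prod_insert ha]
    exact (h a (mem_insert_self _ _)).mul (ih fun i hi => h i (mem_insert_of_mem hi))

theorem top_lin (x y : R) (i j : ℕ) :
    Top 1 ((C x + X j) - (C y + X i) : MvPolynomial ℕ R) (X j - X i) := by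
  classical
  refine ⟨(isHomogeneous_X _ _).sub (isHomogeneous_X _ _), fun m hm => ?_⟩
  have e : ((C x + X j) - (C y + X i) : MvPolynomial ℕ R) - (X j - X i) = C (x - y) := by
    rw [map_sub]; ring
  rw [e, coeff_C, if_neg]
  rintro rfl
  simp at hm

end top

variable {Ω I : Type} [Fintype Ω] [DecidableEq Ω] [Fintype I] [DecidableEq I] (Z : Qv Ω I)

theorem top (B : Finset Ω) (κ κ' : Ω → ℕ) (m : ℕ →₀ ℕ) (hm : Z.r1 B κ' ≤ m.degree) :
    coeff m (TT B κ (Z.ek B κ')) = C (coeff m (Z.DL B κ κ')) := by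
  have h : Top (Z.r1 B κ') (TT B κ (Z.ek B κ'))
      (MvPolynomial.map (C : ℚ →+* RR Ω) (Z.DL B κ κ')) := by
    unfold Qv.r1 Qv.ek Qv.DL
    simp only [map_prod]
    refine top_prod _ _ _ _ fun s hs => top_prod _ _ _ _ fun s' hs' => ?_
    split_ifs with hlt
    · simp only [map_pow, map_sub, TT, aeval_X, if_pos hs, if_pos hs', map_X]
      exact (top_lin _ _ _ _).pow _
    · simp only [map_one]
      exact top_one
  have h2 := h.2 m hm
  rw [coeff_sub, sub_eq_zero, coeff_map] at h2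
  exact h2

theorem hom (B : Finset Ω) (κ κ' : Ω → ℕ) : (Z.DL B κ κ').IsHomogeneous (Z.r1 B κ') := by
  unfold Qv.r1 Qv.DL
  refine IsHomogeneous.prod _ _ _ fun s _ => IsHomogeneous.prod _ _ _ fun s' _ => ?_
  split_ifs with hlt
  · simpa using ((isHomogeneous_X ℚ (κ s')).sub (isHomogeneous_X ℚ (κ s))).pow
      (Z.a (Z.ty s) (Z.ty s'))
  · exact isHomogeneous_one _ _

theorem ne (B : Finset Ω) (κ κ' : Ω → ℕ) (h : Crs B κ κ') : Z.DL B κ κ' ≠ 0 := by
  unfold Qv.DL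
  refine prod_ne_zero_iff.2 fun s hs => prod_ne_zero_iff.2 fun s' hs' => ?_
  split_ifs with hlt
  · refine pow_ne_zero _ (sub_ne_zero.2 fun e => ?_)
    have := h s' hs' s hs (X_injective e)
    omega
  · exact one_ne_zero

/-- number of arrows between two blocks -/
def rr (B : Finset Ω) (κ : Ω → ℕ) (c c' : ℕ) : ℕ :=
  arr Z.a (Z.dim (fib B κ c)) (Z.dim (fib B κ c'))

def TR (B : Finset Ω) (κ : Ω → ℕ) : Finset (ℕ × ℕ) :=
  ((B.image κ) ×ˢ (B.image κ)).filter (fun x => x.1 < x.2)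

theorem gen (hb : Z.S_BAS) (B : Finset Ω) (κ κ' : Ω → ℕ) (σ : ℕ → ℕ)
    (hσ : ∀ s ∈ B, κ' s = σ (κ s)) :
    Z.DL B κ κ' = ∏ x ∈ (B.image κ) ×ˢ (B.image κ),
      if σ x.1 < σ x.2 then (X x.2 - X x.1) ^ rr Z B κ x.1 x.2 else 1 := by
  unfold Qv.DL
  rw [prod_product, ← prod_fiberwise_of_maps_to (s := B) (t := B.image κ) (g := κ)
    (fun s hs => mem_image_of_mem κ hs)]
  refine prod_congr rfl fun c _ => ?_
  have e1 : ∀ s ∈ B.filter (fun s => κ s = c),
      (∏ s' ∈ B, if κ' s < κ' s' then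
        (X (κ s') - X (κ s) : MvPolynomial ℕ ℚ) ^ Z.a (Z.ty s) (Z.ty s') else 1) =
      ∏ c' ∈ B.image κ, ∏ s' ∈ B.filter (fun s => κ s = c'),
        if σ c < σ c' then (X c' - X c : MvPolynomial ℕ ℚ) ^ Z.a (Z.ty s) (Z.ty s') else 1 := by
    intro s hs
    rw [mem_filter] at hs
    rw [← prod_fiberwise_of_maps_to (s := B) (t := B.image κ) (g := κ)
      (fun s hs => mem_image_of_mem κ hs)]
    refine prod_congr rfl fun c' _ => prod_congr rfl fun s' hs' => ?_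
    rw [mem_filter] at hs'
    rw [hσ s hs.1, hσ s' hs'.1, hs.2, hs'.2]
  rw [prod_congr rfl e1, prod_comm]
  refine prod_congr rfl fun c' _ => ?_
  split_ifs with hlt
  · rw [rr, hb.arr_dim, ← prod_pow_eq_pow_sum]
    refine prod_congr rfl fun s _ => ?_
    rw [← prod_pow_eq_pow_sum]
    rfl
  · simp

theorem prd (hb : Z.S_BAS) (B : Finset Ω) (κ : Ω → ℕ) :
    Z.DL B κ κ = ∏ x ∈ TR B κ, (X x.2 - X x.1) ^ rr Z B κ x.1 x.2 := by
  rw [gen Z hb B κ κ id fun _ _ => rfl, TR, prod_filter]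
  rfl

theorem rr_symm (hb : Z.S_BAS) (hs : Sym Z.a Z.θ) {B : Finset Ω} {κ : Ω → ℕ} (ha : Z.Adm B κ)
    (c c' : ℕ) : rr Z B κ c c' = rr Z B κ c' c :=
  hs _ _ (by rw [← hb.th_dim]; exact ha c) (by rw [← hb.th_dim]; exact ha c')

theorem tri {M : Type} [CommMonoid M] (S : Finset ℕ) (F : ℕ × ℕ → M) (hd : ∀ c, F (c, c) = 1) :
    ∏ x ∈ S ×ˢ S, F x = ∏ x ∈ (S ×ˢ S).filter (fun x => x.1 < x.2), (F x * F x.swap) := by
  rw [prod_mul_distrib, ← prod_filter_mul_prod_filter_not (S ×ˢ S) (fun x => x.1 < x.2)]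
  congr 1
  rw [← prod_filter_mul_prod_filter_not ((S ×ˢ S).filter fun x => ¬x.1 < x.2)
    (fun x => x.2 < x.1)]
  have h1 : ∏ x ∈ ((S ×ˢ S).filter fun x => ¬x.1 < x.2).filter (fun x => ¬x.2 < x.1), F x = 1 := by
    refine prod_eq_one fun x hx => ?_
    simp only [mem_filter] at hx
    obtain ⟨a, b⟩ := x
    have : a = b := by have := hx.1.2; have := hx.2; simp only at *; omega
    subst this
    exact hd a
  rw [h1, mul_one]
  refine prod_nbij' Prod.swap Prod.swap ?_ ?_ ?_ ?_ ?_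
  · intro x hx
    simp only [mem_filter, mem_product, Prod.fst_swap, Prod.snd_swap] at hx ⊢
    exact ⟨⟨hx.1.1.2, hx.1.1.1⟩, hx.2⟩
  · intro x hx
    simp only [mem_filter, mem_product, Prod.fst_swap, Prod.snd_swap] at hx ⊢
    exact ⟨⟨⟨hx.1.2, hx.1.1⟩, by omega⟩, hx.2⟩
  · intro x _; simp
  · intro x _; simp
  · intro x _; simp

theorem sign (hb : Z.S_BAS) (hs : Sym Z.a Z.θ) (B : Finset Ω) (κ κ' : Ω → ℕ) (σ : ℕ → ℕ)
    (ha : Z.Adm B κ) (hσ : ∀ s ∈ B, κ' s = σ (κ s))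
    (hi : ∀ c ∈ B.image κ, ∀ c' ∈ B.image κ, σ c = σ c' → c = c') :
    Z.DL B κ κ' = (-1) ^ (∑ x ∈ TR B κ, if σ x.1 < σ x.2 then 0 else rr Z B κ x.1 x.2) *
      Z.DL B κ κ := by
  rw [gen Z hb B κ κ' σ hσ, prd Z hb, tri _ _ (fun c => by simp), ← prod_pow_eq_pow_sum,
    ← prod_mul_distrib]
  refine prod_congr rfl fun x hx => ?_
  simp only [TR, mem_filter, mem_product] at hx
  simp only [Prod.fst_swap, Prod.snd_swap]
  by_cases h : σ x.1 < σ x.2
  · rw [if_pos h, if_pos h, if_neg (by omega)]; simp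
  · have h2 : σ x.2 < σ x.1 := by
      have := hi _ hx.1.1 _ hx.1.2
      have := hx.2
      omega
    rw [if_neg h, if_neg h, if_pos h2, rr_symm Z hb hs ha x.2 x.1, one_mul, ← mul_pow]
    congr 1
    ring

theorem sgn (hb : Z.S_BAS) (hs : Sym Z.a Z.θ) (B : Finset Ω) (κ κ' : Ω → ℕ)
    (ha : Z.Adm B κ) (h1 : Crs B κ κ') (h2 : Crs B κ' κ) :
    Z.DL B κ κ' = Z.DL B κ κ ∨ Z.DL B κ κ' = -Z.DL B κ κ := by
  classical
  let σ : ℕ → ℕ := fun c => if h : ∃ s ∈ B, κ s = c then κ' h.choose else 0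
  have hσ : ∀ s ∈ B, κ' s = σ (κ s) := by
    intro s hs'
    have h : ∃ t ∈ B, κ t = κ s := ⟨s, hs', rfl⟩
    simp only [σ, dif_pos h]
    exact h1 s hs' _ h.choose_spec.1 h.choose_spec.2.symm
  have hi : ∀ c ∈ B.image κ, ∀ c' ∈ B.image κ, σ c = σ c' → c = c' := by
    intro c hc c' hc' e
    obtain ⟨s, hs1, rfl⟩ := mem_image.1 hc
    obtain ⟨s', hs2, rfl⟩ := mem_image.1 hc'
    rw [← hσ s hs1, ← hσ s' hs2] at e
    exact h2 s hs1 s' hs2 e
  rw [sign Z hb hs B κ κ' σ ha hσ hi]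
  rcases neg_one_pow_eq_or (MvPolynomial ℕ ℚ)
    (∑ x ∈ TR B κ, if σ x.1 < σ x.2 then 0 else rr Z B κ x.1 x.2) with h | h
  · left; rw [h, one_mul]
  · right; rw [h, neg_one_mul]

theorem inv_swap (S : Finset ℕ) (r : ℕ → ℕ → ℕ) (i j : ℕ) (hij : i < j) (hi : i ∈ S) (hj : j ∈ S)
    (hr : ∀ l, r l j = r i l) :
    ∃ k, (∑ x ∈ (S ×ˢ S).filter (fun x => x.1 < x.2),
      if Equiv.swap i j x.1 < Equiv.swap i j x.2 then 0 else r x.1 x.2) = r i i + 2 * k := by
  refine ⟨∑ l ∈ S, if i < l ∧ l < j then r i l else 0, ?_⟩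
  have e : ∀ a ∈ S, ∀ b ∈ S, (if a < b then
      (if Equiv.swap i j a < Equiv.swap i j b then 0 else r a b) else 0) =
      (if b = j then (if a = i then r i i else 0) else 0) +
      ((if a = i then (if i < b ∧ b < j then r i b else 0) else 0) +
        (if b = j then (if i < a ∧ a < j then r i a else 0) else 0)) := by
    intro a _ b _
    have h1 := hr a
    simp only [Equiv.swap_apply_def]
    split_ifs <;> first | omega | (subst_vars; omega)
  rw [sum_filter, sum_product, sum_congr rfl fun a ha => sum_congr rfl fun b hb => e a ha b hb]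
  simp only [sum_add_distrib, sum_ite_eq', if_pos hj, if_pos hi]
  rw [sum_comm]
  simp only [sum_ite_eq', if_pos hi]
  ring

theorem swp_lt (hb : Z.S_BAS) (hs : Sym Z.a Z.θ) (B : Finset Ω) (κ : Ω → ℕ) (i j : ℕ)
    (ha : Z.Adm B κ) (hij : i < j) (hd : Z.dim (fib B κ i) = Z.dim (fib B κ j)) :
    Z.DL B κ (fun s => Equiv.swap i j (κ s)) = (-1) ^ rr Z B κ i i * Z.DL B κ κ := by
  have hc : (fib B κ i).card = (fib B κ j).card := by rw [← hb.dim_sum, ← hb.dim_sum, hd]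
  have hm : ∀ c, c ∈ B.image κ ↔ 0 < (fib B κ c).card := by
    intro c
    rw [card_pos, mem_image, fib, filter_nonempty_iff]
  rw [sign Z hb hs B κ _ (Equiv.swap i j) ha (fun _ _ => rfl)
    fun c _ c' _ e => (Equiv.swap i j).injective e]
  by_cases hi : i ∈ B.image κ
  · have hj : j ∈ B.image κ := by rw [hm] at hi ⊢; omega
    obtain ⟨k, hk⟩ := inv_swap (B.image κ) (rr Z B κ) i j hij hi hj fun l => by
      rw [rr_symm Z hb hs ha l j, rr, ← hd, rr]
    rw [TR, hk, pow_add, pow_mul]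
    simp
  · have hj : j ∉ B.image κ := by rw [hm] at hi ⊢; omega
    have h0 : rr Z B κ i i = 0 := by
      rw [hm, not_lt, Nat.le_zero, card_eq_zero] at hi
      rw [rr, hb.arr_dim, hi, sum_empty]
    rw [h0, sum_eq_zero]
    intro x hx
    simp only [TR, mem_filter, mem_product] at hx
    have f : ∀ c ∈ B.image κ, Equiv.swap i j c = c := fun c hq =>
      Equiv.swap_apply_of_ne_of_ne (fun e => hi (by rw [← e]; exact hq))
        (fun e => hj (by rw [← e]; exact hq))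
    rw [f _ hx.1.1, f _ hx.1.2, if_pos hx.2]

theorem swp (hb : Z.S_BAS) (hs : Sym Z.a Z.θ) (B : Finset Ω) (κ : Ω → ℕ) (i j : ℕ)
    (ha : Z.Adm B κ) (hij : i ≠ j) (hd : Z.dim (fib B κ i) = Z.dim (fib B κ j)) :
    Z.DL B κ (fun s => Equiv.swap i j (κ s)) = (-1) ^ rr Z B κ i i * Z.DL B κ κ := by
  rcases lt_or_gt_of_ne hij with h | h
  · exact swp_lt Z hb hs B κ i j ha h hd
  · rw [Equiv.swap_comm, rr, hd]
    exact swp_lt Z hb hs B κ j i ha h hd.symm

theorem low (ht : S_TAY Ω) (hb : Z.S_BAS) (hs : Sym Z.a Z.θ) (B : Finset Ω) (κ κ' : Ω → ℕ)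
    (ε : ℚ) (ha : Z.Adm B κ) (h1 : Crs B κ κ') (h2 : Crs B κ' κ)
    (he : Z.DL B κ κ' = ε • Z.DL B κ κ) :
    Z.ek B κ' - ε • Z.ek B κ ∈ Lt ⊥ B κ (Z.R2 B κ) := by
  rw [ht.tl]
  intro m hm
  obtain ⟨r1, r2, -⟩ := hb.rel B κ κ' h1 h2
  have e1 := hb.R2_eq hs B κ ha
  have e2 := hb.R2_eq hs B κ' (r1 ha)
  rw [Ideal.mem_bot, map_sub, map_smul, coeff_sub, coeff_smul, top Z B κ κ' m (by omega),
    top Z B κ κ m (by omega), he, coeff_smul, smul_eq_mul, smul_eq_C_mul, map_mul, sub_self]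

end EkA

theorem t_ek : T_EK := fun _ _ _ _ _ _ Z ht hb =>
  { top := EkA.top Z
    hom := EkA.hom Z
    ne := EkA.ne Z
    prd := EkA.prd Z hb
    sgn := EkA.sgn Z hb
    swp := EkA.swp Z hb
    low := EkA.low Z ht hb }

end Pool.Agent.P.MP_389f6f_co.Sp
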