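import Pool.Agent.P.MP_389f6f_co.SDefs

/-! Finiteness of the spaces `W` modulo the unstable ideal. -/

set_option autoImplicit false
set_option linter.unusedSectionVars false

namespace Pool.Agent.P.MP_389f6f_co.Sp
open MvPolynomial Finset

namespace FinA

section gen
variable {Ω : Type}

theorem hc_mul (r g : RR Ω) (k : ℕ) (J : Ideal (RR Ω))
    (h : ∀ i j, i + j = k → j ≤ g.totalDegree →
      homogeneousComponent i r * homogeneousComponent j g ∈ J) :
    homogeneousComponent k (r * g) ∈ J := by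
  rw [← sum_homogeneousComponent r, ← sum_homogeneousComponent g, sum_mul_sum, map_sum]
  refine J.sum_mem fun i _ => ?_
  rw [map_sum]
  refine J.sum_mem fun j hj => ?_
  have hm : homogeneousComponent i r * homogeneousComponent j g ∈
      homogeneousSubmodule Ω ℚ (i + j) :=
    (homogeneousComponent_isHomogeneous i r).mul (homogeneousComponent_isHomogeneous j g)
  rw [homogeneousComponent_of_mem hm]
  split_ifs with hk
  · exact h i j hk.symm (Nat.lt_succ_iff.1 (mem_range.1 hj))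
  · exact J.zero_mem

theorem hom_mem_pow (f : RR Ω) (i n : ℕ) (hf : f.IsHomogeneous i) (hn : n ≤ i) :
    f ∈ idealOfVars Ω ℚ ^ n := by
  rw [mem_pow_idealOfVars_iff']
  intro x hx
  exact hf.coeff_eq_zero (by omega)

/-- a homogeneous ideal killed by an ideal with radical the irrelevant ideal -/
theorem high [Fintype Ω] (K I0 J : Ideal (RR Ω)) (hK : HomI K)
    (hI : ∀ s, (X s : RR Ω) ∈ I0.radical) (hm : ∀ a ∈ I0, ∀ f ∈ K, a * f ∈ J) :
    ∃ N, ∀ f ∈ K, ∀ k, N ≤ k → f.IsHomogeneous k → f ∈ J := by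
  obtain ⟨n, hn⟩ : ∃ n : ℕ, idealOfVars Ω ℚ ^ n ≤ I0 := by
    refine Ideal.exists_pow_le_of_le_radical_of_fg ?_ (idealOfVars_fg Ω ℚ)
    rw [idealOfVars, Ideal.span_le]
    rintro _ ⟨s, rfl⟩
    exact hI s
  obtain ⟨S, hS⟩ : K.FG := IsNoetherian.noetherian K
  refine ⟨n + S.sup totalDegree, fun f hf k hk hfk => ?_⟩
  have key : ∀ f ∈ Ideal.span (S : Set (RR Ω)), ∀ r, homogeneousComponent k (r * f) ∈ J := by
    intro f hf
    induction hf using Submodule.span_induction with
    | mem g hg =>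
      intro r
      refine hc_mul r g k J fun i j hij hj => hm _ (hn ?_) _ (hK g ?_ j)
      · have : g.totalDegree ≤ S.sup totalDegree := le_sup (f := totalDegree) hg
        exact hom_mem_pow _ i n (homogeneousComponent_isHomogeneous i r) (by omega)
      · rw [← hS]; exact Ideal.subset_span hg
    | zero => intro r; rw [mul_zero, map_zero]; exact J.zero_mem
    | add a b _ _ ha hb => intro r; rw [mul_add, map_add]; exact J.add_mem (ha r) (hb r)
    | smul a b _ hb => intro r; rw [smul_eq_mul, ← mul_assoc]; exact hb _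
  have := key f (by rw [hS]; exact hf) 1
  rwa [one_mul, homogeneousComponent_of_mem (n := k) hfk, if_pos rfl] at this

variable [DecidableEq Ω]

/-- the retraction killing the variables outside `B` -/
noncomputable def ret (B : Finset Ω) : RR Ω →ₐ[ℚ] RR Ω :=
  aeval fun s => if s ∈ B then X s else 0

theorem ret_supp (B : Finset Ω) (f : RR Ω) (hf : f ∈ supported ℚ (B : Set Ω)) : ret B f = f := by
  have : supported ℚ (B : Set Ω) ≤ AlgHom.equalizer (ret B) (AlgHom.id ℚ (RR Ω)) := by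
    rw [supported_eq_adjoin_X, Algebra.adjoin_le_iff]
    rintro _ ⟨s, hs, rfl⟩
    have hs' : s ∈ B := hs
    simp [ret, hs']
  exact this hf

variable [Fintype Ω]

theorem Lt_mono (J : Ideal (RR Ω)) (B : Finset Ω) (κ : Ω → ℕ) {N N' : ℕ} (h : N ≤ N') {f : RR Ω}
    (hf : f ∈ Lt J B κ N) : f ∈ Lt J B κ N' := fun l h1 h2 => hf l h1 (h.trans h2)

theorem Dl_rep (v : Ω → ℚ) (n : ℕ) : Dl (List.replicate n v) = Dv v ^ n := by
  rw [Dl, List.map_replicate, List.prod_replicate]

/-- the indicator of `B` -/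
def ind (B : Finset Ω) : Ω → ℚ := fun s => if s ∈ B then 1 else 0

omit [Fintype Ω] in
theorem ind_cst (B : Finset Ω) (κ : Ω → ℕ) : Cst B κ (ind B) :=
  ⟨fun s hs => if_neg hs, fun s hs s' hs' _ => by simp [ind, hs, hs']⟩

theorem D_pp (T : S_TAY Ω) (B : Finset Ω) : Dv (ind B) (pp B) = C (B.card : ℚ) := by
  rw [pp, map_sum, sum_congr rfl fun s hs => (T.dX (ind B) s).trans (congrArg C (if_pos hs))]
  simp

theorem D_pow (T : S_TAY Ω) (B : Finset Ω) (h : RR Ω) (n : ℕ) :
    (Dv (ind B) ^ (n + 1)) (pp B * h) =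
      C ((n + 1 : ℕ) * B.card : ℚ) * (Dv (ind B) ^ n) h + pp B * (Dv (ind B) ^ (n + 1)) h := by
  induction n with
  | zero => simp [T.leib, D_pp T]
  | succ n ih =>
    have hC : ∀ (c : ℚ) (g : RR Ω), Dv (ind B) (C c * g) = C c * Dv (ind B) g := by
      intro c g
      rw [C_mul', C_mul', map_smul]
    have hp : ∀ (m : ℕ) (g : RR Ω), (Dv (ind B) ^ (m + 1)) g = Dv (ind B) ((Dv (ind B) ^ m) g) := by
      intro m g
      rw [pow_succ', Module.End.mul_apply]
    rw [hp (n + 1), ih, map_add, hC, T.leib, D_pp T, ← hp, ← hp]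
    push_cast
    simp only [map_mul, map_add, map_one]
    ring

theorem cancel_pp (T : S_TAY Ω) (B : Finset Ω) (hB : B.Nonempty) (J : Ideal (RR Ω))
    (hJ : ∀ f ∈ J, Dv (ind B) f ∈ J) (h : RR Ω) (hh : Dv (ind B) (pp B * h) ∈ J) : h ∈ J := by
  have h1 : ∀ n, (Dv (ind B) ^ (n + 1)) (pp B * h) ∈ J := by
    intro n
    induction n with
    | zero => simpa using hh
    | succ n ih => rw [pow_succ', Module.End.mul_apply]; exact hJ _ ih
  have h2 : ∀ m n, h.totalDegree + 1 ≤ n + m → (Dv (ind B) ^ n) h ∈ J := by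
    intro m
    induction m with
    | zero =>
      intro n hn
      rw [← Dl_rep]
      refine T.deg J B (fun _ => 0) (2 * n) h (by omega) _ (fun v hv => ?_) (by simp)
      rw [List.eq_of_mem_replicate hv]
      exact ind_cst B _
    | succ m ih =>
      intro n hn
      have h3 := h1 n
      rw [D_pow T] at h3
      have h4 := (J.add_mem_iff_left (J.mul_mem_left (pp B) (ih (n + 1) (by omega)))).1 h3
      have hne : ((n + 1 : ℕ) * B.card : ℚ) ≠ 0 := by
        have := hB.card_pos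
        positivity
      have h5 := J.mul_mem_left (C ((n + 1 : ℕ) * B.card : ℚ)⁻¹) h4
      rwa [← mul_assoc, ← map_mul, inv_mul_cancel₀ hne, map_one, one_mul] at h5
  simpa using h2 (h.totalDegree + 1) 0 (by omega)

end gen

variable {Ω I : Type} [Fintype Ω] [DecidableEq Ω] [Fintype I] [DecidableEq I] (Z : Qv Ω I)

omit [Fintype Ω] [Fintype I] [DecidableEq I] in
theorem ee_union (A C D : Finset Ω) (h : Disjoint C D) :
    Z.ee A (C ∪ D) = Z.ee A C * Z.ee A D := by
  simp only [Qv.ee, prod_union h, prod_mul_distrib]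

omit [Fintype Ω] [Fintype I] [DecidableEq I] in
theorem th_sdiff (A B : Finset Ω) (h : A ⊆ B) : Z.th (B \ A) = Z.th B - Z.th A := by
  rw [Qv.th, Qv.th, Qv.th, ← sum_sdiff h]
  ring

theorem ee_mul_JS (H : Z.S_BAS) (B C : Finset Ω) (hC : C ⊆ B) (f : RR Ω) (hf : f ∈ Z.JS C) :
    Z.ee C (B \ C) * f ∈ Z.JS B := by
  induction hf using Submodule.span_induction with
  | mem g hg =>
    obtain ⟨A, hA, hth, rfl⟩ := hg
    have h1 : Z.ee A (B \ A) ∈ Z.JS B := Ideal.subset_span ⟨A, hA.trans hC, hth, rfl⟩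
    have h2 : B \ A = (B \ C) ∪ (C \ A) := (sdiff_union_sdiff_cancel hC hA).symm
    refine Ideal.mem_of_dvd _ ?_ h1
    rw [h2, ee_union Z _ _ _ (disjoint_of_subset_right sdiff_subset sdiff_disjoint)]
    exact mul_dvd_mul_right (H.ee_dvd _ _ _ _ hA Subset.rfl) _
  | zero => rw [mul_zero]; exact Ideal.zero_mem _
  | add a b _ _ ha hb => rw [mul_add]; exact Ideal.add_mem _ ha hb
  | smul a b _ hb => rw [smul_eq_mul, mul_left_comm]; exact Ideal.mul_mem_left _ _ hb

omit [Fintype Ω] [DecidableEq Ω] in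
theorem fib_zero (B : Finset Ω) (c : ℕ) :
    fib B (fun _ => 0) c = if c = 0 then B else ∅ := by
  split_ifs with h
  · subst h; simp [fib]
  · simp [fib, Ne.symm h]

theorem Jk_zero (H : Z.S_BAS) (B : Finset Ω) : Z.Jk B (fun _ => 0) = Z.JS B := by
  refine le_antisymm (iSup_le fun c => ?_) (H.JS_le B _)
  rw [fib_zero]
  split_ifs
  · exact le_rfl
  · rw [H.JS_empty]; exact bot_le

/-- the intersection of the ideals of the proper admissible partitions -/
noncomputable def KK (B : Finset Ω) : Ideal (RR Ω) :=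
  ⨅ κ : Ω → ℕ, ⨅ _ : Z.Adm B κ ∧ 2 ≤ nb B κ, Z.Jk B κ

omit [Fintype Ω] [Fintype I] [DecidableEq I] in
theorem mem_KK (B : Finset Ω) (f : RR Ω) :
    f ∈ KK Z B ↔ ∀ κ, Z.Adm B κ → 2 ≤ nb B κ → f ∈ Z.Jk B κ := by
  simp only [KK, Ideal.mem_iInf, and_imp]

theorem homI_Jk (H : Z.S_BAS) (B : Finset Ω) (κ : Ω → ℕ) : HomI (Z.Jk B κ) :=
  H.homI_iSup ℕ _ fun c => (H.homI (fib B κ c)).2.1

theorem vA_mul (H : Z.S_BAS) (B A : Finset Ω) (hB : Z.th B = 0) (hA : A ⊆ B) (h0 : A.Nonempty)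
    (h1 : A ≠ B) (f : RR Ω) (hf : f ∈ KK Z B) :
    Z.ee A (B \ A) * Z.ee (B \ A) A * f ∈ Z.JS B := by
  have hAA : B \ (B \ A) = A := Finset.sdiff_sdiff_eq_self hA
  rcases lt_trichotomy (Z.th A) 0 with h | h | h
  · have : Z.ee (B \ A) A ∈ Z.JS B :=
      Ideal.subset_span ⟨B \ A, sdiff_subset, by rw [th_sdiff Z A B hA]; linarith, by rw [hAA]⟩
    exact Ideal.mul_mem_right _ _ (Ideal.mul_mem_left _ _ this)
  · set κ : Ω → ℕ := fun s => if s ∈ A then 0 else 1 with hκ
    have hfib : ∀ c, fib B κ c = if c = 0 then A else if c = 1 then B \ A else ∅ := by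
      intro c
      ext s
      have := @hA s
      by_cases hs : s ∈ A <;> split_ifs with hc hc' <;> simp_all [fib, Ne.symm]
    have hadm : Z.Adm B κ := by
      intro c
      rw [hfib]
      split_ifs
      · exact h
      · rw [th_sdiff Z A B hA, hB, h, sub_zero]
      · simp [Qv.th]
    have hnb : 2 ≤ nb B κ := by
      obtain ⟨s, hs⟩ := h0
      obtain ⟨t, ht, ht'⟩ := exists_of_ssubset (Finset.ssubset_iff_subset_ne.2 ⟨hA, h1⟩)
      refine one_lt_card.2 ⟨κ s, mem_image_of_mem _ (hA hs), κ t, mem_image_of_mem _ ht, ?_⟩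
      simp [hκ, hs, ht']
    have hf' := (mem_KK Z B f).1 hf κ hadm hnb
    have hle : Z.Jk B κ ≤ (Z.JS B).colon {Z.ee A (B \ A) * Z.ee (B \ A) A} := by
      refine iSup_le fun c g hg => ?_
      rw [Submodule.mem_colon_singleton, smul_eq_mul]
      rw [hfib] at hg
      split_ifs at hg
      · have := ee_mul_JS Z H B A hA g hg
        have h2 := Ideal.mul_mem_left _ (Z.ee (B \ A) A) this
        rwa [show Z.ee (B \ A) A * (Z.ee A (B \ A) * g) =
          g * (Z.ee A (B \ A) * Z.ee (B \ A) A) by ring] at h2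
      · have := ee_mul_JS Z H B (B \ A) sdiff_subset g hg
        rw [hAA] at this
        have h2 := Ideal.mul_mem_left _ (Z.ee A (B \ A)) this
        rwa [show Z.ee A (B \ A) * (Z.ee (B \ A) A * g) =
          g * (Z.ee A (B \ A) * Z.ee (B \ A) A) by ring] at h2
      · rw [H.JS_empty, Ideal.mem_bot] at hg
        rw [hg, zero_mul]
        exact Ideal.zero_mem _
    have := hle hf'
    rwa [Submodule.mem_colon_singleton, smul_eq_mul, mul_comm] at this
  · have : Z.ee A (B \ A) ∈ Z.JS B := Ideal.subset_span ⟨A, hA, h, rfl⟩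
    exact Ideal.mul_mem_right _ _ (Ideal.mul_mem_right _ _ this)

omit [Fintype Ω] [Fintype I] [DecidableEq I] in
theorem ee_prime (P : Ideal (RR Ω)) [hP : P.IsPrime] (A C : Finset Ω) (h : Z.ee A C ∈ P) :
    ∃ s ∈ A, ∃ s' ∈ C, (X s' - X s : RR Ω) ∈ P := by
  obtain ⟨s, hs, h1⟩ := Ideal.IsPrime.prod_mem_iff.1 h
  obtain ⟨s', hs', h2⟩ := Ideal.IsPrime.prod_mem_iff.1 h1
  exact ⟨s, hs, s', hs', hP.mem_of_pow_mem _ h2⟩

/-- the auxiliary ideal -/
noncomputable def I0 (B : Finset Ω) : Ideal (RR Ω) :=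
  Ideal.span ({x | ∃ A ⊆ B, A.Nonempty ∧ A ≠ B ∧ x = Z.ee A (B \ A) * Z.ee (B \ A) A} ∪
    ({pp B} ∪ {x | ∃ s, s ∉ B ∧ x = X s}))

omit [Fintype Ω] [Fintype I] [DecidableEq I] in
theorem X_rad (B : Finset Ω) (s0 : Ω) : (X s0 : RR Ω) ∈ (I0 Z B).radical := by
  classical
  rw [Ideal.radical_eq_sInf, Ideal.mem_sInf]
  rintro P ⟨hle, hP⟩
  by_cases hs0 : s0 ∈ B
  swap
  · exact hle (Ideal.subset_span (Or.inr (Or.inr ⟨s0, hs0, rfl⟩)))
  set A := B.filter fun s => (X s - X s0 : RR Ω) ∈ P with hA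
  have hAB : A = B := by
    by_contra hne
    have h1 : Z.ee A (B \ A) * Z.ee (B \ A) A ∈ P :=
      hle (Ideal.subset_span (Or.inl ⟨A, filter_subset _ _,
        ⟨s0, mem_filter.2 ⟨hs0, by simp⟩⟩, hne, rfl⟩))
    rcases hP.mem_or_mem h1 with h | h
    · obtain ⟨s, hs, s', hs', h2⟩ := ee_prime Z P _ _ h
      refine (mem_sdiff.1 hs').2 (mem_filter.2 ⟨(mem_sdiff.1 hs').1, ?_⟩)
      have := P.add_mem h2 (mem_filter.1 hs).2
      rwa [sub_add_sub_cancel] at this
    · obtain ⟨s, hs, s', hs', h2⟩ := ee_prime Z P _ _ h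
      refine (mem_sdiff.1 hs).2 (mem_filter.2 ⟨(mem_sdiff.1 hs).1, ?_⟩)
      have := P.sub_mem (mem_filter.1 hs').2 h2
      rwa [sub_sub_sub_cancel_left] at this
  have h1 : ∑ s ∈ B, (X s - X s0 : RR Ω) ∈ P :=
    P.sum_mem fun s hs => (mem_filter.1 (hAB ▸ hs : s ∈ A)).2
  have h2 : pp B ∈ P := hle (Ideal.subset_span (Or.inr (Or.inl rfl)))
  have h3 := P.sub_mem h2 h1
  rw [sum_sub_distrib, pp, sub_sub_cancel, sum_const, nsmul_eq_mul] at h3
  have hne : (B.card : ℚ) ≠ 0 := by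
    have := card_pos.2 ⟨s0, hs0⟩
    positivity
  have h4 := P.mul_mem_left (C (B.card : ℚ)⁻¹) h3
  rwa [← mul_assoc, ← map_natCast (C : ℚ →+* RR Ω), ← map_mul, inv_mul_cancel₀ hne, map_one,
    one_mul] at h4

theorem part2 (T : S_TAY Ω) (H : Z.S_BAS) (B : Finset Ω) (hB : B.Nonempty) (hth : Z.th B = 0) :
    ∃ N, ∀ f ∈ supported ℚ (B : Set Ω), f ∈ KK Z B → Dv (ind B) f ∈ Z.JS B →
      ∀ k, N ≤ k → f.IsHomogeneous k → f ∈ Z.JS B := by
  have hD : ∀ f ∈ Z.JS B, Dv (ind B) f ∈ Z.JS B := by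
    intro f hf
    have := H.Jk_D B (fun _ => 0) [ind B] (by simpa using ind_cst B _) f
      (by rw [Jk_zero Z H]; exact hf)
    rw [Jk_zero Z H] at this
    simpa [Dl] using this
  have hpp : pp B ∈ supported ℚ (B : Set Ω) :=
    Subalgebra.sum_mem _ fun s hs => X_mem_supported.2 hs
  have hret : ∀ f ∈ Z.JS B, ret B f ∈ Z.JS B := by
    obtain ⟨S, hS, hJ⟩ := (H.gen B).2.1
    have : Z.JS B ≤ (Z.JS B).comap (ret B) := by
      conv_lhs => rw [hJ]
      rw [Ideal.span_le]
      intro g hg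
      rw [SetLike.mem_coe, Ideal.mem_comap, ret_supp B g (hS g hg), hJ]
      exact Ideal.subset_span hg
    exact fun f hf => this hf
  obtain ⟨N, hN⟩ := high (KK Z B) (I0 Z B) ((Z.JS B ⊔ Ideal.span {pp B}).comap (ret B))
    (fun f hf k => (mem_KK Z B _).2 fun κ h1 h2 =>
      homI_Jk Z H B κ f ((mem_KK Z B f).1 hf κ h1 h2) k) (X_rad Z B) (by
      intro a ha f hf
      induction ha using Submodule.span_induction with
      | mem g hg =>
        rw [Ideal.mem_comap]
        rcases hg with ⟨A, hA, h0, h1, rfl⟩ | rfl | ⟨s, hs, rfl⟩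
        · exact Ideal.mem_sup_left (hret _ (vA_mul Z H B A hth hA h0 h1 f hf))
        · rw [map_mul, ret_supp B _ hpp]
          exact Ideal.mem_sup_right (Ideal.mul_mem_right _ _ (Ideal.subset_span rfl))
        · rw [map_mul, ret, aeval_X, if_neg hs, zero_mul]
          exact Ideal.zero_mem _
      | zero => rw [zero_mul]; exact Ideal.zero_mem _
      | add a b _ _ ha hb => rw [add_mul]; exact Ideal.add_mem _ ha hb
      | smul a b _ hb => rw [smul_eq_mul, mul_assoc]; exact Ideal.mul_mem_left _ _ hb)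
  refine ⟨N, fun f hf hK hDf k hk hfk => ?_⟩
  have h1 := hN f hK k hk hfk
  rw [Ideal.mem_comap, ret_supp B f hf] at h1
  obtain ⟨j, hj, y, hy, rfl⟩ := Submodule.mem_sup.1 h1
  obtain ⟨h, rfl⟩ := Ideal.mem_span_singleton'.1 hy
  rw [map_add, (Z.JS B).add_mem_iff_right (hD j hj), mul_comm] at hDf
  exact Ideal.add_mem _ hj (Ideal.mul_mem_right _ _ (cancel_pp T B hB _ hD h hDf))

theorem GB_sigma {V : Finset Ω → Submodule ℚ (RR Ω)} {J : Finset Ω → Ideal (RR Ω)}
    {Γ : Finset Ω → Type} {b : ∀ C, Γ C → RR Ω} {dg : ∀ C, Γ C → ℕ} (C : Finset Ω)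
    (h : GB (V C) (J C) (fun _ => True) (b C) (dg C)) :
    GB (V C) (J C) (fun g : (Σ C, Γ C) => g.1 = C) (fun g => b g.1 g.2) fun g => dg g.1 g.2 where
  mem := by rintro ⟨C', γ⟩ rfl; exact h.mem γ trivial
  hom := by rintro ⟨C', γ⟩ rfl; exact h.hom γ trivial
  ind := by
    intro c hc hJ
    have hinj : Function.Injective (Sigma.mk C : Γ C → Σ C, Γ C) := sigma_mk_injective
    have hsub : (c.support : Set (Σ C, Γ C)) ⊆ Set.range (Sigma.mk C) := by
      rintro ⟨C', γ⟩ hg
      obtain rfl : C' = C := hc _ hg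
      exact ⟨γ, rfl⟩
    rw [← Finsupp.mapDomain_comapDomain _ hinj c hsub] at hJ ⊢
    rw [Finsupp.linearCombination_mapDomain] at hJ
    rw [h.ind _ (fun _ _ => trivial) hJ, Finsupp.mapDomain_zero]
  spn := by
    intro f hf
    obtain ⟨g, hg, hfg⟩ := h.spn f hf
    refine ⟨g, Submodule.span_mono ?_ hg, hfg⟩
    rintro _ ⟨γ, -, rfl⟩
    exact ⟨⟨C, γ⟩, rfl, rfl⟩

theorem step (T : S_TAY Ω) (H : Z.S_BAS) (hc : Z.S_COEF) (B : Finset Ω) (hB : B.Nonempty)
    {Γ : Finset Ω → Type} {b : ∀ C, Γ C → RR Ω} {dg : ∀ C, Γ C → ℕ}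
    (hgb : ∀ C, GB (Z.W C) (Z.JS C) (fun _ => True) (b C) (dg C)) (M : ℕ)
    (κ : Ω → ℕ) (hκ : Z.Adm B κ) (hnb : 2 ≤ nb B κ)
    (hM : ∀ c ∈ B.image κ, ∀ γ, dg (fib B κ c) γ ≤ M)
    (f : RR Ω) (hf : f ∈ Z.W B) (k : ℕ) (hfk : f.IsHomogeneous k)
    (hk : arr Z.a (Z.dim B) (Z.dim B) + B.card * M < k)
    (ih : ∀ κ', Z.Adm B κ' → nb B κ < nb B κ' → f ∈ Z.Jk B κ') : f ∈ Z.Jk B κ := by
  set A := arr Z.a (Z.dim B) (Z.dim B) with hA
  have key : ∀ m j, j + m = A → f ∈ Lt (Z.Jk B κ) B κ (2 * j) := by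
    intro m
    induction m with
    | zero =>
      intro j hj
      have h1 := (Submodule.mem_iInf _).1 ((Submodule.mem_iInf _).1 hf.2 κ) hκ
      refine Lt_mono _ _ _ ?_ h1
      have := H.R2_arr B κ
      rw [if_neg (by omega)]
      omega
    | succ m ihm =>
      intro j hj l hl hlen
      have h1 := ihm (j + 1) (by omega)
      by_cases hl2 : j + 1 ≤ l.length
      · exact h1 l hl (by omega)
      have hlj : l.length = j := by omega
      obtain ⟨g, hg, hfg⟩ := hc (Σ C, Γ C) (fun c g => g.1 = fib B κ c)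
        (fun _ g => b g.1 g.2) (fun _ g => dg g.1 g.2) B κ hB hκ
        (fun c _ => GB_sigma (V := Z.W) (J := Z.JS) _ (hgb _)) f hf.1 l hl
        (fun l' hl' hlen' => h1 l' hl' (by omega))
        (fun κ' h1' _ h3 l' hl' _ => H.Jk_D B κ' l' hl' f (ih κ' h1' h3))
      have h2 := homI_Jk Z H B κ _ hfg (k - j)
      have h3 : homogeneousComponent (k - j) g = 0 := by
        clear hfg h2
        induction hg using Submodule.span_induction with
        | mem x hx =>
          obtain ⟨γ, hγ, rfl⟩ := hx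
          have hh : (∏ c ∈ B.image κ, b (γ c).1 (γ c).2).IsHomogeneous
              (∑ c ∈ B.image κ, dg (γ c).1 (γ c).2) :=
            IsHomogeneous.prod _ _ _ fun c _ => (hgb _).hom _ trivial
          have hs : ∑ c ∈ B.image κ, dg (γ c).1 (γ c).2 ≤ B.card * M := by
            refine (sum_le_card_nsmul _ _ M fun c hc' => ?_).trans ?_
            · have h5 := hγ c hc'
              generalize γ c = g at h5
              obtain ⟨C', γ'⟩ := g
              obtain rfl : C' = fib B κ c := h5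
              exact hM c hc' γ'
            · exact Nat.mul_le_mul_right _ card_image_le
          rw [homogeneousComponent_of_mem hh, if_neg (by omega)]
        | zero => exact map_zero _
        | add x y _ _ hx hy => rw [map_add, hx, hy, add_zero]
        | smul a x _ hx => rw [map_smul, hx, smul_zero]
      rwa [map_sub, h3, sub_zero, T.hc, hlj, show k - j + j = k by omega,
        homogeneousComponent_of_mem (n := k) hfk, if_pos rfl] at h2
  simpa [Dl] using key A 0 (zero_add _) [] (by simp) (by simp)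

end FinA

open FinA in
theorem t_fin : T_FIN := by
  intro Ω I _ _ _ _ Z T H G hw hc _ B
  induction hn : B.card using Nat.strong_induction_on generalizing B with
  | _ n ih =>
  subst hn
  intro hB hth
  have h1 : ∀ C : Finset Ω, ∃ N, C.card < B.card → C.Nonempty → Z.th C = 0 →
      ∀ f ∈ Z.W C, ∀ k, N ≤ k → f.IsHomogeneous k → f ∈ Z.JS C := by
    intro C
    by_cases h : C.card < B.card ∧ C.Nonempty ∧ Z.th C = 0
    · obtain ⟨N, hN⟩ := ih _ h.1 C rfl h.2.1 h.2.2
      exact ⟨N, fun _ _ _ => hN⟩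
    · exact ⟨0, fun a b c => absurd ⟨a, b, c⟩ h⟩
  choose N hN using h1
  choose Γ b dg hgb using fun C : Finset Ω => G.2 (Z.W C) (Z.JS C) (H.homI C).2.1 (hw.w_hom C)
  set M := ∑ C, N C with hM
  have hdg : ∀ κ, Z.Adm B κ → 2 ≤ nb B κ → ∀ c ∈ B.image κ, ∀ γ, dg (fib B κ c) γ ≤ M := by
    intro κ hκ hnb c hc' γ
    have hlt : (fib B κ c).card < B.card := by
      refine card_lt_card (Finset.ssubset_iff_subset_ne.2 ⟨filter_subset _ _, fun h => ?_⟩)
      have : B.image κ ⊆ {c} := by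
        intro d hd
        obtain ⟨s, hs, rfl⟩ := mem_image.1 hd
        rw [← h] at hs
        exact mem_singleton.2 (mem_filter.1 hs).2
      have := card_le_card this
      rw [card_singleton] at this
      exact absurd (hnb.trans this) (by norm_num)
    have hne : (fib B κ c).Nonempty := by
      obtain ⟨s, hs, rfl⟩ := mem_image.1 hc'
      exact ⟨s, mem_filter.2 ⟨hs, rfl⟩⟩
    have hle : N (fib B κ c) ≤ M :=
      single_le_sum (f := N) (fun _ _ => Nat.zero_le _) (mem_univ _)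
    by_contra hcon
    have h2 := hN _ hlt hne (hκ c) _ ((hgb _).mem γ trivial) _ (by omega) ((hgb _).hom γ trivial)
    have h3 := (hgb _).ind (Finsupp.single γ 1) (fun _ _ => trivial) (by simpa using h2)
    simp at h3
  obtain ⟨N2, hN2⟩ := part2 Z T H B hB hth
  refine ⟨N2 + (arr Z.a (Z.dim B) (Z.dim B) + B.card * M + 1), fun f hf k hk hfk => ?_⟩
  refine hN2 f hf.1.1 ((mem_KK Z B f).2 ?_) ?_ k (by omega) hfk
  · intro κ
    induction hm : B.card - nb B κ using Nat.strong_induction_on generalizing κ with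
    | _ m ihm =>
    intro hκ hnb
    refine step Z T H hc B hB hgb M κ hκ hnb (hdg κ hκ hnb) f hf k hfk (by omega)
      fun κ' h1 h2 => ihm (B.card - nb B κ') ?_ κ' rfl h1 (by omega)
    have : nb B κ' ≤ B.card := card_image_le
    omega
  · have hadm : Z.Adm B fun _ => 0 := by
      intro c
      rw [fib_zero]
      split_ifs
      · exact hth
      · simp [Qv.th]
    have h1 := (Submodule.mem_iInf _).1 ((Submodule.mem_iInf _).1 hf.2 fun _ => 0) hadm
    have h2 := h1 [ind B] (by simpa using ind_cst B _) (by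
      simp only [Qv.R2, ne_eq, not_true_eq_false, if_false, sum_const_zero, List.length_singleton]
      split_ifs <;> omega)
    rw [Jk_zero Z H] at h2
    simpa [Dl] using h2

end Pool.Agent.P.MP_389f6f_co.Sp
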