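import Pool.Agent.P.MP_389f6f_co.SDefs

/-! Homogeneous bases modulo a homogeneous ideal. -/

set_option autoImplicit false

namespace Pool.Agent.P.MP_389f6f_co.Sp
open MvPolynomial Finset

namespace GbA
variable {Ω : Type}

/-- the image of the degree `k` part of `V` -/
noncomputable abbrev Im (V : Submodule ℚ (RR Ω)) (J : Ideal (RR Ω)) (k : ℕ) :
    Submodule ℚ (RR Ω ⧸ J) :=
  (V ⊓ homogeneousSubmodule Ω ℚ k).map (Ideal.Quotient.mkₐ ℚ J).toLinearMap

instance fin [Finite Ω] (V : Submodule ℚ (RR Ω)) (J : Ideal (RR Ω)) (k : ℕ) :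
    Module.Finite ℚ (Im V J k) := by
  have h1 : Module.Finite ℚ (homogeneousSubmodule Ω ℚ k) :=
    Module.Finite.iff_fg.2 (homogeneousSubmodule_fg Ω ℚ k)
  have h2 : Module.Finite ℚ (V ⊓ homogeneousSubmodule Ω ℚ k : Submodule ℚ (RR Ω)) :=
    Submodule.finiteDimensional_of_le inf_le_right
  infer_instance

theorem ind_iff {Γ : Type} (J : Ideal (RR Ω)) (val : Γ → Prop) (b : Γ → RR Ω) :
    Ind J val b ↔ LinearIndepOn ℚ (fun i => Ideal.Quotient.mkₐ ℚ J (b i)) {i | val i} := by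
  rw [linearIndepOn_iff]
  refine forall_congr' fun c => imp_congr (Finsupp.mem_supported ℚ c).symm (imp_congr ?_ Iff.rfl)
  rw [← Ideal.Quotient.eq_zero_iff_mem]
  have := Finsupp.apply_linearCombination ℚ (Ideal.Quotient.mkₐ ℚ J).toLinearMap b c
  exact Eq.congr_left this

theorem comp_span {Γ : Type} (val : Γ → Prop) (b : Γ → RR Ω) (dg : Γ → ℕ)
    (hb : ∀ i, val i → (b i).IsHomogeneous (dg i)) (k : ℕ) (g : RR Ω)
    (hg : g ∈ Submodule.span ℚ (b '' {i | val i})) :
    homogeneousComponent k g ∈ Submodule.span ℚ (b '' {i | val i ∧ dg i = k}) := by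
  refine (Submodule.span_le (p := (Submodule.span ℚ (b '' {i | val i ∧ dg i = k})).comap
    (homogeneousComponent k))).2 ?_ hg
  rintro _ ⟨i, hi, rfl⟩
  rw [SetLike.mem_coe, Submodule.mem_comap, homogeneousComponent_of_mem (hb i hi)]
  split_ifs with h
  · exact Submodule.subset_span ⟨i, ⟨hi, h.symm⟩, rfl⟩
  · exact Submodule.zero_mem _

theorem cnt [Finite Ω] (V : Submodule ℚ (RR Ω)) (J : Ideal (RR Ω)) (Γ : Type) (val : Γ → Prop)
    (b : Γ → RR Ω) (dg : Γ → ℕ) (hJ : HomI J) (h : GB V J val b dg) (k : ℕ) :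
    Finite {i // val i ∧ dg i = k} ∧ Nat.card {i // val i ∧ dg i = k} = hh V J k := by
  have h1 : LinearIndependent ℚ
      fun i : {i // val i ∧ dg i = k} => Ideal.Quotient.mkₐ ℚ J (b i) :=
    ((ind_iff J val b).1 h.ind).mono (t := {i | val i ∧ dg i = k}) fun i hi => hi.1
  have h2 : Submodule.span ℚ (Set.range
      fun i : {i // val i ∧ dg i = k} => Ideal.Quotient.mkₐ ℚ J (b i)) = Im V J k := by
    refine le_antisymm (Submodule.span_le.2 ?_) ?_
    · rintro _ ⟨⟨i, hi, rfl⟩, rfl⟩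
      exact ⟨b i, ⟨h.mem i hi, h.hom i hi⟩, rfl⟩
    · rintro _ ⟨f, ⟨hf, hk⟩, rfl⟩
      obtain ⟨g, hg, hfg⟩ := h.spn f hf
      have e1 := hJ _ hfg k
      rw [map_sub, homogeneousComponent_eq_self hk, ← Ideal.Quotient.eq] at e1
      have e2 := Submodule.mem_map_of_mem (f := (Ideal.Quotient.mkₐ ℚ J).toLinearMap)
        (comp_span val b dg h.hom k g hg)
      rw [Submodule.map_span, ← Set.image_comp, Set.image_eq_range] at e2
      exact (show (Ideal.Quotient.mkₐ ℚ J).toLinearMap f = _ from e1) ▸ e2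
  have h3 : Module.Finite ℚ (Submodule.span ℚ (Set.range
      fun i : {i // val i ∧ dg i = k} => Ideal.Quotient.mkₐ ℚ J (b i))) := by
    rw [h2]; infer_instance
  have h4 : Finite {i // val i ∧ dg i = k} := Module.Finite.finite_basis (Module.Basis.span h1)
  refine ⟨h4, ?_⟩
  rw [hh, ← Im, ← h2]
  exact (Module.finrank_eq_nat_card_basis (Module.Basis.span h1)).symm

theorem ex [Finite Ω] (V : Submodule ℚ (RR Ω)) (J : Ideal (RR Ω)) (hJ : HomI J) (hV : HomV V) :
    ∃ (Γ : Type) (b : Γ → RR Ω) (dg : Γ → ℕ), GB V J (fun _ => True) b dg := by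
  classical
  have h1 : ∀ p : (Σ k, Fin (Module.finrank ℚ (Im V J k))), ∃ f, (f ∈ V ∧ f.IsHomogeneous p.1) ∧
      Ideal.Quotient.mkₐ ℚ J f = (Module.finBasis ℚ (Im V J p.1) p.2 : RR Ω ⧸ J) :=
    fun p => (Module.finBasis ℚ (Im V J p.1) p.2).2
  choose b hb hb' using h1
  refine ⟨_, b, Sigma.fst, fun i _ => (hb i).1, fun i _ => (hb i).2, fun c _ hc => ?_,
    fun f hf => ?_⟩
  · ext ⟨k, j⟩
    have e1 := hJ _ hc k
    rw [Finsupp.linearCombination_apply, Finsupp.sum, map_sum] at e1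
    have e2 : ∑ p ∈ c.support, homogeneousComponent k (c p • b p) =
        ∑ j, c ⟨k, j⟩ • b ⟨k, j⟩ := by
      have e3 : ∀ p, homogeneousComponent k (c p • b p) = if p.1 = k then c p • b p else 0 := by
        intro p
        rw [map_smul, homogeneousComponent_of_mem (hb p).2]
        by_cases e : p.1 = k
        · rw [if_pos e, if_pos e.symm]
        · rw [if_neg e, if_neg (Ne.symm e), smul_zero]
      simp only [e3]
      rw [← sum_filter]
      refine Eq.trans (sum_subset ?_ fun p h1 h2 => ?_)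
        (sum_map univ ⟨Sigma.mk k, sigma_mk_injective⟩ fun p => c p • b p)
      · rintro ⟨k', j'⟩ hp
        obtain rfl : k' = k := (mem_filter.1 hp).2
        exact mem_map.2 ⟨j', mem_univ _, rfl⟩
      · obtain ⟨j', -, rfl⟩ := mem_map.1 h1
        rw [Finsupp.notMem_support_iff.1 fun h3 => h2 (mem_filter.2 ⟨h3, rfl⟩), zero_smul]
    rw [e2, ← Ideal.Quotient.eq_zero_iff_mem] at e1
    have e4 : ∑ j, c ⟨k, j⟩ • Module.finBasis ℚ (Im V J k) j = 0 := by
      refine Subtype.ext ?_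
      rw [Submodule.coe_sum, Submodule.coe_zero, ← e1, ← Ideal.Quotient.mkₐ_eq_mk ℚ, map_sum]
      exact sum_congr rfl fun j _ => by rw [map_smul, hb', Submodule.coe_smul]
    exact Fintype.linearIndependent_iff.1 (Module.finBasis ℚ (Im V J k)).linearIndependent _ e4 j
  · have e1 : Ideal.Quotient.mkₐ ℚ J f ∈ (Submodule.span ℚ (b '' {_i | True})).map
        (Ideal.Quotient.mkₐ ℚ J).toLinearMap := by
      rw [← sum_homogeneousComponent f, map_sum]
      refine Submodule.sum_mem _ fun k _ => ?_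
      have e2 : Ideal.Quotient.mkₐ ℚ J (homogeneousComponent k f) ∈ Im V J k :=
        ⟨_, ⟨hV f hf k, homogeneousComponent_mem k f⟩, rfl⟩
      have e3 := congrArg Subtype.val ((Module.finBasis ℚ (Im V J k)).sum_repr ⟨_, e2⟩)
      rw [Submodule.coe_sum] at e3
      rw [← show _ = Ideal.Quotient.mkₐ ℚ J (homogeneousComponent k f) from e3]
      refine Submodule.sum_mem _ fun j _ => ?_
      rw [Submodule.coe_smul]
      exact Submodule.smul_mem _ _ ⟨b ⟨k, j⟩, Submodule.subset_span ⟨_, trivial, rfl⟩, hb' ⟨k, j⟩⟩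
    obtain ⟨g, hg, e⟩ := e1
    exact ⟨g, hg, Ideal.Quotient.eq.1 e.symm⟩

end GbA

theorem t_gb : T_GB := fun _ _ => ⟨GbA.cnt, GbA.ex⟩

end Pool.Agent.P.MP_389f6f_co.Sp
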