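import Pool.Agent.P.MP_389f6f_co.SHn1

set_option autoImplicit false
set_option linter.unusedSectionVars false

namespace Pool.Agent.P.MP_389f6f_co.Sp
open MvPolynomial Finset

namespace HnA

variable {Ω I : Type} [Fintype Ω] [DecidableEq Ω] [Fintype I] [DecidableEq I] {Z : Qv Ω I}

theorem act_apply (g : Equiv.Perm Ω) (f : RR Ω) :
    act g f = (((Equiv.Perm.sign g : ℤˣ) : ℤ) : ℚ) • rename g f := rfl

open Classical in
theorem alt_apply (H : Subgroup (Equiv.Perm Ω)) (f : RR Ω) :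
    Alt H f = ∑ g ∈ univ.filter (· ∈ H), act g f := by
  rw [Alt, LinearMap.sum_apply]

theorem hk_le (B : Finset Ω) (κ : Ω → ℕ) : Z.HK B κ ≤ Z.GG B :=
  fun _ hg => ⟨hg.1, hg.2.1, fun _ => rfl⟩

theorem gg_mem {B : Finset Ω} {g : Equiv.Perm Ω} (hg : g ∈ Z.GG B) {s : Ω} (hs : s ∈ B) :
    g s ∈ B := by
  by_contra h
  have := g.injective (hg.2.1 _ h)
  exact h (by rw [this]; exact hs)

theorem act_supp {B : Finset Ω} {g : Equiv.Perm Ω} (hg : g ∈ Z.GG B) {f : RR Ω}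
    (hf : f ∈ supported ℚ (B : Set Ω)) : act g f ∈ supported ℚ (B : Set Ω) :=
  Subalgebra.smul_mem _ (ren_supp (fun _ hs => gg_mem hg hs) hf) _

theorem act_ek (hB : Z.S_BAS) {B : Finset Ω} {g : Equiv.Perm Ω} (hg : g ∈ Z.GG B) (κ : Ω → ℕ)
    (r : RR Ω) : act g (Z.ek B κ * r) = Z.ek B (fun s => κ (g⁻¹ s)) * act g r := by
  rw [act_apply, act_apply, map_mul, hB.ek_ren g B κ hg.1, hB.map_GG B g hg, mul_smul_comm]

theorem act_ek' (hB : Z.S_BAS) {B : Finset Ω} {κ : Ω → ℕ} {g : Equiv.Perm Ω} (hg : g ∈ Z.HK B κ)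
    (r : RR Ω) : act g (Z.ek B κ * r) = Z.ek B κ * act g r := by
  rw [act_ek hB (hk_le B κ hg)]
  congr 2
  funext s
  exact ((Z.HK B κ).inv_mem hg).2.2 s

theorem dim_ren (hB : Z.S_BAS) {B : Finset Ω} {g : Equiv.Perm Ω} (hg : g ∈ Z.GG B) (κ : Ω → ℕ)
    (c : ℕ) : Z.dim (fib B (fun s => κ (g⁻¹ s)) c) = Z.dim (fib B κ c) := by
  have := hB.fib_ren g B κ c
  rw [hB.map_GG B g hg] at this
  rw [this, hB.dim_map g _ hg.1]

theorem klt_congr (hB : Z.S_BAS) {x x' y y' : Finset Ω × Finset Ω}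
    (h1 : Z.dim x.1 = Z.dim x'.1) (h2 : Z.dim x.2 = Z.dim x'.2) (h3 : Z.dim y.1 = Z.dim y'.1)
    (h4 : Z.dim y.2 = Z.dim y'.2) (h : klt Z x y) : klt Z x' y' := by
  unfold klt at *
  simp only [hB.th_dim, ← hB.dim_sum] at h ⊢
  rwa [← h1, ← h2, ← h3, ← h4]

theorem dim_three {B : Finset Ω} {κ : Ω → ℕ} (hκ : ∀ s ∈ B, κ s < 3) :
    Z.dim (fib B κ 0) + (Z.dim (fib B κ 1) + Z.dim (fib B κ 2)) = Z.dim B := by
  funext i
  simp only [Qv.dim, Pi.add_apply, fib, card_filter, sum_filter, ← sum_add_distrib]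
  refine sum_congr rfl fun s hs => ?_
  have := hκ s hs
  generalize κ s = n at this
  interval_cases n <;> simp

theorem r1_three (hB : Z.S_BAS) {B : Finset Ω} {κ : Ω → ℕ} (hκ : ∀ s ∈ B, κ s < 3) :
    Z.r1 B κ = arr Z.a (Z.dim (fib B κ 0)) (Z.dim (fib B κ 1) + Z.dim (fib B κ 2)) +
      arr Z.a (Z.dim (fib B κ 1)) (Z.dim (fib B κ 2)) := by
  have ha : ∀ d e e' : I → ℕ, arr Z.a d (e + e') = arr Z.a d e + arr Z.a d e' := by
    intro d e e'
    simp only [arr, Pi.add_apply, mul_add, add_mul, sum_add_distrib]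
  have hc : ∀ c c', arr Z.a (Z.dim (fib B κ c)) (Z.dim (fib B κ c')) = ∑ s ∈ B, ∑ s' ∈ B,
      if κ s = c ∧ κ s' = c' then Z.a (Z.ty s) (Z.ty s') else 0 := by
    intro c c'
    rw [hB.arr_dim, fib, sum_filter]
    refine sum_congr rfl fun s _ => ?_
    rw [fib, sum_filter]
    by_cases h : κ s = c <;> simp [h]
  rw [ha, hc, hc, hc, Qv.r1]
  simp only [← sum_add_distrib]
  refine sum_congr rfl fun s hs => sum_congr rfl fun s' hs' => ?_
  have h1 := hκ s hs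
  have h2 := hκ s' hs'
  generalize κ s = n at h1
  generalize κ s' = n' at h2
  interval_cases n <;> interval_cases n' <;> simp

theorem fib_sub (B : Finset Ω) (κ : Ω → ℕ) (c : ℕ) : fib B κ c ⊆ B := filter_subset _ _

theorem fib_disj (B : Finset Ω) (κ : Ω → ℕ) :
    ∀ c ∈ (univ : Finset (Fin 3)), ∀ c' ∈ (univ : Finset (Fin 3)), c ≠ c' →
      Disjoint (fib B κ c) (fib B κ c') := by
  intro c _ c' _ h
  rw [disjoint_left]
  intro s h1 h2
  exact h (Fin.ext ((mem_fib.1 h1).2.symm.trans (mem_fib.1 h2).2))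

theorem gen_JJ (hB : Z.S_BAS) (c : Fin 3) (C : Finset Ω) : Gen C (JJ Z c C) := by
  fin_cases c
  exacts [(hB.gen C).1, (hB.gen C).2.1, (hB.gen C).2.2]

theorem hom_JJ (hB : Z.S_BAS) (c : Fin 3) (C : Finset Ω) : HomI (JJ Z c C) := by
  fin_cases c
  exacts [(hB.homI C).1, (hB.homI C).2.1, (hB.homI C).2.2]

section fam
variable {L : Type} {val : Fin 3 × Finset Ω → L → Prop} {b : L → RR Ω} {dg : L → ℕ}

def Vl (val : Fin 3 × Finset Ω → L → Prop) (B : Finset Ω) (κ : Ω → ℕ) (γ : Fin 3 → L) : Prop :=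
  ∀ c : Fin 3, val (c, fib B κ c) (γ c)

theorem prod_supp (hgb : ∀ k : Fin 3 × Finset Ω, GB (Z.Asym k.2) (JJ Z k.1 k.2) (val k) b dg)
    {B : Finset Ω} {κ : Ω → ℕ} {γ : Fin 3 → L} (h : Vl val B κ γ) :
    ∏ c, b (γ c) ∈ supported ℚ (B : Set Ω) :=
  Subalgebra.prod_mem _ fun c _ =>
    supported_mono (coe_subset.2 (fib_sub B κ c)) ((hgb (c, fib B κ c)).mem _ (h c)).1

theorem prod_act (hP : Z.S_PERM)
    (hgb : ∀ k : Fin 3 × Finset Ω, GB (Z.Asym k.2) (JJ Z k.1 k.2) (val k) b dg)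
    {B : Finset Ω} {κ : Ω → ℕ} (hκ : ∀ s ∈ B, κ s < 3) {γ : Fin 3 → L} (h : Vl val B κ γ) :
    ∀ g ∈ Z.HK B κ, act g (∏ c, b (γ c)) = ∏ c, b (γ c) := by
  refine hP.bas B κ _ fun s hs s' hs' h1 h2 h3 => ?_
  let c0 : Fin 3 := ⟨κ s, hκ s hs⟩
  rw [← mul_prod_erase univ _ (mem_univ c0), map_mul, map_prod,
    ((hgb (c0, fib B κ c0)).mem _ (h c0)).2 s (mem_fib.2 ⟨hs, rfl⟩) s' (mem_fib.2 ⟨hs', h3.symm⟩)
      h1 h2, neg_mul]
  congr 2
  refine prod_congr rfl fun c hc => ren_fix ?_ ((hgb (c, fib B κ c)).mem _ (h c)).1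
  intro t ht
  have ht' := (mem_fib.1 ht).2
  have hc' : (c : ℕ) ≠ κ s := fun e => (mem_erase.1 hc).1 (Fin.ext e)
  refine Equiv.swap_apply_of_ne_of_ne ?_ ?_
  · rintro rfl; exact hc' ht'.symm
  · rintro rfl; exact hc' (ht'.symm.trans h3.symm)

theorem tens (hB : Z.S_BAS) (hT : S_TENS Ω)
    (hgb : ∀ k : Fin 3 × Finset Ω, GB (Z.Asym k.2) (JJ Z k.1 k.2) (val k) b dg)
    {B : Finset Ω} {κ : Ω → ℕ} (hκ : ∀ s ∈ B, κ s < 3) {r : RR Ω}
    (hr : r ∈ supported ℚ (B : Set Ω))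
    (ha : ∀ s ∈ B, ∀ s' ∈ B, s ≠ s' → Z.ty s = Z.ty s' → κ s = κ s' →
      rename (Equiv.swap s s') r = -r) :
    ∃ g ∈ Submodule.span ℚ {x | ∃ γ : Fin 3 → L, Vl val B κ γ ∧ x = ∏ c, b (γ c)},
      r - g ∈ Jx Z B κ := by
  obtain ⟨g, hg, h⟩ := hT (Fin 3) L univ (fun c => fib B κ c) (fun c => JJ Z c (fib B κ c))
    (fun c => val (c, fib B κ c)) (fun _ => b)
    (fun c => {p | ∃ s ∈ fib B κ c, ∃ s' ∈ fib B κ c, s ≠ s' ∧ Z.ty s = Z.ty s' ∧
      p = ((rename (Equiv.swap s s') : RR Ω →ₐ[ℚ] RR Ω).toLinearMap + LinearMap.id, ⊥)})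
    (Or.inl univ_nonempty) (fib_disj B κ) (fun c _ => gen_JJ hB c _)
    (fun c _ γ h => ((hgb (c, fib B κ c)).mem _ h).1) (fun c _ => (hgb (c, fib B κ c)).ind)
    (by
      rintro c _ _ ⟨s, hs, s', hs', -, -, rfl⟩
      refine ⟨⟨fun f hf => ?_, fun f g hg => ?_⟩, ∅, by simp, by simp⟩
      · refine Subalgebra.add_mem _ (ren_supp (fun t ht => ?_) hf) hf
        rw [Equiv.swap_apply_def]
        split_ifs
        exacts [hs', hs, ht]
      · have : rename (Equiv.swap s s') g = g := ren_fix (fun t ht =>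
          Equiv.swap_apply_of_ne_of_ne (by rintro rfl; exact ht hs) (by rintro rfl; exact ht hs'))
          hg
        simp only [LinearMap.add_apply, AlgHom.toLinearMap_apply, map_mul, this,
          LinearMap.id_apply, add_mul])
    (fun c _ u hu h => (hgb (c, fib B κ c)).spn u ⟨hu, fun s hs s' hs' h1 h2 => by
      have := h _ ⟨s, hs, s', hs', h1, h2, rfl⟩
      simp only [LinearMap.add_apply, AlgHom.toLinearMap_apply, LinearMap.id_apply,
        Ideal.mem_bot] at this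
      exact eq_neg_of_add_eq_zero_left this⟩)
    r (supported_mono (s := (B : Set Ω)) (fun s hs => by
      exact ⟨⟨κ s, hκ s hs⟩, mem_univ _, mem_fib.2 ⟨hs, rfl⟩⟩) hr)
    (by
      rintro c _ _ ⟨s, hs, s', hs', h1, h2, rfl⟩
      have := ha s (mem_fib.1 hs).1 s' (mem_fib.1 hs').1 h1 h2
        ((mem_fib.1 hs).2.trans (mem_fib.1 hs').2.symm)
      simp only [LinearMap.add_apply, AlgHom.toLinearMap_apply, LinearMap.id_apply, this,
        neg_add_cancel]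
      exact Ideal.zero_mem _)
  refine ⟨g, Submodule.span_mono ?_ hg, h⟩
  rintro _ ⟨γ, h1, rfl⟩
  exact ⟨γ, fun c => h1 c (mem_univ c), rfl⟩

/-- one step of the spanning argument -/
theorem span_step (hB : Z.S_BAS) (hP : Z.S_PERM) (hT : S_TENS Ω)
    (hgb : ∀ k : Fin 3 × Finset Ω, GB (Z.Asym k.2) (JJ Z k.1 k.2) (val k) b dg)
    {B : Finset Ω} {κ : Ω → ℕ} (hκ : Tr Z B κ) (U : Submodule ℚ (RR Ω))
    (hU : ∀ γ, Vl val B κ γ → Alt (Z.GG B) (Z.ek B κ * ∏ c, b (γ c)) ∈ U)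
    (ih : ∀ κ', Tr Z B κ' → klt Z (key B κ) (key B κ') → ∀ r ∈ supported ℚ (B : Set Ω),
      Alt (Z.GG B) (Z.ek B κ' * r) ∈ U) :
    ∀ r ∈ supported ℚ (B : Set Ω), Alt (Z.GG B) (Z.ek B κ * r) ∈ U := by
  classical
  intro r hr
  have h1 : Alt (Z.GG B) (Z.ek B κ * Alt (Z.HK B κ) r) =
      ((univ.filter (· ∈ Z.HK B κ)).card : ℚ) • Alt (Z.GG B) (Z.ek B κ * r) := by
    rw [alt_apply (Z.HK B κ), mul_sum, map_sum, Nat.cast_smul_eq_nsmul, ← sum_const]
    refine sum_congr (by congr) fun g hg => ?_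
    have hg' := (mem_filter.1 hg).2
    rw [← act_ek' hB hg', (hP.alt_act _ g (hk_le B κ hg') _).1]
  have hN : ((univ.filter (· ∈ Z.HK B κ)).card : ℚ) ≠ 0 := by
    exact_mod_cast (card_pos.2 ⟨1, mem_filter.2 ⟨mem_univ _, (Z.HK B κ).one_mem⟩⟩).ne'
  rw [← U.smul_mem_iff hN, ← h1]
  have hr' : Alt (Z.HK B κ) r ∈ supported ℚ (B : Set Ω) := by
    rw [alt_apply]
    exact Subalgebra.sum_mem _ fun g hg => act_supp (hk_le B κ (mem_filter.1 hg).2) hr
  obtain ⟨g, hg, hj⟩ := tens hB hT hgb hκ.1 hr' fun s hs s' hs' e1 e2 e3 => by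
    have hm : Equiv.swap s s' ∈ Z.HK B κ := by
      refine ⟨fun t => ?_, fun t ht => ?_, fun t => ?_⟩
      · rw [Equiv.swap_apply_def]; split_ifs with p q
        exacts [by rw [p, e2], by rw [q, e2], rfl]
      · exact Equiv.swap_apply_of_ne_of_ne (by rintro rfl; exact ht hs) (by rintro rfl; exact ht hs')
      · rw [Equiv.swap_apply_def]; split_ifs with p q
        exacts [by rw [p, e3], by rw [q, e3], rfl]
    have := (hP.alt_act _ _ hm r).2
    rw [act_apply, Equiv.Perm.sign_swap e1] at this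
    simp only [Units.val_neg, Units.val_one, Int.cast_neg, Int.cast_one, neg_smul,
      one_smul] at this
    exact neg_eq_iff_eq_neg.1 this
  have hg2 : g ∈ supported ℚ (B : Set Ω) ∧ Alt (Z.GG B) (Z.ek B κ * g) ∈ U := by
    refine Submodule.span_induction (p := fun g _ => g ∈ supported ℚ (B : Set Ω) ∧
      Alt (Z.GG B) (Z.ek B κ * g) ∈ U) ?_ ?_ ?_ ?_ hg
    · rintro _ ⟨γ, h, rfl⟩
      exact ⟨prod_supp hgb h, hU γ h⟩
    · exact ⟨Subalgebra.zero_mem _, by simp⟩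
    · intro x y _ _ hx hy
      exact ⟨Subalgebra.add_mem _ hx.1 hy.1, by rw [mul_add, map_add]; exact U.add_mem hx.2 hy.2⟩
    · intro a x _ hx
      exact ⟨Subalgebra.smul_mem _ hx.1 a, by rw [mul_smul_comm, map_smul]; exact U.smul_mem a hx.2⟩
  let W : Ideal (RR Ω) :=
    { carrier := {j | ∀ t, Alt (Z.GG B) (Z.ek B κ * ret B (t * j)) ∈ U}
      add_mem' := fun hx hy t => by
        rw [mul_add, map_add, mul_add, map_add]; exact U.add_mem (hx t) (hy t)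
      zero_mem' := fun t => by simp
      smul_mem' := fun a x hx t => by
        rw [smul_eq_mul, ← mul_assoc]; exact hx _ }
  have hW : Jx Z B κ ≤ W := by
    refine stepA Z hκ fun A C κ' hA hC h1 h2 ⟨w, hw⟩ t => ?_
    have e := congrArg (ret B) hw
    rw [map_mul, map_mul, ret_fix (hB.ek_supp B κ), ret_fix (hB.ek_supp B κ')] at e
    have : Z.ek B κ * ret B (t * Z.ee A C) = Z.ek B κ' * ret B (w * t) := by
      rw [map_mul, map_mul, mul_comm (ret B t), ← mul_assoc, e, mul_assoc]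
    rw [this]
    exact ih κ' h1 h2 _ (ret_supp B _)
  have h3 := hW hj 1
  rw [one_mul, ret_fix (Subalgebra.sub_mem _ hr' hg2.1), mul_sub, map_sub] at h3
  simpa using U.add_mem h3 hg2.2

end fam

abbrev PP (I : Type) := (I → ℕ) × (I → ℕ)

theorem exists_rep (hP : Z.S_PERM) (B : Finset Ω) : ∃ rep : PP I → PP I → Ω → ℕ,
    ∀ p ∈ AD (Z.dim B), ∀ q ∈ AD p.2, (∀ s ∈ B, rep p q s < 3) ∧
      Z.dim (fib B (rep p q) 0) = p.1 ∧ Z.dim (fib B (rep p q) 1) = q.1 ∧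
      Z.dim (fib B (rep p q) 2) = q.2 := by
  have : ∀ p q : PP I, ∃ κ : Ω → ℕ, p ∈ AD (Z.dim B) → q ∈ AD p.2 → (∀ s ∈ B, κ s < 3) ∧
      Z.dim (fib B κ 0) = p.1 ∧ Z.dim (fib B κ 1) = q.1 ∧ Z.dim (fib B κ 2) = q.2 := by
    intro p q
    by_cases h : p ∈ AD (Z.dim B) ∧ q ∈ AD p.2
    · obtain ⟨κ, h1, h2⟩ := hP.split B 3 (fun c => if c = 0 then p.1 else if c = 1 then q.1 else q.2)
        (by
          rw [← (mem_AD _ _).1 h.1, ← (mem_AD _ _).1 h.2]
          simp [sum_range_succ, add_assoc])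
      exact ⟨κ, fun _ _ => ⟨h1, by simpa using h2 0, by simpa using h2 1, by simpa using h2 2⟩⟩
    · exact ⟨0, fun h1 h2 => absurd ⟨h1, h2⟩ h⟩
  choose rep h using this
  exact ⟨rep, fun p hp q hq => h p q hp hq⟩

end HnA

open HnA in
theorem t_hn : T_HN := by
  classical
  intro Ω I _ _ _ _ Z hB hP hG hI hT hW B blk hblk
  obtain ⟨L, val, b, dg, hgb⟩ := gb_glob hG (K := Fin 3 × Finset Ω) (fun k => Z.Asym k.2)
    (fun k => JJ Z k.1 k.2) (fun k => hom_JJ hB k.1 k.2) fun k => hB.Asym_hom k.2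
  obtain ⟨rep, hrep⟩ := exists_rep hP B
  let vv : PP I × PP I × (Fin 3 → L) → Prop := fun x => x.1 ∈ AD (Z.dim B) ∧
    (x.2.1 ∈ AD x.1.2 ∧ (thd Z.θ x.2.1.1 = 0 ∧ Vl val B (rep x.1 x.2.1) x.2.2))
  let bb : PP I × PP I × (Fin 3 → L) → RR Ω := fun x =>
    Alt (Z.GG B) (Z.ek B (rep x.1 x.2.1) * ∏ c, b (x.2.2 c))
  let dd : PP I × PP I × (Fin 3 → L) → ℕ := fun x => Z.r1 B (rep x.1 x.2.1) + ∑ c, dg (x.2.2 c)
  have htr : ∀ x, vv x → Tr Z B (rep x.1 x.2.1) := fun x hx =>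
    ⟨(hrep _ hx.1 _ hx.2.1).1, by rw [hB.th_dim, (hrep _ hx.1 _ hx.2.1).2.2.1, hx.2.2.1]⟩
  have hsp : ∀ (y : Finset Ω × Finset Ω) κ, Tr Z B κ → key B κ = y →
      ∀ r ∈ supported ℚ (B : Set Ω),
        Alt (Z.GG B) (Z.ek B κ * r) ∈ Submodule.span ℚ (bb '' {x | vv x}) := by
    intro y
    induction y using (wf2 Z).induction with
    | _ y ih =>
    rintro κ hκ rfl r hr
    have hp : (Z.dim (fib B κ 0), Z.dim (fib B κ 1) + Z.dim (fib B κ 2)) ∈ AD (Z.dim B) :=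
      (mem_AD _ _).2 (dim_three hκ.1)
    have hq : (Z.dim (fib B κ 1), Z.dim (fib B κ 2)) ∈
        AD (Z.dim (fib B κ 0), Z.dim (fib B κ 1) + Z.dim (fib B κ 2)).2 := (mem_AD _ _).2 rfl
    obtain ⟨r0, r1, r2, r3⟩ := hrep _ hp _ hq
    have ht : thd Z.θ (Z.dim (fib B κ 1)) = 0 := by rw [← hB.th_dim, hκ.2]
    set κ0 := rep (Z.dim (fib B κ 0), Z.dim (fib B κ 1) + Z.dim (fib B κ 2))
      (Z.dim (fib B κ 1), Z.dim (fib B κ 2)) with hκ0
    obtain ⟨g, hg, hgk⟩ := hP.fibm B κ κ0 fun c => by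
      by_cases hc : c < 3
      · interval_cases c
        exacts [r1.symm, r2.symm, r3.symm]
      · have e : ∀ κ : Ω → ℕ, (∀ s ∈ B, κ s < 3) → fib B κ c = ∅ := fun κ h =>
          filter_eq_empty_iff.2 fun s hs e => hc (e ▸ h s hs)
        rw [e κ hκ.1, e κ0 r0]
    rw [← (hP.alt_act _ g hg _).1, act_ek hB hg, ek_congr Z (κ' := κ0) fun s hs => by
      rw [← hgk _ (gg_mem ((Z.GG B).inv_mem hg) hs)]; simp]
    refine span_step hB hP hT hgb ⟨r0, by rw [hB.th_dim, r2, ht]⟩ _ (fun γ h => ?_)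
      (fun κ' h1 h2 => ih _ ?_ κ' h1 rfl) _ (act_supp hg hr)
    · exact Submodule.subset_span ⟨(_, _, γ), ⟨hp, hq, ht, h⟩, rfl⟩
    · exact klt_congr hB (x := key B κ0) (x' := key B κ) r1 r2 rfl rfl h2
  have hgB : GB (Z.Asym B) ⊥ vv bb dd := by
    constructor
    · intro x hx
      exact hP.alt_mem B _ (Subalgebra.mul_mem _ (hB.ek_supp B _) (prod_supp hgb hx.2.2.2))
    · intro x hx
      exact hP.alt_hom _ _ _ ((hB.ek_hom B _).mul (IsHomogeneous.prod _ _ _ fun c _ =>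
        (hgb (c, fib B (rep x.1 x.2.1) c)).hom _ (hx.2.2.2 c)))
    · intro c hc hl
      by_contra hne
      obtain ⟨_, ⟨x0, hx0, rfl⟩, hmin⟩ := (wf1 Z).has_min
        ((fun x : PP I × PP I × (Fin 3 → L) => key B (rep x.1 x.2.1)) '' c.support)
        (Set.Nonempty.image _ (Finsupp.support_nonempty_iff.2 hne))
      have v0 := hc x0 hx0
      have t0 := htr x0 v0
      set κ0 := rep x0.1 x0.2.1 with hκ0
      let N : ℕ := (univ.filter (· ∈ Z.HK B κ0)).card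
      let pr : PP I × PP I × (Fin 3 → L) → RR Ω := fun x =>
        if x.1 = x0.1 ∧ x.2.1 = x0.2.1 then ∏ c, b (x.2.2 c) else 0
      have hx : ∀ x ∈ c.support, bb x - Z.ek B κ0 * ((N : ℚ) • pr x) ∈ Jx Z B κ0 := by
        intro x hx
        have vx := hc x hx
        have tx := htr x vx
        have e : Z.ek B κ0 * ((N : ℚ) • pr x) = ∑ g ∈ univ.filter (· ∈ Z.GG B),
            if g ∈ Z.HK B κ0 then Z.ek B κ0 * pr x else 0 := by
          rw [← sum_filter, filter_filter, sum_const, mul_smul_comm, Nat.cast_smul_eq_nsmul]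
          rw [filter_congr (q := (· ∈ Z.HK B κ0)) fun g _ =>
            (⟨fun h => h.2, fun h => ⟨hk_le B κ0 h, h⟩⟩ : g ∈ Z.GG B ∧ g ∈ Z.HK B κ0 ↔ _)]
        rw [e]
        simp only [bb]
        rw [alt_apply, ← sum_sub_distrib]
        refine Ideal.sum_mem _ fun g hg => ?_
        have hg' : g ∈ Z.GG B := (mem_filter.1 hg).2
        by_cases h : (x.1 = x0.1 ∧ x.2.1 = x0.2.1) ∧ g ∈ Z.HK B κ0
        · have ek : rep x.1 x.2.1 = κ0 := by rw [h.1.1, h.1.2]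
          have hv := vx.2.2.2
          rw [ek] at hv
          simp only [pr, if_pos h.1, if_pos h.2]
          rw [ek, act_ek' hB h.2, prod_act hP hgb t0.1 hv g h.2, sub_self]
          exact Ideal.zero_mem _
        · have e2 : (if g ∈ Z.HK B κ0 then Z.ek B κ0 * pr x else 0) = 0 := by
            split_ifs with h2
            · simp only [pr, if_neg fun h3 => h ⟨h3, h2⟩, mul_zero]
            · rfl
          rw [e2, sub_zero, act_ek hB hg']
          refine Ideal.mul_mem_right _ _ ?_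
          by_contra hn
          have hd := dim_ren hB hg' (rep x.1 x.2.1)
          have hi := (Z.GG B).inv_mem hg'
          have hs := stepC Z t0 (κ' := fun s => rep x.1 x.2.1 (g⁻¹ s))
            ⟨fun s hs => tx.1 _ (gg_mem hi hs), by rw [hB.th_dim, hd, ← hB.th_dim, tx.2]⟩ hn
            fun hk => hmin _ ⟨x, hx, rfl⟩
              (klt_congr hB (x' := key B (rep x.1 x.2.1)) (hd 0) (hd 1) rfl rfl hk)
          have hf := fun c => congrArg Z.dim (fib_congr hs c)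
          obtain ⟨-, a1, a2, a3⟩ := hrep _ vx.1 _ vx.2.1
          obtain ⟨-, b1, b2, b3⟩ := hrep _ v0.1 _ v0.2.1
          have q : x.2.1 = x0.2.1 := Prod.ext (by rw [← a2, ← hd, hf, b2])
            (by rw [← a3, ← hd, hf, b3])
          have p : x.1 = x0.1 := Prod.ext (by rw [← a1, ← hd, hf, b1])
            (by rw [← (mem_AD _ _).1 vx.2.1, ← (mem_AD _ _).1 v0.2.1, q])
          refine h ⟨⟨p, q⟩, hg'.1, hg'.2.1, fun s => ?_⟩
          by_cases hsB : s ∈ B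
          · have := hs _ (gg_mem hg' hsB)
            rw [p, q] at this
            simpa using this.symm
          · rw [hg'.2.1 s hsB]
      have h2 : Z.ek B κ0 * ((N : ℚ) • ∑ x ∈ c.support, c x • pr x) ∈ Jx Z B κ0 := by
        have h3 : ∑ x ∈ c.support, c x • (bb x - Z.ek B κ0 * ((N : ℚ) • pr x)) ∈ Jx Z B κ0 :=
          Ideal.sum_mem _ fun x h => by
            rw [Algebra.smul_def]; exact Ideal.mul_mem_left _ _ (hx x h)
        rw [Ideal.mem_bot, Finsupp.linearCombination_apply, Finsupp.sum] at hl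
        simp only [smul_sub, sum_sub_distrib, hl, zero_sub, neg_mem_iff] at h3
        convert h3 using 1
        rw [smul_sum, mul_sum]
        refine sum_congr rfl fun x _ => ?_
        rw [smul_comm, mul_smul_comm]
      obtain ⟨Ψ, p1, p2⟩ := hI (Fin 3) L univ (fun c => fib B κ0 c) (fun c => JJ Z c (fib B κ0 c))
        (fun c => val (c, fib B κ0 c)) (fun _ => b) (fib_disj B κ0) (fun c _ => gen_JJ hB c _)
        (fun c _ γ h => ((hgb (c, fib B κ0 c)).mem _ h).1) (fun c _ => (hgb (c, fib B κ0 c)).ind)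
        x0.2.2 fun c _ => v0.2.2.2 c
      have h4 := p1 _ (stepB Z h2)
      have hN : (N : ℚ) ≠ 0 := by
        exact_mod_cast (card_pos.2 ⟨1, mem_filter.2 ⟨mem_univ _, (Z.HK B κ0).one_mem⟩⟩).ne'
      rw [map_smul, smul_eq_zero, or_iff_right hN, map_sum,
        sum_eq_single_of_mem x0 hx0] at h4
      · simp only [pr, and_self, if_true, map_smul] at h4
        rw [p2 _ fun c _ => v0.2.2.2 c, if_pos fun _ _ => rfl, smul_eq_mul, mul_one] at h4
        exact Finsupp.mem_support_iff.1 hx0 h4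
      · intro x hx hne
        simp only [pr]
        split_ifs with h
        · have hv := (hc x hx).2.2.2
          rw [h.1, h.2] at hv
          rw [map_smul, p2 _ fun c _ => hv c, if_neg, smul_zero]
          intro h5
          exact hne (Prod.ext h.1 (Prod.ext h.2 (funext fun c => h5 c (mem_univ c))))
        · simp
    · intro f hf
      obtain ⟨N, hN, h⟩ := hP.alt_eq B
      have e : fib B (fun _ => 0) 1 = ∅ := by simp [fib]
      have h1 := hsp _ (fun _ => 0) ⟨fun _ _ => by norm_num, by rw [e]; rfl⟩ rfl f hf.1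
      have e2 : Z.ek B (fun _ => 0) = 1 := by simp [Qv.ek]
      rw [e2, one_mul, h f hf, Submodule.smul_mem_iff _ (by exact_mod_cast hN.ne')] at h1
      exact ⟨f, h1, by simp⟩
  have sm := fun (c : Fin 3) C => gb_gf hG (hom_JJ hB c C) (hgb (c, C))
  have tr := fun κ : Ω → ℕ => gf_tri (fun c : Fin 3 => val (c, fib B κ c)) dg fun c => (sm c _).1
  have f1 : ∀ p q : PP I, Fn (fun γ => thd Z.θ q.1 = 0 ∧ Vl val B (rep p q) γ)
      fun γ => Z.r1 B (rep p q) + ∑ c, dg (γ c) := fun p q => fn_if _ (fn_shift (tr _).1 _)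
  rw [← (gb_gf hG hB.homI_bot hgB).2]
  refine (gf_sum (AD (Z.dim B)) (v := fun p (y : PP I × (Fin 3 → L)) => y.1 ∈ AD p.2 ∧
      (thd Z.θ y.1.1 = 0 ∧ Vl val B (rep p y.1) y.2))
    (d := fun p y => Z.r1 B (rep p y.1) + ∑ c, dg (y.2 c)) fun p => fn_sum _ (f1 p)).trans ?_
  refine sum_congr rfl fun p hp => (gf_sum (AD p.2) (f1 p)).trans (sum_congr rfl fun q hq => ?_)
  rw [gf_if]
  refine if_congr Iff.rfl ?_ rfl
  obtain ⟨r0, r1, r2, r3⟩ := hrep p hp q hq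
  have ep := (mem_AD _ _).1 hp
  have eq := (mem_AD _ _).1 hq
  have l2 : p.2 ≤ Z.dim B := ep ▸ le_add_self
  rw [gf_shift]
  unfold Vl
  rw [(tr _).2, (sm _ _).2, (sm _ _).2, (sm _ _).2, r1_three hB r0, r1, r2, r3, eq,
    ← (hW.hh_ren _ _ (r1.trans (hblk _ (ep ▸ le_self_add)).symm)).1,
    ← (hW.hh_ren _ _ (r2.trans (hblk _ ((eq ▸ le_self_add : q.1 ≤ p.2).trans l2)).symm)).2.1,
    ← (hW.hh_ren _ _ (r3.trans (hblk _ ((eq ▸ le_add_self : q.2 ≤ p.2).trans l2)).symm)).2.2]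
  simp only [mul_assoc]
  rfl

end Pool.Agent.P.MP_389f6f_co.Sp
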