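import Pool.Agent.P.MP_389f6f_co.SDefs

set_option autoImplicit false

namespace Pool.Agent.P.MP_389f6f_co.Sp
open MvPolynomial Finset Qv

namespace IndB

theorem exG {Ω : Type} (Ψ : RR Ω →ₗ[ℚ] ℚ) : ∃ G : MvPolynomial ℕ (RR Ω) →ₗ[ℚ] MvPolynomial ℕ ℚ,
    ∀ q m, coeff m (G q) = Ψ (coeff m q) := by
  classical
  have h : ∀ (q : MvPolynomial ℕ (RR Ω)) m,
      coeff m (∑ n ∈ q.support, monomial n (Ψ (coeff n q)) : MvPolynomial ℕ ℚ) = Ψ (coeff m q) := by
    intro q m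
    rw [coeff_sum]
    simp only [coeff_monomial]
    rw [Finset.sum_ite_eq']
    split_ifs with h
    · rfl
    · rw [notMem_support_iff.1 h, map_zero]
  refine ⟨⟨⟨fun q => ∑ n ∈ q.support, monomial n (Ψ (coeff n q)), fun p q => ?_⟩, fun a p => ?_⟩, h⟩
  · ext m; rw [coeff_add, h, h, h, coeff_add, map_add]
  · ext m; rw [coeff_smul, h, h, coeff_smul, map_smul]; rfl

variable {Ω I : Type} [Fintype Ω] [DecidableEq Ω] [Fintype I] [DecidableEq I]

theorem lt_mono (J : Ideal (RR Ω)) (B : Finset Ω) (κ : Ω → ℕ) {N N' : ℕ} (h : N ≤ N') {f : RR Ω}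
    (hf : f ∈ Lt J B κ N) : f ∈ Lt J B κ N' := fun l h1 h2 => hf l h1 (h.trans h2)

theorem mono_apply {Γ : Type} (B : Finset Ω) (κ : Ω → ℕ) (lab : ℕ → Γ × ℕ) (c : ℕ)
    (hc : c ∈ B.image κ) : mono B κ lab c = (lab c).2 := by
  unfold mono
  rw [Finsupp.finsetSum_apply, Finset.sum_eq_single c]
  · simp
  · intro b _ hb; simp [Finsupp.single_apply, hb]
  · intro h; exact absurd hc h

theorem mono_deg {Γ : Type} (B : Finset Ω) (κ : Ω → ℕ) (lab : ℕ → Γ × ℕ) :
    (mono B κ lab).degree = dl B κ lab := by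
  unfold mono dl
  rw [map_sum]
  simp

theorem cc_pos {Γ : Type} (B : Finset Ω) (κ : Ω → ℕ) (lab : ℕ → Γ × ℕ) : 0 < cc B κ lab := by
  unfold cc
  refine Finset.prod_pos fun c hc => pow_pos ?_ _
  obtain ⟨s, hs, rfl⟩ := mem_image.1 hc
  have : (fib B κ (κ s)).Nonempty := ⟨s, mem_filter.2 ⟨hs, rfl⟩⟩
  exact_mod_cast this.card_pos

theorem exPhi (Z : Qv Ω I) {Γ : Type} [DecidableEq Γ] (Y : Z.Coh Γ) (tay : S_TAY Ω)
    (bas : Z.S_BAS) (ten : S_TENI Ω) (ek : Z.S_EK) (ee : Z.S_EE Y) (B : Finset Ω) (κ : Ω → ℕ)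
    (lab : ℕ → Γ × ℕ) (hv : Y.Val B κ lab) : ∃ Φ : RR Ω →ₗ[ℚ] ℚ,
    (∀ f ∈ Lt (Z.Jk B κ) B κ (2 * (Z.r1 B κ + dl B κ lab)), Φ f = 0) ∧
    ∀ (κ' : Ω → ℕ) (lab' : ℕ → Γ × ℕ) (ε : ℚ), Y.Val B κ lab' → dl B κ lab' = dl B κ lab →
      Z.r1 B κ' = Z.r1 B κ → Z.DL B κ κ' = ε • Z.DL B κ κ →
      ((∀ c ∈ B.image κ, lab' c = lab c) → Φ (Z.ek B κ' * Y.gg B κ lab') = ε * cc B κ lab') ∧
      (¬(∀ c ∈ B.image κ, lab' c = lab c) → Φ (Z.ek B κ' * Y.gg B κ lab') = 0) := by
  classical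
  have adm := ee.adm B κ lab hv
  have hne : ∀ c ∈ B.image κ, (fib B κ c).Nonempty := fun c hc => by
    obtain ⟨s, hs, rfl⟩ := mem_image.1 hc
    exact ⟨s, mem_filter.2 ⟨hs, rfl⟩⟩
  obtain ⟨Ψ, hΨ1, hΨ2⟩ := ten ℕ Γ (B.image κ) (fib B κ) (fun c => Z.JS (fib B κ c))
    (fun c γ => Y.dΓ γ = Z.dim (fib B κ c)) (fun c γ => Y.w (fib B κ c) γ)
    (fun c _ c' _ h => by
      rw [Finset.disjoint_left]
      intro s h1 h2
      exact h ((mem_filter.1 h1).2.symm.trans (mem_filter.1 h2).2))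
    (fun c _ => (bas.gen _).2.1)
    (fun c hc γ h => ((Y.gb _ (hne c hc) (adm c)).mem γ h).1.1)
    (fun c hc => (Y.gb _ (hne c hc) (adm c)).ind) (fun c => (lab c).1) hv
  rw [← bas.Jk_eq] at hΨ1
  obtain ⟨G, hG⟩ := exG Ψ
  have hD : Z.DL B κ κ ≠ 0 := ek.ne B κ κ fun _ _ _ _ h => h
  obtain ⟨Lq, hLq⟩ := (LinearMap.mulLeft ℚ (Z.DL B κ κ)).exists_leftInverse_of_injective
    (LinearMap.ker_eq_bot.2 fun x y h => mul_left_cancel₀ hD h)
  have hL : ∀ p, Lq (Z.DL B κ κ * p) = p := fun p => LinearMap.congr_fun hLq p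
  set N := Z.r1 B κ + dl B κ lab with hN
  refine ⟨lcoeff ℚ (mono B κ lab) ∘ₗ Lq ∘ₗ homogeneousComponent N ∘ₗ G ∘ₗ
    (TT B κ).toLinearMap, fun f hf => ?_, fun κ' lab' ε hv' hd hr hε => ?_⟩
  · have : homogeneousComponent N (G (TT B κ f)) = 0 := by
      ext m
      rw [coeff_homogeneousComponent, coeff_zero]
      split_ifs with h
      · rw [hG]; exact hΨ1 _ ((tay.tl _ _ _ _ _).1 hf m (by omega))
      · rfl
    simp [this]
  · have key : homogeneousComponent N (G (TT B κ (Z.ek B κ' * Y.gg B κ lab'))) =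
        Ψ (Y.ww B κ lab') • (Z.DL B κ κ' * monomial (mono B κ lab') (cc B κ lab')) := by
      ext m
      rw [coeff_homogeneousComponent, coeff_smul]
      split_ifs with h
      · have := hΨ1 _ (ee.symb B κ κ' lab' hv' m (by omega))
        rw [map_sub, map_smul, sub_eq_zero] at this
        rw [hG, this, smul_eq_mul, smul_eq_mul, mul_comm]
      · have h1 := (ek.hom B κ κ').mul
          (isHomogeneous_monomial (cc B κ lab') (mono_deg B κ lab'))
        rw [h1.coeff_eq_zero (by omega), smul_zero]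
    have k2 : (lcoeff ℚ (mono B κ lab) ∘ₗ Lq ∘ₗ homogeneousComponent N ∘ₗ G ∘ₗ
        (TT B κ).toLinearMap) (Z.ek B κ' * Y.gg B κ lab') = Ψ (Y.ww B κ lab') * (ε *
          if mono B κ lab' = mono B κ lab then cc B κ lab' else 0) := by
      simp only [LinearMap.comp_apply, AlgHom.toLinearMap_apply]
      rw [key, hε, smul_mul_assoc, map_smul, map_smul, map_smul, map_smul, hL, lcoeff_apply,
        coeff_monomial, smul_eq_mul, smul_eq_mul]
    have k3 := hΨ2 (fun c => (lab' c).1) hv'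
    rw [k2]
    unfold Coh.ww
    rw [k3]
    constructor
    · intro h
      rw [if_pos fun c hc => by rw [h c hc], if_pos, one_mul]
      unfold mono
      exact Finset.sum_congr rfl fun c hc => by rw [h c hc]
    · intro h
      split_ifs with h1 h2
      · exact absurd (fun c hc => Prod.ext (h1 c hc) (by
          rw [← mono_apply B κ lab' c hc, h2, mono_apply B κ lab c hc])) h
      · simp
      · simp
      · simp

end IndB

open IndB in
theorem t_ind2 : T_IND := by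
  intro Ω I _ _ _ _ Z Γ _ Y tay bas ten ek ee bound sgn sym B κ lab ch c _ hc
  classical
  by_contra hne
  obtain ⟨M0, hM0, hmax⟩ := Finset.exists_max_image c.support
    (fun M => toLex (dl B (κ M) (lab M), nb B (κ M))) (Finsupp.support_nonempty_iff.2 hne)
  have hv0 := (ch M0).1
  have adm0 := ee.adm _ _ _ hv0
  obtain ⟨Φ, h1, h2⟩ := exPhi Z Y tay bas ten ek ee B (κ M0) (lab M0) hv0
  have hR := bas.R2_eq sym B _ adm0
  have hE0 : Φ (Y.EE B (κ M0) (lab M0)) = cc B (κ M0) (lab M0) := by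
    have := (h2 (κ M0) (lab M0) 1 hv0 rfl rfl (one_smul _ _).symm).1 fun _ _ => rfl
    rw [one_mul] at this
    exact this
  have main : ∀ M ∈ c.support, ∀ g ∈ Z.GG B, Φ (act g (Y.EE B (κ M) (lab M))) = 0 ∨
      (M = M0 ∧ Φ (act g (Y.EE B (κ M) (lab M))) = cc B (κ M0) (lab M0)) := by
    intro M hM g hg
    obtain ⟨v1, v2, v3⟩ := ee.ren B (κ M) (lab M) g hg (ch M).1
    set κ' : Ω → ℕ := fun s => κ M (g⁻¹ s) with hκ'
    have hz : Φ (Y.EE B κ' (lab M)) = 0 → Φ (act g (Y.EE B (κ M) (lab M))) = 0 := by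
      intro h
      unfold Coh.EE at h
      unfold act Coh.EE
      rw [LinearMap.smul_apply, map_smul, AlgHom.toLinearMap_apply, map_mul,
        bas.ek_ren g B (κ M) hg.1, bas.map_GG B g hg]
      rcases v3 with v3 | v3
      · rw [v3, h, smul_zero]
      · rw [v3, mul_neg, map_neg, h, neg_zero, smul_zero]
    have hdl : dl B κ' (lab M) = dl B (κ M) (lab M) := by unfold dl; rw [v2]
    have hnb : nb B κ' = nb B (κ M) := by unfold nb; rw [v2]
    have hms : ms B κ' (lab M) = ms B (κ M) (lab M) := by unfold ms; rw [v2]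
    obtain ⟨b1, b2⟩ := bound sym B κ' (lab M) v1 (κ M0) adm0
    have hm := Prod.Lex.toLex_le_toLex.1 (hmax M hM)
    simp only at hm
    rcases hm with hm | ⟨hm1, hm2⟩
    · exact Or.inl (hz (h1 _ (lt_mono _ _ _ (by omega) b1)))
    by_cases hcr : Crs B κ' (κ M0)
    swap
    · exact Or.inl (hz (h1 _ (lt_mono _ _ _ (by omega) (b2 hcr))))
    have hcr' := bas.crs_eq B κ' (κ M0) hcr (by omega)
    obtain ⟨lab', hl⟩ := ee.ex B (κ M0) κ' (lab M) hcr'
    obtain ⟨r1, r2, r3, r4⟩ := ee.rel B (κ M0) κ' lab' (lab M) hcr' hcr hl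
    obtain ⟨s1, s2, -⟩ := bas.rel B (κ M0) κ' hcr' hcr
    have hR' := bas.R2_eq sym B _ (s1 adm0)
    by_cases hlab : ∀ c ∈ B.image (κ M0), lab' c = lab M0 c
    swap
    · refine Or.inl (hz ?_)
      unfold Coh.EE
      rw [← r2]
      rcases ek.sgn sym B (κ M0) κ' adm0 hcr' hcr with h | h
      · exact (h2 κ' lab' 1 (r1.2 v1) (by omega) (by omega) (by rw [h, one_smul])).2 hlab
      · exact (h2 κ' lab' (-1) (r1.2 v1) (by omega) (by omega) (by rw [h, neg_one_smul])).2 hlab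
    have hMM : M = M0 := by
      apply Subtype.ext
      rw [← (ch M).2, ← (ch M0).2, ← hms, ← r4]
      unfold ms
      exact Multiset.map_congr rfl fun x hx => hlab x hx
    subst hMM
    refine Or.inr ⟨rfl, ?_⟩
    have hgB : ∀ s ∈ B, g s ∈ B := fun s hs => by
      by_contra h
      have := hg.2.1 _ h
      rw [g.injective this] at h
      exact h hs
    have := sgn.stab sym B (κ M) (lab M) hv0 (by rw [(ch M).2]; exact M.2.2) g hg
      (fun s hs s' hs' h => hcr _ (hgB s hs) _ (hgB s' hs') (by simpa [hκ'] using h))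
      (fun s hs => by
        rw [← hlab _ (mem_image_of_mem _ (hgB s hs)), hl _ (hgB s hs)]
        simp [hκ'])
    have h3 := h1 _ (lt_mono _ _ _ (by omega) this)
    rw [map_sub, sub_eq_zero] at h3
    rw [h3, hE0]
  have hJ : Φ (Finsupp.linearCombination ℚ
      (fun M => Alt (Z.GG B) (Y.EE B (κ M) (lab M))) c) = 0 :=
    h1 _ fun l hl _ => bas.Jk_D B _ l hl _ (bas.JS_le B _ hc)
  rw [Finsupp.linearCombination_apply, Finsupp.sum, map_sum, Finset.sum_eq_single M0] at hJ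
  · rw [map_smul, smul_eq_mul, mul_eq_zero] at hJ
    rcases hJ with hJ | hJ
    · exact Finsupp.mem_support_iff.1 hM0 hJ
    · unfold Alt at hJ
      rw [LinearMap.sum_apply, map_sum] at hJ
      refine (Finset.sum_pos' (fun g hg => ?_) ⟨1, by simpa using (Z.GG B).one_mem, ?_⟩).ne' hJ
      · rcases main M0 hM0 g (mem_filter.1 hg).2 with h | ⟨-, h⟩
        · exact h.ge
        · rw [h]; exact (cc_pos _ _ _).le
      · have : act (1 : Equiv.Perm Ω) (Y.EE B (κ M0) (lab M0)) = Y.EE B (κ M0) (lab M0) := by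
          simp [act]
        rw [this, hE0]; exact cc_pos _ _ _
  · intro M hM hMM
    unfold Alt
    rw [map_smul, LinearMap.sum_apply, map_sum, Finset.sum_eq_zero, smul_zero]
    intro g hg
    rcases main M hM g (mem_filter.1 hg).2 with h | ⟨h, -⟩
    · exact h
    · exact absurd h hMM
  · intro h; exact absurd hM0 h

end Pool.Agent.P.MP_389f6f_co.Sp
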