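import Pool.Agent.P.MP_389f6f_co.SDefs

/-! Counting the graded pieces of the antisymmetric quotient by good multisets. -/

set_option autoImplicit false

namespace Pool.Agent.P.MP_389f6f_co.Sp
open MvPolynomial Finset

namespace IntA

variable {Ω I : Type} [Fintype Ω] [DecidableEq Ω] [Fintype I] [DecidableEq I]

theorem range_map_getD {α : Type} (L : List α) (x0 : α) :
    (range L.length).val.map (fun c => L.getD c x0) = (L : Multiset α) := by
  have h : (List.range L.length).map (fun c => L.getD c x0) = L := by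
    apply List.ext_getElem
    · simp
    · intro i h1 h2
      simp [List.getD_eq_getElem?_getD, List.getElem?_eq_getElem h2]
  rw [Finset.range_val, Multiset.range, Multiset.map_coe, h]

theorem dim_empty (Z : Qv Ω I) : Z.dim ∅ = 0 := by
  funext i
  simp [Qv.dim]

theorem exists_part (Z : Qv Ω I) {Γ : Type} [DecidableEq Γ] (Y : Z.Coh Γ) (hb : Z.S_BAS)
    (hp : Z.S_PERM) (B : Finset Ω) (hB : B.Nonempty) (M : Multiset (Γ × ℕ))
    (hM : Good Z.a Y.dΓ (Z.dim B) M) :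
    ∃ (κ : Ω → ℕ) (lab : ℕ → Γ × ℕ), Y.Val B κ lab ∧ Qv.ms B κ lab = M := by
  have hne : M ≠ 0 := by
    rintro rfl
    have h1 := hM.1
    simp only [Multiset.map_zero, Multiset.sum_zero] at h1
    have h2 := hb.dim_sum B
    rw [← h1] at h2
    simp only [Pi.zero_apply, sum_const_zero] at h2
    exact absurd h2.symm (Finset.card_pos.mpr hB).ne'
  obtain ⟨x0, -⟩ := Multiset.exists_mem_of_ne_zero hne
  set L := M.toList with hL
  have hLM : (L : Multiset (Γ × ℕ)) = M := Multiset.coe_toList M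
  have hr := range_map_getD L x0
  have hsum : ∑ c ∈ range L.length, Y.dΓ (L.getD c x0).1 = Z.dim B := by
    rw [← hM.1, ← hLM, ← hr, Multiset.map_map]
    rfl
  obtain ⟨κ, h1, h2⟩ := hp.split B L.length (fun c => Y.dΓ (L.getD c x0).1) hsum
  have him : B.image κ = range L.length := by
    apply Finset.Subset.antisymm
    · intro c hc
      obtain ⟨s, hs, rfl⟩ := mem_image.mp hc
      exact mem_range.mpr (h1 s hs)
    · intro c hc
      have h3 := h2 c (mem_range.mp hc)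
      have h4 : (fib B κ c).Nonempty := by
        rw [Finset.nonempty_iff_ne_empty]
        intro h5
        rw [h5, dim_empty] at h3
        exact (Y.ne (L.getD c x0).1).1 h3.symm
      obtain ⟨s, hs⟩ := h4
      have h6 := mem_filter.mp hs
      exact mem_image.mpr ⟨s, h6.1, h6.2⟩
  refine ⟨κ, fun c => L.getD c x0, ?_, ?_⟩
  · intro c hc
    rw [him] at hc
    exact (h2 c (mem_range.mp hc)).symm
  · rw [Qv.ms, him, hr, hLM]

theorem deg_iff (Z : Qv Ω I) {Γ : Type} (Y : Z.Coh Γ) (hb : Z.S_BAS) (he : Z.S_EE Y)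
    (hs : Sym Z.a Z.θ) (B : Finset Ω) (κ : Ω → ℕ) (lab : ℕ → Γ × ℕ) (hv : Y.Val B κ lab) (k : ℕ) :
    Z.r1 B κ + ((Qv.ms B κ lab).map fun x => Y.dg x.1 + x.2).sum = k ↔
      DegM Z.a Y.dΓ Y.dg (Z.dim B) (Qv.ms B κ lab) k := by
  have h1 := hb.R2_eq hs B κ (he.adm B κ lab hv)
  have h2 := hb.R2_arr B κ
  have h3 : ((Qv.ms B κ lab).map fun x => arr Z.a (Y.dΓ x.1) (Y.dΓ x.1)).sum =
      ∑ c ∈ B.image κ, arr Z.a (Z.dim (fib B κ c)) (Z.dim (fib B κ c)) := by
    rw [Qv.ms, Multiset.map_map]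
    refine (Finset.sum_congr rfl fun c hc => ?_ :
      ∑ c ∈ B.image κ, arr Z.a (Y.dΓ (lab c).1) (Y.dΓ (lab c).1) = _)
    rw [hv c hc]
  unfold DegM
  rw [h3]
  omega

end IntA

theorem t_int : T_INT := by
  intro Ω I _ _ _ _ Z Γ _ Y hb hp hg he hspan hind hs B hB hth k
  have hex := fun M : {M // Good Z.a Y.dΓ (Z.dim B) M} =>
    IntA.exists_part Z Y hb hp B hB M.1 M.2
  choose κ lab hval hms using hex
  have hch : Z.Ch Y B κ lab := fun M => ⟨hval M, hms M⟩
  have hGB : GB (Z.Asym B) (Z.JS B) (fun _ => True)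
      (fun M => Alt (Z.GG B) (Y.EE B (κ M) (lab M)))
      (fun M => Z.r1 B (κ M) + ((Qv.ms B (κ M) (lab M)).map fun x => Y.dg x.1 + x.2).sum) := by
    refine ⟨fun M _ => ?_, fun M _ => ?_, hind hs B κ lab hch, fun f hf => ?_⟩
    · exact hp.alt_mem B _ (Subalgebra.mul_mem _ (hb.ek_supp B (κ M)) (he.supp B _ _ (hval M)))
    · exact hp.alt_hom _ _ _ (he.hom B _ _ (hval M))
    · obtain ⟨g, hg1, hg2⟩ := hspan hs B κ lab hB hth hch f hf
      refine ⟨g, ?_, hg2⟩
      rw [Set.ofPred_true, Set.image_univ]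
      exact hg1
  rw [← (hg.1 _ _ _ _ _ _ (hb.homI B).2.1 hGB k).2]
  refine Nat.card_congr ⟨fun x => ⟨x.1.1, x.1.2, ?_⟩, fun x => ⟨⟨x.1, x.2.1⟩, trivial, ?_⟩,
    fun _ => rfl, fun _ => rfl⟩
  · have h := (IntA.deg_iff Z Y hb he hs B _ _ (hval x.1) k).mp x.2.2
    rwa [hms] at h
  · refine (IntA.deg_iff Z Y hb he hs B _ _ (hval ⟨x.1, x.2.1⟩) k).mpr ?_
    rw [hms]
    exact x.2.2

end Pool.Agent.P.MP_389f6f_co.Sp
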