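import Pool.Agent.P.MP_389f6f_co.SDefs

/-! Hilbert series of the antisymmetric polynomials (task MON). -/

set_option autoImplicit false
set_option linter.unusedSectionVars false

namespace Pool.Agent.P.MP_389f6f_co.Sp
open MvPolynomial Finset

namespace MonA
variable {Ω I : Type} [Fintype Ω] [DecidableEq Ω] [Fintype I] [DecidableEq I] (Z : Qv Ω I)

/-- exponent vector cut to `B` -/
noncomputable def fe (B : Finset Ω) (e : Ω → ℕ) : Ω →₀ ℕ :=
  Finsupp.equivFunOnFinite.symm fun s => if s ∈ B then e s else 0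

theorem fe_apply (B : Finset Ω) (e : Ω → ℕ) (s : Ω) : fe B e s = if s ∈ B then e s else 0 := rfl

theorem fe_congr (B : Finset Ω) (e e' : Ω → ℕ) (h : ∀ s ∈ B, e s = e' s) : fe B e = fe B e' := by
  ext s
  simp only [fe_apply]
  split_ifs with hs
  · exact h s hs
  · rfl

theorem fe_inj (B : Finset Ω) (e e' : Ω → ℕ) (h : fe B e = fe B e') : ∀ s ∈ B, e s = e' s := by
  intro s hs
  have := DFunLike.congr_fun h s
  simpa only [fe_apply, if_pos hs] using this

noncomputable def xm (B : Finset Ω) (e : Ω → ℕ) : RR Ω := monomial (fe B e) 1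

def mu (B : Finset Ω) (e : Ω → ℕ) (i : I) : Multiset ℕ :=
  (B.filter fun s => Z.ty s = i).val.map e

theorem mu_congr (B : Finset Ω) (e e' : Ω → ℕ) (h : ∀ s ∈ B, e s = e' s) :
    mu Z B e = mu Z B e' := by
  funext i
  exact Multiset.map_congr rfl fun s hs => h s (mem_filter.1 hs).1

theorem mu_card (B : Finset Ω) (e : Ω → ℕ) (i : I) : (mu Z B e i).card = Z.dim B i := by
  simp only [mu, Multiset.card_map, Qv.dim, Finset.card_def]

theorem mu_count (B : Finset Ω) (e : Ω → ℕ) (c : ℕ) (i : I) :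
    Z.dim (fib B e c) i = (mu Z B e i).count c := by
  simp only [mu, Qv.dim, fib, Multiset.count_map, Finset.filter_filter]
  rw [← Finset.filter_val, ← Finset.card_def, Finset.filter_filter]
  congr 1
  ext s
  simp only [mem_filter]
  constructor
  · rintro ⟨h1, h2, h3⟩; exact ⟨h1, h3, h2.symm⟩
  · rintro ⟨h1, h2, h3⟩; exact ⟨h1, h3.symm, h2⟩

theorem mem_GG (B : Finset Ω) (g : Equiv.Perm Ω) (hg : g ∈ Z.GG B) (s : Ω) :
    g s ∈ B ↔ s ∈ B := by
  have h2 : ∀ s, s ∉ B → g s = s := hg.2.1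
  constructor
  · intro h
    by_contra hs
    rw [h2 s hs] at h
    exact hs h
  · intro h
    by_contra hs
    have := g.injective (h2 _ hs)
    rw [this] at hs
    exact hs h

theorem rename_xm (B : Finset Ω) (e : Ω → ℕ) (g : Equiv.Perm Ω) (hg : g ∈ Z.GG B) :
    rename g (xm B e) = xm B fun s => e (g⁻¹ s) := by
  rw [xm, xm, rename_monomial]
  congr 2
  ext s
  rw [Finsupp.mapDomain_equiv_apply, fe_apply, fe_apply]
  have := mem_GG Z B g⁻¹ ((Z.GG B).inv_mem hg) s
  by_cases hs : s ∈ B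
  · rw [if_pos hs]
    exact if_pos (this.2 hs)
  · rw [if_neg hs]
    exact if_neg (fun h => hs (this.1 h))

theorem mu_ren (B : Finset Ω) (e : Ω → ℕ) (g : Equiv.Perm Ω) (hg : g ∈ Z.GG B) :
    mu Z B (fun s => e (g s)) = mu Z B e := by
  funext i
  have h1 : (B.filter fun s => Z.ty s = i).map g.toEmbedding = B.filter fun s => Z.ty s = i := by
    apply Finset.eq_of_subset_of_card_le
    · intro x hx
      obtain ⟨s, hs, rfl⟩ := mem_map.1 hx
      rw [mem_filter] at hs ⊢
      exact ⟨(mem_GG Z B g hg s).2 hs.1, (hg.1 s).trans hs.2⟩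
    · rw [card_map]
  have h2 := congrArg Finset.val h1
  rw [Finset.map_val] at h2
  rw [mu, mu]
  conv_rhs => rw [← h2]
  rw [Multiset.map_map]
  rfl

theorem xm_supp (B : Finset Ω) (e : Ω → ℕ) : xm B e ∈ supported ℚ (B : Set Ω) := by
  rw [mem_supported, xm, vars_monomial one_ne_zero]
  intro s hs
  rw [mem_coe, Finsupp.mem_support_iff, fe_apply] at hs
  by_contra h
  exact hs (if_neg h)

theorem xm_hom (B : Finset Ω) (e : Ω → ℕ) :
    (xm B e).IsHomogeneous (∑ i, (mu Z B e i).sum) := by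
  apply isHomogeneous_monomial
  rw [Finsupp.degree_eq_sum]
  simp only [fe_apply]
  rw [Finset.sum_ite_mem, univ_inter]
  exact (Finset.sum_fiberwise B Z.ty e).symm

def val (B : Finset Ω) (μ : I → Multiset ℕ) : Prop :=
  ∀ i, (μ i).card = Z.dim B i ∧ (True → (μ i).Nodup)

theorem ex_e (hp : Z.S_PERM) (B : Finset Ω) (μ : I → Multiset ℕ) :
    ∃ e : Ω → ℕ, val Z B μ → mu Z B e = μ := by
  by_cases hv : val Z B μ
  swap
  · exact ⟨fun _ => 0, fun h => absurd h hv⟩
  have hk : ∀ i, ∀ c ∈ μ i, c < ∑ j, (μ j).sum + 1 := fun i c hc =>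
    Nat.lt_succ_of_le ((Multiset.single_le_sum (fun _ _ => Nat.zero_le _) c hc).trans
      (Finset.single_le_sum (f := fun j => (μ j).sum) (fun _ _ => Nat.zero_le _) (mem_univ i)))
  obtain ⟨κ, h1, h2⟩ := hp.split B (∑ j, (μ j).sum + 1) (fun c i => (μ i).count c) (by
    funext i
    rw [Finset.sum_apply, ← (hv i).1]
    exact Multiset.sum_count_eq_card fun c hc => mem_range.2 (hk i c hc))
  refine ⟨κ, fun _ => ?_⟩
  funext i
  ext c
  by_cases hc : c < ∑ j, (μ j).sum + 1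
  · rw [← mu_count, h2 c hc]
  · rw [Multiset.count_eq_zero.2 (fun h => hc (hk i c h)), Multiset.count_eq_zero]
    intro h
    obtain ⟨s, hs, rfl⟩ := Multiset.mem_map.1 h
    exact hc (h1 s (mem_filter.1 hs).1)

theorem inj_of_val (B : Finset Ω) (e : Ω → ℕ) (hv : val Z B (mu Z B e)) (s : Ω) (hs : s ∈ B)
    (s' : Ω) (hs' : s' ∈ B) (ht : Z.ty s = Z.ty s') (he : e s = e s') : s = s' :=
  Multiset.inj_on_of_nodup_map ((hv (Z.ty s')).2 trivial) s (mem_filter.2 ⟨hs, ht⟩) s'
    (mem_filter.2 ⟨hs', rfl⟩) he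

theorem act_apply (g : Equiv.Perm Ω) (f : RR Ω) :
    act g f = (((Equiv.Perm.sign g : ℤˣ) : ℤ) : ℚ) • rename g f := rfl

theorem swap_mem (B : Finset Ω) (s s' : Ω) (hs : s ∈ B) (hs' : s' ∈ B) (ht : Z.ty s = Z.ty s') :
    Equiv.swap s s' ∈ Z.GG B := by
  refine ⟨fun x => ?_, fun x hx => ?_, fun _ => rfl⟩
  · by_cases h1 : x = s
    · rw [h1, Equiv.swap_apply_left, ht]
    · by_cases h2 : x = s'
      · rw [h2, Equiv.swap_apply_right, ht]
      · rw [Equiv.swap_apply_of_ne_of_ne h1 h2]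
  · exact Equiv.swap_apply_of_ne_of_ne (fun h => hx (h ▸ hs)) (fun h => hx (h ▸ hs'))

theorem alt_mem_span (hp : Z.S_PERM) (B : Finset Ω) (E : (I → Multiset ℕ) → Ω → ℕ)
    (hE : ∀ μ, val Z B μ → mu Z B (E μ) = μ) (e : Ω → ℕ) :
    Alt (Z.GG B) (xm B e) ∈
      Submodule.span ℚ ((fun μ => Alt (Z.GG B) (xm B (E μ))) '' {μ | val Z B μ}) := by
  by_cases h : ∃ s ∈ B, ∃ s' ∈ B, s ≠ s' ∧ Z.ty s = Z.ty s' ∧ e s = e s'
  · obtain ⟨s, hs, s', hs', hne, ht, he⟩ := h
    have hg := swap_mem Z B s s' hs hs' ht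
    have h1 := (hp.alt_act _ _ hg (xm B e)).1
    have h2 : (fun x => e ((Equiv.swap s s')⁻¹ x)) = e := by
      funext x
      rw [Equiv.swap_inv]
      by_cases h1 : x = s
      · rw [h1, Equiv.swap_apply_left, he]
      · by_cases h2 : x = s'
        · rw [h2, Equiv.swap_apply_right, he]
        · rw [Equiv.swap_apply_of_ne_of_ne h1 h2]
    rw [act_apply, rename_xm Z B e _ hg, h2, Equiv.Perm.sign_swap hne, map_smul] at h1
    have h3 : (2 : ℚ) • Alt (Z.GG B) (xm B e) = 0 := by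
      rw [two_smul]
      nth_rewrite 1 [← h1]
      simp
    rw [(smul_eq_zero.1 h3).resolve_left two_ne_zero]
    exact Submodule.zero_mem _
  · have hv : val Z B (mu Z B e) := fun i => ⟨mu_card Z B e i, fun _ =>
      Multiset.Nodup.map_on (fun s hs s' hs' he => by
        by_contra hne
        have hs1 := mem_filter.1 hs
        have hs2 := mem_filter.1 hs'
        exact h ⟨s, hs1.1, s', hs2.1, hne, hs1.2.trans hs2.2.symm, he⟩) (Finset.nodup _)⟩
    obtain ⟨g, hg, hge⟩ := hp.fibm B e (E (mu Z B e)) (fun c => by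
      funext i
      rw [mu_count, mu_count, hE _ hv])
    have h1 := (hp.alt_act _ _ hg (xm B e)).1
    have h2 : xm B (fun x => e (g⁻¹ x)) = xm B (E (mu Z B e)) := by
      rw [xm, xm, fe_congr B _ (E (mu Z B e))]
      intro s hs
      rw [← hge _ ((mem_GG Z B g⁻¹ ((Z.GG B).inv_mem hg) s).2 hs)]
      simp
    rw [act_apply, rename_xm Z B e _ hg, h2, map_smul] at h1
    rw [← h1]
    exact Submodule.smul_mem _ _ (Submodule.subset_span ⟨_, hv, rfl⟩)

open Classical in
theorem coeff_alt (B : Finset Ω) (e e' : Ω → ℕ) :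
    coeff (fe B e) (Alt (Z.GG B) (xm B e')) = ∑ g ∈ univ.filter (· ∈ Z.GG B),
      if fe B (fun s => e' (g⁻¹ s)) = fe B e then (((Equiv.Perm.sign g : ℤˣ) : ℤ) : ℚ) else 0 := by
  rw [Alt, LinearMap.sum_apply, coeff_sum]
  refine Finset.sum_congr rfl fun g hg => ?_
  rw [act_apply, rename_xm Z B e' g (mem_filter.1 hg).2, coeff_smul, xm, coeff_monomial]
  split_ifs <;> simp

theorem coeff_ne (B : Finset Ω) (e e' : Ω → ℕ) (h : mu Z B e ≠ mu Z B e') :
    coeff (fe B e) (Alt (Z.GG B) (xm B e')) = 0 := by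
  classical
  rw [coeff_alt]
  refine Finset.sum_eq_zero fun g hg => if_neg fun h1 => h ?_
  rw [← mu_congr Z B _ _ (fe_inj B _ _ h1)]
  exact mu_ren Z B e' g⁻¹ ((Z.GG B).inv_mem (mem_filter.1 hg).2)

theorem coeff_self (B : Finset Ω) (e : Ω → ℕ) (hv : val Z B (mu Z B e)) :
    coeff (fe B e) (Alt (Z.GG B) (xm B e)) = 1 := by
  classical
  rw [coeff_alt, Finset.sum_eq_single 1]
  · simp
  · intro g hg hne
    refine if_neg fun h1 => hne ?_
    have hg' := (Z.GG B).inv_mem (mem_filter.1 hg).2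
    rw [← inv_eq_one]
    ext s
    by_cases hs : s ∈ B
    · exact inj_of_val Z B e hv _ ((mem_GG Z B g⁻¹ hg' s).2 hs) s hs (hg'.1 s) (fe_inj B _ _ h1 s hs)
    · exact hg'.2.1 s hs
  · intro h
    exact absurd (mem_filter.2 ⟨mem_univ _, (Z.GG B).one_mem⟩) h

theorem gb (hp : Z.S_PERM) (B : Finset Ω) (E : (I → Multiset ℕ) → Ω → ℕ)
    (hE : ∀ μ, val Z B μ → mu Z B (E μ) = μ) :
    GB (Z.Asym B) ⊥ (val Z B) (fun μ => Alt (Z.GG B) (xm B (E μ))) fun μ => ∑ i, (μ i).sum := by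
  classical
  refine ⟨fun μ _ => hp.alt_mem B _ (xm_supp B _), fun μ hμ => hp.alt_hom _ _ _ ?_, ?_, ?_⟩
  · have := xm_hom Z B (E μ)
    rwa [hE μ hμ] at this
  · intro c hc h0
    rw [Ideal.mem_bot, Finsupp.linearCombination_apply, Finsupp.sum] at h0
    ext μ
    by_contra hne
    have hμ : μ ∈ c.support := Finsupp.mem_support_iff.2 hne
    have h1 := congrArg (coeff (fe B (E μ))) h0
    rw [coeff_sum, Finset.sum_eq_single μ, coeff_smul,
      coeff_self Z B _ (by rw [hE μ (hc μ hμ)]; exact hc μ hμ), coeff_zero, smul_eq_mul,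
      mul_one] at h1
    · exact hne h1
    · intro ν hν hνμ
      rw [coeff_smul, coeff_ne Z B _ _ (by
        rw [hE μ (hc μ hμ), hE ν (hc ν hν)]; exact hνμ.symm), smul_zero]
    · intro h
      exact absurd hμ h
  · intro f hf
    refine ⟨f, ?_, by rw [sub_self]; exact Ideal.zero_mem _⟩
    obtain ⟨N, hN, hN'⟩ := hp.alt_eq B
    have h1 : f = (N : ℚ)⁻¹ • Alt (Z.GG B) f := by
      rw [hN' f hf, smul_smul, inv_mul_cancel₀ (by exact_mod_cast hN.ne'), one_smul]
    rw [h1]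
    refine Submodule.smul_mem _ _ ?_
    rw [f.as_sum, map_sum]
    refine Submodule.sum_mem _ fun m hm => ?_
    have h2 : monomial m (coeff m f) = coeff m f • xm B m := by
      have h3 : fe B m = m := by
        ext s
        rw [fe_apply]
        split_ifs with hs
        · rfl
        · by_contra h
          have h4 : s ∈ f.vars :=
            (mem_vars_iff_mem_support s).2 ⟨m, hm, Finsupp.mem_support_iff.2 fun h' => h h'.symm⟩
          exact hs (mem_supported.1 hf.1 h4)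
      rw [xm, h3, smul_monomial, smul_eq_mul, mul_one]
    rw [h2, map_smul]
    exact Submodule.smul_mem _ _ (alt_mem_span Z hp B E hE m)

end MonA

theorem t_mon : T_MON := by
  intro Ω I _ _ _ _ Z hprod hbas hp hgb B
  choose E hE using MonA.ex_e Z hp B
  have h1 := hgb.1 _ _ _ _ _ _ hbas.homI_bot (MonA.gb Z hp B E hE)
  have h2 := hprod I (Z.dim B) fun _ => True
  simp only [if_true] at h2
  rw [← h2, HH]
  congr 1
  funext k
  rw [← (h1 k).2]
  rfl

end Pool.Agent.P.MP_389f6f_co.Sp
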