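import Pool.Agent.P.MP_389f6f_co.SDefs

/-! Permutation plumbing for the species part. -/

set_option autoImplicit false

namespace Pool.Agent.P.MP_389f6f_co.Sp
open MvPolynomial Finset

namespace PermA
variable {Ω I : Type} [Fintype Ω] [DecidableEq Ω] [Fintype I] [DecidableEq I] (Z : Qv Ω I)

theorem act_apply (g : Equiv.Perm Ω) (f : RR Ω) :
    act g f = (((Equiv.Perm.sign g : ℤˣ) : ℤ) : ℚ) • rename g f := rfl

theorem act_mul (g h : Equiv.Perm Ω) : act (g * h) = act g * act h := by
  refine LinearMap.ext fun f => ?_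
  rw [Module.End.mul_apply, act_apply, act_apply, act_apply, map_smul, smul_smul, rename_rename]
  simp

theorem act_one (f : RR Ω) : act (1 : Equiv.Perm Ω) f = f := by
  rw [act_apply]; simp

theorem act_swap {s s' : Ω} (h : s ≠ s') (f : RR Ω) :
    act (Equiv.swap s s') f = -rename (Equiv.swap s s') f := by
  rw [act_apply, Equiv.Perm.sign_swap h]; simp

open Classical in
theorem alt_apply (H : Subgroup (Equiv.Perm Ω)) (f : RR Ω) :
    Alt H f = ∑ g ∈ univ.filter (· ∈ H), act g f := by
  simp [Alt, LinearMap.sum_apply]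

theorem alt_act (H : Subgroup (Equiv.Perm Ω)) (g : Equiv.Perm Ω) (hg : g ∈ H) (f : RR Ω) :
    Alt H (act g f) = Alt H f ∧ act g (Alt H f) = Alt H f := by
  classical
  constructor
  · rw [alt_apply, alt_apply]
    refine Finset.sum_nbij' (fun h => h * g) (fun h => h * g⁻¹) ?_ ?_ ?_ ?_ ?_
    · intro h hh; simp only [mem_filter, mem_univ, true_and] at hh ⊢; exact H.mul_mem hh hg
    · intro h hh; simp only [mem_filter, mem_univ, true_and] at hh ⊢
      exact H.mul_mem hh (H.inv_mem hg)
    · intro h _; simp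
    · intro h _; simp
    · intro h _; rw [act_mul]; rfl
  · rw [alt_apply, map_sum]
    refine Finset.sum_nbij' (fun h => g * h) (fun h => g⁻¹ * h) ?_ ?_ ?_ ?_ ?_
    · intro h hh; simp only [mem_filter, mem_univ, true_and] at hh ⊢; exact H.mul_mem hg hh
    · intro h hh; simp only [mem_filter, mem_univ, true_and] at hh ⊢
      exact H.mul_mem (H.inv_mem hg) hh
    · intro h _; simp
    · intro h _; simp
    · intro h _; rw [act_mul]; rfl

theorem swap_mem (B : Finset Ω) (κ : Ω → ℕ) {s s' : Ω} (hs : s ∈ B) (hs' : s' ∈ B)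
    (h1 : Z.ty s = Z.ty s') (h2 : κ s = κ s') : Equiv.swap s s' ∈ Z.HK B κ := by
  refine ⟨fun x => ?_, fun x hx => ?_, fun x => ?_⟩
  · rw [Equiv.swap_apply_def]; split_ifs with a b
    · rw [a, h1]
    · rw [b, h1]
    · rfl
  · exact Equiv.swap_apply_of_ne_of_ne (fun e => hx (e ▸ hs)) (fun e => hx (e ▸ hs'))
  · rw [Equiv.swap_apply_def]; split_ifs with a b
    · rw [a, h2]
    · rw [b, h2]
    · rfl

theorem mem_of_fix {B : Finset Ω} {g : Equiv.Perm Ω} (hg : ∀ s, s ∉ B → g s = s) {s : Ω}
    (hs : s ∈ B) : g s ∈ B := by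
  by_contra h
  have := g.injective (hg _ h)
  exact h (this.symm ▸ hs)

theorem bas (B : Finset Ω) (κ : Ω → ℕ) (f : RR Ω)
    (hf : ∀ s ∈ B, ∀ s' ∈ B, s ≠ s' → Z.ty s = Z.ty s' → κ s = κ s' →
      rename (Equiv.swap s s') f = -f) : ∀ g ∈ Z.HK B κ, act g f = f := by
  intro g
  induction h : g.support.card using Nat.strong_induction_on generalizing g with
  | _ n ih =>
    intro hg
    by_cases h1 : g = 1
    · rw [h1, act_one]
    · obtain ⟨s, hs⟩ : ∃ s, g s ≠ s := by
        by_contra h2
        push Not at h2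
        exact h1 (Equiv.ext h2)
      have hsB : s ∈ B := by
        by_contra h2
        exact hs (hg.2.1 s h2)
      have hgB : g s ∈ B := mem_of_fix hg.2.1 hsB
      have hw := swap_mem Z B κ hsB hgB (hg.1 s).symm (hg.2.2 s).symm
      have h3 := ih _ (h ▸ Equiv.Perm.card_support_swap_mul hs) _ rfl ((Z.HK B κ).mul_mem hw hg)
      have h4 : g = Equiv.swap s (g s) * (Equiv.swap s (g s) * g) := by
        rw [← mul_assoc, Equiv.swap_mul_self, one_mul]
      rw [h4, act_mul, Module.End.mul_apply, h3, act_swap hs.symm,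
        hf s hsB _ hgB hs.symm (hg.1 s).symm (hg.2.2 s).symm, neg_neg]

theorem alt_mem (B : Finset Ω) (f : RR Ω) (hf : f ∈ supported ℚ (B : Set Ω)) :
    Alt (Z.GG B) f ∈ Z.Asym B := by
  classical
  refine ⟨?_, fun s hs s' hs' h1 h2 => ?_⟩
  · rw [alt_apply]
    refine Subalgebra.sum_mem _ fun g hg => ?_
    rw [act_apply]
    refine Subalgebra.smul_mem _ ?_ _
    simp only [mem_filter, mem_univ, true_and] at hg
    rw [mem_supported] at hf ⊢
    intro x hx
    obtain ⟨y, hy, rfl⟩ := mem_vars_rename _ _ (Finset.mem_coe.1 hx)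
    exact mem_of_fix hg.2.1 (hf hy)
  · have := (alt_act (Z.GG B) _ (swap_mem Z B (fun _ => 0) hs hs' h2 rfl) f).2
    rw [act_swap h1] at this
    exact neg_eq_iff_eq_neg.1 this

theorem alt_eq (B : Finset Ω) :
    ∃ N : ℕ, 0 < N ∧ ∀ f ∈ Z.Asym B, Alt (Z.GG B) f = (N : ℚ) • f := by
  classical
  refine ⟨(univ.filter (· ∈ Z.GG B)).card, Finset.card_pos.2 ⟨1, by simp⟩, fun f hf => ?_⟩
  rw [alt_apply, Finset.sum_congr rfl (g := fun _ => f), Finset.sum_const,
    Nat.cast_smul_eq_nsmul]
  intro g hg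
  simp only [mem_filter, mem_univ, true_and] at hg
  exact bas Z B (fun _ => 0) f (fun s hs s' hs' h1 h2 _ => hf.2 s hs s' hs' h1 h2) g hg

theorem alt_hom (H : Subgroup (Equiv.Perm Ω)) (f : RR Ω) (k : ℕ) (hf : f.IsHomogeneous k) :
    (Alt H f).IsHomogeneous k := by
  rw [alt_apply]
  refine IsHomogeneous.sum _ _ _ fun g _ => ?_
  rw [act_apply]
  exact (homogeneousSubmodule Ω ℚ k).smul_mem _ hf.rename_isHomogeneous

theorem fib_perm {T : Type} (f f' : Ω → T) [DecidableEq T]
    (h : ∀ t, (univ.filter fun s => f s = t).card = (univ.filter fun s => f' s = t).card) :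
    ∃ g : Equiv.Perm Ω, ∀ s, f' (g s) = f s := by
  have : ∀ t, Nonempty ({s // f s = t} ≃ {s // f' s = t}) := fun t =>
    ⟨Fintype.equivOfCardEq (by rw [Fintype.card_subtype, Fintype.card_subtype, h])⟩
  exact ⟨Equiv.ofFiberEquiv fun t => (this t).some, fun s => Equiv.ofFiberEquiv_map _ s⟩

theorem fibm (B : Finset Ω) (κ κ' : Ω → ℕ)
    (h : ∀ c, Z.dim (fib B κ c) = Z.dim (fib B κ' c)) :
    ∃ g ∈ Z.GG B, ∀ s ∈ B, κ' (g s) = κ s := by
  obtain ⟨g, hg⟩ := fib_perm
    (fun s => if s ∈ B then (Sum.inl (Z.ty s, κ s) : (I × ℕ) ⊕ Ω) else Sum.inr s)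
    (fun s => if s ∈ B then (Sum.inl (Z.ty s, κ' s) : (I × ℕ) ⊕ Ω) else Sum.inr s) (by
      rintro (⟨i, c⟩ | t)
      · have := congrFun (h c) i
        simp only [Qv.dim, fib] at this
        convert this using 2 <;> ext s <;> by_cases hs : s ∈ B <;> simp [hs, and_comm]
      · congr 1
        ext s
        by_cases hs : s ∈ B <;> simp [hs])
  have h1 : ∀ s, s ∉ B → g s = s := fun s hs => by
    have := hg s
    by_cases h2 : g s ∈ B <;> simp [hs, h2] at this
    exact this
  have h2 : ∀ s ∈ B, Z.ty (g s) = Z.ty s ∧ κ' (g s) = κ s := fun s hs => by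
    have := hg s
    simpa [hs, mem_of_fix h1 hs] using this
  refine ⟨g, ⟨fun s => ?_, h1, fun _ => rfl⟩, fun s hs => (h2 s hs).2⟩
  by_cases hs : s ∈ B
  · exact (h2 s hs).1
  · rw [h1 s hs]

theorem card_eq_sum (A : Finset Ω) : A.card = ∑ i, Z.dim A i :=
  Finset.card_eq_sum_card_fiberwise (f := Z.ty) (t := univ) (fun _ _ => mem_univ _)

theorem move (A A' : Finset Ω) (h : Z.dim A = Z.dim A') :
    ∃ g, Z.TP g ∧ A.map g.toEmbedding = A' := by
  obtain ⟨g, hg⟩ := fib_perm (fun s => (Z.ty s, decide (s ∈ A)))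
    (fun s => (Z.ty s, decide (s ∈ A'))) (by
      have key : ∀ (C : Finset Ω) (i : I),
          (univ.filter fun s => (Z.ty s, decide (s ∈ C)) = (i, true)).card = Z.dim C i ∧
          (univ.filter fun s => (Z.ty s, decide (s ∈ C)) = (i, false)).card + Z.dim C i =
            Z.dim univ i := by
        intro C i
        have e1 : (univ.filter fun s => (Z.ty s, decide (s ∈ C)) = (i, true)) =
            C.filter fun s => Z.ty s = i := by ext s; simp [and_comm]
        refine ⟨by rw [e1]; rfl, ?_⟩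
        simp only [Qv.dim]
        rw [← Finset.card_union_of_disjoint]
        · congr 1; ext s; by_cases hs : s ∈ C <;> simp [hs]
        · rw [Finset.disjoint_left]; intro s h1 h2; simp at h1 h2; exact h1.2 h2.1
      rintro ⟨i, b⟩
      cases b
      · have h1 := (key A i).2
        have h2 := (key A' i).2
        rw [h] at h1
        omega
      · rw [(key A i).1, (key A' i).1, h])
  simp only [Prod.mk.injEq, decide_eq_decide] at hg
  refine ⟨g, fun s => (hg s).1, ?_⟩
  ext x
  rw [Finset.mem_map_equiv, ← (hg _).2]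
  simp

theorem split (k : ℕ) : ∀ (B : Finset Ω) (d : ℕ → I → ℕ), ∑ c ∈ range k, d c = Z.dim B →
    ∃ κ : Ω → ℕ, (∀ s ∈ B, κ s < k) ∧ ∀ c < k, Z.dim (fib B κ c) = d c := by
  induction k with
  | zero =>
    intro B d h
    have : B = ∅ := by
      rw [← Finset.card_eq_zero, card_eq_sum Z, ← h]; simp
    exact ⟨fun _ => 0, by simp [this], by simp⟩
  | succ k ih =>
    intro B d h
    rw [Finset.sum_range_succ] at h
    have h1 : ∀ i, ∃ t ⊆ B.filter fun s => Z.ty s = i, t.card = d k i := fun i =>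
      Finset.exists_subset_card_eq (by
        have := congrFun h i
        simp only [Qv.dim, Pi.add_apply] at this
        omega)
    choose t ht1 ht2 using h1
    set A := B.filter fun s => s ∈ t (Z.ty s) with hA
    have hA1 : ∀ i, A.filter (fun s => Z.ty s = i) = t i := fun i => by
      ext s
      simp only [hA, mem_filter]
      constructor
      · rintro ⟨⟨_, h2⟩, rfl⟩; exact h2
      · intro h2
        have := mem_filter.1 (ht1 i h2)
        exact ⟨⟨this.1, this.2 ▸ h2⟩, this.2⟩
    have hA2 : Z.dim A = d k := funext fun i => by simp only [Qv.dim]; rw [hA1, ht2]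
    have hA3 : Z.dim (B \ A) + Z.dim A = Z.dim B := funext fun i => by
      simp only [Qv.dim, Pi.add_apply]
      rw [← Finset.card_union_of_disjoint]
      · rw [← Finset.filter_union, Finset.sdiff_union_of_subset (Finset.filter_subset _ _)]
      · exact Finset.disjoint_filter_filter Finset.sdiff_disjoint
    obtain ⟨κ, h2, h3⟩ := ih (B \ A) d (by
      rw [← h, hA2] at hA3; exact (add_right_cancel hA3).symm)
    refine ⟨fun s => if s ∈ A then k else κ s, fun s hs => ?_, fun c hc => ?_⟩
    · by_cases h4 : s ∈ A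
      · simp [h4]
      · have := h2 s (mem_sdiff.2 ⟨hs, h4⟩)
        simp only [h4, if_false]; omega
    · rcases Nat.lt_succ_iff_lt_or_eq.1 hc with h4 | rfl
      · rw [← h3 c h4]; congr 1
        ext s
        simp only [fib, mem_filter, mem_sdiff]
        by_cases h5 : s ∈ A
        · simp only [h5, if_true, not_true, and_false, false_and, iff_false, not_and]; omega
        · simp [h5]
      · rw [← hA2]; congr 1
        ext s
        simp only [fib, mem_filter]
        by_cases h5 : s ∈ A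
        · simp only [h5, if_true, and_true, iff_true]; exact (mem_filter.1 h5).1
        · simp only [h5, if_false, iff_false, not_and]
          intro h6
          have := h2 s (mem_sdiff.2 ⟨h6, h5⟩)
          omega

theorem dim_erase {C : Finset Ω} {s : Ω} (hs : s ∈ C) (i : I) :
    Z.dim (C.erase s) i + (if Z.ty s = i then 1 else 0) = Z.dim C i := by
  simp only [Qv.dim]
  conv_rhs => rw [← Finset.insert_erase hs, Finset.filter_insert]
  split_ifs
  · rw [Finset.card_insert_of_notMem (by simp)]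
  · rfl

theorem swp (n : ℕ) : ∀ C C' : Finset Ω, C.card = n → Disjoint C C' → Z.dim C = Z.dim C' →
    ∃ τ, Z.TP τ ∧ τ * τ = 1 ∧
    (∀ s, s ∉ C → s ∉ C' → τ s = s) ∧ (∀ s ∈ C, τ s ∈ C') ∧ (∀ s ∈ C', τ s ∈ C) ∧
    Equiv.Perm.sign τ = (-1) ^ C.card := by
  induction n with
  | zero =>
    intro C C' h _ h2
    have h3 : C'.card = 0 := by rw [card_eq_sum Z, ← h2, ← card_eq_sum Z, h]
    rw [Finset.card_eq_zero] at h h3
    subst h h3
    exact ⟨1, fun _ => rfl, by simp, by simp, by simp, by simp, by simp⟩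
  | succ n ih =>
    intro C C' h h1 h2
    obtain ⟨s, hs⟩ : C.Nonempty := Finset.card_pos.1 (by omega)
    obtain ⟨s', hs'⟩ : (C'.filter fun x => Z.ty x = Z.ty s).Nonempty := by
      rw [← Finset.card_pos]
      have := congrFun h2 (Z.ty s)
      simp only [Qv.dim] at this
      rw [← this, Finset.card_pos]
      exact ⟨s, by simp [hs]⟩
    obtain ⟨hs', hty⟩ := mem_filter.1 hs'
    have hd := Finset.disjoint_left.1 h1
    have hne : s ≠ s' := fun e => hd hs (e ▸ hs')
    obtain ⟨τ, t1, t2, t3, t4, t5, t6⟩ := ih (C.erase s) (C'.erase s')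
      (by rw [Finset.card_erase_of_mem hs]; omega)
      (h1.mono (Finset.erase_subset _ _) (Finset.erase_subset _ _)) (funext fun i => by
        have a1 := dim_erase Z hs i
        have a2 := dim_erase Z hs' i
        rw [hty, ← h2] at a2
        omega)
    have u1 : τ s = s := t3 s (by simp) (fun e => hd hs (mem_of_mem_erase e))
    have u2 : τ s' = s' := t3 s' (fun e => hd (mem_of_mem_erase e) hs') (by simp)
    have u3 : τ * Equiv.swap s s' = Equiv.swap s s' * τ := by
      rw [Equiv.mul_swap_eq_swap_mul, u1, u2]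
    have u4 : ∀ x, x ≠ s → x ≠ s' → (τ * Equiv.swap s s') x = τ x := fun x a b => by
      rw [Equiv.Perm.mul_apply, Equiv.swap_apply_of_ne_of_ne a b]
    have u5 : (τ * Equiv.swap s s') s = s' := by simp [u2]
    have u6 : (τ * Equiv.swap s s') s' = s := by simp [u1]
    refine ⟨τ * Equiv.swap s s', fun x => ?_, ?_, fun x a b => ?_, fun x a => ?_, fun x a => ?_, ?_⟩
    · rw [Equiv.Perm.mul_apply, t1]
      exact (swap_mem Z univ (fun _ => 0) (mem_univ s) (mem_univ s') hty.symm rfl).1 x
    · rw [mul_assoc, ← mul_assoc (Equiv.swap s s'), ← u3, mul_assoc, Equiv.swap_mul_self, mul_one,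
        t2]
    · rw [u4 x (fun e => a (e ▸ hs)) (fun e => b (e ▸ hs'))]
      exact t3 x (fun e => a (mem_of_mem_erase e)) (fun e => b (mem_of_mem_erase e))
    · by_cases e : x = s
      · rw [e, u5]; exact hs'
      · rw [u4 x e (fun e' => hd a (e' ▸ hs'))]
        exact mem_of_mem_erase (t4 x (mem_erase.2 ⟨e, a⟩))
    · by_cases e : x = s'
      · rw [e, u6]; exact hs
      · rw [u4 x (fun e' => hd hs (e' ▸ a)) e]
        exact mem_of_mem_erase (t5 x (mem_erase.2 ⟨e, a⟩))
    · rw [map_mul, t6, Equiv.Perm.sign_swap hne, Finset.card_erase_of_mem hs, h]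
      simp [pow_succ]

end PermA

theorem t_perm : T_PERM := fun _ _ _ _ _ _ Z =>
  ⟨PermA.act_mul, PermA.alt_act, PermA.bas Z, PermA.alt_mem Z, PermA.alt_eq Z, PermA.alt_hom,
    PermA.fibm Z, PermA.move Z, fun B k d => PermA.split Z k B d,
    fun C C' => PermA.swp Z _ C C' rfl⟩

end Pool.Agent.P.MP_389f6f_co.Sp
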