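import Pool.Agent.P.MP_389f6f_co.SDefs

/-! Signs of the standard elements under block permutations. -/

set_option autoImplicit false

namespace Pool.Agent.P.MP_389f6f_co.Sp
open MvPolynomial Finset

namespace SgnA

theorem prod_two {M : Type} [CommMonoid M] (S : Finset ℕ) (i j : ℕ) (hi : i ∈ S) (hj : j ∈ S)
    (hij : i ≠ j) (F G : ℕ → M) (h1 : F i * F j = G i * G j)
    (h2 : ∀ c ∈ S, c ≠ i → c ≠ j → F c = G c) : ∏ c ∈ S, F c = ∏ c ∈ S, G c := by
  have hj' : j ∈ S.erase i := mem_erase.2 ⟨hij.symm, hj⟩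
  rw [← mul_prod_erase S F hi, ← mul_prod_erase S G hi, ← mul_prod_erase _ F hj',
    ← mul_prod_erase _ G hj', ← mul_assoc, ← mul_assoc, h1]
  congr 1
  refine prod_congr rfl fun c hc => ?_
  have h3 := mem_erase.1 hc
  have h4 := mem_erase.1 h3.2
  exact h2 c h4.2 h4.1 h3.1

theorem ren_fix {Ω : Type} (g : Ω → Ω) (S : Set Ω) (hg : ∀ s ∈ S, g s = s) (f : RR Ω)
    (hf : f ∈ supported ℚ S) : rename g f = f := by
  have h : supported ℚ S ≤ AlgHom.equalizer (rename g : RR Ω →ₐ[ℚ] RR Ω) (AlgHom.id ℚ _) := by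
    refine Algebra.adjoin_le ?_
    rintro _ ⟨s, hs, rfl⟩
    change rename g (X s : RR Ω) = X s
    rw [rename_X, hg s hs]
  exact h hf

variable {Ω I : Type} [Fintype Ω] [DecidableEq Ω] [Fintype I] [DecidableEq I] {Z : Qv Ω I}

theorem lt_bot (J : Ideal (RR Ω)) (B : Finset Ω) (κ : Ω → ℕ) (N : ℕ) (f : RR Ω)
    (hf : f ∈ Lt ⊥ B κ N) : f ∈ Lt J B κ N := fun l h1 h2 => by
  have h : Dl l f ∈ (⊥ : Ideal (RR Ω)) := hf l h1 h2
  rw [Ideal.mem_bot] at h
  rw [h]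
  exact J.zero_mem

omit [Fintype Ω] [Fintype I] [DecidableEq I] in
theorem gg_mem {B : Finset Ω} {g : Equiv.Perm Ω} (hg : g ∈ Z.GG B) {s : Ω} (hs : s ∈ B) :
    g s ∈ B := by
  by_contra h
  have h1 : g (g s) = g s := hg.2.1 _ h
  have h2 : g s = s := g.injective h1
  exact h (h2.symm ▸ hs)

omit [Fintype Ω] [DecidableEq Ω] [DecidableEq I] in
theorem ek_congr (B : Finset Ω) (κ κ' : Ω → ℕ) (h : ∀ s ∈ B, κ s = κ' s) :
    Z.ek B κ = Z.ek B κ' := by
  unfold Qv.ek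
  refine prod_congr rfl fun s hs => prod_congr rfl fun s' hs' => ?_
  rw [h s hs, h s' hs']

omit [Fintype Ω] [DecidableEq Ω] in
theorem mem_fib {B : Finset Ω} {κ : Ω → ℕ} {c : ℕ} {s : Ω} :
    s ∈ fib B κ c ↔ s ∈ B ∧ κ s = c := by
  simp [fib]

omit [Fintype Ω] in
theorem inv_self {τ : Equiv.Perm Ω} (h : τ * τ = 1) : τ⁻¹ = τ := inv_eq_of_mul_eq_one_right h

omit [Fintype Ω] [DecidableEq Ω] in
theorem twice {τ : Equiv.Perm Ω} (h : τ * τ = 1) (s : Ω) : τ (τ s) = s := by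
  rw [← Equiv.Perm.mul_apply, h, Equiv.Perm.one_apply]

omit [Fintype Ω] [DecidableEq Ω] in
theorem map_swap {τ : Equiv.Perm Ω} (h : τ * τ = 1) {C C' : Finset Ω} (h1 : ∀ s ∈ C, τ s ∈ C')
    (h2 : ∀ s ∈ C', τ s ∈ C) : C.map τ.toEmbedding = C' := by
  ext s
  simp only [mem_map, Equiv.coe_toEmbedding]
  constructor
  · rintro ⟨x, hx, rfl⟩
    exact h1 x hx
  · intro hs
    exact ⟨τ s, h2 s hs, twice h s⟩

omit [Fintype Ω] [DecidableEq Ω] in
theorem ren_twice {τ : Equiv.Perm Ω} (h : τ * τ = 1) (f : RR Ω) :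
    rename τ (rename τ f) = f := by
  rw [rename_rename]
  have : (τ : Ω → Ω) ∘ τ = id := funext fun s => twice h s
  rw [this, rename_id]
  rfl

omit [DecidableEq Ω] in
theorem ren_pp (τ : Equiv.Perm Ω) (A : Finset Ω) :
    rename τ (pp A) = pp (A.map τ.toEmbedding) := by
  simp [pp, map_sum, sum_map]

theorem act_apply (g : Equiv.Perm Ω) (f : RR Ω) :
    act g f = (((Equiv.Perm.sign g : ℤˣ) : ℤ) : ℚ) • rename g f := rfl

variable {Γ : Type} [DecidableEq Γ] {Y : Z.Coh Γ}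

theorem swp (tay : S_TAY Ω) (bas : Z.S_BAS) (perm : Z.S_PERM) (ek : Z.S_EK) (ee : Z.S_EE Y)
    (hS : Sym Z.a Z.θ) (B : Finset Ω) (κ : Ω → ℕ) (lab : ℕ → Γ × ℕ) (i j : ℕ)
    (hV : Y.Val B κ lab) (hi : i ∈ B.image κ) (hj : j ∈ B.image κ) (hij : i ≠ j)
    (hl : lab i = lab j) : ∃ τ ∈ Z.GG B, (∀ s ∈ B, κ (τ s) = Equiv.swap i j (κ s)) ∧ τ * τ = 1 ∧
      act τ (Y.EE B κ lab) - ((-1 : ℚ) ^ par Z.a (Y.dΓ (lab i).1)) • Y.EE B κ lab ∈
        Lt (Z.Jk B κ) B κ (Z.R2 B κ + 2 * Qv.dl B κ lab) := by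
  have hdi := hV i hi
  have hdj := hV j hj
  have hdim : Z.dim (fib B κ i) = Z.dim (fib B κ j) := by rw [← hdi, ← hdj, hl]
  have hdis : Disjoint (fib B κ i) (fib B κ j) := by
    rw [disjoint_left]
    intro s h1 h2
    exact hij ((mem_fib.1 h1).2.symm.trans (mem_fib.1 h2).2)
  obtain ⟨τ, hT, hττ, hfix, h1, h2, hsg⟩ := perm.swp _ _ hdis hdim
  have hadm := ee.adm B κ lab hV
  have hG : τ ∈ Z.GG B := ⟨hT, fun s hs => hfix s (fun h => hs (mem_fib.1 h).1)
    (fun h => hs (mem_fib.1 h).1), fun _ => rfl⟩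
  have hoth : ∀ c, c ≠ i → c ≠ j → ∀ s ∈ fib B κ c, τ s = s := fun c hc hc' s hs =>
    hfix s (fun h => hc ((mem_fib.1 hs).2.symm.trans (mem_fib.1 h).2))
      (fun h => hc' ((mem_fib.1 hs).2.symm.trans (mem_fib.1 h).2))
  have hκ : ∀ s ∈ B, κ (τ s) = Equiv.swap i j (κ s) := by
    intro s hs
    by_cases e1 : κ s = i
    · rw [(mem_fib.1 (h1 s (mem_fib.2 ⟨hs, e1⟩))).2, e1, Equiv.swap_apply_left]
    by_cases e2 : κ s = j
    · rw [(mem_fib.1 (h2 s (mem_fib.2 ⟨hs, e2⟩))).2, e2, Equiv.swap_apply_right]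
    rw [hoth (κ s) e1 e2 s (mem_fib.2 ⟨hs, rfl⟩), Equiv.swap_apply_of_ne_of_ne e1 e2]
  refine ⟨τ, hG, hκ, hττ, ?_⟩
  have m1 := map_swap hττ h1 h2
  have m2 := map_swap hττ h2 h1
  have hww : rename τ (Y.ww B κ lab) = Y.ww B κ lab := by
    unfold Qv.Coh.ww
    rw [map_prod]
    refine prod_two _ i j hi hj hij _ _ ?_ ?_
    · rw [← hl]
      rcases Y.co τ (fib B κ i) (lab i).1 hT hdi with h | h
      · rw [m1] at h
        have h' : rename τ (Y.w (fib B κ j) (lab i).1) = Y.w (fib B κ i) (lab i).1 := by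
          rw [← h, ren_twice hττ]
        rw [h, h', mul_comm]
      · rw [m1] at h
        have h' : rename τ (Y.w (fib B κ j) (lab i).1) = -Y.w (fib B κ i) (lab i).1 := by
          have h3 := congrArg (rename τ) h
          rw [ren_twice hττ, map_neg] at h3
          rw [h3, neg_neg]
        rw [h, h', neg_mul_neg, mul_comm]
    · intro c hc hci hcj
      obtain ⟨s, hs, rfl⟩ := mem_image.1 hc
      have hgb := Y.gb (fib B κ (κ s)) ⟨s, mem_fib.2 ⟨hs, rfl⟩⟩ (hadm _)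
      have hm := hgb.mem (lab (κ s)).1 (hV _ hc)
      exact ren_fix τ _ (fun x hx => hoth _ hci hcj x (mem_coe.1 hx)) _ hm.1.1
  have hpp : rename τ (∏ c ∈ B.image κ, pp (fib B κ c) ^ (lab c).2) =
      ∏ c ∈ B.image κ, pp (fib B κ c) ^ (lab c).2 := by
    rw [map_prod]
    refine prod_two _ i j hi hj hij _ _ ?_ ?_
    · rw [map_pow, map_pow, ren_pp, ren_pp, m1, m2, hl, mul_comm]
    · intro c _ hci hcj
      rw [map_pow, ren_pp]
      congr 2
      exact map_swap hττ (fun s hs => (hoth c hci hcj s hs).symm ▸ hs)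
        (fun s hs => (hoth c hci hcj s hs).symm ▸ hs)
  have hgg : rename τ (Y.gg B κ lab) = Y.gg B κ lab := by
    unfold Qv.Coh.gg
    rw [map_mul, hww, hpp]
  have hek : rename τ (Z.ek B κ) = Z.ek B fun s => Equiv.swap i j (κ s) := by
    rw [bas.ek_ren τ B κ hT, bas.map_GG B τ hG, inv_self hττ]
    exact ek_congr B _ _ hκ
  have c1 : Crs B κ fun s => Equiv.swap i j (κ s) := fun s _ s' _ h => by
    simp only [h]
  have c2 : Crs B (fun s => Equiv.swap i j (κ s)) κ := fun s _ s' _ h =>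
    (Equiv.swap i j).injective h
  have hDL := ek.swp hS B κ i j hadm hij hdim
  have hlow := ek.low hS B κ (fun s => Equiv.swap i j (κ s))
    ((-1 : ℚ) ^ arr Z.a (Z.dim (fib B κ i)) (Z.dim (fib B κ i))) hadm c1 c2 (by
      rw [hDL, smul_eq_C_mul, map_pow, map_neg, map_one])
  have hm := tay.mul _ _ _ _ _ _ _ (lt_bot (Z.Jk B κ) _ _ _ _ hlow) (ee.glt B κ lab hV)
  have hN : Z.R2 B κ + (2 * Qv.dl B κ lab + 1) - 1 = Z.R2 B κ + 2 * Qv.dl B κ lab := by omega
  rw [hN] at hm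
  have key : act τ (Y.EE B κ lab) - ((-1 : ℚ) ^ par Z.a (Y.dΓ (lab i).1)) • Y.EE B κ lab =
      ((-1 : ℚ) ^ (fib B κ i).card) • (((Z.ek B fun s => Equiv.swap i j (κ s)) -
        ((-1 : ℚ) ^ arr Z.a (Z.dim (fib B κ i)) (Z.dim (fib B κ i))) • Z.ek B κ) *
          Y.gg B κ lab) := by
    rw [act_apply, hsg, hdi]
    unfold Qv.Coh.EE par
    rw [map_mul, hek, hgg, bas.dim_sum, pow_add, sub_mul, smul_sub, smul_mul_assoc, smul_smul]
    push_cast
    rfl
  rw [key]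
  exact Submodule.smul_mem _ _ hm

theorem act_lt (bas : Z.S_BAS) (winv : Z.S_WINV) (B : Finset Ω) (κ : Ω → ℕ) (i j N : ℕ)
    (τ : Equiv.Perm Ω) (hG : τ ∈ Z.GG B) (hκ : ∀ s ∈ B, κ (τ s) = Equiv.swap i j (κ s))
    (hττ : τ * τ = 1) (f : RR Ω) (hf : f ∈ Lt (Z.Jk B κ) B κ N) :
    act τ f ∈ Lt (Z.Jk B κ) B κ N := by
  have h := winv.lt_ren τ B κ N f hG.1 hf
  rw [bas.map_GG B τ hG, inv_self hττ] at h
  have c1 : Crs B κ fun s => κ (τ s) := fun s hs s' hs' e => by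
    simp only [hκ s hs, hκ s' hs', e]
  have c2 : Crs B (fun s => κ (τ s)) κ := fun s hs s' hs' e => by
    simp only [hκ s hs, hκ s' hs'] at e
    exact (Equiv.swap i j).injective e
  rw [← (bas.rel B κ _ c1 c2).2.2 N] at h
  rw [act_apply]
  exact Submodule.smul_mem _ _ h

omit [Fintype Ω] in
theorem two_le_count (B : Finset Ω) (κ : Ω → ℕ) (lab : ℕ → Γ × ℕ) (i j : ℕ) (hi : i ∈ B.image κ)
    (hj : j ∈ B.image κ) (hij : i ≠ j) (hl : lab i = lab j) :
    2 ≤ (Qv.ms B κ lab).count (lab i) := by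
  unfold Qv.ms
  rw [Multiset.count_map]
  have h : ({i, j} : Finset ℕ) ⊆ (B.image κ).filter fun c => lab i = lab c := by
    intro c hc
    rcases mem_insert.1 hc with rfl | hc
    · exact mem_filter.2 ⟨hi, rfl⟩
    · rw [mem_singleton.1 hc]
      exact mem_filter.2 ⟨hj, hl⟩
  have h2 := card_le_card h
  rw [card_pair hij] at h2
  exact h2

theorem stab (tay : S_TAY Ω) (bas : Z.S_BAS) (perm : Z.S_PERM) (winv : Z.S_WINV) (ek : Z.S_EK)
    (ee : Z.S_EE Y) (hS : Sym Z.a Z.θ) (B : Finset Ω) (κ : Ω → ℕ) (lab : ℕ → Γ × ℕ)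
    (hV : Y.Val B κ lab)
    (hc : ∀ x, Odd (par Z.a (Y.dΓ x.1)) → (Qv.ms B κ lab).count x ≤ 1) (n : ℕ) :
    ∀ g ∈ Z.GG B, Crs B κ (fun s => κ (g s)) → (∀ s ∈ B, lab (κ (g s)) = lab (κ s)) →
      (B.filter fun s => κ (g s) ≠ κ s).card ≤ n →
      act g (Y.EE B κ lab) - Y.EE B κ lab ∈
        Lt (Z.Jk B κ) B κ (Z.R2 B κ + 2 * Qv.dl B κ lab) := by
  induction n with
  | zero =>
    intro g hg _ _ hn
    have h0 : (B.filter fun s => κ (g s) ≠ κ s) = ∅ := card_eq_zero.1 (Nat.le_zero.1 hn)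
    have hH : g ∈ Z.HK B κ := by
      refine ⟨hg.1, hg.2.1, fun s => ?_⟩
      by_cases hs : s ∈ B
      · by_contra h
        have : s ∈ B.filter fun s => κ (g s) ≠ κ s := mem_filter.2 ⟨hs, h⟩
        rw [h0] at this
        exact notMem_empty _ this
      · rw [hg.2.1 s hs]
    rw [ee.asy B κ lab hV g hH, sub_self]
    exact Submodule.zero_mem _
  | succ n ih =>
    intro g hg hcr hl hn
    by_cases hle : (B.filter fun s => κ (g s) ≠ κ s).card ≤ n
    · exact ih g hg hcr hl hle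
    obtain ⟨s, hs⟩ : (B.filter fun s => κ (g s) ≠ κ s).Nonempty := card_pos.1 (by omega)
    obtain ⟨hsB, hne⟩ := mem_filter.1 hs
    have hi : κ s ∈ B.image κ := mem_image_of_mem κ hsB
    have hj : κ (g s) ∈ B.image κ := mem_image_of_mem κ (gg_mem hg hsB)
    have hll : lab (κ s) = lab (κ (g s)) := (hl s hsB).symm
    obtain ⟨τ, hτ, hκ, hττ, hlt⟩ := swp tay bas perm ek ee hS B κ lab _ _ hV hi hj hne.symm hll
    have hev : Even (par Z.a (Y.dΓ (lab (κ s)).1)) := by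
      rw [← Nat.not_odd_iff_even]
      intro ho
      have h1 := hc _ ho
      have h2 := two_le_count B κ lab _ _ hi hj hne.symm hll
      omega
    rw [hev.neg_one_pow, one_smul] at hlt
    have him : B.image (fun x => κ (g x)) = B.image κ := by
      conv_rhs => rw [← bas.map_GG B g hg]
      rw [map_eq_image, image_image]
      rfl
    have hcr' : Crs B (fun x => κ (g x)) κ := bas.crs_eq B κ _ hcr (by
      unfold nb
      rw [him])
    have hk' : ∀ x ∈ B, κ ((τ * g) x) = Equiv.swap (κ s) (κ (g s)) (κ (g x)) := fun x hx =>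
      hκ _ (gg_mem hg hx)
    have hsub : (B.filter fun x => κ ((τ * g) x) ≠ κ x) ⊆
        (B.filter fun x => κ (g x) ≠ κ x).erase s := by
      intro x hx
      obtain ⟨hxB, hx⟩ := mem_filter.1 hx
      rw [hk' x hxB] at hx
      have e1 : κ x ≠ κ s := fun e => hx (by
        have : κ (g x) = κ (g s) := hcr x hxB s hsB e
        rw [this, Equiv.swap_apply_right, e])
      refine mem_erase.2 ⟨fun e => e1 (by rw [e]), mem_filter.2 ⟨hxB, fun e => hx ?_⟩⟩
      have e2 : κ (g x) ≠ κ (g s) := fun e' => e1 (hcr' x hxB s hsB e')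
      rw [Equiv.swap_apply_of_ne_of_ne (by rw [e]; exact e1) e2, e]
    have hcard := card_le_card hsub
    rw [card_erase_of_mem hs] at hcard
    have hIH := ih (τ * g) ((Z.GG B).mul_mem hτ hg) (fun x hx y hy e => by
        have : κ (g x) = κ (g y) := hcr x hx y hy e
        simp only [hk' x hx, hk' y hy, this])
      (fun x hx => by
        rw [hk' x hx, ← hl x hx]
        by_cases e1 : κ (g x) = κ s
        · rw [e1, Equiv.swap_apply_left, hll]
        by_cases e2 : κ (g x) = κ (g s)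
        · rw [e2, Equiv.swap_apply_right, hll]
        rw [Equiv.swap_apply_of_ne_of_ne e1 e2]) (by omega)
    have hg' : g = τ * (τ * g) := by rw [← mul_assoc, hττ, one_mul]
    have key : act g (Y.EE B κ lab) - Y.EE B κ lab =
        act τ (act (τ * g) (Y.EE B κ lab) - Y.EE B κ lab) +
          (act τ (Y.EE B κ lab) - Y.EE B κ lab) := by
      rw [map_sub, ← Module.End.mul_apply, ← perm.act_mul, ← hg']
      abel
    rw [key]
    exact Submodule.add_mem _ (act_lt bas winv B κ _ _ _ τ hτ hκ hττ _ hIH) hlt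

end SgnA

theorem t_sgn : T_SGN := fun _ _ _ _ _ _ _ _ _ _ tay bas perm winv ek ee =>
  ⟨fun hS B κ lab i j hV hi hj hij hl => SgnA.swp tay bas perm ek ee hS B κ lab i j hV hi hj hij hl,
    fun hS B κ lab hV hc g hg h1 h2 =>
      SgnA.stab tay bas perm winv ek ee hS B κ lab hV hc _ g hg h1 h2 le_rfl⟩

end Pool.Agent.P.MP_389f6f_co.Sp
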