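import Pool.Agent.P.MP_389f6f_co.SDefs

set_option autoImplicit false
set_option linter.unusedSectionVars false

namespace Pool.Agent.P.MP_389f6f_co.Sp
open MvPolynomial Finset

namespace SpanA

theorem exists_bij {α : Type} [DecidableEq α] (f g : ℕ → α) (s : Finset ℕ) :
    ∀ t : Finset ℕ, s.val.map f = t.val.map g →
      ∃ σ : ℕ → ℕ, Set.BijOn σ s t ∧ ∀ c ∈ s, g (σ c) = f c := by
  induction s using Finset.induction_on with
  | empty =>
    intro t h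
    have ht : t = ∅ := by
      have := congrArg Multiset.card h
      simp only [empty_val, Multiset.map_zero, Multiset.card_zero, Multiset.card_map,
        card_val] at this
      exact card_eq_zero.1 this.symm
    subst ht
    exact ⟨id, by simp, by simp⟩
  | insert a s ha ih =>
    intro t h
    have h1 : f a ∈ t.val.map g := by
      rw [← h]
      exact Multiset.mem_map_of_mem _ (mem_insert_self a s)
    obtain ⟨b, hb, hfb⟩ := Multiset.mem_map.1 h1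
    have hb' : b ∈ t := hb
    have ht : t = insert b (t.erase b) := (insert_erase hb').symm
    have hbn : b ∉ t.erase b := notMem_erase b t
    have h2 : s.val.map f = (t.erase b).val.map g := by
      rw [ht, insert_val_of_notMem ha, insert_val_of_notMem hbn, Multiset.map_cons,
        Multiset.map_cons, hfb] at h
      exact (Multiset.cons_inj_right _).1 h
    obtain ⟨σ, hσ, hl⟩ := ih _ h2
    have hagree : ∀ c ∈ s, Function.update σ a b c = σ c := fun c hc =>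
      Function.update_of_ne (fun h : c = a => ha (h ▸ hc)) _ _
    have hσ' : Set.BijOn (Function.update σ a b) s (t.erase b : Finset ℕ) :=
      hσ.congr fun c hc => (hagree c hc).symm
    refine ⟨Function.update σ a b, ?_, ?_⟩
    · have := Set.BijOn.insert (a := a) hσ' (by simp)
      rw [Function.update_self] at this
      rw [coe_insert, ht, coe_insert]
      exact this
    · intro c hc
      rcases mem_insert.1 hc with rfl | hc
      · rw [Function.update_self, hfb]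
      · rw [hagree c hc, hl c hc]

variable {Ω I : Type} [Fintype Ω] [DecidableEq Ω] [Fintype I] [DecidableEq I]

theorem lt_mono {J J' : Ideal (RR Ω)} (hJ : J ≤ J') (B : Finset Ω) (κ : Ω → ℕ) {N N' : ℕ}
    (h : N ≤ N') {f : RR Ω} (hf : f ∈ Lt J B κ N) : f ∈ Lt J' B κ N' :=
  fun l h1 h2 => hJ (hf l h1 (h.trans h2))

theorem crs_trans {B : Finset Ω} {κ κ' κ'' : Ω → ℕ} (h : Crs B κ κ') (h' : Crs B κ' κ'') :
    Crs B κ κ'' := fun s hs s' hs' e => h' s hs s' hs' (h s hs s' hs' e)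

theorem crs_refl (B : Finset Ω) (κ : Ω → ℕ) : Crs B κ κ := fun _ _ _ _ e => e

variable {Z : Qv Ω I} {Γ : Type} [DecidableEq Γ] (Y : Z.Coh Γ)

theorem mem_FF {B : Finset Ω} {δ k : ℕ} {f : RR Ω} : f ∈ Z.FF B δ k ↔ ∀ κ, Z.Adm B κ →
    f ∈ Lt (Z.Jk B κ) B κ (Z.R2 B κ + 2 * δ + if nb B κ < k then 1 else 0) := by
  simp only [Qv.FF, Submodule.mem_iInf]

/-- standard elements for partitions equivalent to `κ` -/
noncomputable def SP (B : Finset Ω) (κ : Ω → ℕ) (δ : ℕ) : Submodule ℚ (RR Ω) :=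
  Submodule.span ℚ {x | ∃ κ' lab', Crs B κ κ' ∧ Y.Val B κ' lab' ∧ Qv.dl B κ' lab' = δ ∧
    x = Y.EE B κ' lab'}

theorem sp_bound (hs : Sym Z.a Z.θ) (hb : Z.S_BOUND Y) {B : Finset Ω} {κ : Ω → ℕ} {δ : ℕ}
    {f : RR Ω} (hf : f ∈ SP Y B κ δ) (κ2 : Ω → ℕ) (h2 : Z.Adm B κ2) :
    f ∈ Lt (Z.Jk B κ2) B κ2 (Z.R2 B κ2 + 2 * δ + 1) ∧
      (¬Crs B κ κ2 → f ∈ Lt (Z.Jk B κ2) B κ2 (Z.R2 B κ2 + 2 * δ)) := by
  constructor
  · refine (Submodule.span_le.2 ?_) hf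
    rintro x ⟨κ', lab', -, hv, rfl, rfl⟩
    exact (hb hs B κ' lab' hv κ2 h2).1
  · intro hn
    refine (Submodule.span_le.2 ?_) hf
    rintro x ⟨κ', lab', hc, hv, rfl, rfl⟩
    exact (hb hs B κ' lab' hv κ2 h2).2 fun h => hn (crs_trans hc h)

theorem low (hs : Sym Z.a Z.θ) (bas : Z.S_BAS) (hb : Z.S_BOUND Y) {B : Finset Ω} {κ : Ω → ℕ}
    {δ : ℕ} {f : RR Ω} (hf : f ∈ SP Y B κ δ)
    (hl : f ∈ Lt (Z.Jk B κ) B κ (Z.R2 B κ + 2 * δ)) : f ∈ Z.FF B δ (nb B κ) := by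
  refine mem_FF.2 fun κ2 h2 => ?_
  have hb2 := sp_bound Y hs hb hf κ2 h2
  split_ifs with h
  · exact hb2.1
  · by_cases hc : Crs B κ κ2
    · have hc' := bas.crs_eq B κ κ2 hc (not_lt.1 h)
      obtain ⟨-, e1, e2⟩ := bas.rel B κ κ2 hc hc'
      rw [add_zero, ← e2, ← e1]
      exact hl
    · exact hb2.2 hc

theorem act_EE (bas : Z.S_BAS) (ee : Z.S_EE Y) {B : Finset Ω} {κ : Ω → ℕ} {lab : ℕ → Γ × ℕ}
    (hv : Y.Val B κ lab) {g : Equiv.Perm Ω} (hg : g ∈ Z.GG B) :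
    Y.Val B (fun s => κ (g⁻¹ s)) lab ∧ Qv.dl B (fun s => κ (g⁻¹ s)) lab = Qv.dl B κ lab ∧
      ∃ ε : ℚ, ε * ε = 1 ∧ act g (Y.EE B κ lab) = ε • Y.EE B (fun s => κ (g⁻¹ s)) lab := by
  obtain ⟨h1, h2, h3⟩ := ee.ren B κ lab g hg hv
  refine ⟨h1, by simp only [Qv.dl, h2], ?_⟩
  have hek : rename g (Z.ek B κ) = Z.ek B fun s => κ (g⁻¹ s) := by
    rw [bas.ek_ren g B κ hg.1, bas.map_GG B g hg]
  have hsq : (((Equiv.Perm.sign g : ℤˣ) : ℤ) : ℚ) * (((Equiv.Perm.sign g : ℤˣ) : ℤ) : ℚ) = 1 := by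
    rw [← Int.cast_mul, ← Units.val_mul, Int.units_mul_self, Units.val_one, Int.cast_one]
  have hact : act g (Y.EE B κ lab) = (((Equiv.Perm.sign g : ℤˣ) : ℤ) : ℚ) •
      (rename g (Z.ek B κ) * rename g (Y.gg B κ lab)) := by
    simp only [act, Qv.Coh.EE, LinearMap.smul_apply, AlgHom.toLinearMap_apply, map_mul]
  rcases h3 with h3 | h3
  · exact ⟨_, hsq, by rw [hact, hek, h3]; rfl⟩
  · refine ⟨-(((Equiv.Perm.sign g : ℤˣ) : ℤ) : ℚ), by rw [neg_mul_neg, hsq], ?_⟩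
    rw [hact, hek, h3, mul_neg, smul_neg, neg_smul]
    rfl

theorem ee_mem {B : Finset Ω} {κ κ' : Ω → ℕ} {lab : ℕ → Γ × ℕ} {δ : ℕ} (hc : Crs B κ κ')
    (hv : Y.Val B κ' lab) (hd : Qv.dl B κ' lab = δ) : Y.EE B κ' lab ∈ SP Y B κ δ :=
  Submodule.subset_span ⟨κ', lab, hc, hv, hd, rfl⟩

theorem alt_bad (hs : Sym Z.a Z.θ) (bas : Z.S_BAS) (perm : Z.S_PERM) (winv : Z.S_WINV)
    (ee : Z.S_EE Y) (hb : Z.S_BOUND Y) (sgn : Z.S_SGN Y) {B : Finset Ω} {κ : Ω → ℕ}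
    {lab : ℕ → Γ × ℕ} (hv : Y.Val B κ lab) (x : Γ × ℕ) (hx : Odd (par Z.a (Y.dΓ x.1)))
    (hc : 1 < (Qv.ms B κ lab).count x) :
    Alt (Z.GG B) (Y.EE B κ lab) ∈ Z.FF B (Qv.dl B κ lab) (nb B κ) := by
  have hc' : 1 < ((B.image κ).filter fun c => x = lab c).card := by
    rw [Qv.ms, Multiset.count_map] at hc
    exact hc
  obtain ⟨i, hi, j, hj, hij⟩ := one_lt_card.1 hc'
  rw [mem_filter] at hi hj
  obtain ⟨τ, hτ, hκ, hττ, hlt⟩ :=
    sgn.swp hs B κ lab i j hv hi.1 hj.1 hij (hi.2.symm.trans hj.2)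
  rw [← hi.2, hx.neg_one_pow, neg_smul, one_smul, sub_neg_eq_add] at hlt
  obtain ⟨hv', hd, ε, -, hε⟩ := act_EE Y bas ee hv hτ
  have hinv : τ⁻¹ = τ := inv_eq_of_mul_eq_one_right hττ
  have hcr : Crs B κ fun s => κ (τ⁻¹ s) := by
    intro s hs s' hs' e
    show κ (τ⁻¹ s) = κ (τ⁻¹ s')
    rw [hinv, hκ s hs, hκ s' hs', e]
  have hsp : act τ (Y.EE B κ lab) + Y.EE B κ lab ∈ SP Y B κ (Qv.dl B κ lab) := by
    rw [hε]
    exact add_mem (Submodule.smul_mem _ _ (ee_mem Y hcr hv' hd))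
      (ee_mem Y (crs_refl B κ) hv rfl)
  have h1 := winv.ff_alt B _ _ _ (low Y hs bas hb hsp hlt)
  rw [map_add, (perm.alt_act _ τ hτ _).1, ← two_smul ℚ] at h1
  have h2 := Submodule.smul_mem _ (1 / 2 : ℚ) h1
  rwa [smul_smul, show (1 / 2 : ℚ) * 2 = 1 by norm_num, one_smul] at h2

theorem alt_good (hs : Sym Z.a Z.θ) (tay : S_TAY Ω) (bas : Z.S_BAS) (perm : Z.S_PERM)
    (winv : Z.S_WINV) (ek : Z.S_EK) (ee : Z.S_EE Y) (hb : Z.S_BOUND Y) {B : Finset Ω}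
    {κ κM : Ω → ℕ} {lab labM : ℕ → Γ × ℕ} (hv : Y.Val B κ lab) (hM : Y.Val B κM labM)
    (hms : Qv.ms B κ lab = Qv.ms B κM labM) :
    ∃ c : ℚ, Alt (Z.GG B) (Y.EE B κ lab) - c • Alt (Z.GG B) (Y.EE B κM labM) ∈
      Z.FF B (Qv.dl B κ lab) (nb B κ) := by
  obtain ⟨σ, hσ, hl⟩ := exists_bij lab labM (B.image κ) (B.image κM) hms
  have himg : ∀ s ∈ B, κ s ∈ B.image κ := fun s hs => mem_image_of_mem κ hs
  have hdim : ∀ c, Z.dim (fib B (fun s => σ (κ s)) c) = Z.dim (fib B κM c) := by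
    intro c
    by_cases hc : c ∈ B.image κM
    · obtain ⟨c0, hc0, rfl⟩ := hσ.surjOn hc
      have hf : fib B (fun s => σ (κ s)) (σ c0) = fib B κ c0 := by
        refine filter_congr fun s hs => ⟨fun e => hσ.injOn (himg s hs) hc0 e, fun e => ?_⟩
        show σ (κ s) = σ c0
        rw [e]
      rw [hf, ← hv c0 hc0, ← hM _ hc, hl c0 hc0]
    · have e1 : fib B (fun s => σ (κ s)) c = ∅ := by
        refine filter_eq_empty_iff.2 fun s hs e => hc ?_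
        rw [← e]
        exact hσ.mapsTo (himg s hs)
      have e2 : fib B κM c = ∅ := by
        refine filter_eq_empty_iff.2 fun s hs e => hc ?_
        rw [← e]
        exact mem_image_of_mem κM hs
      rw [e1, e2]
  obtain ⟨g, hg, hgκ⟩ := perm.fibm B _ κM hdim
  have hg' : g⁻¹ ∈ Z.GG B := inv_mem hg
  obtain ⟨hv3, -, ε, hεε, hε⟩ := act_EE Y bas ee hM hg'
  set κ3 : Ω → ℕ := fun s => κM (g⁻¹⁻¹ s) with hκ3
  have h3 : ∀ s ∈ B, κ3 s = σ (κ s) := fun s hs => by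
    rw [hκ3]
    simp only [inv_inv]
    exact hgκ s hs
  have hc1 : Crs B κ κ3 := fun s hs s' hs' e => by rw [h3 s hs, h3 s' hs', e]
  have hc2 : Crs B κ3 κ := fun s hs s' hs' e => by
    rw [h3 s hs, h3 s' hs'] at e
    exact hσ.injOn (himg s hs) (himg s' hs') e
  obtain ⟨-, hgg, hdl, -⟩ := ee.rel B κ κ3 lab labM hc1 hc2 fun s hs => by
    rw [h3 s hs, hl _ (himg s hs)]
  have hadm := ee.adm B κ lab hv
  obtain ⟨η, hηη, hη⟩ : ∃ η : ℚ, η * η = 1 ∧ Z.DL B κ κ3 = η • Z.DL B κ κ := by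
    rcases ek.sgn hs B κ κ3 hadm hc1 hc2 with h | h
    · exact ⟨1, by norm_num, by rw [h, one_smul]⟩
    · exact ⟨-1, by norm_num, by rw [h, neg_smul, one_smul]⟩
  have hlow := lt_mono (J' := Z.Jk B κ) bot_le B κ le_rfl (ek.low hs B κ κ3 η hadm hc1 hc2 hη)
  have hmul := tay.mul _ B κ _ _ _ _ hlow (ee.glt B κ lab hv)
  have hlt : Y.EE B κ3 labM - η • Y.EE B κ lab ∈
      Lt (Z.Jk B κ) B κ (Z.R2 B κ + 2 * Qv.dl B κ lab) := by
    have e : Y.EE B κ3 labM - η • Y.EE B κ lab =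
        (Z.ek B κ3 - η • Z.ek B κ) * Y.gg B κ lab := by
      rw [Qv.Coh.EE, Qv.Coh.EE, ← hgg, sub_mul, smul_mul_assoc]
    rw [e]
    exact lt_mono le_rfl B κ (by omega) hmul
  have hsp : Y.EE B κ3 labM - η • Y.EE B κ lab ∈ SP Y B κ (Qv.dl B κ lab) :=
    sub_mem (ee_mem Y hc1 hv3 hdl.symm)
      (Submodule.smul_mem _ _ (ee_mem Y (crs_refl B κ) hv rfl))
  have h1 := winv.ff_alt B _ _ _ (low Y hs bas hb hsp hlt)
  have h2 : Alt (Z.GG B) (Y.EE B κ3 labM) = ε • Alt (Z.GG B) (Y.EE B κM labM) := by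
    rw [← (perm.alt_act _ _ hg' (Y.EE B κM labM)).1, hε, map_smul, smul_smul, hεε, one_smul]
  rw [map_sub, map_smul, h2] at h1
  refine ⟨η * ε, ?_⟩
  have h4 := Submodule.smul_mem _ (-η) h1
  have e : (-η) • (ε • Alt (Z.GG B) (Y.EE B κM labM) - η • Alt (Z.GG B) (Y.EE B κ lab)) =
      Alt (Z.GG B) (Y.EE B κ lab) - (η * ε) • Alt (Z.GG B) (Y.EE B κM labM) := by
    rw [smul_sub, smul_smul, smul_smul, neg_mul, neg_mul, hηη, neg_smul, neg_smul, one_smul]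
    abel
  rwa [e] at h4

theorem alt_mem (hs : Sym Z.a Z.θ) (tay : S_TAY Ω) (bas : Z.S_BAS) (perm : Z.S_PERM)
    (winv : Z.S_WINV) (ek : Z.S_EK) (ee : Z.S_EE Y) (hb : Z.S_BOUND Y) (sgn : Z.S_SGN Y)
    {B : Finset Ω} {κ0 : {M // Good Z.a Y.dΓ (Z.dim B) M} → Ω → ℕ}
    {lab0 : {M // Good Z.a Y.dΓ (Z.dim B) M} → ℕ → Γ × ℕ} (hch : Z.Ch Y B κ0 lab0)
    {κ : Ω → ℕ} {lab : ℕ → Γ × ℕ} (hv : Y.Val B κ lab) :
    Alt (Z.GG B) (Y.EE B κ lab) ∈
      Submodule.span ℚ (Set.range fun M => Alt (Z.GG B) (Y.EE B (κ0 M) (lab0 M))) ⊔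
        Z.FF B (Qv.dl B κ lab) (nb B κ) := by
  by_cases hg : ∀ x, Odd (par Z.a (Y.dΓ x.1)) → (Qv.ms B κ lab).count x ≤ 1
  · have hgood : Good Z.a Y.dΓ (Z.dim B) (Qv.ms B κ lab) := by
      refine ⟨?_, hg⟩
      rw [Qv.ms, Multiset.map_map, ← bas.dim_fib B κ]
      exact sum_congr rfl fun c hc => hv c hc
    obtain ⟨hM, hms⟩ := hch ⟨_, hgood⟩
    obtain ⟨c, hc⟩ := alt_good Y hs tay bas perm winv ek ee hb hv hM hms.symm
    have := add_mem (Submodule.mem_sup_left (T := Z.FF B (Qv.dl B κ lab) (nb B κ))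
      (Submodule.smul_mem _ c (Submodule.subset_span
        (s := Set.range fun M => Alt (Z.GG B) (Y.EE B (κ0 M) (lab0 M))) ⟨⟨_, hgood⟩, rfl⟩)))
      (Submodule.mem_sup_right hc)
    rwa [add_sub_cancel] at this
  · push Not at hg
    obtain ⟨x, hx, hc⟩ := hg
    exact Submodule.mem_sup_right (alt_bad Y hs bas perm winv ee hb sgn hv x hx hc)

/-- the equivalence class of a partition -/
def cls (B : Finset Ω) (κ : Ω → ℕ) : Finset (Ω × Ω) := (B ×ˢ B).filter fun p => κ p.1 = κ p.2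

theorem crs_of_cls {B : Finset Ω} {κ κ' : Ω → ℕ} (h : cls B κ = cls B κ') : Crs B κ κ' := by
  intro s hs s' hs' e
  have : (s, s') ∈ cls B κ := mem_filter.2 ⟨mem_product.2 ⟨hs, hs'⟩, e⟩
  rw [h] at this
  exact (mem_filter.1 this).2

theorem cls_of_crs {B : Finset Ω} {κ κ' : Ω → ℕ} (h : Crs B κ κ') (h' : Crs B κ' κ) :
    cls B κ = cls B κ' :=
  filter_congr fun _ hp => ⟨h _ (mem_product.1 hp).1 _ (mem_product.1 hp).2,
    h' _ (mem_product.1 hp).1 _ (mem_product.1 hp).2⟩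

theorem step (hs : Sym Z.a Z.θ) (bas : Z.S_BAS) (perm : Z.S_PERM)
    (winv : Z.S_WINV) (hb : Z.S_BOUND Y) (sym : Z.S_SYM Y)
    {B : Finset Ω} (hB : B.Nonempty) (U : Submodule ℚ (RR Ω))
    (hU : ∀ κ lab, Y.Val B κ lab → Alt (Z.GG B) (Y.EE B κ lab) ∈
      U ⊔ Z.FF B (Qv.dl B κ lab) (nb B κ))
    (δ k : ℕ) (f : RR Ω) (hf : f ∈ Z.Asym B) (hF : f ∈ Z.FF B δ (k + 1)) :
    f ∈ U ⊔ Z.FF B δ k := by
  classical
  let P : Finset (Finset (Ω × Ω)) :=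
    univ.filter fun π => ∃ κ, Z.Adm B κ ∧ nb B κ = k ∧ cls B κ = π
  have hex : ∀ π : Finset (Ω × Ω), ∃ κ : Ω → ℕ, ∃ g : RR Ω, π ∈ P →
      (Z.Adm B κ ∧ nb B κ = k ∧ cls B κ = π) ∧
      g ∈ Submodule.span ℚ {x | ∃ lab, Y.Val B κ lab ∧ Qv.dl B κ lab = δ ∧ x = Y.EE B κ lab} ∧
      f - g ∈ Lt (Z.Jk B κ) B κ (Z.R2 B κ + 2 * δ) := by
    intro π
    by_cases hπ : π ∈ P
    · obtain ⟨κ, h1, h2, h3⟩ := (mem_filter.1 hπ).2
      obtain ⟨g, hg1, hg2⟩ := sym hs B κ δ hB h1 f hf (h2 ▸ hF)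
      exact ⟨κ, g, fun _ => ⟨⟨h1, h2, h3⟩, hg1, hg2⟩⟩
    · exact ⟨fun _ => 0, 0, fun h => absurd h hπ⟩
  choose κ g hκ using hex
  have hsp : ∀ π ∈ P, g π ∈ SP Y B (κ π) δ := by
    intro π hπ
    refine (Submodule.span_mono ?_) (hκ π hπ).2.1
    rintro x ⟨lab, h1, h2, rfl⟩
    exact ⟨κ π, lab, crs_refl B _, h1, h2, rfl⟩
  have hrest : f - ∑ π ∈ P, g π ∈ Z.FF B δ k := by
    refine mem_FF.2 fun κ2 h2 => ?_
    have hf2 := mem_FF.1 hF κ2 h2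
    have hb2 := fun π hπ => sp_bound Y hs hb (hsp π hπ) κ2 h2
    rcases lt_trichotomy (nb B κ2) k with h | h | h
    · rw [if_pos (by omega)] at hf2
      rw [if_pos h]
      exact sub_mem hf2 (sum_mem fun π hπ => (hb2 π hπ).1)
    · rw [if_neg (by omega), add_zero]
      have hP : cls B κ2 ∈ P := mem_filter.2 ⟨mem_univ _, κ2, h2, h, rfl⟩
      rw [← add_sum_erase P g hP, ← sub_sub]
      refine sub_mem ?_ (sum_mem fun π hπ => (hb2 π (mem_of_mem_erase hπ)).2 fun hc => ?_)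
      · obtain ⟨⟨-, -, e⟩, -, h5⟩ := hκ _ hP
        obtain ⟨-, e1, e2⟩ := bas.rel B _ κ2 (crs_of_cls e) (crs_of_cls e.symm)
        rw [← e2, ← e1]
        exact h5
      · obtain ⟨⟨-, e0, e⟩, -, -⟩ := hκ _ (mem_of_mem_erase hπ)
        have hc' := bas.crs_eq B _ κ2 hc (by omega)
        exact ne_of_mem_erase hπ (e.symm.trans (cls_of_crs hc hc'))
    · rw [if_neg (by omega)] at hf2
      rw [if_neg (by omega)]
      refine sub_mem hf2 (sum_mem fun π hπ => (hb2 π hπ).2 fun hc => ?_)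
      have := bas.crs_nb B _ κ2 hc
      have := (hκ π hπ).1.2.1
      omega
  have hg : ∀ π ∈ P, Alt (Z.GG B) (g π) ∈ U ⊔ Z.FF B δ k := by
    intro π hπ
    have : Submodule.span ℚ {x | ∃ lab, Y.Val B (κ π) lab ∧ Qv.dl B (κ π) lab = δ ∧
        x = Y.EE B (κ π) lab} ≤ (U ⊔ Z.FF B δ k).comap (Alt (Z.GG B)) := by
      refine Submodule.span_le.2 ?_
      rintro x ⟨lab, h1, h2, rfl⟩
      have := hU (κ π) lab h1
      rw [h2, (hκ π hπ).1.2.1] at this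
      exact this
    exact this (hκ π hπ).2.1
  obtain ⟨N, hN, hNf⟩ := perm.alt_eq B
  have h1 : Alt (Z.GG B) f ∈ U ⊔ Z.FF B δ k := by
    have e : f = ∑ π ∈ P, g π + (f - ∑ π ∈ P, g π) := by abel
    rw [e, map_add, map_sum]
    exact add_mem (sum_mem hg) (Submodule.mem_sup_right (winv.ff_alt B δ k _ hrest))
  rw [hNf f hf] at h1
  have h2 := Submodule.smul_mem _ ((N : ℚ)⁻¹) h1
  rwa [smul_smul, inv_mul_cancel₀ (by exact_mod_cast hN.ne'), one_smul] at h2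

end SpanA

open SpanA in
theorem t_span : T_SPAN := by
  intro Ω I _ _ _ _ Z Γ _ Y tay bas perm winv ek ee hb sym sgn hs B κ lab hB hth hch
  set U := Submodule.span ℚ (Set.range fun M => Alt (Z.GG B) (Y.EE B (κ M) (lab M))) with hU
  have hUA : U ≤ Z.Asym B := by
    refine Submodule.span_le.2 ?_
    rintro x ⟨M, rfl⟩
    exact perm.alt_mem B _ (Subalgebra.mul_mem _ (bas.ek_supp B _) (ee.supp B _ _ (hch M).1))
  have hk : ∀ δ, (∀ f ∈ Z.Asym B, f ∈ Z.FF B δ 0 → ∃ g ∈ U, f - g ∈ Z.JS B) →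
      ∀ k, ∀ f ∈ Z.Asym B, f ∈ Z.FF B δ k → ∃ g ∈ U, f - g ∈ Z.JS B := by
    intro δ h0 k
    induction k with
    | zero => exact h0
    | succ k ih =>
      intro f hf hF
      have := step Y hs bas perm winv hb sym hB U
        (fun κ' lab' hv => alt_mem Y hs tay bas perm winv ek ee hb sgn hch hv) δ k f hf hF
      obtain ⟨u, hu, r, hr, rfl⟩ := Submodule.mem_sup.1 this
      have hrA : r ∈ Z.Asym B := by
        have := sub_mem hf (hUA hu)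
        rwa [add_sub_cancel_left] at this
      obtain ⟨g, hg, hg'⟩ := ih r hrA hr
      refine ⟨u + g, add_mem hu hg, ?_⟩
      rwa [add_sub_add_left_eq_sub]
  have hδ : ∀ δ, ∀ f ∈ Z.Asym B, f ∈ Z.FF B δ 0 → ∃ g ∈ U, f - g ∈ Z.JS B := by
    intro δ
    induction δ with
    | zero =>
      intro f _ hF
      exact ⟨0, zero_mem _, by rw [sub_zero]; exact winv.ff_bot B hth f hF⟩
    | succ δ ih =>
      intro f hf hF
      exact hk δ ih _ f hf (winv.ff_step hs B δ hF)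
  intro f hf
  exact hδ _ f hf (winv.ff_top B 0 f)

end Pool.Agent.P.MP_389f6f_co.Sp
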