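import Pool.Agent.P.MP_389f6f_co.SDefs

/-! The numerical output of the species part. -/

set_option autoImplicit false

namespace Pool.Agent.P.MP_389f6f_co.Sp
open MvPolynomial Finset

namespace SpecA

theorem HH_top {Ω : Type} (V : Submodule ℚ (RR Ω)) (J : Ideal (RR Ω)) (h : (1 : RR Ω) ∈ J) :
    HH V J = 0 := by
  ext k
  have h0 : (V ⊓ homogeneousSubmodule Ω ℚ k).map (Ideal.Quotient.mkₐ ℚ J).toLinearMap = ⊥ := by
    rw [eq_bot_iff]
    rintro _ ⟨f, -, rfl⟩
    rw [Submodule.mem_bot]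
    have hf : f ∈ J := by simpa using J.mul_mem_left f h
    simpa [Ideal.Quotient.eq_zero_iff_mem] using hf
  simp only [HH, hh, PowerSeries.coeff_mk, map_zero]
  rw [h0, finrank_bot, Nat.cast_zero]

section Z
variable {Ω I : Type} (Z : Qv Ω I)

theorem JT_empty [DecidableEq Ω] : Z.JT ∅ = ⊥ := by
  rw [Qv.JT, Ideal.span_eq_bot]
  rintro f ⟨A, hA, hne, -⟩
  exact absurd (subset_empty.1 hA) hne

theorem JF_empty [DecidableEq Ω] : Z.JF ∅ = ⊥ := by
  rw [Qv.JF, Ideal.span_eq_bot]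
  rintro f ⟨A, hA, hne, -⟩
  exact absurd (subset_empty.1 hA) hne

theorem one_JT [DecidableEq Ω] (B : Finset Ω) (hB : B.Nonempty) (h : Z.th B ≤ 0) :
    (1 : RR Ω) ∈ Z.JT B := by
  refine Ideal.subset_span ⟨∅, empty_subset _, hB.ne_empty.symm, by simpa using h, ?_⟩
  simp [Qv.ee]

theorem one_JF [DecidableEq Ω] (B : Finset Ω) (hB : B.Nonempty) (h : 0 ≤ Z.th B) :
    (1 : RR Ω) ∈ Z.JF B := by
  refine Ideal.subset_span ⟨B, Subset.rfl, hB.ne_empty, h, ?_⟩
  simp [Qv.ee]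

end Z

section blk
variable {I : Type} [Fintype I] [DecidableEq I]

/-- the first `d i` sites of each type -/
def blk (D : ℕ) (d : I → ℕ) : Finset (I × Fin D) := univ.filter fun s => s.2.val < d s.1

/-- the sites -/
def ZZ (a : I → I → ℕ) (θ : I → ℝ) (D : ℕ) : Qv (I × Fin D) I := ⟨Prod.fst, a, θ⟩

theorem dim_blk (a : I → I → ℕ) (θ : I → ℝ) (D : ℕ) (d : I → ℕ) (hd : ∀ i, d i ≤ D) :
    (ZZ a θ D).dim (blk D d) = d := by
  funext i
  rw [Qv.dim]
  conv_rhs => rw [← card_range (d i)]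
  refine card_bij (fun s _ => s.2.val) ?_ ?_ ?_
  · rintro ⟨j, x⟩ hs
    simp only [blk, ZZ, mem_filter, mem_univ, true_and] at hs
    obtain ⟨h1, rfl⟩ := hs
    exact mem_range.2 h1
  · rintro ⟨j, x⟩ hs ⟨j', x'⟩ hs' h
    simp only [blk, ZZ, mem_filter, mem_univ, true_and] at hs hs'
    exact Prod.ext (hs.2.trans hs'.2.symm) (Fin.ext h)
  · intro x hx
    have hx' := mem_range.1 hx
    refine ⟨(i, ⟨x, hx'.trans_le (hd i)⟩), ?_, rfl⟩
    simp only [blk, ZZ, mem_filter, mem_univ, true_and, and_true]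
    exact hx'

theorem blk_zero (D : ℕ) : blk D (0 : I → ℕ) = ∅ := by
  simp [blk]

theorem blk_ne (a : I → I → ℕ) (θ : I → ℝ) (D : ℕ) (d : I → ℕ) (hd : ∀ i, d i ≤ D)
    (h0 : d ≠ 0) : (blk D d).Nonempty := by
  rw [nonempty_iff_ne_empty]
  intro h
  apply h0
  rw [← dim_blk a θ D d hd, h]
  funext i
  simp [Qv.dim]

theorem GS_zero {Γ : Type} [Fintype Γ] [DecidableEq Γ] (cb0 : cb 0 = 1) (cf0 : cf 0 = 1)
    (a : I → I → ℕ) (dΓ : Γ → I → ℕ) (dg : Γ → ℕ) : GS a dΓ dg 0 = 1 := by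
  have h : NN dΓ (0 : I → ℕ) = {0} := by
    ext n
    simp only [NN, mem_filter, Fintype.mem_piFinset, mem_range, mem_singleton, Pi.zero_apply,
      sum_const_zero, zero_add, Nat.lt_one_iff]
    constructor
    · exact fun hn => funext hn.1
    · rintro rfl
      simp
  have h1 : arr a (0 : I → ℕ) 0 = 0 := by simp [arr]
  rw [GS, h, sum_singleton, h1]
  simp [cb0, cf0]

end blk

end SpecA

open SpecA in
theorem t_spec : T_SPEC := by
  intro hcb hgf hall I _ _ a θ D hs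
  classical
  obtain ⟨bas, mon, hn, coh, int⟩ := hall (I × Fin D) I (ZZ a θ D)
  obtain ⟨Γ, _, ⟨Y⟩⟩ := coh hs
  have hth : ∀ d : I → ℕ, (∀ i, d i ≤ D) → (ZZ a θ D).th (blk D d) = thd θ d := fun d hd => by
    rw [bas.th_dim, dim_blk a θ D d hd]; rfl
  have h0 : HH ((ZZ a θ D).Asym ∅) ⊥ = 1 := by
    rw [mon ∅]
    refine prod_eq_one fun i _ => ?_
    have : (ZZ a θ D).dim ∅ i = 0 := by simp [Qv.dim]
    rw [this, hcb.2.1]
  have hS : ∀ q : I → ℕ, (∀ i, q i ≤ D) → thd θ q = 0 →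
      HH ((ZZ a θ D).Asym (blk D q)) ((ZZ a θ D).JS (blk D q)) = GS a Y.dΓ Y.dg q := by
    intro q hq hq0
    by_cases hz : q = 0
    · subst hz
      rw [blk_zero, bas.JS_empty, h0, GS_zero hcb.1 hcb.2.1]
    · rw [← hgf I Γ a θ Y.dΓ Y.dg hs Y.ne q]
      ext k
      have := int Γ Y hs (blk D q) (blk_ne a θ D q hq hz) ((hth q hq).trans hq0) k
      rw [dim_blk a θ D q hq] at this
      simp only [HH, PowerSeries.coeff_mk, this]
      rfl
  have hz : ∀ i, (0 : I → ℕ) i ≤ D := fun _ => Nat.zero_le D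
  refine ⟨fun d => if ∀ i, d i ≤ D then
      HH ((ZZ a θ D).Asym (blk D d)) ((ZZ a θ D).JT (blk D d)) else 0,
    fun d => if ∀ i, d i ≤ D then
      HH ((ZZ a θ D).Asym (blk D d)) ((ZZ a θ D).JF (blk D d)) else 0,
    Γ, inferInstance, inferInstance, Y.dΓ, Y.dg, ?_, ?_, ?_, ?_, Y.ne, ?_⟩
  · beta_reduce
    rw [if_pos hz, blk_zero, JT_empty, h0]
  · beta_reduce
    rw [if_pos hz, blk_zero, JF_empty, h0]
  · intro d hd
    beta_reduce at hd
    by_contra hc
    rw [not_or, not_lt] at hc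
    split_ifs at hd with h
    · exact hd (HH_top _ _ (one_JT _ _ (blk_ne a θ D d h hc.1) ((hth d h).trans_le hc.2)))
    · exact hd rfl
  · intro d hd
    beta_reduce at hd
    by_contra hc
    rw [not_or, not_lt] at hc
    split_ifs at hd with h
    · exact hd (HH_top _ _ (one_JF _ _ (blk_ne a θ D d h hc.1) (hc.2.trans_eq (hth d h).symm)))
    · exact hd rfl
  · intro d hd
    have h1 := mon (blk D d)
    have h2 := hn (blk D d) (blk D) fun e he => dim_blk a θ D e fun i => by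
      rw [dim_blk a θ D d hd] at he
      exact (he i).trans (hd i)
    rw [dim_blk a θ D d hd] at h1 h2
    rw [← h1, h2]
    refine sum_congr rfl fun p hp => sum_congr rfl fun q hq => ?_
    rw [mem_AD] at hp hq
    have e1 : ∀ i, p.1 i + (q.1 i + q.2 i) ≤ D := fun i => by
      have e := congrFun hp i
      have e' := congrFun hq i
      simp only [Pi.add_apply] at e e'
      rw [e', e]
      exact hd i
    have hp1 : ∀ i, p.1 i ≤ D := fun i => by have := e1 i; omega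
    have hq1 : ∀ i, q.1 i ≤ D := fun i => by have := e1 i; omega
    have hq2 : ∀ i, q.2 i ≤ D := fun i => by have := e1 i; omega
    beta_reduce
    rw [if_pos hp1, if_pos hq2]
    by_cases ht : thd θ q.1 = 0
    · have ht' : thd (ZZ a θ D).θ q.1 = 0 := ht
      rw [if_pos ht, if_pos ht', hS q.1 hq1 ht]
      rfl
    · have ht' : ¬thd (ZZ a θ D).θ q.1 = 0 := ht
      rw [if_neg ht, if_neg ht']

end Pool.Agent.P.MP_389f6f_co.Sp
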