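import Pool.Agent.P.MP_389f6f_co.SDefs

/-! The top symbol of an element of the filtration is the symbol of a standard element. -/

set_option autoImplicit false

namespace Pool.Agent.P.MP_389f6f_co.Sp
open MvPolynomial Finset

namespace SymA

section gen
variable {R : Type} [CommRing R] [Algebra ℚ R]

theorem expand {ι : Type} [DecidableEq ι] (J : Ideal R) (w : ι → R) (Ψ : ι → R →ₗ[ℚ] ℚ)
    (h0 : ∀ β, ∀ x ∈ J, Ψ β x = 0) (h1 : ∀ β β', Ψ β (w β') = if β' = β then 1 else 0)
    {x g : R} (hg : g ∈ Submodule.span ℚ (Set.range w)) (hx : x - g ∈ J) :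
    ∃ T : Finset ι, ∀ T', T ⊆ T' → x - ∑ β ∈ T', Ψ β x • w β ∈ J := by
  obtain ⟨a, rfl⟩ := Finsupp.mem_span_range_iff_exists_finsupp.1 hg
  have e : ∀ β, Ψ β x = a β := by
    intro β
    have h2 := h0 β _ hx
    rw [map_sub, sub_eq_zero] at h2
    rw [h2, Finsupp.sum, map_sum]
    simp only [map_smul, h1, smul_eq_mul, mul_ite, mul_one, mul_zero, sum_ite_eq']
    split_ifs with h
    · rfl
    · exact (Finsupp.notMem_support_iff.1 h).symm
  refine ⟨a.support, fun T' hT => ?_⟩
  simp only [e]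
  rwa [Finsupp.sum_of_support_subset a hT (fun i a => a • w i) (fun i _ => zero_smul _ _)] at hx

/-- apply a functional to all coefficients -/
noncomputable def mp (Ψ : R →ₗ[ℚ] ℚ) (F : MvPolynomial ℕ R) : MvPolynomial ℕ ℚ :=
  ∑ m ∈ F.support, monomial m (Ψ (coeff m F))

theorem coeff_mp (Ψ : R →ₗ[ℚ] ℚ) (F : MvPolynomial ℕ R) (m : ℕ →₀ ℕ) :
    coeff m (mp Ψ F) = Ψ (coeff m F) := by
  simp only [mp, coeff_sum, coeff_monomial, sum_ite_eq']
  split_ifs with h
  · rfl
  · rw [notMem_support_iff.1 h, map_zero]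

theorem mp_add (Ψ : R →ₗ[ℚ] ℚ) (F G : MvPolynomial ℕ R) : mp Ψ (F + G) = mp Ψ F + mp Ψ G := by
  ext m
  simp only [coeff_mp, coeff_add, map_add]

theorem mp_monomial (Ψ : R →ₗ[ℚ] ℚ) (d : ℕ →₀ ℕ) (u : R) :
    mp Ψ (monomial d u) = monomial d (Ψ u) := by
  ext m
  simp only [coeff_mp, coeff_monomial]
  split_ifs
  · rfl
  · exact map_zero _

theorem coeff_subst (Ψ : R →ₗ[ℚ] ℚ) (p : ℕ → MvPolynomial ℕ ℚ) (hp : ∀ c, (p c).IsHomogeneous 1)
    (N : ℕ) (m : ℕ →₀ ℕ) (F : MvPolynomial ℕ R) :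
    coeff m (aeval p (mp Ψ (homogeneousComponent N F))) = if m.degree = N then
      Ψ (coeff m (aeval (fun c => map (algebraMap ℚ R) (p c)) F : MvPolynomial ℕ R)) else 0 := by
  induction F using MvPolynomial.induction_on' with
  | add F G h1 h2 =>
    simp only [map_add, mp_add, coeff_add, h1, h2]
    split_ifs <;> simp
  | monomial d u =>
    have hP : (d.prod fun i k => p i ^ k).IsHomogeneous d.degree := by
      have h := (isHomogeneous_monomial (1 : ℚ) (rfl : d.degree = _)).aeval p hp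
      rwa [aeval_monomial, map_one, one_mul, one_mul] at h
    have e1 : (aeval (fun c => map (algebraMap ℚ R) (p c)) (monomial d u) : MvPolynomial ℕ R) =
        C u * map (algebraMap ℚ R) (d.prod fun i k => p i ^ k) := by
      rw [aeval_monomial, map_finsuppProd]
      simp only [map_pow, algebraMap_eq]
    have e2 : Ψ (coeff m (C u * map (algebraMap ℚ R) (d.prod fun i k => p i ^ k))) =
        Ψ u * coeff m (d.prod fun i k => p i ^ k) := by
      rw [coeff_C_mul, coeff_map, mul_comm u, ← Algebra.smul_def, map_smul, smul_eq_mul, mul_comm]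
    rw [e1, e2, homogeneousComponent_of_mem (isHomogeneous_monomial u rfl)]
    by_cases h : N = d.degree
    · rw [if_pos h, mp_monomial, aeval_monomial, algebraMap_eq, coeff_C_mul]
      split_ifs with h'
      · rfl
      · rw [hP.coeff_eq_zero (h ▸ h'), mul_zero]
    · rw [if_neg h]
      have : mp Ψ 0 = 0 := by simp [mp]
      rw [this, map_zero, coeff_zero]
      split_ifs with h'
      · rw [hP.coeff_eq_zero (fun h'' => h (h'.symm.trans h'')), mul_zero]
      · rfl

end gen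

theorem hc_mul {D h : MvPolynomial ℕ ℚ} {r : ℕ} (hD : D.IsHomogeneous r) (δ : ℕ) :
    homogeneousComponent (r + δ) (D * h) = D * homogeneousComponent δ h := by
  induction h using MvPolynomial.induction_on' with
  | add F G h1 h2 => simp only [mul_add, map_add, h1, h2]
  | monomial d u =>
    have h1 := isHomogeneous_monomial u (rfl : d.degree = _)
    rw [homogeneousComponent_of_mem (hD.mul h1), homogeneousComponent_of_mem h1]
    by_cases h : δ = d.degree
    · rw [if_pos h, if_pos (by rw [h])]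
    · rw [if_neg h, if_neg (by omega), mul_zero]

/-- quotient of a homogeneous polynomial in the variables of `S` -/
theorem exists_quot {D σ : MvPolynomial ℕ ℚ} {r δ : ℕ} (S : Finset ℕ) (hD : D.IsHomogeneous r)
    (hD0 : D ≠ 0) (hσ : σ.IsHomogeneous (r + δ)) (hS : ∀ m ∈ σ.support, m.support ⊆ S)
    (hd : D ∣ σ) : ∃ h : MvPolynomial ℕ ℚ, σ = D * h ∧
      ∀ m ∈ h.support, m.degree = δ ∧ m.support ⊆ S := by
  obtain ⟨h, e⟩ := hd
  have e' : σ = D * homogeneousComponent δ h := by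
    rw [← hc_mul hD, ← e, homogeneousComponent_eq_self hσ]
  refine ⟨_, e', fun m hm => ⟨?_, fun c hc => ?_⟩⟩
  · by_contra hn
    exact mem_support_iff.1 hm ((homogeneousComponent_isHomogeneous δ h).coeff_eq_zero hn)
  · by_contra hn
    have h0 : homogeneousComponent δ h ≠ 0 := by
      intro h0
      rw [h0] at hm
      simp at hm
    have h1 : degreeOf c σ = 0 := by
      rw [degreeOf_eq_sup]
      refine Nat.eq_zero_of_le_zero (Finset.sup_le fun d hd => ?_)
      exact (Finsupp.notMem_support_iff.1 fun h => hn (hS d hd h)).le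
    rw [e', degreeOf_mul_eq hD0 h0] at h1
    have h2 := monomial_le_degreeOf c hm
    have h3 := Finsupp.mem_support_iff.1 hc
    omega

theorem exists_list (m : ℕ →₀ ℕ) (j : ℕ) : ∃ l : List ℕ, (∀ c ∈ l, c ≠ j) ∧
    l.length + m j = m.degree ∧
    Multiset.toFinsupp ((List.replicate (m j) j ++ l : List ℕ) : Multiset ℕ) = m := by
  refine ⟨(Finsupp.toMultiset (m.erase j)).toList, fun c hc => ?_, ?_, ?_⟩
  · rw [Multiset.mem_toList, Finsupp.mem_toMultiset, Finsupp.support_erase] at hc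
    exact (mem_erase.1 hc).1
  · rw [Multiset.length_toList, Finsupp.card_toMultiset]
    have h := congrArg Finsupp.degree (Finsupp.erase_add_single j m)
    rw [map_add, Finsupp.degree_single] at h
    exact h
  · ext c
    rw [Multiset.toFinsupp_apply, ← Multiset.coe_add, Multiset.count_add, Multiset.coe_toList,
      Finsupp.count_toMultiset, Multiset.coe_replicate, Multiset.count_replicate,
      Finsupp.erase_apply]
    by_cases h : c = j
    · simp [h]
    · simp [h, Ne.symm h]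

variable {Ω I : Type} [Fintype Ω] [DecidableEq Ω] [Fintype I] [DecidableEq I]

omit [DecidableEq Ω] in
theorem Dl_append (l l' : List (Ω → ℚ)) (f : RR Ω) : Dl (l ++ l') f = Dl l (Dl l' f) := by
  simp [Dl, List.map_append, List.prod_append]

omit [Fintype Ω] in
theorem TT_supp (B : Finset Ω) (κ : Ω → ℕ) (f : RR Ω) :
    ∀ m ∈ (TT B κ f).support, m.support ⊆ B.image κ := by
  have h : TT B κ f ∈ supported (RR Ω) ((B.image κ : Finset ℕ) : Set ℕ) := by
    induction f using MvPolynomial.induction_on with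
    | C a =>
      rw [TT, aeval_C]
      exact Subalgebra.algebraMap_mem (supported (RR Ω) _) (algebraMap ℚ (RR Ω) a)
    | add p q h1 h2 =>
      rw [map_add]
      exact Subalgebra.add_mem _ h1 h2
    | mul_X p s h =>
      rw [map_mul]
      refine Subalgebra.mul_mem _ h ?_
      rw [TT, aeval_X]
      refine Subalgebra.add_mem _ (Subalgebra.algebraMap_mem (supported (RR Ω) _) (X s)) ?_
      split_ifs with hs
      · exact X_mem_supported.2 (mem_coe.2 (mem_image_of_mem κ hs))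
      · exact Subalgebra.zero_mem _
  intro m hm c hc
  exact mem_coe.1 (mem_supported.1 h (mem_coe.2 ((mem_vars_iff_mem_support c).2 ⟨m, hm, hc⟩)))

/-- coefficients of the translate are derivatives along block indicators -/
theorem coeff_TT (tay : S_TAY Ω) (B : Finset Ω) (κ : Ω → ℕ) (f : RR Ω) (m : ℕ →₀ ℕ) :
    ∃ (l : List (Ω → ℚ)) (n : ℕ), 0 < n ∧ l.length = m.degree ∧ (∀ v ∈ l, Cst B κ v) ∧
      (n : ℚ) • coeff m (TT B κ f) = Dl l f := by
  obtain ⟨l, -, h2, h3⟩ := exists_list m 0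
  obtain ⟨n, hn, h⟩ := tay.tay (fun s => if s ∈ B then X (κ s) else 0)
    (fun c s => if s ∈ B ∧ κ s = c then 1 else 0)
    (fun s c => by
      by_cases hs : s ∈ B <;> by_cases hc : κ s = c <;> simp [hs, hc, pderiv_X])
    (fun s => by by_cases hs : s ∈ B <;> simp [hs]) (List.replicate (m 0) 0 ++ l) f
  rw [h3] at h
  refine ⟨_, n, hn, ?_, fun v hv => ?_, h⟩
  · simp only [List.length_map, List.length_append, List.length_replicate]
    omega
  · obtain ⟨c, -, rfl⟩ := List.mem_map.1 hv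
    exact ⟨fun s hs => by simp [hs], fun s hs s' hs' e => by simp [hs, hs', e]⟩

variable (Z : Qv Ω I)

/-- merging block `j` into block `i` -/
def mrg (κ : Ω → ℕ) (i j : ℕ) : Ω → ℕ := fun s => if κ s = j then i else κ s

omit [Fintype Ω] [DecidableEq Ω] in
theorem mrg_crs (B : Finset Ω) (κ : Ω → ℕ) (i j : ℕ) : Crs B κ (mrg κ i j) :=
  fun s _ s' _ e => by simp only [mrg, e]

omit [Fintype Ω] [DecidableEq Ω] [Fintype I] [DecidableEq I] in
theorem mrg_adm {B : Finset Ω} {κ : Ω → ℕ} (h : Z.Adm B κ) {i j : ℕ} (hij : i ≠ j) :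
    Z.Adm B (mrg κ i j) := by
  intro c
  have hc := h c
  have hj := h j
  simp only [Qv.th, fib, sum_filter] at hc hj ⊢
  by_cases h1 : c = j
  · refine sum_eq_zero fun s _ => if_neg ?_
    simp only [mrg]
    split_ifs <;> omega
  by_cases h2 : c = i
  · refine Eq.trans ?_ ((congrArg₂ (· + ·) hc hj).trans (add_zero _))
    rw [← sum_add_distrib]
    refine sum_congr rfl fun s _ => ?_
    simp only [mrg]
    split_ifs <;> first | omega | simp
  · rw [← hc]
    refine sum_congr rfl fun s _ => ?_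
    simp only [mrg]
    split_ifs <;> first | omega | simp

theorem mrg_R2 (bas : Z.S_BAS) (hs : Sym Z.a Z.θ) {B : Finset Ω} {κ : Ω → ℕ} (h : Z.Adm B κ)
    {i j : ℕ} (hij : i ≠ j) :
    Z.R2 B (mrg κ i j) + 2 * arr Z.a (Z.dim (fib B κ i)) (Z.dim (fib B κ j)) ≤ Z.R2 B κ := by
  have e := hs _ _ ((bas.th_dim _).symm.trans (h i)) ((bas.th_dim _).symm.trans (h j))
  have key : ∀ i j, arr Z.a (Z.dim (fib B κ i)) (Z.dim (fib B κ j)) = ∑ s ∈ B, ∑ s' ∈ B,
      if κ s = i ∧ κ s' = j then Z.a (Z.ty s) (Z.ty s') else 0 := by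
    intro i j
    rw [bas.arr_dim]
    simp only [fib, sum_filter]
    refine sum_congr rfl fun s _ => ?_
    by_cases h1 : κ s = i <;> simp [h1]
  rw [two_mul]
  nth_rewrite 2 [e]
  rw [key, key]
  simp only [Qv.R2, ← sum_add_distrib]
  refine sum_le_sum fun s _ => sum_le_sum fun s' _ => ?_
  simp only [mrg]
  split_ifs <;> omega

/-- coefficients of low order in `c j` after the substitution `c j ↦ c i + c j` -/
theorem coeff_low (tay : S_TAY Ω) (bas : Z.S_BAS) (hs : Sym Z.a Z.θ) {B : Finset Ω} {κ : Ω → ℕ}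
    (h : Z.Adm B κ) {δ : ℕ} {f : RR Ω} (hf : f ∈ Z.FF B δ (nb B κ + 1)) {i j : ℕ} (hij : i ≠ j)
    (m : ℕ →₀ ℕ) (hm : m.degree = Z.r1 B κ + δ)
    (hj : m j < arr Z.a (Z.dim (fib B κ i)) (Z.dim (fib B κ j))) :
    ∃ n : ℕ, 0 < n ∧ (n : ℚ) • coeff m (aeval (fun c => map (algebraMap ℚ (RR Ω))
      (if c = j then X i + X j else (X c : MvPolynomial ℕ ℚ))) (TT B κ f) :
        MvPolynomial ℕ (RR Ω)) ∈ Z.Jk B κ := by
  obtain ⟨l, h1, h2, h3⟩ := exists_list m j
  obtain ⟨n, hn, e⟩ := tay.tay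
    (fun s => if s ∈ B then (if κ s = j then X i + X j else X (κ s)) else 0)
    (fun c s => if s ∈ B ∧ (if c = j then κ s else mrg κ i j s) = c then 1 else 0)
    (fun s c => by
      by_cases hs : s ∈ B
      · by_cases h4 : κ s = j
        · by_cases h5 : c = j
          · simp [hs, h4, h5, pderiv_X, hij]
          · by_cases h6 : i = c <;> simp [hs, h4, h5, h6, pderiv_X, mrg, Ne.symm h5]
        · by_cases h5 : c = j
          · simp [hs, h4, h5, pderiv_X]
          · by_cases h6 : κ s = c <;> simp [hs, h4, h5, h6, pderiv_X, mrg]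
      · simp [hs])
    (fun s => by by_cases hs : s ∈ B <;> by_cases h4 : κ s = j <;> simp [hs, h4])
    (List.replicate (m j) j ++ l) f
  have e2 : (aeval (fun c => map (algebraMap ℚ (RR Ω))
      (if c = j then X i + X j else (X c : MvPolynomial ℕ ℚ))) (TT B κ f) :
        MvPolynomial ℕ (RR Ω)) = aeval (fun s => C (X s) +
          if s ∈ B then (if κ s = j then X i + X j else X (κ s)) else 0) f := by
    have e3 : ((aeval (R := RR Ω) (fun c => map (algebraMap ℚ (RR Ω))
        (if c = j then X i + X j else (X c : MvPolynomial ℕ ℚ)))).restrictScalars ℚ).comp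
          (TT B κ) = aeval (fun s => C (X s) +
          if s ∈ B then (if κ s = j then X i + X j else X (κ s)) else 0) := by
      refine algHom_ext fun s => ?_
      by_cases hs : s ∈ B <;> by_cases h4 : κ s = j <;> simp [TT, hs, h4]
    exact DFunLike.congr_fun e3 f
  refine ⟨n, hn, ?_⟩
  rw [e2, ← h3, e, List.map_append, Dl_append]
  refine bas.Jk_D B κ _ (fun v hv => ?_) _ (bas.Jk_mono B κ _ (mrg_crs B κ i j) ?_)
  · obtain ⟨c, hc, rfl⟩ := List.mem_map.1 hv
    obtain rfl := List.eq_of_mem_replicate hc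
    exact ⟨fun s hs => by simp [hs], fun s hs s' hs' e => by simp [hs, hs', e]⟩
  · have hf' := (Submodule.mem_iInf _).1 ((Submodule.mem_iInf _).1 hf (mrg κ i j))
      (mrg_adm Z h hij)
    refine hf' _ (fun v hv => ?_) ?_
    · obtain ⟨c, hc, rfl⟩ := List.mem_map.1 hv
      exact ⟨fun s hs => by simp [hs], fun s hs s' hs' e => by simp [hs, hs', e, h1 c hc]⟩
    · have h4 := mrg_R2 Z bas hs h hij
      have h5 := bas.R2_eq hs B κ h
      rw [List.length_map]
      split_ifs <;> omega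

end SymA

open SymA in
theorem t_sym : T_SYM := by
  classical
  intro Ω I _ _ _ _ Z Γ _ Y tay bas teni dv coef ek ee hs B κ δ hB hκ f hfA hf
  obtain ⟨s0, hs0⟩ := id hB
  have hc0 : κ s0 ∈ B.image κ := mem_image_of_mem κ hs0
  have hR := bas.R2_eq hs B κ hκ
  have hff : ∀ κ', Z.Adm B κ' → f ∈ Lt (Z.Jk B κ') B κ'
      (Z.R2 B κ' + 2 * δ + if nb B κ' < nb B κ + 1 then 1 else 0) := fun κ' h =>
    (Submodule.mem_iInf _).1 ((Submodule.mem_iInf _).1 hf κ') h
  have hf1 := hff κ hκ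
  rw [if_pos (Nat.lt_succ_self _)] at hf1
  have hne : ∀ c ∈ B.image κ, (fib B κ c).Nonempty := fun c hc => by
    obtain ⟨s, hs, e⟩ := mem_image.1 hc
    exact ⟨s, mem_filter.2 ⟨hs, e⟩⟩
  have gb := fun c hc => Y.gb (fib B κ c) (hne c hc) (hκ c)
  -- normalised valid labellings
  let ι := {γ : ℕ → Γ // (∀ c ∈ B.image κ, Y.dΓ (γ c) = Z.dim (fib B κ c)) ∧
    ∀ c, c ∉ B.image κ → γ c = γ (κ s0)}
  let w : ι → RR Ω := fun β => ∏ c ∈ B.image κ, Y.w (fib B κ c) (β.1 c)
  have hΨ : ∀ β : ι, ∃ Ψ : RR Ω →ₗ[ℚ] ℚ, (∀ x ∈ Z.Jk B κ, Ψ x = 0) ∧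
      ∀ β' : ι, Ψ (w β') = if β' = β then 1 else 0 := by
    intro β
    obtain ⟨Ψ, h1, h2⟩ := teni ℕ Γ (B.image κ) (fib B κ) (fun c => Z.JS (fib B κ c))
      (fun c γ => Y.dΓ γ = Z.dim (fib B κ c)) (fun c => Y.w (fib B κ c))
      (fun c _ c' _ h => disjoint_filter.2 fun s _ h1 h2 => h (h1.symm.trans h2))
      (fun c _ => (bas.gen _).2.1) (fun c hc γ hγ => ((gb c hc).mem γ hγ).1.1)
      (fun c hc => (gb c hc).ind) β.1 β.2.1
    refine ⟨Ψ, fun x hx => h1 x (bas.Jk_eq B κ ▸ hx), fun β' => ?_⟩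
    rw [h2 β'.1 β'.2.1]
    by_cases hb : β' = β
    · rw [if_pos hb, if_pos fun c _ => by rw [hb]]
    rw [if_neg hb, if_neg]
    refine fun h => hb (Subtype.ext (funext fun c => ?_))
    by_cases hc : c ∈ B.image κ
    · exact h c hc
    · rw [β.2.2 c hc, β'.2.2 c hc, h _ hc0]
  choose Ψ hΨ0 hΨ1 using hΨ
  have hex : ∀ m : ℕ →₀ ℕ, ∃ T : Finset ι, m.degree = Z.r1 B κ + δ → ∀ T', T ⊆ T' →
      coeff m (TT B κ f) - ∑ β ∈ T', Ψ β (coeff m (TT B κ f)) • w β ∈ Z.Jk B κ := by
    intro m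
    by_cases hm : m.degree = Z.r1 B κ + δ
    swap
    · exact ⟨∅, fun h => absurd h hm⟩
    obtain ⟨l, n, hn, hl, hc, e⟩ := coeff_TT tay B κ f m
    obtain ⟨g, hg, hfg⟩ := coef Γ (fun c γ => Y.dΓ γ = Z.dim (fib B κ c))
      (fun c => Y.w (fib B κ c)) (fun _ => Y.dg) B κ hB hκ gb f hfA l hc
      (by rwa [hl, hm, mul_add, ← hR])
      (fun κ' h1 _ h3 l' h4 h5 => hff κ' h1 l' h4 (by rw [if_neg (by omega)]; omega))
    have hg' : g ∈ Submodule.span ℚ (Set.range w) := by
      refine Submodule.span_mono ?_ hg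
      rintro _ ⟨γ, h1, rfl⟩
      refine ⟨⟨fun c => if c ∈ B.image κ then γ c else γ (κ s0), fun c hc => ?_, fun c hc => ?_⟩,
        prod_congr rfl fun c hc => ?_⟩
      · simp only [if_pos hc]
        exact h1 c hc
      · simp only [if_neg hc, if_pos hc0]
      · simp only [if_pos hc]
    have hn' : (n : ℚ) ≠ 0 := Nat.cast_ne_zero.2 hn.ne'
    obtain ⟨T, hT⟩ := expand (Z.Jk B κ) w Ψ hΨ0 hΨ1 (x := coeff m (TT B κ f))
      (Submodule.smul_mem _ (n : ℚ)⁻¹ hg') (by
        have h1 := Submodule.smul_of_tower_mem (Z.Jk B κ) (n : ℚ)⁻¹ hfg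
        rwa [← e, smul_sub, inv_smul_smul₀ hn'] at h1)
    exact ⟨T, fun _ => hT⟩
  choose T0 hT0 using hex
  let T : Finset ι := (TT B κ f).support.biUnion T0
  let σ : ι → MvPolynomial ℕ ℚ := fun β =>
    mp (Ψ β) (homogeneousComponent (Z.r1 B κ + δ) (TT B κ f))
  have hσc : ∀ β m, coeff m (σ β) =
      if m.degree = Z.r1 B κ + δ then Ψ β (coeff m (TT B κ f)) else 0 := by
    intro β m
    simp only [σ, coeff_mp, coeff_homogeneousComponent]
    split_ifs
    · rfl
    · exact map_zero _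
  have hA : ∀ m : ℕ →₀ ℕ, Z.r1 B κ + δ ≤ m.degree →
      coeff m (TT B κ f) - ∑ β ∈ T, coeff m (σ β) • w β ∈ Z.Jk B κ := by
    intro m hm
    simp only [hσc]
    by_cases h : m.degree = Z.r1 B κ + δ
    · simp only [if_pos h]
      by_cases hm' : m ∈ (TT B κ f).support
      · exact hT0 m h T (subset_biUnion_of_mem T0 hm')
      · simp [notMem_support_iff.1 hm']
    · simp only [if_neg h, zero_smul, sum_const_zero, sub_zero]
      exact (tay.tl _ _ _ _ _).1 hf1 m (by omega)
  have hq : ∀ β, ∃ h : MvPolynomial ℕ ℚ, σ β = Z.DL B κ κ * h ∧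
      ∀ m ∈ h.support, m.degree = δ ∧ m.support ⊆ B.image κ := by
    intro β
    refine exists_quot _ (ek.hom B κ κ) (ek.ne B κ κ fun _ _ _ _ h => h) (fun m hm => ?_)
      (fun m hm => ?_) ?_
    · by_contra hn
      rw [hσc, if_neg (by rwa [Finsupp.degree_eq_weight_one])] at hm
      exact hm rfl
    · refine TT_supp B κ f m (mem_support_iff.2 fun h0 => mem_support_iff.1 hm ?_)
      rw [hσc, h0, map_zero, ite_self]
    · rw [ek.prd]
      refine dv.2 _ (fun x => arr Z.a (Z.dim (fib B κ x.1)) (Z.dim (fib B κ x.2))) _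
        (fun x hx => (mem_filter.1 hx).2) fun x hx => ?_
      have hlt := (mem_filter.1 hx).2
      refine dv.1 x.1 x.2 _ _ hlt.ne fun m hm => ?_
      rw [coeff_subst (Ψ β) _ (fun c => by
        split_ifs
        · exact (isHomogeneous_X _ _).add (isHomogeneous_X _ _)
        · exact isHomogeneous_X _ _)]
      split_ifs with h
      · obtain ⟨n, hn, h1⟩ := coeff_low Z tay bas hs hκ hf hlt.ne m h hm
        have h2 := hΨ0 β _ h1
        rw [map_smul, smul_eq_zero] at h2
        exact h2.resolve_left (Nat.cast_ne_zero.2 hn.ne')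
      · rfl
  choose h hh1 hh2 using hq
  let lab : ι → (ℕ →₀ ℕ) → ℕ → Γ × ℕ := fun β m c => (β.1 c, m c)
  have hval : ∀ β m, Y.Val B κ (lab β m) := fun β m => β.2.1
  have hdl : ∀ β, ∀ m ∈ (h β).support, Qv.dl B κ (lab β m) = δ := by
    intro β m hm
    rw [← (hh2 β m hm).1, Finsupp.degree_apply]
    exact (sum_subset (hh2 β m hm).2 fun c _ hc => Finsupp.notMem_support_iff.1 hc).symm
  have hmono : ∀ β, ∀ m ∈ (h β).support, Qv.mono B κ (lab β m) = m := by
    intro β m hm
    refine Eq.trans ?_ (Finsupp.sum_single m)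
    exact (Finsupp.sum_of_support_subset m (hh2 β m hm).2 Finsupp.single
      fun c _ => Finsupp.single_zero c).symm
  have hcc : ∀ β m, Qv.cc B κ (lab β m) ≠ 0 := fun β m =>
    prod_ne_zero_iff.2 fun c hc => pow_ne_zero _ (Nat.cast_ne_zero.2 (hne c hc).card_pos.ne')
  refine ⟨∑ β ∈ T, ∑ m ∈ (h β).support,
    (coeff m (h β) / Qv.cc B κ (lab β m)) • Y.EE B κ (lab β m), ?_, ?_⟩
  · exact Submodule.sum_mem _ fun β _ => Submodule.sum_mem _ fun m hm =>
      Submodule.smul_mem _ _ (Submodule.subset_span ⟨lab β m, hval β m, hdl β m hm, rfl⟩)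
  · refine (tay.tl _ _ _ _ _).2 fun m hm => ?_
    have hm' : Z.r1 B κ + δ ≤ m.degree := by omega
    have hB' : ∀ β, coeff m (TT B κ (∑ m' ∈ (h β).support,
        (coeff m' (h β) / Qv.cc B κ (lab β m')) • Y.EE B κ (lab β m'))) -
          coeff m (σ β) • w β ∈ Z.Jk B κ := by
      intro β
      have e : σ β = ∑ m' ∈ (h β).support, (coeff m' (h β) / Qv.cc B κ (lab β m')) •
          (Z.DL B κ κ * monomial (Qv.mono B κ (lab β m')) (Qv.cc B κ (lab β m'))) := by
        rw [hh1 β]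
        nth_rewrite 1 [(h β).as_sum]
        rw [mul_sum]
        refine sum_congr rfl fun m' hm' => ?_
        rw [hmono β m' hm', ← mul_smul_comm, smul_monomial, smul_eq_mul,
          div_mul_cancel₀ _ (hcc β m')]
      rw [e, map_sum, coeff_sum, coeff_sum, sum_smul, ← sum_sub_distrib]
      refine Submodule.sum_mem _ fun m' hm'' => ?_
      rw [map_smul, coeff_smul, coeff_smul, smul_eq_mul, mul_smul, ← smul_sub]
      exact Submodule.smul_of_tower_mem _ _
        (ee.symb B κ κ (lab β m') (hval β m') m (by rwa [hdl β m' hm'']))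
    have h3 := Submodule.sub_mem _ (hA m hm') (Submodule.sum_mem _ fun β (_ : β ∈ T) => hB' β)
    rw [sum_sub_distrib, sub_sub_sub_cancel_right] at h3
    rw [map_sub, coeff_sub, map_sum, coeff_sum]
    exact h3

end Pool.Agent.P.MP_389f6f_co.Sp
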