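import Pool.Agent.P.MP_389f6f_co.SDefs

/-! Taylor expansion along constant directions. -/

set_option autoImplicit false
set_option linter.unusedSectionVars false

namespace Pool.Agent.P.MP_389f6f_co.Sp
open MvPolynomial Finset

namespace TayA
variable {Ω : Type} [Fintype Ω] [DecidableEq Ω]

theorem Dv_apply (v : Ω → ℚ) (f : RR Ω) : Dv v f = ∑ s, v s • pderiv s f := by
  simp [Dv, LinearMap.sum_apply]

theorem Dl_nil (f : RR Ω) : Dl ([] : List (Ω → ℚ)) f = f := by simp [Dl]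

theorem Dl_cons (v : Ω → ℚ) (l : List (Ω → ℚ)) (f : RR Ω) : Dl (v :: l) f = Dv v (Dl l f) := by
  simp [Dl]

theorem Dl_snoc (v : Ω → ℚ) (l : List (Ω → ℚ)) (f : RR Ω) :
    Dl (l ++ [v]) f = Dl l (Dv v f) := by
  simp [Dl]

theorem leib (v : Ω → ℚ) (f g : RR Ω) : Dv v (f * g) = Dv v f * g + f * Dv v g := by
  simp only [Dv_apply, pderiv_mul, smul_add, sum_add_distrib, sum_mul, mul_sum,
    smul_mul_assoc, mul_smul_comm]

theorem dX (v : Ω → ℚ) (s : Ω) : Dv v (X s) = C (v s) := by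
  rw [Dv_apply, Finset.sum_eq_single s]
  · rw [pderiv_X_self, ← C_mul', mul_one]
  · intro t _ ht
    rw [pderiv_X_of_ne ht.symm, smul_zero]
  · simp

theorem dC (v : Ω → ℚ) (r : ℚ) : Dv v (C r) = 0 := by
  simp [Dv_apply]

theorem chain (ℓ : Ω → MvPolynomial ℕ (RR Ω)) (w : Ω → ℚ) (c : ℕ)
    (h : ∀ s, pderiv c (ℓ s) = C (C (w s))) (f : RR Ω) :
    pderiv c (aeval (fun s => C (X s) + ℓ s) f : MvPolynomial ℕ (RR Ω)) =
      aeval (fun s => C (X s) + ℓ s) (Dv w f) := by
  induction f using MvPolynomial.induction_on with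
  | C a =>
    rw [dC, map_zero, aeval_C]
    exact pderiv_C
  | add p q hp hq => simp only [map_add, hp, hq]
  | mul_X p s hp =>
    rw [leib, dX, map_mul, pderiv_mul, hp, aeval_X, map_add, pderiv_C, h, zero_add, map_add,
      map_mul, map_mul, aeval_X, aeval_C]
    rfl

theorem cc0 (ℓ : Ω → MvPolynomial ℕ (RR Ω)) (h : ∀ s, constantCoeff (ℓ s) = 0) (f : RR Ω) :
    coeff 0 (aeval (fun s => C (X s) + ℓ s) f : MvPolynomial ℕ (RR Ω)) = f := by
  rw [← constantCoeff_eq]
  induction f using MvPolynomial.induction_on with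
  | C a =>
    rw [aeval_C]
    exact constantCoeff_C _ _
  | add p q hp hq => simp only [map_add, hp, hq]
  | mul_X p s hp =>
    rw [map_mul, map_mul, hp, aeval_X, map_add, h, add_zero, constantCoeff_C]

theorem tay (ℓ : Ω → MvPolynomial ℕ (RR Ω)) (v : ℕ → Ω → ℚ)
    (h1 : ∀ s c, pderiv c (ℓ s) = C (C (v c s))) (h2 : ∀ s, constantCoeff (ℓ s) = 0)
    (l : List ℕ) : ∀ f : RR Ω, ∃ N : ℕ, 0 < N ∧
      (N : ℚ) • coeff (Multiset.toFinsupp (l : Multiset ℕ))
        (aeval (fun s => C (X s) + ℓ s) f : MvPolynomial ℕ (RR Ω)) = Dl (l.map v) f := by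
  induction l using List.reverseRecOn with
  | nil =>
    intro f
    refine ⟨1, one_pos, ?_⟩
    rw [List.map_nil, Dl_nil, Multiset.coe_nil, map_zero, cc0 ℓ h2, Nat.cast_one, one_smul]
  | append_singleton l c ih =>
    intro f
    obtain ⟨N, hN, hE⟩ := ih (Dv (v c) f)
    refine ⟨N * (Multiset.toFinsupp (l : Multiset ℕ) c + 1), by positivity, ?_⟩
    rw [List.map_append, List.map_singleton, Dl_snoc, ← hE, ← chain ℓ (v c) c (fun s => h1 s c),
      coeff_pderiv, ← Multiset.coe_add, map_add, Multiset.coe_singleton,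
      Multiset.toFinsupp_singleton, Nat.cast_mul, mul_smul]
    congr 1
    rw [mul_comm, Nat.cast_smul_eq_nsmul, nsmul_eq_mul, Nat.cast_add, Nat.cast_one]

/-- indicator of a block -/
def ind (B : Finset Ω) (κ : Ω → ℕ) (c : ℕ) : Ω → ℚ := fun s => if s ∈ B ∧ κ s = c then 1 else 0

theorem ind_cst (B : Finset Ω) (κ : Ω → ℕ) (c : ℕ) : Cst B κ (ind B κ c) := by
  refine ⟨fun s hs => by simp [ind, hs], fun s hs s' hs' h => by simp [ind, hs, hs', h]⟩

theorem ell_d (B : Finset Ω) (κ : Ω → ℕ) (s : Ω) (c : ℕ) :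
    pderiv c (if s ∈ B then X (κ s) else 0 : MvPolynomial ℕ (RR Ω)) = C (C (ind B κ c s)) := by
  by_cases hs : s ∈ B
  · by_cases h : κ s = c
    · simp [ind, hs, h]
    · simp [ind, hs, h, pderiv_X_of_ne h]
  · simp [ind, hs]

theorem ell_c (B : Finset Ω) (κ : Ω → ℕ) (s : Ω) :
    constantCoeff (if s ∈ B then X (κ s) else 0 : MvPolynomial ℕ (RR Ω)) = 0 := by
  split_ifs <;> simp

theorem Dv_dec (B : Finset Ω) (κ : Ω → ℕ) (v : Ω → ℚ) (hv : Cst B κ v) :
    ∃ r : ℕ → ℚ, ∀ f : RR Ω, Dv v f = ∑ c ∈ B.image κ, r c • Dv (ind B κ c) f := by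
  classical
  refine ⟨fun c => if h : ∃ s ∈ B, κ s = c then v h.choose else 0, fun f => ?_⟩
  simp only [Dv_apply, smul_sum, smul_smul]
  rw [sum_comm]
  refine sum_congr rfl fun s _ => ?_
  rw [← sum_smul]
  congr 1
  by_cases hs : s ∈ B
  · rw [Finset.sum_eq_single (κ s)]
    · have h : ∃ t ∈ B, κ t = κ s := ⟨s, hs, rfl⟩
      rw [dif_pos h, hv.2 _ h.choose_spec.1 s hs h.choose_spec.2]
      simp [ind, hs]
    · intro c _ hc
      simp [ind, hc.symm]
    · intro h
      exact absurd (mem_image_of_mem κ hs) h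
  · rw [hv.1 s hs]
    simp [ind, hs]

theorem TT_step (J : Ideal (RR Ω)) (B : Finset Ω) (κ : Ω → ℕ) (N : ℕ) (f : RR Ω)
    (hf : ∀ m : ℕ →₀ ℕ, N ≤ 2 * m.degree → coeff m (TT B κ f) ∈ J) (l : List (Ω → ℚ)) :
    (∀ v ∈ l, Cst B κ v) → ∀ m : ℕ →₀ ℕ, N ≤ 2 * (m.degree + l.length) →
      coeff m (TT B κ (Dl l f)) ∈ J := by
  induction l with
  | nil => intro _ m hm; rw [Dl_nil]; exact hf m (by simpa using hm)
  | cons v l ih =>
    intro hl m hm
    obtain ⟨r, hr⟩ := Dv_dec B κ v (hl v List.mem_cons_self)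
    rw [Dl_cons, hr, map_sum, coeff_sum]
    refine J.sum_mem fun c _ => ?_
    have e : TT B κ (Dv (ind B κ c) (Dl l f)) = pderiv c (TT B κ (Dl l f)) :=
      (chain _ _ c (fun s => ell_d B κ s c) _).symm
    rw [map_smul, coeff_smul, e, coeff_pderiv, Algebra.smul_def]
    refine J.mul_mem_left _ (J.mul_mem_right _ (ih (fun w hw => hl w (List.mem_cons_of_mem _ hw))
      _ ?_))
    rw [map_add, Finsupp.degree_single]
    rw [List.length_cons] at hm
    omega

theorem tl (J : Ideal (RR Ω)) (B : Finset Ω) (κ : Ω → ℕ) (N : ℕ) (f : RR Ω) :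
    f ∈ Lt J B κ N ↔ ∀ m : ℕ →₀ ℕ, N ≤ 2 * m.degree → coeff m (TT B κ f) ∈ J := by
  constructor
  · intro hf m hm
    obtain ⟨K, hK, hE⟩ := tay _ (ind B κ) (fun s c => ell_d B κ s c) (ell_c B κ)
      (Finsupp.toMultiset m).toList f
    rw [Multiset.coe_toList, Finsupp.toMultiset_toFinsupp] at hE
    have h1 : Dl ((Finsupp.toMultiset m).toList.map (ind B κ)) f ∈ J := by
      refine hf _ (fun v hv => ?_) ?_
      · obtain ⟨c, _, rfl⟩ := List.mem_map.1 hv
        exact ind_cst B κ c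
      · rw [List.length_map, Multiset.length_toList, Finsupp.card_toMultiset]
        exact hm
    rw [← hE] at h1
    have h2 : coeff m (TT B κ f) = C (K : ℚ)⁻¹ * ((K : ℚ) • coeff m (TT B κ f)) := by
      rw [C_mul', smul_smul, inv_mul_cancel₀ (by positivity), one_smul]
    rw [h2]
    exact J.mul_mem_left _ h1
  · intro hf l h1 h2
    have := TT_step J B κ N f hf l h1 0 (by simpa using h2)
    rwa [TT, cc0 _ (ell_c B κ)] at this

theorem mul (J : Ideal (RR Ω)) (B : Finset Ω) (κ : Ω → ℕ) (N N' : ℕ) (f g : RR Ω)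
    (hf : f ∈ Lt J B κ N) (hg : g ∈ Lt J B κ N') : f * g ∈ Lt J B κ (N + N' - 1) := by
  classical
  rw [tl] at hf hg ⊢
  intro m hm
  rw [map_mul, coeff_mul]
  refine J.sum_mem fun p hp => ?_
  rw [HasAntidiagonal.mem_antidiagonal] at hp
  rw [← hp, map_add] at hm
  by_cases h : N ≤ 2 * p.1.degree
  · exact J.mul_mem_right _ (hf _ h)
  · exact J.mul_mem_left _ (hg _ (by omega))

theorem supp1 (v : Ω → ℚ) (S : Set Ω) (f : RR Ω) (hf : f ∈ supported ℚ S) :
    Dv v f ∈ supported ℚ S := by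
  rw [supported_eq_adjoin_X] at hf
  induction hf using Algebra.adjoin_induction with
  | mem x hx =>
    obtain ⟨s, _, rfl⟩ := hx
    rw [dX]
    exact Subalgebra.algebraMap_mem _ _
  | algebraMap r =>
    rw [algebraMap_eq, dC]
    exact zero_mem _
  | add x y _ _ hx hy => rw [map_add]; exact add_mem hx hy
  | mul x y h1 h2 hx hy => rw [leib]; exact add_mem (mul_mem hx h2) (mul_mem h1 hy)

theorem supp (l : List (Ω → ℚ)) (S : Set Ω) (f : RR Ω) (hf : f ∈ supported ℚ S) :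
    Dl l f ∈ supported ℚ S := by
  induction l with
  | nil => rwa [Dl_nil]
  | cons v l ih => rw [Dl_cons]; exact supp1 v S _ ih

theorem cong1 (v v' : Ω → ℚ) (S : Set Ω) (h : ∀ s ∈ S, v s = v' s) (f : RR Ω)
    (hf : f ∈ supported ℚ S) : Dv v f = Dv v' f := by
  rw [Dv_apply, Dv_apply]
  refine sum_congr rfl fun s _ => ?_
  by_cases hs : s ∈ S
  · rw [h s hs]
  · rw [pderiv_eq_zero_of_notMem_vars fun h' => hs (mem_supported.1 hf h'), smul_zero, smul_zero]

theorem cong (l l' : List (Ω → ℚ)) (S : Set Ω)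
    (h : List.Forall₂ (fun v v' => ∀ s ∈ S, v s = v' s) l l') (f : RR Ω)
    (hf : f ∈ supported ℚ S) : Dl l f = Dl l' f := by
  induction h with
  | nil => rfl
  | cons h1 _ ih => rw [Dl_cons, Dl_cons, ih, cong1 _ _ S h1 _ (supp _ S f hf)]

theorem loc (l : List (Ω → ℚ)) (B : Finset Ω) (h : ∀ v ∈ l, ∀ s, s ∉ B → v s = 0) :
    Loc B (Dl l) := by
  refine ⟨fun f hf => supp l _ f hf, fun f g hg => ?_⟩
  induction l with
  | nil => rw [Dl_nil, Dl_nil]
  | cons v l ih =>
    have e : Dv v g = 0 := by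
      rw [cong1 v 0 _ (fun s hs => h v List.mem_cons_self s (by simpa using hs)) g hg]
      simp [Dv_apply]
    rw [Dl_cons, Dl_cons, ih fun w hw => h w (List.mem_cons_of_mem _ hw), leib, e, mul_zero,
      add_zero]

theorem ren1 (v : Ω → ℚ) (g : Equiv.Perm Ω) (f : RR Ω) :
    rename g (Dv v f) = Dv (fun s => v (g⁻¹ s)) (rename g f) := by
  rw [Dv_apply, Dv_apply, map_sum,
    ← Equiv.sum_comp g fun s => v (g⁻¹ s) • pderiv s (rename g f)]
  refine sum_congr rfl fun s _ => ?_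
  rw [map_smul, pderiv_rename g.injective]
  simp

theorem ren (l : List (Ω → ℚ)) (g : Equiv.Perm Ω) (f : RR Ω) :
    rename g (Dl l f) = Dl (l.map fun v s => v (g⁻¹ s)) (rename g f) := by
  induction l with
  | nil => rw [List.map_nil, Dl_nil, Dl_nil]
  | cons v l ih => rw [List.map_cons, Dl_cons, Dl_cons, ren1, ih]

theorem hc1 (v : Ω → ℚ) (k : ℕ) (f : RR Ω) :
    homogeneousComponent k (Dv v f) = Dv v (homogeneousComponent (k + 1) f) := by
  rw [Dv_apply, Dv_apply, map_sum]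
  refine sum_congr rfl fun s _ => ?_
  rw [map_smul]
  congr 1
  ext m
  rw [coeff_homogeneousComponent, coeff_pderiv, coeff_pderiv, coeff_homogeneousComponent, map_add,
    Finsupp.degree_single]
  by_cases h : m.degree = k
  · simp [h]
  · simp [h]

theorem hc (l : List (Ω → ℚ)) : ∀ (k : ℕ) (f : RR Ω),
    homogeneousComponent k (Dl l f) = Dl l (homogeneousComponent (k + l.length) f) := by
  induction l with
  | nil => intro k f; rw [Dl_nil, Dl_nil]; rfl
  | cons v l ih =>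
    intro k f
    rw [Dl_cons, Dl_cons, hc1, ih, List.length_cons, add_assoc, add_comm 1]

theorem dz (l : List (Ω → ℚ)) (f : RR Ω) (h : f.totalDegree < l.length) : Dl l f = 0 := by
  rw [← sum_homogeneousComponent (Dl l f)]
  refine sum_eq_zero fun k _ => ?_
  rw [hc, homogeneousComponent_eq_zero _ _ (by omega), map_zero]

theorem hz (l : List (Ω → ℚ)) (k : ℕ) (f : RR Ω) (hf : f.IsHomogeneous k) (h : k < l.length) :
    Dl l f = 0 :=
  dz l f (lt_of_le_of_lt hf.totalDegree_le h)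

theorem deg (J : Ideal (RR Ω)) (B : Finset Ω) (κ : Ω → ℕ) (N : ℕ) (f : RR Ω)
    (h : 2 * f.totalDegree < N) : f ∈ Lt J B κ N := by
  intro l _ h2
  rw [dz l f (by omega)]
  exact J.zero_mem

end TayA

theorem t_tay : T_TAY := fun _ _ _ =>
  { tay := TayA.tay
    tl := TayA.tl
    mul := TayA.mul
    deg := TayA.deg
    leib := TayA.leib
    dX := TayA.dX
    supp := TayA.supp
    cong := TayA.cong
    loc := TayA.loc
    ren := TayA.ren
    hc := TayA.hc
    hz := TayA.hz }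

end Pool.Agent.P.MP_389f6f_co.Sp
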