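import Pool.Agent.P.MP_389f6f_co.SDefs

/-! Tensor products of quotients of polynomial rings in disjoint sets of variables. -/

set_option autoImplicit false

namespace Pool.Agent.P.MP_389f6f_co.Sp
open MvPolynomial Finset

namespace TenA

variable {Ω : Type}

theorem mono_mem {S : Set Ω} {m : Ω →₀ ℕ} (h : ∀ x ∈ m.support, x ∈ S) (c : ℚ) :
    (monomial m c : RR Ω) ∈ supported ℚ S := by
  classical
  rw [mem_supported]
  intro x hx
  by_cases hc : c = 0
  · simp [hc] at hx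
  · rw [vars_monomial hc] at hx
    exact h x hx

theorem supp_ind {S : Set Ω} {P : RR Ω → Prop} (h0 : P 0) (hadd : ∀ f g, P f → P g → P (f + g))
    (hm : ∀ (m : Ω →₀ ℕ) (c : ℚ), (∀ x ∈ m.support, x ∈ S) → P (monomial m c)) :
    ∀ f ∈ supported ℚ S, P f := by
  classical
  intro f hf
  rw [mem_supported] at hf
  rw [f.as_sum]
  refine Finset.sum_induction _ P hadd h0 fun m hm' => hm m _ fun x hx => hf ?_
  exact (mem_vars_iff_mem_support x).2 ⟨m, hm', hx⟩

theorem dec_ind (S T : Set Ω) {P : RR Ω → Prop} (h0 : P 0) (hadd : ∀ f g, P f → P g → P (f + g))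
    (hm : ∀ u ∈ supported ℚ (S ∩ T), ∀ y ∈ supported ℚ (Sᶜ ∩ T), P (u * y)) :
    ∀ f ∈ supported ℚ T, P f := by
  classical
  refine supp_ind h0 hadd fun m c h => ?_
  have e : (monomial m c : RR Ω)
      = monomial (m.filter (· ∈ S)) c * monomial (m.filter (· ∉ S)) 1 := by
    rw [monomial_mul, Finsupp.filter_add_filter_not, mul_one]
  rw [e]
  refine hm _ (mono_mem (fun x hx => ?_) _) _ (mono_mem (fun x hx => ?_) _)
  · rw [Finsupp.support_filter, mem_filter] at hx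
    exact ⟨hx.2, h x hx.1⟩
  · rw [Finsupp.support_filter, mem_filter] at hx
    exact ⟨hx.2, h x hx.1⟩

theorem dec_ind' (S : Set Ω) {P : RR Ω → Prop} (h0 : P 0) (hadd : ∀ f g, P f → P g → P (f + g))
    (hm : ∀ u ∈ supported ℚ S, ∀ y ∈ supported ℚ Sᶜ, P (u * y)) (f : RR Ω) : P f :=
  dec_ind S Set.univ h0 hadd (fun u hu y hy => hm u (by simpa using hu) y (by simpa using hy)) f
    (by simp)

open Classical in
/-- extension of `ρ`, linear over the variables off `S` -/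
noncomputable def xt (S : Set Ω) (ρ : RR Ω →ₗ[ℚ] RR Ω) : RR Ω →ₗ[ℚ] RR Ω :=
  (basisMonomials Ω ℚ).constr ℚ fun m =>
    ρ (monomial (m.filter (· ∈ S)) 1) * monomial (m.filter (· ∉ S)) 1

theorem xt_mul {S : Set Ω} (ρ : RR Ω →ₗ[ℚ] RR Ω) {u y : RR Ω} (hu : u ∈ supported ℚ S)
    (hy : y ∈ supported ℚ Sᶜ) : xt S ρ (u * y) = ρ u * y := by
  classical
  refine supp_ind (P := fun u => xt S ρ (u * y) = ρ u * y) (by simp)
    (fun f g hf hg => by simp only [add_mul, map_add, hf, hg]) (fun m c hm => ?_) u hu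
  refine supp_ind (P := fun y => xt S ρ (monomial m c * y) = ρ (monomial m c) * y) (by simp)
    (fun f g hf hg => by simp only [mul_add, map_add, hf, hg]) (fun m' c' hm' => ?_) y hy
  have e1 : (m + m').filter (· ∈ S) = m := by
    ext x
    rw [Finsupp.filter_apply]
    split_ifs with hx
    · have : m' x = 0 := by
        by_contra h
        exact hm' x (Finsupp.mem_support_iff.2 h) hx
      simp [this]
    · by_contra h
      exact hx (hm x (Finsupp.mem_support_iff.2 (Ne.symm h)))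
  have e2 : (m + m').filter (· ∉ S) = m' := by
    have := Finsupp.filter_add_filter_not (m + m') (· ∈ S)
    rw [e1] at this
    exact add_left_cancel this
  have e3 : xt S ρ (monomial (m + m') 1) = ρ (monomial m 1) * monomial m' 1 := by
    have := (basisMonomials Ω ℚ).constr_basis ℚ (fun m =>
      ρ (monomial (m.filter (· ∈ S)) 1) * monomial (m.filter (· ∉ S)) (1 : ℚ)) (m + m')
    rw [e1, e2, coe_basisMonomials] at this
    exact this
  have e4 : ∀ (n : Ω →₀ ℕ) (a : ℚ), (monomial n a : RR Ω) = a • monomial n 1 := by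
    intro n a
    rw [smul_monomial, smul_eq_mul, mul_one]
  rw [monomial_mul, e4 (m + m'), map_smul, e3, e4 m c, e4 m' c', map_smul, smul_mul_smul_comm]

theorem xt_self {S : Set Ω} (ρ : RR Ω →ₗ[ℚ] RR Ω) {u : RR Ω} (hu : u ∈ supported ℚ S) :
    xt S ρ u = ρ u := by
  simpa using xt_mul ρ hu (Subalgebra.one_mem _)

theorem xt_mul' {S : Set Ω} (ρ : RR Ω →ₗ[ℚ] RR Ω) (f : RR Ω) {y : RR Ω}
    (hy : y ∈ supported ℚ Sᶜ) : xt S ρ (f * y) = xt S ρ f * y := by
  refine dec_ind' S (P := fun f => xt S ρ (f * y) = xt S ρ f * y) (by simp)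
    (fun f g hf hg => by simp only [add_mul, map_add, hf, hg]) (fun u hu z hz => ?_) f
  rw [mul_assoc, xt_mul ρ hu (Subalgebra.mul_mem _ hz hy), xt_mul ρ hu hz, mul_assoc]

/-- set version of `Gen` -/
def Gn (S : Set Ω) (J : Ideal (RR Ω)) : Prop :=
  ∃ G : Set (RR Ω), (∀ f ∈ G, f ∈ supported ℚ S) ∧ J = Ideal.span G

/-- set version of `Loc` -/
def Lc (S : Set Ω) (L : RR Ω →ₗ[ℚ] RR Ω) : Prop :=
  (∀ f ∈ supported ℚ S, L f ∈ supported ℚ S) ∧ ∀ f, ∀ g ∈ supported ℚ Sᶜ, L (f * g) = L f * g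

theorem Gn.mono {S T : Set Ω} {J : Ideal (RR Ω)} (h : Gn S J) (hST : S ⊆ T) : Gn T J := by
  obtain ⟨G, hG, e⟩ := h
  exact ⟨G, fun f hf => supported_mono hST (hG f hf), e⟩

theorem span_ind {G : Set (RR Ω)} {P : RR Ω → Prop} (h0 : P 0)
    (hadd : ∀ f g, P f → P g → P (f + g)) (hm : ∀ g ∈ G, ∀ r, P (r * g)) :
    ∀ f ∈ Ideal.span G, P f := by
  intro f hf
  have : ∀ r, P (r * f) := by
    induction hf using Submodule.span_induction with
    | mem g hg => exact hm g hg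
    | zero => simpa using h0
    | add f g _ _ hf hg => exact fun r => by rw [mul_add]; exact hadd _ _ (hf r) (hg r)
    | smul a f _ hf => exact fun r => by rw [smul_eq_mul, ← mul_assoc]; exact hf _
  simpa using this 1

theorem xt_kill {S : Set Ω} {J : Ideal (RR Ω)} (hJ : Gn S J) {ρ : RR Ω →ₗ[ℚ] RR Ω}
    (hρ : ∀ f ∈ J, ρ f = 0) : ∀ f ∈ J, xt S ρ f = 0 := by
  obtain ⟨G, hG, rfl⟩ := hJ
  refine span_ind (by simp) (fun f g hf hg => by rw [map_add, hf, hg, add_zero]) fun g hg r => ?_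
  refine dec_ind' S (P := fun r => xt S ρ (r * g) = 0) (by simp)
    (fun f g hf hg => by rw [add_mul, map_add, hf, hg, add_zero]) (fun u hu y hy => ?_) r
  rw [mul_right_comm, xt_mul ρ (Subalgebra.mul_mem _ hu (hG g hg)) hy,
    hρ _ (Ideal.mul_mem_left _ _ (Ideal.subset_span hg)), zero_mul]

theorem xt_pres {S : Set Ω} {J : Ideal (RR Ω)} (hJ : Gn Sᶜ J) (ρ : RR Ω →ₗ[ℚ] RR Ω) :
    ∀ f ∈ J, xt S ρ f ∈ J := by
  obtain ⟨G, hG, rfl⟩ := hJ
  refine span_ind (by simp) (fun f g hf hg => by rw [map_add]; exact add_mem hf hg)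
    fun g hg r => ?_
  rw [xt_mul' ρ r (hG g hg)]
  exact Ideal.mul_mem_left _ _ (Ideal.subset_span hg)

theorem Lc.supp {S T : Set Ω} {L : RR Ω →ₗ[ℚ] RR Ω} (hL : Lc S L) (hST : S ⊆ T) :
    ∀ f ∈ supported ℚ T, L f ∈ supported ℚ T := by
  refine dec_ind S T (by simp) (fun f g hf hg => by rw [map_add]; exact add_mem hf hg)
    fun u hu y hy => ?_
  rw [hL.2 u y (supported_mono Set.inter_subset_left hy)]
  exact mul_mem (supported_mono hST (hL.1 u (supported_mono Set.inter_subset_left hu)))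
    (supported_mono Set.inter_subset_right hy)

theorem xt_lc {S : Set Ω} {ρ : RR Ω →ₗ[ℚ] RR Ω} (h : ∀ u, ρ u ∈ supported ℚ S) :
    Lc S (xt S ρ) :=
  ⟨fun f hf => by rw [xt_self ρ hf]; exact h f, fun f _ hg => xt_mul' ρ f hg⟩

/-- extension of a functional -/
noncomputable def ef (S : Set Ω) (φ : RR Ω →ₗ[ℚ] ℚ) : RR Ω →ₗ[ℚ] RR Ω :=
  xt S (Algebra.linearMap ℚ (RR Ω) ∘ₗ φ)

theorem ef_mul {S : Set Ω} (φ : RR Ω →ₗ[ℚ] ℚ) {u y : RR Ω} (hu : u ∈ supported ℚ S)
    (hy : y ∈ supported ℚ Sᶜ) : ef S φ (u * y) = φ u • y := by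
  rw [ef, xt_mul _ hu hy, Algebra.smul_def]
  rfl

theorem ef_kill {S : Set Ω} {J : Ideal (RR Ω)} (hJ : Gn S J) {φ : RR Ω →ₗ[ℚ] ℚ}
    (hφ : ∀ f ∈ J, φ f = 0) : ∀ f ∈ J, ef S φ f = 0 :=
  xt_kill hJ fun f hf => by simp [hφ f hf]

theorem ef_pres {S : Set Ω} {J : Ideal (RR Ω)} (hJ : Gn Sᶜ J) (φ : RR Ω →ₗ[ℚ] ℚ) :
    ∀ f ∈ J, ef S φ f ∈ J := xt_pres hJ _

theorem ef_comm {S S' : Set Ω} (h : S' ⊆ Sᶜ) {L : RR Ω →ₗ[ℚ] RR Ω} (hL : Lc S' L)
    (φ : RR Ω →ₗ[ℚ] ℚ) (f : RR Ω) : ef S φ (L f) = L (ef S φ f) := by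
  refine dec_ind' S (P := fun f => ef S φ (L f) = L (ef S φ f)) (by simp)
    (fun f g hf hg => by simp only [map_add, hf, hg]) (fun u hu y hy => ?_) f
  rw [ef_mul φ hu hy, mul_comm u y, hL.2 y u (supported_mono (Set.subset_compl_comm.1 h) hu),
    mul_comm, ef_mul φ hu (hL.supp h y hy), map_smul]

theorem ef_supp (S T : Set Ω) (φ : RR Ω →ₗ[ℚ] ℚ) :
    ∀ f ∈ supported ℚ T, ef S φ f ∈ supported ℚ (Sᶜ ∩ T) := by
  refine dec_ind S T (by simp) (fun f g hf hg => by rw [map_add]; exact add_mem hf hg)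
    fun u hu y hy => ?_
  rw [ef_mul φ (supported_mono Set.inter_subset_left hu) (supported_mono Set.inter_subset_left hy)]
  exact Subalgebra.smul_mem _ hy _

theorem xt_sum {ι : Type} (S : Set Ω) (y : ι → RR Ω) (ρ : RR Ω →ₗ[ℚ] (ι →₀ ℚ)) (f : RR Ω) :
    ∃ t : Finset ι, (∀ i ∈ t, ∃ u, i ∈ (ρ u).support) ∧ ∀ t', t ⊆ t' →
      xt S (Finsupp.linearCombination ℚ y ∘ₗ ρ) f
        = ∑ i ∈ t', y i * ef S (Finsupp.lapply i ∘ₗ ρ) f := by
  classical
  refine dec_ind' S (P := fun f => ∃ t : Finset ι, (∀ i ∈ t, ∃ u, i ∈ (ρ u).support) ∧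
    ∀ t', t ⊆ t' → xt S (Finsupp.linearCombination ℚ y ∘ₗ ρ) f
      = ∑ i ∈ t', y i * ef S (Finsupp.lapply i ∘ₗ ρ) f) ⟨∅, by simp, by simp⟩ ?_ ?_ f
  · rintro f g ⟨t, ht, hf⟩ ⟨t', ht', hg⟩
    refine ⟨t ∪ t', fun i hi => (mem_union.1 hi).elim (ht i) (ht' i), fun r hr => ?_⟩
    rw [map_add, hf r (subset_union_left.trans hr), hg r (subset_union_right.trans hr),
      ← sum_add_distrib]
    simp only [map_add, mul_add]
  · intro u hu z hz
    refine ⟨(ρ u).support, fun i hi => ⟨u, hi⟩, fun t' ht' => ?_⟩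
    rw [xt_mul _ hu hz, LinearMap.comp_apply, Finsupp.linearCombination_apply,
      Finsupp.sum_of_support_subset _ ht' _ (by simp), sum_mul]
    refine sum_congr rfl fun i _ => ?_
    rw [ef_mul _ hu hz]
    simp

/-- membership in a sum of two ideals is tested by functionals -/
theorem crit (S : Set Ω) (J1 J2 : Ideal (RR Ω)) (h : RR Ω)
    (hh : ∀ φ : RR Ω →ₗ[ℚ] ℚ, (∀ f ∈ J2, φ f = 0) → ef S φ h ∈ J1) : h ∈ J1 ⊔ J2 := by
  let π : RR Ω →ₗ[ℚ] RR Ω ⧸ J2 := (Ideal.Quotient.mkₐ ℚ J2).toLinearMap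
  have hπ : ∀ f, π f = 0 ↔ f ∈ J2 := fun f => Ideal.Quotient.eq_zero_iff_mem
  let e := Module.Basis.ofVectorSpace ℚ (RR Ω ⧸ J2)
  choose y hy using fun i => Ideal.Quotient.mk_surjective (e i)
  let ρ := e.repr.toLinearMap ∘ₗ π
  have h1 : ∀ u, u - (Finsupp.linearCombination ℚ y ∘ₗ ρ) u ∈ J2 := by
    intro u
    rw [← hπ, map_sub, LinearMap.comp_apply, Finsupp.apply_linearCombination, sub_eq_zero]
    have : π ∘ y = e := funext hy
    rw [this]
    exact (e.linearCombination_repr _).symm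
  have h2 : h - xt S (Finsupp.linearCombination ℚ y ∘ₗ ρ) h ∈ J2 := by
    refine dec_ind' S (P := fun h => h - xt S (Finsupp.linearCombination ℚ y ∘ₗ ρ) h ∈ J2)
      (by simp) (fun f g hf hg => ?_) (fun u hu z hz => ?_) h
    · rw [map_add, add_sub_add_comm]
      exact add_mem hf hg
    · rw [xt_mul _ hu hz, ← sub_mul]
      exact Ideal.mul_mem_right _ _ (h1 u)
  obtain ⟨t, -, ht⟩ := xt_sum S y ρ h
  have h3 : xt S (Finsupp.linearCombination ℚ y ∘ₗ ρ) h ∈ J1 := by
    rw [ht t subset_rfl]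
    refine Ideal.sum_mem _ fun i _ => Ideal.mul_mem_left _ _ (hh _ fun f hf => ?_)
    simp [ρ, (hπ f).2 hf]
  rw [← add_sub_cancel (xt S (Finsupp.linearCombination ℚ y ∘ₗ ρ) h) h]
  exact Submodule.add_mem_sup h3 h2

/-- dual functionals -/
theorem dual {Γ : Type} {J : Ideal (RR Ω)} {val : Γ → Prop} {b : Γ → RR Ω} (h : Ind J val b) :
    ∃ ρ : RR Ω →ₗ[ℚ] (Γ →₀ ℚ), (∀ f ∈ J, ρ f = 0) ∧ (∀ f, ∀ i ∈ (ρ f).support, val i) ∧
      ∀ c : Γ →₀ ℚ, (∀ i ∈ c.support, val i) → ρ (Finsupp.linearCombination ℚ b c) = c := by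
  let π : RR Ω →ₗ[ℚ] RR Ω ⧸ J := (Ideal.Quotient.mkₐ ℚ J).toLinearMap
  have hπ : ∀ f, π f = 0 ↔ f ∈ J := fun f => Ideal.Quotient.eq_zero_iff_mem
  let V := Finsupp.supported ℚ ℚ {i | val i}
  let A : V →ₗ[ℚ] RR Ω ⧸ J := π ∘ₗ Finsupp.linearCombination ℚ b ∘ₗ V.subtype
  have hA : LinearMap.ker A = ⊥ := by
    rw [LinearMap.ker_eq_bot']
    intro c hc
    exact Subtype.ext (h c.1 (fun i hi => c.2 hi) ((hπ _).1 hc))
  obtain ⟨g, hg⟩ := LinearMap.exists_leftInverse_of_injective A hA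
  refine ⟨V.subtype ∘ₗ g ∘ₗ π, fun f hf => by simp [(hπ f).2 hf], fun f i hi => (g (π f)).2 hi,
    fun c hc => ?_⟩
  exact congrArg Subtype.val (LinearMap.congr_fun hg ⟨c, fun i hi => hc i hi⟩)

theorem isup_ind {ι : Sort _} (J : ι → Ideal (RR Ω)) {P : RR Ω → Prop} (h0 : P 0)
    (hadd : ∀ f g, P f → P g → P (f + g)) (hm : ∀ i, ∀ f ∈ J i, P f) : ∀ f ∈ ⨆ i, J i, P f :=
  fun _ hf => Submodule.iSup_induction J (motive := P) hf hm h0 hadd

theorem sup_ind (J J' : Ideal (RR Ω)) {P : RR Ω → Prop}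
    (hadd : ∀ f g, P f → P g → P (f + g)) (hm : ∀ f ∈ J, P f) (hm' : ∀ f ∈ J', P f) :
    ∀ f ∈ J ⊔ J', P f := by
  intro f hf
  obtain ⟨x, hx, y, hy, rfl⟩ := Submodule.mem_sup.1 hf
  exact hadd _ _ (hm x hx) (hm' y hy)

theorem disj {B B' : Finset Ω} (h : Disjoint B B') : (B : Set Ω) ⊆ (B' : Set Ω)ᶜ :=
  fun _ hx hx' => disjoint_left.1 h hx hx'

theorem teni : S_TENI Ω := by
  classical
  intro C Γ s B J val b
  induction s using Finset.induction_on with
  | empty =>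
    intro _ _ _ _ γ _
    exact ⟨(aeval fun _ => (0 : ℚ) : RR Ω →ₐ[ℚ] ℚ).toLinearMap, by simp, by simp⟩
  | insert c s hc ih =>
    intro hd hG hb hI γ hγ
    have hcs : ∀ c' ∈ s, c' ≠ c := fun c' h e => hc (e ▸ h)
    obtain ⟨Ψ, hΨ1, hΨ2⟩ := ih (fun x hx y hy => hd x (mem_insert_of_mem hx) y (mem_insert_of_mem hy))
      (fun x hx => hG x (mem_insert_of_mem hx)) (fun x hx => hb x (mem_insert_of_mem hx))
      (fun x hx => hI x (mem_insert_of_mem hx)) γ (fun x hx => hγ x (mem_insert_of_mem hx))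
    obtain ⟨ρ, hρ1, -, hρ3⟩ := dual (hI c (mem_insert_self c s))
    have hB : ∀ c' ∈ s, (B c' : Set Ω) ⊆ (B c : Set Ω)ᶜ := fun c' h =>
      disj (hd c' (mem_insert_of_mem h) c (mem_insert_self c s) (hcs c' h))
    refine ⟨Ψ ∘ₗ ef (B c) (Finsupp.lapply (γ c) ∘ₗ ρ), ?_, fun γ' hγ' => ?_⟩
    · refine isup_ind _ (by simp) (fun f g hf hg => by rw [map_add, hf, hg, add_zero]) fun c' => ?_
      refine isup_ind _ (by simp) (fun f g hf hg => by rw [map_add, hf, hg, add_zero])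
        fun hc' f hf => ?_
      rw [LinearMap.comp_apply]
      rcases mem_insert.1 hc' with rfl | hc'
      · rw [ef_kill (hG c' (mem_insert_self _ _)) (fun f hf => by simp [hρ1 f hf]) f hf, map_zero]
      · exact hΨ1 _ (Submodule.mem_iSup_of_mem c' (Submodule.mem_iSup_of_mem hc'
          (ef_pres (Gn.mono (hG c' (mem_insert_of_mem hc')) (hB c' hc')) _ f hf)))
    · have h1 : ρ (b c (γ' c)) = Finsupp.single (γ' c) 1 := by
        have := hρ3 (Finsupp.single (γ' c) 1) fun i hi => by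
          rw [(Finsupp.mem_support_single _ _ _).1 hi |>.1]
          exact hγ' c (mem_insert_self c s)
        simpa using this
      rw [prod_insert hc, LinearMap.comp_apply, ef_mul _
        (hb c (mem_insert_self c s) _ (hγ' c (mem_insert_self c s)))
        (Subalgebra.prod_mem _ fun c' h => supported_mono (hB c' h)
          (hb c' (mem_insert_of_mem h) _ (hγ' c' (mem_insert_of_mem h)))), map_smul,
        hΨ2 γ' fun x hx => hγ' x (mem_insert_of_mem hx)]
      simp only [LinearMap.comp_apply, h1, Finsupp.lapply_apply, Finsupp.single_apply,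
        forall_mem_insert, smul_eq_mul]
      by_cases e : γ' c = γ c <;> simp [e]

theorem tens : S_TENS Ω := by
  classical
  intro C Γ s B J val b O
  induction s using Finset.induction_on with
  | empty =>
    rintro (h | ⟨⟨γ⟩⟩) _ _ _ _ _ _ f hf _
    · simp at h
    · refine ⟨f, ?_, by simp⟩
      simp only [notMem_empty, false_and, exists_false, Set.ofPred_false, supported_empty,
        Algebra.mem_bot] at hf
      obtain ⟨r, rfl⟩ := hf
      rw [Algebra.algebraMap_eq_smul_one]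
      exact Submodule.smul_mem _ _ (Submodule.subset_span ⟨fun _ => γ, by simp, by simp⟩)
  | insert c s hc ih =>
    intro _ hd hG hb hI hO hS f hf hcond
    have hcm := mem_insert_self c s
    have hcs : ∀ c' ∈ s, c' ≠ c := fun c' h e => hc (e ▸ h)
    obtain ⟨ρ, hρ1, hρ2, hρ3⟩ := dual (hI c hcm)
    have hB : ∀ c' ∈ s, (B c' : Set Ω) ⊆ (B c : Set Ω)ᶜ := fun c' h =>
      disj (hd c' (mem_insert_of_mem h) c hcm (hcs c' h))
    have hB2 : (B c : Set Ω) ⊆ {x | ∃ c' ∈ s, x ∈ B c'}ᶜ := by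
      rintro x hx ⟨c', h, hx'⟩
      exact hB c' h hx' hx
    let P := Finsupp.linearCombination ℚ (b c) ∘ₗ ρ
    have hP : ∀ u, P u ∈ supported ℚ (B c : Set Ω) := by
      intro u
      simp only [P, LinearMap.comp_apply, Finsupp.linearCombination_apply, Finsupp.sum]
      exact Subalgebra.sum_mem _ fun i hi =>
        Subalgebra.smul_mem _ (hb c hcm i (hρ2 u i hi)) _
    have h1 : f - xt (B c) P f ∈ J c ⊔ ⨆ c' ∈ s, J c' := by
      refine crit {x | ∃ c' ∈ s, x ∈ B c'} _ _ _ fun φ hφ => ?_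
      have hu : ef {x | ∃ c' ∈ s, x ∈ B c'} φ f ∈ supported ℚ (B c : Set Ω) := by
        refine supported_mono ?_ (ef_supp _ _ φ f hf)
        rintro x ⟨hx, c', h, hx'⟩
        rcases mem_insert.1 h with rfl | h
        · exact hx'
        · exact absurd ⟨c', h, hx'⟩ hx
      rw [map_sub, ef_comm hB2 (xt_lc hP), xt_self _ hu]
      obtain ⟨g, hg, hug⟩ := hS c hcm _ hu fun p hp => by
        rw [← ef_comm hB2 (hO c hcm p hp).1]
        refine sup_ind _ _ (P := fun x => ef {x | ∃ c' ∈ s, x ∈ B c'} φ x ∈ p.2)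
          (fun f g hf hg => by rw [map_add]; exact add_mem hf hg)
          (ef_pres (Gn.mono (hO c hcm p hp).2 hB2) φ) ?_ _ (hcond c hcm p hp)
        refine isup_ind _ (by simp) (fun f g hf hg => by rw [map_add]; exact add_mem hf hg)
          fun c' => ?_
        refine isup_ind _ (by simp) (fun f g hf hg => by rw [map_add]; exact add_mem hf hg)
          fun hc' => ?_
        refine isup_ind _ (by simp) (fun f g hf hg => by rw [map_add]; exact add_mem hf hg)
          fun hne x hx => ?_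
        have hc'' : c' ∈ s := (mem_insert.1 hc').resolve_left hne
        rw [ef_kill (S := {x | ∃ c' ∈ s, x ∈ B c'})
          (Gn.mono (hG c' hc') fun y hy => ⟨c', hc'', hy⟩) (fun y hy => hφ y
          (Submodule.mem_iSup_of_mem c' (Submodule.mem_iSup_of_mem hc'' hy))) x hx]
        exact zero_mem _
      obtain ⟨l, hl, rfl⟩ := (Finsupp.mem_span_image_iff_linearCombination ℚ).1 hg
      have h2 := hρ1 _ hug
      rw [map_sub, hρ3 l fun i hi => hl hi, sub_eq_zero] at h2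
      simpa only [P, LinearMap.comp_apply, h2] using hug
    obtain ⟨t, ht1, ht2⟩ := xt_sum (B c) (b c) ρ f
    have h2 : ∀ γ ∈ t, ∃ g ∈ Submodule.span ℚ
        {x | ∃ γ : C → Γ, (∀ c ∈ s, val c (γ c)) ∧ x = ∏ c ∈ s, b c (γ c)},
        ef (B c) (Finsupp.lapply γ ∘ₗ ρ) f - g ∈ ⨆ c ∈ s, J c := by
      intro γ _
      refine ih (Or.inr ⟨γ⟩)
        (fun x hx y hy => hd x (mem_insert_of_mem hx) y (mem_insert_of_mem hy))
        (fun x hx => hG x (mem_insert_of_mem hx)) (fun x hx => hb x (mem_insert_of_mem hx))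
        (fun x hx => hI x (mem_insert_of_mem hx)) (fun x hx => hO x (mem_insert_of_mem hx))
        (fun x hx => hS x (mem_insert_of_mem hx)) _ ?_ fun c' hc' p hp => ?_
      · refine supported_mono ?_ (ef_supp _ _ _ f hf)
        rintro x ⟨hx, c', h, hx'⟩
        rcases mem_insert.1 h with rfl | h
        · exact absurd hx' hx
        · exact ⟨c', h, hx'⟩
      · have hp' := hO c' (mem_insert_of_mem hc') p hp
        rw [← ef_comm (hB c' hc') hp'.1]
        refine sup_ind _ _ (P := fun x => ef (B c) (Finsupp.lapply γ ∘ₗ ρ) x ∈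
            p.2 ⊔ ⨆ c'' ∈ s, ⨆ _ : c'' ≠ c', J c'')
          (fun f g hf hg => by rw [map_add]; exact add_mem hf hg)
          (fun x hx => Submodule.mem_sup_left (ef_pres (Gn.mono hp'.2 (hB c' hc')) _ x hx)) ?_ _
          (hcond c' (mem_insert_of_mem hc') p hp)
        refine isup_ind _ (by simp) (fun f g hf hg => by rw [map_add]; exact add_mem hf hg)
          fun d => ?_
        refine isup_ind _ (by simp) (fun f g hf hg => by rw [map_add]; exact add_mem hf hg)
          fun hd' => ?_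
        refine isup_ind _ (by simp) (fun f g hf hg => by rw [map_add]; exact add_mem hf hg)
          fun hne x hx => ?_
        rcases mem_insert.1 hd' with rfl | hd''
        · rw [ef_kill (hG d hcm) (fun f hf => by simp [hρ1 f hf]) x hx]
          exact zero_mem _
        · exact Submodule.mem_sup_right (Submodule.mem_iSup_of_mem d (Submodule.mem_iSup_of_mem hd''
            (Submodule.mem_iSup_of_mem hne (ef_pres (Gn.mono (hG d hd') (hB d hd'')) _ x hx))))
    choose! g hg1 hg2 using h2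
    refine ⟨∑ γ ∈ t, b c γ * g γ, Submodule.sum_mem _ fun γ hγ => ?_, ?_⟩
    · obtain ⟨u, hu⟩ := ht1 γ hγ
      have hv := hρ2 u γ hu
      have h3 := hg1 γ hγ
      generalize g γ = z at h3
      induction h3 using Submodule.span_induction with
      | mem z hz =>
        obtain ⟨γ', hγ', rfl⟩ := hz
        refine Submodule.subset_span ⟨Function.update γ' c γ, fun x hx => ?_, ?_⟩
        · rcases mem_insert.1 hx with rfl | hx
          · simpa using hv
          · rw [Function.update_of_ne (hcs x hx)]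
            exact hγ' x hx
        · rw [prod_insert hc, Function.update_self]
          exact congrArg _ (prod_congr rfl fun x hx => by rw [Function.update_of_ne (hcs x hx)])
      | zero => simp
      | add x y _ _ hx hy => rw [mul_add]; exact add_mem hx hy
      | smul a x _ hx => rw [mul_smul_comm]; exact Submodule.smul_mem _ _ hx
    · have e : f - ∑ γ ∈ t, b c γ * g γ = (f - xt (B c) P f) +
          ∑ γ ∈ t, b c γ * (ef (B c) (Finsupp.lapply γ ∘ₗ ρ) f - g γ) := by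
        rw [ht2 t subset_rfl]
        simp only [mul_sub, sum_sub_distrib]
        ring
      rw [e, Finset.iSup_insert]
      exact add_mem h1 (Submodule.mem_sup_right
        (Ideal.sum_mem _ fun γ hγ => Ideal.mul_mem_left _ _ (hg2 γ hγ)))

end TenA

theorem t_ten : T_TEN := fun _ _ _ => ⟨TenA.teni, TenA.tens⟩

end Pool.Agent.P.MP_389f6f_co.Sp
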