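import Pool.Agent.P.MP_389f6f_co.SDefs

/-! Invariance properties of the filtration. -/

set_option autoImplicit false
set_option linter.unusedSectionVars false

namespace Pool.Agent.P.MP_389f6f_co.Sp
open MvPolynomial Finset

namespace WinvA

variable {Ω I : Type} [Fintype Ω] [DecidableEq Ω] [Fintype I] [DecidableEq I] {Z : Qv Ω I}

theorem mem_FF {B : Finset Ω} {δ k : ℕ} {f : RR Ω} : f ∈ Z.FF B δ k ↔ ∀ κ : Ω → ℕ, Z.Adm B κ →
    f ∈ Lt (Z.Jk B κ) B κ (Z.R2 B κ + 2 * δ + if nb B κ < k then 1 else 0) := by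
  simp only [Qv.FF, Submodule.mem_iInf]

omit [Fintype Ω] in
theorem hh_eq (g : Equiv.Perm Ω) {V V' : Submodule ℚ (RR Ω)} {J J' : Ideal (RR Ω)}
    (h1 : ∀ f ∈ V, rename g f ∈ V') (h2 : ∀ f ∈ V', rename g.symm f ∈ V)
    (h3 : ∀ f ∈ J, rename g f ∈ J') (h4 : ∀ f ∈ J', rename g.symm f ∈ J) :
    HH V J = HH V' J' := by
  have hgg : ∀ f : RR Ω, rename g (rename g.symm f) = f := by
    intro f
    rw [rename_rename, Equiv.self_comp_symm, rename_id_apply]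
  have hJ : J' = J.map (renameEquiv ℚ g : RR Ω →+* RR Ω) := by
    refine le_antisymm (fun f hf => ?_) (Ideal.map_le_iff_le_comap.2 fun f hf => h3 f hf)
    rw [← hgg f]
    exact Ideal.mem_map_of_mem (renameEquiv ℚ g : RR Ω →+* RR Ω) (h4 f hf)
  let e := Ideal.quotientEquivAlg J J' (renameEquiv ℚ g) hJ
  have he : ∀ f : RR Ω, e (Ideal.Quotient.mk J f) = Ideal.Quotient.mk J' (rename g f) :=
    fun _ => rfl
  unfold HH
  congr 1
  funext k
  congr 1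
  unfold hh
  rw [← LinearEquiv.finrank_map_eq e.toLinearEquiv]
  refine congrArg (fun p : Submodule ℚ (RR Ω ⧸ J') => Module.finrank ℚ p) ?_
  ext x
  constructor
  · rintro ⟨_, ⟨f, ⟨hf1, hf2⟩, rfl⟩, rfl⟩
    exact ⟨rename g f, ⟨h1 f hf1, IsHomogeneous.rename_isHomogeneous hf2⟩, (he f).symm⟩
  · rintro ⟨f, ⟨hf1, hf2⟩, rfl⟩
    refine ⟨_, ⟨rename g.symm f, ⟨h2 f hf1, IsHomogeneous.rename_isHomogeneous hf2⟩, rfl⟩, ?_⟩
    exact (he _).trans (by rw [hgg]; rfl)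

omit [Fintype Ω] [DecidableEq Ω] [Fintype I] [DecidableEq I] in
theorem tp_symm {g : Equiv.Perm Ω} (hg : Z.TP g) : Z.TP g.symm := fun s => by
  simpa using (hg (g.symm s)).symm

omit [Fintype Ω] [DecidableEq Ω] in
theorem map_map_symm (g : Equiv.Perm Ω) (A : Finset Ω) :
    (A.map g.toEmbedding).map (Equiv.toEmbedding g.symm) = A := by
  ext s
  simp

theorem jk_ren (hB : Z.S_BAS) {g : Equiv.Perm Ω} (hg : Z.TP g) (B : Finset Ω) (κ : Ω → ℕ)
    {f : RR Ω} (hf : f ∈ Z.Jk B κ) :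
    rename g f ∈ Z.Jk (B.map g.toEmbedding) fun s => κ (g⁻¹ s) := by
  have : Z.Jk B κ ≤ (Z.Jk (B.map g.toEmbedding) fun s => κ (g⁻¹ s)).comap
      (rename g : RR Ω →ₐ[ℚ] RR Ω) := by
    refine iSup_le fun c u hu => ?_
    have h1 := (hB.J_ren g _ u hg).2.1 hu
    rw [← hB.fib_ren] at h1
    exact le_iSup (fun c => Z.JS (fib (B.map g.toEmbedding) (fun s => κ (g⁻¹ s)) c)) c h1
  exact this hf

theorem lt_ren (hT : S_TAY Ω) (hB : Z.S_BAS) {g : Equiv.Perm Ω} (hg : Z.TP g) {B : Finset Ω}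
    {κ : Ω → ℕ} {N : ℕ} {f : RR Ω} (hf : f ∈ Lt (Z.Jk B κ) B κ N) :
    rename g f ∈ Lt (Z.Jk (B.map g.toEmbedding) fun s => κ (g⁻¹ s)) (B.map g.toEmbedding)
      (fun s => κ (g⁻¹ s)) N := by
  intro l hl hN
  have h1 := hf (l.map fun v s => v (g s)) (by
    intro v hv
    obtain ⟨v', hv', rfl⟩ := List.mem_map.1 hv
    refine ⟨fun s hs => (hl v' hv').1 _ (by simpa using hs), fun s hs s' hs' h => ?_⟩
    exact (hl v' hv').2 _ (by simpa using hs) _ (by simpa using hs') (by simpa using h))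
    (by simpa using hN)
  have h2 := jk_ren hB hg B κ h1
  rw [hT.ren, List.map_map] at h2
  have h3 : ((fun (v : Ω → ℚ) s => v (g⁻¹ s)) ∘ fun (v : Ω → ℚ) s => v (g s)) = id := by
    funext v s
    simp
  rwa [h3, List.map_id] at h2

theorem ff_ren (hT : S_TAY Ω) (hB : Z.S_BAS) {g : Equiv.Perm Ω} (hg : Z.TP g) {B : Finset Ω}
    {δ k : ℕ} {f : RR Ω} (hf : f ∈ Z.FF B δ k) :
    rename g f ∈ Z.FF (B.map g.toEmbedding) δ k := by
  refine mem_FF.2 fun κ' hκ' => ?_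
  have hκ : (fun s => κ' (g (g⁻¹ s))) = κ' := by
    funext s
    simp
  have hadm : Z.Adm B fun s => κ' (g s) := by
    intro c
    have h1 := hB.fib_ren g B (fun s => κ' (g s)) c
    rw [hκ] at h1
    rw [hB.th_dim, ← hB.dim_map g _ hg, ← h1, ← hB.th_dim]
    exact hκ' c
  have hR : Z.R2 B (fun s => κ' (g s)) = Z.R2 (B.map g.toEmbedding) κ' := by
    simp only [Qv.R2, Finset.sum_map, Equiv.coe_toEmbedding, hg _]
  have hn : nb B (fun s => κ' (g s)) = nb (B.map g.toEmbedding) κ' := by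
    unfold nb
    rw [Finset.map_eq_image, Finset.image_image]
    rfl
  have h2 := lt_ren hT hB hg (mem_FF.1 hf _ hadm)
  rwa [hκ, hR, hn] at h2

theorem ff_alt (hT : S_TAY Ω) (hB : Z.S_BAS) {B : Finset Ω} {δ k : ℕ} {f : RR Ω}
    (hf : f ∈ Z.FF B δ k) : Alt (Z.GG B) f ∈ Z.FF B δ k := by
  unfold Alt
  rw [LinearMap.sum_apply]
  refine Submodule.sum_mem _ fun g hg => ?_
  have hg' : g ∈ Z.GG B := by
    classical
    exact (Finset.mem_filter.1 hg).2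
  have h1 := ff_ren hT hB hg'.1 hf
  rw [hB.map_GG B g hg'] at h1
  exact Submodule.smul_mem _ _ h1

theorem lt_hom (hT : S_TAY Ω) {J : Ideal (RR Ω)} (hJ : HomI J) (B : Finset Ω) (κ : Ω → ℕ)
    (N : ℕ) : HomV (Lt J B κ N) := by
  intro f hf k l hl hN
  by_cases h : l.length ≤ k
  · obtain ⟨j, rfl⟩ := Nat.exists_eq_add_of_le' h
    rw [← hT.hc]
    exact hJ _ (hf l hl hN) j
  · rw [hT.hz l k _ (homogeneousComponent_isHomogeneous k f) (not_le.1 h)]
    exact J.zero_mem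

theorem w_hom (hT : S_TAY Ω) (hB : Z.S_BAS) (B : Finset Ω) : HomV (Z.W B) := by
  intro f hf k
  refine ⟨hB.Asym_hom B f hf.1 k, mem_FF.2 fun κ hκ => ?_⟩
  exact lt_hom hT (hB.homI_iSup ℕ _ fun c => (hB.homI _).2.1) B κ _ f (mem_FF.1 hf.2 κ hκ) k

theorem hh_ren (hB : Z.S_BAS) (hP : Z.S_PERM) {A A' : Finset Ω} (h : Z.dim A = Z.dim A') :
    HH (Z.Asym A) (Z.JT A) = HH (Z.Asym A') (Z.JT A') ∧
    HH (Z.Asym A) (Z.JS A) = HH (Z.Asym A') (Z.JS A') ∧
    HH (Z.Asym A) (Z.JF A) = HH (Z.Asym A') (Z.JF A') := by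
  obtain ⟨g, hg, rfl⟩ := hP.move A A' h
  have h1 := fun f => hB.Asym_ren g A f hg
  have h2 := fun f => hB.Asym_ren g.symm (A.map g.toEmbedding) f (tp_symm hg)
  have h3 := fun f => hB.J_ren g A f hg
  have h4 := fun f => hB.J_ren g.symm (A.map g.toEmbedding) f (tp_symm hg)
  rw [map_map_symm] at h2 h4
  exact ⟨hh_eq g h1 h2 (fun f => (h3 f).1) fun f => (h4 f).1,
    hh_eq g h1 h2 (fun f => (h3 f).2.1) fun f => (h4 f).2.1,
    hh_eq g h1 h2 (fun f => (h3 f).2.2) fun f => (h4 f).2.2⟩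

theorem ff_bot (hB : Z.S_BAS) {B : Finset Ω} (h : Z.th B = 0) {f : RR Ω} (hf : f ∈ Z.FF B 0 0) :
    f ∈ Z.JS B := by
  have hfib : ∀ c, fib B (fun _ => 0) c = B ∨ fib B (fun _ => 0) c = ∅ := by
    intro c
    by_cases hc : 0 = c
    · exact Or.inl (Finset.filter_true_of_mem fun _ _ => hc)
    · exact Or.inr (Finset.filter_false_of_mem fun _ _ => hc)
  have hadm : Z.Adm B fun _ => 0 := by
    intro c
    rcases hfib c with h1 | h1 <;> rw [h1]
    · exact h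
    · rfl
  have h1 := mem_FF.1 hf _ hadm [] (by simp) (by simp [Qv.R2])
  have h2 : Z.Jk B (fun _ => 0) ≤ Z.JS B := by
    refine iSup_le fun c => ?_
    rcases hfib c with h3 | h3 <;> rw [h3]
    rw [hB.JS_empty]
    exact bot_le
  exact h2 h1

end WinvA

theorem t_winv : T_WINV := by
  intro Ω I _ _ _ _ Z hT hB hP
  refine ⟨fun g B κ N f hg hf => WinvA.lt_ren hT hB hg hf,
    fun g B δ k f hg hf => WinvA.ff_ren hT hB hg hf, fun B δ k f hf => WinvA.ff_alt hT hB hf,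
    WinvA.w_hom hT hB, fun A A' h => WinvA.hh_ren hB hP h, fun B k f => ?_,
    fun B h f hf => WinvA.ff_bot hB h hf, fun hs B δ f hf => ?_⟩
  · exact WinvA.mem_FF.2 fun κ _ => hT.deg _ _ _ _ _ (by omega)
  · refine WinvA.mem_FF.2 fun κ hκ l hl hN => WinvA.mem_FF.1 hf κ hκ l hl ?_
    have h1 : nb B κ < B.card + 1 := Nat.lt_succ_of_le Finset.card_image_le
    rw [if_pos h1, hB.R2_eq hs B κ hκ] at hN
    rw [if_neg (Nat.not_lt_zero _), hB.R2_eq hs B κ hκ]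
    omega

end Pool.Agent.P.MP_389f6f_co.Sp
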