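import Pool.Agent.P.MP_389f6f_co.SGf
import Pool.Agent.P.MP_389f6f_co.SDiv
import Pool.Agent.P.MP_389f6f_co.SGb
import Pool.Agent.P.MP_389f6f_co.STen
import Pool.Agent.P.MP_389f6f_co.STay
import Pool.Agent.P.MP_389f6f_co.SBas
import Pool.Agent.P.MP_389f6f_co.SPerm
import Pool.Agent.P.MP_389f6f_co.SWinv
import Pool.Agent.P.MP_389f6f_co.SCoef
import Pool.Agent.P.MP_389f6f_co.SFin
import Pool.Agent.P.MP_389f6f_co.SCoh
import Pool.Agent.P.MP_389f6f_co.SEk
import Pool.Agent.P.MP_389f6f_co.SEe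
import Pool.Agent.P.MP_389f6f_co.SBound
import Pool.Agent.P.MP_389f6f_co.SSym
import Pool.Agent.P.MP_389f6f_co.SSgn
import Pool.Agent.P.MP_389f6f_co.SSpan
import Pool.Agent.P.MP_389f6f_co.SInd2
import Pool.Agent.P.MP_389f6f_co.SInt
import Pool.Agent.P.MP_389f6f_co.SMon
import Pool.Agent.P.MP_389f6f_co.SHn
import Pool.Agent.P.MP_389f6f_co.SSpec

set_option autoImplicit false

namespace Pool.Agent.P.MP_389f6f_co.Sp

theorem spec : S_SPEC :=
  spec_of t_gf t_div t_gb t_ten t_tay t_bas t_perm t_winv t_coef t_fin t_coh t_ek t_ee t_bound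
    t_sym t_sgn t_span t_ind2 t_int t_mon t_hn t_spec

end Pool.Agent.P.MP_389f6f_co.Sp
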