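import Pool.Agent.P.MP_389f6f_co.SDefs

/-! Elementary facts about the standard elements. -/

set_option autoImplicit false

namespace Pool.Agent.P.MP_389f6f_co.Sp
open MvPolynomial Finset

namespace EeA

section basic
variable {Ω : Type} [Fintype Ω] [DecidableEq Ω]

omit [Fintype Ω] [DecidableEq Ω] in
theorem mem_fib {B : Finset Ω} {κ : Ω → ℕ} {c : ℕ} {s : Ω} :
    s ∈ fib B κ c ↔ s ∈ B ∧ κ s = c := mem_filter

omit [Fintype Ω] [DecidableEq Ω] in
theorem fib_ne {B : Finset Ω} {κ : Ω → ℕ} {c : ℕ} (hc : c ∈ B.image κ) :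
    (fib B κ c).Nonempty := by
  obtain ⟨s, hs, rfl⟩ := mem_image.1 hc
  exact ⟨s, mem_fib.2 ⟨hs, rfl⟩⟩

omit [Fintype Ω] [DecidableEq Ω] in
theorem fib_empty {B : Finset Ω} {κ : Ω → ℕ} {c : ℕ} (hc : c ∉ B.image κ) :
    fib B κ c = ∅ := by
  refine eq_empty_of_forall_notMem fun s hs => hc ?_
  exact mem_image.2 ⟨s, (mem_fib.1 hs).1, (mem_fib.1 hs).2⟩

omit [Fintype Ω] [DecidableEq Ω] in
theorem fib_sub (B : Finset Ω) (κ : Ω → ℕ) (c : ℕ) : fib B κ c ⊆ B := filter_subset _ _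

omit [Fintype Ω] [DecidableEq Ω] in
theorem pp_supp (A : Finset Ω) : pp A ∈ supported ℚ (A : Set Ω) :=
  Subalgebra.sum_mem _ fun _ hs => X_mem_supported.2 hs

omit [Fintype Ω] [DecidableEq Ω] in
theorem pp_hom (A : Finset Ω) : (pp A).IsHomogeneous 1 :=
  IsHomogeneous.sum _ _ _ fun s _ => isHomogeneous_X ℚ s

omit [Fintype Ω] [DecidableEq Ω] in
theorem pp_ren (g : Equiv.Perm Ω) (A : Finset Ω) :
    rename g (pp A) = pp (A.map g.toEmbedding) := by
  simp [pp, map_sum]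

omit [Fintype Ω] [DecidableEq Ω] in
theorem ren_fix (g : Ω → Ω) (S : Set Ω) (hg : ∀ s ∈ S, g s = s) (f : RR Ω)
    (hf : f ∈ supported ℚ S) : rename g f = f := by
  have : supported ℚ S ≤ AlgHom.equalizer (rename g : RR Ω →ₐ[ℚ] RR Ω) (AlgHom.id ℚ _) := by
    refine Algebra.adjoin_le ?_
    rintro _ ⟨s, hs, rfl⟩
    simp [hg s hs]
  exact this hf

theorem prod_pm {R C : Type} [CommRing R] (s : Finset C) (f g : C → R)
    (h : ∀ c ∈ s, f c = g c ∨ f c = -g c) :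
    ∏ c ∈ s, f c = ∏ c ∈ s, g c ∨ ∏ c ∈ s, f c = -∏ c ∈ s, g c := by
  classical
  induction s using Finset.induction_on with
  | empty => simp
  | insert a s ha ih =>
    rw [prod_insert ha, prod_insert ha]
    rcases h a (mem_insert_self _ _) with h1 | h1 <;>
      rcases ih (fun c hc => h c (mem_insert_of_mem hc)) with h2 | h2 <;> rw [h1, h2] <;> simp

theorem lt_mul (T : S_TAY Ω) {J : Ideal (RR Ω)} {B : Finset Ω} {κ : Ω → ℕ} {f g : RR Ω}
    {d e : ℕ} (hf : f ∈ Lt J B κ (2 * d + 1)) (hg : g ∈ Lt J B κ (2 * e + 1)) :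
    f * g ∈ Lt J B κ (2 * (d + e) + 1) := by
  have := T.mul J B κ _ _ f g hf hg
  rwa [show 2 * d + 1 + (2 * e + 1) - 1 = 2 * (d + e) + 1 by omega] at this

theorem lt_prod (T : S_TAY Ω) {J : Ideal (RR Ω)} {B : Finset Ω} {κ : Ω → ℕ} (s : Finset ℕ)
    (f : ℕ → RR Ω) (d : ℕ → ℕ) (h : ∀ c ∈ s, f c ∈ Lt J B κ (2 * d c + 1)) :
    ∏ c ∈ s, f c ∈ Lt J B κ (2 * ∑ c ∈ s, d c + 1) := by
  induction s using Finset.induction_on with
  | empty => exact T.deg _ _ _ _ _ (by simp)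
  | insert a s ha ih =>
    rw [prod_insert ha, sum_insert ha]
    exact lt_mul T (h a (mem_insert_self _ _)) (ih fun c hc => h c (mem_insert_of_mem hc))

end basic

section top
variable {R : Type} [CommRing R]

/-- `F` and `G` agree modulo `J` from degree `d` on, and `G` has degree at most `d` -/
def Top (J : Ideal R) (F G : MvPolynomial ℕ R) (d : ℕ) : Prop :=
  (∀ m : ℕ →₀ ℕ, d ≤ m.degree → coeff m F - coeff m G ∈ J) ∧
    ∀ m : ℕ →₀ ℕ, d < m.degree → coeff m G ∈ J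

theorem Top.one (J : Ideal R) : Top J 1 1 0 := by
  refine ⟨fun m _ => by simp, fun m hm => ?_⟩
  have : (0 : ℕ →₀ ℕ) ≠ m := by
    rintro rfl
    simp at hm
  simp [coeff_one, this]

theorem Top.mul {J : Ideal R} {F G F' G' : MvPolynomial ℕ R} {d d' : ℕ} (h : Top J F G d)
    (h' : Top J F' G' d') : Top J (F * F') (G * G') (d + d') := by
  constructor
  · intro m hm
    rw [coeff_mul, coeff_mul, ← sum_sub_distrib]
    refine J.sum_mem fun x hx => ?_
    have hd : x.1.degree + x.2.degree = m.degree := by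
      rw [← mem_antidiagonal.1 hx, map_add]
    have e : coeff x.1 F * coeff x.2 F' - coeff x.1 G * coeff x.2 G' =
        (coeff x.1 F - coeff x.1 G) * coeff x.2 F' + coeff x.1 G * (coeff x.2 F' - coeff x.2 G') := by
      ring
    rw [e]
    refine J.add_mem ?_ ?_
    · by_cases h1 : d ≤ x.1.degree
      · exact J.mul_mem_right _ (h.1 _ h1)
      · refine J.mul_mem_left _ ?_
        have := J.add_mem (h'.1 x.2 (by omega)) (h'.2 x.2 (by omega))
        rwa [sub_add_cancel] at this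
    · by_cases h1 : d' ≤ x.2.degree
      · exact J.mul_mem_left _ (h'.1 _ h1)
      · exact J.mul_mem_right _ (h.2 _ (by omega))
  · intro m hm
    rw [coeff_mul]
    refine J.sum_mem fun x hx => ?_
    have hd : x.1.degree + x.2.degree = m.degree := by
      rw [← mem_antidiagonal.1 hx, map_add]
    by_cases h1 : d < x.1.degree
    · exact J.mul_mem_right _ (h.2 _ h1)
    · exact J.mul_mem_left _ (h'.2 _ (by omega))

theorem Top.pow {J : Ideal R} {F G : MvPolynomial ℕ R} (h : Top J F G 1) (n : ℕ) :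
    Top J (F ^ n) (G ^ n) n := by
  induction n with
  | zero => simpa using Top.one J
  | succ n ih => rw [pow_succ, pow_succ]; exact ih.mul h

theorem Top.prod {J : Ideal R} (s : Finset ℕ) (F G : ℕ → MvPolynomial ℕ R) (d : ℕ → ℕ)
    (h : ∀ c ∈ s, Top J (F c) (G c) (d c)) :
    Top J (∏ c ∈ s, F c) (∏ c ∈ s, G c) (∑ c ∈ s, d c) := by
  induction s using Finset.induction_on with
  | empty => simpa using Top.one J
  | insert a s ha ih =>
    rw [prod_insert ha, prod_insert ha, sum_insert ha]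
    exact (h a (mem_insert_self _ _)).mul (ih fun c hc => h c (mem_insert_of_mem hc))

theorem prod_mono (s : Finset ℕ) (f : ℕ → ℕ →₀ ℕ) (a : ℕ → R) :
    ∏ c ∈ s, (monomial (f c) (a c) : MvPolynomial ℕ R) =
      monomial (∑ c ∈ s, f c) (∏ c ∈ s, a c) := by
  induction s using Finset.induction_on with
  | empty => simp
  | insert a s ha ih => rw [prod_insert ha, prod_insert ha, sum_insert ha, ih, monomial_mul]

end top

section tt
variable {Ω : Type} [Fintype Ω] [DecidableEq Ω]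

omit [Fintype Ω] in
theorem tt_zero (B : Finset Ω) (κ : Ω → ℕ) (f : RR Ω) : coeff 0 (TT B κ f) = f := by
  rw [← constantCoeff_eq]
  induction f using MvPolynomial.induction_on with
  | C a => simp [TT]
  | add p q hp hq => rw [map_add, map_add, hp, hq]
  | mul_X p s hp =>
    rw [map_mul, map_mul, hp]
    congr 1
    simp only [TT, aeval_X, map_add, constantCoeff_C]
    split_ifs <;> simp

theorem top_lt (T : S_TAY Ω) {J : Ideal (RR Ω)} {B : Finset Ω} {κ : Ω → ℕ} {f : RR Ω}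
    (hf : f ∈ Lt J B κ 1) : Top J (TT B κ f) (C f) 0 := by
  constructor
  · intro m _
    by_cases hm : m = 0
    · subst hm
      simp [tt_zero]
    · have h1 : 1 ≤ 2 * m.degree := by
        have : m.degree ≠ 0 := fun h => hm ((Finsupp.degree_eq_zero_iff m).1 h)
        omega
      have := (T.tl J B κ 1 f).1 hf m h1
      rw [coeff_C, if_neg (Ne.symm hm), sub_zero]
      exact this
  · intro m hm
    have : (0 : ℕ →₀ ℕ) ≠ m := by
      rintro rfl
      simp at hm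
    simp [coeff_C, this]

omit [Fintype Ω] in
theorem top_pp (J : Ideal (RR Ω)) (B : Finset Ω) (κ : Ω → ℕ) (c : ℕ) :
    Top J (TT B κ (pp (fib B κ c)))
      (map (C : ℚ →+* RR Ω) (monomial (Finsupp.single c 1) ((fib B κ c).card : ℚ))) 1 := by
  have e : TT B κ (pp (fib B κ c)) = C (pp (fib B κ c)) +
      map (C : ℚ →+* RR Ω) (monomial (Finsupp.single c 1) ((fib B κ c).card : ℚ)) := by
    have h1 : ∀ s ∈ fib B κ c, TT B κ (X s) = C (X s) + X c := fun s hs => by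
      simp only [TT, aeval_X, if_pos (mem_fib.1 hs).1, (mem_fib.1 hs).2]
    rw [pp, map_sum, sum_congr rfl h1, sum_add_distrib, map_sum, sum_const, map_monomial, X,
      smul_monomial]
    simp
  constructor
  · intro m hm
    have : (0 : ℕ →₀ ℕ) ≠ m := by
      rintro rfl
      simp at hm
    rw [e, coeff_add, add_sub_cancel_right, coeff_C, if_neg this]
    exact J.zero_mem
  · intro m hm
    have : Finsupp.single c 1 ≠ m := by
      rintro rfl
      simp at hm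
    rw [map_monomial, coeff_monomial, if_neg this]
    exact J.zero_mem

end tt

section main
variable {Ω I : Type} [Fintype Ω] [DecidableEq Ω] [Fintype I] [DecidableEq I] {Z : Qv Ω I}
  {Γ : Type} {Y : Z.Coh Γ} {B : Finset Ω} {κ : Ω → ℕ} {lab : ℕ → Γ × ℕ}

theorem th_fib (P : Z.S_BAS) (h : Y.Val B κ lab) (c : ℕ) : Z.th (fib B κ c) = 0 := by
  by_cases hc : c ∈ B.image κ
  · rw [P.th_dim, ← h c hc]
    exact (Y.ne _).2
  · rw [fib_empty hc]
    simp [Qv.th]

theorem w_mem (P : Z.S_BAS) (h : Y.Val B κ lab) {c : ℕ} (hc : c ∈ B.image κ) :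
    Y.w (fib B κ c) (lab c).1 ∈ Z.W (fib B κ c) :=
  (Y.gb _ (fib_ne hc) (th_fib P h c)).mem _ (h c hc)

theorem w_supp (P : Z.S_BAS) (h : Y.Val B κ lab) {c : ℕ} (hc : c ∈ B.image κ) :
    Y.w (fib B κ c) (lab c).1 ∈ supported ℚ (fib B κ c : Set Ω) := (w_mem P h hc).1.1

theorem gg_supp (P : Z.S_BAS) (h : Y.Val B κ lab) : Y.gg B κ lab ∈ supported ℚ (B : Set Ω) := by
  refine Subalgebra.mul_mem _ (Subalgebra.prod_mem _ fun c hc => ?_)
    (Subalgebra.prod_mem _ fun c _ => Subalgebra.pow_mem _ ?_ _)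
  · exact supported_mono (coe_subset.2 (fib_sub B κ c)) (w_supp P h hc)
  · exact supported_mono (coe_subset.2 (fib_sub B κ c)) (pp_supp _)

theorem EE_hom (P : Z.S_BAS) (h : Y.Val B κ lab) : (Y.EE B κ lab).IsHomogeneous
    (Z.r1 B κ + ((Qv.ms B κ lab).map fun x => Y.dg x.1 + x.2).sum) := by
  have e : ((Qv.ms B κ lab).map fun x => Y.dg x.1 + x.2).sum =
      ∑ c ∈ B.image κ, Y.dg (lab c).1 + ∑ c ∈ B.image κ, 1 * (lab c).2 := by
    rw [← sum_add_distrib, Qv.ms, Multiset.map_map]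
    simp only [one_mul]
    rfl
  rw [e]
  refine (P.ek_hom B κ).mul (IsHomogeneous.mul ?_ ?_)
  · exact IsHomogeneous.prod _ _ _ fun c hc =>
      (Y.gb _ (fib_ne hc) (th_fib P h c)).hom _ (h c hc)
  · exact IsHomogeneous.prod _ _ _ fun c _ => (pp_hom _).pow _

omit [Fintype Ω] [DecidableEq Ω] in
theorem fib_rel {κ' : Ω → ℕ} (h1 : Crs B κ κ') (h2 : Crs B κ' κ) {s : Ω} (hs : s ∈ B) :
    fib B κ (κ s) = fib B κ' (κ' s) := by
  ext x
  simp only [mem_fib]
  exact ⟨fun h => ⟨h.1, h1 x h.1 s hs h.2⟩, fun h => ⟨h.1, h2 x h.1 s hs h.2⟩⟩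

omit [Fintype Ω] [DecidableEq Ω] in
theorem nodup_fl (B : Finset Ω) (κ : Ω → ℕ) (lab : ℕ → Γ × ℕ) :
    ((B.image κ).val.map fun c => (fib B κ c, lab c)).Nodup := by
  refine Multiset.Nodup.map_on (fun x hx y _ hxy => ?_) (B.image κ).nodup
  obtain ⟨s, hs⟩ := fib_ne (B := B) (κ := κ) (c := x) hx
  have h2 : s ∈ fib B κ y := (Prod.mk.inj hxy).1 ▸ hs
  exact (mem_fib.1 hs).2.symm.trans (mem_fib.1 h2).2

omit [Fintype Ω] [DecidableEq Ω] in
theorem ms_rel {κ' : Ω → ℕ} {lab' : ℕ → Γ × ℕ} (h1 : Crs B κ κ') (h2 : Crs B κ' κ)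
    (h3 : ∀ s ∈ B, lab (κ s) = lab' (κ' s)) :
    ((B.image κ).val.map fun c => (fib B κ c, lab c)) =
      (B.image κ').val.map fun c => (fib B κ' c, lab' c) := by
  rw [(nodup_fl B κ lab).ext (nodup_fl B κ' lab')]
  intro x
  simp only [Multiset.mem_map, mem_val, mem_image]
  constructor
  · rintro ⟨_, ⟨s, hs, rfl⟩, rfl⟩
    exact ⟨_, ⟨s, hs, rfl⟩, by rw [fib_rel h1 h2 hs, h3 s hs]⟩
  · rintro ⟨_, ⟨s, hs, rfl⟩, rfl⟩
    exact ⟨_, ⟨s, hs, rfl⟩, by rw [fib_rel h1 h2 hs, h3 s hs]⟩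

omit [Fintype Ω] [DecidableEq Ω] in
theorem map_rel {κ' : Ω → ℕ} {lab' : ℕ → Γ × ℕ} (h1 : Crs B κ κ') (h2 : Crs B κ' κ)
    (h3 : ∀ s ∈ B, lab (κ s) = lab' (κ' s)) {M : Type} (F : Finset Ω → Γ × ℕ → M) :
    ((B.image κ).val.map fun c => F (fib B κ c) (lab c)) =
      (B.image κ').val.map fun c => F (fib B κ' c) (lab' c) := by
  have := congrArg (Multiset.map fun x : Finset Ω × Γ × ℕ => F x.1 x.2) (ms_rel h1 h2 h3)
  rwa [Multiset.map_map, Multiset.map_map] at this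

theorem rel {κ' : Ω → ℕ} {lab' : ℕ → Γ × ℕ} (h1 : Crs B κ κ') (h2 : Crs B κ' κ)
    (h3 : ∀ s ∈ B, lab (κ s) = lab' (κ' s)) :
    (Y.Val B κ lab ↔ Y.Val B κ' lab') ∧ Y.gg B κ lab = Y.gg B κ' lab' ∧
    Qv.dl B κ lab = Qv.dl B κ' lab' ∧ Qv.ms B κ lab = Qv.ms B κ' lab' := by
  refine ⟨⟨fun h c hc => ?_, fun h c hc => ?_⟩, ?_, ?_, ?_⟩
  · obtain ⟨s, hs, rfl⟩ := mem_image.1 hc
    rw [← fib_rel h1 h2 hs, ← h3 s hs]
    exact h _ (mem_image_of_mem _ hs)
  · obtain ⟨s, hs, rfl⟩ := mem_image.1 hc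
    rw [fib_rel h1 h2 hs, h3 s hs]
    exact h _ (mem_image_of_mem _ hs)
  · have e1 := congrArg Multiset.prod (map_rel h1 h2 h3 fun A x => Y.w A x.1)
    have e2 := congrArg Multiset.prod (map_rel h1 h2 h3 fun A x => pp A ^ x.2)
    exact congrArg₂ (· * ·) e1 e2
  · exact congrArg Multiset.sum (map_rel h1 h2 h3 fun _ x => x.2)
  · exact map_rel h1 h2 h3 fun _ x => x

theorem fib_g (P : Z.S_BAS) {g : Equiv.Perm Ω} (hg : g ∈ Z.GG B) (κ : Ω → ℕ) (c : ℕ) :
    fib B (fun s => κ (g⁻¹ s)) c = (fib B κ c).map g.toEmbedding := by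
  rw [← P.fib_ren, P.map_GG B g hg]

theorem img_g (P : Z.S_BAS) {g : Equiv.Perm Ω} (hg : g ∈ Z.GG B) (κ : Ω → ℕ) :
    B.image (fun s => κ (g⁻¹ s)) = B.image κ := by
  conv_lhs => rw [← P.map_GG B g hg]
  rw [map_eq_image, image_image]
  congr 1
  ext s
  simp

theorem ren (P : Z.S_BAS) {g : Equiv.Perm Ω} (hg : g ∈ Z.GG B) (h : Y.Val B κ lab) :
    Y.Val B (fun s => κ (g⁻¹ s)) lab ∧ B.image (fun s => κ (g⁻¹ s)) = B.image κ ∧
    (rename g (Y.gg B κ lab) = Y.gg B (fun s => κ (g⁻¹ s)) lab ∨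
      rename g (Y.gg B κ lab) = -Y.gg B (fun s => κ (g⁻¹ s)) lab) := by
  refine ⟨fun c hc => ?_, img_g P hg κ, ?_⟩
  · rw [fib_g P hg, P.dim_map g _ hg.1]
    exact h c (img_g P hg κ ▸ hc)
  · simp only [Qv.Coh.gg, Qv.Coh.ww, img_g P hg κ, fib_g P hg, map_mul, map_prod, map_pow, pp_ren]
    rcases prod_pm (B.image κ) (fun c => rename g (Y.w (fib B κ c) (lab c).1))
      (fun c => Y.w ((fib B κ c).map g.toEmbedding) (lab c).1)
      (fun c hc => Y.co g _ _ hg.1 (h c hc)) with e | e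
    · left
      rw [e]
    · right
      rw [e, neg_mul]

theorem swap_EE (P : Z.S_BAS) (h : Y.Val B κ lab) {s s' : Ω} (hs : s ∈ B) (hs' : s' ∈ B)
    (hne : s ≠ s') (hty : Z.ty s = Z.ty s') (hk : κ s = κ s') :
    rename (Equiv.swap s s') (Y.EE B κ lab) = -Y.EE B κ lab := by
  have key : ∀ {α : Type} (φ : Ω → α), φ s = φ s' → ∀ x, φ (Equiv.swap s s' x) = φ x :=
    fun φ hφ x => Equiv.apply_swap_eq_self hφ x
  have hg : Equiv.swap s s' ∈ Z.GG B := by
    refine ⟨key Z.ty hty, fun x hx => ?_, fun _ => rfl⟩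
    exact Equiv.swap_apply_of_ne_of_ne (fun e => hx (e ▸ hs)) (fun e => hx (e ▸ hs'))
  have hκ : (fun x => κ ((Equiv.swap s s')⁻¹ x)) = κ := by
    funext x
    rw [Equiv.swap_inv]
    exact key κ hk x
  have hf : ∀ c, (fib B κ c).map (Equiv.swap s s').toEmbedding = fib B κ c := fun c => by
    rw [← fib_g P hg, hκ]
  have hc : κ s ∈ B.image κ := mem_image_of_mem _ hs
  have e1 : rename (Equiv.swap s s') (Z.ek B κ) = Z.ek B κ := by
    rw [P.ek_ren _ _ _ hg.1, hκ, P.map_GG B _ hg]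
  have e2 : rename (Equiv.swap s s') (Y.ww B κ lab) = -Y.ww B κ lab := by
    rw [Qv.Coh.ww, ← mul_prod_erase _ _ hc, map_mul, map_prod,
      (w_mem P h hc).1.2 s (mem_fib.2 ⟨hs, rfl⟩) s' (mem_fib.2 ⟨hs', hk.symm⟩) hne hty, neg_mul]
    congr 2
    refine prod_congr rfl fun c hc' => ?_
    refine ren_fix _ _ (fun x hx => ?_) _ (w_supp P h (mem_of_mem_erase hc'))
    have hx' := (mem_fib.1 (mem_coe.1 hx)).2
    have hn := ne_of_mem_erase hc'
    refine Equiv.swap_apply_of_ne_of_ne (fun e => hn ?_) (fun e => hn ?_)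
    · rw [← hx', e]
    · rw [← hx', e, hk]
  simp only [Qv.Coh.EE, Qv.Coh.gg, map_mul, map_prod, map_pow, pp_ren, hf, e1, e2]
  ring

theorem w_lt (T : S_TAY Ω) (P : Z.S_BAS) (h : Y.Val B κ lab) {c : ℕ} (hc : c ∈ B.image κ) :
    Y.w (fib B κ c) (lab c).1 ∈ Lt (Z.Jk B κ) B κ (2 * 0 + 1) := by
  set A := fib B κ c with hA
  have f0 : fib A (fun _ => 0) 0 = A := filter_true_of_mem fun _ _ => rfl
  have f1 : ∀ c', c' ≠ 0 → fib A (fun _ => 0) c' = ∅ := fun c' hc' =>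
    filter_false_of_mem fun _ _ => Ne.symm hc'
  have hadm : Z.Adm A fun _ => 0 := fun c' => by
    by_cases h0 : c' = 0
    · rw [h0, f0]
      exact th_fib P h c
    · rw [f1 c' h0]
      simp [Qv.th]
  have hle : Z.Jk A (fun _ => 0) ≤ Z.Jk B κ := by
    refine iSup_le fun c' => ?_
    by_cases h0 : c' = 0
    · rw [h0, f0]
      exact le_iSup (fun c => Z.JS (fib B κ c)) c
    · rw [f1 c' h0, P.JS_empty]
      exact bot_le
  have hw := (w_mem P h hc).2
  simp only [Qv.FF, Submodule.mem_iInf, SetLike.mem_coe] at hw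
  have hw1 := hw _ hadm
  have hnb : nb A (fun _ => 0) < 2 := by
    have : A.image (fun _ => (0 : ℕ)) ⊆ {0} := fun x hx => by
      obtain ⟨_, _, rfl⟩ := mem_image.1 hx
      simp
    have := card_le_card this
    rw [card_singleton] at this
    unfold nb
    omega
  have hR : Z.R2 A (fun _ => 0) = 0 := by simp [Qv.R2]
  rw [if_pos hnb, hR] at hw1
  intro l hl hN
  rw [T.cong l (l.map fun v s => if s ∈ A then v s else 0) (A : Set Ω) ?_ _ (w_supp P h hc)]
  · refine hle (hw1 _ (fun v hv => ?_) (by simpa using hN))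
    obtain ⟨u, hu, rfl⟩ := List.mem_map.1 hv
    refine ⟨fun s hs => if_neg hs, fun s hs s' hs' _ => ?_⟩
    refine (if_pos hs).trans (Eq.trans ?_ (if_pos hs').symm)
    exact (hl u hu).2 s (mem_fib.1 hs).1 s' (mem_fib.1 hs').1
      ((mem_fib.1 hs).2.trans (mem_fib.1 hs').2.symm)
  · rw [List.forall₂_map_right_iff, List.forall₂_same]
    intro v _ s hs
    exact (if_pos (mem_coe.1 hs)).symm

theorem ww_lt (T : S_TAY Ω) (P : Z.S_BAS) (h : Y.Val B κ lab) :
    Y.ww B κ lab ∈ Lt (Z.Jk B κ) B κ (2 * 0 + 1) := by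
  have := lt_prod T (B.image κ) (fun c => Y.w (fib B κ c) (lab c).1) (fun _ => 0)
    fun c hc => w_lt T P h hc
  rwa [sum_const_zero] at this

theorem glt (T : S_TAY Ω) (P : Z.S_BAS) (h : Y.Val B κ lab) :
    Y.gg B κ lab ∈ Lt (Z.Jk B κ) B κ (2 * Qv.dl B κ lab + 1) := by
  have h2 := lt_prod T (J := Z.Jk B κ) (B := B) (κ := κ) (B.image κ)
    (fun c => pp (fib B κ c) ^ (lab c).2) (fun c => (lab c).2) fun c _ => by
      refine T.deg _ _ _ _ _ ?_
      have := ((pp_hom (fib B κ c)).pow (lab c).2).totalDegree_le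
      omega
  have := lt_mul T (ww_lt T P h) h2
  rwa [zero_add] at this

theorem symb (T : S_TAY Ω) (P : Z.S_BAS) (K : Z.S_EK) (κ' : Ω → ℕ) (h : Y.Val B κ lab)
    (m : ℕ →₀ ℕ) (hm : Z.r1 B κ' + Qv.dl B κ lab ≤ m.degree) :
    coeff m (TT B κ (Z.ek B κ' * Y.gg B κ lab)) -
      coeff m (Z.DL B κ κ' * monomial (Qv.mono B κ lab) (Qv.cc B κ lab)) • Y.ww B κ lab ∈
        Z.Jk B κ := by
  have t1 : Top (Z.Jk B κ) (TT B κ (Z.ek B κ')) (map (C : ℚ →+* RR Ω) (Z.DL B κ κ'))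
      (Z.r1 B κ') := by
    constructor
    · intro m hm
      rw [K.top B κ κ' m hm, coeff_map, sub_self]
      exact Ideal.zero_mem _
    · intro m hm
      rw [coeff_map, (K.hom B κ κ').coeff_eq_zero hm.ne', map_zero]
      exact Ideal.zero_mem _
  have t2 := top_lt T (ww_lt T P h)
  have t3 := Top.prod (B.image κ) _ _ _ fun c _ => (top_pp (Z.Jk B κ) B κ c).pow (lab c).2
  have t4 := (t1.mul (t2.mul t3)).1 m (by rw [zero_add]; exact hm)
  have e1 : TT B κ (Z.ek B κ' * Y.gg B κ lab) = TT B κ (Z.ek B κ') * (TT B κ (Y.ww B κ lab) *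
      ∏ c ∈ B.image κ, TT B κ (pp (fib B κ c)) ^ (lab c).2) := by
    simp only [Qv.Coh.gg, map_mul, map_prod, map_pow]
  have e2 : ∏ c ∈ B.image κ, map (C : ℚ →+* RR Ω)
      (monomial (Finsupp.single c 1) ((fib B κ c).card : ℚ)) ^ (lab c).2 =
      map (C : ℚ →+* RR Ω) (monomial (Qv.mono B κ lab) (Qv.cc B κ lab)) := by
    rw [Qv.mono, Qv.cc, ← prod_mono, map_prod]
    refine prod_congr rfl fun c _ => ?_
    rw [← map_pow, monomial_pow, Finsupp.smul_single, smul_eq_mul, mul_one]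
  rw [e2, ← e1, mul_left_comm, ← map_mul, coeff_C_mul, coeff_map, mul_comm (Y.ww B κ lab),
    ← smul_eq_C_mul] at t4
  exact t4

end main

end EeA

theorem t_ee : T_EE := by
  intro Ω I _ _ _ _ Z Γ _ Y T P Q K
  refine ⟨fun B κ lab h => EeA.th_fib P h, fun B κ lab h => EeA.gg_supp P h,
    fun B κ lab h => EeA.EE_hom P h, fun B κ κ' lab' h => ?_,
    fun B κ κ' lab lab' h1 h2 h3 => EeA.rel h1 h2 h3, fun B κ lab g hg h => EeA.ren P hg h,
    fun B κ lab h => Q.bas B κ _ fun s hs s' hs' h1 h2 h3 => EeA.swap_EE P h hs hs' h1 h2 h3,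
    fun B κ lab h => EeA.glt T P h, fun B κ κ' lab h m hm => EeA.symb T P K κ' h m hm⟩
  classical
  refine ⟨fun c => if hc : ∃ s ∈ B, κ s = c then lab' (κ' hc.choose) else lab' 0, fun s hs => ?_⟩
  have hc : ∃ x ∈ B, κ x = κ s := ⟨s, hs, rfl⟩
  simp only [dif_pos hc]
  rw [h _ hc.choose_spec.1 s hs hc.choose_spec.2]

end Pool.Agent.P.MP_389f6f_co.Sp
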