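import Pool.Agent.P.MP_389f6f_co.SDefs

/-! Generating function identities for multisets of labels. -/

set_option autoImplicit false

namespace Pool.Agent.P.MP_389f6f_co.Sp
open Finset

namespace GfA

/-- counting series of a predicate with respect to a weight -/
noncomputable def gf {α : Type} (P : α → Prop) (w : α → ℕ) : PowerSeries ℚ :=
  PowerSeries.mk fun k => (Nat.card {x // P x ∧ w x = k} : ℚ)

/-- every weight class is finite -/
def FF {α : Type} (P : α → Prop) (w : α → ℕ) : Prop := ∀ k, {x | P x ∧ w x = k}.Finite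

theorem card_fib {α ι : Type} (S : α → Prop) (hS : {x | S x}.Finite) (s : Finset ι) (c : α → ι)
    (hc : ∀ x, S x → c x ∈ s) :
    Nat.card {x // S x} = ∑ i ∈ s, Nat.card {x // S x ∧ c x = i} := by
  classical
  have h1 : Nat.card {x // S x} = hS.toFinset.card := by
    rw [← Nat.card_eq_finsetCard]
    exact Nat.card_congr (Equiv.subtypeEquivRight fun x => by simp)
  have h2 : ∀ i, Nat.card {x // S x ∧ c x = i} = (hS.toFinset.filter fun x => c x = i).card := by
    intro i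
    rw [← Nat.card_eq_finsetCard]
    refine Nat.card_congr (Equiv.subtypeEquivRight fun x => ?_)
    simp
  simp only [h1, h2]
  exact Finset.card_eq_sum_card_fiberwise fun x hx => hc x (by simpa using hx)

theorem gf_fib {α ι : Type} (P : α → Prop) (w : α → ℕ) (hF : FF P w) (s : Finset ι) (c : α → ι)
    (hc : ∀ x, P x → c x ∈ s) : gf P w = ∑ i ∈ s, gf (fun x => P x ∧ c x = i) w := by
  ext k
  simp only [gf, map_sum, PowerSeries.coeff_mk]
  rw [card_fib _ (hF k) s c fun x hx => hc x hx.1]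
  push_cast
  refine Finset.sum_congr rfl fun i _ => ?_
  congr 1
  exact Nat.card_congr (Equiv.subtypeEquivRight fun x => by tauto)

theorem gf_split {α : Type} (P R : α → Prop) (w : α → ℕ) (hF : FF P w) :
    gf P w = gf (fun x => P x ∧ R x) w + gf (fun x => P x ∧ ¬ R x) w := by
  classical
  rw [gf_fib P w hF (Finset.univ : Finset Bool) (fun x => decide (R x)) fun _ _ => mem_univ _]
  simp

theorem gf_bij {α β : Type} (P : α → Prop) (Q : β → Prop) (w : α → ℕ) (w' : β → ℕ) (n : ℕ)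
    (f : α → β) (hf : ∀ x, P x → Q (f x) ∧ w' (f x) = w x + n)
    (hi : ∀ x y, P x → P y → f x = f y → x = y) (hs : ∀ y, Q y → ∃ x, P x ∧ f x = y) :
    gf Q w' = PowerSeries.X ^ n * gf P w := by
  ext k
  rw [PowerSeries.coeff_X_pow_mul']
  simp only [gf, PowerSeries.coeff_mk]
  split_ifs with h
  · congr 1
    refine (Nat.card_congr (Equiv.ofBijective
      (fun x : {x // P x ∧ w x = k - n} => (⟨f x.1, (hf x.1 x.2.1).1, by
        rw [(hf x.1 x.2.1).2, x.2.2]; omega⟩ : {y // Q y ∧ w' y = k})) ⟨?_, ?_⟩)).symm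
    · intro x y hxy
      exact Subtype.ext (hi _ _ x.2.1 y.2.1 (congrArg Subtype.val hxy))
    · rintro ⟨y, hy, hk⟩
      obtain ⟨x, hx, rfl⟩ := hs y hy
      refine ⟨⟨x, hx, ?_⟩, rfl⟩
      have := (hf x hx).2
      omega
  · have : IsEmpty {y // Q y ∧ w' y = k} := by
      refine ⟨fun y => h ?_⟩
      obtain ⟨x, hx, hxy⟩ := hs y.1 y.2.1
      have h1 := (hf x hx).2
      rw [hxy, y.2.2] at h1
      omega
    simp

theorem fin_ms (D k : ℕ) : {ν : Multiset ℕ | ν.card ≤ D ∧ ν.sum ≤ k}.Finite := by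
  refine (Set.finite_Iic (D • (range (k + 1)).val)).subset fun ν hν => ?_
  rw [Set.mem_Iic, Multiset.le_iff_count]
  intro a
  by_cases ha : a ∈ ν
  · have h1 : a ≤ k := (Multiset.le_sum_of_mem ha).trans hν.2
    rw [Multiset.count_nsmul, Multiset.count_eq_one_of_mem (range (k + 1)).nodup
      (Finset.mem_def.1 (mem_range.2 (Nat.lt_succ_of_le h1))), mul_one]
    exact (Multiset.count_le_card a ν).trans hν.1
  · rw [Multiset.count_eq_zero_of_notMem ha]; exact Nat.zero_le _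

theorem ff_ms (P : Multiset ℕ → Prop) (n : ℕ) (h : ∀ ν, P ν → ν.card = n) :
    FF P Multiset.sum := fun k =>
  (fin_ms n k).subset fun ν hν => ⟨(h ν hν.1).le, hν.2.le⟩

theorem sum_map_succ (ν : Multiset ℕ) : (ν.map fun a => a + 1).sum = ν.sum + ν.card := by
  rw [Multiset.sum_map_add]; simp

theorem sum_map_cadd (ν : Multiset ℕ) (c : ℕ) :
    (ν.map fun m => c + m).sum = ν.card * c + ν.sum := by
  induction ν using Multiset.induction_on with
  | empty => simp
  | cons a ν ih =>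
    rw [Multiset.map_cons, Multiset.sum_cons, ih, Multiset.card_cons, Multiset.sum_cons]; ring

theorem map_pred (ν : Multiset ℕ) (h : 0 ∉ ν) :
    (ν.map fun a => a - 1).map (fun a => a + 1) = ν := by
  rw [Multiset.map_map]
  conv_rhs => rw [← Multiset.map_id ν]
  refine Multiset.map_congr rfl fun a ha => ?_
  have : a ≠ 0 := fun h0 => h (h0 ▸ ha)
  simp only [Function.comp, id]
  omega

theorem succ_inj : Function.Injective fun a : ℕ => a + 1 := fun _ _ h => Nat.succ_injective h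

theorem gf_zero (P : Multiset ℕ → Prop) (h : ∀ ν, P ν ↔ ν = 0) : gf P Multiset.sum = 1 := by
  ext k
  simp only [gf, PowerSeries.coeff_mk, PowerSeries.coeff_one]
  split_ifs with hk
  · subst hk
    have : Unique {x : Multiset ℕ // P x ∧ x.sum = 0} :=
      ⟨⟨⟨0, (h 0).2 rfl, rfl⟩⟩, fun x => Subtype.ext ((h _).1 x.2.1)⟩
    simp
  · have : IsEmpty {x : Multiset ℕ // P x ∧ x.sum = k} := by
      refine ⟨fun x => hk ?_⟩
      have h1 := x.2.2
      rw [(h _).1 x.2.1] at h1
      exact h1.symm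
    simp

theorem cb_eq (n : ℕ) : cb n = gf (fun μ : Multiset ℕ => μ.card = n) Multiset.sum := rfl

theorem cf_eq (n : ℕ) :
    cf n = gf (fun μ : Multiset ℕ => μ.card = n ∧ μ.Nodup) Multiset.sum := rfl

theorem s_cb : S_CB := by
  refine ⟨gf_zero _ fun ν => Multiset.card_eq_zero, gf_zero _ fun ν => ?_, fun n => ?_,
    fun n => ?_⟩
  · exact ⟨fun h => Multiset.card_eq_zero.1 h.1, fun h => by subst h; simp⟩
  · have h0 := gf_split (fun μ : Multiset ℕ => μ.card = n + 1) (fun μ => 0 ∈ μ) Multiset.sum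
      (ff_ms _ (n + 1) fun _ h => h)
    have h1 := gf_bij (fun μ : Multiset ℕ => μ.card = n)
      (fun μ : Multiset ℕ => μ.card = n + 1 ∧ 0 ∈ μ) Multiset.sum Multiset.sum 0
      (fun ν => 0 ::ₘ ν) (fun ν hν => by simp [hν])
      (fun x y _ _ h => (Multiset.cons_inj_right 0).1 h)
      (fun y hy => ⟨y.erase 0, by rw [Multiset.card_erase_of_mem hy.2, hy.1]; rfl,
        Multiset.cons_erase hy.2⟩)
    have h2 := gf_bij (fun μ : Multiset ℕ => μ.card = n + 1)
      (fun μ : Multiset ℕ => μ.card = n + 1 ∧ ¬ 0 ∈ μ) Multiset.sum Multiset.sum (n + 1)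
      (fun ν => ν.map fun a => a + 1)
      (fun ν hν => ⟨⟨by simp [hν], by simp⟩, by rw [sum_map_succ, hν]⟩)
      (fun x y _ _ h => Multiset.map_injective succ_inj h)
      (fun y hy => ⟨y.map fun a => a - 1, by simp [hy.1], map_pred y hy.2⟩)
    rw [h1, h2, ← cb_eq, ← cb_eq] at h0
    linear_combination h0
  · have h0 := gf_split (fun μ : Multiset ℕ => μ.card = n + 1 ∧ μ.Nodup) (fun μ => 0 ∈ μ)
      Multiset.sum (ff_ms _ (n + 1) fun _ h => h.1)
    have h1 := gf_bij (fun μ : Multiset ℕ => μ.card = n ∧ μ.Nodup)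
      (fun μ : Multiset ℕ => (μ.card = n + 1 ∧ μ.Nodup) ∧ 0 ∈ μ) Multiset.sum Multiset.sum n
      (fun ν => 0 ::ₘ ν.map fun a => a + 1)
      (fun ν hν => by
        refine ⟨⟨⟨by simp [hν.1], ?_⟩, by simp⟩, by simp [hν.1]⟩
        rw [Multiset.nodup_cons]
        exact ⟨by simp, hν.2.map succ_inj⟩)
      (fun x y _ _ h => Multiset.map_injective succ_inj ((Multiset.cons_inj_right 0).1 h))
      (fun y hy => by
        have hn : 0 ∉ y.erase 0 := hy.1.2.notMem_erase
        refine ⟨(y.erase 0).map fun a => a - 1, ⟨?_, ?_⟩, ?_⟩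
        · rw [Multiset.card_map, Multiset.card_erase_of_mem hy.2, hy.1.1]; rfl
        · refine Multiset.Nodup.of_map (fun a => a + 1) ?_
          rw [map_pred _ hn]; exact hy.1.2.erase 0
        · rw [map_pred _ hn, Multiset.cons_erase hy.2])
    have h2 := gf_bij (fun μ : Multiset ℕ => μ.card = n + 1 ∧ μ.Nodup)
      (fun μ : Multiset ℕ => (μ.card = n + 1 ∧ μ.Nodup) ∧ ¬ 0 ∈ μ) Multiset.sum Multiset.sum
      (n + 1) (fun ν => ν.map fun a => a + 1)
      (fun ν hν => ⟨⟨⟨by simp [hν.1], hν.2.map succ_inj⟩, by simp⟩,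
        by rw [sum_map_succ, hν.1]⟩)
      (fun x y _ _ h => Multiset.map_injective succ_inj h)
      (fun y hy => by
        refine ⟨y.map fun a => a - 1, ⟨by simp [hy.1.1], ?_⟩, map_pred y hy.2⟩
        refine Multiset.Nodup.of_map (fun a => a + 1) ?_
        rw [map_pred _ hy.2]; exact hy.1.2)
    rw [h1, h2, ← cf_eq, ← cf_eq] at h0
    linear_combination h0

theorem gf_pi {Γ α : Type} [Fintype Γ] (P : Γ → α → Prop) (w : α → ℕ) (hF : ∀ γ, FF (P γ) w) :
    gf (fun μ : Γ → α => ∀ γ, P γ (μ γ)) (fun μ => ∑ γ, w (μ γ)) = ∏ γ, gf (P γ) w := by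
  classical
  ext k
  rw [PowerSeries.coeff_prod]
  simp only [gf, PowerSeries.coeff_mk]
  have hfin : {μ : Γ → α | (∀ γ, P γ (μ γ)) ∧ ∑ γ, w (μ γ) = k}.Finite := by
    refine (Set.Finite.pi' (t := fun γ => ⋃ j ∈ Set.Iic k, {x | P γ x ∧ w x = j})
      fun γ => (Set.finite_Iic k).biUnion fun j _ => hF γ j).subset fun μ hμ γ => ?_
    simp only [Set.mem_iUnion, Set.mem_ofPred_eq, Set.mem_Iic]
    refine ⟨w (μ γ), ?_, hμ.1 γ, rfl⟩
    rw [← hμ.2]
    exact Finset.single_le_sum (f := fun γ => w (μ γ)) (fun _ _ => Nat.zero_le _) (mem_univ γ)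
  rw [card_fib _ hfin (finsuppAntidiag univ k)
    (fun μ => Finsupp.equivFunOnFinite.symm fun γ => w (μ γ))
    (fun μ hμ => by
      rw [mem_finsuppAntidiag]
      exact ⟨by simpa using hμ.2, subset_univ _⟩)]
  push_cast
  refine Finset.sum_congr rfl fun l hl => ?_
  rw [← Nat.cast_prod, ← Nat.card_pi]
  congr 1
  refine Nat.card_congr ((Equiv.subtypeEquivRight fun μ => ?_).trans
    (Equiv.subtypePiEquivPi (p := fun γ x => P γ x ∧ w x = l γ)))
  rw [mem_finsuppAntidiag] at hl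
  constructor
  · rintro ⟨⟨h1, _⟩, h2⟩ γ
    exact ⟨h1 γ, by rw [← h2]; simp⟩
  · intro h
    refine ⟨⟨fun γ => (h γ).1, ?_⟩, ?_⟩
    · rw [← hl.1]; exact Finset.sum_congr rfl fun γ _ => (h γ).2
    · ext γ; simp [(h γ).2]

theorem s_prod : S_PROD := by
  intro Γ _ n odd _
  have h := gf_pi (fun γ (ν : Multiset ℕ) => ν.card = n γ ∧ (odd γ → ν.Nodup)) Multiset.sum
    fun γ => ff_ms _ (n γ) fun _ h => h.1
  refine h.trans (Finset.prod_congr rfl fun γ _ => ?_)
  split_ifs with ho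
  · simp only [cf_eq, ho, forall_true_left]
  · simp only [cb_eq, ho, IsEmpty.forall_iff, and_true]

section par
variable {I : Type} [Fintype I] (a : I → I → ℕ) (θ : I → ℝ)

theorem arr_add_left (d e f : I → ℕ) : arr a (d + e) f = arr a d f + arr a e f := by
  simp only [arr, Pi.add_apply, add_mul, Finset.sum_add_distrib]

theorem arr_add_right (d e f : I → ℕ) : arr a d (e + f) = arr a d e + arr a d f := by
  simp only [arr, Pi.add_apply, add_mul, mul_add, Finset.sum_add_distrib]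

theorem thd_add (d e : I → ℕ) : thd θ (d + e) = thd θ d + thd θ e := by
  simp only [thd, Pi.add_apply, Nat.cast_add, add_mul, Finset.sum_add_distrib]

theorem arr_sq (hS : Sym a θ) {d e : I → ℕ} (hd : thd θ d = 0) (he : thd θ e = 0) :
    arr a (d + e) (d + e) = arr a d d + 2 * arr a d e + arr a e e := by
  rw [arr_add_left, arr_add_right, arr_add_right, hS e d he hd]; ring

theorem par_smul (hS : Sym a θ) {d : I → ℕ} (hd : thd θ d = 0) (n : ℕ) :
    thd θ (n • d) = 0 ∧ ∃ x, 2 * x + n * arr a d d = arr a (n • d) (n • d) := by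
  induction n with
  | zero => exact ⟨by simp [thd], 0, by simp [arr]⟩
  | succ n ih =>
    obtain ⟨h1, x, hx⟩ := ih
    rw [succ_nsmul]
    refine ⟨by rw [thd_add, h1, hd, add_zero], x + arr a (n • d) d, ?_⟩
    rw [arr_sq a θ hS h1 hd, ← hx]; ring

end par

theorem s_par : S_PAR := by
  classical
  intro I Γ _ _ a θ dΓ hS hθ n
  suffices h : ∀ s : Finset Γ, thd θ (∑ γ ∈ s, n γ • dΓ γ) = 0 ∧ ∃ x,
      2 * x + ∑ γ ∈ s, n γ * arr a (dΓ γ) (dΓ γ)
        = arr a (∑ γ ∈ s, n γ • dΓ γ) (∑ γ ∈ s, n γ • dΓ γ) from (h univ).2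
  intro s
  induction s using Finset.induction_on with
  | empty => exact ⟨by simp [thd], 0, by simp [arr]⟩
  | insert γ s hγ ih =>
    obtain ⟨h1, x, hx⟩ := ih
    obtain ⟨h2, y, hy⟩ := par_smul a θ hS (hθ γ) (n γ)
    rw [sum_insert hγ, sum_insert hγ]
    refine ⟨by rw [thd_add, h1, h2, add_zero],
      x + y + arr a (n γ • dΓ γ) (∑ γ ∈ s, n γ • dΓ γ), ?_⟩
    rw [arr_sq a θ hS h2 h1, ← hx, ← hy]; ring

section glue
variable {Γ : Type} [Fintype Γ] [DecidableEq Γ]

/-- glue a family of multisets into one multiset of labelled numbers -/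
def glue (μ : Γ → Multiset ℕ) : Multiset (Γ × ℕ) := ∑ γ, (μ γ).map fun m => (γ, m)

theorem count_glue (μ : Γ → Multiset ℕ) (x : Γ × ℕ) : (glue μ).count x = (μ x.1).count x.2 := by
  obtain ⟨γ, m⟩ := x
  unfold glue
  rw [Multiset.count_sum', Finset.sum_eq_single γ]
  · exact Multiset.count_map_eq_count' _ _ (Prod.mk_right_injective γ) m
  · intro b _ hb
    refine Multiset.count_eq_zero_of_notMem fun h => hb ?_
    obtain ⟨_, _, h2⟩ := Multiset.mem_map.1 h
    exact congrArg Prod.fst h2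
  · intro h; exact absurd (mem_univ _) h

theorem glue_inj : Function.Injective (glue : (Γ → Multiset ℕ) → _) := by
  intro μ ν h
  funext γ
  ext m
  rw [← count_glue μ (γ, m), h, count_glue]

theorem glue_surj : Function.Surjective (glue : (Γ → Multiset ℕ) → _) := by
  intro M
  induction M using Multiset.induction_on with
  | empty => exact ⟨0, by simp [glue]⟩
  | cons x M ih =>
    obtain ⟨μ, rfl⟩ := ih
    refine ⟨μ + Pi.single x.1 {x.2}, ?_⟩
    ext y
    rw [count_glue, Multiset.count_cons, count_glue, Pi.add_apply, Multiset.count_add]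
    congr 1
    obtain ⟨γ, m⟩ := x
    obtain ⟨γ', m'⟩ := y
    by_cases h : γ' = γ
    · subst h; simp [Multiset.count_singleton]
    · simp [h]

omit [DecidableEq Γ] in
theorem sum_glue {A : Type} [AddCommMonoid A] (μ : Γ → Multiset ℕ) (F : Γ × ℕ → A) :
    ((glue μ).map F).sum = ∑ γ, ((μ γ).map fun m => F (γ, m)).sum := by
  unfold glue
  have h1 := map_sum (Multiset.mapAddMonoidHom F) (fun γ => (μ γ).map fun m => (γ, m)) univ
  simp only [Multiset.coe_mapAddMonoidHom] at h1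
  rw [h1]
  have h2 := map_sum (Multiset.sumAddMonoidHom : Multiset A →+ A)
    (fun γ => ((μ γ).map fun m => (γ, m)).map F) univ
  simp only [Multiset.coe_sumAddMonoidHom] at h2
  rw [h2]
  simp only [Multiset.map_map, Function.comp]

end glue

theorem s_gf : S_GF := by
  intro I Γ _ _ _ _ a θ dΓ dg hS hΓ d
  let P : (Γ → Multiset ℕ) → Prop := fun μ =>
    ∑ γ, (μ γ).card • dΓ γ = d ∧ ∀ γ, Odd (par a (dΓ γ)) → (μ γ).Nodup
  let x : (Γ → ℕ) → ℕ := fun n => (arr a d d - ∑ γ, n γ * arr a (dΓ γ) (dΓ γ)) / 2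
  let w : (Γ → Multiset ℕ) → ℕ := fun μ =>
    ∑ γ, (μ γ).sum + (x (fun γ => (μ γ).card) + ∑ γ, (μ γ).card * dg γ)
  have hG : ∀ μ, Good a dΓ d (glue μ) ↔ P μ := by
    intro μ
    unfold Good
    rw [sum_glue]
    simp only [Multiset.map_const', Multiset.sum_replicate, count_glue, P,
      Multiset.nodup_iff_count_le_one, Prod.forall]
    exact and_congr Iff.rfl ⟨fun h γ ho m => h γ m ho, fun h γ m ho => h γ ho m⟩
  have hD : ∀ μ k, P μ → (DegM a dΓ dg d (glue μ) k ↔ w μ = k) := by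
    intro μ k hμ
    unfold DegM
    rw [sum_glue, sum_glue]
    obtain ⟨y, hy⟩ := s_par I Γ a θ dΓ hS (fun γ => (hΓ γ).2) fun γ => (μ γ).card
    rw [hμ.1] at hy
    simp only [Multiset.map_const', Multiset.sum_replicate, sum_map_cadd, smul_eq_mul,
      Finset.sum_add_distrib, w, x]
    omega
  have hcard : ∀ μ, P μ → ∀ γ, (μ γ).card ≤ ∑ i, d i := by
    intro μ hμ γ
    obtain ⟨i, hi⟩ := Function.ne_iff.1 (hΓ γ).1
    have h1 : (μ γ).card * dΓ γ i ≤ d i := by
      rw [← hμ.1, Finset.sum_apply]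
      exact Finset.single_le_sum (f := fun γ => ((μ γ).card • dΓ γ) i)
        (fun _ _ => Nat.zero_le _) (mem_univ γ)
    have h2 : d i ≤ ∑ i, d i :=
      Finset.single_le_sum (f := d) (fun _ _ => Nat.zero_le _) (mem_univ i)
    have h3 : 0 < dΓ γ i := Nat.pos_of_ne_zero hi
    exact (Nat.le_mul_of_pos_right _ h3).trans (h1.trans h2)
  have h1 : (PowerSeries.mk fun k => (Nat.card {M : Multiset (Γ × ℕ) //
      Good a dΓ d M ∧ DegM a dΓ dg d M k} : ℚ)) = gf P w := by
    ext k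
    simp only [gf, PowerSeries.coeff_mk]
    congr 1
    have hb : Function.Bijective (glue : (Γ → Multiset ℕ) → _) := ⟨glue_inj, glue_surj⟩
    refine (Nat.card_congr (Equiv.subtypeEquiv (Equiv.ofBijective glue hb) fun μ => ?_)).symm
    change P μ ∧ w μ = k ↔ Good a dΓ d (glue μ) ∧ DegM a dΓ dg d (glue μ) k
    rw [hG]
    exact and_congr_right fun hμ => (hD μ k hμ).symm
  have hF : FF P w := by
    intro k
    refine (Set.Finite.pi' fun _ : Γ => fin_ms (∑ i, d i) k).subset fun μ hμ γ => ?_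
    refine ⟨hcard μ hμ.1 γ, ?_⟩
    have h2 : (μ γ).sum ≤ ∑ γ, (μ γ).sum :=
      Finset.single_le_sum (f := fun γ => (μ γ).sum) (fun _ _ => Nat.zero_le _) (mem_univ γ)
    have h3 := hμ.2
    simp only [w] at h3
    omega
  rw [h1, gf_fib P w hF (NN dΓ d) (fun μ γ => (μ γ).card) fun μ hμ => by
    simp only [NN, mem_filter, Fintype.mem_piFinset, mem_range]
    exact ⟨fun γ => Nat.lt_succ_of_le (hcard μ hμ γ), hμ.1⟩]
  unfold GS
  refine Finset.sum_congr rfl fun n hn => ?_
  have hn' : ∑ γ, n γ • dΓ γ = d := (mem_filter.1 hn).2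
  have h2 := gf_bij
    (fun μ : Γ → Multiset ℕ => ∀ γ, (μ γ).card = n γ ∧ (Odd (par a (dΓ γ)) → (μ γ).Nodup))
    (fun μ => P μ ∧ (fun γ => (μ γ).card) = n) (fun μ => ∑ γ, (μ γ).sum) w
    (x n + ∑ γ, n γ * dg γ) id
    (fun μ hμ => by
      have e : (fun γ => (μ γ).card) = n := funext fun γ => (hμ γ).1
      subst e
      exact ⟨⟨⟨hn', fun γ => (hμ γ).2⟩, rfl⟩, rfl⟩)
    (fun _ _ _ _ h => h)
    (fun μ hμ => ⟨μ, fun γ => ⟨congrFun hμ.2 γ, hμ.1.2 γ⟩, rfl⟩)
  have h3 := s_prod Γ n fun γ => Odd (par a (dΓ γ))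
  rw [h2, Finset.prod_mul_distrib, Finset.prod_pow_eq_pow_sum, ← h3, pow_add, mul_assoc]
  rfl

end GfA

theorem t_gf : T_GF := ⟨GfA.s_cb, GfA.s_prod, GfA.s_par, GfA.s_gf⟩

end Pool.Agent.P.MP_389f6f_co.Sp
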