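import Pool.Agent.P.MP_389f6f_co.SDefs

set_option autoImplicit false
set_option linter.unusedSectionVars false

namespace Pool.Agent.P.MP_389f6f_co.Sp
open MvPolynomial Finset

namespace HnA

/-- generating function of the valid labels -/
noncomputable def gf {A : Type} (v : A → Prop) (d : A → ℕ) : PowerSeries ℚ :=
  PowerSeries.mk fun k => (Nat.card {a // v a ∧ d a = k} : ℚ)

def Fn {A : Type} (v : A → Prop) (d : A → ℕ) : Prop := ∀ k, Finite {a // v a ∧ d a = k}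

def prodE {A A' : Type} (v : A → Prop) (d : A → ℕ) (v' : A' → Prop) (d' : A' → ℕ) (k : ℕ) :
    {x : A × A' // (v x.1 ∧ v' x.2) ∧ d x.1 + d' x.2 = k} ≃
      Σ p : antidiagonal k, {a // v a ∧ d a = p.1.1} × {a // v' a ∧ d' a = p.1.2} where
  toFun x := ⟨⟨(d x.1.1, d' x.1.2), mem_antidiagonal.2 x.2.2⟩, ⟨x.1.1, x.2.1.1, rfl⟩,
    ⟨x.1.2, x.2.1.2, rfl⟩⟩
  invFun y := ⟨(y.2.1.1, y.2.2.1), ⟨y.2.1.2.1, y.2.2.2.1⟩, by
    rw [y.2.1.2.2, y.2.2.2.2]; exact mem_antidiagonal.1 y.1.2⟩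
  left_inv x := rfl
  right_inv y := by
    obtain ⟨⟨⟨i, j⟩, hp⟩, ⟨a, ha, h1⟩, ⟨a', ha', h2⟩⟩ := y
    dsimp only at h1 h2
    subst h1 h2
    rfl

theorem fn_prod {A A' : Type} {v : A → Prop} {d : A → ℕ} {v' : A' → Prop} {d' : A' → ℕ}
    (h : Fn v d) (h' : Fn v' d') :
    Fn (fun x : A × A' => v x.1 ∧ v' x.2) fun x => d x.1 + d' x.2 := by
  intro k
  unfold Fn at *
  exact Finite.of_equiv _ (prodE v d v' d' k).symm

theorem gf_prod {A A' : Type} {v : A → Prop} {d : A → ℕ} {v' : A' → Prop} {d' : A' → ℕ}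
    (h : Fn v d) (h' : Fn v' d') :
    gf (fun x : A × A' => v x.1 ∧ v' x.2) (fun x => d x.1 + d' x.2) = gf v d * gf v' d' := by
  ext k
  unfold Fn at *
  rw [PowerSeries.coeff_mul]
  simp only [gf, PowerSeries.coeff_mk]
  rw [Nat.card_congr (prodE v d v' d' k), Nat.card_sigma]
  simp only [Nat.card_prod]
  push_cast
  exact sum_coe_sort (antidiagonal k) fun p => ((Nat.card {a // v a ∧ d a = p.1} : ℚ) *
    (Nat.card {a // v' a ∧ d' a = p.2} : ℚ))

theorem fn_shift {A : Type} {v : A → Prop} {d : A → ℕ} (h : Fn v d) (r : ℕ) :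
    Fn v fun a => r + d a := by
  intro k
  have := h (k - r)
  refine Finite.of_injective (fun x : {a // v a ∧ r + d a = k} =>
    (⟨x.1, x.2.1, by have := x.2.2; omega⟩ : {a // v a ∧ d a = k - r})) ?_
  intro x y e
  exact Subtype.ext (by simpa using e)

theorem gf_shift {A : Type} (v : A → Prop) (d : A → ℕ) (r : ℕ) :
    gf v (fun a => r + d a) = PowerSeries.X ^ r * gf v d := by
  ext k
  rw [PowerSeries.coeff_X_pow_mul']
  simp only [gf, PowerSeries.coeff_mk]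
  split_ifs with h
  · congr 1
    exact Nat.card_congr (Equiv.subtypeEquivRight fun a => by
      constructor <;> rintro ⟨h1, h2⟩ <;> exact ⟨h1, by omega⟩)
  · have : IsEmpty {a // v a ∧ r + d a = k} := ⟨fun x => by have := x.2.2; omega⟩
    simp

def sumE {P A : Type} (s : Finset P) (v : P → A → Prop) (d : P → A → ℕ) (k : ℕ) :
    {x : P × A // (x.1 ∈ s ∧ v x.1 x.2) ∧ d x.1 x.2 = k} ≃
      Σ p : s, {a // v p.1 a ∧ d p.1 a = k} where
  toFun x := ⟨⟨x.1.1, x.2.1.1⟩, ⟨x.1.2, x.2.1.2, x.2.2⟩⟩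
  invFun y := ⟨(y.1.1, y.2.1), ⟨y.1.2, y.2.2.1⟩, y.2.2.2⟩
  left_inv _ := rfl
  right_inv _ := rfl

theorem fn_sum {P A : Type} (s : Finset P) {v : P → A → Prop} {d : P → A → ℕ}
    (h : ∀ p, Fn (v p) (d p)) :
    Fn (fun x : P × A => x.1 ∈ s ∧ v x.1 x.2) fun x => d x.1 x.2 := by
  intro k
  have := fun p : s => h p.1 k
  exact Finite.of_equiv _ (sumE s v d k).symm

theorem gf_sum {P A : Type} (s : Finset P) {v : P → A → Prop} {d : P → A → ℕ}
    (h : ∀ p, Fn (v p) (d p)) :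
    gf (fun x : P × A => x.1 ∈ s ∧ v x.1 x.2) (fun x => d x.1 x.2) = ∑ p ∈ s, gf (v p) (d p) := by
  ext k
  have := fun p : s => h p.1 k
  simp only [gf, map_sum, PowerSeries.coeff_mk]
  rw [Nat.card_congr (sumE s v d k), Nat.card_sigma]
  push_cast
  exact sum_coe_sort s fun p => (Nat.card {a // v p a ∧ d p a = k} : ℚ)

theorem fn_if {A : Type} (q : Prop) {v : A → Prop} {d : A → ℕ} (h : Fn v d) :
    Fn (fun a => q ∧ v a) d := by
  intro k
  have := h k
  refine Finite.of_injective (fun x : {a // (q ∧ v a) ∧ d a = k} =>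
    (⟨x.1, x.2.1.2, x.2.2⟩ : {a // v a ∧ d a = k})) ?_
  intro x y e
  exact Subtype.ext (by simpa using e)

theorem gf_if {A : Type} (q : Prop) [Decidable q] (v : A → Prop) (d : A → ℕ) :
    gf (fun a => q ∧ v a) d = if q then gf v d else 0 := by
  split_ifs with h
  · simp only [h, true_and]
  · ext k
    simp [gf, h]

def tri (L : Type) : (Fin 3 → L) ≃ L × L × L where
  toFun γ := (γ 0, γ 1, γ 2)
  invFun x := ![x.1, x.2.1, x.2.2]
  left_inv γ := by funext i; fin_cases i <;> rfl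
  right_inv _ := rfl

theorem gf_tri {L : Type} (v : Fin 3 → L → Prop) (d : L → ℕ) (h : ∀ c, Fn (v c) d) :
    Fn (fun γ : Fin 3 → L => ∀ c, v c (γ c)) (fun γ => ∑ c, d (γ c)) ∧
    gf (fun γ : Fin 3 → L => ∀ c, v c (γ c)) (fun γ => ∑ c, d (γ c)) =
      gf (v 0) d * gf (v 1) d * gf (v 2) d := by
  have e : ∀ k, {γ : Fin 3 → L // (∀ c, v c (γ c)) ∧ ∑ c, d (γ c) = k} ≃
      {x : L × L × L // (v 0 x.1 ∧ (v 1 x.2.1 ∧ v 2 x.2.2)) ∧
        d x.1 + (d x.2.1 + d x.2.2) = k} := fun k =>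
    Equiv.subtypeEquiv (tri L) fun γ => by
      simp only [tri, Equiv.coe_fn_mk, Fin.forall_fin_succ, Fin.sum_univ_three, add_assoc]
      simp
  refine ⟨fun k => ?_, ?_⟩
  · have := fn_prod (h 0) (fn_prod (h 1) (h 2)) k
    exact Finite.of_equiv _ (e k).symm
  · rw [mul_assoc, ← gf_prod (h 1) (h 2), ← gf_prod (h 0) (fn_prod (h 1) (h 2))]
    ext k
    simp only [gf, PowerSeries.coeff_mk]
    rw [Nat.card_congr (e k)]

variable {Ω I : Type} [Fintype Ω] [DecidableEq Ω] [Fintype I] [DecidableEq I]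

theorem gb_gf (hG : S_GB Ω) {V : Submodule ℚ (RR Ω)} {J : Ideal (RR Ω)} {Γ : Type}
    {val : Γ → Prop} {b : Γ → RR Ω} {dg : Γ → ℕ} (hJ : HomI J) (h : GB V J val b dg) :
    Fn val dg ∧ gf val dg = HH V J := by
  refine ⟨fun k => (hG.1 V J Γ val b dg hJ h k).1, ?_⟩
  ext k
  simp only [gf, HH, PowerSeries.coeff_mk, (hG.1 V J Γ val b dg hJ h k).2]

theorem gb_glob (hG : S_GB Ω) {K : Type} (V : K → Submodule ℚ (RR Ω)) (J : K → Ideal (RR Ω))
    (hJ : ∀ k, HomI (J k)) (hV : ∀ k, HomV (V k)) :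
    ∃ (L : Type) (val : K → L → Prop) (b : L → RR Ω) (dg : L → ℕ),
      ∀ k, GB (V k) (J k) (val k) b dg := by
  classical
  choose G b dg h using fun k => hG.2 (V k) (J k) (hJ k) (hV k)
  refine ⟨Σ k, G k, fun k x => x.1 = k, fun x => b x.1 x.2, fun x => dg x.1 x.2, fun k => ?_⟩
  constructor
  · rintro ⟨k', x⟩ rfl
    exact (h k').mem x trivial
  · rintro ⟨k', x⟩ rfl
    exact (h k').hom x trivial
  · intro c hc hl
    have e : Finsupp.mapDomain (Sigma.mk k)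
        (Finsupp.comapDomain (Sigma.mk k) c sigma_mk_injective.injOn) = c := by
      refine Finsupp.mapDomain_comapDomain _ sigma_mk_injective c ?_
      rintro ⟨k', x⟩ hx
      obtain rfl : k' = k := hc _ hx
      exact ⟨x, rfl⟩
    rw [← e, Finsupp.linearCombination_mapDomain] at hl
    have := (h k).ind _ (fun _ _ => trivial) hl
    rw [← e, this, Finsupp.mapDomain_zero]
  · intro f hf
    obtain ⟨g, hg, hfg⟩ := (h k).spn f hf
    refine ⟨g, Submodule.span_mono ?_ hg, hfg⟩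
    rintro _ ⟨x, -, rfl⟩
    exact ⟨⟨k, x⟩, rfl, rfl⟩

theorem ren_fix {S : Set Ω} {g : Ω → Ω} (hg : ∀ s ∈ S, g s = s) {f : RR Ω}
    (hf : f ∈ supported ℚ S) : rename g f = f := by
  have : supported ℚ S ≤ AlgHom.equalizer (rename g : RR Ω →ₐ[ℚ] RR Ω) (AlgHom.id ℚ _) := by
    rw [supported_eq_adjoin_X]
    refine Algebra.adjoin_le ?_
    rintro _ ⟨s, hs, rfl⟩
    simp [hg s hs]
  exact this hf

theorem ren_supp {S T : Set Ω} {g : Ω → Ω} (hg : ∀ s ∈ S, g s ∈ T) {f : RR Ω}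
    (hf : f ∈ supported ℚ S) : rename g f ∈ supported ℚ T := by
  have : supported ℚ S ≤ (supported ℚ T).comap (rename g : RR Ω →ₐ[ℚ] RR Ω) := by
    rw [supported_eq_adjoin_X]
    refine Algebra.adjoin_le ?_
    rintro _ ⟨s, hs, rfl⟩
    simp [hg s hs]
  exact this hf

/-- the retraction killing the variables off `B` -/
noncomputable def ret (B : Finset Ω) : RR Ω →ₐ[ℚ] RR Ω :=
  aeval fun s => if s ∈ B then X s else 0

theorem ret_fix {B : Finset Ω} {f : RR Ω} (hf : f ∈ supported ℚ (B : Set Ω)) : ret B f = f := by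
  have : supported ℚ (B : Set Ω) ≤ AlgHom.equalizer (ret B) (AlgHom.id ℚ _) := by
    rw [supported_eq_adjoin_X]
    refine Algebra.adjoin_le ?_
    rintro _ ⟨s, hs, rfl⟩
    have hs' : s ∈ B := hs
    simp [ret, hs']
  exact this hf

theorem ret_supp (B : Finset Ω) (f : RR Ω) : ret B f ∈ supported ℚ (B : Set Ω) := by
  induction f using MvPolynomial.induction_on with
  | C a => rw [ret, aeval_C]; exact Subalgebra.algebraMap_mem _ a
  | add p q hp hq => rw [map_add]; exact Subalgebra.add_mem _ hp hq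
  | mul_X p s hp =>
    rw [map_mul]
    refine Subalgebra.mul_mem _ hp ?_
    rw [ret, aeval_X]
    split_ifs with h
    · exact X_mem_supported.2 h
    · exact Subalgebra.zero_mem _

variable (Z : Qv Ω I)

noncomputable def ph (p : Ω × Ω) : RR Ω := (X p.2 - X p.1) ^ Z.a (Z.ty p.1) (Z.ty p.2)

theorem ee_eq (A C : Finset Ω) : Z.ee A C = ∏ p ∈ A ×ˢ C, ph Z p := by
  rw [prod_product]; rfl

theorem ek_eq (B : Finset Ω) (κ : Ω → ℕ) :
    Z.ek B κ = ∏ p ∈ (B ×ˢ B).filter (fun p => κ p.1 < κ p.2), ph Z p := by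
  rw [prod_filter, prod_product]; rfl

theorem ek_congr {B : Finset Ω} {κ κ' : Ω → ℕ} (h : ∀ s ∈ B, κ s = κ' s) :
    Z.ek B κ = Z.ek B κ' := by
  unfold Qv.ek
  refine prod_congr rfl fun s hs => prod_congr rfl fun s' hs' => ?_
  rw [h s hs, h s' hs']

theorem fib_congr {B : Finset Ω} {κ κ' : Ω → ℕ} (h : ∀ s ∈ B, κ s = κ' s) (c : ℕ) :
    fib B κ c = fib B κ' c := filter_congr fun s hs => by rw [h s hs]

theorem ek_dvd {B A C : Finset Ω} {κ κ' : Ω → ℕ}
    (h : ∀ s ∈ B, ∀ s' ∈ B, κ' s < κ' s' → κ s < κ s' ∨ (s ∈ A ∧ s' ∈ C)) :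
    Z.ek B κ' ∣ Z.ek B κ * Z.ee A C := by
  rw [ek_eq, ek_eq, ee_eq, ← prod_union_inter]
  refine Dvd.dvd.mul_right (prod_dvd_prod_of_subset _ _ _ ?_) _
  rintro ⟨s, s'⟩ hp
  simp only [mem_filter, mem_product, mem_union] at hp ⊢
  rcases h s hp.1.1 s' hp.1.2 hp.2 with h1 | h1
  · exact Or.inl ⟨hp.1, h1⟩
  · exact Or.inr h1

theorem ee_dvd_ek {B A C : Finset Ω} {κ : Ω → ℕ} (hA : A ⊆ B) (hC : C ⊆ B)
    (h : ∀ s ∈ A, ∀ s' ∈ C, κ s < κ s') : Z.ee A C ∣ Z.ek B κ := by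
  rw [ek_eq, ee_eq]
  refine prod_dvd_prod_of_subset _ _ _ ?_
  rintro ⟨s, s'⟩ hp
  simp only [mem_filter, mem_product] at hp ⊢
  exact ⟨⟨hA hp.1, hC hp.2⟩, h s hp.1 s' hp.2⟩

noncomputable def JJ (c : Fin 3) (C : Finset Ω) : Ideal (RR Ω) := ![Z.JT C, Z.JS C, Z.JF C] c

noncomputable def Jx (B : Finset Ω) (κ : Ω → ℕ) : Ideal (RR Ω) :=
  ⨆ c ∈ (univ : Finset (Fin 3)), JJ Z c (fib B κ c)

def Tr (B : Finset Ω) (κ : Ω → ℕ) : Prop := (∀ s ∈ B, κ s < 3) ∧ Z.th (fib B κ 1) = 0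

def klt (x y : Finset Ω × Finset Ω) : Prop :=
  Z.th x.1 < Z.th y.1 ∨ (Z.th x.1 = Z.th y.1 ∧
    (y.1.card < x.1.card ∨ (y.1.card = x.1.card ∧ x.2.card < y.2.card)))

def key (B : Finset Ω) (κ : Ω → ℕ) : Finset Ω × Finset Ω := (fib B κ 0, fib B κ 1)

theorem klt_trans {x y z : Finset Ω × Finset Ω} (h : klt Z x y) (h' : klt Z y z) :
    klt Z x z := by
  unfold klt at *
  rcases h with h | ⟨h, h2⟩ <;> rcases h' with h' | ⟨h', h2'⟩
  · exact Or.inl (h.trans h')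
  · exact Or.inl (h' ▸ h)
  · exact Or.inl (h ▸ h')
  · exact Or.inr ⟨h.trans h', by omega⟩

theorem klt_irrefl (x : Finset Ω × Finset Ω) : ¬ klt Z x x := by
  unfold klt
  simp

theorem wf1 : WellFounded (klt Z) :=
  haveI : IsTrans _ (klt Z) := ⟨fun _ _ _ => klt_trans Z⟩
  haveI : Std.Irrefl (klt Z) := ⟨klt_irrefl Z⟩
  Finite.wellFounded_of_trans_of_irrefl _

theorem wf2 : WellFounded fun x y => klt Z y x :=
  haveI : IsTrans _ fun x y => klt Z y x := ⟨fun _ _ _ h h' => klt_trans Z h' h⟩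
  haveI : Std.Irrefl fun x y => klt Z y x := ⟨klt_irrefl Z⟩
  Finite.wellFounded_of_trans_of_irrefl _

theorem Jx_le {B : Finset Ω} {κ : Ω → ℕ} {W : Ideal (RR Ω)}
    (h0 : ∀ A ⊆ fib B κ 0, A ≠ fib B κ 0 → Z.th (fib B κ 0 \ A) ≤ 0 →
      Z.ee A (fib B κ 0 \ A) ∈ W)
    (h1 : ∀ A ⊆ fib B κ 1, 0 < Z.th A → Z.ee A (fib B κ 1 \ A) ∈ W)
    (h2 : ∀ A ⊆ fib B κ 2, A ≠ ∅ → 0 ≤ Z.th A → Z.ee A (fib B κ 2 \ A) ∈ W) :
    Jx Z B κ ≤ W := by
  refine iSup₂_le fun c _ => ?_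
  fin_cases c
  · refine Ideal.span_le.2 ?_
    rintro _ ⟨A, a1, a2, a3, rfl⟩
    exact h0 A a1 a2 a3
  · refine Ideal.span_le.2 ?_
    rintro _ ⟨A, a1, a2, rfl⟩
    exact h1 A a1 a2
  · refine Ideal.span_le.2 ?_
    rintro _ ⟨A, a1, a2, a3, rfl⟩
    exact h2 A a1 a2 a3

theorem le_Jx (B : Finset Ω) (κ : Ω → ℕ) (c : Fin 3) : JJ Z c (fib B κ c) ≤ Jx Z B κ :=
  le_iSup₂_of_le (f := fun (c : Fin 3) (_ : c ∈ (univ : Finset (Fin 3))) => JJ Z c (fib B κ c))
    c (mem_univ c) le_rfl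

theorem mem_fib {B : Finset Ω} {κ : Ω → ℕ} {c : ℕ} {s : Ω} : s ∈ fib B κ c ↔ s ∈ B ∧ κ s = c :=
  mem_filter

theorem th_union {A C : Finset Ω} (h : Disjoint A C) : Z.th (A ∪ C) = Z.th A + Z.th C :=
  sum_union h

theorem th_sdiff {A C : Finset Ω} (h : A ⊆ C) : Z.th (C \ A) + Z.th A = Z.th C := sum_sdiff h

/-- step A of the plan -/
theorem stepA {B : Finset Ω} {κ : Ω → ℕ} (hκ : Tr Z B κ) {W : Ideal (RR Ω)}
    (h : ∀ A C κ', A ⊆ B → C ⊆ B → Tr Z B κ' → klt Z (key B κ) (key B κ') →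
      Z.ek B κ' ∣ Z.ek B κ * Z.ee A C → Z.ee A C ∈ W) : Jx Z B κ ≤ W := by
  have hs : ∀ c, fib B κ c ⊆ B := fun c => filter_subset _ _
  have two : ∀ A' ⊆ B, Tr Z B (fun s => if s ∈ A' then 0 else 2) ∧
      key B (fun s => if s ∈ A' then 0 else 2) = (A', ∅) := by
    intro A' hA'
    have e1 : fib B (fun s => if s ∈ A' then 0 else 2) 1 = ∅ := by
      ext s; simp only [mem_fib]; split_ifs <;> simp
    refine ⟨⟨fun s _ => by dsimp only; split_ifs <;> omega, by rw [e1]; rfl⟩, ?_⟩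
    rw [key, e1]
    congr 1
    ext s; simp only [mem_fib]; split_ifs with h
    · simp [h, hA' h]
    · simp [h]
  refine Jx_le Z ?_ ?_ ?_
  · intro A a1 a2 a3
    obtain ⟨t1, t2⟩ := two A (a1.trans (hs 0))
    refine h _ _ _ (a1.trans (hs 0)) (sdiff_subset.trans (hs 0)) t1 ?_ (ek_dvd Z ?_)
    · rw [t2]
      have := th_sdiff Z a1
      have hc := card_lt_card (Finset.ssubset_iff_subset_ne.2 ⟨a1, a2⟩)
      rcases a3.lt_or_eq with a3 | a3
      · exact Or.inl (by simp only [key]; linarith)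
      · exact Or.inr ⟨by simp only [key]; linarith, Or.inl hc⟩
    · intro s hs s' hs' hl
      have := @a1 s
      simp only [mem_sdiff, mem_fib] at *
      by_cases e : s ∈ A <;> by_cases e' : s' ∈ A <;> simp_all
      omega
  · intro A a1 a2
    have hd : Disjoint (fib B κ 0) A := by
      rw [disjoint_left]; intro s h0 h1
      have := mem_fib.1 (a1 h1); have := mem_fib.1 h0; omega
    obtain ⟨t1, t2⟩ := two (fib B κ 0 ∪ A) (union_subset (hs 0) (a1.trans (hs 1)))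
    refine h _ _ _ (a1.trans (hs 1)) (sdiff_subset.trans (hs 1)) t1 ?_ (ek_dvd Z ?_)
    · rw [t2]
      exact Or.inl (by simp only [key]; rw [th_union Z hd]; linarith)
    · intro s hs s' hs' hl
      have := @a1 s
      simp only [mem_sdiff, mem_fib, mem_union] at *
      by_cases e : s ∈ A <;> by_cases e' : s' ∈ A <;> by_cases f : κ s = 0 <;>
        by_cases f' : κ s' = 0 <;> simp_all <;> omega
  · intro A a1 a2 a3
    have hd : Disjoint (fib B κ 1) A := by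
      rw [disjoint_left]; intro s h0 h1
      have := mem_fib.1 (a1 h1); have := mem_fib.1 h0; omega
    rcases a3.lt_or_eq with a3 | a3
    · have hd' : Disjoint (fib B κ 0) (fib B κ 1 ∪ A) := by
        rw [disjoint_left]; intro s h0 h1
        have := mem_fib.1 h0
        rcases mem_union.1 h1 with h1 | h1
        · have := mem_fib.1 h1; omega
        · have := mem_fib.1 (a1 h1); omega
      obtain ⟨t1, t2⟩ := two (fib B κ 0 ∪ (fib B κ 1 ∪ A))
        (union_subset (hs 0) (union_subset (hs 1) (a1.trans (hs 2))))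
      refine h _ _ _ (a1.trans (hs 2)) (sdiff_subset.trans (hs 2)) t1 ?_ (ek_dvd Z ?_)
      · rw [t2]
        exact Or.inl (by simp only [key]; rw [th_union Z hd', th_union Z hd, hκ.2]; linarith)
      · intro s hs s' hs' hl
        have := @a1 s
        have := hκ.1 s hs
        have := hκ.1 s' hs'
        simp only [mem_sdiff, mem_fib, mem_union] at *
        by_cases e : s ∈ A <;> by_cases e' : s' ∈ A <;> by_cases f : κ s = 0 <;>
          by_cases f' : κ s' = 0 <;> by_cases g : κ s = 1 <;>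
          by_cases g' : κ s' = 1 <;> simp_all <;> omega
    · have e0 : fib B (fun s => if s ∈ A then 1 else κ s) 0 = fib B κ 0 := by
        ext s
        have := @a1 s
        simp only [mem_fib] at *
        by_cases e : s ∈ A <;> simp_all
      have e1 : fib B (fun s => if s ∈ A then 1 else κ s) 1 = fib B κ 1 ∪ A := by
        ext s
        have := @a1 s
        simp only [mem_fib, mem_union] at *
        by_cases e : s ∈ A <;> simp_all
      refine h _ _ (fun s => if s ∈ A then 1 else κ s) (a1.trans (hs 2))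
        (sdiff_subset.trans (hs 2)) ⟨fun s hs => ?_, ?_⟩ ?_ (ek_dvd Z ?_)
      · have := hκ.1 s hs
        dsimp only
        split_ifs <;> omega
      · rw [e1, th_union Z hd, hκ.2, ← a3, add_zero]
      · refine Or.inr ⟨by simp only [key, e0], Or.inr ⟨by simp only [key, e0], ?_⟩⟩
        simp only [key, e1, card_union_of_disjoint hd]
        have := card_pos.2 (nonempty_iff_ne_empty.2 a2)
        omega
      · intro s hs s' hs' hl
        have := @a1 s
        have := @a1 s'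
        have := hκ.1 s hs
        have := hκ.1 s' hs'
        simp only [mem_sdiff, mem_fib] at *
        by_cases e : s ∈ A <;> by_cases e' : s' ∈ A <;> simp_all
        omega

theorem th_split {B : Finset Ω} {κ : Ω → ℕ} (hκ : ∀ s ∈ B, κ s < 3) {A : Finset Ω} (hA : A ⊆ B) :
    Z.th A = Z.th (A ∩ fib B κ 0) + Z.th (A ∩ fib B κ 1) + Z.th (A ∩ fib B κ 2) := by
  have e : ∀ c, Z.th (A ∩ fib B κ c) = ∑ s ∈ A, if κ s = c then Z.θ (Z.ty s) else 0 := by
    intro c
    rw [← sum_filter]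
    refine sum_congr ?_ fun _ _ => rfl
    ext s
    simp only [mem_inter, mem_fib, mem_filter]
    exact ⟨fun h => ⟨h.1, h.2.2⟩, fun h => ⟨h.1, hA h.1, h.2⟩⟩
  rw [e, e, e, ← sum_add_distrib, ← sum_add_distrib]
  refine sum_congr rfl fun s hs => ?_
  have := hκ s (hA hs)
  generalize κ s = n at this
  interval_cases n <;> simp

theorem stepC0 {B : Finset Ω} {κ κ' : Ω → ℕ} (hκ : Tr Z B κ) (hn : Z.ek B κ' ∉ Jx Z B κ)
    {A : Finset Ω} (hA : A ⊆ B) (hl : ∀ s ∈ A, ∀ s' ∈ B, s' ∉ A → κ' s < κ' s')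
    (ht : Z.th (fib B κ 0) ≤ Z.th A) :
    Z.th A = Z.th (fib B κ 0) ∧ fib B κ 0 ⊆ A ∧ A ∩ fib B κ 2 = ∅ := by
  have hs : ∀ c, fib B κ c ⊆ B := fun c => filter_subset _ _
  have hd : ∀ c : Fin 3, Z.ee (A ∩ fib B κ c) (fib B κ c \ (A ∩ fib B κ c)) ∉
      JJ Z c (fib B κ c) := by
    intro c hc
    refine hn (Ideal.mem_of_dvd _ (ee_dvd_ek Z (inter_subset_left.trans hA)
      (sdiff_subset.trans (hs c)) ?_) (le_Jx Z B κ c hc))
    intro s h1 s' h2
    rw [mem_sdiff, mem_inter] at h2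
    exact hl s (mem_inter.1 h1).1 s' (hs c h2.1) fun h => h2.2 ⟨h, h2.1⟩
  have h0 : A ∩ fib B κ 0 = fib B κ 0 ∨ 0 < Z.th (fib B κ 0 \ (A ∩ fib B κ 0)) := by
    by_contra hc
    push Not at hc
    exact hd 0 (Ideal.subset_span ⟨_, inter_subset_right, hc.1, hc.2, rfl⟩)
  have h1 : Z.th (A ∩ fib B κ 1) ≤ 0 := by
    by_contra hc
    push Not at hc
    exact hd 1 (Ideal.subset_span ⟨_, inter_subset_right, hc, rfl⟩)
  have h2 : A ∩ fib B κ 2 = ∅ ∨ Z.th (A ∩ fib B κ 2) < 0 := by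
    by_contra hc
    push Not at hc
    exact hd 2 (Ideal.subset_span ⟨_, inter_subset_right, nonempty_iff_ne_empty.1 hc.1, hc.2, rfl⟩)
  have e := th_split Z hκ.1 hA
  have e0 := th_sdiff Z (inter_subset_right : A ∩ fib B κ 0 ⊆ fib B κ 0)
  have z : Z.th ∅ = 0 := rfl
  have g2 : Z.th (A ∩ fib B κ 2) ≤ 0 := by
    rcases h2 with h2 | h2
    · rw [h2, z]
    · exact h2.le
  rcases h0 with h0 | h0
  · rw [h0] at e
    refine ⟨by linarith, by rw [← h0]; exact inter_subset_left, ?_⟩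
    rcases h2 with h2 | h2
    · exact h2
    · linarith
  · linarith

/-- step C1 of the plan -/
theorem stepC {B : Finset Ω} {κ κ' : Ω → ℕ} (hκ : Tr Z B κ) (hκ' : Tr Z B κ')
    (hn : Z.ek B κ' ∉ Jx Z B κ) (hk : ¬ klt Z (key B κ') (key B κ)) : ∀ s ∈ B, κ' s = κ s := by
  have hs : ∀ c, fib B κ' c ⊆ B := fun c => filter_subset _ _
  simp only [klt, key, not_or, not_and, not_lt] at hk
  obtain ⟨a1, a2, -⟩ := stepC0 Z hκ hn (hs 0) (fun s h1 s' h2 h3 => by
    rw [mem_fib] at h1 h3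
    have : κ' s' ≠ 0 := fun h => h3 ⟨h2, h⟩
    omega) hk.1
  have hd : Disjoint (fib B κ' 0) (fib B κ' 1) := by
    rw [disjoint_left]; intro s h0 h1
    have := mem_fib.1 h1; have := mem_fib.1 h0; omega
  obtain ⟨-, -, b3⟩ := stepC0 Z hκ hn (union_subset (hs 0) (hs 1)) (fun s h1 s' h2 h3 => by
    simp only [mem_union, mem_fib, not_or] at h1 h3
    have : κ' s' ≠ 0 := fun h => h3.1 ⟨h2, h⟩
    have : κ' s' ≠ 1 := fun h => h3.2 ⟨h2, h⟩
    omega) (by rw [th_union Z hd, hκ'.2, add_zero]; exact hk.1)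
  obtain ⟨c1, c2⟩ := hk.2 a1
  have e0 : fib B κ 0 = fib B κ' 0 := eq_of_subset_of_card_le a2 c1
  have s1 : fib B κ' 1 ⊆ fib B κ 1 := by
    intro s h1
    have h2 : s ∉ fib B κ 0 := by rw [e0]; exact fun h => disjoint_left.1 hd h h1
    have h3 : s ∉ fib B κ 2 := fun h => by
      have : s ∈ (fib B κ' 0 ∪ fib B κ' 1) ∩ fib B κ 2 := mem_inter.2 ⟨mem_union_right _ h1, h⟩
      rw [b3] at this
      exact notMem_empty _ this
    have hB := hs 1 h1
    have := hκ.1 s hB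
    simp only [mem_fib, hB, true_and] at h2 h3 ⊢
    omega
  have e1 : fib B κ' 1 = fib B κ 1 := eq_of_subset_of_card_le s1 (c2 (by rw [e0]))
  intro s hB
  have f0 : s ∈ fib B κ 0 ↔ s ∈ fib B κ' 0 := by rw [e0]
  have f1 : s ∈ fib B κ 1 ↔ s ∈ fib B κ' 1 := by rw [e1]
  have := hκ.1 s hB
  have := hκ'.1 s hB
  simp only [mem_fib, hB, true_and] at f0 f1
  omega

theorem reg_lin {A : Type} [CommRing A] [Algebra ℚ A] (b : A) {q : ℚ} (hq : q ≠ 0) :
    IsRegular (Polynomial.C b + Polynomial.C (algebraMap ℚ A q) * Polynomial.X) := by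
  have e : Polynomial.C b + Polynomial.C (algebraMap ℚ A q) * Polynomial.X =
      Polynomial.C (algebraMap ℚ A q) *
        (Polynomial.X + Polynomial.C (algebraMap ℚ A q⁻¹ * b)) := by
    rw [mul_add, ← map_mul, ← mul_assoc, ← map_mul, mul_inv_cancel₀ hq, map_one, one_mul,
      add_comm]
  rw [e]
  refine IsRegular.mul ?_ (Polynomial.monic_X_add_C _).isRegular
  exact (((Ne.isUnit hq).map (algebraMap ℚ A)).map Polynomial.C).isRegular

/-- step AB of the plan -/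
theorem stepB {B : Finset Ω} {κ : Ω → ℕ} {r : RR Ω} (h : Z.ek B κ * r ∈ Jx Z B κ) :
    r ∈ Jx Z B κ := by
  set J := Jx Z B κ with hJ
  let τ : RR Ω →ₐ[ℚ] Polynomial (RR Ω ⧸ J) := aeval fun s =>
    Polynomial.C (Ideal.Quotient.mk J (X s)) +
      Polynomial.C (algebraMap ℚ (RR Ω ⧸ J) (κ s)) * Polynomial.X
  have hd : ∀ s s', τ (X s' - X s) = Polynomial.C (Ideal.Quotient.mk J (X s' - X s)) +
      Polynomial.C (algebraMap ℚ (RR Ω ⧸ J) (κ s' - κ s)) * Polynomial.X := by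
    intro s s'
    simp only [τ, map_sub, aeval_X]
    ring
  have hee : ∀ (c : Fin 3) A C, A ⊆ fib B κ c → C ⊆ fib B κ c → Z.ee A C ∈ JJ Z c (fib B κ c) →
      Z.ee A C ∈ RingHom.ker τ := by
    intro c A C hA hC hm
    have : τ (Z.ee A C) = Polynomial.C (Ideal.Quotient.mk J (Z.ee A C)) := by
      simp only [Qv.ee, map_prod, map_pow]
      refine prod_congr rfl fun s hs => prod_congr rfl fun s' hs' => ?_
      rw [hd, (mem_fib.1 (hA hs)).2, (mem_fib.1 (hC hs')).2, sub_self, map_zero, map_zero,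
        zero_mul, add_zero]
    rw [RingHom.mem_ker, this, Ideal.Quotient.eq_zero_iff_mem.2 (le_Jx Z B κ c hm), map_zero]
  have hk : J ≤ RingHom.ker τ := by
    refine Jx_le Z ?_ ?_ ?_
    · intro A a1 a2 a3
      exact hee 0 _ _ a1 sdiff_subset (Ideal.subset_span ⟨A, a1, a2, a3, rfl⟩)
    · intro A a1 a2
      exact hee 1 _ _ a1 sdiff_subset (Ideal.subset_span ⟨A, a1, a2, rfl⟩)
    · intro A a1 a2 a3
      exact hee 2 _ _ a1 sdiff_subset (Ideal.subset_span ⟨A, a1, a2, a3, rfl⟩)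
  have hreg : IsRegular (τ (Z.ek B κ)) := by
    rw [ek_eq, map_prod]
    refine Finset.prod_induction _ IsRegular (fun _ _ => IsRegular.mul) isRegular_one ?_
    intro p hp
    rw [ph, map_pow, hd]
    refine IsRegular.pow _ (reg_lin _ ?_)
    have := (mem_filter.1 hp).2
    have : (κ p.1 : ℚ) < κ p.2 := by exact_mod_cast this
    linarith [this.ne]
  have h0 : τ r = 0 := by
    have := hk h
    rw [RingHom.mem_ker, map_mul] at this
    exact hreg.left (by simpa using this)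
  have he : ((Polynomial.evalRingHom 0).comp τ.toRingHom : RR Ω →+* RR Ω ⧸ J) =
      Ideal.Quotient.mk J := by
    refine MvPolynomial.ringHom_ext (fun q => ?_) fun s => ?_
    · have : τ (C q) = Polynomial.C (algebraMap ℚ (RR Ω ⧸ J) q) := aeval_C _ q
      simp only [RingHom.comp_apply, AlgHom.toRingHom_eq_coe, RingHom.coe_coe, this,
        Polynomial.coe_evalRingHom, Polynomial.eval_C]
      rfl
    · simp only [RingHom.comp_apply, AlgHom.toRingHom_eq_coe, RingHom.coe_coe, τ, aeval_X,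
        Polynomial.coe_evalRingHom, Polynomial.eval_add, Polynomial.eval_C, Polynomial.eval_mul,
        Polynomial.eval_X, mul_zero, add_zero]
  have := congrArg (fun φ => φ r) he
  simp only [RingHom.comp_apply, AlgHom.toRingHom_eq_coe, RingHom.coe_coe, h0, map_zero] at this
  exact Ideal.Quotient.eq_zero_iff_mem.1 this.symm

end HnA

end Pool.Agent.P.MP_389f6f_co.Sp
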